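import Pool.Agent.MP_57341d_ag.HW.Geo
import Pool.Agent.MP_57341d_ag.H72.WDefs

attribute [-instance] SetLike.GradeZero.instCommSemiring RKHS.instFunLike
  IsOrderedCancelAddMonoid.toIsOrderedAddMonoid
  NonUnitalAlgSemiHomClass.toDistribMulActionSemiHomClass NonarchimedeanRing.toIsTopologicalRing
  NonarchimedeanAddGroup.toIsTopologicalAddGroup ContinuousLinearMap.toSeminormedRing
  MulRingSeminormClass.toMonoidWithZeroHomClass ContinuousLinearMap.toNormedRing
  IsStarProjection.instTrivialStarOfStarOrderedRing topologicalAddGroup_of_discreteTopology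
  CoalgHomClass.toSemilinearMapClass bot_nonempty AddQuantale.instAddLeftMono
  IsPurelyInseparable.instOfHasExponent ESeminormedAddCommMonoid.toAddCommMonoid
  TotallySeparatedSpace.t2Space IsAffineAddMonoid.toIsAddTorsionFree
  CanonicallyOrderedAdd.toAddLeftMono MonTypeEquivalenceMon.monMonoid
  Valued.isTopologicalDivisionRing GrpTypeEquivalenceGrp.grpGroup LieAdmissibleAlgebra.toModule
  MulSemiringActionSemiHomClass.toRingHomClass SemilatticeInf.toPartialOrder
  ContinuousLinearMap.toSeminormedAddCommGroup SemilinearIsometryClass.toSemilinearMapClass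
  Nontrivial.to_nonempty AddGroup.covconv RightPreLieAlgebra.toModule
  IsTopologicalTorsor.toContinuousSMul LeftPreLieAlgebra.toModule
  MulSemiringActionSemiHomClass.toDistribMulActionSemiHomClass NonUnitalNonAssocRing.toAddCommGroup
  littleWedderburn RingConeClass.toSubsemiringClass BialgHomClass.toAlgHomClass
  RingHomClass.toLinearMapClassRat FiniteField.instGrindPowIdentity NumberField.instFiniteDimensional
  NonUnitalAlgHomClass.instLinearMapClass TestFunctionClass.toDFunLike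
  ContDiffMapSupportedInClass.toDFunLike ProperSMul.toContinuousSMul IdemSemiring.toSemiring
  AlgHom.instContinuousLinearMapClassOfAlgHomClass IsSemitopologicalRing.toIsTopologicalAddGroup
  PositiveLinearMap.instContinuousLinearMapClassComplexOfLinearMapClassOfOrderHomClass
  Zero.instNonempty One.instNonempty Valued.toUniformSpace
  NonUnitalSubsemiringClass.toAddSubmonoidClass Normal.toIsAlgebraic
  LieAdmissibleRing.toNonUnitalNonAssocRing IsValuativeTopology.instIsTopologicalAddGroup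
  SetLike.GradeZero.instSemiring ValuationClass.toMonoidWithZeroHomClass
  NonUnitalAlgHomClass.toNonUnitalRingHomClass FunLike.toDecidableEq top_nonempty
  AddSubmonoidWithOneClass.toAddSubmonoidClass CentroidHomClass.toAddMonoidHomClass
  IsOrderedRing.toIsOrderedAddMonoid Group.IsPerfect.subsingleton_of_isMulCommutative
  IsAddTorsionFree.of_isDomain_charZero LieAlgebra.toModule
  CategoryTheory.Limits.Concrete.instUniqueToTypeTerminal IsUniformAddGroup.to_topologicalAddGroup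
  instSMulZeroClass AddTorsor.nonempty NonUnitalRing.toNonUnitalNonAssocRing
  LinearOrderedCommMonoidWithZero.toIsBotZeroClass AlgEquivClass.toAlgHomClass
  NonUnitalAlgHomClass.instSemilinearMapClassOfNonUnitalAlgSemiHomClassToMonoidHomRingHom
  MulEquivClass.toMonoidWithZeroHomClass LinearOrderedAddCommGroupWithTop.toIsOrderedAddMonoid
  LieRing.toAddCommGroup LinearOrder.toDecidableEq BialgHomClass.toMonoidHomClass Distrib.toAdd
  SubsemiringClass.toAddSubmonoidClass LinearOrderedAddCommMonoidWithTop.toIsOrderedAddMonoid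
  MulSemiringAction.toDistribMulAction instCoeTOfCoeDep
  SemilinearIsometryClass.toContinuousSemilinearMapClass ConnectedSpace.toNonempty

section

/-! Jets of analytic functions. -/

open Filter Topology

namespace GPC73

variable {g : ℕ}

/-- Iterated partial derivatives (the head of the list acts first). -/
noncomputable def pdl : List (Fin g) → ((Fin g → ℂ) → ℂ) → (Fin g → ℂ) → ℂ
  | [], f => f
  | j :: l, f => pdl l (pd j f)

/-- `f` is analytic at `p` and its partial derivatives of order `< n` at `p` lie in `K`. -/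
def JS (K : AddSubgroup ℂ) (p : Fin g → ℂ) : ℕ → ((Fin g → ℂ) → ℂ) → Prop
  | 0, f => AnalyticAt ℂ f p
  | n + 1, f => AnalyticAt ℂ f p ∧ f p ∈ K ∧ ∀ j, JS K p n (pd j f)

/-- The algebraic numbers. -/
noncomputable def QA : AddSubgroup ℂ := (algebraicClosure ℚ ℂ).toSubfield.toAddSubgroup

variable {K : AddSubgroup ℂ} {p : Fin g → ℂ} {n : ℕ} {f f' u : (Fin g → ℂ) → ℂ}

theorem mem_QA {c : ℂ} : c ∈ QA ↔ IsAlgebraic ℚ c := mem_algebraicClosure_iff

theorem an_pd (h : AnalyticAt ℂ f p) (j : Fin g) : AnalyticAt ℂ (pd j f) p := by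
  exact (ContinuousLinearMap.apply ℂ ℂ (Pi.single j 1 : Fin g → ℂ)).analyticAt _ |>.comp h.fderiv

theorem pd_congr (e : f =ᶠ[𝓝 p] f') (j : Fin g) : pd j f =ᶠ[𝓝 p] pd j f' := by
  filter_upwards [e.fderiv (𝕜 := ℂ)] with z hz
  simp only [pd, hz]

theorem pdl_congr (e : f =ᶠ[𝓝 p] f') (l : List (Fin g)) : pdl l f p = pdl l f' p := by
  induction l generalizing f f' with
  | nil => exact e.eq_of_nhds
  | cons j l ih => exact ih (pd_congr e j)

theorem pd_mul_nhds (h : AnalyticAt ℂ f p) (h' : AnalyticAt ℂ f' p) (j : Fin g) :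
    pd j (fun z => f z * f' z) =ᶠ[𝓝 p] fun z => pd j f z * f' z + f z * pd j f' z := by
  filter_upwards [h.eventually_analyticAt, h'.eventually_analyticAt] with z hz hz'
  simp only [pd, fderiv_fun_mul hz.differentiableAt hz'.differentiableAt,
    add_apply, smul_apply, smul_eq_mul]
  ring

theorem a1_pd_add (h : AnalyticAt ℂ f p) (h' : AnalyticAt ℂ f' p) (j : Fin g) :
    pd j (fun z => f z + f' z) =ᶠ[𝓝 p] fun z => pd j f z + pd j f' z := by
  filter_upwards [h.eventually_analyticAt, h'.eventually_analyticAt] with z hz hz'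
  simp only [pd, fderiv_fun_add hz.differentiableAt hz'.differentiableAt,
    add_apply]

theorem pdl_add (h : AnalyticAt ℂ f p) (h' : AnalyticAt ℂ f' p) (l : List (Fin g)) :
    pdl l (fun z => f z + f' z) p = pdl l f p + pdl l f' p := by
  induction l generalizing f f' with
  | nil => rfl
  | cons j l ih =>
    exact (pdl_congr (a1_pd_add h h' j) l).trans (ih (an_pd h j) (an_pd h' j))

theorem JS.an (h : JS K p n f) : AnalyticAt ℂ f p := by
  cases n with
  | zero => exact h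
  | succ n => exact h.1

theorem js_iff : JS K p n f ↔
    AnalyticAt ℂ f p ∧ ∀ l : List (Fin g), l.length < n → pdl l f p ∈ K := by
  induction n generalizing f with
  | zero => exact ⟨fun h => ⟨h, fun l hl => absurd hl (Nat.not_lt_zero _)⟩, fun h => h.1⟩
  | succ n ih =>
    refine ⟨fun h => ⟨h.1, fun l hl => ?_⟩, fun h => ⟨h.1, h.2 [] n.succ_pos, fun j =>
      ih.2 ⟨an_pd h.1 j, fun l hl => h.2 (j :: l) (Nat.succ_lt_succ hl)⟩⟩⟩
    cases l with
    | nil => exact h.2.1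
    | cons j l => exact (ih.1 (h.2.2 j)).2 l (Nat.lt_of_succ_lt_succ hl)

theorem JS.congr (h : JS K p n f) (e : f =ᶠ[𝓝 p] f') : JS K p n f' := by
  rw [js_iff] at h ⊢
  exact ⟨h.1.congr e, fun l hl => pdl_congr e l ▸ h.2 l hl⟩

theorem JS.mono {m : ℕ} (h : JS K p n f) (hm : m ≤ n) : JS K p m f := by
  rw [js_iff] at h ⊢
  exact ⟨h.1, fun l hl => h.2 l (hl.trans_le hm)⟩

theorem js_top (h : AnalyticAt ℂ f p) : JS ⊤ p n f := by
  exact js_iff.2 ⟨h, fun _ _ => trivial⟩

theorem js_const {c : ℂ} (hc : c ∈ K) : JS K p n fun _ => c := by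
  induction n generalizing c with
  | zero => exact analyticAt_const
  | succ n ih =>
    refine ⟨analyticAt_const, hc, fun j => ?_⟩
    have e : pd j (fun _ : Fin g → ℂ => c) = fun _ => 0 := by
      funext z
      simp [pd]
    rw [e]
    exact ih K.zero_mem

theorem JS.add (h : JS K p n f) (h' : JS K p n f') : JS K p n fun z => f z + f' z := by
  rw [js_iff] at h h' ⊢
  refine ⟨h.1.add h'.1, fun l hl => ?_⟩
  rw [pdl_add h.1 h'.1]
  exact K.add_mem (h.2 l hl) (h'.2 l hl)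

theorem js_sum {ι : Type} (s : Finset ι) {f : ι → (Fin g → ℂ) → ℂ} (h : ∀ i, JS K p n (f i)) :
    JS K p n fun z => ∑ i ∈ s, f i z := by
  classical
  induction s using Finset.induction_on with
  | empty => simpa using js_const K.zero_mem
  | insert a s ha ih => simpa only [Finset.sum_insert ha] using (h a).add ih

/-- Induction on `n`, `pd_mul_nhds`. -/
theorem JS.mul {L K' : AddSubgroup ℂ} (hK : ∀ a ∈ K, ∀ b ∈ L, a * b ∈ K') (h : JS K p n f)
    (h' : JS L p n f') : JS K' p n fun z => f z * f' z := by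
  induction n generalizing f f' with
  | zero => exact AnalyticAt.mul h h'
  | succ n ih =>
    exact ⟨h.1.mul h'.1, hK _ h.2.1 _ h'.2.1, fun j =>
      ((ih (h.2.2 j) (h'.mono n.le_succ)).add (ih (h.mono n.le_succ) (h'.2.2 j))).congr
        (pd_mul_nhds h.1 h'.1 j).symm⟩

theorem JS.mulA (h : JS QA p n f) (h' : JS QA p n f') : JS QA p n fun z => f z * f' z := by
  exact h.mul (fun a ha b hb => mem_QA.2 ((mem_QA.1 ha).mul (mem_QA.1 hb))) h'

/-- `pd_affine`. -/
theorem JS.aff {c : ℂ} (hc : IsAlgebraic ℚ c) {y p' : Fin g → ℂ} (hp : c • p' + y = p)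
    (h : JS QA p n f) : JS QA p' n fun w => f (c • w + y) := by
  subst hp
  have ha : AnalyticAt ℂ (fun w : Fin g → ℂ => c • w + y) p' := by fun_prop
  induction n generalizing f with
  | zero => exact AnalyticAt.comp (f := fun w : Fin g → ℂ => c • w + y) h ha
  | succ n ih =>
    refine ⟨AnalyticAt.comp (f := fun w : Fin g → ℂ => c • w + y) h.1 ha, h.2.1, fun j =>
      ((js_const (mem_QA.2 hc)).mulA (ih (h.2.2 j))).congr ?_⟩
    filter_upwards [ha.continuousAt.eventually h.1.eventually_analyticAt] with z hz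
    have e := pd_affine (f := f) (c • ContinuousLinearMap.id ℂ (Fin g → ℂ)) y (z := z)
      hz.differentiableAt j
    simp only [smul_apply, ContinuousLinearMap.id_apply, Pi.smul_apply, Pi.single_apply,
      smul_eq_mul, mul_ite, mul_one, mul_zero, ite_mul, zero_mul, Finset.sum_ite_eq',
      Finset.mem_univ, if_true] at e
    exact e.symm

/-- Linear differential systems: induction on `n`. -/
theorem js_ode {L : Fin g → (Fin g → ℂ) → ℂ} (hf : AnalyticAt ℂ f p) (h0 : f p ∈ QA)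
    (hL : ∀ n j, JS QA p n (L j)) (h : ∀ j, pd j f =ᶠ[𝓝 p] fun z => L j z * f z) (n : ℕ) :
    JS QA p n f := by
  induction n with
  | zero => exact hf
  | succ n ih => exact ⟨hf, h0, fun j => ((hL n j).mulA ih).congr (h j).symm⟩

/-- Leibniz; induction on `l` generalising `u`, `f` (compare `ap_mul_sub`): `pd j u * f` is in
`JS ⊥ p (l.length + 1)` by `JS.mul`, `js_top`. -/
theorem pdl_mul_zero (hu : AnalyticAt ℂ u p) {l : List (Fin g)} (h : JS ⊥ p l.length f) :
    pdl l (fun z => u z * f z) p = u p * pdl l f p := by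
  induction l generalizing u f with
  | nil => rfl
  | cons j l ih =>
    have h : JS ⊥ p (l.length + 1) f := h
    have h1 : JS ⊥ p (l.length + 1) fun z => pd j u z * f z :=
      JS.mul (K := ⊤) (fun a _ b hb => by rw [AddSubgroup.mem_bot.1 hb, mul_zero]; rfl)
        (js_top (an_pd hu j)) h
    have h2 := (js_iff.1 h1).2 l (Nat.lt_succ_self _)
    change pdl l (pd j fun z => u z * f z) p = u p * pdl l (pd j f) p
    rw [pdl_congr (pd_mul_nhds hu h.1 j),
      pdl_add h1.an (f' := fun z => u z * pd j f z) (hu.mul (an_pd h.1 j)),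
      AddSubgroup.mem_bot.1 h2, zero_add, ih hu (h.2.2 j)]

/-- All derivatives of `t ↦ f (p + t • v)` at `0` vanish (its derivative is
`∑ j, v j * pd j f (p + t • v)` near `0`); then `Mer.zero_of_lines`. -/
theorem js_zero (hm : Mer f) (h : ∀ n, JS ⊥ p n f) : f =ᶠ[gen g] fun _ => 0 := by
  refine hm.zero_of_lines (h 0).an fun v => ?_
  have ha : ∀ t, AnalyticAt ℂ (fun t : ℂ => p + t • v) t := fun t => by fun_prop
  have hp : p + (0 : ℂ) • v = p := by rw [zero_smul, add_zero]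
  have key : ∀ (m : ℕ) (f : (Fin g → ℂ) → ℂ), (∀ n, JS ⊥ p n f) →
      iteratedDeriv m (fun t : ℂ => f (p + t • v)) 0 = 0 := by
    intro m
    induction m with
    | zero =>
      intro f h
      rw [iteratedDeriv_zero, hp]
      exact AddSubgroup.mem_bot.1 (h 1).2.1
    | succ m ih =>
      intro f h
      rw [iteratedDeriv_succ']
      refine (EventuallyEq.iteratedDeriv_eq m ?_).trans
        (ih (fun z => ∑ j, v j * pd j f z) fun n => js_sum _ fun j =>
          JS.mul (K := ⊤) (fun a _ b hb => by rw [AddSubgroup.mem_bot.1 hb, mul_zero]; rfl)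
            (js_top analyticAt_const) ((h (n + 1)).2.2 j))
      have h0 : AnalyticAt ℂ f (p + (0 : ℂ) • v) := by rw [hp]; exact (h 0).an
      filter_upwards [(ha 0).continuousAt.eventually h0.eventually_analyticAt] with t ht
      have d1 : HasDerivAt (fun t : ℂ => p + t • v) v t := by
        simpa using ((hasDerivAt_id t).smul_const v).const_add p
      exact (ht.differentiableAt.hasFDerivAt.comp_hasDerivAt t d1).deriv.trans (end2_lin _ v)
  have h0 : AnalyticAt ℂ (fun t : ℂ => f (p + t • v)) 0 :=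
    AnalyticAt.comp (f := fun t : ℂ => p + t • v) (by simpa only [hp] using (h 0).an) (ha 0)
  exact analyticOrderAt_eq_top.1 (ENat.eq_top_iff_forall_ge.2 fun m =>
    (natCast_le_analyticOrderAt_iff_iteratedDeriv_eq_zero h0).2 fun i _ => key i f h)

end GPC73

end

section

/-! Values of conjugate rational functions at the algebraic point `x`. -/

open MvPolynomial Filter Topology

namespace GPC73.Gx

variable {g N m : ℕ} {A : AbVar g N} {G : Gx A m} {x : Fin g → ℂ} {σ : ℂ →ₐ[Qb] ℂ}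
  {u u' : (Fin g → ℂ) → ℂ}

theorem Arith.om (hG : G.Arith 0 x) : x ∈ G.Om := G.gx_ne hG.ne

/-- `hG.pt`, `sigma_alg`; `bx_none`, `map_sigma σ hG.q`. -/
theorem sigma_bx (hG : G.Arith 0 x) (σ : ℂ →ₐ[Qb] ℂ) (i : Option (Fin (N + 1))) :
    σ (G.bx i x) = G.bx i x := by
  have h1 : ∀ i, σ (xc A G.k x i) = xc A G.k x i := fun i => sigma_alg σ (hG.pt i)
  rcases i with _ | i
  · have h2 : σ (ev A G.k G.q x) = ev A G.k G.q x := by
      have := map_eval (σ : ℂ →+* ℂ) (xc A G.k x) G.q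
      rwa [map_sigma σ hG.q, show (σ : ℂ →+* ℂ) ∘ xc A G.k x = xc A G.k x from funext h1] at this
    have h3 := G.bx_none hG.om
    have h4 := congrArg σ h3
    rw [map_mul, h2, map_one] at h4
    exact mul_right_cancel₀ (right_ne_zero_of_mul_eq_one h3) (h4.trans h3.symm)
  · exact h1 i

/-- Induction on `l` generalising `P`: near `x` the derivative is the value of
`∑ i, pderiv i P * G.bd j i` (`gx_chain`, `bx_der`, `bx_an`, `om_open`); `pderiv_map`, `map_bd`,
`pdl_congr`. -/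
theorem sigma_pdl (hG : G.Arith 0 x) (σ : ℂ →ₐ[Qb] ℂ) (l : List (Fin g))
    (P : MvPolynomial (Option (Fin (N + 1))) ℂ) :
    σ (pdl l (fun z => eval (fun i => G.bx i z) P) x) =
      pdl l (fun z => eval (fun i => G.bx i z) (map (σ : ℂ →+* ℂ) P)) x := by
  have key : ∀ (j : Fin g) (P : MvPolynomial (Option (Fin (N + 1))) ℂ),
      pd j (fun z => eval (fun i => G.bx i z) P) =ᶠ[𝓝 x]
        fun z => eval (fun i => G.bx i z) (∑ i, pderiv i P * G.bd j i) := fun j P => by
    filter_upwards [G.om_open.mem_nhds hG.om] with z hz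
    rw [(gx_chain (fun i => (G.bx_an i z hz).differentiableAt) j P).2]
    simp only [map_sum, map_mul, G.bx_der j _ hz]
  induction l generalizing P with
  | nil =>
    have := map_eval (σ : ℂ →+* ℂ) (fun i => G.bx i x) P
    rwa [show ((σ : ℂ →+* ℂ) ∘ fun i => G.bx i x) = fun i => G.bx i x from
      funext (sigma_bx hG σ)] at this
  | cons j l ih =>
    rw [pdl, pdl, pdl_congr (key j P), pdl_congr (key j _), ih]
    simp only [map_sum, map_mul, pderiv_map, map_bd hG]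

/-- Let `u = p / q`.  Near `x`, `u * ev q = ev p` and `u' * ev (σ q) = ev (σ p)` (`gen_eq_at`,
`conj_ne`).  Take a shortest word `l` with `pdl l (ev q) x ≠ 0` (`js_zero`, `js_iff`, `ev_mer`);
`sigma_pdl` (with `rename some`), `pdl_mul_zero`. -/
theorem v0 (hG : G.Arith 0 x) (h : Cj A G.k σ u u') (hu : AnalyticAt ℂ u x)
    (hu' : AnalyticAt ℂ u' x) : σ (u x) = u' x := by
  classical
  obtain ⟨hk, p, q, hq, h1, h2⟩ := h
  have hx := hG.om.1
  have hs : ∀ (l : List (Fin g)) (P : MvPolynomial (Fin (N + 1)) ℂ), σ (pdl l (ev A G.k P) x) =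
      pdl l (ev A G.k (map (σ : ℂ →+* ℂ) P)) x := fun l P => by
    have := sigma_pdl hG σ l (rename some P)
    simp only [map_rename, eval_rename] at this
    exact this
  have loc : ∀ {u : (Fin g → ℂ) → ℂ} {p q : MvPolynomial (Fin (N + 1)) ℂ}, AnalyticAt ℂ u x →
      (∀ᶠ z in gen g, ev A G.k q z ≠ 0) →
      (u =ᶠ[gen g] fun z => ev A G.k p z / ev A G.k q z) → ∀ l : List (Fin g),
      (∀ l' : List (Fin g), l'.length < l.length → pdl l' (ev A G.k q) x = 0) →
      u x * pdl l (ev A G.k q) x = pdl l (ev A G.k p) x := by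
    intro u p q hu hq h l hl
    have e : (fun z => u z * ev A G.k q z) =ᶠ[gen g] ev A G.k p := by
      filter_upwards [hq, h] with z a b
      rw [b, div_mul_cancel₀ _ a]
    rw [← pdl_mul_zero hu (js_iff.2 ⟨ev_an q x hx, fun l' h' => hl l' h'⟩)]
    refine pdl_congr ?_ l
    filter_upwards [hu.eventually_analyticAt, G.om_open.mem_nhds hG.om] with z a b
    exact gen_eq_at e (a.mul (ev_an q z b.1)).continuousAt (ev_an p z b.1).continuousAt
  have hex : ∃ n, ∃ l : List (Fin g), l.length = n ∧ pdl l (ev A G.k q) x ≠ 0 := by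
    by_contra hc
    push Not at hc
    have h0 := js_zero (p := x) (ev_mer (A := A) (k := G.k) q) fun n =>
      js_iff.2 ⟨ev_an q x hx, fun l _ => hc _ l rfl⟩
    obtain ⟨z, a, b⟩ := (gen_dense (hq.and h0)).nonempty
    exact a b
  obtain ⟨l, hl, h0⟩ := Nat.find_spec hex
  have hm : ∀ l' : List (Fin g), l'.length < l.length → pdl l' (ev A G.k q) x = 0 := fun l' h' =>
    not_not.1 fun h => Nat.find_min hex (hl ▸ h') ⟨l', rfl, h⟩
  have a := congrArg σ (loc hu hq h1 l hm)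
  have b := loc hu' (conj_ne hk σ hq) h2 l fun l' h' => by rw [← hs, hm l' h', map_zero]
  rw [← hs, ← hs, ← a, map_mul] at b
  exact (mul_right_cancel₀ ((map_ne_zero σ).2 h0) b).symm

/-- `Cj.der`, `an_pd`. -/
theorem v0_pdl (hG : G.Arith 0 x) (h : Cj A G.k σ u u') (hu : AnalyticAt ℂ u x)
    (hu' : AnalyticAt ℂ u' x) (l : List (Fin g)) : σ (pdl l u x) = pdl l u' x := by
  induction l generalizing u u' with
  | nil => exact v0 hG h hu hu'
  | cons j l ih => exact ih (h.der j) (an_pd hu j) (an_pd hu' j)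

/-- `alg_of_countable`, `js_iff`. -/
theorem js_of_cj (hG : G.Arith 0 x) {T : Set ((Fin g → ℂ) → ℂ)} (hT : T.Countable)
    (hu : AnalyticAt ℂ u x) (h : ∀ σ, ∃ v ∈ T, AnalyticAt ℂ v x ∧ Cj A G.k σ u v) (n : ℕ) :
    JS QA x n u := by
  refine js_iff.2 ⟨hu, fun l _ => mem_QA.2 (alg_of_countable (hT.image fun v => pdl l v x)
    fun σ => ?_)⟩
  obtain ⟨v, hv, ha, hc⟩ := h σ
  exact ⟨v, hv, (v0_pdl hG hc hu ha l).symm⟩

end GPC73.Gx

end

section

/-! Conjugates of the maps `w ↦ c • w + y`. -/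

open MvPolynomial Filter Topology

namespace GPC73

variable {g N m : ℕ} {A : AbVar g N} {k : Fin (N + 1)} {σ : ℂ →ₐ[Qb] ℂ} {c : ℂ}
  {y y' y'' y₁ y₁' : Fin g → ℂ} {u u' : (Fin g → ℂ) → ℂ}

/-- The map `w ↦ c • w + y'` is the conjugate of `w ↦ c • w + y`. -/
def Tr (A : AbVar g N) (k : Fin (N + 1)) (σ : ℂ →ₐ[Qb] ℂ) (c : ℂ) (y y' : Fin g → ℂ) : Prop :=
  ∀ i, Cj A k σ (fun w => xc A k (c • w + y) i) fun w => xc A k (c • w + y') i

theorem gen_aff (hc : c ≠ 0) (y : Fin g → ℂ) : Tendsto (fun w => c • w + y) (gen g) (gen g) := by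
  rintro s ⟨b, h1, ⟨z, hz⟩, h3⟩
  refine ⟨fun w => b (c • w + y), fun w _ => (h1 (c • w + y) trivial).comp
    (f := fun w => c • w + y) (by fun_prop),
    ⟨c⁻¹ • (z - y), ?_⟩, fun w hw => h3 _ hw⟩
  simpa only [smul_inv_smul₀ hc, sub_add_cancel] using hz

/-- `cj_eval`, `Cj.div`, `gen_aff`. -/
theorem cj_comp (hc : c ≠ 0) (hT : Tr A k σ c y y') (h : Cj A k σ u u') :
    Cj A k σ (fun w => u (c • w + y)) fun w => u' (c • w + y') := by
  obtain ⟨hk, p, q, -, hu, hv⟩ := h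
  exact ((cj_eval hk hT p).div (cj_eval hk hT q)).congr
    (((gen_aff hc y).eventually hu).mono fun w hw => hw.symm)
    (((gen_aff hc y').eventually hv).mono fun w hw => hw.symm)

/-- `theta_per`. -/
theorem xc_perZ (n : Fin (2 * g) → ℤ) (z : Fin g → ℂ) : xc A k (z + A.per n) = xc A k z := by
  obtain ⟨c, hc⟩ := theta_per (A := A) n
  funext i
  simp only [xc, hc]
  exact mul_div_mul_left _ _ (Complex.exp_ne_zero _)

theorem tr_one (hk : ∃ z, A.θ k z ≠ 0) : Tr A k σ 1 0 0 := by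
  intro i
  simpa only [one_smul, add_zero] using cj_x hk σ k i

theorem Tr.per (h : Tr A k σ c y y') (n n' : Fin (2 * g) → ℤ) :
    Tr A k σ c (y + A.per n) (y' + A.per n') := by
  intro i
  simpa only [← add_assoc, xc_perZ] using h i

theorem Tr.comp (h₁ : Tr A k σ 1 y₁ y₁') (hc : c ≠ 0) (h : Tr A k σ c y y') :
    Tr A k σ c (y + y₁) (y' + y₁') := by
  intro i
  simpa only [one_smul, add_assoc] using cj_comp hc h (h₁ i)

theorem Tr.nsmul (h : Tr A k σ 1 y y') (n : ℕ) : Tr A k σ 1 ((n : ℂ) • y) ((n : ℂ) • y') := by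
  induction n with
  | zero => simpa only [Nat.cast_zero, zero_smul] using tr_one (h k).1
  | succ n ih => simpa only [Nat.cast_succ, add_smul, one_smul] using h.comp one_ne_zero ih

/-- `Cj.unique`, `xc_inj` at a generic point. -/
theorem Tr.uniq (hc : c ≠ 0) (h : Tr A k σ c y y') (h' : Tr A k σ c y y'') :
    ∃ n, y'' = y' + A.per n := by
  have hk := gen_ne (A.hol k) (h k).1
  have e := eventually_all.2 fun i => (h i).unique (h' i) EventuallyEq.rfl
  obtain ⟨w, h1, h2, h3⟩ :=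
    (((gen_aff hc y').eventually hk).and (((gen_aff hc y'').eventually hk).and e)).exists
  obtain ⟨n, hn⟩ := xc_inj h1 h2 (funext h3)
  exact ⟨n, add_left_cancel (hn.trans (add_assoc _ _ _))⟩

/-- `good_of_sum` with `β₂ = 0`, `φ₂ = 0`, `φ₁ = n • 1`, `D = n.natAbs ^ 2`. -/
theorem good_int (A : AbVar g N) (n : ℤ) : Good A ((n : ℂ) • ContinuousLinearMap.id ℂ _) := by
  refine good_of_sum A _ 0 (Matrix.diagonal fun _ => n) 0 (fun l => ?_) (fun l => ?_)
    (n.natAbs ^ 2) ?_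
  · simp [AbVar.per, Matrix.diagonal_apply, Int.cast_smul_eq_zsmul]
  · simp only [zero_apply, AbVar.per, Matrix.zero_apply, zero_smul, Finset.sum_const_zero]
  · have : ((n.natAbs ^ 2 : ℕ) : ℂ) = (n : ℂ) * n := by
      rw [← Int.cast_natCast, Nat.cast_pow, Int.natAbs_sq]
      push_cast
      ring
    ext i j
    simp [Matrix.diagonal_map, this]
    ring

namespace Gx

variable {G : Gx A m} {x : Fin g → ℂ}

/-- `exists_cj_bx`, `lift` (the conjugate matrix is the same). -/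
theorem tr_om (hG : G.Arith 0 x) (σ : ℂ →ₐ[Qb] ℂ) (n : ℤ) (hy : y ∈ G.Om) :
    ∃ y', Tr A G.k σ n y y' := by
  choose R hR using exists_cj_bx (G := G) σ (good_int A n) y
  obtain ⟨β, y', hβ, -, hE, -⟩ := lift hG hy hR
  have e : β = (n : ℂ) • ContinuousLinearMap.id ℂ _ := by
    refine ContinuousLinearMap.coe_injective (LinearMap.pi_ext' fun j => ?_)
    ext l
    have := hβ j l
    by_cases h : l = j <;> simp_all [Pi.single_apply]
  subst e
  exact ⟨y', fun i => (hR (some i)).congr EventuallyEq.rfl (hE (some i))⟩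

/-- Write `y` as a sum of two points of `Om` (`end4_om`, `gen_aff`); `Tr.comp`. -/
theorem tr_ex (hG : G.Arith 0 x) (σ : ℂ →ₐ[Qb] ℂ) {n : ℤ} (hn : n ≠ 0) (y : Fin g → ℂ) :
    ∃ y', Tr A G.k σ n y y' := by
  obtain ⟨w, h1, h2⟩ := ((end4_om G).and ((gen_aff (neg_ne_zero.2 one_ne_zero) y).eventually
    (end4_om G))).exists
  obtain ⟨a, ha⟩ := tr_om hG σ 1 h1
  obtain ⟨b, hb⟩ := tr_om hG σ n h2
  rw [Int.cast_one] at ha
  have := ha.comp (Int.cast_ne_zero.2 hn) hb
  rw [show (-1 : ℂ) • w + y + w = y by module] at this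
  exact ⟨_, this⟩

/-- Let `y'` come from `tr_ex`, `P = n • x + y'`, `θ l P ≠ 0`, and `c : ℕ` with
`L = θ l + c * θ k` nonzero at `x` and at `P`.  The functions `θ i / L` are their own conjugates
(`cj_x`); `cj_comp`, `v0`, `hG.pt`, `sigma_alg` give `θ i x / L x = θ i P / L P`; `A.inj`,
`Tr.per`. -/
theorem tr_fix (hG : G.Arith 0 x) (σ : ℂ →ₐ[Qb] ℂ) {n : ℤ} (hn : n ≠ 0)
    (hy : (n : ℂ) • x + y = x) : Tr A G.k σ n y y := by
  obtain ⟨y', hT⟩ := tr_ex hG σ hn y
  have hx := hG.om.1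
  have hk : ∃ z, A.θ G.k z ≠ 0 := ⟨x, hx⟩
  set P := (n : ℂ) • x + y' with hP
  obtain ⟨l, hl⟩ := A.ne P
  obtain ⟨c, c1, c2⟩ : ∃ c : ℕ, A.θ l x + c * A.θ G.k x ≠ 0 ∧ A.θ l P + c * A.θ G.k P ≠ 0 := by
    by_contra hc
    simp only [not_exists, not_and, not_not] at hc
    have h0 : A.θ l x = 0 := by
      by_contra h
      exact hl (by simpa using hc 0 (by simpa using h))
    have h1 := hc 1 (by simpa [h0] using hx)
    have h2 := hc 2 (by simpa [h0] using hx)
    push_cast at h1 h2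
    exact hl (by linear_combination 2 * h1 - h2)
  have hc : ∀ i, Cj A G.k σ (fun z => A.θ i z / (A.θ l z + c * A.θ G.k z))
      fun z => A.θ i z / (A.θ l z + c * A.θ G.k z) := fun i => by
    have h1 := (cj_x hk σ G.k i).div ((cj_x hk σ G.k l).add (cj_const hk σ c))
    rw [map_natCast] at h1
    have h2 : (fun z => xc A G.k z i / (xc A G.k z l + c)) =ᶠ[gen g]
        fun z => A.θ i z / (A.θ l z + c * A.θ G.k z) := by
      filter_upwards [gen_ne (A.hol G.k) hk] with z hz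
      rw [xc, xc, div_add' _ _ _ hz, div_div_div_cancel_right₀ hz]
    exact h1.congr h2 h2
  have an : ∀ i (y : Fin g → ℂ), A.θ l ((n : ℂ) • x + y) + c * A.θ G.k ((n : ℂ) • x + y) ≠ 0 →
      AnalyticAt ℂ (fun w => A.θ i ((n : ℂ) • w + y) /
        (A.θ l ((n : ℂ) • w + y) + c * A.θ G.k ((n : ℂ) • w + y))) x := fun i y h => by
    have e := fun i => en_affine (A.hol i) ((n : ℂ) • ContinuousLinearMap.id ℂ _) y x trivial
    exact (e i).div ((e l).add (analyticAt_const.mul (e G.k))) h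
  have hv : ∀ i, A.θ i x / (A.θ l x + c * A.θ G.k x) = A.θ i P / (A.θ l P + c * A.θ G.k P) :=
    fun i => by
      have h1 := v0 hG (cj_comp (Int.cast_ne_zero.2 hn) hT (hc i)) (an i y (by rwa [hy]))
        (an i y' c2)
      simp only [hy] at h1
      rw [← h1, sigma_alg]
      have h2 : A.θ i x / (A.θ l x + c * A.θ G.k x) =
          A.θ i x / A.θ G.k x / (A.θ l x / A.θ G.k x + c) := by
        rw [div_add' _ _ _ hx, div_div_div_cancel_right₀ hx]
      rw [h2, div_eq_mul_inv]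
      exact (hG.pt i).mul ((hG.pt l).add (isAlgebraic_natCast c)).inv
  obtain ⟨e, he⟩ := A.inj P x ((A.θ l x + c * A.θ G.k x) / (A.θ l P + c * A.θ G.k P)) fun i => by
    rw [div_mul_eq_mul_div, mul_div_assoc, ← hv i, mul_div_cancel₀ _ c1]
  have h3 := hT.per 0 e
  have h4 : y' + A.per e = y := by
    have h5 : (n : ℂ) • x + y = P + A.per e := hy.trans he
    rw [hP, add_assoc] at h5
    exact (add_left_cancel h5).symm
  rwa [h4, show A.per 0 = 0 by simp only [AbVar.per, Pi.zero_apply, zero_smul, Finset.sum_const_zero], add_zero] at h3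

/-- `tr_ex`, `Tr.comp`, `Tr.uniq` with `tr_one`, `Tr.per`. -/
theorem tr_neg (hG : G.Arith 0 x) (h : Tr A G.k σ 1 y y') : Tr A G.k σ 1 (-y) (-y') := by
  obtain ⟨a, ha⟩ := tr_ex hG σ one_ne_zero (-y)
  rw [Int.cast_one] at ha
  have h1 := h.comp one_ne_zero ha
  rw [neg_add_cancel] at h1
  obtain ⟨n, hn⟩ := h1.uniq one_ne_zero (tr_one ⟨x, hG.om.1⟩)
  have h2 := ha.per 0 n
  rwa [show A.per 0 = 0 by simp only [AbVar.per, Pi.zero_apply, zero_smul, Finset.sum_const_zero], add_zero,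
    show a + A.per n = -y' by rw [eq_neg_iff_add_eq_zero, hn]; abel] at h2

/-- `tr_ex`, `Tr.nsmul`, `Tr.per`, `Tr.uniq` with `tr_one`. -/
theorem tr_tors (hG : G.Arith 0 x) (σ : ℂ →ₐ[Qb] ℂ) (M : ℕ) {n : Fin (2 * g) → ℤ}
    (h : (M : ℂ) • y = A.per n) :
    ∃ y' n', Tr A G.k σ 1 y y' ∧ (M : ℂ) • y' = A.per n' := by
  obtain ⟨a, ha⟩ := tr_ex hG σ one_ne_zero y
  rw [Int.cast_one] at ha
  have h1 := (tr_one (σ := σ) ⟨x, hG.om.1⟩).per n 0
  rw [zero_add, ← h] at h1
  obtain ⟨e, he⟩ := h1.uniq one_ne_zero (ha.nsmul M)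
  refine ⟨a, e, ha, ?_⟩
  rw [he, show A.per 0 = 0 by simp only [AbVar.per, Pi.zero_apply, zero_smul, Finset.sum_const_zero], zero_add, zero_add]

end Gx

end GPC73

end

section

/-! The rational functions `rho` and their conjugates. -/

open Filter Topology Complex

namespace GPC73

variable {g N m : ℕ}

/-- The point of the Lie algebra with the given coordinates. -/
noncomputable def zl (A : AbVar g N) : (Fin (2 * g) → ℂ) →ₗ[ℂ] (Fin g → ℂ) :=
  Fintype.linearCombination ℂ A.ω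

/-- The factor of automorphy with the given coordinates. -/
noncomputable def al (A : AbVar g N) : (Fin (2 * g) → ℂ) →ₗ[ℂ] ((Fin g → ℂ) →L[ℂ] ℂ) :=
  Fintype.linearCombination ℂ A.a

/-- Integer vectors. -/
def iv (n : Fin (2 * g) → ℤ) : Fin (2 * g) → ℂ := fun j => n j

/-- Second logarithmic derivative. -/
noncomputable def ddl (i j : Fin g) (f : (Fin g → ℂ) → ℂ) : (Fin g → ℂ) → ℂ :=
  pd i fun z => pd j f z / f z

/-- Second logarithmic derivative of `θ k`. -/
noncomputable def wp (A : AbVar g N) (k : Fin (N + 1)) (i j : Fin g) (z : Fin g → ℂ) : ℂ :=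
  wn A k i j z / A.θ k z ^ 2

/-- The symmetric product translated by `v`. -/
noncomputable def th2 (A : AbVar g N) (k : Fin (N + 1)) (x : Fin g → ℂ) (v : Fin (2 * g) → ℂ)
    (z : Fin g → ℂ) : ℂ :=
  A.θ k (z + (x + zl A v)) * A.θ k (-z + (x - zl A v)) *
    exp (-(2 * al A v z + al A v (zl A v)))

/-- A rational function if `M • v` is integral. -/
noncomputable def rho (A : AbVar g N) (k : Fin (N + 1)) (x : Fin g → ℂ) (M : ℕ)
    (v : Fin (2 * g) → ℂ) (w : Fin g → ℂ) : ℂ :=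
  th2 A k x v ((M : ℂ) • w + -((M : ℂ) • x)) / th2 A k x 0 ((M : ℂ) • w + -((M : ℂ) • x))

variable {A : AbVar g N} {k : Fin (N + 1)} {x z : Fin g → ℂ} {v : Fin (2 * g) → ℂ} {M : ℕ}
  {n : Fin (2 * g) → ℤ} {f f' : (Fin g → ℂ) → ℂ}

/-! ### Block D1 -/

theorem zl_iv (n : Fin (2 * g) → ℤ) : zl A (iv n) = A.per n := by
  simp only [zl, iv, Fintype.linearCombination_apply, AbVar.per, Int.cast_smul_eq_zsmul]

theorem al_ec (v v' : Fin (2 * g) → ℂ) :
    al A v (zl A v') - al A v' (zl A v) = Matrix.toLinearMap₂' ℂ A.Ec v v' := by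
  simp only [al, zl, Fintype.linearCombination_apply, Matrix.toLinearMap₂'_apply, AbVar.Ec,
    Matrix.of_apply, map_sum, map_smul, _root_.sum_apply, _root_.smul_apply, smul_eq_mul,
    Finset.mul_sum, mul_sub, Finset.sum_sub_distrib]
  rw [Finset.sum_comm]
  congr 1
  exact Finset.sum_congr rfl fun _ _ => Finset.sum_congr rfl fun _ _ => by ring

/-- `pol_int`. -/
theorem ec_iv (n n' : Fin (2 * g) → ℤ) :
    ∃ e : ℤ, Matrix.toLinearMap₂' ℂ A.Ec (iv n) (iv n') = e * (2 * Real.pi * I) := by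
  choose E hE using pol_int A
  refine ⟨∑ i, ∑ j, n i * n' j * E i j, ?_⟩
  simp only [Matrix.toLinearMap₂'_apply, iv, hE, smul_eq_mul, Int.cast_sum, Int.cast_mul,
    Finset.sum_mul]
  exact Finset.sum_congr rfl fun _ _ => Finset.sum_congr rfl fun _ _ => by ring

theorem d1_aff (hf : En f) (c : ℂ) (y : Fin g → ℂ) : En fun z => f (c • z + y) :=
  en_affine hf (c • ContinuousLinearMap.id ℂ _) y

theorem th2_en (v : Fin (2 * g) → ℂ) : En (th2 A k x v) := by
  have h1 := d1_aff (A.hol k) 1 (x + zl A v)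
  have h2 := d1_aff (A.hol k) (-1) (x - zl A v)
  simp only [neg_smul, one_smul] at h1 h2
  exact fun z _ => ((h1 z trivial).mul (h2 z trivial)).mul
    ((((analyticAt_const.mul ((al A v).analyticAt z)).add analyticAt_const).neg).cexp')

/-- `gen_aff`. -/
theorem th2_gen (hk : ∃ z, A.θ k z ≠ 0) (v : Fin (2 * g) → ℂ) :
    ∀ᶠ z in gen g, A.θ k (z + (x + zl A v)) ≠ 0 ∧ A.θ k (-z + (x - zl A v)) ≠ 0 := by
  have h := gen_ne (A.hol k) hk
  filter_upwards [(gen_tr (x + zl A v)).eventually h,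
    (gen_aff (neg_ne_zero.2 one_ne_zero) (x - zl A v)).eventually h] with z h1 h2
  exact ⟨h1, by simpa only [neg_smul, one_smul] using h2⟩

/-- `theta_per` twice. -/
theorem th2_per (v : Fin (2 * g) → ℂ) (n : Fin (2 * g) → ℤ) (z : Fin g → ℂ) :
    th2 A k x v (z + A.per n) = exp (2 * al A (iv n) z + al A (iv n) (A.per n) +
      2 * Matrix.toLinearMap₂' ℂ A.Ec (iv n) v) * th2 A k x v z := by
  obtain ⟨c, hc⟩ := theta_per A n
  have ha : ∀ w, ∑ l, (n l : ℂ) * A.a l w = al A (iv n) w := fun w => by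
    simp only [al, iv, Fintype.linearCombination_apply, _root_.sum_apply, _root_.smul_apply,
      smul_eq_mul]
  simp only [ha] at hc
  have h1 := hc k (z + (x + zl A v))
  have h2 := hc k (-(z + A.per n) + (x - zl A v))
  rw [show -(z + A.per n) + (x - zl A v) + A.per n = -z + (x - zl A v) by abel] at h2
  have h3 := al_ec (A := A) (iv n) v
  rw [zl_iv] at h3
  unfold th2
  rw [add_right_comm z (A.per n), h1, h2, ← h3]
  have e : exp (al A (iv n) (z + (x + zl A v)) + c) *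
      exp (-(2 * al A v (z + A.per n) + al A v (zl A v))) =
      exp (2 * al A (iv n) z + al A (iv n) (A.per n) +
        2 * (al A (iv n) (zl A v) - al A v (A.per n))) *
      exp (al A (iv n) (-(z + A.per n) + (x - zl A v)) + c) *
      exp (-(2 * al A v z + al A v (zl A v))) := by
    simp only [← Complex.exp_add, map_add, map_neg, map_sub]
    congr 1
    ring
  linear_combination (A.θ k (z + (x + zl A v)) * A.θ k (-(z + A.per n) + (x - zl A v))) * e

theorem rho_per (hv : (M : ℂ) • v = iv n) (j : Fin (2 * g)) (w : Fin g → ℂ) :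
    rho A k x M v (w + A.ω j) = rho A k x M v w := by
  have e1 : (M : ℂ) • (w + A.ω j) + -((M : ℂ) • x) =
      (M : ℂ) • w + -((M : ℂ) • x) + A.per (Pi.single j (M : ℤ)) := by
    have : A.per (Pi.single j (M : ℤ)) = (M : ℂ) • A.ω j := by
      rw [AbVar.per, Finset.sum_eq_single j]
      · simp only [Pi.single_eq_same, natCast_zsmul, Nat.cast_smul_eq_nsmul]
      · intro b _ hb
        simp [Pi.single_eq_of_ne hb]
      · simp only [Finset.mem_univ, not_true_eq_false, Pi.single_eq_same, zsmul_eq_mul, Int.cast_natCast, IsEmpty.forall_iff]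
    rw [this, smul_add]
    abel
  have e2 : iv (Pi.single j (M : ℤ) : Fin (2 * g) → ℤ) = (M : ℂ) • iv (Pi.single j 1) := by
    funext l
    by_cases hl : l = j <;> simp [iv, hl]
  obtain ⟨e, he⟩ := ec_iv (A := A) (Pi.single j 1) n
  have e3 : Matrix.toLinearMap₂' ℂ A.Ec (iv (Pi.single j (M : ℤ))) v = e * (2 * Real.pi * I) := by
    rw [← he, e2, ← hv]
    simp only [map_smul, LinearMap.smul_apply]
  unfold rho
  rw [e1, th2_per, th2_per, e3, map_zero, mul_zero, add_zero, Complex.exp_add _ (2 * _),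
    show 2 * (e * (2 * Real.pi * I) : ℂ) = ((2 * e : ℤ) : ℂ) * (2 * Real.pi * I) by
      push_cast; ring, Complex.exp_int_mul_two_pi_mul_I, mul_one]
  exact mul_div_mul_left _ _ (Complex.exp_ne_zero _)

theorem rho_mer (v : Fin (2 * g) → ℂ) : Mer (rho A k x M v) := by
  exact (En.mer (d1_aff (th2_en v) _ _)).div (En.mer (d1_aff (th2_en 0) _ _))

theorem d1_ne (hk : ∃ z, A.θ k z ≠ 0) (hM : M ≠ 0) (v : Fin (2 * g) → ℂ) :
    ∀ᶠ w in gen g, th2 A k x v ((M : ℂ) • w + -((M : ℂ) • x)) ≠ 0 := by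
  filter_upwards [(gen_aff (Nat.cast_ne_zero.2 hM) (-((M : ℂ) • x))).eventually
    (th2_gen (x := x) hk v)] with w h
  exact mul_ne_zero (mul_ne_zero h.1 h.2) (Complex.exp_ne_zero _)

theorem rho_ne (hk : ∃ z, A.θ k z ≠ 0) (hM : M ≠ 0) (v : Fin (2 * g) → ℂ) :
    ∀ᶠ w in gen g, rho A k x M v w ≠ 0 := by
  filter_upwards [d1_ne (x := x) hk hM v, d1_ne (x := x) hk hM 0] with w h1 h2
  exact div_ne_zero h1 h2

theorem rho_an (hx : A.θ k x ≠ 0) (v : Fin (2 * g) → ℂ) : AnalyticAt ℂ (rho A k x M v) x := by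
  refine (d1_aff (th2_en v) _ _ x trivial).div (d1_aff (th2_en 0) _ _ x trivial) ?_
  simp [th2, hx]

/-- `good_int` for `M` and `-M` makes the denominator times `κ₁ κ₂` a section; `sc_of_per`,
`cj_sc` (compare `exists_cj_F`). -/
theorem rho_cj (hk : ∃ z, A.θ k z ≠ 0) (hM : M ≠ 0) (hv : (M : ℂ) • v = iv n)
    (σ : ℂ →ₐ[Qb] ℂ) : ∃ r, Cj A k σ (rho A k x M v) r := by
  obtain ⟨D₁, κ₁, a₁, b₁, s₁⟩ := good_int A M (-((M : ℂ) • x) + x)
  obtain ⟨D₂, κ₂, a₂, b₂, s₂⟩ := good_int A (-M) ((M : ℂ) • x + x)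
  have s3 := (s₁ k).mul (s₂ k)
  have e1 : (fun z => A.θ k ((((M : ℤ) : ℂ) • ContinuousLinearMap.id ℂ _) z + (-((M : ℂ) • x) + x)) *
      κ₁ z * (A.θ k ((((-M : ℤ) : ℂ) • ContinuousLinearMap.id ℂ _) z + ((M : ℂ) • x + x)) * κ₂ z)) =
      fun z => th2 A k x 0 ((M : ℂ) • z + -((M : ℂ) • x)) * (κ₁ z * κ₂ z) := by
    funext z
    simp only [th2, map_zero, add_zero, sub_zero, _root_.zero_apply, mul_zero, neg_zero,
      Complex.exp_zero, mul_one, _root_.smul_apply, ContinuousLinearMap.id_apply, Int.cast_neg,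
      Int.cast_natCast, neg_smul, neg_add, neg_neg, add_assoc]
    ring
  rw [e1] at s3
  have e2 : (fun z => th2 A k x v ((M : ℂ) • z + -((M : ℂ) • x)) * (κ₁ z * κ₂ z)) =ᶠ[gen g]
      fun z => rho A k x M v z * (th2 A k x 0 ((M : ℂ) • z + -((M : ℂ) • x)) * (κ₁ z * κ₂ z)) := by
    filter_upwards [d1_ne (x := x) hk hM 0] with z hz
    rw [rho, ← mul_assoc (_ / _), div_mul_cancel₀ _ hz]
  have s4 := sc_of_per s3 ((d1_aff (th2_en v) _ _).mul (a₁.mul a₂))
    (fun j => Eventually.of_forall (rho_per hv j)) e2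
  obtain ⟨r, hr⟩ := cj_sc hk σ s4 s3
  refine ⟨r, hr.congr ?_ EventuallyEq.rfl⟩
  filter_upwards [gen_ne a₁ b₁, gen_ne a₂ b₂] with z h1 h2
  exact mul_div_mul_right _ _ (mul_ne_zero h1 h2)

theorem rho_inv (hk : ∃ z, A.θ k z ≠ 0) (hM : M ≠ 0) {t : Fin g → ℂ} (ht : (M : ℂ) • t = zl A v) :
    ∀ᶠ w in gen g, rho A k x M v (w + -t) * rho A k x M v (-w + (x + x)) = 1 := by
  have hM' : (M : ℂ) ≠ 0 := Nat.cast_ne_zero.2 hM
  filter_upwards [(gen_aff hM' (-((M : ℂ) • x))).eventually (th2_gen (x := x) hk 0),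
    (gen_aff hM' (-((M : ℂ) • x))).eventually (th2_gen (x := x) hk (-v))] with w h1 h2
  obtain ⟨z, hz⟩ : ∃ z, z = (M : ℂ) • w + -((M : ℂ) • x) := ⟨_, rfl⟩
  have e1 : (M : ℂ) • (w + -t) + -((M : ℂ) • x) = z - zl A v := by
    rw [hz, ← ht, smul_add, smul_neg]
    abel
  have e2 : (M : ℂ) • (-w + (x + x)) + -((M : ℂ) • x) = -z := by
    rw [hz, smul_add, smul_add, smul_neg]
    abel
  simp only [← hz, map_zero, add_zero, sub_zero, map_neg, sub_neg_eq_add,
    ← sub_eq_add_neg] at h1 h2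
  obtain ⟨h1, h1'⟩ := h1
  obtain ⟨h2, h2'⟩ := h2
  have e3 : exp (-(2 * al A v (z - zl A v) + al A v (zl A v))) *
      exp (-(2 * al A v (-z) + al A v (zl A v))) = 1 := by
    rw [← Complex.exp_add, ← Complex.exp_zero]
    congr 1
    simp only [map_sub, map_neg]
    ring
  simp only [rho, e1, e2, th2, map_zero, add_zero, sub_zero, _root_.zero_apply, mul_zero,
    neg_zero, Complex.exp_zero, mul_one, neg_neg]
  rw [show z - zl A v + (x + zl A v) = z + x by abel,
    show -(z - zl A v) + (x - zl A v) = -z + x by abel,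
    show z - zl A v + x = z + (x - zl A v) by abel,
    show -(z - zl A v) + x = -z + (x + zl A v) by abel]
  field_simp
  linear_combination e3

/-! ### Block D2 -/

theorem d2_has {L : (Fin g → ℂ) →L[ℂ] ℂ} (h : HasFDerivAt f L z) (j : Fin g) :
    pd j f z = L (Pi.single j 1) := by
  rw [pd, h.fderiv]

theorem d2_mul (h : AnalyticAt ℂ f z) (h' : AnalyticAt ℂ f' z) (j : Fin g) :
    pd j (fun w => f w * f' w) z = pd j f z * f' z + f z * pd j f' z :=
  (pd_mul_nhds h h' j).eq_of_nhds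

theorem d2_const (c : ℂ) (j : Fin g) : pd j (fun _ => c) z = 0 := by
  simp [pd]

theorem d2_div (h : AnalyticAt ℂ f z) (h' : AnalyticAt ℂ f' z) (h0 : f' z ≠ 0) (j : Fin g) :
    pd j (fun w => f w / f' w) z = (pd j f z * f' z - f z * pd j f' z) / f' z ^ 2 := by
  have e : (fun w => f w / f' w * f' w) =ᶠ[𝓝 z] f :=
    (h'.continuousAt.eventually_ne h0).mono fun w hw => div_mul_cancel₀ _ hw
  have e1 := (pd_congr e j).eq_of_nhds
  rw [d2_mul (h.fun_div h' h0) h'] at e1
  rw [← e1]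
  field_simp
  ring

theorem d2_an {c : ℂ} {y : Fin g → ℂ} (h : AnalyticAt ℂ f (c • z + y)) :
    AnalyticAt ℂ (fun w => f (c • w + y)) z :=
  AnalyticAt.comp (g := f) (f := fun w => c • w + y) h
    ((analyticAt_id.const_smul (c := c)).add analyticAt_const)

theorem d2_aff {c : ℂ} {y : Fin g → ℂ} (h : AnalyticAt ℂ f (c • z + y)) (j : Fin g) :
    pd j (fun w => f (c • w + y)) z = c * pd j f (c • z + y) := by
  have h1 := h.differentiableAt.hasFDerivAt.comp z
    (((hasFDerivAt_id (𝕜 := ℂ) z).const_smul c).add_const y)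
  refine (d2_has h1 j).trans ?_
  simp [pd]

theorem d2_wp (h : A.θ k z ≠ 0) (i j : Fin g) : ddl i j (A.θ k) z = wp A k i j z := by
  rw [ddl, d2_div (an_pd (A.hol k z trivial) j) (A.hol k z trivial) h, wp, wn]
  ring

theorem th2_dl (h₁ : A.θ k (z + (x + zl A v)) ≠ 0) (h₂ : A.θ k (-z + (x - zl A v)) ≠ 0)
    (j : Fin g) : pd j (th2 A k x v) z / th2 A k x v z =
      pd j (A.θ k) (z + (x + zl A v)) / A.θ k (z + (x + zl A v)) -
        pd j (A.θ k) (-z + (x - zl A v)) / A.θ k (-z + (x - zl A v)) -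
        2 * al A v (Pi.single j 1) := by
  have a1 := d2_an (c := 1) (z := z) (A.hol k (_ + (x + zl A v)) trivial)
  have a2 := d2_an (c := -1) (z := z) (A.hol k (_ + (x - zl A v)) trivial)
  have b1 := d2_aff (c := 1) (z := z) (A.hol k (_ + (x + zl A v)) trivial) j
  have b2 := d2_aff (c := -1) (z := z) (A.hol k (_ + (x - zl A v)) trivial) j
  simp only [one_smul, neg_smul] at a1 a2 b1 b2
  have a3 : AnalyticAt ℂ (fun z => exp (-(2 * al A v z + al A v (zl A v)))) z :=
    ((analyticAt_const.mul ((al A v).analyticAt z)).add analyticAt_const).neg.cexp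
  have b3 := d2_has ((((al A v).hasFDerivAt (x := z)).const_mul 2).add_const
    (al A v (zl A v))).neg.cexp j
  have e := d2_mul (a1.fun_mul a2) a3 j
  rw [d2_mul a1 a2, b1, b2] at e
  have e' : pd j (th2 A k x v) z = _ := e
  have b4 : pd j (fun z => exp (-(2 * al A v z + al A v (zl A v)))) z =
      exp (-(2 * al A v z + al A v (zl A v))) * -(2 * al A v (Pi.single j 1)) := by
    refine b3.trans ?_
    simp
  rw [e', b4, th2]
  field_simp
  ring

theorem th2_ddl (h₁ : A.θ k (z + (x + zl A v)) ≠ 0) (h₂ : A.θ k (-z + (x - zl A v)) ≠ 0)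
    (i j : Fin g) : ddl i j (th2 A k x v) z =
      wp A k i j (z + (x + zl A v)) + wp A k i j (-z + (x - zl A v)) := by
  have u : ∀ p, A.θ k p ≠ 0 → AnalyticAt ℂ (fun z => pd j (A.θ k) z / A.θ k z) p := fun p hp =>
    (an_pd (A.hol k p trivial) j).fun_div (A.hol k p trivial) hp
  have a1 := d2_an (c := 1) (z := z) (A.hol k (_ + (x + zl A v)) trivial)
  have a2 := d2_an (c := -1) (z := z) (A.hol k (_ + (x - zl A v)) trivial)
  have c1 := d2_an (c := 1) (z := z) (u (_ + (x + zl A v)) (by rwa [one_smul]))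
  have c2 := d2_an (c := -1) (z := z) (u (_ + (x - zl A v)) (by rwa [neg_smul, one_smul]))
  have b1 := d2_aff (c := 1) (z := z) (u (_ + (x + zl A v)) (by rwa [one_smul])) i
  have b2 := d2_aff (c := -1) (z := z) (u (_ + (x - zl A v)) (by rwa [neg_smul, one_smul])) i
  simp only [one_smul, neg_smul] at a1 a2 b1 b2 c1 c2
  have e := (a1.continuousAt.eventually_ne h₁).mp ((a2.continuousAt.eventually_ne h₂).mono
    fun w q2 q1 => th2_dl q1 q2 j)
  rw [ddl, (pd_congr e i).eq_of_nhds, wp_sub (c1.fun_sub c2).differentiableAt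
    (differentiableAt_const _), wp_sub c1.differentiableAt c2.differentiableAt, b1, b2, d2_const,
    ← d2_wp h₁, ← d2_wp h₂]
  unfold ddl
  ring

theorem ddl_quot {c : ℂ} {y w : Fin g → ℂ} (hf : En f) (hf' : En f') (h : f (c • w + y) ≠ 0)
    (h' : f' (c • w + y) ≠ 0) (i j : Fin g) :
    ddl i j (fun w => f (c • w + y) / f' (c • w + y)) w =
      c ^ 2 * (ddl i j f (c • w + y) - ddl i j f' (c • w + y)) := by
  have u := (an_pd (hf _ trivial) j).fun_div (hf _ trivial) h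
  have u' := (an_pd (hf' _ trivial) j).fun_div (hf' _ trivial) h'
  have e : (fun w => pd j (fun w => f (c • w + y) / f' (c • w + y)) w /
      (f (c • w + y) / f' (c • w + y))) =ᶠ[𝓝 w] fun w => c * (pd j f (c • w + y) / f (c • w + y) -
        pd j f' (c • w + y) / f' (c • w + y)) := by
    filter_upwards [(d2_an (hf _ trivial)).continuousAt.eventually_ne h,
      (d2_an (hf' _ trivial)).continuousAt.eventually_ne h'] with p q q'
    rw [d2_div (d2_an (hf _ trivial)) (d2_an (hf' _ trivial)) q', d2_aff (hf _ trivial),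
      d2_aff (hf' _ trivial)]
    field_simp
  rw [ddl, (pd_congr e i).eq_of_nhds, d2_mul analyticAt_const ((d2_an u).fun_sub (d2_an u')),
    d2_const, wp_sub (d2_an u).differentiableAt (d2_an u').differentiableAt, d2_aff u, d2_aff u']
  unfold ddl
  ring

theorem Mer.pd (h : Mer f) (j : Fin g) : Mer (pd j f) := by
  obtain ⟨a, b, h1, h2, h3, h4⟩ := h
  refine ((((wp_en_pd h1 j).mer.mul h2.mer).sub (h1.mer.mul (wp_en_pd h2 j).mer)).div
    (En.mer (h2.pow 2))).congr (EventuallyEq.trans ?_ (gen_pd h4 j).symm)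
  filter_upwards [gen_ne h2 h3] with p hp
  exact (d2_div (h1 p trivial) (h2 p trivial) hp j).symm

/-- For `φ = f / f'` the functions `pd j φ / φ` are constants `c j` (`Mer.const_of_pd`), then
`φ w * exp (-∑ j, c j * w j)` is constant; so `φ` is generically an entire function, locally
bounded (`lb_of_cont`, `LB.congr`), periodic, hence constant (`const_of_lb`). -/
theorem ddl_eq (A : AbVar g N) (hf : Mer f) (hf' : Mer f') (h0 : ∀ᶠ z in gen g, f z ≠ 0)
    (h0' : ∀ᶠ z in gen g, f' z ≠ 0) (hp : ∀ j, (fun z => f (z + A.ω j)) =ᶠ[gen g] f)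
    (hp' : ∀ j, (fun z => f' (z + A.ω j)) =ᶠ[gen g] f')
    (h : ∀ i j, ddl i j f =ᶠ[gen g] ddl i j f') : ∃ C : ℂ, f =ᶠ[gen g] fun z => C * f' z := by
  have m := hf.div hf'
  have hc : ∀ j, ∃ c : ℂ, (fun z => pd j f z / f z - pd j f' z / f' z) =ᶠ[gen g] fun _ => c :=
    fun j => (((hf.pd j).div hf).sub ((hf'.pd j).div hf')).const_of_pd fun i => by
      filter_upwards [((hf.pd j).div hf).an, ((hf'.pd j).div hf').an, h i j] with p q q' e
      rw [wp_sub q.differentiableAt q'.differentiableAt]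
      exact sub_eq_zero.2 e
  choose c hc using hc
  obtain ⟨L, hL⟩ : ∃ L : (Fin g → ℂ) →L[ℂ] ℂ, ∀ j, L (Pi.single j 1) = c j :=
    ⟨∑ j, c j • ContinuousLinearMap.proj j, fun j => by simp only [sum_apply, smul_apply, ContinuousLinearMap.proj_apply, Pi.single_apply, smul_eq_mul, mul_ite, mul_one, mul_zero, Finset.sum_ite_eq', Finset.mem_univ, ↓ reduceIte]⟩
  have en : ∀ s : ℂ, En fun w => exp (s * L w) := fun s w _ =>
    (analyticAt_const.mul (L.analyticAt w)).cexp
  obtain ⟨C, hC⟩ := (m.mul (en (-1)).mer).const_of_pd fun j => by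
    filter_upwards [hf.an, hf'.an, h0, h0', hc j] with p q q' n n' e
    have b := d2_has ((L.hasFDerivAt (x := p)).const_mul (-1)).cexp j
    rw [d2_mul (q.fun_div q' n') (en _ p trivial), d2_div q q' n', b]
    simp only [_root_.smul_apply, smul_eq_mul, hL, ← e]
    field_simp
    ring
  have e : (fun w => C * exp (1 * L w)) =ᶠ[gen g] fun w => f w / f' w := by
    filter_upwards [hC] with p q
    rw [← q, mul_assoc, ← exp_add]
    simp
  obtain ⟨D, hD⟩ := const_of_lb A.ω m (fun j => (hp j).div (hp' j)) fun p =>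
    (lb_of_cont (continuousAt_const.mul (en 1 p trivial).continuousAt)).congr e
  refine ⟨D, ?_⟩
  filter_upwards [hD, h0'] with p q n
  rw [← q, div_mul_cancel₀ _ n]

/-! ### Block D3 -/

theorem rho_ddl (hk : ∃ z, A.θ k z ≠ 0) (hM : M ≠ 0) (v : Fin (2 * g) → ℂ) (i j : Fin g) :
    ddl i j (rho A k x M v) =ᶠ[gen g] fun w => (M : ℂ) ^ 2 *
      (wp A k i j ((M : ℂ) • w + (x - (M : ℂ) • x + zl A v)) +
        wp A k i j (-(M : ℂ) • w + (x + (M : ℂ) • x + -zl A v)) -
        (wp A k i j ((M : ℂ) • w + (x - (M : ℂ) • x)) +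
          wp A k i j (-(M : ℂ) • w + (x + (M : ℂ) • x)))) := by
  have hM' : (M : ℂ) ≠ 0 := Nat.cast_ne_zero.2 hM
  have t := gen_aff hM' (-((M : ℂ) • x))
  filter_upwards [t.eventually (th2_gen (x := x) hk v), t.eventually (th2_gen (x := x) hk 0)]
    with w h1 h0
  have n1 : th2 A k x v ((M : ℂ) • w + -((M : ℂ) • x)) ≠ 0 :=
    mul_ne_zero (mul_ne_zero h1.1 h1.2) (exp_ne_zero _)
  have n0 : th2 A k x 0 ((M : ℂ) • w + -((M : ℂ) • x)) ≠ 0 :=
    mul_ne_zero (mul_ne_zero h0.1 h0.2) (exp_ne_zero _)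
  have e := ddl_quot (th2_en v) (th2_en 0) n1 n0 i j
  rw [th2_ddl h1.1 h1.2, th2_ddl h0.1 h0.2] at e
  refine e.trans ?_
  have a1 : (M : ℂ) • w + -((M : ℂ) • x) + (x + zl A v) =
      (M : ℂ) • w + (x - (M : ℂ) • x + zl A v) := by module
  have a2 : -((M : ℂ) • w + -((M : ℂ) • x)) + (x - zl A v) =
      -(M : ℂ) • w + (x + (M : ℂ) • x + -zl A v) := by module
  have a3 : (M : ℂ) • w + -((M : ℂ) • x) + (x + zl A 0) =
      (M : ℂ) • w + (x - (M : ℂ) • x) := by
    rw [map_zero]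
    module
  have a4 : -((M : ℂ) • w + -((M : ℂ) • x)) + (x - zl A 0) =
      -(M : ℂ) • w + (x + (M : ℂ) • x) := by
    rw [map_zero]
    module
  rw [a1, a2, a3, a4]

theorem rho_conj {G : Gx A m} (hG : G.Arith 0 x) (hM : M ≠ 0) (hv : (M : ℂ) • v = iv n)
    (σ : ℂ →ₐ[Qb] ℂ) : ∃ (n' : Fin (2 * g) → ℤ) (C : ℂ), C ^ 2 = 1 ∧
      Cj A G.k σ (rho A G.k x M v) fun w => C * rho A G.k x M ((M : ℂ)⁻¹ • iv n') w := by
  have hM' : (M : ℂ) ≠ 0 := Nat.cast_ne_zero.2 hM
  have hk : ∃ z, A.θ G.k z ≠ 0 := ⟨x, hG.om.1⟩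
  have ht : (M : ℂ) • (M : ℂ)⁻¹ • zl A v = zl A v := smul_inv_smul₀ hM' _
  obtain ⟨t₀, n', T0, h0⟩ := Gx.tr_tors (y := (M : ℂ)⁻¹ • zl A v) hG σ (M * M) (n := n) (by
    rw [Nat.cast_mul, mul_smul, ht, ← map_smul, hv, zl_iv])
  set v' : Fin (2 * g) → ℂ := (M : ℂ)⁻¹ • iv n' with hv'
  have hv'' : (M : ℂ) • v' = iv n' := smul_inv_smul₀ hM' _
  have ht' : (M : ℂ) • t₀ = zl A v' := by
    rw [hv', map_smul, zl_iv, ← h0, Nat.cast_mul, mul_smul, inv_smul_smul₀ hM']
  have T1 := T0.nsmul M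
  rw [ht, ht'] at T1
  have F1 : Tr A G.k σ (M : ℂ) (x - (M : ℂ) • x) (x - (M : ℂ) • x) := by
    simpa using Gx.tr_fix hG σ (n := M) (y := x - (M : ℂ) • x) (by simpa using hM) (by simp)
  have F2 : Tr A G.k σ (-(M : ℂ)) (x + (M : ℂ) • x) (x + (M : ℂ) • x) := by
    simpa using Gx.tr_fix hG σ (n := -M) (y := x + (M : ℂ) • x) (by simpa using hM) (by simp)
  have F3 : Tr A G.k σ (-1) (x + x) (x + x) := by
    simpa using Gx.tr_fix hG σ (n := -1) (y := x + x) (by simp) (by simp)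
  obtain ⟨r, hr⟩ := rho_cj (x := x) hk hM hv σ
  have hd : ∀ i j, ddl i j r =ᶠ[gen g] ddl i j (rho A G.k x M v') := fun i j => by
    obtain ⟨s, hs⟩ := cj_wp hk σ i j
    have c1 := cj_comp hM' (T1.comp hM' F1) hs
    have c2 := cj_comp (neg_ne_zero.2 hM') ((Gx.tr_neg hG T1).comp (neg_ne_zero.2 hM') F2) hs
    have c3 := cj_comp hM' F1 hs
    have c4 := cj_comp (neg_ne_zero.2 hM') F2 hs
    have c5 := (((hr.der j).div hr).der i).unique
      ((cj_const hk σ ((M : ℂ) ^ 2)).mul ((c1.add c2).sub (c3.add c4))) (rho_ddl hk hM v i j)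
    filter_upwards [c5, rho_ddl (x := x) hk hM v' i j] with w e1 e2
    rw [e2]
    refine e1.trans ?_
    simp only [wp, map_pow, map_natCast]
    ring
  obtain ⟨C, hC⟩ := ddl_eq A hr.mer.2 (rho_mer v') (hr.ne (rho_ne hk hM v)) (rho_ne hk hM v')
    (fun j => (hr.per j).2) (fun j => Eventually.of_forall (rho_per hv'' j)) hd
  have hr' := hr.congr EventuallyEq.rfl hC
  refine ⟨n', C, ?_, hr'⟩
  have d1 := cj_comp one_ne_zero (Gx.tr_neg hG T0) hr'
  have d2 := cj_comp (neg_ne_zero.2 one_ne_zero) F3 hr'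
  have d3 := (d1.mul d2).unique (cj_const hk σ 1) (by
    simp only [one_smul, neg_smul]
    exact rho_inv (x := x) hk hM ht)
  obtain ⟨w, e1, e2⟩ := (d3.and (rho_inv (x := x) hk hM ht')).exists
  simp only [one_smul, neg_smul, map_one] at e1
  linear_combination e1 - C ^ 2 * e2

theorem rho_js {G : Gx A m} (hG : G.Arith 0 x) (hM : M ≠ 0) (hv : (M : ℂ) • v = iv n) (d : ℕ) :
    JS QA x d (rho A G.k x M v) := by
  refine Gx.js_of_cj hG (T := Set.range fun p : (Fin (2 * g) → ℤ) × ℤ =>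
    fun w => (p.2 : ℂ) * rho A G.k x M ((M : ℂ)⁻¹ • iv p.1) w) (Set.countable_range _)
    (rho_an hG.om.1 v) (fun σ => ?_) d
  obtain ⟨n', C, hC, h⟩ := rho_conj hG hM hv σ
  obtain ⟨e, rfl⟩ : ∃ e : ℤ, (e : ℂ) = C := by
    rcases sq_eq_one_iff.1 hC with rfl | rfl
    exacts [⟨1, by simp⟩, ⟨-1, by simp⟩]
  exact ⟨_, ⟨(n', e), rfl⟩, analyticAt_const.mul (rho_an hG.om.1 _), h⟩

end GPC73

end

section

/-! The normalised translates have algebraic jets. -/

open Filter Topology Complex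

namespace GPC73

variable {g N m : ℕ}

/-- The normalised translate. -/
noncomputable def gam (A : AbVar g N) (k : Fin (N + 1)) (x : Fin g → ℂ) (s : Fin g → Fin g → ℂ)
    (v : Fin (2 * g) → ℂ) (z : Fin g → ℂ) : ℂ :=
  th2 A k x v z * exp (-∑ i, ∑ j, s i j * z i * z j) / A.θ k x ^ 2

variable {A : AbVar g N} {k : Fin (N + 1)} {x : Fin g → ℂ} {s : Fin g → Fin g → ℂ}

/-- As `exists_H`, for any chart. -/
theorem exists_s (hk : ∃ z, A.θ k z ≠ 0) : ∃ s : Fin g → Fin g → ℂ, (∀ i j, s i j = s j i) ∧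
    (∀ j, (fun l => A.a l (Pi.single j 1) - ∑ i, s i j * A.ω l i) ∈ A.dR) ∧
    ∀ i j σ, Cj A k σ (fun z => wp A k i j z - s i j) fun z => wp A k i j z - s i j := by
  choose s hs using fun i j => cj_shift fun σ => cj_wp hk σ i j
  have key : ∀ i j σ, Cj A k σ (fun z => wp A k i j z - (s i j + s j i) / 2)
      fun z => wp A k i j z - (s i j + s j i) / 2 := fun i j σ => by
    have h5 := (cj_const hk σ (1 / 2)).mul ((hs i j σ).add (hs j i σ))
    rw [map_div₀, map_one, map_ofNat, wn_symm A k j i] at h5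
    have h6 : ∀ᶠ z in gen g, _ := Eventually.of_forall fun z =>
      show 1 / 2 * (wn A k i j z / A.θ k z ^ 2 - s i j + (wn A k i j z / A.θ k z ^ 2 - s j i)) =
        wp A k i j z - (s i j + s j i) / 2 by
        unfold wp
        ring
    exact h5.congr h6 h6
  refine ⟨fun i j => (s i j + s j i) / 2, fun i j => by ring, fun j => ?_, key⟩
  have e1 : val A.θ (MvPolynomial.X k) = A.θ k := funext fun z => by simp [val]
  obtain ⟨h1, h2⟩ := u2_lin fun i => (s i j + s j i) / 2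
  set L : (Fin g → ℂ) → ℂ := fun z => ∑ i, (s i j + s j i) / 2 * z i with hL
  have h3 := norm_pd_an (A.hol k) j
  have h3' : En (L * A.θ k) := h1.mul (A.hol k)
  have h4 : En (pd j (A.θ k) - L * A.θ k) := h3.sub h3'
  refine ⟨_, 1, MvPolynomial.X k, h4, MvPolynomial.isHomogeneous_X _ _, by rwa [e1], fun l => ?_,
    fun l z => ?_⟩
  · rw [e1]
    refine isRat_of_cj (k := k) (((A.hol k).mul (norm_pd_an h4 l)).sub
      (h4.mul (norm_pd_an (A.hol k) l))) ((A.hol k).pow 2) (hk.imp fun z hz => pow_ne_zero 2 hz)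
      fun σ => ?_
    have h6 : ∀ᶠ z in gen g, _ := (gen_ne (A.hol k) hk).mono fun z hz =>
      show wp A k l j z - (s l j + s j l) / 2 =
        (A.θ k * pd l (pd j (A.θ k) - L * A.θ k) -
          (pd j (A.θ k) - L * A.θ k) * pd l (A.θ k)) z / (A.θ k ^ 2) z by
        have e2 : pd l (pd j (A.θ k) - L * A.θ k) z =
            pd l (pd j (A.θ k)) z - pd l (L * A.θ k) z := by
          simp only [pd]
          rw [fderiv_sub (h3 z trivial).differentiableAt (h3' z trivial).differentiableAt]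
          rfl
        simp only [Pi.sub_apply, Pi.mul_apply, Pi.pow_apply, e2, norm_pd_mul h1 (A.hol k), h2, wp,
          wn]
        field_simp
        ring
    exact (key l j σ).congr h6 h6
  · simp only [e1, hL, Pi.sub_apply, Pi.mul_apply, Pi.add_apply, pd_aut, A.aut, mul_add,
      Finset.sum_add_distrib]
    ring

theorem te_an (s : Fin g → Fin g → ℂ) (z : Fin g → ℂ) :
    AnalyticAt ℂ (fun z : Fin g → ℂ => ∑ i, ∑ j, s i j * z i * z j) z :=
  Finset.analyticAt_fun_sum _ fun i _ => Finset.analyticAt_fun_sum _ fun j _ =>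
    (analyticAt_const.mul ((ContinuousLinearMap.proj (R := ℂ) (φ := fun _ => ℂ) i).analyticAt z)).mul
      ((ContinuousLinearMap.proj (R := ℂ) (φ := fun _ => ℂ) j).analyticAt z)

theorem te_pd (hs : ∀ i j, s i j = s j i) (l : Fin g) (z : Fin g → ℂ) :
    pd l (fun z : Fin g → ℂ => ∑ i, ∑ j, s i j * z i * z j) z = 2 * ∑ i, s i l * z i := by
  have h := HasFDerivAt.fun_sum (u := Finset.univ) fun i _ =>
    HasFDerivAt.fun_sum (u := Finset.univ) fun j _ =>
      ((hasFDerivAt_apply (𝕜 := ℂ) i z).const_mul (s i j)).mul (hasFDerivAt_apply (𝕜 := ℂ) j z)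
  refine (congrArg (fun L : (Fin g → ℂ) →L[ℂ] ℂ => L (Pi.single l 1)) h.fderiv).trans ?_
  simp only [_root_.sum_apply, _root_.add_apply,
    _root_.smul_apply, ContinuousLinearMap.proj_apply, Pi.single_apply, smul_eq_mul,
    Finset.sum_add_distrib, mul_ite, mul_one, mul_zero, Finset.sum_ite_eq', Finset.mem_univ,
    if_true]
  rw [Finset.sum_comm]
  simp only [Finset.sum_ite_eq', Finset.mem_univ, if_true, hs l, mul_comm (z _), two_mul]

theorem te_zero (hx : A.θ k x ≠ 0) : ∀ᶠ z in 𝓝 (0 : Fin g → ℂ),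
    A.θ k (z + (x + zl A 0)) ≠ 0 ∧ A.θ k (-z + (x - zl A 0)) ≠ 0 := by
  have hc := (A.hol k).continuous
  refine (ContinuousAt.eventually_ne (by fun_prop) ?_).and
    (ContinuousAt.eventually_ne (by fun_prop) ?_) <;> simpa using hx

theorem gam_en (v : Fin (2 * g) → ℂ) : En (gam A k x s v) := by
  intro z _
  exact ((th2_en v z trivial).mul (te_an s z).neg.cexp).div_const

theorem gam_zero (hx : A.θ k x ≠ 0) : gam A k x s 0 0 = 1 := by
  simp only [gam, th2, map_zero, Pi.zero_apply, mul_zero, add_zero, zero_add, neg_zero, sub_zero,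
    Finset.sum_const_zero, exp_zero, mul_one]
  field_simp

/-- `js_ode` with `L j z = pd j (th2 0) z / th2 0 z - 2 * ∑ i, s i j * z i`: `L j 0 = 0`
(`th2_dl`), `pd i (L j) = (wp - s) (z + x) + (wp - s) (-z + x)` near `0` (`th2_ddl`);
`Gx.js_of_cj` with `T` a singleton, `JS.aff`. -/
theorem gam0_js {G : Gx A m} (hG : G.Arith 0 x) (hs : ∀ i j, s i j = s j i)
    (h : ∀ i j σ, Cj A G.k σ (fun z => wp A G.k i j z - s i j) fun z => wp A G.k i j z - s i j)
    (d : ℕ) : JS QA 0 d (gam A G.k x s 0) := by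
  have hx : A.θ G.k x ≠ 0 := hG.om.1
  have ht : ∀ᶠ z in 𝓝 (0 : Fin g → ℂ), th2 A G.k x 0 z ≠ 0 := (te_zero hx).mono fun z hz =>
    mul_ne_zero (mul_ne_zero hz.1 hz.2) (exp_ne_zero _)
  have hq : ∀ j z, th2 A G.k x 0 z ≠ 0 →
      AnalyticAt ℂ (fun z => pd j (th2 A G.k x 0) z / th2 A G.k x 0 z) z := fun j z hz =>
    (norm_pd_an (th2_en 0) j z trivial).div (th2_en 0 z trivial) hz
  have hl := fun j => u2_lin fun i => s i j
  refine js_ode (L := fun j z => pd j (th2 A G.k x 0) z / th2 A G.k x 0 z - 2 * ∑ i, s i j * z i)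
    (gam_en 0 0 trivial) (gam_zero hx ▸ mem_QA.2 isAlgebraic_one) (fun n j => ?_) (fun j => ?_) d
  · have ha : AnalyticAt ℂ
        (fun z => pd j (th2 A G.k x 0) z / th2 A G.k x 0 z - 2 * ∑ i, s i j * z i) 0 :=
      (hq j 0 ht.self_of_nhds).sub (analyticAt_const.mul ((hl j).1 0 trivial))
    cases n with
    | zero => exact ha
    | succ n =>
      refine ⟨ha, ?_, fun i => ?_⟩
      · have h0 := (te_zero hx).self_of_nhds
        beta_reduce
        rw [th2_dl h0.1 h0.2]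
        simp only [map_zero, add_zero, zero_add, neg_zero, sub_zero, sub_self, zero_apply, mul_zero, Pi.zero_apply, Finset.sum_const_zero, zero_mem]
      · have hw : JS QA x n fun z => wp A G.k i j z - s i j :=
          Gx.js_of_cj hG (Set.countable_singleton _) ?_ (fun σ => ⟨_, rfl, ?_, h i j σ⟩) n
        · refine ((hw.aff (c := 1) (y := x) isAlgebraic_one (by simp)).add
            (hw.aff (c := -1) (y := x) isAlgebraic_one.neg (by simp))).congr ?_
          filter_upwards [te_zero hx, ht] with z h1 h2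
          have h3 := th2_ddl h1.1 h1.2 i j
          have h4 := (hl j).2 i z
          have h5 := ((hq j z h2).differentiableAt.hasFDerivAt.sub
            (((hl j).1 z trivial).differentiableAt.hasFDerivAt.const_mul 2)).fderiv
          refine Eq.trans ?_
            (congrArg (fun L : (Fin g → ℂ) →L[ℂ] ℂ => L (Pi.single i 1)) h5).symm
          simp only [ddl, pd, map_zero, add_zero, sub_zero] at h3 h4
          simp only [_root_.sub_apply, _root_.smul_apply, smul_eq_mul,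
            pd, h3, h4, one_smul, neg_smul]
          ring
        all_goals
          refine AnalyticAt.sub (AnalyticAt.div ?_ ((A.hol _ x trivial).pow 2)
            (pow_ne_zero 2 hx)) analyticAt_const
          exact ((A.hol _ x trivial).mul (norm_pd_an (norm_pd_an (A.hol _) j) i x trivial)).sub
            ((norm_pd_an (A.hol _) i x trivial).mul (norm_pd_an (A.hol _) j x trivial))
  · filter_upwards [ht] with z hz
    have h4 := te_pd hs j z
    have h5 := (((th2_en (A := A) (k := G.k) (x := x) 0 z trivial).differentiableAt.hasFDerivAt.mul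
      (te_an s z).differentiableAt.hasFDerivAt.neg.cexp).mul_const (A.θ G.k x ^ 2)⁻¹).fderiv
    have e : gam A G.k x s 0 = fun z => th2 A G.k x 0 z * exp (-∑ i, ∑ j, s i j * z i * z j) *
        (A.θ G.k x ^ 2)⁻¹ := funext fun z => div_eq_mul_inv _ _
    rw [e]
    refine (congrArg (fun L : (Fin g → ℂ) →L[ℂ] ℂ => L (Pi.single j 1)) h5).trans ?_
    simp only [pd] at h4
    simp only [_root_.add_apply, _root_.smul_apply,
      _root_.neg_apply, smul_eq_mul, pd, h4, Pi.neg_apply]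
    field_simp
    ring

/-- Near `0`, `gam v z = rho v (M⁻¹ • z + x) * gam 0 z`; `rho_js`, `JS.aff`. -/
theorem gam_js {G : Gx A m} (hG : G.Arith 0 x) (hs : ∀ i j, s i j = s j i)
    (h : ∀ i j σ, Cj A G.k σ (fun z => wp A G.k i j z - s i j) fun z => wp A G.k i j z - s i j)
    {M : ℕ} (hM : M ≠ 0) {v : Fin (2 * g) → ℂ} {n : Fin (2 * g) → ℤ} (hv : (M : ℂ) • v = iv n)
    (d : ℕ) : JS QA 0 d (gam A G.k x s v) := by
  have hM' : (M : ℂ) ≠ 0 := Nat.cast_ne_zero.2 hM
  refine (((rho_js hG hM hv d).aff (c := (M : ℂ)⁻¹) (y := x) (isAlgebraic_natCast M).inv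
    (by simp)).mulA (gam0_js hG hs h d)).congr ?_
  filter_upwards [te_zero (A := A) (k := G.k) hG.om.1] with z hz
  have h1 : th2 A G.k x 0 z ≠ 0 := mul_ne_zero (mul_ne_zero hz.1 hz.2) (exp_ne_zero _)
  simp only [rho, gam, smul_add, smul_inv_smul₀ hM', add_neg_cancel_right]
  field_simp

end GPC73

end

section

/-! A theta function with algebraic jets at the torsion points. -/

open Complex GPC73 Matrix

namespace GPCW

/-- Rational vectors. -/
def Rv (ι : Type) : AddSubgroup (ι → ℂ) where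
  carrier := {y | ∀ j, ∃ q : ℚ, y j = q}
  zero_mem' := fun _ => ⟨0, by simp⟩
  add_mem' := fun h h' j => by
    obtain ⟨q, hq⟩ := h j
    obtain ⟨q', hq'⟩ := h' j
    exact ⟨q + q', by simp [hq, hq']⟩
  neg_mem' := fun h j => by
    obtain ⟨q, hq⟩ := h j
    exact ⟨-q, by simp [hq]⟩

/-- The words `nabl 0 l γ` have jets in `QA` (`nab 0 u f = ∑ j, u j * pd j f`, `end2_lin`). -/
theorem th_of_js {g : ℕ} {γ : (Fin g → ℂ) → ℂ} (h : En γ) (hj : ∀ d, JS QA 0 d γ) :
    Th 0 ⊥ ⊥ {u | ∀ j, IsAlgebraic ℚ (u j)} γ := by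
  refine ⟨h, fun ν hν y => by simp [(Submodule.mem_bot ℂ).1 hν],
    fun r hr => ⟨1, one_pos, funext fun y => by simp [S, AddSubgroup.mem_bot.1 hr]⟩,
    fun r hr l hl => ?_⟩
  have key : ∀ d, JS QA 0 d (nabl 0 l γ) := by
    induction l with
    | nil => exact hj
    | cons u l ih =>
      intro d
      have h1 := (ih (fun v hv => hl v (List.mem_cons_of_mem _ hv)) (d + 1)).2.2
      refine (js_sum Finset.univ fun j => (js_const (mem_QA.2
        (hl u List.mem_cons_self j))).mulA (h1 j)).congr (Filter.Eventually.of_forall fun y => ?_)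
      simp only [nabl, nab, LinearMap.zero_apply, zero_mul, sub_zero]
      exact (end2_lin _ u).symm
  rw [AddSubgroup.mem_bot.1 hr]
  exact mem_QA.1 (key 1).2.1

section

variable {V : Type} [NormedAddCommGroup V] [NormedSpace ℂ V] [FiniteDimensional ℂ V] {D : Set V}

omit [FiniteDimensional ℂ V] in
theorem th_bot {B : V →ₗ[ℂ] V →ₗ[ℂ] ℂ} {G : V → ℂ} (h : En G)
    (ha : ∀ l : List V, (∀ u ∈ l, u ∈ D) → IsAlgebraic ℚ (nabl B l G 0)) : Th B ⊥ ⊥ D G :=
  ⟨h, fun ν hν y => by simp [(Submodule.mem_bot ℂ).1 hν],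
    fun r hr => ⟨1, one_pos, funext fun y => by simp [S, AddSubgroup.mem_bot.1 hr]⟩,
    fun r hr l hl => by rw [AddSubgroup.mem_bot.1 hr]; exact ha l hl⟩

theorem th_aff (L : V →ₗ[ℂ] ℂ) (hL : ∀ u ∈ D, IsAlgebraic ℚ (L u)) {c : ℂ}
    (hc : IsAlgebraic ℚ c) : Th 0 ⊥ ⊥ D fun y => L y + c := by
  refine th_bot (fun y _ => (L.toContinuousLinearMap.analyticAt y).add analyticAt_const)
    fun l => ?_
  induction l using List.reverseRecOn generalizing L c with
  | nil => intro _; simpa [nabl] using hc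
  | append_singleton l u ih =>
    intro hl
    have e : nabl 0 [u] (fun y => L y + c) = fun y => (0 : V →ₗ[ℂ] ℂ) y + L u := funext fun y => by
      have := (L.toContinuousLinearMap.hasFDerivAt (x := y)).add_const c
      simp only [nabl, nab, LinearMap.zero_apply, zero_mul, sub_zero, zero_add]
      exact congrArg (fun f : V →L[ℂ] ℂ => f u) this.fderiv
    rw [nabl_append, e]
    exact ih 0 (fun _ _ => isAlgebraic_zero) (hL u (hl u (by simp)))
      fun v hv => hl v (by simp [hv])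

/-- `nabl B l E = P * E` with `Th 0 ⊥ ⊥ D P`: `nab B u (P * E) = (nab 0 u P - 2 * η y u * P) * E`;
`Th.mul`, `Th.lin`, `nabl_append`. -/
theorem th_exp {B η : V →ₗ[ℂ] V →ₗ[ℂ] ℂ} (hB : ∀ y u, B y u = η y u - η u y)
    (hD : ∀ u ∈ D, ∀ u' ∈ D, IsAlgebraic ℚ (η u u')) : Th B ⊥ ⊥ D fun y => exp (-η y y) := by
  set T : V →L[ℂ] V →L[ℂ] ℂ := LinearMap.toContinuousLinearMap
    ((LinearMap.toContinuousLinearMap : (V →ₗ[ℂ] ℂ) ≃ₗ[ℂ] _).toLinearMap.comp η) with hT
  have hd : ∀ y, HasFDerivAt (fun y => exp (-η y y))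
      (exp (-η y y) • -((T y).comp (.id ℂ V) + T.flip y)) y := fun y =>
    (T.hasFDerivAt.clm_apply (hasFDerivAt_id y)).fun_neg.cexp
  have en : En fun y => exp (-η y y) := fun y _ =>
    (T.analyticAt_bilinear (y, y)).comp (f := fun y => (y, y))
      (analyticAt_id.prod analyticAt_id) |>.neg.cexp
  have rt : Rt (0 : V →ₗ[ℂ] V →ₗ[ℂ] ℂ) ⊥ :=
    ⟨fun _ => rfl, fun q r hr => by simp [AddSubgroup.mem_bot.1 hr], fun _ _ _ _ => ⟨0, by simp⟩⟩
  refine th_bot en fun l hl => ?_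
  obtain ⟨P, hP, e⟩ : ∃ P, Th 0 ⊥ ⊥ D P ∧
      nabl B l (fun y => exp (-η y y)) = fun y => P y * exp (-η y y) := by
    induction l with
    | nil => exact ⟨_, th_aff 0 (fun _ _ => isAlgebraic_zero) isAlgebraic_one, by simp [nabl]⟩
    | cons u l ih =>
      obtain ⟨P, hP, e⟩ := ih fun v hv => hl v (List.mem_cons_of_mem _ hv)
      have hu := hl u List.mem_cons_self
      have h1 : Th 0 ⊥ ⊥ D (nab 0 u P) := th_bot (hP.en.nab u) fun l hl => by
        have := hP.alg 0 (zero_mem _) (l ++ [u]) (by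
          intro v hv
          rcases List.mem_append.1 hv with h | h
          exacts [hl v h, List.mem_singleton.1 h ▸ hu])
        rwa [nabl_append] at this
      have h2 := Th.mul (fun _ => rfl) (fun _ => rfl)
        (th_aff (η.flip u) (fun v hv => hD v hv u hu) isAlgebraic_zero) hP
      rw [add_zero] at h2
      refine ⟨_, h1.lin rt h2 isAlgebraic_one (isAlgebraic_intCast (-2)), funext fun y => ?_⟩
      have h3 := ((hP.en y trivial).differentiableAt.hasFDerivAt.fun_mul (hd y)).fderiv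
      simp only [nabl, nab, e, h3, hB]
      simp [hT]
      ring
  rw [e]
  simpa [nabl] using hP.alg 0 (zero_mem _) [] (by simp)

end

theorem rq_den {ι : Type} [Fintype ι] {r : ι → ℂ} (hr : r ∈ Rv ι) :
    ∃ (M : ℕ) (n : ι → ℤ), M ≠ 0 ∧ (M : ℂ) • r = fun j => (n j : ℂ) := by
  classical
  choose q hq using hr
  refine ⟨∏ j, (q j).den, fun j => (∏ i ∈ Finset.univ.erase j, (q i).den : ℕ) * (q j).num,
    Finset.prod_ne_zero_iff.2 fun j _ => (q j).den_nz, funext fun j => ?_⟩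
  have : ((q j).den : ℂ) * q j = (q j).num := by exact_mod_cast Rat.den_mul_eq_num (q j)
  rw [Pi.smul_apply, smul_eq_mul, hq, ← Finset.prod_erase_mul _ _ (Finset.mem_univ j),
    Nat.cast_mul, mul_assoc, this]
  push_cast
  rfl

/-- The symmetric form `s`. -/
noncomputable def sB {g : ℕ} (s : Fin g → Fin g → ℂ) : (Fin g → ℂ) →ₗ[ℂ] (Fin g → ℂ) →ₗ[ℂ] ℂ :=
  Matrix.toLinearMap₂' ℂ (Matrix.of s)

theorem sB_apply {g : ℕ} (s : Fin g → Fin g → ℂ) (z w : Fin g → ℂ) :
    sB s z w = ∑ i, ∑ j, s i j * z i * w j := by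
  simp only [sB, Matrix.toLinearMap₂'_apply, Matrix.of_apply, smul_eq_mul]
  exact Finset.sum_congr rfl fun i _ => Finset.sum_congr rfl fun j _ => by ring

/-- The form `η`. -/
noncomputable def eB {g N : ℕ} (A : AbVar g N) (s : Fin g → Fin g → ℂ) :
    (Fin (2 * g) → ℂ) →ₗ[ℂ] (Fin (2 * g) → ℂ) →ₗ[ℂ] ℂ :=
  ((ContinuousLinearMap.coeLM ℂ).comp (al A)).compl₂ (zl A) - (sB s).compl₁₂ (zl A) (zl A)

theorem eB_apply {g N : ℕ} (A : AbVar g N) (s : Fin g → Fin g → ℂ) (y u : Fin (2 * g) → ℂ) :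
    eB A s y u = al A y (zl A u) - sB s (zl A y) (zl A u) := rfl

theorem zl_dot {g N : ℕ} (A : AbVar g N) (u : Fin (2 * g) → ℂ) (j : Fin g) :
    zl A u j = (fun l => A.ω l j) ⬝ᵥ u := by
  simp only [zl, Fintype.linearCombination_apply, Finset.sum_apply, Pi.smul_apply, smul_eq_mul,
    dotProduct, mul_comm]

theorem eB_dot {g N : ℕ} (A : AbVar g N) (s : Fin g → Fin g → ℂ) (y u : Fin (2 * g) → ℂ) :
    eB A s y u = ∑ j, zl A u j *
      (fun l => A.a l (Pi.single j 1) - ∑ i, s i j * A.ω l i) ⬝ᵥ y := by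
  rw [eB_apply, end2_lin, sB_apply, Finset.sum_comm, ← Finset.sum_sub_distrib]
  refine Finset.sum_congr rfl fun j _ => ?_
  have e : ∑ l, (∑ i, s i j * A.ω l i) * y l = ∑ i, s i j * zl A y i := by
    simp only [zl_dot, dotProduct, Finset.sum_mul, Finset.mul_sum, mul_assoc]
    exact Finset.sum_comm
  simp only [dotProduct, sub_mul, Finset.sum_sub_distrib, e, mul_sub]
  congr 1
  · simp only [al, Fintype.linearCombination_apply, _root_.sum_apply, _root_.smul_apply,
      smul_eq_mul, mul_comm]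
  · rw [mul_comm (zl A u j), Finset.sum_mul]

theorem tors {g N : ℕ} (A : AbVar g N) : ∃ G, G ≠ 0 ∧
    Th (Matrix.toLinearMap₂' ℂ A.Ec) (Rv (Fin (2 * g))) (LinearMap.ker (zl A))
      {u | ∀ η ∈ A.dR, IsAlgebraic ℚ (η ⬝ᵥ u)} G := by
  obtain ⟨X, x, hX, -⟩ := exists_gx A (m := 0) (ι := Fin 0) Fin.elim0 (fun i => i.elim0)
    Fin.elim0 0 fun l => l.elim0
  have hx := hX.om.1
  obtain ⟨s, hs, hH, hc⟩ := exists_s (A := A) (k := X.k) ⟨x, hx⟩
  set B : (Fin (2 * g) → ℂ) →ₗ[ℂ] (Fin (2 * g) → ℂ) →ₗ[ℂ] ℂ :=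
    Matrix.toLinearMap₂' ℂ A.Ec with hB
  set D := {u : Fin (2 * g) → ℂ | ∀ η ∈ A.dR, IsAlgebraic ℚ (η ⬝ᵥ u)} with hD
  have sy : ∀ z w, sB s z w = sB s w z := fun z w => by
    rw [sB_apply, sB_apply, Finset.sum_comm]
    exact Finset.sum_congr rfl fun i _ => Finset.sum_congr rfl fun j _ => by rw [hs]; ring
  have hb : ∀ y u, B y u = eB A s y u - eB A s u y := fun y u => by
    rw [eB_apply, eB_apply, sy (zl A y), hB, ← al_ec]
    ring
  have alt : ∀ v, B v v = 0 := fun v => by rw [hb, sub_self]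
  have hz : ∀ u ∈ D, ∀ j, IsAlgebraic ℚ (zl A u j) := fun u hu j => by
    rw [zl_dot]
    exact hu _ (omega_mem A j)
  have he := th_exp (D := D) hb fun u hu u' hu' => by
    rw [eB_dot]
    exact mem_QA.1 (sum_mem fun j _ => mem_QA.2 ((hz u' hu' j).mul (hu _ (hH j))))
  set G : (Fin (2 * g) → ℂ) → ℂ := fun y => gam A X.k x s 0 (zl A y) * exp (-eB A s y y) with hG
  have hG' : ∀ y, G y = th2 A X.k x 0 (zl A y) * exp (-al A y (zl A y)) / A.θ X.k x ^ 2 :=
    fun y => by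
      rw [hG]
      simp only [gam, ← sB_apply, eB_apply]
      rw [div_mul_eq_mul_div, mul_assoc, ← exp_add]
      congr 3
      ring
  have hS : ∀ v, S B v G = fun y => gam A X.k x s v (zl A y) * exp (-eB A s y y) := fun v => by
    funext y
    simp only [S, hG', gam, ← sB_apply, eB_apply, th2, map_zero, map_add, hB, ← al_ec,
      _root_.add_apply, _root_.zero_apply, mul_zero, neg_zero, exp_zero, mul_one, add_zero]
    have a1 : zl A y + zl A v + x = zl A y + (x + zl A v) := by abel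
    have a2 : -(zl A y + zl A v) + (x - 0) = -zl A y + (x - zl A v) := by abel
    rw [a1, a2]
    have e : exp (-(al A v (zl A y) - al A y (zl A v))) *
        exp (-(al A y (zl A y) + al A v (zl A y) + (al A y (zl A v) + al A v (zl A v)))) =
        exp (-(2 * al A v (zl A y) + al A v (zl A v))) * exp (-sB s (zl A y) (zl A y)) *
        exp (-(al A y (zl A y) - sB s (zl A y) (zl A y))) := by
      simp only [← exp_add]
      congr 1
      ring
    linear_combination (A.θ X.k (zl A y + (x + zl A v)) * A.θ X.k (-zl A y + (x - zl A v)) /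
      A.θ X.k x ^ 2) * e
  have key : ∀ v ∈ Rv (Fin (2 * g)), Th B ⊥ ⊥ D (S B v G) := fun v hv => by
    obtain ⟨M, n, hM, hn⟩ := rq_den hv
    have h1 := (th_of_js (gam_en v) (gam_js hX hs hc hM hn)).comp (zl A) (R' := ⊥) (F' := ⊥)
      (D' := D) (fun r hr => by simp [AddSubgroup.mem_bot.1 hr])
      (fun r hr => by simp [(Submodule.mem_bot ℂ).1 hr]) hz
    have h2 := Th.mul (fun _ => rfl) alt h1 he
    rw [hS]
    convert h2 using 1
    ext
    simp only [LinearMap.coe_comp, LinearMap.coe_single, Function.comp_apply, LinearMap.add_apply, LinearMap.compl₁₂_apply, LinearMap.zero_apply, zero_add]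
  have en : En G := by
    have := (key 0 (zero_mem _)).en
    rwa [hS] at this
  refine ⟨G, fun h => ?_, en, fun ν hν y => ?_, fun r hr => ?_, fun r hr l hl => ?_⟩
  · have := congrFun h 0
    simp [hG, gam_zero hx] at this
  · have h0 : zl A ν = 0 := hν
    simp only [hG', map_add, h0, add_zero, hB, ← al_ec, map_zero, _root_.add_apply, neg_add,
      exp_add, zero_sub]
    ring
  · obtain ⟨M, n, hM, hn⟩ := rq_den hr
    refine ⟨M, Nat.pos_of_ne_zero hM, funext fun y => ?_⟩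
    have hn' : (M : ℂ) • r = iv n := hn
    simp only [S, hn', hG', map_add, zl_iv, th2_per, hB, ← al_ec, map_zero, _root_.add_apply]
    have e : exp (-(al A (iv n) (zl A y) - al A y (A.per n))) *
        exp (2 * al A (iv n) (zl A y) + al A (iv n) (A.per n) + 2 * 0) *
        exp (-(al A y (zl A y) + al A (iv n) (zl A y) +
          (al A y (A.per n) + al A (iv n) (A.per n)))) = exp (-al A y (zl A y)) := by
      simp only [← exp_add]
      congr 1
      ring
    linear_combination (th2 A X.k x 0 (zl A y) / A.θ X.k x ^ 2) * e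
  · have h1 := (key r hr).alg 0 (zero_mem _) l hl
    rw [← S_nabl alt en] at h1
    simpa only [S, map_zero, neg_zero, exp_zero, zero_add, one_mul] using h1

end GPCW

end

section

/-! Theta functions with algebraic jets for every polarisation of a CM type. -/

open Complex Module NumberField ComplexEmbedding GPC73 GPC42
open Matrix hiding vec

namespace GPCW

variable {g N : ℕ} {E : Type} [Field E] [NumberField E]

/-- Multiplication by an element of the field. -/
noncomputable def mW (α : E) : ((E →+* ℂ) → ℂ) →ₗ[ℂ] (E →+* ℂ) → ℂ :=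
  LinearMap.mulLeft ℂ fun φ => φ α

omit [NumberField E] in
theorem mW_apply (α : E) (y : (E →+* ℂ) → ℂ) (φ : E →+* ℂ) : mW α y φ = φ α * y φ := rfl

omit [NumberField E] in
theorem jy_conj (φ : E →+* ℂ) (x : E) : conjugate φ x = star (φ x) := rfl

/-- From the eigencoordinates to the coordinates of the basis. -/
theorem jy_k {n : Type} [Fintype n] [DecidableEq n] (b : Basis n ℚ E) :
    ∃ k : ((E →+* ℂ) → ℂ) →ₗ[ℂ] n → ℂ, (∀ y φ, vec b φ ⬝ᵥ k y = y φ) ∧
      ∀ v, k (fun φ => vec b φ ⬝ᵥ v) = v := by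
  let c : (n → ℂ) →ₗ[ℂ] (E →+* ℂ) → ℂ := (Matrix.of (vec b)).mulVecLin
  have hc : Function.Injective c := by
    rw [injective_iff_map_eq_zero]
    intro v hv
    have key : ∀ w ∈ Submodule.span ℂ (Set.range (vec b : (E →+* ℂ) → n → ℂ)), w ⬝ᵥ v = 0 := by
      intro w hw
      induction hw using Submodule.span_induction with
      | mem x hx => obtain ⟨φ, rfl⟩ := hx; exact congrFun hv φ
      | zero => exact zero_dotProduct v
      | add x y _ _ hx hy => rw [add_dotProduct, hx, hy, add_zero]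
      | smul a x _ hx => rw [smul_dotProduct, hx, smul_zero]
    funext j
    simpa only [Pi.zero_apply, single_dotProduct, one_mul] using key (Pi.single j 1) (vec_span b ▸ Submodule.mem_top)
  let e := LinearMap.linearEquivOfInjective c hc (by
    rw [finrank_fintype_fun_eq_card, finrank_fintype_fun_eq_card, card_emb b])
  exact ⟨e.symm, fun y φ => congrFun (e.apply_symm_apply y) φ, fun v => e.symm_apply_apply v⟩

variable [DecidableEq (E →+* ℂ)]

theorem jy_exp (B : ((E →+* ℂ) → ℂ) →ₗ[ℂ] ((E →+* ℂ) → ℂ) →ₗ[ℂ] ℂ) (u u' : (E →+* ℂ) → ℂ) :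
    B u u' = ∑ φ, ∑ ψ, u φ * u' ψ * B (Pi.single φ 1) (Pi.single ψ 1) := by
  conv_lhs => rw [pi_eq_sum_univ' u, pi_eq_sum_univ' u']
  simp only [map_sum, map_smul, LinearMap.sum_apply, LinearMap.smul_apply, smul_eq_mul,
    Finset.mul_sum]
  rw [Finset.sum_comm]
  exact Finset.sum_congr rfl fun _ _ => Finset.sum_congr rfl fun _ _ => by ring

/-- Averaging over the Casimir element. -/
theorem jy_avg (B : ((E →+* ℂ) → ℂ) →ₗ[ℂ] ((E →+* ℂ) → ℂ) →ₗ[ℂ] ℂ) {m : ℕ} {α : Fin m → E}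
    {β : E} (h : ∀ φ ψ : E →+* ℂ, ∑ i, star (φ (α i)) * ψ (α i) = if φ = ψ then φ β else 0)
    (y y' : (E →+* ℂ) → ℂ) : ∑ i, B (mW (α i) y) (mW (α i) y') =
      ∑ φ, conjugate φ β * B (Pi.single φ 1) (Pi.single (conjugate φ) 1) * y φ *
        y' (conjugate φ) := by
  rw [Finset.sum_congr rfl fun i _ => jy_exp B (mW (α i) y) (mW (α i) y'), Finset.sum_comm]
  refine Finset.sum_congr rfl fun φ _ => ?_
  rw [Finset.sum_comm]
  have e : ∀ ψ : E →+* ℂ, ∑ i, mW (α i) y φ * mW (α i) y' ψ * B (Pi.single φ 1) (Pi.single ψ 1) =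
      (if conjugate φ = ψ then conjugate φ β else 0) *
        (y φ * y' ψ * B (Pi.single φ 1) (Pi.single ψ 1)) := fun ψ => by
    rw [← h, Finset.sum_mul]
    refine Finset.sum_congr rfl fun i _ => ?_
    rw [mW_apply, mW_apply, jy_conj, star_star]
    ring
  simp only [e, ite_mul, zero_mul, Finset.sum_ite_eq, Finset.mem_univ, if_true]
  ring

/-- The diagonal part of a rational form comes from an element of the field. -/
theorem jy_xi [IsCMField E] (B : ((E →+* ℂ) → ℂ) →ₗ[ℂ] ((E →+* ℂ) → ℂ) →ₗ[ℂ] ℂ)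
    (hB : ∀ x x' : E, ∃ q : ℚ, B (fun φ => φ x) (fun φ => φ x') = Real.pi * I * q) :
    ∃ ξ : E, ∀ φ : E →+* ℂ,
      B (Pi.single φ 1) (Pi.single (conjugate φ) 1) = Real.pi * I * φ ξ := by
  have hπ : (Real.pi * I : ℂ) ≠ 0 := mul_ne_zero (ofReal_ne_zero.2 Real.pi_ne_zero) I_ne_zero
  obtain ⟨m, α, -, hα⟩ := casimir (E := E) cc
    (fun φ x => IsCMField.complexEmbedding_complexConj E φ x) 1 (fun φ => by simp)
  obtain ⟨j, hj⟩ : ∃ j : (E →+* ℂ) → ℂ, ∀ φ,
      B (Pi.single φ 1) (Pi.single (conjugate φ) 1) = Real.pi * I * j φ :=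
    ⟨fun φ => B (Pi.single φ 1) (Pi.single (conjugate φ) 1) / (Real.pi * I), fun φ => by
      field_simp⟩
  have ht : ∀ x, trj j x = ∑ φ, j φ * φ x := fun x => by
    rw [trj, LinearMap.sum_apply]
    rfl
  have hq : ∀ x, ∃ q : ℚ, trj j x = q := fun x => by
    choose q hq using fun i => hB (α i * x) (α i * 1)
    refine ⟨∑ i, q i, mul_left_cancel₀ hπ ?_⟩
    have h1 := jy_avg B hα (fun φ => φ x) (fun φ => φ 1)
    have h2 : ∀ (a z : E), mW a (fun φ => φ z) = fun φ => φ (a * z) := fun a z =>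
      funext fun φ => (map_mul φ a z).symm
    simp only [h2, hq] at h1
    simp only [hj, map_one, mul_one, one_mul] at h1
    rw [ht, Rat.cast_sum, Finset.mul_sum, Finset.mul_sum, h1]
    simp only [mul_assoc]
  obtain ⟨r, hr⟩ := (Algebra.linearMap ℚ ℂ).exists_leftInverse_of_injective
    (LinearMap.ker_eq_bot.2 (algebraMap ℚ ℂ).injective)
  have hr' : ∀ x, ((r (trj j x) : ℚ) : ℂ) = trj j x := fun x => by
    obtain ⟨q, h⟩ := hq x
    have : r q = q := LinearMap.congr_fun hr q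
    rw [h, this]
  let ξ := ((Algebra.traceForm ℚ E).toDual (traceForm_nondegenerate ℚ E)).symm (r ∘ₗ trj j)
  have hξ : ∀ x, ∑ φ : E →+* ℂ, φ ξ * φ x = ∑ φ, j φ * φ x := fun x => by
    have : Algebra.trace ℚ E (ξ * x) = r (trj j x) :=
      LinearMap.BilinForm.apply_toDual_symm_apply (hB := traceForm_nondegenerate ℚ E)
        (r ∘ₗ trj j) x
    rw [← ht, ← hr', ← this, cas_trace]
    simp only [map_mul]
  refine ⟨ξ, fun φ => ?_⟩
  have := Fintype.linearIndependent_iff.1 (vec_li (finBasis ℚ E)) (fun ψ => ψ ξ - j ψ) (by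
    funext i
    simp only [Finset.sum_apply, Pi.smul_apply, smul_eq_mul, vec, sub_mul, Finset.sum_sub_distrib,
      hξ, sub_self, Pi.zero_apply]) φ
  rw [hj, sub_eq_zero.1 this]

variable {A : AbVar g N} {b : Basis (Fin (2 * g)) ℚ E} {Φ : Set (E →+* ℂ)}

theorem jy_alt (A : AbVar g N) (v : Fin (2 * g) → ℂ) : Matrix.toLinearMap₂' ℂ A.Ec v v = 0 := by
  simp only [Matrix.toLinearMap₂'_apply, AbVar.Ec, Matrix.of_apply, smul_eq_mul, mul_sub,
    Finset.sum_sub_distrib]
  rw [sub_eq_zero, Finset.sum_comm]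
  exact Finset.sum_congr rfl fun _ _ => Finset.sum_congr rfl fun _ _ => by ring

omit [DecidableEq (E →+* ℂ)] in
theorem jy_rat (b : Basis (Fin (2 * g)) ℚ E) (x : E) :
    (fun φ : E →+* ℂ => φ x) = fun φ => vec b φ ⬝ᵥ fun j => (b.repr x j : ℂ) := by
  funext φ
  conv_lhs => rw [← b.sum_repr x]
  simp only [map_sum, Rat.smul_def, map_mul, map_ratCast, dotProduct, vec, mul_comm]

/-- The imaginary element attached to the Riemann form. -/
theorem jy_main [IsCMField E] (h : IsCM A b Φ) {k : ((E →+* ℂ) → ℂ) →ₗ[ℂ] Fin (2 * g) → ℂ}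
    (h1 : ∀ y φ, vec b φ ⬝ᵥ k y = y φ) (h2 : ∀ v, k (fun φ => vec b φ ⬝ᵥ v) = v) :
    ∃ ξ : E, (∀ φ : E →+* ℂ, Matrix.toLinearMap₂' ℂ A.Ec (k (Pi.single φ 1))
      (k (Pi.single (conjugate φ) 1)) = Real.pi * I * φ ξ) ∧ cc ξ = -ξ ∧
      ∀ φ ∈ Φ, 0 < (φ ξ).im := by
  have hπ : (Real.pi * I : ℂ) ≠ 0 := mul_ne_zero (ofReal_ne_zero.2 Real.pi_ne_zero) I_ne_zero
  obtain ⟨E0, J, hE, hJ, -, hpos⟩ := pol A
  have e0 : J = A.J := by
    ext j l
    have := congrArg (fun z => A.ω.repr z l) ((hJ j).symm.trans (J_spec A j))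
    simpa only [map_sum, map_smul, Basis.repr_self, Finsupp.smul_single, smul_eq_mul, mul_one, Finsupp.coe_finsetSum, Finset.sum_apply, Finsupp.single_apply, Finset.sum_ite_eq', Finset.mem_univ, ↓ reduceIte] using this
  obtain ⟨ξ, hξ⟩ := jy_xi ((Matrix.toLinearMap₂' ℂ A.Ec).compl₁₂ k k) fun x x' => by
    refine ⟨∑ i, ∑ j, b.repr x i * (b.repr x' j * (2 * E0 i j)), ?_⟩
    rw [LinearMap.compl₁₂_apply, jy_rat b x, jy_rat b x', h2, h2, Matrix.toLinearMap₂'_apply]
    push_cast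
    simp only [Finset.mul_sum, smul_eq_mul, hE]
    exact Finset.sum_congr rfl fun _ _ => Finset.sum_congr rfl fun _ _ => by ring
  simp only [LinearMap.compl₁₂_apply] at hξ
  have hi := involutive_conjugate E
  have hs : ∀ φ : E →+* ℂ, conjugate φ ξ = -φ ξ := fun φ => by
    have := hξ (conjugate φ)
    rw [hi φ, skew (jy_alt A), hξ] at this
    refine mul_left_cancel₀ hπ ?_
    rw [← this, mul_neg]
  refine ⟨ξ, hξ, ?_, fun φ hφ => ?_⟩
  · obtain ⟨φ⟩ : Nonempty (E →+* ℂ) := inferInstance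
    refine φ.injective ?_
    rw [cc, IsCMField.complexEmbedding_complexConj, map_neg]
    exact hs φ
  have hφ' : conjugate φ ∉ Φ := fun h' => (h.conj_iff φ).1 h' hφ
  have hne : conjugate φ ≠ φ := fun e => hφ' (e.symm ▸ hφ)
  obtain ⟨v, hv⟩ : ∃ v, v = k (Pi.single φ 1) := ⟨_, rfl⟩
  have hv' : k (Pi.single (conjugate φ) 1) = star v := by
    rw [← h2 (star v)]
    congr 1
    funext ψ
    have e1 : vec b ψ ⬝ᵥ star v = star (vec b (conjugate ψ) ⬝ᵥ v) := by
      simp only [dotProduct, Pi.star_apply, RCLike.star_def, vec_conj, star_sum, star_mul', RingHomCompTriple.comp_apply, RingHom.id_apply]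
    rw [e1, hv, h1]
    simp only [Pi.single_apply, hi.eq_iff]
    split_ifs <;> simp
  have c1 : ∀ ψ, vec b ψ ⬝ᵥ v = if ψ = φ then 1 else 0 := fun ψ => by
    rw [hv, h1, Pi.single_apply]
  have c2 : ∀ ψ, vec b ψ ⬝ᵥ star v = if ψ = conjugate φ then 1 else 0 := fun ψ => by
    rw [← hv', h1, Pi.single_apply]
  obtain ⟨u, hu⟩ : ∃ u : Fin (2 * g) → ℝ, (fun j => (u j : ℂ)) = v + star v :=
    ⟨fun j => 2 * (v j).re, funext fun j => (add_conj (v j)).symm⟩
  have u0 : u ≠ 0 := fun e => by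
    have := congrArg (vec b φ ⬝ᵥ ·) hu
    simp only [e, dotProduct_add, c1, c2, hne.symm] at this
    simp only [Pi.zero_apply, ofReal_zero, dotProduct_zero', ↓ reduceIte, add_zero, zero_ne_one] at this
  have uJ : (fun j => ((u ᵥ* J) j : ℂ)) = I • v - I • star v := by
    have e1 : (fun j => ((u ᵥ* J) j : ℂ)) = (v + star v) ᵥ* A.J.map ofReal := by
      funext j
      rw [← hu]
      simp only [vecMul, dotProduct, e0, ofReal_sum, ofReal_mul, map_apply]
    rw [e1, ← h2 (_ ᵥ* _), ← h2 (_ - _)]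
    congr 1
    funext ψ
    rw [dotProduct_comm, ← dotProduct_mulVec, h.eig, dotProduct_smul, dotProduct_comm,
      dotProduct_add, dotProduct_sub, dotProduct_smul, dotProduct_smul, c1, c2]
    by_cases e : ψ = φ
    · simp [e, hφ, hne.symm]
    · by_cases e' : ψ = conjugate φ
      · simp only [e', hφ', ↓ reduceIte, hne, zero_add, smul_eq_mul, mul_one, mul_zero, zero_sub]
      · simp [e, e']
  have k1 : Matrix.toLinearMap₂' ℂ A.Ec (fun j => (u j : ℂ)) (fun j => ((u ᵥ* J) j : ℂ)) =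
      2 * Real.pi * I * ((u ᵥ* E0.map (Int.cast : ℤ → ℝ)) ⬝ᵥ (u ᵥ* J) : ℝ) := by
    rw [Matrix.toLinearMap₂'_apply, Finset.sum_comm]
    generalize u ᵥ* J = w
    simp only [dotProduct, vecMul, map_apply, hE, smul_eq_mul]
    push_cast
    simp only [Finset.mul_sum, Finset.sum_mul]
    exact Finset.sum_congr rfl fun _ _ => Finset.sum_congr rfl fun _ _ => by ring
  have k2 := hξ φ
  rw [← hv, hv'] at k2
  rw [hu, uJ] at k1
  simp only [map_add, map_sub, map_smul, LinearMap.add_apply, smul_eq_mul, jy_alt,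
    skew (jy_alt A) v (star v), k2] at k1
  have k3 : φ ξ = I * ((u ᵥ* E0.map (Int.cast : ℤ → ℝ)) ⬝ᵥ (u ᵥ* J) : ℝ) := by
    refine mul_left_cancel₀ (mul_ne_zero two_ne_zero (ofReal_ne_zero.2 Real.pi_ne_zero)) ?_
    linear_combination k1 + 2 * Real.pi * φ ξ * I_sq
  rw [k3, I_mul_im, ofReal_re]
  exact hpos u u0

omit [DecidableEq (E →+* ℂ)]

theorem exists_xi [IsCMField E] (h : IsCM A b Φ) :
    ∃ ξ : E, cc ξ = -ξ ∧ ∀ φ ∈ Φ, 0 < (φ ξ).im := by
  classical
  obtain ⟨k, h1, h2⟩ := jy_k b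
  obtain ⟨ξ, -, h3⟩ := jy_main h h1 h2
  exact ⟨ξ, h3⟩

theorem jy_ker (h : IsCM A b Φ) {v : Fin (2 * g) → ℂ} (hv : ∀ φ ∈ Φ, vec b φ ⬝ᵥ v = 0) :
    ∑ j, v j • A.ω j = 0 := by
  classical
  funext i
  have h1 : (fun j => A.ω j i) ∈ hol A := Submodule.subset_span ⟨i, rfl⟩
  obtain ⟨c, hc⟩ := (Submodule.mem_span_range_iff_exists_fun ℂ).1
    (vec_span b ▸ Submodule.mem_top : (fun j => A.ω j i) ∈ Submodule.span ℂ (Set.range (vec b)))
  have h2 := J_hol A h1
  rw [← hc, mulVec_sum, Finset.smul_sum, ← sub_eq_zero, ← Finset.sum_sub_distrib] at h2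
  simp only [mulVec_smul, h.eig, smul_smul, ← sub_smul] at h2
  have h3 : ∀ φ, φ ∉ Φ → c φ = 0 := fun φ hφ => by
    have := Fintype.linearIndependent_iff.1 (vec_li b) _ h2 φ
    simp only [hφ, if_false] at this
    refine mul_left_cancel₀ (mul_ne_zero two_ne_zero I_ne_zero) ?_
    linear_combination -this
  have h4 : (fun j => A.ω j i) ⬝ᵥ v = 0 := by
    rw [← hc, sum_dotProduct]
    refine Finset.sum_eq_zero fun φ _ => ?_
    rw [smul_dotProduct]
    by_cases hφ : φ ∈ Φ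
    · rw [hv φ hφ, smul_zero]
    · rw [h3 φ hφ, zero_smul]
  simpa only [Finset.sum_apply, Pi.smul_apply, smul_eq_mul, Pi.zero_apply, dotProduct, mul_comm] using h4

theorem jy_dR {p : (E →+* ℂ) → ℂ} (q : Per A b p) {v : Fin (2 * g) → ℂ}
    (hv : ∀ φ, IsAlgebraic ℚ (p φ * (vec b φ ⬝ᵥ v))) {η : Fin (2 * g) → ℂ} (hη : η ∈ A.dR) :
    IsAlgebraic ℚ (η ⬝ᵥ v) := by
  have hli : LinearIndependent ℂ fun φ => p φ • vec b φ :=
    (vec_li b).units_smul fun φ => Units.mk0 (p φ) (q.ne φ)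
  obtain ⟨c, hc, e⟩ := dR_repr hli (by rw [card_emb b, Fintype.card_fin]) q.mem
    (Submodule.subset_span hη)
  rw [e, sum_dotProduct]
  refine al_isAlg_sum _ fun φ => ?_
  rw [smul_dotProduct, smul_dotProduct]
  exact (hc φ).mul (hv φ)

/-- Theorem J from a theta function for the given polarisation. -/
theorem jay_of [IsCMField E] (h : IsCM A b Φ) {p : (E →+* ℂ) → ℂ} (q : Per A b p)
    {R : AddSubgroup (Fin (2 * g) → ℂ)} {F : Submodule ℂ (Fin (2 * g) → ℂ)}
    {D : Set (Fin (2 * g) → ℂ)} {G : (Fin (2 * g) → ℂ) → ℂ} (h0 : G ≠ 0)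
    (hG : Th (Matrix.toLinearMap₂' ℂ A.Ec) R F D G)
    (hR : ∀ r : Fin (2 * g) → ℚ, (fun j => (r j : ℂ)) ∈ R)
    (hF : ∀ y : Fin (2 * g) → ℂ, ∑ j, y j • A.ω j = 0 → y ∈ F)
    (hD : ∀ u, (∀ η ∈ A.dR, IsAlgebraic ℚ (η ⬝ᵥ u)) → u ∈ D)
    {ξ : E} (hξ : cc ξ = -ξ) (hp : ∀ φ ∈ Φ, 0 < (φ ξ).im) :
    ∃ G, G ≠ 0 ∧ Th (Bx ξ) (RW E) (FW Φ) (DW p) G := by
  classical
  obtain ⟨k, h1, h2⟩ := jy_k b
  obtain ⟨ξ₀, h3, h4, h5⟩ := jy_main h h1 h2
  have hc : ∀ (φ : E →+* ℂ) (x : E), φ (cc x) = star (φ x) := fun φ x =>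
    IsCMField.complexEmbedding_complexConj E φ x
  have him : ∀ x : E, cc x = -x → ∀ φ : E →+* ℂ, φ x = (φ x).im * I := fun x hx φ => by
    have := congrArg re (hc φ x)
    rw [hx, map_neg, neg_re, star_def, conj_re] at this
    refine Complex.ext ?_ (by simp)
    simp only [mul_re, ofReal_re, I_re, mul_zero, ofReal_im, I_im, zero_mul, sub_zero]
    linarith
  have hβ : ∀ φ ∈ Φ, φ ξ₀ ≠ 0 ∧ 0 < (φ (ξ / ξ₀)).re ∧ (φ (ξ / ξ₀)).im = 0 := fun φ hφ => by
    refine ⟨fun e => by simpa [e] using h5 φ hφ, ?_⟩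
    rw [map_div₀, him ξ hξ φ, him ξ₀ h4 φ, mul_div_mul_right _ _ I_ne_zero, ← ofReal_div,
      ofReal_re, ofReal_im]
    exact ⟨div_pos (hp φ hφ) (h5 φ hφ), rfl⟩
  have hβ' : ∀ φ : E →+* ℂ, φ ξ₀ ≠ 0 ∧ 0 < (φ (ξ / ξ₀)).re ∧ (φ (ξ / ξ₀)).im = 0 := fun φ => by
    by_cases hφ : φ ∈ Φ
    · exact hβ φ hφ
    · have := hβ _ ((h.conj_iff φ).2 hφ)
      rw [jy_conj, jy_conj, star_def, conj_re, conj_im, neg_eq_zero] at this
      exact ⟨fun e => this.1 (by rw [e, map_zero]), this.2⟩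
  obtain ⟨m, α, hα0, hα⟩ := casimir (E := E) cc hc (ξ / ξ₀) fun φ => (hβ' φ).2
  have hT : ∀ i, Th ((Matrix.toLinearMap₂' ℂ A.Ec).compl₁₂ (k ∘ₗ mW (α i)) (k ∘ₗ mW (α i)))
      (RW E) (FW Φ) (DW p) fun y => G ((k ∘ₗ mW (α i)) y) := fun i => by
    refine hG.comp _ ?_ (fun ν hν => hF _ (jy_ker h fun φ hφ => ?_))
      fun u hu => hD _ fun η hη => jy_dR q (fun φ => ?_) hη
    · rintro _ ⟨x, rfl⟩
      have e : mW (α i) (fun φ => φ x) = fun φ => φ (α i * x) :=
        funext fun φ => (map_mul φ _ _).symm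
      rw [LinearMap.comp_apply, e, jy_rat b, h2]
      exact hR _
    · rw [LinearMap.comp_apply, h1, mW_apply, hν φ hφ, mul_zero]
    · rw [LinearMap.comp_apply, h1, mW_apply, mul_left_comm]
      exact ((Algebra.IsAlgebraic.isAlgebraic (R := ℚ) (α i)).algHom φ.toRatAlgHom).mul (hu φ)
  have hn : ∀ i, (fun y => G ((k ∘ₗ mW (α i)) y)) ≠ 0 := fun i e => h0 (funext fun v => by
    have := congrFun e fun φ => (φ (α i))⁻¹ * (vec b φ ⬝ᵥ v)
    have e' : mW (α i) (fun φ => (φ (α i))⁻¹ * (vec b φ ⬝ᵥ v)) = fun φ => vec b φ ⬝ᵥ v :=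
      funext fun φ => mul_inv_cancel_left₀ ((map_ne_zero φ).2 (hα0 i)) _
    rwa [LinearMap.comp_apply, e', h2] at this)
  obtain ⟨h6, h7⟩ := Th.prod (G := fun i y => G ((k ∘ₗ mW (α i)) y)) Finset.univ
    (fun i v => jy_alt A ((k ∘ₗ mW (α i)) v)) hT hn
  refine ⟨_, h7, ?_⟩
  have e : ∑ i, (Matrix.toLinearMap₂' ℂ A.Ec).compl₁₂ (k ∘ₗ mW (α i)) (k ∘ₗ mW (α i)) = Bx ξ := by
    refine LinearMap.ext fun y => LinearMap.ext fun y' => ?_
    have := jy_avg ((Matrix.toLinearMap₂' ℂ A.Ec).compl₁₂ k k) hα y y'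
    simp only [LinearMap.compl₁₂_apply, h3] at this
    simp only [LinearMap.sum_apply, LinearMap.compl₁₂_apply, LinearMap.comp_apply, this, Bx_apply,
      Finset.mul_sum]
    refine Finset.sum_congr rfl fun φ _ => ?_
    rw [jy_conj, star_def, conj_eq_iff_im.2 (hβ' φ).2.2, map_div₀]
    field_simp [(hβ' φ).1]
  exact e ▸ h6

/-- **Theorem J.** -/
theorem jay [IsCMField E] (h : IsCM A b Φ) {p : (E →+* ℂ) → ℂ} (q : Per A b p) {ξ : E}
    (hξ : cc ξ = -ξ) (hp : ∀ φ ∈ Φ, 0 < (φ ξ).im) :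
    ∃ G, G ≠ 0 ∧ Th (Bx ξ) (RW E) (FW Φ) (DW p) G := by
  obtain ⟨G, h0, hG⟩ := tors A
  exact jay_of h q h0 hG (fun r j => ⟨r j, rfl⟩)
    (fun y hy => LinearMap.mem_ker.2 ((Fintype.linearCombination_apply ℂ _ y).trans hy))
    (fun _ hu => hu) hξ hp

end GPCW

end

section

/-! Shimura's relation between the periods of four CM types. -/

open Complex Module NumberField ComplexEmbedding GPC73 GPC42

namespace GPCW

variable {E : Type} [Field E] [NumberField E] [IsCMField E]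

/-- Replace `a` by its conjugate. -/
def flip (a : E →+* ℂ) (Φ : Set (E →+* ℂ)) : Set (E →+* ℂ) := insert (conjugate a) (Φ \ {a})

/-! ### Block RA -/

/-- `exists_xi` for `A₁`, `A₄`; the structure `Sig` with `Ψ = Φ \ {a, b}`, `ab = ![a, b]`
(`IsCM.conj_iff`); the four types are `typ univ`, `typ {0}`, `typ {1}`, `typ ∅`;
`exists_dat`, `exists_pt` twice (`jay`), `core`. -/
theorem rel {g : ℕ} {N : Fin 4 → ℕ} {A : ∀ k, AbVar g (N k)} {β : Fin 4 → Basis (Fin (2 * g)) ℚ E}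
    {p : Fin 4 → (E →+* ℂ) → ℂ} {Φ : Set (E →+* ℂ)} {a b ψ : E →+* ℂ} (ha : a ∈ Φ) (hb : b ∈ Φ)
    (hψ : ψ ∈ Φ) (hab : a ≠ b) (hψa : ψ ≠ a) (hψb : ψ ≠ b)
    (h : ∀ k, IsCM (A k) (β k) (![Φ, flip b Φ, flip a Φ, flip a (flip b Φ)] k))
    (q : ∀ k, Per (A k) (β k) (p k)) :
    IsAlgebraic ℚ (p 0 ψ * p 3 ψ / (p 1 ψ * p 2 ψ)) := by
  classical
  have hc := (h 0).conj_iff
  simp only [Matrix.cons_val_zero] at hc
  have hi := involutive_conjugate E
  have hba : conjugate b ≠ a := fun e => (hc b).1 (e ▸ ha) hb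
  obtain ⟨ξ₀, i₀, p₀⟩ := exists_xi (h 0)
  obtain ⟨ξ₁, i₁, p₁⟩ := exists_xi (h 3)
  let T : Sig E (Fin 2) :=
    { Ψ := Φ \ {a, b}, ψ := ψ, ab := ![a, b], ξ := ![ξ₀, ξ₁]
      mem := ⟨hψ, by simp [hψa, hψb]⟩
      ne := fun i j => by fin_cases i <;> fin_cases j <;> simp [hab, hab.symm]
      tot := fun φ => by
        have := hc φ
        simp only [Set.mem_sdiff, Set.mem_insert_iff, Set.mem_singleton_iff, Fin.exists_fin_two,
          Matrix.cons_val_zero, Matrix.cons_val_one, hi.eq_iff (x := φ)]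
        tauto
      imag := Fin.forall_fin_two.2 ⟨i₀, i₁⟩
      pos := fun φ hφ => Fin.forall_fin_two.2 ⟨p₀ φ hφ.1, p₁ φ (Or.inr
        ⟨Or.inr ⟨hφ.1, fun e => hφ.2 (Or.inr e)⟩, fun e => hφ.2 (Or.inl e)⟩)⟩
      pos0 := Fin.forall_fin_two.2 ⟨p₀ a ha, p₀ b hb⟩
      neg1 := Fin.forall_fin_two.2 ⟨neg_pos.1 (p₁ _ (Or.inl rfl)),
        neg_pos.1 (p₁ _ (Or.inr ⟨Or.inl rfl, hba⟩))⟩ }
  have hJ : ∀ (k) (S : Set (Fin 2)), (∀ φ, (φ ∈ Φ ∧ ¬(φ = a ∨ φ = b) ∨
      (0 ∈ S ∧ φ = a ∨ 1 ∈ S ∧ φ = b) ∨ 0 ∉ S ∧ φ = conjugate a ∨ 1 ∉ S ∧ φ = conjugate b) ↔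
      φ ∈ ![Φ, flip b Φ, flip a Φ, flip a (flip b Φ)] k) → Jay (T.typ S) (p k) := fun k S hS => by
    have e : T.typ S = ![Φ, flip b Φ, flip a Φ, flip a (flip b Φ)] k :=
      Set.ext fun φ => by
        rw [← hS]
        simp only [Sig.typ, Set.mem_ofPred_eq, Fin.exists_fin_two]
        rfl
    rw [e]
    exact fun η h1 h2 => jay (h k) (q k) h1 h2
  obtain ⟨n, D, hD⟩ := T.exists_dat
  obtain ⟨α, a1, a0, ⟨P⟩⟩ := T.exists_pt hD Set.univ ((q 0).ne _) ((q 3).ne _)
    (hJ 0 _ fun φ => by simp only [not_or, Fin.isValue, Set.mem_univ, true_and, not_true_eq_false, false_and, or_self, or_false, Nat.succ_eq_add_one, Nat.reduceAdd, Matrix.cons_val_zero]; grind) (hJ 3 _ fun φ => by simp only [not_or, Set.compl_univ, Fin.isValue, Set.mem_empty_iff_false, false_and, or_self, not_false_eq_true, true_and, false_or, Nat.succ_eq_add_one, Nat.reduceAdd, flip, Matrix.cons_val, Set.mem_insert_iff, Set.mem_sdiff, Set.mem_singleton_iff]; grind)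
  obtain ⟨α', b1, b0, ⟨P'⟩⟩ := T.exists_pt hD {0} ((q 1).ne _) ((q 2).ne _)
    (hJ 1 _ fun φ => by simp only [not_or, Fin.isValue, Set.mem_singleton_iff, true_and, one_ne_zero, false_and, or_false, not_true_eq_false, not_false_eq_true, false_or, Nat.succ_eq_add_one, Nat.reduceAdd, flip, Matrix.cons_val_one, Matrix.cons_val_zero, Set.mem_insert_iff, Set.mem_sdiff]; grind) (hJ 2 _ fun φ => by simp only [not_or, Fin.isValue, Set.mem_compl_iff, Set.mem_singleton_iff, not_true_eq_false, false_and, one_ne_zero, not_false_eq_true, true_and, false_or, or_false, Nat.succ_eq_add_one, Nat.reduceAdd, flip, Matrix.cons_val, Set.mem_insert_iff, Set.mem_sdiff]; grind)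
  have n1 := (q 1).ne ψ
  have n2 := (q 2).ne ψ
  have := ((core D (mul_ne_zero b0 (mul_ne_zero n1 n2)) P' P).mul b1).mul a1.inv
  have e : p 0 ψ * p 3 ψ / (p 1 ψ * p 2 ψ) =
      α * (p 0 ψ * p 3 ψ) / (α' * (p 1 ψ * p 2 ψ)) * α' * α⁻¹ := by field_simp
  exact e ▸ this

omit [NumberField E] [IsCMField E] in
theorem fl_eq {a : E →+* ℂ} {Φ : Set (E →+* ℂ)} (ha : a ∈ Φ) (ha' : conjugate a ∉ Φ) :
    GPC72.fl a Φ = flip a Φ := by
  ext φ
  simp only [GPC72.fl, flip, Set.mem_symmDiff, Set.mem_insert_iff, Set.mem_singleton_iff,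
    Set.mem_sdiff]
  grind

/-- The target in the shape of `H72.WDefs`. -/
theorem rel_all (E : Type) [Field E] [NumberField E] [IsCMField E] (g : ℕ) : GPC72.Rel E g := by
  rintro Φ a b ψ p₁ p₂ p₃ p₄ ha hb hψ hab hψa hψb ⟨N₁, A₁, b₁, h₁, q₁⟩ ⟨N₂, A₂, b₂, h₂, q₂⟩
    ⟨N₃, A₃, b₃, h₃, q₃⟩ ⟨N₄, A₄, b₄, h₄, q₄⟩
  have hi := involutive_conjugate E
  have ca : conjugate a ∉ Φ := fun e => (h₁.conj_iff a).1 e ha
  have cb : conjugate b ∉ Φ := fun e => (h₁.conj_iff b).1 e hb
  rw [fl_eq hb cb] at h₂ h₄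
  rw [fl_eq ha ca] at h₃
  rw [fl_eq (Or.inr ⟨ha, hab⟩) (by
    rintro (e | e)
    exacts [hab (hi.injective e), ca e.1])] at h₄
  exact rel (N := ![N₁, N₂, N₃, N₄]) (A := fun k => match k with
      | 0 => A₁ | 1 => A₂ | 2 => A₃ | 3 => A₄) (β := ![b₁, b₂, b₃, b₄]) (p := ![p₁, p₂, p₃, p₄])
    ha hb hψ hab hψa hψb (fun k => match k with | 0 => h₁ | 1 => h₂ | 2 => h₃ | 3 => h₄)
    fun k => match k with | 0 => q₁ | 1 => q₂ | 2 => q₃ | 3 => q₄

end GPCW

end
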