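import Pool.Agent.MP_57341d_ag.HW.Emb
import Pool.Agent.MP_57341d_ag.HW.Tor
import Pool.Agent.MP_57341d_ag.H42.CM

attribute [-instance] NonUnitalAlgSemiHomClass.toDistribMulActionSemiHomClass RKHS.instFunLike
  LieAdmissibleAlgebra.toModule RightPreLieAlgebra.toModule LeftPreLieAlgebra.toModule
  IsPurelyInseparable.isIntegral decidableEq_of_subsingleton MonTypeEquivalenceMon.monMonoid
  FunLike.toDecidableEq NonUnitalAlgHomClass.toNonUnitalRingHomClass BialgHomClass.toAlgHomClass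
  IdemSemiring.toSemiring LieAlgebra.toModule AddQuantale.instAddLeftMono instCoeTCOfCoe
  GrpTypeEquivalenceGrp.grpGroup MulRingSeminormClass.toMonoidWithZeroHomClass
  NonarchimedeanAddGroup.toIsTopologicalAddGroup
  MulSemiringActionSemiHomClass.toDistribMulActionSemiHomClass BialgHomClass.toMonoidHomClass
  NumberField.instFiniteDimensional Pi.seminormedAddCommGroup TestFunctionClass.toDFunLike
  LinearOrder.toDecidableEq Algebra.WeaklyEtale.flat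

section

/-! A theta function of CM type with algebraic values gives an abelian variety of that type. -/

open Complex Module NumberField ComplexEmbedding GPC73 GPC42 GPC72

namespace GPCW

variable {E : Type} [Field E] [NumberField E] [IsCMField E] {g : ℕ} {Φ : Set (E →+* ℂ)} {ξ : E}

/-! ### Block XA -/

omit [IsCMField E] in
theorem ty_card (hd : finrank ℚ E = 2 * g) (hΦ : Ty Φ) : Φ.ncard = g := by
  have hi := involutive_conjugate E
  have h1 : conjugate '' Φ = Φᶜ := by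
    ext φ
    rw [Set.mem_image_iff_of_inverse hi hi]
    exact hΦ φ
  have h2 := Set.ncard_add_ncard_compl Φ
  rw [← h1, Set.ncard_image_of_injective _ hi.injective, Nat.card_eq_fintype_card, Embeddings.card,
    hd] at h2
  omega

theorem xa_tr (ξ u v : E) : Bx ξ (fun φ => φ u) (fun φ => φ v) =
    Real.pi * I * (Algebra.trace ℚ E (ξ * u * cc v) : ℚ) := by
  rw [cas_trace, Bx_apply]
  simp only [conj_eq_cc, map_mul]

/-- `symp` for the form `Tr (ξ x (cc y))` on `E` (compare `Sig.exists_dat`). -/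
theorem exists_symp1 (hd : finrank ℚ E = 2 * g) (hξ : cc ξ = -ξ) (h0 : ξ ≠ 0) :
    ∃ (β : Basis (Fin (2 * g)) ℚ E) (β' : Fin (2 * g) → E),
      (∀ i j, Bx ξ (fun φ => φ (β i)) (fun φ => φ (β' j)) = if i = j then Real.pi * I else 0) ∧
      (∀ i j, ∃ m : ℤ, Bx ξ (fun φ => φ (β i)) (fun φ => φ (β j)) = Real.pi * I * m) ∧
      ∀ j, ∃ i, β' j = β i ∨ β' j = -β i := by
  let b : E →ₗ[ℚ] E →ₗ[ℚ] ℚ :=
    LinearMap.mk₂ ℚ (fun u v => Algebra.trace ℚ E (ξ * u * cc v))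
      (fun _ _ _ => by rw [← map_add]; congr 1; ring)
      (fun _ _ _ => by rw [← map_smul]; congr 1; simp [Rat.smul_def]; ring)
      (fun _ _ _ => by rw [← map_add]; congr 1; simp only [cc, map_add]; ring)
      (fun _ _ _ => by rw [← map_smul]; congr 1; simp [cc, Rat.smul_def]; ring)
  have hb : ∀ u v, Bx ξ (fun φ => φ u) (fun φ => φ v) = Real.pi * I * b u v := xa_tr ξ
  have ha : ∀ v, b v v = 0 := fun v => by
    simpa only [Bx_alt hξ, mul_eq_zero, ofReal_eq_zero, Real.pi_ne_zero, I_ne_zero, or_self, Rat.cast_eq_zero, false_or] using (hb v v).symm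
  obtain ⟨n, β, h1, h2, h3⟩ := symp b ha fun v hv => by
    by_contra hk
    have h2 : Algebra.trace ℚ E (ξ * v * cc _) = 0 := hv (cc (ξ * v)⁻¹)
    rw [cc_cc, mul_inv_cancel₀ (mul_ne_zero h0 hk), ← (algebraMap ℚ E).map_one,
      Algebra.trace_algebraMap] at h2
    simp [(finrank_pos (R := ℚ) (M := E)).ne'] at h2
  have h4 : ∀ i j, b (β (.inr i)) (β (.inl j)) = -if j = i then 1 else 0 := fun i j => by
    rw [← h3, ← LinearMap.IsAlt.neg ha]
  let e : Fin n ⊕ Fin n ≃ Fin (2 * g) :=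
    Fintype.equivFinOfCardEq (by rw [← finrank_eq_card_basis β, hd])
  refine ⟨β.reindex e, fun j => (e.symm j).elim (fun k => β (.inr k)) fun k => -β (.inl k),
    fun i j => ?_, fun i j => ?_, fun j => ?_⟩
  · obtain ⟨i, rfl⟩ := e.surjective i
    obtain ⟨j, rfl⟩ := e.surjective j
    rw [hb]
    rcases i with i | i <;> rcases j with j | j <;> simp only [Basis.coe_reindex, Function.comp_apply, Equiv.symm_apply_apply, Sum.elim_inl, h3, apply_ite, Rat.cast_one, Rat.cast_zero, mul_one, mul_zero, EmbeddingLike.apply_eq_iff_eq, Sum.inl.injEq, eq_comm, mul_eq_zero, ofReal_eq_zero, Real.pi_ne_zero, I_ne_zero, or_self, if_false_right, and_true, if_false_left, ite_then_self, imp_self, Sum.elim_inr, map_neg, h1, neg_zero, reduceCtorEq, ↓ reduceIte, h2, h4, neg_neg, Sum.inr.injEq]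
  · obtain ⟨i, rfl⟩ := e.surjective i
    obtain ⟨j, rfl⟩ := e.surjective j
    rw [hb]
    rcases i with i | i <;> rcases j with j | j
    · exact ⟨0, by simp [h1]⟩
    · exact ⟨if i = j then 1 else 0, by simp [h3, apply_ite]⟩
    · exact ⟨-if j = i then 1 else 0, by simp [h4, apply_ite]⟩
    · exact ⟨0, by simp [h2]⟩
  · obtain ⟨j, rfl⟩ := e.surjective j
    rcases j with j | j
    · exact ⟨e (.inr j), .inl (by simp)⟩
    · exact ⟨e (.inl j), .inr (by simp)⟩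

theorem rt_Bx (hξ : cc ξ = -ξ) : Rt (Bx ξ) (RW E) where
  alt := Bx_alt hξ
  smul := by
    rintro q _ ⟨w, rfl⟩
    exact ⟨q * w, funext fun φ => by simp⟩
  rat := by
    rintro _ ⟨u, rfl⟩ _ ⟨v, rfl⟩
    exact ⟨_, xa_tr ξ u v⟩

/-! ### Block XB -/

omit [NumberField E] [IsCMField E] in
theorem xb_cases (hΦ : Ty Φ) (e : Fin g ≃ Φ) (φ : E →+* ℂ) :
    ∃ k, φ = (e k).1 ∨ φ = conjugate (e k).1 := by
  by_cases h : φ ∈ Φ
  · exact ⟨e.symm ⟨φ, h⟩, .inl (by simp)⟩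
  · exact ⟨e.symm ⟨_, (hΦ φ).2 h⟩, .inr (by simp only [Equiv.apply_symm_apply, involutive_conjugate E φ])⟩

omit [IsCMField E] in
theorem xb_sum (hΦ : Ty Φ) (e : Fin g ≃ Φ) (f : (E →+* ℂ) → ℂ) :
    ∑ φ, f φ = ∑ k, (f (e k).1 + f (conjugate (e k).1)) := by
  have hn : ∀ k k', (e k).1 ≠ conjugate (e k').1 := fun k k' h =>
    (hΦ _).1 (h ▸ (e k).2) (e k').2
  have hb : Function.Bijective (Sum.elim (fun k => (e k).1) fun k => conjugate (e k).1) := by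
    refine ⟨?_, fun φ => ?_⟩
    · rintro (k | k) (k' | k') h
      · exact congrArg _ (e.injective (Subtype.ext h))
      · exact (hn _ _ h).elim
      · exact (hn _ _ h.symm).elim
      · exact congrArg _ (e.injective (Subtype.ext ((involutive_conjugate E).injective h)))
    · obtain ⟨k, h | h⟩ := xb_cases hΦ e φ
      exacts [⟨.inl k, h.symm⟩, ⟨.inr k, h.symm⟩]
  rw [← hb.sum_comp f, Fintype.sum_sum_type, Finset.sum_add_distrib]
  rfl

omit [IsCMField E] in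
/-- The real basis `ω j = (φ (β j))_{φ ∈ Φ}`: a real combination `y = ∑ t j φ (β j)` satisfies
`y (conjugate φ) = star (y φ)`; `vec_li`. -/
theorem exists_om (hΦ : Ty Φ) (e : Fin g ≃ Φ) (β : Basis (Fin (2 * g)) ℚ E) :
    ∃ ω : Basis (Fin (2 * g)) ℝ (Fin g → ℂ), ∀ j k, ω j k = (e k).1 (β j) := by
  have hl : LinearIndependent ℝ fun j k => (e k).1 (β j) := by
    refine Fintype.linearIndependent_iff.2 fun t ht j => ?_
    have h1 : ∀ k, ∑ j, (e k).1 (β j) * t j = 0 := fun k => by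
      simpa only [mul_comm, Finset.sum_apply, Pi.smul_apply, real_smul, Pi.zero_apply] using congrFun ht k
    have h2 : Fintype.linearCombination ℂ (fun j => (t j : ℂ)) = 0 :=
      LinearMap.ext_on_range (vec_span β) fun φ => by
        obtain ⟨k, rfl | rfl⟩ := xb_cases hΦ e φ
        · exact h1 k
        · simpa only [Fintype.linearCombination_apply, vec, conjugate_coe_eq, smul_eq_mul, LinearMap.zero_apply, map_sum, map_mul, conj_ofReal, map_zero] using congrArg (starRingEnd ℂ) (h1 k)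
    simpa using DFunLike.congr_fun h2 (Pi.single j 1)
  exact ⟨Basis.mk hl (hl.span_eq_top_of_card_eq_finrank' (by simp only [mul_comm, Fintype.card_fin, finrank_pi_fintype, finrank_real_complex, Finset.sum_const, Finset.card_univ, smul_eq_mul])).ge,
    fun j k => by rw [Basis.mk_apply]⟩

open Classical in
/-- Extension by zero. -/
noncomputable def xbI (e : Fin g ≃ Φ) : (Fin g → ℂ) →ₗ[ℂ] (E →+* ℂ) → ℂ where
  toFun z φ := if h : φ ∈ Φ then z (e.symm ⟨φ, h⟩) else 0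
  map_add' _ _ := funext fun φ => by by_cases h : φ ∈ Φ <;> simp [h]
  map_smul' _ _ := funext fun φ => by by_cases h : φ ∈ Φ <;> simp [h]

/-- The hermitian form. -/
noncomputable def xbH (s : Fin g → ℝ) : (Fin g → ℂ) →ₗ⋆[ℂ] (Fin g → ℂ) →ₗ[ℂ] ℂ :=
  LinearMap.mk₂'ₛₗ _ _ (fun w z => ∑ k, s k * (starRingEnd ℂ (w k) * z k))
    (fun _ _ _ => by simp only [Pi.add_apply, map_add, mul_add, add_mul, Finset.sum_add_distrib])
    (fun _ _ _ => by
      simp only [Pi.smul_apply, smul_eq_mul, map_mul, Finset.mul_sum]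
      exact Finset.sum_congr rfl fun _ _ => by ring)
    (fun _ _ _ => by simp only [Pi.add_apply, mul_add, Finset.sum_add_distrib])
    (fun _ _ _ => by
      simp only [Pi.smul_apply, smul_eq_mul, RingHom.id_apply, Finset.mul_sum]
      exact Finset.sum_congr rfl fun _ _ => by ring)

theorem xbH_apply (s : Fin g → ℝ) (w z : Fin g → ℂ) :
    xbH s w z = ∑ k, s k * (starRingEnd ℂ (w k) * z k) := rfl

theorem xb_B (hΦ : Ty Φ) (e : Fin g ≃ Φ) (hξ : cc ξ = -ξ) (y y' : (E →+* ℂ) → ℂ) :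
    2 * Bx ξ y y' = ∑ k, (2 * Real.pi * ((e k).1 ξ).im : ℝ) *
      (y (conjugate (e k).1) * y' (e k).1 - y (e k).1 * y' (conjugate (e k).1)) := by
  rw [Bx_apply, xb_sum hΦ e, Finset.mul_sum, Finset.mul_sum]
  refine Finset.sum_congr rfl fun k _ => ?_
  rw [involutive_conjugate E, conj_eq_cc, hξ, map_neg]
  push_cast
  linear_combination (2 * Real.pi * I * (y (e k).1 * y' (conjugate (e k).1) -
    y (conjugate (e k).1) * y' (e k).1)) * imag_eq hξ (e k).1 + (2 * Real.pi * ((e k).1 ξ).im *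
      (y (e k).1 * y' (conjugate (e k).1) - y (conjugate (e k).1) * y' (e k).1)) * I_mul_I

/-- `ι z` is the extension of `z` by zero, `θ z = G (ι z)`,
`H w z = 2 π ∑ k, im (e k ξ) * star (w k) * z k`, `c l = exp (H l l / 2)`.  A real point `y` is
`ι t + ν` with `t = y` on `Φ`, `ν ∈ FW Φ`, `ν (conjugate φ) = star (t φ)`, and
`2 * Bx ξ ν (ι z) = H t z`, `Bx ξ (ι w) (ι z) = 0`.  So `2 * Bx ξ y y' = H t t' - H t' t`, which
gives `uni` with `β'`.  `pol_of_basis`. -/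
theorem exists_tf (hΦ : Ty Φ) (e : Fin g ≃ Φ) (hξ : cc ξ = -ξ) (hp : ∀ φ ∈ Φ, 0 < (φ ξ).im)
    {β : Basis (Fin (2 * g)) ℚ E} {β' : Fin (2 * g) → E}
    (hd : ∀ i j, Bx ξ (fun φ => φ (β i)) (fun φ => φ (β' j)) = if i = j then Real.pi * I else 0)
    (hs : ∀ j, ∃ i, β' j = β i ∨ β' j = -β i) {G : ((E →+* ℂ) → ℂ) → ℂ} (h0 : G ≠ 0)
    (h : Th (Bx ξ) (RW E) (FW Φ) ∅ G) (hG : ∀ i, S (Bx ξ) (fun φ => φ (β i)) G = G) :
    ∃ T : Tf g, ∀ j k, T.ω j k = (e k).1 (β j) := by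
  obtain ⟨ω, hω⟩ := exists_om hΦ e β
  set H := xbH fun k => 2 * Real.pi * ((e k).1 ξ).im with hH
  have i1 : ∀ z k, xbI e z (e k).1 = z k := fun z k => by simp [xbI]
  have i2 : ∀ z k, xbI e z (conjugate (e k).1) = 0 := fun z k =>
    dif_neg fun h => (hΦ _).1 h (e k).2
  have iF : ∀ y, y - xbI e (fun k => y (e k).1) ∈ FW Φ := fun y φ hφ => by simp [xbI, hφ]
  have iv : ∀ y z, G (xbI e z + (y - xbI e fun k => y (e k).1)) =
      exp (-Bx ξ y (xbI e z)) * G (xbI e z) := fun y z => by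
    rw [h.inv _ (iF y)]
    congr 2
    have h1 := xb_B hΦ e hξ (xbI e z) (y - xbI e fun k => y (e k).1)
    have h2 := xb_B hΦ e hξ y (xbI e z)
    simp only [i1, i2, Pi.sub_apply, sub_self, mul_zero, sub_zero, zero_sub, mul_neg,
      Finset.sum_neg_distrib, mul_comm (z _)] at h1 h2
    linear_combination (h1 + h2) / 2
  have b1 : ∀ (x : E) z, 2 * Bx ξ (fun φ => φ x) (xbI e z) = H (fun k => (e k).1 x) z :=
    fun x z => by simp only [xb_B hΦ e hξ, i1, i2, mul_zero, sub_zero]; rfl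
  have hh : ∀ w z, H w z = starRingEnd ℂ (H z w) := fun w z => by
    simp only [hH, xbH_apply, map_sum, map_mul, conj_ofReal, Complex.conj_conj]
    exact Finset.sum_congr rfl fun _ _ => by ring
  have b2 : ∀ x x' : E, Bx ξ (fun φ => φ x) (fun φ => φ x') =
      (H (fun k => (e k).1 x) fun k => (e k).1 x').im * I := fun x x' => by
    have h1 := sub_conj (H (fun k => (e k).1 x) fun k => (e k).1 x')
    rw [← hh] at h1
    have h2 := xb_B hΦ e hξ (fun φ => φ x) fun φ => φ x'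
    simp only [mul_sub, Finset.sum_sub_distrib, mul_comm ((e _).1 x)] at h2
    push_cast at h1
    exact mul_left_cancel₀ two_ne_zero ((h2.trans h1).trans (mul_assoc ..))
  have hω' : ∀ j, (fun k => (e k).1 (β j)) = ω j := fun j => funext fun k => (hω j k).symm
  refine ⟨⟨ω, H, fun l => exp (H l l / 2), fun z => G (xbI e z), ⟨hh, fun u hu => ?_,
    pol_of_basis ω⟩, fun l _ => by simp [norm_exp], fun d hd' => ?_, ⟨fun z => ?_, ?_⟩,
    fun h1 => h0 (funext fun y => ?_), fun t ht => ?_⟩, hω⟩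
  · obtain ⟨k, hk⟩ := Function.ne_iff.1 hu
    have h1 : ∀ k, 0 < 2 * Real.pi * ((e k).1 ξ).im := fun k =>
      mul_pos Real.two_pi_pos (hp _ (e k).2)
    simp only [hH, xbH_apply, conj_mul', ← ofReal_pow, ← ofReal_mul, ← ofReal_sum, ofReal_re]
    exact Finset.sum_pos' (fun k _ => mul_nonneg (h1 k).le (sq_nonneg _))
      ⟨k, Finset.mem_univ k, mul_pos (h1 k) (pow_pos (norm_pos_iff.2 hk) 2)⟩
  · have : ∀ j, ∃ n : ℤ, ω.repr d j = n := fun j => by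
      have h1 : (H d fun k => (e k).1 (β' j)).im = Real.pi * ω.repr d j := by
        conv_lhs => rw [← ω.sum_repr d]
        rw [map_sum, LinearMap.sum_apply, im_sum, Finset.sum_eq_single j (fun i _ hi => ?_) (by simp only [Finset.mem_univ, not_true_eq_false, IsEmpty.forall_iff])]
        all_goals
          rw [← ofReal_inj, ← coe_smul, map_smulₛₗ, conj_ofReal, LinearMap.smul_apply, smul_eq_mul,
            im_ofReal_mul, ofReal_mul, ← hω', ← mul_left_inj' I_ne_zero, mul_assoc, ← b2, hd]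
          simp [*, mul_comm, mul_assoc]
      obtain ⟨i, hi⟩ := hs j
      obtain ⟨n, hn⟩ := hd' i
      rw [hh, conj_im, ← hω'] at hn
      rcases hi with hi | hi
      · refine ⟨-n, mul_left_cancel₀ Real.pi_ne_zero ?_⟩
        rw [← h1, hi]
        push_cast
        linarith only [hn]
      · refine ⟨n, mul_left_cancel₀ Real.pi_ne_zero ?_⟩
        rw [← h1, ← hn, hi, ← neg_im, ← (H d).map_neg]
        exact congrArg (fun v => (H d v).im) (funext fun k => map_neg _ _)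
    choose n hn using this
    exact ⟨n, by simp only [← Int.cast_smul_eq_zsmul ℝ, ← hn, ω.sum_repr]⟩
  · exact (h.en _ trivial).differentiableAt.comp z
      (LinearMap.toContinuousLinearMap (xbI e)).differentiableAt
  · rintro _ ⟨j, rfl⟩ z
    have h1 := congrFun (hG j) (xbI e z)
    have h2 := iv (fun φ => φ (β j)) (z + ω j)
    have h3 := b1 (β j) (z + ω j)
    have h4 := b1 (β j) z
    rw [hω', map_add] at h2 h3
    rw [hω'] at h4
    rw [add_add_sub_cancel] at h2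
    show G (xbI e (z + ω j)) = exp _ * _ * G (xbI e z)
    rw [← h1, S, h2, ← mul_assoc, ← mul_assoc, ← exp_add, ← exp_add, ← exp_add, map_add]
    rw [show _ + _ + _ + _ = (0 : ℂ) by
      rw [map_add (H _)] at h3
      push_cast
      linear_combination -h3 / 2 - h4 / 2, exp_zero, one_mul]
  · have h2 := iv y fun k => y (e k).1
    rwa [add_sub_cancel, congrFun h1, Pi.zero_apply, mul_zero] at h2
  · choose q hq using ht
    have h1 : (fun k => (e k).1 (∑ j, q j • β j)) = t := funext fun k => by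
      conv_rhs => rw [← ω.sum_repr t]
      simp only [Rat.smul_def, map_sum, map_mul, map_ratCast, hq, Finset.sum_apply, Pi.smul_apply, hω, real_smul, ofReal_ratCast]
    have h2 := iv (fun φ => φ (∑ j, q j • β j)) t
    have h3 := b1 (∑ j, q j • β j) t
    rw [h1] at h2 h3
    rw [add_sub_cancel] at h2
    have h4 := h.alg _ ⟨∑ j, q j • β j, rfl⟩ [] (by simp)
    rw [nabl, h2] at h4
    rwa [← h3, show ∀ a : ℂ, -(2 * a) / 2 = -a from fun a => by ring]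

/-! ### Block XC -/

/-- `exists_symp1`, `Th.eig`, `exists_tf`, `Tf.exists_pre`, `Pre.exists_ab`. -/
theorem exists_cm (hd : finrank ℚ E = 2 * g) (hΦ : Ty Φ) (hξ : cc ξ = -ξ) (hp : ∀ φ ∈ Φ, 0 < (φ ξ).im)
    {G : ((E →+* ℂ) → ℂ) → ℂ} (h0 : G ≠ 0) (h : Th (Bx ξ) (RW E) (FW Φ) ∅ G) :
    ∃ (N : ℕ) (A : AbVar g N) (b : Basis (Fin (2 * g)) ℚ E), IsCM A b Φ := by
  have hc := ty_card hd hΦ
  have hx : ξ ≠ 0 := by
    rintro rfl
    obtain ⟨φ⟩ : Nonempty (E →+* ℂ) := inferInstance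
    by_cases hφ : φ ∈ Φ
    · simpa using hp _ hφ
    · simpa only [conjugate_coe_eq, map_zero, zero_im, lt_self_iff_false] using hp _ ((hΦ φ).2 hφ)
  obtain ⟨β, β', h1, h2, h3⟩ := exists_symp1 hd hξ hx
  obtain ⟨G', n', t', f'⟩ := Th.eig (rt_Bx hξ) (e := fun i φ => φ (β i)) (e' := fun i φ => φ (β' i))
    (fun i => ⟨β i, rfl⟩) (fun i => ⟨β' i, rfl⟩) h1 h2 h h0
  obtain ⟨e⟩ : Nonempty (Fin g ≃ Φ) :=
    ⟨(Finite.equivFinOfCardEq (by rw [Nat.card_coe_set_eq, hc])).symm⟩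
  obtain ⟨T, hT⟩ := exists_tf hΦ e hξ hp h1 h3 n' t' f'
  obtain ⟨N, P, hP⟩ := T.exists_pre
  obtain ⟨A, L, hL⟩ := P.exists_ab
  refine ⟨N, A, β, hc, fun φ hφ =>
    ⟨(LinearMap.proj (e.symm ⟨φ, hφ⟩)).comp L.toLinearMap, fun j => ?_⟩⟩
  rw [LinearMap.comp_apply, LinearEquiv.coe_coe, hL, hP, LinearMap.proj_apply, hT,
    Equiv.apply_symm_apply]

end GPCW

end

section

/-! Every CM type occurs over the algebraic numbers. -/

open Complex Module NumberField ComplexEmbedding GPC73 GPC42 GPC72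

namespace GPCW

variable {E : Type} [Field E] [NumberField E] [IsCMField E] {g : ℕ}

/-! ### Block SY -/

section

open Matrix

/-- The point `x`, the matrix `g = (w, w')` and `η` of `Sig.cm`; `ε`, `ε'`, `ρ`, `ν`, `ν'` as in
`Sig.exists_pt`; `α = act (g * diag (-1, 1) * g⁻¹)`; `j y = act g ![y, 0]`. -/
theorem Sig.exists_sym {σ : Type} [Fintype σ] [DecidableEq σ] (T : Sig E σ) [Fintype T.Ψ] {n : ℕ}
    {D : Dat (VV E) n (Fin 2 × (T.Ψ ⊕ σ)) σ} (hD : T.IsDat D) (A : Set σ) :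
    ∃ x, Nonempty (Sym D x) ∧ ∃ (η : E) (j : ((E →+* ℂ) → ℂ) →ₗ[ℂ] VV E), cc η = -η ∧
      (∀ φ ∈ T.typ A, 0 < (φ η).im) ∧ (B2 T.ξ).compl₁₂ j j = Bx η ∧ (∀ r ∈ RW E, j r ∈ R2 E) ∧
      ∀ v ∈ FW (T.typ A), j v ∈ T.F x := by
  classical
  obtain ⟨x, hx, η, g, hg, hH, hη, h0, -, hF⟩ := T.sy_pt A
  obtain ⟨eB, eX, eF, e0, e1, ed, eR⟩ := hD
  have hu : IsUnit g.det := isUnit_iff_ne_zero.2 hg
  have i1 : ∀ y, act g (act g⁻¹ y) = y := fun y => by
    rw [act_act, mul_nonsing_inv _ hu, act_one]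
  obtain ⟨α, hα⟩ : ∃ α : VV E →ₗ[ℂ] VV E, α = act (g * diagonal ![-1, 1] * g⁻¹) := ⟨_, rfl⟩
  have i2 : ∀ a, α (act g a) = act g ![-a 0, a 1] := fun a => by
    rw [hα, act_act, nonsing_inv_mul_cancel_right _ _ hu, ← act_act]
    congr 1
    funext k φ
    fin_cases k <;> simp only [Nat.succ_eq_add_one, Nat.reduceAdd, Fin.zero_eta, Fin.isValue, act_apply, diagonal_apply_eq, cons_val_zero, map_neg, map_one, neg_mul, one_mul, ne_eq, zero_ne_one, not_false_eq_true, diagonal_apply_ne, map_zero, zero_mul, add_zero, cons_val', Pi.neg_apply, cons_val_fin_one, Fin.mk_one, one_ne_zero, cons_val_one, zero_add]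
  have i3 : ∀ (φ : E →+* ℂ) j, ∃ e, (sv φ e ∈ T.F x → φ ∉ ![T.typ A, T.typ Aᶜ] j) ∧
      α (sv φ e) = (![-1, 1] j : ℂ) • sv φ e := fun φ j => by
    obtain ⟨e, he⟩ : ∃ e, _ = sv φ e := ⟨_, act_sv g φ (Pi.single j 1)⟩
    refine ⟨e, he ▸ ⟨fun h h' => ?_, ?_⟩⟩
    · fin_cases j
      · simpa [sv] using ((hF _).1 h).1 φ h'
      · simpa [sv] using ((hF _).1 h).2 φ h'
    · rw [i2, ← map_smul]
      congr 1
      funext k φ'
      fin_cases j <;> fin_cases k <;> simp [sv, neg_ite]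
  choose u hu1 hu2 using i3
  obtain ⟨e, he⟩ : ∃ e : σ → Fin 2 → ℂ, e = fun c => u (T.ab c) (if c ∈ A then 0 else 1) := ⟨_, rfl⟩
  obtain ⟨f, hf⟩ : ∃ f : σ → Fin 2 → ℂ,
    f = fun c => u (conjugate (T.ab c)) (if c ∈ A then 1 else 0) := ⟨_, rfl⟩
  have he' : ∀ c, e c 0 ≠ x c * e c 1 := fun c h => by
    refine hu1 _ _ (T.gb_mem0 (he ▸ h :)) ?_
    split_ifs with h
    exacts [.inr (.inl ⟨c, h, rfl⟩), .inr (.inl ⟨c, h, rfl⟩)]
  have hf' : ∀ c, T.ab c (T.ξ 1) * f c 1 + x c * T.ab c (T.ξ 0) * f c 0 ≠ 0 := fun c h => by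
    refine hu1 _ _ (T.gb_mem1 (hf ▸ h :)) ?_
    split_ifs with h
    exacts [.inr (.inr ⟨c, not_not.2 h, rfl⟩), .inr (.inr ⟨c, h, rfl⟩)]
  let j : ((E →+* ℂ) → ℂ) →ₗ[ℂ] VV E := act g ∘ₗ LinearMap.single ℂ (fun _ : Fin 2 => (E →+* ℂ) → ℂ) 0
  refine ⟨x, ⟨{
    mem := eX ▸ hx
    ε := fun c => sv (T.ab c) (e c)
    ε' := fun c => sv (conjugate (T.ab c)) (f c)
    ρ := fun c => 2 * (Real.pi * I) * ((e c 0 - x c * e c 1) *
      (T.ab c (T.ξ 1) * f c 1 + x c * T.ab c (T.ξ 0) * f c 0))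
    ρ_ne := fun c => mul_ne_zero (mul_ne_zero two_ne_zero Sig.gb_pi)
      (mul_ne_zero (sub_ne_zero.2 (he' c)) (hf' c))
    vec := fun a j => by rw [eB, eF, e0, e1]; exact T.gb_vec x a _ _ j
    ν := fun c => sv (T.ab c) ![x c, 1]
    ν' := fun c => sv (conjugate (T.ab c)) ![T.ab c (T.ξ 1), -(x c * T.ab c (T.ξ 0))]
    ν_mem := fun c => eF ▸ T.gb_mem0 (by simp)
    ν'_mem := fun c => eF ▸ T.gb_mem1 (by simp only [Fin.isValue, cons_val_one, cons_val_fin_one, mul_neg, cons_val_zero]; ring)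
    tab := eB ▸ T.gb_tab he' hf'
    α := α
    iso := fun u v => ?_
    rat := ?_
    fix := fun v hv => ?_
    eig := fun c => ?_ }⟩, η 0, j, hη 0, h0,
    LinearMap.ext fun u => LinearMap.ext fun v => ?_, ?_, fun v hv => (hF _).2 ⟨hv, zero_mem _⟩⟩
  · rw [eB, ← i1 u, ← i1 v, i2, i2, B2_act hH, B2_act hH, B2_apply, B2_apply]
    simp only [Fin.isValue, cons_val_zero, map_neg, LinearMap.neg_apply, neg_neg, cons_val_one, cons_val_fin_one]
  · rw [eR, hα]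
    rintro _ ⟨w, rfl⟩
    exact ⟨_, act_emb _ w⟩
  · rw [eF, ← i1 v] at *
    rw [i2]
    exact (hF _).2 ⟨neg_mem ((hF _).1 hv).1, ((hF _).1 hv).2⟩
  · by_cases h : c ∈ A <;> simp only [he, Fin.isValue, Nat.succ_eq_add_one, Nat.reduceAdd, h, ↓ reduceIte, hu2, cons_val_zero, neg_smul, one_smul, hf, cons_val_one, cons_val_fin_one, and_self, or_true, true_or]
  · show B2 T.ξ (act g _) (act g _) = _
    rw [B2_act hH, B2_apply]
    simp
  · rintro _ ⟨w, rfl⟩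
    refine ⟨g *ᵥ Pi.single 0 w, (congrArg (act g) ?_).trans (act_emb _ _)⟩
    funext k φ
    fin_cases k <;> simp [emb]

end

variable (g) in
/-- The type occurs. -/
def Oc (Φ : Set (E →+* ℂ)) : Prop :=
  ∃ (N : ℕ) (A : AbVar g N) (b : Basis (Fin (2 * g)) ℚ E), IsCM A b Φ

/-! ### Block PR -/

theorem pr_typ {σ : Type} (T : Sig E σ) {Φ : Set (E →+* ℂ)} (hΦ : Ty Φ) (hs : T.Ψ ⊆ Φ) :
    T.typ {c | T.ab c ∈ Φ} = Φ := by
  ext φ
  refine ⟨?_, fun h => ?_⟩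
  · rintro (h | ⟨c, h, rfl⟩ | ⟨c, h, rfl⟩)
    exacts [hs h, h, (hΦ _).2 h]
  · rcases T.tot φ with h1 | h1 | ⟨c, rfl | rfl⟩
    exacts [.inl h1, absurd h ((hΦ φ).1 (hs h1)), .inr (.inl ⟨c, h, rfl⟩),
      .inr (.inr ⟨c, (hΦ _).1 h, rfl⟩)]

/-- As in `rel`: `Sig` with `Ψ = Φ₁ ∩ Φ₂`, `σ = ↥(Φ₁ \ Φ₂)`, `typ univ = Φ₁`, `typ univᶜ = Φ₂`,
`typ {c | c.1 ∈ Φ} = Φ`; `exists_dat`, `exists_pt` (`exists_per`, `jay`), `exists_sym`, `rig`; choose
a rational `r` with `G r ≠ 0` (`den`), then `Th.S`, `Th.comp` along `j`; `exists_cm`. -/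
theorem recomb {Φ₁ Φ₂ Φ : Set (E →+* ℂ)} (h₁ : Oc g Φ₁) (h₂ : Oc g Φ₂) (hne : (Φ₁ ∩ Φ₂).Nonempty)
    (hΦ : Ty Φ) (hs : Φ₁ ∩ Φ₂ ⊆ Φ) : Oc g Φ := by
  classical
  obtain ⟨N₁, A₁, b₁, c₁⟩ := h₁
  obtain ⟨N₂, A₂, b₂, c₂⟩ := h₂
  obtain ⟨ψ, hψ⟩ := hne
  obtain ⟨ξ₀, i₀, s₀⟩ := exists_xi c₁
  obtain ⟨ξ₁, i₁, s₁⟩ := exists_xi c₂
  obtain ⟨p₁, q₁⟩ := exists_per c₁
  obtain ⟨p₂, q₂⟩ := exists_per c₂
  let T : Sig E ↥(Φ₁ \ Φ₂) :=
    { Ψ := Φ₁ ∩ Φ₂
      ψ := ψ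
      ab := Subtype.val
      ξ := ![ξ₀, ξ₁]
      mem := hψ
      ne := Subtype.val_injective
      tot := fun φ => by
        by_cases h1 : φ ∈ Φ₁ <;> by_cases h2 : φ ∈ Φ₂
        exacts [.inl ⟨h1, h2⟩, .inr (.inr ⟨⟨φ, h1, h2⟩, .inl rfl⟩),
          .inr (.inr ⟨⟨_, (c₁.conj_iff φ).2 h1, fun h => (c₂.conj_iff φ).1 h h2⟩,
            .inr (star_star φ).symm⟩),
          .inr (.inl ⟨(c₁.conj_iff φ).2 h1, (c₂.conj_iff φ).2 h2⟩)]
      imag := Fin.forall_fin_two.2 ⟨i₀, i₁⟩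
      pos := fun φ hφ => Fin.forall_fin_two.2 ⟨s₀ φ hφ.1, s₁ φ hφ.2⟩
      pos0 := fun c => s₀ _ c.2.1
      neg1 := fun c => by
        have := s₁ _ ((c₂.conj_iff c.1).2 c.2.2)
        rw [conjugate_coe_eq, conj_im] at this
        exact neg_pos.1 this }
  have t₁ := pr_typ T c₁.conj_iff Set.inter_subset_left
  have t₂ := pr_typ T c₂.conj_iff Set.inter_subset_right
  have t := pr_typ T hΦ hs
  have e : {c | T.ab c ∈ Φ₂} = {c | T.ab c ∈ Φ₁}ᶜ :=
    Set.ext fun c => iff_of_false c.2.2 fun h => h c.2.1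
  rw [e] at t₂
  have : Fintype T.Ψ := Fintype.ofFinite _
  have : Fintype ↥(Φ₁ \ Φ₂) := Fintype.ofFinite _
  obtain ⟨n, D, hD⟩ := T.exists_dat
  obtain ⟨α, -, -, ⟨P⟩⟩ := T.exists_pt hD {c | T.ab c ∈ Φ₁} (q₁.ne _) (q₂.ne _)
    (t₁.symm ▸ fun η h1 h2 => jay c₁ q₁ h1 h2) (t₂.symm ▸ fun η h1 h2 => jay c₂ q₂ h1 h2)
  obtain ⟨x, ⟨s⟩, η, j, iη, sη, hB, hR, hF⟩ := T.exists_sym hD {c | T.ab c ∈ Φ}
  rw [t] at sη hF
  obtain ⟨G, G0, hG⟩ := rig P s
  obtain ⟨r, hr, hr0⟩ := den (e := D.e) hG.en G0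
  have h := (hG.S D.sy.rt hr).comp j (R' := RW E) (F' := FW Φ) (D' := ∅) (hD.R ▸ hR) (hD.F ▸ hF)
    fun _ h => h
  rw [hD.B, hB] at h
  refine exists_cm (by rw [finrank_eq_card_basis b₁, Fintype.card_fin]) hΦ iη sη
    (fun h0 => hr0 ?_) h
  simpa [S] using congrFun h0 0

/-! ### Block CB -/

omit [NumberField E] [IsCMField E] in
theorem cb1_mem {a φ : E →+* ℂ} {Ψ : Set (E →+* ℂ)} :
    φ ∈ fl a Ψ ↔ (φ ∈ Ψ ↔ φ ≠ a ∧ φ ≠ conjugate a) := by
  simp only [fl, Set.mem_symmDiff, Set.mem_insert_iff, Set.mem_singleton_iff]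
  tauto

omit [NumberField E] [IsCMField E] in
theorem cb1_ty {a : E →+* ℂ} {Ψ : Set (E →+* ℂ)} (h : Ty Ψ) : Ty (fl a Ψ) := fun φ => by
  have e := involutive_conjugate E
  have h1 : conjugate φ ≠ a ↔ φ ≠ conjugate a := e.eq_iff.not
  have h2 : conjugate φ ≠ conjugate a ↔ φ ≠ a := e.injective.ne_iff
  rw [cb1_mem, cb1_mem, h1, h2, h φ]
  tauto

omit [NumberField E] [IsCMField E] in
theorem cb1_eq {Ψ Φ : Set (E →+* ℂ)} (h : Ty Ψ) (h' : Ty Φ) (hs : Ψ ⊆ Φ) : Ψ = Φ :=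
  hs.antisymm fun φ hφ => by_contra fun hn => (h' φ).1 (hs ((h φ).2 hn)) hφ

omit [NumberField E] [IsCMField E] in
theorem cb1_sub {a : E →+* ℂ} {Ψ Θ : Set (E →+* ℂ)} (h : Ty Ψ) (ha : a ∈ Ψ) (hn : a ∉ Θ) :
    Ψ ∩ Θ ⊆ fl a Ψ := fun _ hφ => cb1_mem.2 (iff_of_true hφ.1
  ⟨fun e => hn (e ▸ hφ.2), fun e => (h a).1 (e ▸ hφ.1) ha⟩)

/-- Recombination gives `Φ₁` and `fl b Φ₁`; the Galois group is transitive on the embeddings, so
for each `a` there is a pair `Θ`, `fl a Θ`.  Given `Ψ` take the one, `Θ`, that differs from `Ψ` at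
`a`.  If it meets `Ψ` recombine; otherwise `Θ = Ψᶜ` and `fl a Ψ` is the twist of `fl a Θ` by complex
conjugation.  Induction on the number of places where two types differ. -/
theorem comb [IsGalois ℚ E] (R : Set (E →+* ℂ) → Prop) (ty : ∀ Φ, R Φ → Ty Φ)
    (tw : ∀ Φ (γ : E ≃ₐ[ℚ] E), R Φ → R {φ | φ.comp (γ : E →+* E) ∈ Φ})
    (re : ∀ Φ₁ Φ₂ Φ, R Φ₁ → R Φ₂ → (Φ₁ ∩ Φ₂).Nonempty → Ty Φ → Φ₁ ∩ Φ₂ ⊆ Φ → R Φ)
    {Φ₁ Φ₂ : Set (E →+* ℂ)} (h₁ : R Φ₁) (h₂ : R Φ₂) (hne : (Φ₁ ∩ Φ₂).Nonempty) (hn : Φ₁ ≠ Φ₂)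
    {Φ : Set (E →+* ℂ)} (hΦ : Ty Φ) : R Φ := by
  obtain ⟨b, hb, hb'⟩ := Set.not_subset.1 fun hs => hn (cb1_eq (ty _ h₁) (ty _ h₂) hs)
  have h₃ := re _ _ _ h₁ h₂ hne (cb1_ty (ty _ h₁)) (cb1_sub (ty _ h₁) hb hb')
  have flip : ∀ Ψ a, R Ψ → a ∈ Ψ → R (fl a Ψ) := fun Ψ a hΨ ha => by
    obtain ⟨γ, rfl⟩ := exists_comp_symm_eq_of_comp_eq (k := ℚ) a b (Subsingleton.elim _ _)
    have t₁ := tw _ γ.symm h₁
    have t₂ := tw _ γ.symm h₃
    have c : ∀ φ ψ : E →+* ℂ, φ.comp (γ.symm : E →+* E) = ψ.comp (γ.symm : E →+* E) ↔ φ = ψ :=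
      fun φ ψ => RingHom.cancel_right γ.symm.surjective
    have e : {φ : E →+* ℂ | φ.comp (γ.symm : E →+* E) ∈ fl (a.comp (γ.symm : E →+* E)) Φ₁} =
        fl a {φ | φ.comp (γ.symm : E →+* E) ∈ Φ₁} := Set.ext fun φ => by
      rw [Set.mem_ofPred_eq, cb1_mem, cb1_mem, Ne, Ne, c, Set.mem_ofPred_eq]
      exact iff_congr Iff.rfl (and_congr Iff.rfl (c φ (conjugate a)).not)
    rw [e] at t₂
    generalize hΘ : {φ : E →+* ℂ | φ.comp (γ.symm : E →+* E) ∈ Φ₁} = Θ at t₁ t₂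
    have haΘ : a ∈ Θ := hΘ ▸ hb
    have hna : a ∉ fl a Θ := fun h => ((cb1_mem.1 h).1 haΘ).1 rfl
    rcases (Ψ ∩ fl a Θ).eq_empty_or_nonempty with h0 | h0
    · have t₃ := tw _ ((IsCMField.complexConj E).restrictScalars ℚ) t₁
      refine cb1_eq (cb1_ty (ty _ hΨ)) (ty _ t₃) (fun φ hφ => ?_) ▸ t₃
      have e : φ.comp ((IsCMField.complexConj E).restrictScalars ℚ : E →+* E) = conjugate φ :=
        RingHom.ext (IsCMField.complexEmbedding_complexConj E φ)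
      rw [Set.mem_ofPred_eq, e, ty _ t₁ φ]
      have h1 := cb1_mem.1 hφ
      have h2 : ¬(φ ∈ Ψ ∧ φ ∈ fl a Θ) := fun h => h0.subset h
      rw [cb1_mem] at h2
      intro h3
      by_cases h4 : φ ∈ Ψ
      · exact h2 ⟨h4, iff_of_true h3 (h1.1 h4)⟩
      · by_cases h5 : φ = a
        · exact h4 (h5 ▸ ha)
        · by_cases h6 : φ = conjugate a
          · exact (ty _ t₁ a).1 (h6 ▸ h3) haΘ
          · exact h4 (h1.2 ⟨h5, h6⟩)
    · exact re _ _ _ hΨ t₂ h0 (cb1_ty (ty _ hΨ)) (cb1_sub (ty _ hΨ) ha hna)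
  suffices H : ∀ n, ∀ Ψ, R Ψ → (Ψ \ Φ).ncard = n → R Φ from H _ _ h₁ rfl
  intro n
  induction n using Nat.strong_induction_on with
  | _ n ih =>
    intro Ψ hΨ e
    by_cases hs : Ψ ⊆ Φ
    · exact cb1_eq (ty _ hΨ) hΦ hs ▸ hΨ
    obtain ⟨a, ha, ha'⟩ := Set.not_subset.1 hs
    refine ih _ (e ▸ Set.ncard_lt_ncard ⟨fun φ hφ => ⟨?_, hφ.2⟩, fun h => ?_⟩) _ (flip _ a hΨ ha) rfl
    · by_contra h4
      by_cases h5 : φ = a
      · exact h4 (h5 ▸ ha)
      · by_cases h6 : φ = conjugate a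
        · exact hφ.2 (h6 ▸ (hΦ a).2 ha')
        · exact h4 ((cb1_mem.1 hφ.1).2 ⟨h5, h6⟩)
    · exact ((cb1_mem.1 (h ⟨ha, ha'⟩).1).1 ha).1 rfl

theorem cb_root {a u τ : ℂ} (ha : (starRingEnd ℂ) a = a) (hu : u ^ 2 + a * u + 1 = 0)
    (hτ : τ ^ 2 + a * τ + 1 = 0) (him : τ.im ≠ 0) : u = τ ∨ u = (starRingEnd ℂ) τ := by
  have h1 := congrArg (starRingEnd ℂ) hτ
  simp only [map_add, map_mul, map_pow, map_one, map_zero, ha] at h1
  have h2 : (starRingEnd ℂ) τ + τ + a = 0 := mul_left_cancel₀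
    (sub_ne_zero.2 fun h => him (conj_eq_iff_im.1 h)) (by linear_combination h1 - hτ)
  refine (mul_eq_zero.1 (show (u - τ) * (u - (starRingEnd ℂ) τ) = 0 by
    linear_combination hu - hτ - (u - τ) * h2)).imp sub_eq_zero.1 sub_eq_zero.1

omit [IsCMField E] in
theorem cb_oc (hd : finrank ℚ E = 2 * g) (φ₀ : E →+* ℂ) {x : E}
    (h : x ^ 2 = -1 ∨ x ^ 2 + x + 1 = 0) : Oc g {φ : E →+* ℂ | φ x = φ₀ x} := by
  have h1 : ∀ φ : E →+* ℂ, x ^ 2 = -1 → φ x ^ 2 = -1 := fun φ h => by simpa only [map_pow, map_neg, map_one] using congrArg φ h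
  have h2 : ∀ φ : E →+* ℂ, x ^ 2 + x + 1 = 0 → φ x ^ 2 + φ x + 1 = 0 := fun φ h => by
    simpa only [map_add, map_pow, map_one, map_zero] using congrArg φ h
  have h3 := h.imp (h1 φ₀) (h2 φ₀)
  have him : (φ₀ x).im ≠ 0 := fun h0 => by
    rcases h3 with h3 | h3
    all_goals
      have := congrArg re h3
      simp only [sq, mul_re, h0, mul_zero, sub_zero, neg_re, one_re, add_re, zero_re] at this
      nlinarith only [sq_nonneg (2 * (φ₀ x).re + 1), this]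
  obtain ⟨L, e, a₂, a₃⟩ := GPCE.exists_pair h3
  obtain ⟨A, e₀, e₁⟩ := GPCE.exists_ell L a₂ a₃
  refine GPCE.start hd him (L.indep.ne_zero 0) (fun φ => ?_) A e₀ (by rw [e₁, e]; rfl)
  rcases h with h | h
  · exact cb_root (a := 0) (map_zero _) (by linear_combination h1 φ h)
      (by linear_combination h1 φ₀ h) him
  · exact cb_root (a := 1) (map_one _) (by linear_combination h2 φ h)
      (by linear_combination h2 φ₀ h) him

/-- `exists_pair`, `exists_ell`, `start` for `τ = φ₀ x` and `τ' = φ₀ y`, so `φ₀` lies in both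
types.  They are different: otherwise `x / (2 y + 1)` has the same value at all embeddings, so it
is rational (trace), but its square is `1 / 3`.  `IsCM.conj_iff`, `IsCM.twist`,
`recomb`, `comb`. -/
theorem fam (E : Type) [Field E] [NumberField E] [IsCMField E] [IsGalois ℚ E]
    (hi : ∃ x : E, x ^ 2 = -1) (h3 : ∃ y : E, y ^ 2 + y + 1 = 0) {d : ℕ}
    (hd : finrank ℚ E = 2 * d) : Fam E d := by
  obtain ⟨x, hx⟩ := hi
  obtain ⟨y, hy⟩ := h3
  obtain ⟨φ₀⟩ : Nonempty (E →+* ℂ) := inferInstance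
  refine fun Φ hΦ => comb (Oc d) (fun _ ⟨_, _, _, h⟩ => h.conj_iff)
    (fun _ γ ⟨_, A, _, h⟩ => ⟨_, A, _, h.twist γ⟩) (fun _ _ _ => recomb)
    (cb_oc hd φ₀ (.inl hx)) (cb_oc hd φ₀ (.inr hy)) ⟨φ₀, rfl, rfl⟩ (fun h => ?_) hΦ
  have h1 : ∀ φ : E →+* ℂ, φ x ^ 2 = -1 := fun φ => by simpa only [map_pow, map_neg, map_one] using congrArg φ hx
  have h2 : ∀ φ : E →+* ℂ, φ y ^ 2 + φ y + 1 = 0 := fun φ => by simpa only [map_add, map_pow, map_one, map_zero] using congrArg φ hy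
  have h4 : ∀ φ : E →+* ℂ, φ (x * (2 * y + 1)) = φ₀ (x * (2 * y + 1)) := fun φ => by
    have h5 : φ x = φ₀ x ↔ φ y = φ₀ y := Set.ext_iff.1 h φ
    simp only [map_mul, map_add, map_ofNat, map_one]
    by_cases h6 : φ x = φ₀ x
    · rw [h6, h5.1 h6]
    · have a1 : φ x + φ₀ x = 0 :=
        mul_left_cancel₀ (sub_ne_zero.2 h6) (by linear_combination h1 φ - h1 φ₀)
      have a2 : φ y + φ₀ y + 1 = 0 :=
        mul_left_cancel₀ (sub_ne_zero.2 (mt h5.2 h6)) (by linear_combination h2 φ - h2 φ₀)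
      linear_combination (2 * φ y + 1) * a1 - 2 * φ₀ x * a2
  obtain ⟨q, hq⟩ := (IsGalois.mem_range_algebraMap_iff_fixed (F := ℚ) (x * (2 * y + 1))).2
    fun γ => φ₀.injective (h4 (φ₀.comp (γ : E →+* E)))
  have h5 : q * q = (3 : ℕ) := (algebraMap ℚ E).injective (by
    rw [map_mul, hq, map_natCast]
    push_cast
    linear_combination (2 * y + 1) ^ 2 * hx - 4 * hy)
  exact Nat.prime_three.prime.not_isSquare (Rat.isSquare_natCast_iff.1 ⟨q, h5.symm⟩)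

end GPCW

end
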