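import Pool.Agent.MP_57341d_ag.HW.Th

attribute [-instance] NonUnitalNonAssocRing.toAddCommGroup
  NonUnitalAlgSemiHomClass.toDistribMulActionSemiHomClass RightPreLieAlgebra.toModule
  TotallySeparatedSpace.t2Space LeftPreLieAlgebra.toModule
  NonarchimedeanAddGroup.toIsTopologicalAddGroup IsTopologicalTorsor.toContinuousSMul
  ProperSMul.toContinuousSMul CoalgHomClass.toSemilinearMapClass Valued.toUniformSpace
  NonarchimedeanRing.toIsTopologicalRing NonUnitalRing.toNonUnitalNonAssocRing littleWedderburn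
  NonUnitalNormedRing.toNormedAddCommGroup SemilinearIsometryClass.toSemilinearMapClass
  TopologicalSpace.instSecondCountableTopologyOfLindelofSpaceOfPseudoMetrizableSpace
  IdemSemiring.toCanonicallyOrderedAdd
  PositiveLinearMap.instContinuousLinearMapClassComplexOfLinearMapClassOfOrderHomClass
  NonUnitalAlgHomClass.instLinearMapClass AlgHom.instContinuousLinearMapClassOfAlgHomClass
  MonoidWithZeroHomClass.toZeroHomClass NonUnitalNormedCommRing.toNonUnitalSeminormedCommRing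
  NonAssocSemiring.toAddCommMonoidWithOne RingHomClass.toLinearMapClassNNRat
  GrpTypeEquivalenceGrp.grpGroup ContinuousSemilinearEquivClass.continuousSemilinearMapClass
  AddQuantale.instAddLeftMono MonTypeEquivalenceMon.monMonoid Valued.isTopologicalDivisionRing
  NonUnitalSemiring.toNonUnitalNonAssocSemiring
  SemilinearIsometryClass.toContinuousSemilinearMapClass LieAdmissibleRing.toNonUnitalNonAssocRing
  SeminormedCommRing.toCommRing EuclideanDomain.toCommRing NormedDivisionRing.toNormedRing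
  RingHomClass.toLinearMapClassRat LieAdmissibleRing.instLieRing
  NonUnitalNormedCommRing.toNonUnitalCommRing PolishSpace.toSecondCountableTopology
  NonUnitalAlgHomClass.instSemilinearMapClassOfNonUnitalAlgSemiHomClassToMonoidHomRingHom
  IdemSemiring.toSemiring SubringClass.toCommRing AddCommMonoidWithOne.toAddCommMonoid
  NonUnitalNonAssocCommSemiring.toNonUnitalNonAssocSemiring AlgHomClass.linearMapClass
  CStarAlgebra.toNonUnitalCStarAlgebra SeminormedRing.toNonUnitalSeminormedRing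
  MulSemiringAction.toDistribMulAction AddCommGroupWithOne.toAddGroupWithOne
  covariant_swap_mul_of_covariant_mul NonAssocCommSemiring.toNonAssocSemiring
  AddCommGroupWithOne.toAddCommGroup IsValuativeTopology.instIsTopologicalAddGroup
  SubringClass.toRing MulSemiringActionSemiHomClass.toDistribMulActionSemiHomClass BooleanRing.toRing
  NumberField.to_charZero NumberField.instFiniteDimensional
  NonUnitalSeminormedRing.toPseudoMetricSpace NonUnitalSeminormedCommRing.toNonUnitalCommRing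
  CommGroup.toGroup continuousSub_of_discreteTopology instCoeHTCTOfCoeTailOfCoeHTC
  LinearOrderedAddCommMonoidWithTop.toAddCommMonoid TestFunctionClass.toDFunLike
  BooleanRing.toCommRing SetLike.GradeZero.instCommRing ContDiffMapSupportedInClass.toDFunLike
  NonAssocCommRing.toNonUnitalNonAssocCommRing MonoidWithZero.toMulZeroOneClass
  NormedDivisionRing.toDivisionRing AlexandrovDiscrete.toLocallyCompactSpace
  instCoeHTCOfCoeHeadOfCoeOTC LinearOrderedAddCommGroupWithTop.toAddCommMonoid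
  IsTopologicalSemiring.toContinuousAdd LieRinehartAlgebra.toIsScalarTower
  IsOrderedMonoid.toMulLeftMono Nontrivial.to_nonempty NonUnitalAlgSemiHomClass.toMulHomClass
  CentroidHomClass.toAddMonoidHomClass Unique.instSubsingleton RightPreLieRing.instLieAdmissibleRing
  instIsModuleTopology RCLike.innerProductSpace SetLike.GradeZero.instCommSemiring
  AddQuantale.instAddRightMono IdemSemiring.toMulLeftMono Quantale.instMulLeftMono instSMulZeroClass
  Quantale.instMulRightMono Bialgebra.toAlgebra RightPreLieRing.toNonUnitalNonAssocRing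
  instCoeTCOfCoe instCoeTOfCoeDep SubsemiringClass.addSubmonoidWithOneClass
  LeftPreLieRing.toNonUnitalNonAssocRing IdemCommSemiring.toCommSemiring
  SubsemiringClass.toAddSubmonoidClass FiniteDimensional.rclike_to_real
  Group.IsPerfect.subsingleton_of_isMulCommutative NonUnitalSubsemiringClass.toAddSubmonoidClass
  NonUnitalNormedCommRing.toNonUnitalNormedRing NonUnitalNonAssocSemiring.toMulZeroClass
  TopologicalSpace.UpgradedIsCompletelyPseudoMetrizableSpace.toPseudoMetricSpace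
  IsSemitopologicalRing.toIsTopologicalAddGroup topologicalAddGroup_of_discreteTopology
  UpgradedStandardBorel.toTopologicalSpace IsNonarchimedeanLocalField.instIsTopologicalDivisionRing
  LeftPreLieRing.instLieAdmissibleRing bot_nonempty NonAssocRing.toNonAssocSemiring
  SeminormedCommGroup.toPseudoMetricSpace IsPurelyInseparable.isIntegral
  NonUnitalAlgHomClass.toNonUnitalRingHomClass GeneralizedCoheytingAlgebra.toLattice
  instNonUnitalCommCStarAlgebraProd

section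

/-!
Sections of a positive line bundle on a complex torus (canonical factor of automorphy):
finite dimension, and division by sections without common zero (Toeplitz operator).
-/

open MeasureTheory Complex Metric

namespace GPCW

variable {V : Type*} [NormedAddCommGroup V] [NormedSpace ℂ V]

/-- `H` is a positive definite hermitian form and `L` generates a cocompact subgroup. -/
structure Pol (H : V →ₗ⋆[ℂ] V →ₗ[ℂ] ℂ) (L : Set V) : Prop where
  herm : ∀ w z, H w z = (starRingEnd ℂ) (H z w)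
  pos : ∀ u, u ≠ 0 → 0 < (H u u).re
  cpt : ∃ K, IsCompact K ∧ ∀ z, ∃ l ∈ AddSubgroup.closure L, z - l ∈ K

/-- Quasi-periodicity with the canonical factor. -/
def QP (H : V →ₗ⋆[ℂ] V →ₗ[ℂ] ℂ) (L : Set V) (t : ℝ) (c f : V → ℂ) : Prop :=
  ∀ l ∈ L, ∀ z, f (z + l) = c l * exp (t * H l z) * f z

/-- Entire quasi-periodic functions. -/
def Sec (H : V →ₗ⋆[ℂ] V →ₗ[ℂ] ℂ) (L : Set V) (t : ℝ) (c : V → ℂ) : Submodule ℂ (V → ℂ) where
  carrier := {f | Differentiable ℂ f ∧ QP H L t c f}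
  add_mem' := fun {f g} hf hg => ⟨hf.1.add hg.1, fun l hl z => by
    simp only [Pi.add_apply, hf.2 l hl z, hg.2 l hl z]; ring⟩
  zero_mem' := ⟨differentiable_const _, fun l _ z => by simp⟩
  smul_mem' := fun a f hf => ⟨hf.1.const_smul a, fun l hl z => by
    simp only [Pi.smul_apply, smul_eq_mul, hf.2 l hl z]; ring⟩

/-- The normalisation of the constants. -/
def Nm (H : V →ₗ⋆[ℂ] V →ₗ[ℂ] ℂ) (L : Set V) (t : ℝ) (c : V → ℂ) : Prop :=
  ∀ l ∈ L, ‖c l‖ = Real.exp (t * (H l l).re / 2)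

variable {H : V →ₗ⋆[ℂ] V →ₗ[ℂ] ℂ} {L : Set V}

theorem QP.mul {t t' : ℝ} {c c' f f' : V → ℂ} (h : QP H L t c f) (h' : QP H L t' c' f') :
    QP H L (t + t') (c * c') (f * f') := fun l hl z => by
  simp only [Pi.mul_apply, h l hl z, h' l hl z, ofReal_add, add_mul, exp_add]; ring

theorem Nm.mul {t t' : ℝ} {c c' : V → ℂ} (h : Nm H L t c) (h' : Nm H L t' c') :
    Nm H L (t + t') (c * c') := fun l hl => by
  rw [Pi.mul_apply, norm_mul, h l hl, h' l hl, ← Real.exp_add]; congr 1; ring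

theorem sec_mul {t t' : ℝ} {c c' f f' : V → ℂ} (h : f ∈ Sec H L t c) (h' : f' ∈ Sec H L t' c') :
    f * f' ∈ Sec H L (t + t') (c * c') := ⟨h.1.mul h'.1, h.2.mul h'.2⟩

omit [NormedSpace ℂ V] in
theorem tp_inv {X : Type*} {F : V → X} (h : ∀ l ∈ L, ∀ z, F (z + l) = F z) {l : V}
    (hl : l ∈ AddSubgroup.closure L) : ∀ z, F (z + l) = F z := by
  induction hl using AddSubgroup.closure_induction with
  | mem x hx => exact h x hx
  | zero => simp
  | add x y _ _ hx hy => intro z; rw [← add_assoc, hy, hx]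
  | neg x _ hx => intro z; rw [← hx (z + -x)]; simp

theorem Pol.re_add (P : Pol H L) (z u : V) :
    (H (z + u) (z + u)).re = (H z z).re + 2 * (H z u).re + (H u u).re := by
  have : (H u z).re = (H z u).re := by rw [P.herm u z, conj_re]
  simp only [map_add, LinearMap.add_apply, add_re, this]; ring

theorem Pol.im0 (P : Pol H L) (u : V) : (H u u).im = 0 := by
  have := congrArg im (P.herm u u)
  rw [conj_im] at this; linarith

theorem Pol.nn (P : Pol H L) (u : V) : 0 ≤ (H u u).re := by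
  by_cases h : u = 0
  · simp [h]
  · exact (P.pos u h).le

theorem tp_smul (a : ℂ) (u : V) : H (a • u) (a • u) = (‖a‖ ^ 2 : ℝ) * H u u := by
  rw [map_smul, LinearMap.map_smulₛₗ, LinearMap.smul_apply, smul_eq_mul, smul_eq_mul, ← mul_assoc,
    mul_conj, normSq_eq_norm_sq]

theorem Pol.shift (P : Pol H L) {t M : ℝ} {f : V → ℂ}
    (h : ∀ z, ‖f z‖ ≤ M * Real.exp (t * (H z z).re / 2)) (z u : V) :
    ‖f (z + u) * exp (-(t * H z u))‖ ≤
      M * Real.exp (t * (H z z).re / 2) * Real.exp (t * (H u u).re / 2) := by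
  rw [norm_mul, norm_exp]
  refine (mul_le_mul_of_nonneg_right (h _) (Real.exp_pos _).le).trans_eq ?_
  rw [P.re_add, mul_assoc, mul_assoc M, ← Real.exp_add, ← Real.exp_add]
  congr 2
  simp only [neg_re, mul_re, ofReal_re, ofReal_im, zero_mul, sub_zero]; ring

variable [FiniteDimensional ℂ V]

theorem tp_bil (H : V →ₗ⋆[ℂ] V →ₗ[ℂ] ℂ) : (Continuous fun p : V × V => H p.1 p.2) ∧
    ∃ A, 0 ≤ A ∧ ∀ w z, ‖H w z‖ ≤ A * ‖w‖ * ‖z‖ := by
  let B : V →ₗ[ℝ] V →ₗ[ℝ] ℂ := LinearMap.mk₂ ℝ (fun w z => H w z) (by simp)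
    (fun a w z => by
      rw [← Complex.coe_smul, LinearMap.map_smulₛₗ]; simp)
    (by simp) (fun a w z => by rw [← Complex.coe_smul, map_smul]; simp)
  exact ⟨B.toContinuousBilinearMap.continuous₂, _, ContinuousLinearMap.opNorm_nonneg _,
    fun w z => B.toContinuousBilinearMap.le_opNorm₂ w z⟩

theorem tp_cq (H : V →ₗ⋆[ℂ] V →ₗ[ℂ] ℂ) : Continuous fun u => H u u :=
  (tp_bil H).1.comp (continuous_id.prodMk continuous_id)

theorem Pol.low (P : Pol H L) : ∃ m, 0 < m ∧ ∀ u, m * ‖u‖ ^ 2 ≤ (H u u).re := by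
  have : ProperSpace V := FiniteDimensional.proper ℂ V
  obtain ⟨m, hm, h⟩ := (isCompact_sphere (0 : V) 1).exists_forall_le'
    (continuous_re.comp (tp_cq H)).continuousOn (a := 0)
    (fun b hb => P.pos b (by rintro rfl; simp at hb))
  refine ⟨m, hm, fun u => ?_⟩
  by_cases hu : u = 0
  · simp [hu]
  have hn : 0 < ‖u‖ := norm_pos_iff.2 hu
  have h1 := h (((‖u‖⁻¹ : ℝ) : ℂ) • u) (by simp [norm_smul, hn.ne'])
  simp only [Function.comp, tp_smul, re_ofReal_mul, norm_real, norm_inv, norm_norm] at h1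
  rw [inv_pow, ← div_eq_inv_mul, le_div_iff₀ (by positivity)] at h1
  exact h1

theorem Pol.max (P : Pol H L) {t : ℝ} {c f : V → ℂ} (hc : Nm H L t c) (hf : Continuous f)
    (hq : QP H L t c f) {K : Set V} (hK : IsCompact K)
    (hKL : ∀ z, ∃ l ∈ AddSubgroup.closure L, z - l ∈ K) : ∃ z0 ∈ K, ∃ M, 0 ≤ M ∧
      ‖f z0‖ = M * Real.exp (t * (H z0 z0).re / 2) ∧
      ∀ z, ‖f z‖ ≤ M * Real.exp (t * (H z z).re / 2) := by
  set F : V → ℝ := fun z => ‖f z‖ * Real.exp (-(t * (H z z).re / 2)) with hF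
  have hi : ∀ l ∈ L, ∀ z, F (z + l) = F z := fun l hl z => by
    have e : (H l z).re = (H z l).re := by rw [P.herm l z, conj_re]
    simp only [hF, hq l hl z, norm_mul, hc l hl, norm_exp, P.re_add, re_ofReal_mul, e]
    rw [mul_right_comm, ← Real.exp_add, ← Real.exp_add, mul_comm]
    congr 2; ring
  have hcF : Continuous F := hf.norm.mul (Real.continuous_exp.comp
    (((continuous_const.mul (continuous_re.comp (tp_cq H))).div_const _).neg))
  obtain ⟨l0, -, h0⟩ := hKL 0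
  obtain ⟨z0, hz0, hm⟩ := hK.exists_isMaxOn ⟨_, h0⟩ hcF.continuousOn
  have e : ∀ z, ‖f z‖ = F z * Real.exp (t * (H z z).re / 2) := fun z => by
    simp only [hF]; rw [mul_assoc, ← Real.exp_add]; simp
  refine ⟨z0, hz0, F z0, by positivity, e z0, fun z => ?_⟩
  obtain ⟨l, hl, hz⟩ := hKL z
  rw [e z, ← sub_add_cancel z l, tp_inv hi hl]
  exact mul_le_mul_of_nonneg_right (hm hz) (Real.exp_pos _).le

theorem tp_dH (z : V) : Differentiable ℂ fun u => H z u :=
  (LinearMap.toContinuousLinearMap (H z)).differentiable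

theorem tp_dF {f : V → ℂ} (hf : Differentiable ℂ f) (t : ℝ) (z : V) :
    Differentiable ℂ fun u => f (z + u) * exp (-(t * H z u)) :=
  (hf.comp ((differentiable_const z).add differentiable_id)).mul
    (((tp_dH z).const_mul _).neg.cexp)

/-- The space of sections is finite dimensional. -/
theorem sec_fd (P : Pol H L) {t : ℝ} {c : V → ℂ} (hc : Nm H L t c) :
    FiniteDimensional ℂ (Sec H L t c) := by
  obtain ⟨K, hK, hKL⟩ := P.cpt
  obtain ⟨A, hA, hH⟩ := (tp_bil H).2
  set C := Real.exp (|t| * A / 2) + 1 with hC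
  have hC1 : 1 < C := by have := Real.exp_pos (|t| * A / 2); linarith only [this]
  obtain ⟨S, -, hS, hcov⟩ := finite_cover_balls_of_compact hK (e := 1 / (2 * C)) (by positivity)
  have := hS.to_subtype
  let ev : Sec H L t c →ₗ[ℂ] (S → ℂ) :=
    { toFun := fun f p => f.1 p.1, map_add' := fun _ _ => rfl, map_smul' := fun _ _ => rfl }
  refine FiniteDimensional.of_injective ev ((injective_iff_map_eq_zero _).2 fun f hf => ?_)
  obtain ⟨z0, hz0, M, hM, e0, hb⟩ := P.max hc f.2.1.continuous f.2.2 hK hKL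
  obtain ⟨p, hp, hz⟩ := Set.mem_iUnion₂.1 (hcov hz0)
  have hd : ‖p - z0‖ < 1 / (2 * C) := by rwa [mem_ball, dist_comm, dist_eq_norm] at hz
  have hd1 : 1 / (2 * C) < 1 := by rw [div_lt_one (by positivity)]; linarith only [hC1]
  have key := dist_le_div_mul_dist_of_mapsTo_ball (c := 0) (R₁ := 1) (R₂ := ‖f.1 z0‖ * C)
    (z := p - z0) (tp_dF (H := H) f.2.1 t z0).differentiableOn (fun u hu => by
      rw [mem_ball_zero_iff] at hu
      rw [mem_closedBall, dist_eq_norm]
      refine (norm_sub_le _ _).trans ?_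
      have h1 := P.shift hb z0 u
      have h2 : t * (H u u).re / 2 ≤ |t| * A / 2 := by
        have h3 : (H u u).re ≤ A := (re_le_norm _).trans ((hH u u).trans (by
          have := norm_nonneg u
          have : ‖u‖ * ‖u‖ ≤ 1 := by nlinarith only [hu, this]
          nlinarith only [hA, this]))
        have := le_abs_self t
        have := P.nn u
        have := abs_nonneg t
        nlinarith
      rw [← e0] at h1
      have h4 := mul_le_mul_of_nonneg_left (Real.exp_le_exp.2 h2) (norm_nonneg (f.1 z0))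
      simp only [add_zero, map_zero, mul_zero, neg_zero, exp_zero, mul_one, hC]
      linarith only [h1, h4]) (by rw [mem_ball_zero_iff]; linarith only [hd, hd1])
  have hp0 : f.1 p = 0 := congrFun hf ⟨p, hp⟩
  simp only [add_sub_cancel, hp0, zero_mul, add_zero, map_zero, mul_zero, neg_zero, exp_zero,
    mul_one, dist_zero_left, dist_zero_right, div_one] at key
  have h5 : ‖f.1 z0‖ * C * ‖p - z0‖ ≤ ‖f.1 z0‖ * C * (1 / (2 * C)) :=
    mul_le_mul_of_nonneg_left hd.le (by positivity)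
  have h6 : ‖f.1 z0‖ * C * (1 / (2 * C)) = ‖f.1 z0‖ / 2 := by field_simp
  have h7 : M = 0 := by
    have : ‖f.1 z0‖ = 0 := by have := norm_nonneg (f.1 z0); linarith only [key, h5, h6, this]
    rw [this] at e0
    exact (mul_eq_zero.1 e0.symm).resolve_right (Real.exp_pos _).ne'
  refine Subtype.ext (funext fun z => norm_le_zero_iff.1 ?_)
  simpa only [norm_le_zero_iff, h7, zero_mul] using hb z

section
variable [MeasurableSpace V] [BorelSpace V] {μ : Measure V} [μ.IsAddHaarMeasure]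

theorem tp_gauss {a : ℝ} (ha : 0 < a) (b : ℝ) :
    Integrable (fun u : V => Real.exp (-(a * ‖u‖ ^ 2) + b * ‖u‖)) μ := by
  set r : ℝ := Module.finrank ℝ V + 1 with hr
  have hr0 : 0 ≤ r := by positivity
  refine ((integrable_one_add_norm (μ := μ) (r := r) (by linarith)).const_mul
    (Real.exp ((b + r) ^ 2 / (4 * a)))).mono' (by fun_prop) (ae_of_all _ fun u => ?_)
  have hu := norm_nonneg u
  rw [Real.norm_of_nonneg (Real.exp_pos _).le, Real.rpow_def_of_pos (by positivity),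
    ← Real.exp_add, Real.exp_le_exp]
  have h1 : Real.log (1 + ‖u‖) ≤ ‖u‖ := by
    have := Real.log_le_sub_one_of_pos (x := 1 + ‖u‖) (by positivity); linarith
  have h2 : (b + r) * ‖u‖ - a * ‖u‖ ^ 2 ≤ (b + r) ^ 2 / (4 * a) := by
    rw [le_div_iff₀ (by positivity)]; linarith only [sq_nonneg (b + r - 2 * a * ‖u‖)]
  nlinarith

theorem Pol.gauss (P : Pol H L) {a : ℝ} (ha : 0 < a) :
    Integrable (fun u : V => Real.exp (-(a * (H u u).re))) μ := by
  obtain ⟨m, hm, h⟩ := P.low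
  have := tp_cq H
  refine (tp_gauss (a := a * m) (by positivity) 0).mono' (Real.continuous_exp.comp
    ((continuous_re.comp this).const_mul _).neg).aestronglyMeasurable (ae_of_all _ fun u => ?_)
  rw [Real.norm_of_nonneg (Real.exp_pos _).le, Real.exp_le_exp]
  nlinarith only [h u, ha]

theorem tp_rot {a : ℂ} (ha : ‖a‖ = 1) (G : V → ℂ) : ∫ u, G (a • u) ∂μ = ∫ u, G u ∂μ := by
  have ha0 : a ≠ 0 := by rintro rfl; simp at ha
  let e : V ≃ₗ[ℝ] V := (LinearEquiv.smulOfNeZero ℂ V a ha0).restrictScalars ℝ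
  have he : ∀ u, e u = a • u := fun _ => rfl
  have h1 := Measure.addHaar_preimage_linearEquiv μ e
  have h2 : e ⁻¹' ball 0 1 = ball 0 1 := by ext u; simp [he, norm_smul, ha]
  have h3 := h1 (ball 0 1)
  rw [h2] at h3
  have h4 : ENNReal.ofReal |LinearMap.det (e.symm : V →ₗ[ℝ] V)| = 1 := by
    have : ProperSpace V := FiniteDimensional.proper ℂ V
    exact ((ENNReal.mul_left_inj (measure_ball_pos μ 0 one_pos).ne' measure_ball_lt_top.ne).1
      (h3.symm.trans (one_mul _).symm))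
  let e' : V ≃ᵐ V := e.toContinuousLinearEquiv.toHomeomorph.toMeasurableEquiv
  have hm : MeasurePreserving e' μ μ := ⟨e'.measurable, Measure.ext fun s hs => by
    rw [Measure.map_apply e'.measurable hs]
    exact (h1 s).trans (by rw [h4, one_mul])⟩
  exact hm.integral_comp' G

theorem Pol.mean (P : Pol H L) {F : V → ℂ} (hF : Differentiable ℂ F) {t s M : ℝ} (hs : s < t)
    (hb : ∀ u, ‖F u‖ ≤ M * Real.exp (s * (H u u).re)) :
    ∫ u, F u * exp (-(t * H u u)) ∂μ = F 0 * ∫ u, exp (-(t * H u u)) ∂μ := by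
  have hq := tp_cq H
  have hc := hF.continuous
  have hn : ∀ θ : ℝ, ‖circleMap 0 1 θ‖ = 1 := fun θ => by simp
  have h1 : ∀ θ : ℝ, ∫ u, F (circleMap 0 1 θ • u) * exp (-(t * H u u)) ∂μ =
      ∫ u, F u * exp (-(t * H u u)) ∂μ := fun θ => by
    rw [← tp_rot (hn θ) fun u => F u * exp (-(t * H u u))]
    simp only [tp_smul, hn, one_pow, ofReal_one, one_mul]
  have h2 := intervalIntegral_integral_swap (μ := μ) (a := 0) (b := 2 * Real.pi)
    (f := fun θ u => F (circleMap 0 1 θ • u) * exp (-(t * H u u))) (by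
      have : IsFiniteMeasure (volume.restrict (Set.uIoc 0 (2 * Real.pi))) :=
        ⟨by simp only [Set.uIoc, MeasurableSet.univ, Measure.restrict_apply, Set.univ_inter, Real.volume_Ioc, ENNReal.ofReal_lt_top]⟩
      have hcm := continuous_circleMap 0 1
      have : Continuous fun p : ℝ × V => F (circleMap 0 1 p.1 • p.2) * exp (-(t * H p.2 p.2)) :=
        (hc.comp ((hcm.comp continuous_fst).smul continuous_snd)).mul
          (((hq.comp continuous_snd).const_mul _).neg.cexp)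
      refine (((P.gauss (a := t - s) (by linarith)).const_mul M).comp_snd _).mono'
        this.aestronglyMeasurable (ae_of_all _ fun p => ?_)
      simp only [Function.uncurry, norm_mul, norm_exp]
      refine (mul_le_mul_of_nonneg_right (hb _) (Real.exp_pos _).le).trans_eq ?_
      rw [tp_smul, hn, mul_assoc, ← Real.exp_add]
      congr 2
      simp; ring)
  have h3 : ∀ u : V, ∫ θ in (0 : ℝ)..2 * Real.pi, F (circleMap 0 1 θ • u) * exp (-(t * H u u)) =
      (2 * Real.pi) • (F 0 * exp (-(t * H u u))) := fun u => by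
    have hd : Differentiable ℂ fun ζ : ℂ => F (ζ • u) * exp (-(t * H u u)) :=
      (hF.comp (differentiable_id.smul_const u)).mul_const _
    have := hd.diffContOnCl.circleAverage (c := 0) (R := 1)
    rw [Real.circleAverage, zero_smul] at this
    rw [← this, smul_smul, mul_inv_cancel₀ (by positivity), one_smul]
  simp only [h1, h3, intervalIntegral.integral_const, sub_zero, integral_smul,
    integral_const_mul] at h2
  exact smul_right_injective _ (by positivity) h2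

/-- The (unnormalised) Bergman projection. -/
noncomputable def berg (H : V →ₗ⋆[ℂ] V →ₗ[ℂ] ℂ) (μ : Measure V) (t : ℝ) (ψ : V → ℂ) (z : V) : ℂ :=
  ∫ u, ψ (z + u) * exp (-(t * H z u)) * exp (-(t * H u u)) ∂μ

omit [FiniteDimensional ℂ V] [BorelSpace V] [μ.IsAddHaarMeasure] in
theorem berg_qp {t : ℝ} {c ψ : V → ℂ} (h : QP H L t c ψ) : QP H L t c (berg H μ t ψ) :=
  fun l hl z => by
    unfold berg
    rw [← integral_const_mul]
    refine integral_congr_ae (ae_of_all _ fun u => ?_)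
    simp only [add_right_comm z l u, h l hl, map_add, LinearMap.add_apply, mul_add, neg_add,
      exp_add, exp_neg]
    have := exp_ne_zero (t * H l u)
    field_simp

theorem Pol.int (P : Pol H L) {t s M : ℝ} {F : V → ℂ} (hF : Continuous F) (hs : s < t)
    (hb : ∀ u, ‖F u‖ ≤ M * Real.exp (s * (H u u).re)) :
    Integrable (fun u => F u * exp (-(t * H u u))) μ := by
  have hq := tp_cq H
  refine ((P.gauss (a := t - s) (by linarith)).const_mul M).mono'
    (hF.mul (hq.const_mul _).neg.cexp).aestronglyMeasurable (ae_of_all _ fun u => ?_)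
  rw [norm_mul, norm_exp]
  refine (mul_le_mul_of_nonneg_right (hb _) (Real.exp_pos _).le).trans_eq ?_
  rw [mul_assoc, ← Real.exp_add]
  congr 2
  simp; ring

theorem Pol.bint (P : Pol H L) {t M : ℝ} (ht : 0 < t) {ψ : V → ℂ} (hψ : Continuous ψ)
    (hb : ∀ z, ‖ψ z‖ ≤ M * Real.exp (t * (H z z).re / 2)) (z : V) :
    Integrable (fun u => ψ (z + u) * exp (-(t * H z u)) * exp (-(t * H u u))) μ := by
  have := (tp_dH (H := H) z).continuous
  refine P.int (s := t / 2) (M := M * Real.exp (t * (H z z).re / 2)) (by fun_prop) (by linarith only [ht])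
    fun u => (P.shift hb z u).trans_eq ?_
  congr 2; ring

theorem Pol.bdiff (P : Pol H L) {t M : ℝ} (ht : 0 < t) {ψ : V → ℂ} (hψ : Continuous ψ)
    (hb : ∀ z, ‖ψ z‖ ≤ M * Real.exp (t * (H z z).re / 2)) : Differentiable ℂ (berg H μ t ψ) := by
  obtain ⟨hc, A, hA, hH⟩ := tp_bil H
  obtain ⟨m, hm, hl⟩ := P.low
  have hq := tp_cq H
  have e : berg H μ t ψ = fun z => ∫ w, ψ w * exp (t * (H w z - H w w)) ∂μ := by
    funext z
    rw [← integral_add_left_eq_self _ z]
    refine integral_congr_ae (ae_of_all _ fun u => ?_)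
    simp only [mul_assoc, ← exp_add, map_add, LinearMap.add_apply]
    congr 2; ring
  have hz : ∀ z, Continuous fun w => H w z := fun z => hc.comp (continuous_id.prodMk continuous_const)
  have hM : 0 ≤ M := by
    have := (norm_nonneg _).trans (hb 0); simpa using this
  have hk : ∀ z w (R : ℝ), ‖z‖ ≤ R → ‖ψ w * exp (t * (H w z - H w w))‖ ≤
      M * Real.exp (-(t * m / 2 * ‖w‖ ^ 2) + t * A * R * ‖w‖) := fun z w R hR => by
    rw [norm_mul, norm_exp]
    refine (mul_le_mul_of_nonneg_right (hb _) (Real.exp_pos _).le).trans ?_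
    rw [mul_assoc, ← Real.exp_add]
    refine mul_le_mul_of_nonneg_left (Real.exp_le_exp.2 ?_) hM
    have h1 : (H w z).re ≤ A * ‖w‖ * R := (re_le_norm _).trans ((hH w z).trans (by gcongr))
    have h2 := mul_le_mul_of_nonneg_left h1 ht.le
    have h3 := mul_le_mul_of_nonneg_left (hl w) ht.le
    simp only [re_ofReal_mul, sub_re]
    linarith only [h2, h3]
  rw [e]
  intro z0
  refine (hasFDerivAt_integral_of_dominated_of_fderiv_le (𝕜 := ℂ) (s := ball z0 1)
    (F' := fun z w => (ψ w * exp (t * (H w z - H w w)) * t) • LinearMap.toContinuousLinearMap (H w))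
    (bound := fun w => M * t * A * Real.exp (-(t * m / 2 * ‖w‖ ^ 2) + (t * A * (‖z0‖ + 1) + 1) * ‖w‖))
    (ball_mem_nhds _ one_pos) (.of_forall fun z => by have := hz z; fun_prop)
    (((tp_gauss (a := t * m / 2) (by positivity) _).const_mul M).mono' (by have := hz z0; fun_prop)
      (ae_of_all _ fun w => hk z0 w _ le_rfl)) ?_ (ae_of_all _ fun w z hz => ?_)
    ((tp_gauss (by positivity) _).const_mul _) (ae_of_all _ fun w z _ => ?_)).differentiableAt
  · have := hz z0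
    have h1 : Continuous fun w => LinearMap.toContinuousLinearMap (H w) :=
      continuous_clm_apply.2 hz
    exact Continuous.aestronglyMeasurable (by fun_prop)
  · have h1 : ‖z‖ ≤ ‖z0‖ + 1 := by
      have := norm_sub_norm_le z z0
      rw [mem_ball, dist_eq_norm] at hz; linarith
    have h2 : ‖LinearMap.toContinuousLinearMap (H w)‖ ≤ A * ‖w‖ :=
      ContinuousLinearMap.opNorm_le_bound _ (by positivity) (hH w)
    have h3 : ‖w‖ ≤ Real.exp ‖w‖ := by have := Real.add_one_le_exp ‖w‖; linarith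
    rw [norm_smul, norm_mul, norm_real, Real.norm_of_nonneg ht.le, add_mul, one_mul, ← add_assoc,
      Real.exp_add]
    calc _ ≤ M * Real.exp _ * t * (A * Real.exp ‖w‖) := by
          gcongr
          · exact hk z w _ h1
          · exact h2.trans (by gcongr)
      _ = _ := by ring
  · have h1 := (((((LinearMap.toContinuousLinearMap (H w)).hasFDerivAt (x := z)).sub_const
      (H w w)).const_mul (t : ℂ)).cexp).const_mul (ψ w)
    refine h1.congr_fderiv ?_
    ext v
    simp only [LinearMap.coe_toContinuousLinearMap', smul_apply, smul_eq_mul]; ring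

omit [FiniteDimensional ℂ V] [BorelSpace V] [μ.IsAddHaarMeasure] in
theorem Pol.gam (P : Pol H L) (t : ℝ) :
    ∫ u, exp (-(t * H u u)) ∂μ = (∫ u, Real.exp (-(t * (H u u).re)) ∂μ : ℝ) := by
  rw [← integral_complex_ofReal]
  refine integral_congr_ae (ae_of_all _ fun u => ?_)
  have : H u u = ((H u u).re : ℂ) := Complex.ext rfl (by simp [P.im0])
  simp only [ofReal_exp, ofReal_neg, ofReal_mul, ← this]

theorem tp_scale (t : ℝ) : ∫ u, Real.exp (-(t / 9 * (H u u).re)) ∂μ =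
    3 ^ Module.finrank ℝ V * ∫ u, Real.exp (-(t * (H u u).re)) ∂μ := by
  have h := Measure.integral_comp_smul μ (fun u => Real.exp (-(t * (H u u).re))) (3⁻¹ : ℝ)
  rw [inv_pow, inv_inv, abs_of_nonneg (by positivity), smul_eq_mul] at h
  rw [← h]
  refine integral_congr_ae (ae_of_all _ fun u => ?_)
  simp only [← Complex.coe_smul, tp_smul, re_ofReal_mul, norm_real, norm_inv, Real.norm_ofNat]
  congr 1; ring

end

/-- Division by sections without common zero. -/
theorem toeplitz (P : Pol H L) {ι : Type*} [Fintype ι] {d : ℝ} (hd : 0 ≤ d) {cd : V → ℂ}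
    (hcd : Nm H L d cd) {s : ι → V → ℂ} (hs : ∀ j, s j ∈ Sec H L d cd)
    (h0 : ∀ z, ∃ j, s j z ≠ 0) : ∃ t0 : ℝ, ∀ t, t0 ≤ t → ∀ c, Nm H L t c →
      ∀ f ∈ Sec H L (t + d) (c * cd), ∃ g : ι → V → ℂ,
        (∀ j, g j ∈ Sec H L t c) ∧ f = ∑ j, s j * g j := by
  borelize V
  have : ProperSpace V := FiniteDimensional.proper ℂ V
  set μ : Measure V := Measure.addHaar
  obtain ⟨K, hK, hKL⟩ := P.cpt
  obtain ⟨m, hm, hl⟩ := P.low
  have hH := (tp_bil H).1
  have hsc : ∀ j, Continuous (s j) := fun j => (hs j).1.continuous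
  have hne : ∀ l ∈ L, cd l ≠ 0 := fun l hl h => by
    have := hcd l hl
    rw [h, norm_zero] at this
    exact (Real.exp_pos _).ne this
  set N : V → ℂ := fun w => ∑ i, s i w * (starRingEnd ℂ) (s i w) with hN
  have hN0 : ∀ w, N w ≠ 0 := fun w => by
    obtain ⟨j, hj⟩ := h0 w
    simp only [hN, mul_conj, ← ofReal_sum, ofReal_ne_zero]
    exact (Finset.sum_pos' (fun i _ => normSq_nonneg (s i w))
      ⟨j, Finset.mem_univ _, normSq_pos.2 hj⟩).ne'
  set φ : ι → V → ℂ := fun j w => (starRingEnd ℂ) (s j w) / N w with hφ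
  have hφc : ∀ j, Continuous (φ j) := fun j =>
    (continuous_conj.comp (hsc j)).div
      (continuous_finsetSum _ fun i _ => (hsc i).mul (continuous_conj.comp (hsc i))) hN0
  have hφq : ∀ j, QP H L (-d) cd⁻¹ (φ j) := fun j l hl z => by
    have h1 : cd l * exp (d * H l z) ≠ 0 := mul_ne_zero (hne l hl) (exp_ne_zero _)
    have h2 := (map_ne_zero (starRingEnd ℂ)).2 h1
    have h3 : N (z + l) = cd l * exp (d * H l z) * (starRingEnd ℂ) (cd l * exp (d * H l z)) * N z := by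
      simp only [hN, Finset.mul_sum]
      refine Finset.sum_congr rfl fun i _ => ?_
      rw [(hs i).2 l hl z, map_mul _ _ (s i z)]; ring
    have h4 := hN0 z
    have h5 := hne l hl
    have h6 := exp_ne_zero (d * H l z)
    simp only [hφ, h3, Pi.inv_apply, ofReal_neg, neg_mul, exp_neg]
    rw [(hs j).2 l hl z, map_mul _ _ (s j z)]
    field_simp
  have hφn : Nm H L (-d) cd⁻¹ := fun l hl => by
    rw [Pi.inv_apply, norm_inv, hcd l hl, ← Real.exp_neg]; congr 1; ring
  choose _ _ M1 hM1 _ hb1 using fun j => P.max hcd (hsc j) (hs j).2 hK hKL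
  choose _ _ M2 hM2 _ hb2 using fun j => P.max hφn (hφc j) (hφq j) hK hKL
  set B : V → V → ℂ := fun u z => ∑ j, s j z * (φ j (z + u) * exp (d * H z u)) with hB
  have hB0 : ∀ z, B 0 z = 1 := fun z => by
    simp only [hB, hφ, add_zero, map_zero, mul_zero, exp_zero, mul_one, ← mul_div_assoc,
      ← Finset.sum_div]
    exact div_self (hN0 z)
  have hBi : ∀ u, ∀ l ∈ L, ∀ z, B u (z + l) = B u z := fun u l hl z => by
    refine Finset.sum_congr rfl fun j _ => ?_
    have h5 := hne l hl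
    have h6 := exp_ne_zero (d * H l z)
    have h7 := exp_ne_zero (d * H l u)
    simp only [add_right_comm z l u, (hs j).2 l hl z, hφq j l hl (z + u), map_add,
      LinearMap.add_apply, Pi.inv_apply, ofReal_neg, neg_mul, exp_neg, mul_add, exp_add]
    field_simp
  have hBb : ∀ u z, ‖B u z‖ ≤ ∑ j, M1 j * M2 j := fun u z => by
    refine (norm_sum_le _ _).trans (Finset.sum_le_sum fun j _ => ?_)
    have h1 := P.shift (hb2 j) z u
    simp only [ofReal_neg, neg_mul, neg_neg] at h1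
    rw [norm_mul]
    refine (mul_le_mul (hb1 j z) h1 (norm_nonneg _) (by have := hM1 j; positivity)).trans ?_
    have h2 : Real.exp (d * (H z z).re / 2) * Real.exp (-(d * (H z z).re) / 2) *
        Real.exp (-(d * (H u u).re) / 2) ≤ 1 := by
      rw [← Real.exp_add, ← Real.exp_add, Real.exp_le_one_iff]
      have := mul_nonneg hd (P.nn u); linarith only [this]
    have := mul_le_mul_of_nonneg_left h2 (mul_nonneg (hM1 j) (hM2 j))
    linarith only [this]
  set C := ∑ j, M1 j * M2 j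
  have hC : 0 ≤ C := (norm_nonneg _).trans (hBb 0 0)
  set ε : ℝ := (3 ^ Module.finrank ℝ V)⁻¹ / 4 with hε
  have hε0 : 0 < ε := by positivity
  have hBc : Continuous fun p : V × V => B p.1 p.2 := continuous_finsetSum _ fun j _ =>
    ((hsc j).comp continuous_snd).mul (((hφc j).comp (continuous_snd.add continuous_fst)).mul
      (((hH.comp continuous_swap).const_mul _).cexp))
  obtain ⟨δ, hδ, hδB⟩ := Metric.eventually_nhds_iff.1 (hK.eventually_forall_of_forall_eventually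
    (x₀ := (0 : V)) (P := fun u z => ‖B u z - 1‖ < ε) fun y _ =>
      ((hBc.sub continuous_const).norm.continuousAt.eventually_lt continuousAt_const
        (by simpa [hB0] using hε0)))
  set C' := (C + 1) / (m * δ ^ 2) with hC'
  have hC0 : 0 ≤ C' := by positivity
  have hBe : ∀ u z, ‖B u z - 1‖ ≤ ε + C' * (H u u).re := fun u z => by
    have := mul_nonneg hC0 (P.nn u)
    by_cases hu : ‖u‖ < δ
    · obtain ⟨l, hl, hz⟩ := hKL z
      rw [← sub_add_cancel z l, tp_inv (hBi u) hl]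
      linarith only [hδB (by simpa using hu) _ hz, this]
    · have h1 : m * δ ^ 2 ≤ (H u u).re := le_trans (by gcongr; exact not_lt.1 hu) (hl u)
      have h2 := mul_le_mul_of_nonneg_left h1 hC0
      rw [hC', div_mul_cancel₀ _ (by positivity)] at h2
      have := (norm_sub_le _ _).trans (add_le_add (hBb u z) (norm_one (α := ℂ)).le)
      linarith only [hε0, h2, this]
  refine ⟨2 * d + 8 * C' / ε + 1, fun t ht c hc => ?_⟩
  have hq0 : 0 ≤ 8 * C' / ε := by positivity
  have ht0 : 0 < t := by linarith only [hd, ht, hq0]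
  have hq1 : 8 * C' ≤ ε * t := by
    have : 8 * C' / ε ≤ t := by linarith only [hd, ht]
    rw [div_le_iff₀ hε0] at this; linarith only [this]
  have hn := hc.mul hcd
  have := sec_fd P hn
  have hψq : ∀ f ∈ Sec H L (t + d) (c * cd), ∀ j, QP H L t c (f * φ j) := fun f hf j l hl z => by
    have := hf.2.mul (hφq j) l hl z
    rwa [add_neg_cancel_right, Pi.mul_apply _ _ l, Pi.mul_apply _ _ l, Pi.inv_apply,
      mul_inv_cancel_right₀ (hne l hl)] at this
  have hψ : ∀ f ∈ Sec H L (t + d) (c * cd), ∀ j, Continuous (f * φ j) ∧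
      ∃ M, ∀ z, ‖(f * φ j) z‖ ≤ M * Real.exp (t * (H z z).re / 2) := fun f hf j => by
    have h1 := hf.1.continuous.mul (hφc j)
    obtain ⟨-, -, M, -, -, hM⟩ := P.max hc h1 (hψq f hf j) hK hKL
    exact ⟨h1, M, hM⟩
  have hg : ∀ f ∈ Sec H L (t + d) (c * cd), ∀ j, berg H μ t (f * φ j) ∈ Sec H L t c :=
    fun f hf j => ⟨P.bdiff ht0 (hψ f hf j).1 (hψ f hf j).2.choose_spec, berg_qp (hψq f hf j)⟩
  have hi := fun f hf j z => P.bint (μ := μ) ht0 (hψ f hf j).1 (hψ f hf j).2.choose_spec z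
  let T : Sec H L (t + d) (c * cd) →ₗ[ℂ] Sec H L (t + d) (c * cd) :=
    { toFun := fun f => ⟨∑ j, s j * berg H μ t (f.1 * φ j), Submodule.sum_mem _ fun j _ => by
        rw [mul_comm (s j)]; exact sec_mul (hg _ f.2 j) (hs j)⟩
      map_add' := fun f g => Subtype.ext (by
        simp only [Submodule.coe_add, ← Finset.sum_add_distrib, ← mul_add]
        refine Finset.sum_congr rfl fun j _ => congrArg _ (funext fun z => ?_)
        simp only [berg, Pi.add_apply]
        rw [← integral_add (hi _ f.2 j z) (hi _ g.2 j z)]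
        simp only [Pi.mul_apply, Pi.add_apply, add_mul])
      map_smul' := fun a f => Subtype.ext (by
        simp only [Submodule.coe_smul, RingHom.id_apply, Finset.smul_sum, ← mul_smul_comm]
        refine Finset.sum_congr rfl fun j _ => congrArg _ (funext fun z => ?_)
        simp only [berg, Pi.smul_apply, smul_eq_mul, ← integral_const_mul, Pi.mul_apply,
          mul_assoc]) }
  have hT : Function.Injective T := (injective_iff_map_eq_zero _).2 fun f hf => by
    obtain ⟨z, -, M, hM, e0, hb⟩ := P.max hn f.2.1.continuous f.2.2 hK hKL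
    have hF := P.shift hb z
    set F : V → ℂ := fun u => f.1 (z + u) * exp (-(((t + d : ℝ) : ℂ) * H z u)) with hFd
    have hF' : ∀ u, ‖F u‖ ≤ ‖f.1 z‖ * Real.exp ((t + d) / 2 * (H u u).re) := fun u => by
      rw [e0]; refine (hF u).trans_eq ?_; congr 2; ring
    have hdF : Differentiable ℂ F := tp_dF f.2.1 _ z
    have h1 := P.mean (μ := μ) hdF (t := t) (by linarith only [hd, ht, hq0]) hF'
    have h2 := P.int (μ := μ) hdF.continuous (t := t) (by linarith only [hd, ht, hq0]) hF'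
    have h3 : ∑ j, s j z * berg H μ t (f.1 * φ j) z = 0 := by
      simpa only [T, LinearMap.coe_mk, AddHom.coe_mk, Finset.sum_apply, Pi.mul_apply, ZeroMemClass.coe_zero, Pi.zero_apply] using congrFun (congrArg Subtype.val hf) z
    have h4 : ∫ u, F u * exp (-(t * H u u)) * (B u z - 1) ∂μ =
        ∑ j, s j z * berg H μ t (f.1 * φ j) z - ∫ u, F u * exp (-(t * H u u)) ∂μ := by
      simp only [berg, ← integral_const_mul]
      rw [← integral_finsetSum _ fun j _ => (hi _ f.2 j z).const_mul _,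
        ← integral_sub (integrable_finsetSum _ fun j _ => (hi _ f.2 j z).const_mul _) h2]
      refine integral_congr_ae (ae_of_all _ fun u => ?_)
      simp only [hB, mul_sub, mul_one, Finset.mul_sum]
      congr 1
      refine Finset.sum_congr rfl fun j _ => ?_
      have := exp_ne_zero (d * H z u)
      simp only [hFd, Pi.mul_apply, ofReal_add, add_mul, neg_add, exp_add, exp_neg]
      field_simp
    have h5 : ‖∫ u, F u * exp (-(t * H u u)) * (B u z - 1) ∂μ‖ ≤
        ∫ u, ‖f.1 z‖ * (2 * ε) * Real.exp (-(t / 9 * (H u u).re)) ∂μ := by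
      refine norm_integral_le_of_norm_le ((P.gauss (by positivity)).const_mul _)
        (ae_of_all _ fun u => ?_)
      have hq := P.nn u
      set q := (H u u).re with hqd
      have a1 : q * (t / 8) ≤ Real.exp (t / 8 * q) := by
        have := Real.add_one_le_exp (t / 8 * q); linarith only [this]
      have a2 : ε + C' * q ≤ 2 * ε * Real.exp (t / 8 * q) := by
        have a3 : 1 ≤ Real.exp (t / 8 * q) := Real.one_le_exp (by positivity)
        have a4 : C' * q ≤ ε * (q * (t / 8)) := by nlinarith only [hq1, hq]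
        nlinarith only [hε0, a1, a3, a4]
      rw [norm_mul, norm_mul, norm_exp]
      calc _ ≤ ‖f.1 z‖ * Real.exp ((t + d) / 2 * q) * Real.exp (-(t * H u u)).re *
            (2 * ε * Real.exp (t / 8 * q)) := by
            gcongr
            · exact hF' u
            · exact (hBe u z).trans a2
        _ = ‖f.1 z‖ * (2 * ε) * Real.exp ((t + d) / 2 * q + -(t * q) + t / 8 * q) := by
            simp only [Real.exp_add, neg_re, re_ofReal_mul, ← hqd]; ring
        _ ≤ _ := by gcongr; nlinarith only [hd, ht, hq0, hq]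
    have h6 : 0 < ∫ u, Real.exp (-(t * (H u u).re)) ∂μ := integral_exp_pos (P.gauss ht0)
    rw [h4, h3, h1, P.gam, zero_sub, norm_neg, norm_mul, norm_real, Real.norm_of_nonneg h6.le,
      integral_const_mul, tp_scale] at h5
    have h7 : F 0 = f.1 z := by simp only [hFd, ofReal_add, add_zero, map_zero, mul_zero, neg_zero, exp_zero, mul_one]
    have h8 : 2 * ε * 3 ^ Module.finrank ℝ V = 1 / 2 := by rw [hε]; field_simp; norm_num
    rw [h7, mul_assoc, ← mul_assoc (2 * ε), h8] at h5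
    have h9 : M = 0 := by
      have : ‖f.1 z‖ = 0 := by
        have := norm_nonneg (f.1 z)
        nlinarith only [h5, h6, this]
      rw [this] at e0
      exact (mul_eq_zero.1 e0.symm).resolve_right (Real.exp_pos _).ne'
    refine Subtype.ext (funext fun w => norm_le_zero_iff.1 ?_)
    simpa only [norm_le_zero_iff, h9, zero_mul] using hb w
  intro f hf
  obtain ⟨g, hgf⟩ := LinearMap.surjective_of_injective hT ⟨f, hf⟩
  exact ⟨_, hg _ g.2, (congrArg Subtype.val hgf).symm⟩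

end GPCW

end

section

/-!
The image of a base point free family of sections is a projective variety; the theorem of
Lefschetz for the products `G (z + a) G (z + b) G (z - a - b)`.
-/

open Complex MvPolynomial Filter Topology

namespace GPCW

variable {V : Type*} [NormedAddCommGroup V] [NormedSpace ℂ V]
  {H : V →ₗ⋆[ℂ] V →ₗ[ℂ] ℂ} {L : Set V}

theorem sec_pow {t : ℝ} {c f : V → ℂ} (h : f ∈ Sec H L t c) (n : ℕ) :
    f ^ n ∈ Sec H L (n * t) (c ^ n) := by
  induction n with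
  | zero => exact ⟨differentiable_const _, fun l _ z => by simp⟩
  | succ n ih =>
    rw [pow_succ, pow_succ, Nat.cast_succ, add_mul, one_mul]; exact sec_mul ih h

theorem Nm.pow {t : ℝ} {c : V → ℂ} (h : Nm H L t c) (n : ℕ) : Nm H L (n * t) (c ^ n) := by
  induction n with
  | zero => exact fun l _ => by simp
  | succ n ih => rw [pow_succ, Nat.cast_succ, add_mul, one_mul]; exact ih.mul h

theorem lf_dense {G : V → ℂ} (hG : Differentiable ℂ G) {q : V} (hq : G q ≠ 0) :
    Dense {u | G u ≠ 0} := fun p => by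
  by_contra hp
  have h1 : ∀ᶠ u in 𝓝 p, G u = 0 := by
    filter_upwards [isClosed_closure.isOpen_compl.mem_nhds hp] with u hu
    by_contra h
    exact hu (subset_closure h)
  have hl : Differentiable ℂ fun ζ : ℂ => p + ζ • (q - p) := by fun_prop
  have h2 : (fun ζ : ℂ => G (p + ζ • (q - p))) =ᶠ[𝓝 0] 0 :=
    (hl.continuous.tendsto' 0 p (by simp)).eventually h1
  have h3 := ((hG.comp hl).differentiableOn.analyticOnNhd isOpen_univ).eq_of_eventuallyEq
    (analyticOnNhd_const (v := 0)) (z₀ := 0) h2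
  exact hq (by simpa using congrFun h3 1)

theorem lf_eq {G : V → ℂ} (hG : Differentiable ℂ G) {q : V} (hq : G q ≠ 0) {h k : V → ℂ} {u : V}
    (hh : ContinuousAt h u) (hk : ContinuousAt k u) (e : ∀ᶠ y in 𝓝 u, h y * G y = k y * G y) :
    h u = k u := by
  have : (𝓝[{y | G y ≠ 0}] u).NeBot := mem_closure_iff_nhdsWithin_neBot.1 (lf_dense hG hq u)
  refine tendsto_nhds_unique_of_eventuallyEq (l := 𝓝[{y | G y ≠ 0}] u)
    (hh.tendsto.mono_left nhdsWithin_le_nhds) (hk.tendsto.mono_left nhdsWithin_le_nhds) ?_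
  filter_upwards [self_mem_nhdsWithin, nhdsWithin_le_nhds e] with y hy e
  exact mul_right_cancel₀ hy e

theorem lf_glue {G G' : V → ℂ} (hG : Differentiable ℂ G) {q : V} (hq : G q ≠ 0)
    (h : ∀ u, ∃ k : V → ℂ, ∀ᶠ y in 𝓝 u, DifferentiableAt ℂ k y ∧ G' y = k y * G y) :
    ∃ φ : V → ℂ, Differentiable ℂ φ ∧ ∀ u, G' u = φ u * G u := by
  choose k hk using h
  refine ⟨fun u => k u u, fun u => (hk u).self_of_nhds.1.congr_of_eventuallyEq ?_,
    fun u => (hk u).self_of_nhds.2⟩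
  filter_upwards [(hk u).eventually_nhds] with y hy
  refine lf_eq hG hq (hk y).self_of_nhds.1.continuousAt hy.self_of_nhds.1.continuousAt ?_
  filter_upwards [hk y, hy] with w h1 h2
  rw [← h1.2, h2.2]

theorem lf_two {G K : V → ℂ} (hG : Differentiable ℂ G) (hK : Differentiable ℂ K) {p q : V}
    (hp : G p ≠ 0) (hq : K q ≠ 0) : ∃ u, G u ≠ 0 ∧ K u ≠ 0 :=
  have : Nonempty V := ⟨0⟩
  ((lf_dense hG hp).inter_of_isOpen_left (lf_dense hK hq)
    (isOpen_ne_fun hG.continuous continuous_const)).nonempty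

theorem lf_refl {G : V → ℂ} (hG : Differentiable ℂ G) {q : V} (hq : G q ≠ 0) (s : V) :
    ∃ v, G v ≠ 0 ∧ G (s - v) ≠ 0 :=
  lf_two hG (hG.comp ((differentiable_const s).sub differentiable_id)) hq (q := s - q)
    (by simpa using hq)

/-- The products of three translates. -/
def tri (G : V → ℂ) (a b z : V) : ℂ := G (z + a) * G (z + b) * G (z - a - b)

theorem tri_sec {t : ℝ} {c G : V → ℂ} (hG : G ∈ Sec H L t c) (a b : V) :
    tri G a b ∈ Sec H L (3 * t) (c ^ 3) := by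
  have := hG.1
  refine ⟨by unfold tri; fun_prop, fun l hl z => ?_⟩
  have e : z + l - a - b = z - a - b + l := by abel
  simp only [tri, add_right_comm z l, e, hG.2 l hl, Pi.pow_apply]
  have : exp (((3 * t : ℝ) : ℂ) * H l z) =
      exp (t * H l (z + a)) * exp (t * H l (z + b)) * exp (t * H l (z - a - b)) := by
    simp only [← exp_add, map_add, map_sub]; congr 1; push_cast; ring
  rw [this]; ring

theorem tri_ne {G : V → ℂ} (hG : Differentiable ℂ G) {q : V} (hq : G q ≠ 0) (z : V) :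
    ∃ a b, tri G a b z ≠ 0 := by
  obtain ⟨v, h1, h2⟩ := lf_refl hG hq (z + z + z - q)
  refine ⟨q - z, v - z, ?_⟩
  have e : z - (q - z) - (v - z) = z + z + z - q - v := by abel
  simp only [tri, add_sub_cancel, e]
  exact mul_ne_zero (mul_ne_zero hq h1) h2

variable [FiniteDimensional ℂ V]

omit [FiniteDimensional ℂ V] in
theorem Pol.liou (P : Pol H L) {ψ : V → ℂ} (hψ : Differentiable ℂ ψ)
    (h : ∀ l ∈ L, ∀ u, ‖ψ (u + l)‖ = ‖ψ u‖) (u w : V) : ψ u = ψ w := by
  obtain ⟨K, hK, hKL⟩ := P.cpt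
  obtain ⟨M, hM⟩ := hK.exists_bound_of_continuousOn hψ.continuous.continuousOn
  refine hψ.apply_eq_apply_of_bounded (isBounded_iff_forall_norm_le.2 ⟨M, ?_⟩) u w
  rintro _ ⟨z, rfl⟩
  obtain ⟨l, hl, hz⟩ := hKL z
  rw [← sub_add_cancel z l, tp_inv (F := fun u => ‖ψ u‖) h hl]
  exact hM _ hz

theorem tri_inj (P : Pol H L) {t : ℝ} {c G : V → ℂ} (hG : G ∈ Sec H L t c) {q : V} (hq : G q ≠ 0)
    {z w : V} {κ : ℂ} (h : ∀ a b, tri G a b w = κ * tri G a b z) :
    ∀ l ∈ L, ∃ n : ℤ, t * (H l (w - z)).im = Real.pi * n := by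
  intro l hl
  have hd := hG.1
  set δ := w - z with hδ
  have hT : Differentiable ℂ fun u => G (u + δ) := by fun_prop
  obtain ⟨φ, hφ, e⟩ := lf_glue (G' := fun u => G (u + δ)) hd hq fun u => by
    obtain ⟨v, h1, h2⟩ := lf_refl hT (q := q - δ) (by simpa using hq) (z + z + z - u)
    refine ⟨fun y => κ * G v * G (z + z + z - y - v) * (G (v + δ) * G (z + z + z - y - v + δ))⁻¹,
      ?_⟩
    have hc : Continuous fun y => G (z + z + z - y - v + δ) := hd.continuous.comp (by fun_prop)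
    filter_upwards [hc.continuousAt.eventually_ne h2] with y hy
    refine ⟨.fun_mul (by fun_prop) (.fun_inv (by fun_prop) (mul_ne_zero h1 hy)), ?_⟩
    have h3 := h (y - z) (v - z)
    have e1 : w + (y - z) = y + δ := by rw [hδ]; abel
    have e2 : w + (v - z) = v + δ := by rw [hδ]; abel
    have e3 : w - (y - z) - (v - z) = z + z + z - y - v + δ := by rw [hδ]; abel
    have e4 : z - (y - z) - (v - z) = z + z + z - y - v := by abel
    simp only [tri, e1, e2, e3, e4, add_sub_cancel] at h3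
    field_simp
    linear_combination h3
  have hc : ∀ l ∈ L, c l ≠ 0 := fun l hl h0 => hq (by
    have := hG.2 l hl (q - l)
    rwa [sub_add_cancel, h0, zero_mul, zero_mul] at this)
  have h1 : ∀ l ∈ L, ∀ u, φ (u + l) * exp (-(t * H δ (u + l))) =
      exp (t * (H l δ - H δ l)) * (φ u * exp (-(t * H δ u))) := fun l hl u => by
    have : φ (u + l) = exp (t * H l δ) * φ u := by
      refine lf_eq hd hq (h := fun u => φ (u + l)) (k := fun u => exp (t * H l δ) * φ u)
        (by have := hφ.continuous; fun_prop) (by have := hφ.continuous; fun_prop)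
        (Eventually.of_forall fun y => ?_)
      have h2 := e (y + l)
      simp only [add_right_comm y l δ, hG.2 l hl, e y, map_add, mul_add, exp_add] at h2
      apply mul_left_cancel₀ (mul_ne_zero (hc l hl) (exp_ne_zero (t * H l y)))
      linear_combination -h2
    simp only [this, map_add, mul_add, mul_sub, neg_add, exp_add, exp_sub, exp_neg]
    field_simp
  have h4 : ∀ l, t * (H l δ - H δ l) = (2 * (t * (H l δ).im) : ℝ) * I := fun l => by
    rw [P.herm δ l, sub_conj]; push_cast; ring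
  have h2 := P.liou (ψ := fun u => φ u * exp (-(t * H δ u)))
    (hφ.mul ((tp_dH δ).const_mul _).neg.cexp) (fun l hl u => by
      rw [h1 l hl, norm_mul, h4, norm_exp_ofReal_mul_I, one_mul]) (q - δ + l) (q - δ)
  have h3 : φ (q - δ) ≠ 0 := fun h0 => hq (by simpa [h0] using e (q - δ))
  rw [h1 l hl, mul_eq_right₀ (mul_ne_zero h3 (exp_ne_zero _)), h4, exp_eq_one_iff] at h2
  obtain ⟨n, hn⟩ := h2
  refine ⟨n, ?_⟩
  have := congrArg im hn
  simp at this
  linarith only [this]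

theorem tri_imm (P : Pol H L) {t : ℝ} (ht : t ≠ 0) {c G : V → ℂ} (hG : G ∈ Sec H L t c) {q : V}
    (hq : G q ≠ 0) {z v : V} {κ : ℂ} (h : ∀ a b, fderiv ℂ (tri G a b) z v = κ * tri G a b z) :
    v = 0 := by
  have hd := hG.1
  set D : V → ℂ := fun u => fderiv ℂ G u v with hD
  have hDd : Differentiable ℂ D := differentiableOn_univ.1
    (Pool.Agent.Lib.SCV.differentiableOn_fderiv_apply isOpen_univ hd.differentiableOn v)
  have hT : ∀ a y, HasFDerivAt (fun u => G (u + a)) (fderiv ℂ G (y + a)) y := fun a y =>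
    (hasFDerivAt_comp_add_right a).2 (hd (y + a)).hasFDerivAt
  obtain ⟨φ, hφ, e⟩ := lf_glue (G' := D) hd hq fun u => by
    obtain ⟨p, h1, h2⟩ := lf_refl hd hq (z + z + z - u)
    refine ⟨fun y => κ - D p / G p - D (z + z + z - y - p) * (G (z + z + z - y - p))⁻¹, ?_⟩
    have hc : Continuous fun y => G (z + z + z - y - p) := hd.continuous.comp (by fun_prop)
    filter_upwards [hc.continuousAt.eventually_ne h2] with y hy
    refine ⟨.fun_sub (by fun_prop) (.fun_mul (by fun_prop) (.fun_inv (by fun_prop) hy)), ?_⟩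
    have h3 := h (y - z) (p - z)
    have e4 : z + (-(y - z) - (p - z)) = z + z + z - y - p := by abel
    have e5 : tri G (y - z) (p - z) =
        fun u => G (u + (y - z)) * G (u + (p - z)) * G (u + (-(y - z) - (p - z))) := by
      funext u; simp only [tri]; congr 2; abel
    have h4 := (((hT (y - z) z).fun_mul (hT (p - z) z)).fun_mul (hT (-(y - z) - (p - z)) z)).fderiv
    rw [e5, h4] at h3
    simp only [e4, add_sub_cancel, add_apply, smul_apply, smul_eq_mul] at h3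
    simp only [hD]
    field_simp
    linear_combination h3
  have hc : ∀ l ∈ L, c l ≠ 0 := fun l hl h0 => hq (by
    have := hG.2 l hl (q - l)
    rwa [sub_add_cancel, h0, zero_mul, zero_mul] at this)
  have h1 : ∀ l ∈ L, ∀ u, φ (u + l) = φ u + t * H l v := fun l hl u => by
    refine lf_eq hd hq (h := fun u => φ (u + l)) (k := fun u => φ u + t * H l v)
      (by have := hφ.continuous; fun_prop) (by have := hφ.continuous; fun_prop)
      (Eventually.of_forall fun y => ?_)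
    have h2 := (((((LinearMap.toContinuousLinearMap (H l)).hasFDerivAt (x := y)).const_mul
      (t : ℂ)).cexp).const_mul (c l)).fun_mul (hd y).hasFDerivAt
    have h3 := (hT l y).unique (h2.congr_of_eventuallyEq (Eventually.of_forall (hG.2 l hl)))
    have h4 := e (y + l)
    have h5 := e y
    simp only [hD] at h4 h5
    rw [h3, hG.2 l hl] at h4
    simp only [add_apply, smul_apply, smul_eq_mul, h5,
      LinearMap.coe_toContinuousLinearMap'] at h4
    apply mul_left_cancel₀ (mul_ne_zero (hc l hl) (exp_ne_zero (t * H l y)))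
    linear_combination -h4
  have key : ∀ α β : ℂ, (∀ l, (α * (t * H l v) + β * H v l).re = 0) →
      α * fderiv ℂ φ 0 v + β * H v v = 0 := fun α β hre => by
    have h2 := (((hφ 0).hasFDerivAt.const_mul α).fun_add
      (((LinearMap.toContinuousLinearMap (H v)).hasFDerivAt (x := 0)).const_mul β)).cexp
    have h3 : (fun u => exp (α * φ u + β * H v u)) = fun _ => exp (α * φ 0 + β * H v 0) :=
      funext fun u => P.liou (ψ := fun u => exp (α * φ u + β * H v u))
        ((hφ.const_mul _).add ((tp_dH v).const_mul _)).cexp (fun l hl u => by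
          have := hre l
          simp only [norm_exp, h1 l hl, map_add, mul_add, add_re] at this ⊢
          congr 1; linarith) u 0
    simp only [LinearMap.coe_toContinuousLinearMap'] at h2
    rw [h3] at h2
    have h4 := congrArg (fun f => f v) (h2.unique (hasFDerivAt_const _ _))
    simpa [← mul_add] using h4
  have k1 := key 1 (-t) fun l => by rw [P.herm v l]; simp
  have k2 := key I (I * t) fun l => by rw [P.herm v l]; simp
  by_contra hv
  have h6 : (t : ℂ) * H v v = 0 := by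
    linear_combination (-1 / 2) * k1 - I / 2 * k2 + (fderiv ℂ φ 0 v + t * H v v) / 2 * I_sq
  have := P.pos v hv
  rw [(mul_eq_zero.1 h6).resolve_left (ofReal_ne_zero.2 ht)] at this
  simp at this

/-- The image of a base point free family of sections is cut out by forms. -/
theorem img (P : Pol H L) {ι : Type*} [Fintype ι] {d : ℝ} (hd : 0 < d) {cd : V → ℂ}
    (hcd : Nm H L d cd) {θ : ι → V → ℂ} (hθ : ∀ i, θ i ∈ Sec H L d cd) (h0 : ∀ z, ∃ i, θ i z ≠ 0)
    {x : ι → ℂ} (hx : x ≠ 0) (hv : ∀ (n : ℕ) (p : MvPolynomial ι ℂ), p.IsHomogeneous n →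
      (∀ z, eval (fun i => θ i z) p = 0) → eval x p = 0) : ∃ z κ, ∀ i, x i = κ * θ i z := by
  classical
  by_contra hn
  obtain ⟨k, hk⟩ := Function.ne_iff.1 hx
  have hk' : x k ≠ 0 := hk
  obtain ⟨t0, ht⟩ := toeplitz P hd.le hcd (s := fun j => x k • θ j - x j • θ k)
    (fun j => sub_mem (Submodule.smul_mem _ _ (hθ j)) (Submodule.smul_mem _ _ (hθ k))) fun z => by
      by_contra! hz
      simp only [Pi.sub_apply, Pi.smul_apply, smul_eq_mul, sub_eq_zero] at hz
      obtain ⟨i, hi⟩ := h0 z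
      have h1 : θ k z ≠ 0 := fun h => by simpa [h, hk', hi] using hz i
      exact hn ⟨z, x k / θ k z, fun i => by field_simp; linear_combination -hz i⟩
  obtain ⟨n, hn'⟩ := exists_nat_ge (t0 / d)
  rw [div_le_iff₀ hd] at hn'
  have := sec_fd P (hcd.pow n)
  let f := Module.finBasis ℂ (Sec H L (n * d) (cd ^ n))
  choose g hg e using fun a => ht _ hn' _ (hcd.pow n) _ (sec_mul (f a).2 (hθ k))
  let A : Matrix _ _ (MvPolynomial ι ℂ) := Matrix.of fun a b => C (if a = b then 1 else 0) * X k -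
    ∑ j, C (f.repr ⟨g a j, hg a j⟩ b) * (C (x k) * X j - C (x j) * X k)
  have hA : ∀ a b, (A a b).IsHomogeneous 1 := fun a b =>
    ((isHomogeneous_X ℂ k).C_mul _).sub (IsHomogeneous.sum _ _ _ fun j _ =>
      (((isHomogeneous_X ℂ j).C_mul _).sub ((isHomogeneous_X ℂ k).C_mul _)).C_mul _)
  have h1 := hv (∑ _a : Fin _, 1) A.det (by
    rw [Matrix.det_apply]
    refine IsHomogeneous.sum _ _ _ fun σ _ => ?_
    exact (homogeneousSubmodule ι ℂ _).smul_of_tower_mem _
      (IsHomogeneous.prod _ _ _ fun a _ => hA _ _)) fun z => by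
    rw [RingHom.map_det]
    refine Matrix.exists_mulVec_eq_zero_iff.1 ⟨fun b => (f b).1 z, fun hz => ?_, funext fun a => ?_⟩
    · obtain ⟨i, hi⟩ := h0 z
      have h2 := congrFun (congrArg Subtype.val (f.sum_repr ⟨_, sec_pow (hθ i) n⟩)) z
      have h3 : ∀ b, (f b).1 z = 0 := congrFun hz
      simp only [Submodule.coe_sum, Submodule.coe_smul, Finset.sum_apply, Pi.smul_apply, h3,
        smul_zero, Finset.sum_const_zero] at h2
      exact pow_ne_zero n hi h2.symm
    · have h2 := congrFun (e a) z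
      have h3 := fun j => congrFun (congrArg Subtype.val (f.sum_repr ⟨_, hg a j⟩)) z
      simp only [Submodule.coe_sum, Submodule.coe_smul, Finset.sum_apply, Pi.smul_apply,
        smul_eq_mul, Pi.mul_apply, Pi.sub_apply] at h2 h3
      simp only [← h3, Finset.mul_sum] at h2
      simp only [A, Matrix.mulVec, dotProduct, RingHom.mapMatrix_apply, Matrix.map_apply,
        Matrix.of_apply, map_sub, map_mul, map_sum, eval_C, eval_X, sub_mul, Finset.sum_mul,
        Finset.sum_sub_distrib, ite_mul, one_mul, zero_mul, Finset.sum_ite_eq, Finset.mem_univ,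
        if_true, Pi.zero_apply]
      rw [mul_comm, h2, Finset.sum_comm, sub_eq_zero]
      exact Finset.sum_congr rfl fun _ _ => Finset.sum_congr rfl fun _ _ => by ring
  rw [RingHom.map_det] at h1
  have h2 : (eval x).mapMatrix A = Matrix.diagonal fun _ => x k := by
    ext a b
    by_cases h : a = b <;> simp [A, h, mul_comm]
  rw [h2, Matrix.det_diagonal] at h1
  exact Finset.prod_ne_zero_iff.2 (fun _ _ => hk') h1

end GPCW

end

section

/-! The theorem of Lefschetz for a theta function with algebraic values at the torsion points. -/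

open Complex Module

namespace GPCW

variable {g N : ℕ}

/-- The torsion points. -/
def Tp (ω : Basis (Fin (2 * g)) ℝ (Fin g → ℂ)) : AddSubgroup (Fin g → ℂ) where
  carrier := {t | ∀ j, ∃ q : ℚ, ω.repr t j = q}
  add_mem' := fun h h' i => by
    obtain ⟨q, hq⟩ := h i
    obtain ⟨q', hq'⟩ := h' i
    exact ⟨q + q', by simp [hq, hq']⟩
  zero_mem' := fun _ => ⟨0, by simp⟩
  neg_mem' := fun h i => by
    obtain ⟨q, hq⟩ := h i
    exact ⟨-q, by simp only [map_neg, Finsupp.coe_neg, Pi.neg_apply, hq, Rat.cast_neg]⟩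

/-- A principal theta function with algebraic values. -/
structure Tf (g : ℕ) where
  ω : Basis (Fin (2 * g)) ℝ (Fin g → ℂ)
  H : (Fin g → ℂ) →ₗ⋆[ℂ] (Fin g → ℂ) →ₗ[ℂ] ℂ
  c : (Fin g → ℂ) → ℂ
  θ : (Fin g → ℂ) → ℂ
  pol : Pol H (Set.range ω)
  nm : Nm H (Set.range ω) 1 c
  uni : ∀ d, (∀ j, ∃ n : ℤ, (H (ω j) d).im = Real.pi * n) →
    ∃ n : Fin (2 * g) → ℤ, d = ∑ j, n j • ω j
  mem : θ ∈ Sec H (Set.range ω) 1 c
  ne : θ ≠ 0
  tor : ∀ t ∈ Tp ω, IsAlgebraic ℚ (exp (-H t t / 2) * θ t)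

/-- A projective embedding with algebraic values at the torsion points. -/
structure Pre (g N : ℕ) where
  ω : Basis (Fin (2 * g)) ℝ (Fin g → ℂ)
  H : (Fin g → ℂ) →ₗ⋆[ℂ] (Fin g → ℂ) →ₗ[ℂ] ℂ
  d : ℝ
  c : (Fin g → ℂ) → ℂ
  θ : Fin (N + 1) → (Fin g → ℂ) → ℂ
  pol : Pol H (Set.range ω)
  pos : 0 < d
  nm : Nm H (Set.range ω) d c
  mem : ∀ i, θ i ∈ Sec H (Set.range ω) d c
  ne : ∀ z, ∃ i, θ i z ≠ 0
  inj : ∀ (z w : Fin g → ℂ) (c : ℂ), (∀ i, θ i w = c * θ i z) →
    ∃ n : Fin (2 * g) → ℤ, w = z + ∑ j, n j • ω j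
  imm : ∀ (z v : Fin g → ℂ) (c : ℂ), (∀ i, fderiv ℂ (θ i) z v = c * θ i z) → v = 0
  tor : ∀ t ∈ Tp ω, ∃ κ : ℂ, κ ≠ 0 ∧ ∀ i, IsAlgebraic ℚ (κ * θ i t)

/-! ### Block LA -/

theorem tp_dense (ω : Basis (Fin (2 * g)) ℝ (Fin g → ℂ)) : Dense (Tp ω : Set (Fin g → ℂ)) := by
  have h1 : DenseRange (Pi.map fun _ : Fin (2 * g) => ((↑) : ℚ → ℝ)) :=
    DenseRange.piMap fun _ => Rat.denseRange_cast
  refine (ω.equivFunL.symm.surjective.denseRange.comp h1 ω.equivFunL.symm.continuous).mono ?_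
  rintro _ ⟨q, rfl⟩ j
  exact ⟨q j, congrFun (ω.equivFun.apply_symm_apply _) j⟩

theorem pol_of_basis (ω : Basis (Fin (2 * g)) ℝ (Fin g → ℂ)) :
    ∃ K, IsCompact K ∧ ∀ z, ∃ l ∈ AddSubgroup.closure (Set.range ω), z - l ∈ K := by
  refine ⟨_, ω.parallelepiped.isCompact, fun z => ⟨ZSpan.floor ω z, ?_,
    ZSpan.fundamentalDomain_subset_parallelepiped ω (ZSpan.fract_mem_fundamentalDomain ω z)⟩⟩
  rw [← Submodule.span_int_eq_addSubgroupClosure]
  exact (ZSpan.floor ω z).2

section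

variable {V : Type} [NormedAddCommGroup V] [NormedSpace ℂ V] [FiniteDimensional ℂ V]
  {H : V →ₗ⋆[ℂ] V →ₗ[ℂ] ℂ} {L : Set V} {t : ℝ} {c f f' : V → ℂ}

theorem sec_an (h : f ∈ Sec H L t c) : AnalyticOnNhd ℂ f Set.univ := by
  exact Pool.Agent.Lib.SCV.osgood isOpen_univ h.1.differentiableOn

theorem sec_tr (h : f ∈ Sec H L t c) (a : V) : (fun z => f (z + a) * exp (-(t * H a z))) ∈
    Sec H L t fun l => c l * exp (t * (H l a - H a l)) := by
  refine ⟨(h.1.comp (differentiable_id.add_const a)).mul ((tp_dH a).const_mul _).neg.cexp,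
    fun l hl z => ?_⟩
  have e : exp (t * H l (z + a)) * exp (-(t * H a (z + l))) =
      exp (t * (H l a - H a l)) * exp (t * H l z) * exp (-(t * H a z)) := by
    simp only [← exp_add, map_add]
    congr 1
    ring
  beta_reduce
  rw [add_right_comm, h.2 l hl]
  linear_combination c l * f (z + a) * e

theorem nm_tr (P : Pol H L) (h : Nm H L t c) (a : V) :
    Nm H L t fun l => c l * exp (t * (H l a - H a l)) := by
  intro l hl
  have : (H a l).re = (H l a).re := by rw [P.herm a l, conj_re]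
  rw [norm_mul, h l hl, norm_exp, re_ofReal_mul, sub_re, this, sub_self, mul_zero, Real.exp_zero,
    mul_one]

theorem la_fd (h : f ∈ Sec H L t c) {l : V} (hl : l ∈ L) (z v : V) : fderiv ℂ f (z + l) v =
    c l * exp (t * H l z) * (fderiv ℂ f z v + t * H l v * f z) := by
  have h1 := ((((LinearMap.toContinuousLinearMap (H l)).hasFDerivAt (x := z)).const_mul
    (t : ℂ)).cexp.const_mul (c l)).mul (h.1 z).hasFDerivAt
  have e : (fun z => f (z + l)) = fun z => c l * exp (t * H l z) * f z := funext (h.2 l hl)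
  rw [← fderiv_comp_add_right, e]
  refine (congrArg (· v) h1.fderiv).trans ?_
  simp only [LinearMap.coe_toContinuousLinearMap', add_apply, smul_apply, smul_eq_mul]
  ring

/-- The factor of automorphy cancels. -/
theorem sec_wr (h : f ∈ Sec H L t c) (h' : f' ∈ Sec H L t c) (v : V) :
    (fun z => f z * fderiv ℂ f' z v - f' z * fderiv ℂ f z v) ∈ Sec H L (t + t) (c * c) := by
  have k : ∀ {u : V → ℂ}, u ∈ Sec H L t c → Differentiable ℂ fun z => fderiv ℂ u z v := fun hu =>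
    differentiableOn_univ.1
      (Pool.Agent.Lib.SCV.differentiableOn_fderiv_apply isOpen_univ hu.1.differentiableOn v)
  refine ⟨(h.1.mul (k h')).sub (h'.1.mul (k h)), fun l hl z => ?_⟩
  beta_reduce
  rw [la_fd h hl, la_fd h' hl, h.2 l hl, h'.2 l hl, ofReal_add, add_mul (t : ℂ), exp_add,
    Pi.mul_apply]
  ring

/-- A common factor for all elements of the lattice. -/
theorem sec_cocycle (P : Pol H L) (h : Nm H L t c) {l : V} (hl : l ∈ AddSubgroup.closure L) (z : V) :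
    ∃ u : ℂ, ‖u‖ * Real.exp (t * (H z z).re / 2) = Real.exp (t * (H (z + l) (z + l)).re / 2) ∧
      ∀ f ∈ Sec H L t c, f (z + l) = u * f z := by
  induction hl using AddSubgroup.closure_induction generalizing z with
  | mem x hx =>
    refine ⟨c x * exp (t * H x z), ?_, fun f hf => hf.2 x hx z⟩
    rw [norm_mul, h x hx, norm_exp, re_ofReal_mul, P.re_add, P.herm x z, conj_re, ← Real.exp_add,
      ← Real.exp_add]
    congr 1
    ring
  | zero => exact ⟨1, by simp, fun f _ => by simp⟩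
  | add x y _ _ hx hy =>
    obtain ⟨u, h1, h2⟩ := hx z
    obtain ⟨u', h3, h4⟩ := hy (z + x)
    exact ⟨u' * u, by rw [norm_mul, mul_assoc, h1, h3, add_assoc],
      fun f hf => by rw [← add_assoc, h4 f hf, h2 f hf, mul_assoc]⟩
  | neg x _ hx =>
    obtain ⟨u, h1, h2⟩ := hx (z + -x)
    rw [neg_add_cancel_right] at h1 h2
    have hu : u ≠ 0 := fun e => (Real.exp_pos _).ne (by rwa [e, norm_zero, zero_mul] at h1)
    exact ⟨u⁻¹, by rw [← h1, norm_inv, inv_mul_cancel_left₀ (norm_ne_zero_iff.2 hu)],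
      fun f hf => by rw [h2 f hf, inv_mul_cancel_left₀ hu]⟩

end

/-- `siegelG` on `Set.univ` with the weight `exp (t * re (H z z) / 2) ≥ 1`; `sec_cocycle`. -/
theorem sgt {H : (Fin g → ℂ) →ₗ⋆[ℂ] (Fin g → ℂ) →ₗ[ℂ] ℂ} {L : Set (Fin g → ℂ)} (P : Pol H L)
    {t : ℝ} (ht : 0 ≤ t) {c : (Fin g → ℂ) → ℂ} (hc : Nm H L t c) {s₀ : (Fin g → ℂ) → ℂ}
    {s : Option (Fin g) → (Fin g → ℂ) → ℂ} (h₀ : s₀ ∈ Sec H L t c) (h : ∀ o, s o ∈ Sec H L t c) :
    ∃ Q : MvPolynomial (Option (Fin g)) ℂ, Q ≠ 0 ∧ ∀ z, s₀ z ≠ 0 →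
      MvPolynomial.eval (fun o => s o z / s₀ z) Q = 0 := by
  obtain ⟨K, hK, hKL⟩ := P.cpt
  refine (siegelG (by simp only [Fintype.card_fin, Fintype.card_option, lt_add_iff_pos_right, Order.lt_one_iff]) isOpen_univ hK (Set.subset_univ K) (sec_an h₀) (fun o => sec_an (h o))
    (h := fun z => Real.exp (t * (H z z).re / 2))
    (fun z _ => Real.one_le_exp (div_nonneg (mul_nonneg ht (P.nn z)) zero_le_two))
    (fun K' _ hK' => ?_) fun x _ => ?_).imp fun Q hQ => ⟨hQ.1, fun z => hQ.2 z trivial⟩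
  · obtain ⟨C, hC⟩ := hK'.bddAbove_image (f := fun z => Real.exp (t * (H z z).re / 2))
      (((continuous_const.mul (continuous_re.comp (tp_cq H))).div_const 2).rexp).continuousOn
    exact ⟨C, fun x hx => hC ⟨x, hx, rfl⟩⟩
  · obtain ⟨l, hl, hx⟩ := hKL x
    obtain ⟨u, h1, h2⟩ := sec_cocycle P hc (neg_mem hl) x
    rw [← sub_eq_add_neg] at h1 h2
    exact ⟨_, hx, u, fun e => (Real.exp_pos _).ne (by rwa [e, norm_zero, zero_mul] at h1),
      h2 _ h₀, fun o => h2 _ (h o), h1.symm⟩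

namespace Tf

variable (T : Tf g)

/-! ### Block LD -/

section

variable {V : Type*} [NormedAddCommGroup V] [NormedSpace ℂ V] [FiniteDimensional ℂ V]
  {H : V →ₗ⋆[ℂ] V →ₗ[ℂ] ℂ} {L : Set V}

theorem ld_span (P : Pol H L) {t : ℝ} {c G : V → ℂ} (hc : Nm H L t c) (hG : G ∈ Sec H L t c)
    {D : Set V} (hD : Dense D) {r : V → V → ℂ} (hr : ∀ a b, r a b ≠ 0) :
    ∃ (N : ℕ) (a b : Fin (N + 1) → V), (∀ i, a i ∈ D ∧ b i ∈ D) ∧ ∀ a' b', tri G a' b' ∈
      Submodule.span ℂ (Set.range fun i => r (a i) (b i) • tri G (a i) (b i)) := by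
  have h3 := hc.pow 3
  rw [Nat.cast_ofNat] at h3
  have := sec_fd P h3
  set S := (fun p : V × V => r p.1 p.2 • tri G p.1 p.2) '' D ×ˢ D with hS
  have : FiniteDimensional ℂ (Submodule.span ℂ S) :=
    Submodule.finiteDimensional_of_le (S₂ := Sec H L (3 * t) (c ^ 3)) (Submodule.span_le.2 (by
      rintro _ ⟨p, -, rfl⟩; exact Submodule.smul_mem _ _ (tri_sec hG _ _)))
  obtain ⟨T, hT, e⟩ := (Submodule.fg_span_iff_fg_span_finset_subset S).1
    ((Submodule.fg_iff_finiteDimensional _).2 this)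
  choose p hp ep using fun f : T => hT f.2
  have : Nonempty V := ⟨0⟩
  obtain ⟨d, hd⟩ := hD.nonempty
  let q : Fin (T.card + 1) → V × V := Fin.cons (d, d) fun i => p (T.equivFin.symm i)
  refine ⟨T.card, fun i => (q i).1, fun i => (q i).2, fun i => ?_, fun a b => ?_⟩
  · refine Fin.cases ⟨hd, hd⟩ (fun i => hp _) i
  have h1 : Submodule.span ℂ S ≤ Submodule.span ℂ
      (Set.range fun i => r (q i).1 (q i).2 • tri G (q i).1 (q i).2) := by
    rw [e]
    exact Submodule.span_mono fun f hf => ⟨(T.equivFin ⟨f, hf⟩).succ, by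
      simpa [q] using ep ⟨f, hf⟩⟩
  have hcG := hG.1.continuous
  have h2 : Continuous fun p : V × V => tri G p.1 p.2 :=
    continuous_pi fun z => by unfold tri; fun_prop
  refine h1 (closure_minimal (s := D ×ˢ D)
    (t := {p : V × V | tri G p.1 p.2 ∈ Submodule.span ℂ S})
    (fun p hp => ?_) ((Submodule.closed_of_finiteDimensional _).preimage h2) (hD.prod hD (a, b)))
  exact ((Submodule.span ℂ S).smul_mem_iff (hr p.1 p.2)).1 (Submodule.subset_span ⟨p, hp, rfl⟩)

/-- The theorem of Lefschetz. -/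
theorem ld_lef (P : Pol H L) {t : ℝ} (ht : t ≠ 0) {c G : V → ℂ} (hG : G ∈ Sec H L t c) {q : V}
    (hq : G q ≠ 0) {ι : Type*} {θ : ι → V → ℂ} (hθ : ∀ i, Differentiable ℂ (θ i))
    (hs : ∀ a b, tri G a b ∈ Submodule.span ℂ (Set.range θ)) : (∀ z, ∃ i, θ i z ≠ 0) ∧
    (∀ z w κ, (∀ i, θ i w = κ * θ i z) → ∀ l ∈ L, ∃ n : ℤ, t * (H l (w - z)).im = Real.pi * n) ∧
    ∀ z v κ, (∀ i, fderiv ℂ (θ i) z v = κ * θ i z) → v = 0 := by
  have h1 : ∀ z w κ, (∀ i, θ i w = κ * θ i z) → ∀ a b, tri G a b w = κ * tri G a b z :=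
    fun z w κ h a b => by
      refine Submodule.span_induction (p := fun f _ => f w = κ * f z) ?_ (by simp)
        (fun f g _ _ hf hg => by simp [hf, hg, mul_add]) (fun s f _ hf => by simp [hf]; ring) (hs a b)
      rintro _ ⟨i, rfl⟩; exact h i
  refine ⟨fun z => ?_, fun z w κ h => tri_inj P hG hq (h1 z w κ h), fun z v κ h =>
    tri_imm P ht hG hq (z := z) (κ := κ) fun a b => ?_⟩
  · by_contra! hz
    obtain ⟨a, b, h⟩ := tri_ne hG.1 hq z
    exact h (by simpa only [zero_mul] using h1 z z 0 (by simpa only [zero_mul] using hz) a b)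
  refine (Submodule.span_induction
    (p := fun f _ => Differentiable ℂ f ∧ fderiv ℂ f z v = κ * f z) ?_ (by simp)
    (fun f g _ _ hf hg => ⟨hf.1.add hg.1, ?_⟩) (fun s f _ hf => ⟨hf.1.const_smul s, ?_⟩) (hs a b)).2
  · rintro _ ⟨i, rfl⟩; exact ⟨hθ i, h i⟩
  · rw [fderiv_add (hf.1 z) (hg.1 z)]; simp [hf.2, hg.2, mul_add]
  · rw [fderiv_const_smul (hf.1 z)]; simp [hf.2]; ring

end

/-- The quadratic form `Q t = H t t / 2` satisfies
`Q (t + a) + Q (t + b) + Q (t - a - b) = 3 Q t + Q a + Q b + Q (a + b)` (real bilinear). -/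
theorem tri_tor {a b t : Fin g → ℂ} (ha : a ∈ Tp T.ω) (hb : b ∈ Tp T.ω) (ht : t ∈ Tp T.ω) :
    IsAlgebraic ℚ (exp (-(3 * T.H t t) / 2) *
      (exp (-(T.H a a + T.H b b + T.H (a + b) (a + b)) / 2) * tri T.θ a b t)) := by
  have e : exp (-(3 * T.H t t) / 2) * exp (-(T.H a a + T.H b b + T.H (a + b) (a + b)) / 2) =
      exp (-T.H (t + a) (t + a) / 2) * exp (-T.H (t + b) (t + b) / 2) *
        exp (-T.H (t - a - b) (t - a - b) / 2) := by
    simp only [← exp_add, map_add, map_sub, LinearMap.add_apply, LinearMap.sub_apply]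
    congr 1
    ring
  have h := ((T.tor _ (add_mem ht ha)).mul (T.tor _ (add_mem ht hb))).mul
    (T.tor _ (sub_mem (sub_mem ht ha) hb))
  rw [← mul_assoc, e, tri, mul_mul_mul_comm, mul_mul_mul_comm (exp _)]
  exact h

/-- A finite set of pairs of torsion points whose `tri θ a b` span the span of all of them
(`sec_fd`), not empty; normalise as in `tri_tor`.  A linear condition on `tri θ a b` that is
continuous in `(a, b)` passes to all torsion pairs and then to all pairs (`tp_dense`); `tri_sec`,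
`tri_ne`, `tri_inj`, `tri_imm`, `uni`. -/
theorem exists_pre : ∃ (N : ℕ) (P : Pre g N), P.ω = T.ω := by
  obtain ⟨q, hq⟩ := Function.ne_iff.1 T.ne
  obtain ⟨N, a, b, h1, h2⟩ := ld_span T.pol T.nm T.mem (tp_dense T.ω)
    (r := fun a b => exp (-(T.H a a + T.H b b + T.H (a + b) (a + b)) / 2)) fun _ _ => exp_ne_zero _
  have h3 := T.nm.pow 3
  rw [Nat.cast_ofNat] at h3
  have h4 := fun i => Submodule.smul_mem _
    (exp (-(T.H (a i) (a i) + T.H (b i) (b i) + T.H (a i + b i) (a i + b i)) / 2))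
    (tri_sec T.mem (a i) (b i))
  obtain ⟨h5, h6, h7⟩ := ld_lef T.pol one_ne_zero T.mem hq (fun i => (h4 i).1) h2
  refine ⟨N, ⟨T.ω, T.H, 3 * 1, T.c ^ 3, _, T.pol, by norm_num, h3, h4, h5, fun z w c h => ?_, h7,
    fun t ht => ⟨_, exp_ne_zero _, fun i => T.tri_tor (h1 i).1 (h1 i).2 ht⟩⟩, rfl⟩
  obtain ⟨n, hn⟩ := T.uni (w - z) fun j => by simpa only [map_sub, sub_im, one_mul] using h6 z w c h _ ⟨j, rfl⟩
  exact ⟨n, by rw [← hn, add_sub_cancel]⟩

end Tf

end GPCW

end

section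

/-! Families of theta functions over a surface with a compact quotient. -/

open Complex Module Filter Topology

namespace GPCW

variable {V : Type} [NormedAddCommGroup V] [NormedSpace ℂ V] [FiniteDimensional ℂ V] {n : ℕ}
  {ι J σ : Type} [Fintype J] [Fintype σ] [DecidableEq σ]

/-- Points with rational coordinates. -/
def Rq (e : Basis ι ℂ V) : AddSubgroup V where
  carrier := {y | ∀ i, ∃ q : ℚ, e.repr y i = q}
  add_mem' := fun h h' i => by
    obtain ⟨q, hq⟩ := h i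
    obtain ⟨q', hq'⟩ := h' i
    exact ⟨q + q', by simp only [map_add, Finsupp.coe_add, Pi.add_apply, hq, hq', Rat.cast_add]⟩
  zero_mem' := fun _ => ⟨0, by simp only [map_zero, Finsupp.coe_zero, Pi.zero_apply, Rat.cast_zero]⟩
  neg_mem' := fun h i => by
    obtain ⟨q, hq⟩ := h i
    exact ⟨-q, by simp only [map_neg, Finsupp.coe_neg, Pi.neg_apply, hq, Rat.cast_neg]⟩

/-- Points with integral coordinates. -/
def Rz (e : Basis ι ℂ V) : AddSubgroup V where
  carrier := {y | ∀ i, ∃ q : ℤ, e.repr y i = q}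
  add_mem' := fun h h' i => by
    obtain ⟨q, hq⟩ := h i
    obtain ⟨q', hq'⟩ := h' i
    exact ⟨q + q', by simp [hq, hq']⟩
  zero_mem' := fun _ => ⟨0, by simp only [map_zero, Finsupp.coe_zero, Pi.zero_apply, Int.cast_zero]⟩
  neg_mem' := fun h i => by
    obtain ⟨q, hq⟩ := h i
    exact ⟨-q, by simp only [map_neg, Finsupp.coe_neg, Pi.neg_apply, hq, Int.cast_neg]⟩

/-- Points with real coordinates. -/
def Rr (e : Basis ι ℂ V) : AddSubgroup V where
  carrier := {y | ∀ i, ∃ q : ℝ, e.repr y i = q}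
  add_mem' := fun h h' i => by
    obtain ⟨q, hq⟩ := h i
    obtain ⟨q', hq'⟩ := h' i
    exact ⟨q + q', by simp only [map_add, Finsupp.coe_add, Pi.add_apply, hq, hq', ofReal_add]⟩
  zero_mem' := fun _ => ⟨0, by simp only [map_zero, Finsupp.coe_zero, Pi.zero_apply, ofReal_zero]⟩
  neg_mem' := fun h i => by
    obtain ⟨q, hq⟩ := h i
    exact ⟨-q, by simp only [map_neg, Finsupp.coe_neg, Pi.neg_apply, hq, ofReal_neg]⟩

/-- Complex conjugation with respect to a basis. -/
noncomputable def cj [Fintype ι] (e : Basis ι ℂ V) (y : V) : V := ∑ i, star (e.repr y i) • e i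

/-- The square of the sup norm on the real points. -/
noncomputable def hh (e : Basis ι ℂ V) (G : V → ℂ) : ℝ :=
  sSup ((fun y => ‖G y‖ ^ 2) '' (Rr e : Set V))

/-- A symplectic basis. -/
structure Sy (B : V →ₗ[ℂ] V →ₗ[ℂ] ℂ) (e : Basis (Fin n ⊕ Fin n) ℂ V) : Prop where
  alt : ∀ v, B v v = 0
  ll : ∀ i j, B (e (.inl i)) (e (.inl j)) = 0
  rr : ∀ i j, B (e (.inr i)) (e (.inr j)) = 0
  lr : ∀ i j, B (e (.inl i)) (e (.inr j)) = if i = j then Real.pi * I else 0

/-- An affine family of vectors. -/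
noncomputable def gen (g0 : J → V) (g1 : σ → J → V) (x : σ → ℂ) (j : J) : V :=
  g0 j + ∑ c, x c • g1 c j

/-- The transformations that identify two fibres. -/
structure Tr (B : V →ₗ[ℂ] V →ₗ[ℂ] ℂ) (e : Basis ι ℂ V) (d : Fin 2 → V) (M : ℕ)
    (F F' : Submodule ℂ V) (γ : V →ₗ[ℂ] V) : Prop where
  iso : ∀ u v, B (γ u) (γ v) = B u v
  map : ∀ ν ∈ F, γ ν ∈ F'
  cong : ∀ y ∈ Rz e, ∃ l ∈ Rz e, γ y = y + (M : ℂ) • l
  det : ∃ m : Matrix (Fin 2) (Fin 2) ℂ, m.det = 1 ∧ ∀ k, γ (d k) = ∑ l, m k l • d l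

/-- A family of positive Lagrangian subspaces with a compact quotient. -/
structure Dat (V : Type) [NormedAddCommGroup V] [NormedSpace ℂ V] (n : ℕ) (J σ : Type)
    [Fintype J] [Fintype σ] where
  B : V →ₗ[ℂ] V →ₗ[ℂ] ℂ
  e : Basis (Fin n ⊕ Fin n) ℂ V
  sy : Sy B e
  X : Set (σ → ℂ)
  op : IsOpen X
  cv : Convex ℝ X
  g0 : J → V
  g1 : σ → J → V
  F : (σ → ℂ) → Submodule ℂ V
  card : Fintype.card J = n
  span : ∀ x ∈ X, F x = Submodule.span ℂ (Set.range (gen g0 g1 x))
  li : ∀ x ∈ X, LinearIndependent ℂ (gen g0 g1 x)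
  iso : ∀ x ∈ X, ∀ u ∈ F x, ∀ v ∈ F x, B u v = 0
  pos : ∀ x ∈ X, ∀ v ∈ F x, v ≠ 0 → 0 < (B v (cj e v)).re
  d : Fin 2 → V
  coc : ∀ M : ℕ, 0 < M → ∃ K ⊆ X, IsCompact K ∧ ∀ x ∈ X, ∃ x' ∈ K, ∃ γ,
    Tr B e d M (F x) (F x') γ

/-- The family of principal theta functions. -/
structure Fm (T : Dat V n J σ) (Φ : (σ → ℂ) → V → ℂ) : Prop where
  an : AnalyticOnNhd ℂ (fun q : (σ → ℂ) × V => Φ q.1 q.2) (T.X ×ˢ Set.univ)
  inv : ∀ x ∈ T.X, Inv T.B (T.F x) (Φ x)
  per : ∀ x ∈ T.X, ∀ i, S T.B (T.e i) (Φ x) = Φ x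
  uniq : ∀ x ∈ T.X, ∀ G, En G → Inv T.B (T.F x) G → (∀ i, S T.B (T.e i) G = G) →
    ∃ c : ℂ, G = fun y => c * Φ x y
  low : ∀ x ∈ T.X, ∃ y ∈ Rr T.e, 1 ≤ ‖Φ x y‖

/-- A special point. -/
structure Pt (T : Dat V n J σ) (c : ℂ) where
  x : σ → ℂ
  mem : x ∈ T.X
  D : Set V
  G : V → ℂ
  ne : G ≠ 0
  th : Th T.B (Rq T.e) (T.F x) D G
  ε : σ → V
  ε' : σ → V
  ε_mem : ∀ a, ε a ∈ D
  ε'_mem : ∀ a, ε' a ∈ D
  ρ : σ → (σ → ℂ) → ℂ
  ρ_an : ∀ a x', AnalyticAt ℂ (ρ a) x'
  ρ_ne : ∀ a, ρ a x ≠ 0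
  vec : ∀ x' ∈ T.X, ∀ a j, ρ a x' • T.g1 a j - (2 * T.B (gen T.g0 T.g1 x' j) (ε a)) • ε' a -
    (2 * T.B (gen T.g0 T.g1 x' j) (ε' a)) • ε a ∈ T.F x'
  δ : Fin 2 → V
  δ_mem : ∀ k, δ k ∈ D
  m : Matrix (Fin 2) (Fin 2) ℂ
  hm : ∀ k, T.d k = ∑ l, m k l • δ l
  det : m.det = c
  ν : σ → V
  ν' : σ → V
  ν_mem : ∀ a, ν a ∈ T.F x
  ν'_mem : ∀ a, ν' a ∈ T.F x
  tab : ∀ a b, T.B (ν a) (ε b) * T.B (ν' a) (ε' b) + T.B (ν a) (ε' b) * T.B (ν' a) (ε b) = 0 ↔ a ≠ b
  κ : Fin 2 → V
  κ_mem : ∀ k, κ k ∈ T.F x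
  tabκ : ∀ k l, T.B (κ k) (T.d l) = 0 ↔ k ≠ l

/-- Four sections of weight two. -/
noncomputable def sec (T : Dat V n J σ) (Φ : (σ → ℂ) → V → ℂ) (v : Fin 5 → V) : Fin 4 → (σ → ℂ) → ℂ :=
  ![fun x => Φ x (v 0) * Φ x (v 0), fun x => Φ x (v 1) * Φ x (v 0), fun x => Φ x (v 2) * Φ x (v 0),
    fun x => nab T.B (T.d 0) (Φ x) (v 3) * nab T.B (T.d 1) (Φ x) (v 4) -
      nab T.B (T.d 1) (Φ x) (v 3) * nab T.B (T.d 0) (Φ x) (v 4)]

variable {B : V →ₗ[ℂ] V →ₗ[ℂ] ℂ} {e : Basis (Fin n ⊕ Fin n) ℂ V} {G G' : V → ℂ}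
  {T : Dat V n J σ} {Φ : (σ → ℂ) → V → ℂ} {x x' : σ → ℂ}

/-! ### Block FA -/

/-- Symplectic coordinates. -/
noncomputable def faK (e : Basis (Fin n ⊕ Fin n) ℂ V) : V ≃ₗ[ℂ] Vn n :=
  e.equivFun.trans (LinearEquiv.sumArrowLequivProdArrow _ _ ℂ ℂ)

theorem fa_fst (y : V) (i : Fin n) : (faK e y).1 i = e.repr y (.inl i) := rfl

theorem fa_snd (y : V) (i : Fin n) : (faK e y).2 i = e.repr y (.inr i) := rfl

theorem fa_inl (i : Fin n) : faK e (e (.inl i)) = (Pi.single i 1, 0) := by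
  ext j <;> simp [fa_fst, fa_snd, Finsupp.single_apply, Pi.single_apply, eq_comm]

theorem fa_inr (i : Fin n) : faK e (e (.inr i)) = (0, Pi.single i 1) := by
  ext j <;> simp [fa_fst, fa_snd, Finsupp.single_apply, Pi.single_apply, eq_comm]

theorem fa_B (h : Sy B e) (u v : V) : B u v = Bn (faK e u) (faK e v) := by
  have hrl : ∀ i j, B (e (.inr i)) (e (.inl j)) = if i = j then -(Real.pi * I) else 0 := by
    intro i j
    rw [skew h.alt, h.lr]
    by_cases hij : i = j
    · simp [hij]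
    · simp [hij, Ne.symm hij]
  conv_lhs => rw [← e.sum_repr u, ← e.sum_repr v]
  simp only [map_sum, map_smul, LinearMap.sum_apply, LinearMap.smul_apply, Fintype.sum_sum_type,
    h.ll, h.rr, h.lr, hrl, smul_eq_mul, mul_zero, Finset.sum_const_zero, mul_ite,
    Finset.sum_ite_eq', Finset.mem_univ, if_true, map_add, LinearMap.add_apply, zero_add, add_zero,
    Bn, dotProduct, fa_fst, fa_snd, Finset.mul_sum, sub_eq_add_neg,
    ← Finset.sum_neg_distrib, mul_add]
  rw [add_comm]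
  congr 1 <;> exact Finset.sum_congr rfl fun i _ => by ring

theorem fa_cj (y : V) : faK e (cj e y) = star (faK e y) := by
  have h : ∀ i, e.repr (cj e y) i = star (e.repr y i) := fun i =>
    congrFun (e.repr_sum_self fun i => star (e.repr y i)) i
  ext j
  · exact h _
  · exact h _

/-- Coordinates `κ y = (repr y ∘ inl, repr y ∘ inr) : Vn n`, `B u v = Bn (κ u) (κ v)`,
`κ (cj e y) = star (κ y)`; reindex `J` along `Fintype.equivFinOfCardEq`; GRAPH, `N_an`, `N_lam`,
`N_mu`, `N_T`, `N_one`, UQ. -/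
theorem exists_fm (T : Dat V n J σ) : ∃ Φ, Fm T Φ := by
  let κ := faK T.e
  let κc : V →L[ℂ] Vn n := LinearMap.toContinuousLinearMap κ.toLinearMap
  let κi : Vn n →L[ℂ] V := LinearMap.toContinuousLinearMap κ.symm.toLinearMap
  have hB := fa_B T.sy
  have hm : ∀ x ∈ T.X, ∀ j, gen T.g0 T.g1 x j ∈ T.F x := fun x hx j => by
    rw [T.span x hx]; exact Submodule.subset_span ⟨j, rfl⟩
  obtain ⟨τ, hτ, hS⟩ := GRAPH' (n := n) T.card (X := T.X) (f := fun x j => κ (gen T.g0 T.g1 x j))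
    (fun j x _ => (κc.analyticAt _).comp (analyticAt_const.add
      (Finset.analyticAt_fun_sum _ fun c _ => ((ContinuousLinearMap.proj (R := ℂ)
        (φ := fun _ : σ => ℂ) c).analyticAt x).smul analyticAt_const)))
    (fun x hx i j => (hB _ _).symm.trans (T.iso x hx _ (hm x hx i) _ (hm x hx j)))
    fun x hx c hc => by
      have h1 : ∑ i, c i • κ (gen T.g0 T.g1 x i) = κ (∑ i, c i • gen T.g0 T.g1 x i) := by
        simp only [map_sum, map_smul]
      rw [h1, ← fa_cj, ← hB]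
      exact T.pos x hx _ (Submodule.sum_mem _ fun i _ => Submodule.smul_mem _ _ (hm x hx i))
        fun h => hc (funext (Fintype.linearIndependent_iff.1 (T.li x hx) c h))
  have hF : ∀ x ∈ T.X, ∀ ν, ν ∈ T.F x ↔ (κ ν).2 = Matrix.mulVec (τ x) (κ ν).1 := by
    intro x hx ν
    rw [← (hS x hx).2, T.span x hx]
    have : Submodule.span ℂ (Set.range fun j => κ (gen T.g0 T.g1 x j)) =
        (Submodule.span ℂ (Set.range (gen T.g0 T.g1 x))).map κ.toLinearMap := by
      rw [Submodule.map_span, ← Set.range_comp]; rfl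
    rw [this, Submodule.mem_map_equiv, LinearEquiv.symm_apply_apply]
  have h1 : ∀ i : Fin n, (Pi.single i 1 : Fin n → ℂ) = zc (Pi.single i 1) := fun i => by
    ext k
    simp only [zc, Pi.single_apply]
    split_ifs <;> simp
  refine ⟨fun x y => N (τ x) (κ y), fun q hq => ?_, fun x hx ν hν y => ?_, fun x hx i => ?_,
    fun x hx G hG hI hP => ?_, fun x hx => ?_⟩
  · exact (N_an T.op hτ (fun x hx => (hS x hx).1) (q.1, κ q.2) ⟨hq.1, trivial⟩).comp
      (f := fun q : (σ → ℂ) × V => (q.1, κ q.2))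
      (analyticAt_fst.prod ((κc.analyticAt _).comp analyticAt_snd))
  · have h2 := N_T (hS x hx).1.1 (κ ν).1 (κ y)
    rw [← (hF x hx ν).1 hν, ← hB] at h2
    simp only [map_add]
    rw [← h2, ← mul_assoc, ← exp_add, add_neg_cancel, exp_zero, one_mul]
  · funext y
    simp only [S, map_add, hB]
    rcases i with i | i
    · rw [fa_inl, h1]; exact N_lam _ _ _
    · rw [fa_inr, h1]; exact N_mu _ _ _
  · refine (UQ' (hS x hx).1 (G := fun z => G (κ.symm z))
      (fun z _ => (hG _ trivial).comp (κi.analyticAt z)) (fun i y => ?_) (fun i y => ?_)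
      fun u y => ?_).imp fun c hc => funext fun y => by simpa using hc (κ y)
    · have h2 := congrFun (hP (.inl i)) (κ.symm y)
      simp only [S, hB] at h2
      rw [← fa_inl (e := T.e)]
      simpa only [κ, map_add, LinearEquiv.symm_apply_apply, LinearEquiv.apply_symm_apply] using h2
    · have h2 := congrFun (hP (.inr i)) (κ.symm y)
      simp only [S, hB] at h2
      rw [← fa_inr (e := T.e)]
      simpa only [κ, map_add, LinearEquiv.symm_apply_apply, LinearEquiv.apply_symm_apply] using h2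
    · have h2 := hI (κ.symm (u, Matrix.mulVec (τ x) u)) ((hF x hx _).2 (by simp)) (κ.symm y)
      rw [hB] at h2
      simp only [map_add, h2]
      rw [← mul_assoc, ← exp_add]
      simp [κ]
  · obtain ⟨t, ht⟩ := N_one (hS x hx).1
    refine ⟨κ.symm (0, rc t), fun i => ?_, by simpa using ht⟩
    rcases i with i | i
    · exact ⟨0, by rw [← fa_fst]; simp [κ]⟩
    · exact ⟨t i, by rw [← fa_snd]; simp [κ, rc]⟩

/-! ### Block FB -/

theorem Sy.expand (h : Sy B e) (u v : V) :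
    B u v = Real.pi * I * ∑ i, (e.repr u (.inl i) * e.repr v (.inr i) -
      e.repr u (.inr i) * e.repr v (.inl i)) := by
  have rl : ∀ i j, B (e (.inr i)) (e (.inl j)) = if i = j then -(Real.pi * I) else 0 := by
    intro i j
    rw [skew h.alt, h.lr]
    by_cases hij : i = j
    · simp [hij]
    · simp [hij, Ne.symm hij]
  conv_lhs => rw [← e.sum_repr u, ← e.sum_repr v]
  simp only [map_sum, map_smul, LinearMap.sum_apply, LinearMap.smul_apply, Fintype.sum_sum_type,
    map_add, LinearMap.add_apply, smul_eq_mul, h.ll, h.rr, h.lr, rl, mul_zero, mul_ite,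
    Finset.sum_const_zero, zero_add, add_zero, Finset.sum_ite_eq', Finset.mem_univ, if_true]
  rw [Finset.mul_sum, ← Finset.sum_add_distrib]
  exact Finset.sum_congr rfl fun _ _ => by ring

theorem Sy.int (h : Sy B e) {u v : V} (hu : u ∈ Rz e) (hv : v ∈ Rz e) :
    ∃ m : ℤ, B u v = Real.pi * I * m := by
  choose a ha using hu
  choose b hb using hv
  refine ⟨∑ i, (a (.inl i) * b (.inr i) - a (.inr i) * b (.inl i)), ?_⟩
  rw [h.expand]
  simp only [ha, hb]
  push_cast
  rfl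

theorem Sy.real (h : Sy B e) {u v : V} (hu : u ∈ Rr e) (hv : v ∈ Rr e) :
    ∃ t : ℝ, B u v = Real.pi * I * t := by
  choose a ha using hu
  choose b hb using hv
  refine ⟨∑ i, (a (.inl i) * b (.inr i) - a (.inr i) * b (.inl i)), ?_⟩
  rw [h.expand]
  simp only [ha, hb]
  push_cast
  rfl

theorem Sy.rt (h : Sy B e) : Rt B (Rq e) := by
  refine ⟨h.alt, fun q r hr i => ?_, fun u hu v hv => ?_⟩
  · obtain ⟨a, ha⟩ := hr i
    exact ⟨q * a, by simp [ha]⟩
  · choose a ha using hu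
    choose b hb using hv
    refine ⟨∑ i, (a (.inl i) * b (.inr i) - a (.inr i) * b (.inl i)), ?_⟩
    rw [h.expand]
    simp only [ha, hb]
    push_cast
    rfl

theorem Sy.nondeg (h : Sy B e) {u : V} (hu : ∀ v, B u v = 0) : u = 0 := by
  have hp : (Real.pi : ℂ) * I ≠ 0 := mul_ne_zero (by exact_mod_cast Real.pi_ne_zero) I_ne_zero
  refine e.ext_elem fun i => ?_
  rcases i with i | i
  · have := hu (e (.inr i))
    rw [h.expand] at this
    simpa only [map_zero, Finsupp.coe_zero, Pi.zero_apply, Basis.repr_self, Finsupp.single_apply, Sum.inr.injEq, mul_ite, mul_one, mul_zero, ne_eq, reduceCtorEq, not_false_eq_true, Finsupp.single_eq_of_ne, sub_zero, Finset.sum_ite_eq, Finset.mem_univ, ↓ reduceIte, mul_eq_zero, hp, false_or] using this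
  · have := hu (e (.inl i))
    rw [h.expand] at this
    simpa only [map_zero, Finsupp.coe_zero, Pi.zero_apply, Basis.repr_self, ne_eq, reduceCtorEq, not_false_eq_true, Finsupp.single_eq_of_ne, mul_zero, Finsupp.single_apply, Sum.inl.injEq, mul_ite, mul_one, zero_sub, Finset.sum_neg_distrib, Finset.sum_ite_eq, Finset.mem_univ, ↓ reduceIte, mul_neg, neg_eq_zero, mul_eq_zero, hp, false_or] using this

theorem exists_den {v : V} (hv : v ∈ Rq e) : ∃ N : ℕ, 0 < N ∧ (N : ℂ) • v ∈ Rz e := by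
  choose q hq using hv
  refine ⟨∏ i, (q i).den, Finset.prod_pos fun i _ => (q i).den_pos, fun i => ?_⟩
  obtain ⟨c, hc⟩ := Finset.dvd_prod_of_mem (fun i => (q i).den) (Finset.mem_univ i)
  refine ⟨c * (q i).num, ?_⟩
  have h1 : (((q i).den : ℕ) : ℂ) * (q i : ℂ) = ((q i).num : ℂ) := by
    exact_mod_cast Rat.den_mul_eq_num (q i)
  rw [hc, map_smul, Finsupp.smul_apply, hq, smul_eq_mul]
  push_cast
  rw [← h1]
  ring

/-- DEN in the coordinates of `e`. -/
theorem den (h : En G) (h0 : G ≠ 0) : ∃ r ∈ Rq e, G r ≠ 0 := by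
  by_contra hc
  push Not at hc
  exact h0 (DEN e.span_eq h fun q => hc _ fun i => ⟨q i, congrFun (e.repr_sum_self _) i⟩)

theorem den_two (h : En G) (h' : En G')
    (hi : ∀ a b : ℂ, (fun y => a * G y + b * G' y) = 0 → a = 0 ∧ b = 0) :
    ∃ r ∈ Rq e, ∃ r' ∈ Rq e, G r * G' r' - G' r * G r' ≠ 0 := by
  obtain ⟨r, hr, h1⟩ := den (e := e) h fun hz => one_ne_zero (hi 1 0 (by funext y; simp [hz])).1
  obtain ⟨r', hr', h2⟩ := den (e := e) (G := fun y => -G' r * G y + G r * G' y)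
    ((analyticOnNhd_const.mul h).add (analyticOnNhd_const.mul h')) fun hz => h1 (hi _ _ hz).2
  exact ⟨r, hr, r', hr', fun hz => h2 (by linear_combination hz)⟩

theorem fb_det {A ι : Type} [Fintype ι] [DecidableEq ι] (f : A → ι → ℂ)
    (h : ∀ a : ι → ℂ, (∀ v, ∑ i, f v i * a i = 0) → a = 0) :
    ∃ v : ι → A, (Matrix.of fun j i => f (v j) i).det ≠ 0 := by
  have h1 : Submodule.span ℂ (Set.range f) = ⊤ := by
    by_contra h1
    obtain ⟨φ, h2, h3⟩ := Submodule.exists_le_ker_of_lt_top _ (lt_top_iff_ne_top.2 h1)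
    have h4 := h (fun i => φ (Pi.single i 1)) fun v => by
      have := h3 (Submodule.subset_span ⟨v, rfl⟩)
      rw [LinearMap.mem_ker, LinearMap.pi_apply_eq_sum_univ] at this
      simpa only [← Pi.single_apply, Pi.single_comm, smul_eq_mul] using this
    exact h2 ((Pi.basisFun ℂ ι).ext fun i => by simpa only [Pi.basisFun_apply, LinearMap.zero_apply, Pi.zero_apply] using congrFun h4 i)
  obtain ⟨g, h2, -, h3⟩ := Submodule.exists_fun_fin_finrank_span_eq ℂ (Set.range f)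
  choose v hv using h2
  let e := Fintype.equivFinOfCardEq (α := ι) (n := finrank ℂ (Submodule.span ℂ (Set.range f)))
    (by rw [h1, finrank_top, finrank_fintype_fun_eq_card])
  refine ⟨fun j => v (e j), IsUnit.ne_zero ((Matrix.isUnit_iff_isUnit_det _).1
    (Matrix.linearIndependent_rows_iff_isUnit.1 ?_))⟩
  exact (funext fun j => hv (e j) : (fun j => f (v (e j))) = g ∘ e) ▸ h3.comp e e.injective

/-- The vectors `(A a r)_a`, `r` rational, span `σ → ℂ` (`den`). -/
theorem den_det {A : σ → V → ℂ} (h : ∀ a, En (A a)) (hi : LinearIndependent ℂ A) :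
    ∃ r : σ → V, (∀ b, r b ∈ Rq e) ∧ (Matrix.of fun a b => A a (r b)).det ≠ 0 := by
  obtain ⟨v, hv⟩ := fb_det (fun (r : Rq e) a => A a r) fun c hc => by
    by_contra h0
    obtain ⟨r, hr, h1⟩ := den (e := e) (G := fun y => ∑ a, A a y * c a)
      (Finset.analyticOnNhd_fun_sum _ fun a _ => (h a).mul analyticOnNhd_const) fun hz =>
        h0 (funext (Fintype.linearIndependent_iff.1 hi c (funext fun y => by
          simpa only [Finset.sum_apply, Pi.smul_apply, smul_eq_mul, mul_comm, Pi.zero_apply] using congrFun hz y)))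
    exact h1 (hc ⟨r, hr⟩)
  exact ⟨fun b => v b, fun b => (v b).2, by rwa [← Matrix.det_transpose]⟩

theorem exp_pi_int (m : ℤ) : exp (Real.pi * I * m) = 1 ∨ exp (Real.pi * I * m) = -1 := by
  rw [mul_comm, exp_int_mul, exp_pi_mul_I]
  rcases Int.even_or_odd m with hm | hm
  · exact .inl hm.neg_one_zpow
  · exact .inr hm.neg_one_zpow

theorem Rz_basis (m : ℤ) (i : Fin n ⊕ Fin n) : (m : ℂ) • e i ∈ Rz e := fun j =>
  ⟨if i = j then m else 0, by by_cases hij : i = j <;> simp [hij]⟩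

theorem Rz_le_Rr : Rz e ≤ Rr e := fun _ h j => (h j).elim fun q hq => ⟨q, by simpa using hq⟩

/-- The `l` with `S B l G = ± G` form a subgroup (`S_S`, `Sy.int`). -/
theorem Sy.sign (h : Sy B e) (hG : ∀ i, S B (e i) G = G) {l : V} (hl : l ∈ Rz e) :
    S B l G = G ∨ S B l G = fun y => -G y := by
  choose m hm using hl
  have key : ∀ s : Finset (Fin n ⊕ Fin n), ∃ c : ℂ, (c = 1 ∨ c = -1) ∧
      S B (∑ i ∈ s, (m i : ℂ) • e i) G = fun y => c * G y := by
    intro s
    induction s using Finset.induction_on with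
    | empty => exact ⟨1, .inl rfl, by funext y; simp [S]⟩
    | insert i s hi ih =>
      obtain ⟨c, hc, ih⟩ := ih
      obtain ⟨k, hk⟩ := h.int (Rz_basis (m i) i) (sum_mem fun j (_ : j ∈ s) => Rz_basis (m j) j)
      have h1 := S_S h.alt ((m i : ℂ) • e i) (∑ i ∈ s, (m i : ℂ) • e i) G
      rw [ih, hb_S_mul, S_zsmul h.alt (hG i), hk,
        ← Finset.sum_insert (f := fun i => (m i : ℂ) • e i) hi] at h1
      rcases exp_pi_int k with h2 | h2
      · exact ⟨c, hc, funext fun y => by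
          have := congrFun h1 y
          rw [h2] at this
          linear_combination -this⟩
      · exact ⟨-c, by rcases hc with hc | hc <;> simp [hc], funext fun y => by
          have := congrFun h1 y
          rw [h2] at this
          linear_combination this⟩
  obtain ⟨c, hc, h1⟩ := key Finset.univ
  have h2 : ∑ i, (m i : ℂ) • e i = l := by simp only [← hm, e.sum_repr]
  rw [h2] at h1
  rcases hc with rfl | rfl
  · exact .inl (by simpa using h1)
  · exact .inr (by simpa using h1)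

theorem Sy.two (h : Sy B e) (hG : ∀ i, S B (e i) G = G) {l : V} (hl : l ∈ Rz e) :
    S B ((2 : ℂ) • l) G = G := by
  have h1 := S_S h.alt l l G
  simp only [h.alt, exp_zero, one_mul] at h1
  rw [two_smul, ← show _ = S B (l + l) G from h1]
  rcases h.sign hG hl with h2 | h2
  · rw [h2, h2]
  · have h3 := hb_S_mul (B := B) l G (-1)
    simp only [neg_one_mul] at h3
    rw [h2, h3, h2]
    simp

theorem Fm.en (h : Fm T Φ) (hx : x ∈ T.X) : En (Φ x) := fun y _ =>
  AnalyticAt.comp (g := fun q : (σ → ℂ) × V => Φ q.1 q.2) (f := fun y => (x, y))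
    (h.an (x, y) ⟨hx, trivial⟩) (analyticAt_const.prod analyticAt_id)

theorem Fm.ne (h : Fm T Φ) (hx : x ∈ T.X) : Φ x ≠ 0 := by
  intro hz
  obtain ⟨y, -, hy⟩ := h.low x hx
  rw [hz] at hy
  norm_num at hy

/-- On real points `‖Φ x y‖` is periodic (`Sy.sign`, `Sy.real`); reduce to the unit cube. -/
theorem Fm.bound (h : Fm T Φ) {K : Set (σ → ℂ)} (hK : K ⊆ T.X) (hc : IsCompact K) :
    ∃ C : ℝ, ∀ x ∈ K, ∀ y ∈ Rr T.e, ‖Φ x y‖ ^ 2 ≤ C := by
  have hf : Continuous fun t : Fin n ⊕ Fin n → ℝ => ∑ i, (t i : ℂ) • T.e i := by fun_prop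
  have hQ := hc.prod ((isCompact_Icc (a := 0) (b := 1)).image hf)
  obtain ⟨C, hC⟩ := hQ.exists_bound_of_continuousOn
    (h.an.continuousOn.mono (Set.prod_mono hK (Set.subset_univ _)))
  refine ⟨C ^ 2, fun x hx y hy => pow_le_pow_left₀ (norm_nonneg _) ?_ 2⟩
  choose t ht using hy
  have hl : ∑ i, ((⌊t i⌋ : ℤ) : ℂ) • T.e i ∈ Rz T.e := sum_mem fun i _ => Rz_basis _ i
  have h0 : ∑ i, ((Int.fract (t i) : ℝ) : ℂ) • T.e i ∈ Rr T.e := fun j =>
    ⟨Int.fract (t j), congrFun (T.e.repr_sum_self _) j⟩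
  obtain ⟨s, hs⟩ := T.sy.real (Rz_le_Rr hl) h0
  have h1 : ∑ i, ((Int.fract (t i) : ℝ) : ℂ) • T.e i + ∑ i, ((⌊t i⌋ : ℤ) : ℂ) • T.e i = y := by
    rw [← Finset.sum_add_distrib, ← T.e.sum_repr y]
    refine Finset.sum_congr rfl fun i _ => ?_
    rw [← add_smul, ht]
    congr 1
    exact_mod_cast Int.fract_add_floor (t i)
  have h2 := hC (x, _) ⟨hx, fun i => Int.fract (t i),
    ⟨fun i => Int.fract_nonneg _, fun i => (Int.fract_lt_one _).le⟩, rfl⟩
  have h3 : ‖S T.B (∑ i, ((⌊t i⌋ : ℤ) : ℂ) • T.e i) (Φ x)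
      (∑ i, ((Int.fract (t i) : ℝ) : ℂ) • T.e i)‖ = ‖Φ x y‖ := by
    rw [S, h1, hs, norm_mul, norm_exp]
    simp
  rw [← h3]
  rcases T.sy.sign (h.per x (hK hx)) hl with h4 | h4
  · rw [h4]; exact h2
  · rw [h4, norm_neg]; exact h2

theorem Fm.hh_one (h : Fm T Φ) (hx : x ∈ T.X) : 1 ≤ hh T.e (Φ x) := by
  obtain ⟨C, hC⟩ := h.bound (Set.singleton_subset_iff.2 hx) isCompact_singleton
  obtain ⟨y, hy, h1⟩ := h.low x hx
  refine le_csSup_of_le ⟨C, ?_⟩ ⟨y, hy, rfl⟩ (one_le_pow₀ h1)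
  rintro _ ⟨z, hz, rfl⟩
  exact hC x rfl z hz

theorem Fm.hh_le (h : Fm T Φ) {K : Set (σ → ℂ)} (hK : K ⊆ T.X) (hc : IsCompact K) :
    ∃ C : ℝ, ∀ x ∈ K, hh T.e (Φ x) ≤ C := by
  obtain ⟨C, hC⟩ := h.bound hK hc
  refine ⟨C, fun x hx => csSup_le ⟨_, 0, zero_mem _, rfl⟩ ?_⟩
  rintro _ ⟨z, hz, rfl⟩
  exact hC x hx z hz

/-! ### Block FC -/

section FC

variable {X : Set (σ → ℂ)} (hX : IsOpen X)
  (h : AnalyticOnNhd ℂ (fun q : (σ → ℂ) × V => Φ q.1 q.2) (X ×ˢ Set.univ))

omit [FiniteDimensional ℂ V] [DecidableEq σ]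

include h in
theorem fc_y (hx : x ∈ X) (y u : V) :
    fderiv ℂ (Φ x) y u = fderiv ℂ (fun q : (σ → ℂ) × V => Φ q.1 q.2) (x, y) (0, u) := by
  have := ((h (x, y) ⟨hx, trivial⟩).differentiableAt.hasFDerivAt.comp y
    (hasFDerivAt_prodMk_right x y)).fderiv
  exact congrArg (fun L : V →L[ℂ] ℂ => L u) this

include h in
theorem fc_x (hx : x ∈ X) (y : V) (w : σ → ℂ) :
    fderiv ℂ (fun x => Φ x y) x w = fderiv ℂ (fun q : (σ → ℂ) × V => Φ q.1 q.2) (x, y) (w, 0) := by
  have := (HasFDerivAt.comp (f := fun e => (e, y)) x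
    (h (x, y) ⟨hx, trivial⟩).differentiableAt.hasFDerivAt (hasFDerivAt_prodMk_left x y)).fderiv
  exact congrArg (fun L : (σ → ℂ) →L[ℂ] ℂ => L w) this

include h in
theorem fc_at (hx : x ∈ X) (y : V) : DifferentiableAt ℂ (fun x => Φ x y) x :=
  ((h (x, y) ⟨hx, trivial⟩).comp_of_eq (analyticAt_id.prod analyticAt_const) rfl).differentiableAt

include h in
theorem fc_en (hx : x ∈ X) : En (Φ x) := fun y _ =>
  (h (x, y) ⟨hx, trivial⟩).comp_of_eq (analyticAt_const.prod analyticAt_id) rfl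

include h in
theorem fc_d (w : (σ → ℂ) × V) : AnalyticOnNhd ℂ
    (fun q => fderiv ℂ (fun q : (σ → ℂ) × V => Φ q.1 q.2) q w) (X ×ˢ Set.univ) := fun q hq =>
  ((ContinuousLinearMap.apply ℂ ℂ w).analyticAt _).comp (h.fderiv q hq)

include hX h in
theorem fc_dy (u : V) :
    AnalyticOnNhd ℂ (fun q : (σ → ℂ) × V => fderiv ℂ (Φ q.1) q.2 u) (X ×ˢ Set.univ) :=
  (fc_d h (0, u)).congr (hX.prod isOpen_univ) fun q hq => (fc_y h hq.1 q.2 u).symm

include hX h in
theorem fc_dx (w : σ → ℂ) :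
    AnalyticOnNhd ℂ (fun q : (σ → ℂ) × V => fderiv ℂ (fun x => Φ x q.2) q.1 w) (X ×ˢ Set.univ) :=
  (fc_d h (w, 0)).congr (hX.prod isOpen_univ) fun q hq => (fc_x h hq.1 q.2 w).symm

include hX h in
theorem fc_symm (hx : x ∈ X) (w : σ → ℂ) (y u : V) :
    fderiv ℂ (fun x => fderiv ℂ (Φ x) y u) x w =
      fderiv ℂ (fun y => fderiv ℂ (fun x => Φ x y) x w) y u := by
  have hU := (hX.prod isOpen_univ).mem_nhds (show (x, y) ∈ X ×ˢ Set.univ from ⟨hx, trivial⟩)
  have key : ∀ a b : (σ → ℂ) × V, fderiv ℂ (fun q => fderiv ℂ (fun q : (σ → ℂ) × V => Φ q.1 q.2) q b) (x, y) a =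
      fderiv ℂ (fderiv ℂ fun q : (σ → ℂ) × V => Φ q.1 q.2) (x, y) a b := fun a b =>
    congrArg (fun L : (σ → ℂ) × V →L[ℂ] ℂ => L a) ((ContinuousLinearMap.apply ℂ ℂ b).hasFDerivAt.comp
      (x, y) (h.fderiv (x, y) ⟨hx, trivial⟩).differentiableAt.hasFDerivAt).fderiv
  rw [fc_x (Φ := fun x y => fderiv ℂ (Φ x) y u) (fc_dy hX h u) hx,
    fc_y (Φ := fun x y => fderiv ℂ (fun x => Φ x y) x w) (fc_dx hX h w) hx,
    Filter.EventuallyEq.fderiv_eq (mem_of_superset hU fun q hq => fc_y h hq.1 q.2 u),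
    Filter.EventuallyEq.fderiv_eq (mem_of_superset hU fun q hq => fc_x h hq.1 q.2 w), key, key]
  exact (h (x, y) ⟨hx, trivial⟩).contDiffAt.isSymmSndFDerivAt (n := ⊤) (by simp) _ _

end FC

theorem nabl_an {X : Set (σ → ℂ)} (hX : IsOpen X)
    (h : AnalyticOnNhd ℂ (fun q : (σ → ℂ) × V => Φ q.1 q.2) (X ×ˢ Set.univ)) (l : List V) :
    AnalyticOnNhd ℂ (fun q : (σ → ℂ) × V => nabl B l (Φ q.1) q.2) (X ×ˢ Set.univ) := by
  induction l with
  | nil => exact h
  | cons u l ih =>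
    exact (fc_dy (Φ := fun x => nabl B l (Φ x)) hX ih u).sub (AnalyticOnNhd.mul (fun q _ =>
      ((LinearMap.toContinuousLinearMap (B.flip u)).analyticAt _).comp analyticAt_snd) ih)

theorem dx_en {X : Set (σ → ℂ)} (hX : IsOpen X)
    (h : AnalyticOnNhd ℂ (fun q : (σ → ℂ) × V => Φ q.1 q.2) (X ×ˢ Set.univ)) (hx : x ∈ X) (w : σ → ℂ) :
    En fun y => fderiv ℂ (fun x => Φ x y) x w :=
  fc_en (Φ := fun x y => fderiv ℂ (fun x => Φ x y) x w) (fc_dx hX h w) hx

/-- Symmetry of the second derivative of the joint function. -/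
theorem dx_nabl {X : Set (σ → ℂ)} (hX : IsOpen X)
    (h : AnalyticOnNhd ℂ (fun q : (σ → ℂ) × V => Φ q.1 q.2) (X ×ˢ Set.univ)) (hx : x ∈ X) (w : σ → ℂ)
    (l : List V) (y : V) : fderiv ℂ (fun x => nabl B l (Φ x) y) x w =
      nabl B l (fun y => fderiv ℂ (fun x => Φ x y) x w) y := by
  induction l generalizing y with
  | nil => rfl
  | cons u l ih =>
    have h1 := nabl_an (B := B) hX h l
    have h2 := fc_at (Φ := fun x => nabl B l (Φ x)) h1 hx y
    have h3 := fc_at (Φ := fun x y => fderiv ℂ (nabl B l (Φ x)) y u)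
      (fc_dy (Φ := fun x => nabl B l (Φ x)) hX h1 u) hx y
    simp only [nabl, nab]
    rw [← funext ih, ← fc_symm (Φ := fun x => nabl B l (Φ x)) hX h1 hx,
      fderiv_fun_sub h3 (h2.const_mul _), fderiv_const_mul h2]
    rfl

/-- The heat equation. -/
theorem Fm.pde (h : Fm T Φ) (hx : x ∈ T.X) (a : σ) {ρ : ℂ} {ε ε' : V}
    (hv : ∀ j, ρ • T.g1 a j - (2 * T.B (gen T.g0 T.g1 x j) ε) • ε' -
      (2 * T.B (gen T.g0 T.g1 x j) ε') • ε ∈ T.F x) :
    ∃ s : ℂ, ∀ y, ρ * fderiv ℂ (fun x => Φ x y) x (Pi.single a 1) =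
      nab T.B ε (nab T.B ε' (Φ x)) y + s * Φ x y := by
  have hB := T.sy.alt
  have hE := fc_en h.an hx
  have hD := dx_en T.op h.an hx (Pi.single a 1)
  have hN : En (nab T.B ε (nab T.B ε' (Φ x))) := (hE.nab _).nab _
  have hz : ∀ x ∈ T.X, ∀ ν ∈ T.F x, ∀ y, nab T.B ν (Φ x) y = 0 := fun x hx ν hν y =>
    congrFun ((inv_iff hB (fc_en h.an hx)).1 (h.inv x hx) ν hν) y
  have hg : ∀ x ∈ T.X, ∀ j, gen T.g0 T.g1 x j ∈ T.F x := fun x hx j => by
    rw [T.span x hx]
    exact Submodule.subset_span ⟨j, rfl⟩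
  have h1 : ∀ j y, nab T.B (gen T.g0 T.g1 x j)
      (fun y => fderiv ℂ (fun x => Φ x y) x (Pi.single a 1)) y = -nab T.B (T.g1 a j) (Φ x) y := by
    intro j y
    have hl : ∀ u, HasDerivAt (fun t : ℂ => nab T.B u (Φ (x + t • (Pi.single a 1 : σ → ℂ))) y)
        (nab T.B u (fun y => fderiv ℂ (fun x => Φ x y) x (Pi.single a 1)) y) 0 := fun u => by
      have := (fc_at (Φ := fun x => nabl T.B [u] (Φ x)) (nabl_an T.op h.an [u]) hx
        y).hasFDerivAt.hasLineDerivAt (Pi.single a 1)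
      rwa [dx_nabl T.op h.an hx] at this
    have h2 := (hl (gen T.g0 T.g1 x j)).add ((hasDerivAt_id (0 : ℂ)).mul (hl (T.g1 a j)))
    have h3 : ∀ᶠ t : ℂ in 𝓝 0, x + t • (Pi.single a 1 : σ → ℂ) ∈ T.X :=
      (by fun_prop : Continuous fun t : ℂ => x + t • (Pi.single a 1 : σ → ℂ)).continuousAt.eventually
        (T.op.mem_nhds (by simpa using hx))
    have h4 := h2.unique ((hasDerivAt_const (0 : ℂ) (0 : ℂ)).congr_of_eventuallyEq
      (h3.mono fun t ht => by
        have e : gen T.g0 T.g1 (x + t • (Pi.single a 1 : σ → ℂ)) j =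
            gen T.g0 T.g1 x j + t • T.g1 a j := by
          simp only [gen, Pi.add_apply, Pi.smul_apply, Pi.single_apply, smul_eq_mul, mul_ite, mul_one, mul_zero, add_smul, ite_smul, zero_smul, Finset.sum_add_distrib, Finset.sum_ite_eq', Finset.mem_univ, ↓ reduceIte, add_assoc]
        have := hz _ ht _ (hg _ ht j) y
        rw [e, nab_add, nab_smul] at this
        exact this))
    simp only [id, zero_smul, add_zero, zero_mul, one_mul] at h4
    exact eq_neg_of_add_eq_zero_left h4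
  obtain ⟨s, hs⟩ := h.uniq x hx (fun y => ρ * fderiv ℂ (fun x => Φ x y) x (Pi.single a 1) +
      -1 * nab T.B ε (nab T.B ε' (Φ x)) y)
    ((analyticOnNhd_const.mul hD).add (analyticOnNhd_const.mul hN)) (by
      rw [T.span x hx]
      refine inv_span hB ((analyticOnNhd_const.mul hD).add (analyticOnNhd_const.mul hN)) ?_
      rintro _ ⟨j, rfl⟩
      funext y
      have e1 := congrFun (nabl_lin (B := T.B) hD hN ρ (-1) [gen T.g0 T.g1 x j]) y
      simp only [nabl] at e1
      have e2 := hz x hx _ (hv j) y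
      rw [sub_eq_add_neg, sub_eq_add_neg, ← neg_smul, ← neg_smul, nab_add, nab_add, nab_smul,
        nab_smul, nab_smul] at e2
      refine e1.trans ?_
      rw [h1, low_two hB hE (h.inv x hx) (hg x hx j), Pi.zero_apply]
      linear_combination -e2) fun i => by
      have e1 := S_nabl hB hE (T.e i) [ε, ε']
      rw [h.per x hx] at e1
      simp only [nabl] at e1
      rw [hb_S_lin, e1]
      funext y
      have e2 : (fun x => Φ x y) =ᶠ[𝓝 x] fun x => exp (-T.B (T.e i) y) * Φ x (y + T.e i) :=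
        mem_of_superset (T.op.mem_nhds hx) fun x hx => (congrFun (h.per x hx i) y).symm
      rw [e2.fderiv_eq, fderiv_const_mul (fc_at h.an hx _)]
      rfl
  exact ⟨s, fun y => by linear_combination congrFun hs y⟩

/-! ### Block FD -/

theorem fd_mem (e : Basis ι ℂ V) (i : ι) : e i ∈ Rz e := fun j => by
  classical
  refine ⟨if i = j then 1 else 0, ?_⟩
  rw [e.repr_self, Finsupp.single_apply]
  split_ifs <;> simp

theorem fd_nat {e : Basis ι ℂ V} {a : V} (h : a ∈ Rz e) (m : ℕ) : (m : ℂ) • a ∈ Rz e := by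
  rw [Nat.cast_smul_eq_nsmul]; exact nsmul_mem h m

theorem fd_zr {e : Basis ι ℂ V} {a : V} (h : a ∈ Rz e) : a ∈ Rr e := fun i => by
  obtain ⟨q, hq⟩ := h i
  exact ⟨q, by rw [hq]; simp⟩

theorem fd_smul {e : Basis ι ℂ V} {a : V} (h : a ∈ Rr e) (t : ℝ) : (t : ℂ) • a ∈ Rr e :=
  fun i => by
    obtain ⟨q, hq⟩ := h i
    exact ⟨t * q, by rw [map_smul, Finsupp.smul_apply, hq, smul_eq_mul, Complex.ofReal_mul]⟩

theorem fd_co (h : Sy B e) (z : V) (j : Fin n) :
    B z (e (.inr j)) = e.repr z (.inl j) * (Real.pi * I) ∧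
      B z (e (.inl j)) = -e.repr z (.inr j) * (Real.pi * I) := by
  have rl : ∀ i j, B (e (.inr i)) (e (.inl j)) = if i = j then -(Real.pi * I) else 0 := by
    intro i j
    rw [skew h.alt, h.lr]
    by_cases hij : i = j
    · simp [hij]
    · simp [hij, Ne.symm hij]
  constructor
  · conv_lhs => rw [← e.sum_repr z, map_sum, LinearMap.sum_apply, Fintype.sum_sum_type]
    simp only [map_smul, LinearMap.smul_apply, h.lr, smul_eq_mul, mul_ite, mul_zero, Finset.sum_ite_eq', Finset.mem_univ, ↓ reduceIte, h.rr, Finset.sum_const_zero, add_zero]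
  · conv_lhs => rw [← e.sum_repr z, map_sum, LinearMap.sum_apply, Fintype.sum_sum_type]
    simp only [map_smul, LinearMap.smul_apply, h.ll, smul_eq_mul, mul_zero, Finset.sum_const_zero, rl, mul_ite, mul_neg, Finset.sum_ite_eq', Finset.mem_univ, ↓ reduceIte, zero_add, neg_mul]

theorem fd_exp2 (m : ℤ) : exp (2 * (Real.pi * I * m)) = 1 := by
  rw [← Complex.exp_int_mul_two_pi_mul_I m]; congr 1; ring

theorem fd_inj (h : Sy B e) {γ : V →ₗ[ℂ] V} (iso : ∀ u v, B (γ u) (γ v) = B u v) :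
    Function.Surjective γ := by
  rw [← LinearMap.injective_iff_surjective, injective_iff_map_eq_zero]
  intro u hu
  refine h.nondeg fun v => ?_
  rw [← iso, hu]; simp only [map_zero, LinearMap.zero_apply]

/-- `γ` is injective (`Sy.nondeg`) and maps `Rz`, hence `Rr`, into itself. -/
theorem Tr.surj (h : Sy B e) {d : Fin 2 → V} {M : ℕ} {F F' : Submodule ℂ V} {γ : V →ₗ[ℂ] V}
    (hγ : Tr B e d M F F' γ) : γ '' (Rr e : Set V) = Rr e := by
  have h1 : ∀ i, γ (e i) ∈ Rr e := fun i => by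
    obtain ⟨l, hl, h1⟩ := hγ.cong _ (fd_mem e i)
    rw [h1]
    exact fd_zr (add_mem (fd_mem e i) (fd_nat hl M))
  have hπ : (Real.pi * I : ℂ) ≠ 0 := mul_ne_zero (by exact_mod_cast Real.pi_ne_zero) I_ne_zero
  apply Set.Subset.antisymm
  · rintro _ ⟨y, hy, rfl⟩
    choose t ht using hy
    rw [← e.sum_repr y, map_sum]
    refine sum_mem fun i _ => ?_
    rw [map_smul, ht]
    exact fd_smul (h1 i) _
  · intro y hy
    obtain ⟨z, rfl⟩ := fd_inj h hγ.iso y
    refine ⟨z, fun i => ?_, rfl⟩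
    rcases i with j | j
    · obtain ⟨t, ht⟩ := h.real hy (h1 (.inr j))
      rw [hγ.iso, (fd_co h z j).1] at ht
      exact ⟨t, mul_right_cancel₀ hπ (by rw [ht]; ring)⟩
    · obtain ⟨t, ht⟩ := h.real hy (h1 (.inl j))
      rw [hγ.iso, (fd_co h z j).2] at ht
      exact ⟨-t, mul_right_cancel₀ hπ (by push_cast; linear_combination -ht)⟩

/-- `uniq` for `Φ x' ∘ γ` (`Sy.two`, `S_S`, `Sy.int`). -/
theorem Fm.mod (h : Fm T Φ) (hx : x ∈ T.X) (hx' : x' ∈ T.X) {M : ℕ} {γ : V →ₗ[ℂ] V}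
    (hγ : Tr T.B T.e T.d (2 * M) (T.F x) (T.F x') γ) :
    ∃ c : ℂ, c ≠ 0 ∧ ∀ y, Φ x' (γ y) = c * Φ x y := by
  have en' := h.en hx'
  obtain ⟨c, hc⟩ := h.uniq x hx (fun y => Φ x' (γ y))
    (fun y _ => (en' (γ y) trivial).comp ((LinearMap.toContinuousLinearMap γ).analyticAt y))
    (fun ν hν y => by
      simp only [map_add]
      rw [h.inv x' hx' _ (hγ.map ν hν), hγ.iso])
    (fun i => by
      obtain ⟨a, ha, h0⟩ := hγ.cong _ (fd_mem T.e i)
      have ha' := fd_nat ha M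
      have h' : γ (T.e i) = T.e i + (2 : ℂ) • (M : ℂ) • a := by
        rw [h0, smul_smul]; push_cast; rfl
      obtain ⟨m, hm⟩ := T.sy.int (fd_mem T.e i) ha'
      have h1 := S_S T.sy.alt (T.e i) ((2 : ℂ) • (M : ℂ) • a) (Φ x')
      rw [T.sy.two (h.per x' hx') ha', h.per x' hx', map_smul, hm, smul_eq_mul, fd_exp2,
        ← h'] at h1
      funext y
      have h2 := congrFun h1 (γ y)
      simp only [S, map_add, one_mul] at h2 ⊢
      rw [hγ.iso] at h2
      exact h2.symm)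
  refine ⟨c, fun h0 => h.ne hx' ?_, congrFun hc⟩
  funext y
  obtain ⟨z, rfl⟩ := fd_inj T.sy hγ.iso y
  have := congrFun hc z
  simpa [h0] using this

/-- `γ v = v + 2 N l`; `nabl_comp`, `S_nabl`, `Sy.two`, `Sy.int`. -/
theorem Fm.mod_val (h : Fm T Φ) (hx : x ∈ T.X) (hx' : x' ∈ T.X) {N : ℕ} (hN : 0 < N)
    {γ : V →ₗ[ℂ] V} (hγ : Tr T.B T.e T.d (2 * N ^ 2) (T.F x) (T.F x') γ) {c : ℂ}
    (hc : ∀ y, Φ x' (γ y) = c * Φ x y) {v : V} (hv : (N : ℂ) • v ∈ Rz T.e) (l : List V) :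
    nabl T.B (l.map γ) (Φ x') v = c * nabl T.B l (Φ x) v := by
  have en := h.en hx
  have en' := h.en hx'
  obtain ⟨a, ha, h0⟩ := hγ.cong _ hv
  have hN' : (N : ℂ) ≠ 0 := by exact_mod_cast hN.ne'
  have h1 : γ v = v + (2 : ℂ) • (N : ℂ) • a := by
    apply smul_right_injective V hN'
    simp only
    rw [← map_smul, h0, smul_add, smul_smul, smul_smul]
    congr 2; push_cast; ring
  have hBg : T.B.compl₁₂ γ γ = T.B := by
    ext y y'; exact hγ.iso y y'
  have h2 := nabl_comp (B := T.B) γ en' l v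
  have h3 := congrFun (S_nabl T.sy.alt en' ((2 : ℂ) • (N : ℂ) • a) (l.map γ)) v
  obtain ⟨m, hm⟩ := T.sy.int ha hv
  have h4 : -T.B ((2 : ℂ) • (N : ℂ) • a) v = 2 * (Real.pi * I * ((-m : ℤ) : ℂ)) := by
    simp only [map_smul, LinearMap.smul_apply, smul_eq_mul] at hm ⊢
    rw [hm]; push_cast; ring
  rw [T.sy.two (h.per x' hx') (fd_nat ha N)] at h3
  simp only [S] at h3
  rw [h4, fd_exp2, one_mul, ← h1] at h3
  rw [hBg, funext hc, h3] at h2
  rw [← h2]
  have h5 := congrFun (nabl_lin (B := T.B) en en c 0 l) v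
  simpa using h5

theorem Fm.sec_an (h : Fm T Φ) (v : Fin 5 → V) (j : Fin 4) :
    AnalyticOnNhd ℂ (sec T Φ v j) T.X := by
  have a : ∀ (l : List V) (y : V), AnalyticOnNhd ℂ (fun x => nabl T.B l (Φ x) y) T.X :=
    fun l y x hx => (nabl_an (B := T.B) T.op h.an l (x, y) ⟨hx, trivial⟩).comp₂ analyticAt_id
      analyticAt_const
  fin_cases j
  · exact (a [] _).mul (a [] _)
  · exact (a [] _).mul (a [] _)
  · exact (a [] _).mul (a [] _)
  · exact ((a [_] _).mul (a [_] _)).sub ((a [_] _).mul (a [_] _))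

theorem fd_hh (hs : Sy B e) {d : Fin 2 → V} {M : ℕ} {F F' : Submodule ℂ V} {γ : V →ₗ[ℂ] V}
    (hγ : Tr B e d M F F' γ) {c : ℂ} (hc : ∀ y, G' (γ y) = c * G y) :
    hh e G' = ‖c ^ 2‖ * hh e G := by
  unfold hh
  conv_lhs => rw [← hγ.surj hs, Set.image_image]
  rw [← smul_eq_mul, ← Real.sSup_smul_of_nonneg (norm_nonneg _), ← Set.image_smul,
    Set.image_image]
  simp only [hc, norm_mul, mul_pow, norm_pow, smul_eq_mul]

/-- `siegel` with `hh`, `coc` for `M = 2 N ^ 2`. -/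
theorem Fm.rel {T : Dat V n J (Fin 2)} {Φ : (Fin 2 → ℂ) → V → ℂ} (h : Fm T Φ) {v : Fin 5 → V} (hv : ∀ i, v i ∈ Rq T.e) :
    ∃ Q : MvPolynomial (Fin 3) ℂ, Q ≠ 0 ∧ ∀ x ∈ T.X, sec T Φ v 0 x ≠ 0 →
      MvPolynomial.eval (fun j => sec T Φ v j.succ x / sec T Φ v 0 x) Q = 0 := by
  obtain ⟨N, hN, hv⟩ : ∃ N : ℕ, 0 < N ∧ ∀ i, (N : ℂ) • v i ∈ Rz T.e := by
    choose N h0 hN using fun i => exists_den (hv i)
    refine ⟨∏ j, N j, Finset.prod_pos fun j _ => h0 j, fun j => ?_⟩
    rw [← Finset.prod_erase_mul _ _ (Finset.mem_univ j), Nat.cast_mul, mul_smul]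
    exact fd_nat (hN j) _
  obtain ⟨K, hKX, hK, hq⟩ := T.coc (2 * N ^ 2) (by positivity)
  refine siegel (h := fun x => hh T.e (Φ x)) T.op hK hKX (h.sec_an v) (fun x hx => h.hh_one hx)
    (fun K' h1 h2 => h.hh_le h1 h2) fun x hx => ?_
  obtain ⟨x', hx', γ, hγ⟩ := hq x hx
  obtain ⟨c, hc0, hc⟩ := h.mod hx (hKX hx') hγ
  have h0 : ∀ j, Φ x' (v j) = c * Φ x (v j) := fun j =>
    h.mod_val hx (hKX hx') hN hγ hc (hv j) []
  have h1 : ∀ k j, nab T.B (γ (T.d k)) (Φ x') (v j) = c * nab T.B (T.d k) (Φ x) (v j) :=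
    fun k j => h.mod_val hx (hKX hx') hN hγ hc (hv j) [T.d k]
  refine ⟨x', hx', c ^ 2, pow_ne_zero 2 hc0, fun j => ?_, fd_hh T.sy hγ hc⟩
  fin_cases j
  · simp only [sec, Fin.zero_eta, Matrix.cons_val_zero, h0]; ring
  · simp only [sec, Fin.mk_one, Matrix.cons_val_one, Matrix.cons_val_zero, h0]; ring
  · simp only [sec, Fin.reduceFinMk, Matrix.cons_val, h0]; ring
  · simp only [sec, Fin.reduceFinMk, Matrix.cons_val]
    obtain ⟨m, hd, hm⟩ := hγ.det
    rw [Matrix.det_fin_two] at hd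
    simp only [hm, Fin.sum_univ_two, nab_add, nab_smul] at h1
    have e3 : ∀ a b a' b' : ℂ, c ^ 2 * (a * b - a' * b') = c * a * (c * b) - c * a' * (c * b') :=
      fun _ _ _ _ => by ring
    rw [e3, ← h1 0 3, ← h1 1 4, ← h1 1 3, ← h1 0 4]
    linear_combination (-(nab T.B (T.d 0) (Φ x') (v 3) * nab T.B (T.d 1) (Φ x') (v 4) -
      nab T.B (T.d 1) (Φ x') (v 3) * nab T.B (T.d 0) (Φ x') (v 4))) * hd

/-! ### Block FE -/

omit [FiniteDimensional ℂ V] in
theorem fe_rz (e : Basis ι ℂ V) (i : ι) : e i ∈ Rz e := fun j => by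
  classical
  exact ⟨if i = j then 1 else 0, by simp [Finsupp.single_apply]⟩

omit [FiniteDimensional ℂ V] in
theorem fe_rq (e : Basis ι ℂ V) (i : ι) : e i ∈ Rq e := fun j =>
  (fe_rz e i j).elim fun q hq => ⟨q, hq.trans (Rat.cast_intCast q).symm⟩

theorem fe_an (h : Fm T Φ) (hx : x ∈ T.X) (l : List V) (r : V) :
    AnalyticAt ℂ (fun x => nabl T.B l (Φ x) r) x :=
  (nabl_an T.op h.an l (x, r) ⟨hx, trivial⟩).comp_of_eq (analyticAt_id.prod analyticAt_const) rfl

/-- `Th.eig` (the dual of `e (inl i)` is `e (inr i)`, the dual of `e (inr i)` is `-e (inl i)`),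
`uniq`. -/
theorem Pt.alg (h : Fm T Φ) {c : ℂ} (p : Pt T c) : ∃ c₀ : ℂ, c₀ ≠ 0 ∧ ∀ r ∈ Rq T.e, ∀ l : List V,
    (∀ u ∈ l, u ∈ p.D) → IsAlgebraic ℚ (c₀ * nabl T.B l (Φ p.x) r) := by
  obtain ⟨G, h0, hG, hS⟩ := Th.eig T.sy.rt (e := T.e)
    (e' := Sum.elim (fun i => T.e (.inr i)) fun i => -T.e (.inl i)) (fe_rq T.e)
    (by
      rintro (i | i)
      · exact fe_rq T.e _
      · exact neg_mem (fe_rq T.e _))
    (by
      rintro (i | i) (j | j)
      · simp [T.sy.lr]
      · simp only [Sum.elim_inr, map_neg, T.sy.ll, neg_zero, reduceCtorEq, ↓ reduceIte]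
      · simp [T.sy.rr]
      · simp only [Sum.elim_inr, map_neg, skew T.sy.alt (T.e (.inl j)) (T.e (.inr i)), T.sy.lr, eq_comm, neg_neg, Sum.inr.injEq])
    (fun i j => T.sy.int (fe_rz T.e i) (fe_rz T.e j)) p.th p.ne
  obtain ⟨a, rfl⟩ := h.uniq p.x p.mem G hG.en hG.inv hS
  refine ⟨a, fun ha => h0 (funext fun y => by simp [ha]), fun r hr l hl => ?_⟩
  have e1 := congrFun (nabl_lin (B := T.B) (h.en p.mem) (h.en p.mem) a 0 l) r
  simp only [zero_mul, add_zero] at e1
  exact e1 ▸ hG.alg r hr l hl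

/-- The quotients `nabl l Φ r / Φ v₀`. -/
def Pt.Q {c : ℂ} (p : Pt T c) (Φ : (σ → ℂ) → V → ℂ) (v₀ : V) : Set ((σ → ℂ) → ℂ) :=
  {f | ∃ r ∈ Rq T.e, ∃ l : List V, (∀ u ∈ l, u ∈ p.D) ∧
    f = fun x => nabl T.B l (Φ x) r / Φ x v₀}

/-- The derivative of a quotient (`dx_nabl`, `Fm.pde`, `nabl_lin`, `nabl_append`). -/
theorem Pt.der (h : Fm T Φ) {c : ℂ} (p : Pt T c) (hx : x ∈ T.X) {v₀ : V} (h0 : Φ x v₀ ≠ 0)
    (a : σ) (r : V) (l : List V) :
    p.ρ a x * fderiv ℂ (fun x => nabl T.B l (Φ x) r / Φ x v₀) x (Pi.single a 1) =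
      nabl T.B (l ++ [p.ε a, p.ε' a]) (Φ x) r / Φ x v₀ -
        nabl T.B l (Φ x) r / Φ x v₀ * (nabl T.B [p.ε a, p.ε' a] (Φ x) v₀ / Φ x v₀) := by
  obtain ⟨s, hs⟩ := h.pde hx a (p.vec x hx a)
  have hE := h.en hx
  have hD := dx_en T.op h.an hx (Pi.single a 1)
  have key : ∀ l r, p.ρ a x * fderiv ℂ (fun x => nabl T.B l (Φ x) r) x (Pi.single a 1) =
      nabl T.B (l ++ [p.ε a, p.ε' a]) (Φ x) r + s * nabl T.B l (Φ x) r := fun l r => by
    have e1 := congrFun (nabl_lin (B := T.B) hD hD (p.ρ a x) 0 l) r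
    have e2 := congrFun (nabl_lin (B := T.B) (hE.nabl (B := T.B) [p.ε a, p.ε' a]) hE 1 s l) r
    simp only [zero_mul, add_zero, one_mul, hs] at e1 e2
    rw [dx_nabl T.op h.an hx, nabl_append, ← e1, ← e2]
    rfl
  have d1 := (fe_an h hx l r).differentiableAt.hasFDerivAt.hasLineDerivAt (Pi.single a 1)
  have d2 := (fe_an h hx [] v₀).differentiableAt.hasFDerivAt.hasLineDerivAt (Pi.single a 1)
  have d3 := ((fe_an h hx l r).fun_div (fe_an h hx [] v₀) h0).differentiableAt.hasFDerivAt.hasLineDerivAt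
    (Pi.single a 1)
  have e3 := HasDerivAt.unique d3 (HasDerivAt.fun_div d1 d2 (by simpa [nabl] using h0))
  have k1 := key l r
  have k2 := key [] v₀
  simp only [zero_smul, add_zero, List.nil_append] at e3 k2
  change _ = _ + s * Φ x v₀ at k2
  change fderiv ℂ (fun x => nabl T.B l (Φ x) r / Φ x v₀) x _ = (_ * Φ x v₀ - _) / Φ x v₀ ^ 2 at e3
  rw [e3]
  field_simp
  linear_combination Φ x v₀ * k1 - nabl T.B l (Φ x) r * k2

theorem Pt.jet (h : Fm T Φ) {c : ℂ} (p : Pt T c) {v₀ : V} (hv : v₀ ∈ Rq T.e)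
    (h0 : Φ p.x v₀ ≠ 0) : Jet p.x (p.Q Φ v₀) := by
  obtain ⟨a, ha, hA⟩ := p.alg h
  refine ⟨p.ρ, fun i => ⟨p.ρ_an i _, p.ρ_ne i⟩, ?_⟩
  rintro _ ⟨r, hr, l, hl, rfl⟩
  refine ⟨(fe_an h p.mem l r).fun_div (fe_an h p.mem [] v₀) h0, ?_, fun i => ⟨_, sub_mem
    (Algebra.subset_adjoin ⟨r, hr, l ++ [p.ε i, p.ε' i], ?_, rfl⟩) (mul_mem
      (Algebra.subset_adjoin ⟨r, hr, l, hl, rfl⟩)
      (Algebra.subset_adjoin ⟨v₀, hv, [p.ε i, p.ε' i], ?_, rfl⟩)), ?_⟩⟩
  · have := (hA r hr l hl).mul (hA v₀ hv [] (by simp)).inv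
    rwa [← div_eq_mul_inv, mul_div_mul_left _ _ ha] at this
  · simpa only [List.mem_append, List.mem_cons, List.not_mem_nil, or_false, or_imp, forall_and, forall_eq, p.ε_mem, p.ε'_mem, and_self, and_true] using hl
  · simp [p.ε_mem, p.ε'_mem]
  · filter_upwards [T.op.mem_nhds p.mem,
      (fe_an h p.mem [] v₀).continuousAt.eventually_ne h0] with y hy hy0
    exact p.der h hy hy0 i r l

theorem Pt.sec_mem (h : Fm T Φ) {c : ℂ} (p : Pt T c) {v : Fin 5 → V} (hv : ∀ i, v i ∈ Rq T.e)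
    (h0 : Φ p.x (v 0) ≠ 0) :
    (∃ f ∈ Algebra.adjoin (algebraicClosure ℚ ℂ) (p.Q Φ (v 0)),
      (fun y => sec T Φ v 1 y / sec T Φ v 0 y) =ᶠ[𝓝 p.x] f) ∧
    (∃ f ∈ Algebra.adjoin (algebraicClosure ℚ ℂ) (p.Q Φ (v 0)),
      (fun y => sec T Φ v 2 y / sec T Φ v 0 y) =ᶠ[𝓝 p.x] f) ∧
    ∃ f ∈ Algebra.adjoin (algebraicClosure ℚ ℂ) (p.Q Φ (v 0)),
      (fun y => sec T Φ v 3 y / sec T Φ v 0 y) =ᶠ[𝓝 p.x] fun y => c * f y := by
  have hq : ∀ (i : Fin 5) (l : List V), (∀ u ∈ l, u ∈ p.D) →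
      (fun x => nabl T.B l (Φ x) (v i) / Φ x (v 0)) ∈
        Algebra.adjoin (algebraicClosure ℚ ℂ) (p.Q Φ (v 0)) := fun i l hl =>
    Algebra.subset_adjoin ⟨_, hv i, l, hl, rfl⟩
  have hd : ∀ i k, _ := fun i k => hq i [p.δ k] (by simp [p.δ_mem])
  have hn := (fe_an h p.mem [] (v 0)).continuousAt.eventually_ne h0
  refine ⟨⟨_, hq 1 [] (by simp), hn.mono fun y hy => mul_div_mul_right _ _ hy⟩,
    ⟨_, hq 2 [] (by simp), hn.mono fun y hy => mul_div_mul_right _ _ hy⟩,
    _, sub_mem (mul_mem (hd 3 0) (hd 4 1)) (mul_mem (hd 3 1) (hd 4 0)), hn.mono fun y hy => ?_⟩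
  change Φ y (v 0) ≠ 0 at hy
  simp only [sec, nabl, p.hm, Fin.sum_univ_two, nab_add, nab_smul, ← p.det, Matrix.det_fin_two,
    Matrix.cons_val, Pi.sub_apply, Pi.mul_apply]
  field_simp
  ring

/-! ### Block FF -/

theorem ff_sum {κ : Type} (s : Finset κ) {A : κ → V → ℂ} (h : ∀ a, En (A a)) (c : κ → ℂ)
    (l : List V) : En (fun y => ∑ a ∈ s, c a * A a y) ∧
      nabl B l (fun y => ∑ a ∈ s, c a * A a y) = fun y => ∑ a ∈ s, c a * nabl B l (A a) y := by
  classical
  induction s using Finset.induction_on with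
  | empty =>
    refine ⟨by simpa using analyticOnNhd_const, ?_⟩
    have := nabl_lin (B := B) (G := fun _ : V => 0) (G' := fun _ => 0) analyticOnNhd_const
      analyticOnNhd_const 0 0 l
    simpa using this
  | insert a s ha ih =>
    simp only [Finset.sum_insert ha]
    refine ⟨(analyticOnNhd_const.mul (h a)).add ih.1, ?_⟩
    have := nabl_lin (B := B) (h a) ih.1 (c a) 1 l
    simpa only [one_mul, ih.2] using this

theorem ff_four (hB : ∀ v, B v v = 0) {F : Submodule ℂ V} (h : En G) (hF : Inv B F G) {ν ν' : V}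
    (hν : ν ∈ F) (hν' : ν' ∈ F) (u u' : V) (a b : ℂ) :
    nabl B [ν, ν'] (fun y => a * nab B u (nab B u' G) y + b * G y) =
      fun y => 4 * a * (B ν u * B ν' u' + B ν u' * B ν' u) * G y := by
  rw [nabl_lin ((h.nab u').nab u) h]
  have e1 := nabl_lin (B := B) (h.nab (B := B) u') (h.nab (B := B) u) (-(2 * B ν' u))
    (-(2 * B ν' u')) [ν]
  have e2 := nabl_lin (B := B) h h 0 0 [ν]
  simp only [nabl, zero_mul, add_zero] at e1 e2 ⊢
  have e3 : nab B ν' (nab B u (nab B u' G)) =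
      fun y => -(2 * B ν' u) * nab B u' G y + -(2 * B ν' u') * nab B u G y := by
    rw [low_two hB h hF hν']
    funext y
    ring
  rw [e3, e1, low_one hB h hF hν, low_one hB h hF hν, (inv_iff hB h).1 hF ν' hν']
  funext y
  have e4 : nab B ν (0 : V → ℂ) y = 0 := congrFun e2 y
  rw [e4]
  ring

/-- The functions `A a y = nab ε (nab ε' Φ) y * Φ v₀ - Φ y * nab ε (nab ε' Φ) v₀` are independent:
apply `nab (ν a) (nab (ν' a) ·)` (`low_two`, `low_one`, `tab`); `den_det`, `Pt.der` with `l = []`;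
a linear map with nonzero determinant is onto. -/
theorem Pt.indep (h : Fm T Φ) {c : ℂ} (p : Pt T c) {v₀ : V} (h0 : Φ p.x v₀ ≠ 0) :
    ∃ v : σ → V, (∀ a, v a ∈ Rq T.e) ∧
      Function.Surjective (fderiv ℂ (fun x a => Φ x (v a) / Φ x v₀) p.x) := by
  have en := h.en p.mem
  obtain ⟨A, hA⟩ : ∃ A : σ → V → ℂ, A = fun a y =>
      (Φ p.x v₀)⁻¹ * nab T.B (p.ε a) (nab T.B (p.ε' a) (Φ p.x)) y +
        -(nab T.B (p.ε a) (nab T.B (p.ε' a) (Φ p.x)) v₀ / Φ p.x v₀ / Φ p.x v₀) * Φ p.x y :=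
    ⟨_, rfl⟩
  have hen : ∀ a, En (A a) := fun a => by
    rw [hA]
    exact (analyticOnNhd_const.mul ((en.nab _).nab _)).add (analyticOnNhd_const.mul en)
  have hi : LinearIndependent ℂ A := by
    refine Fintype.linearIndependent_iff.2 fun g hg a => ?_
    have e0 : (fun y => ∑ b, g b * A b y) = fun y => ∑ b ∈ (∅ : Finset σ), g b * A b y := by
      funext y
      simpa only [Finset.sum_empty, Finset.sum_apply, Pi.smul_apply, smul_eq_mul, Pi.zero_apply] using congrFun hg y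
    have e1 := (ff_sum (B := T.B) Finset.univ hen g [p.ν a, p.ν' a]).2
    rw [e0, (ff_sum (B := T.B) ∅ hen g _).2] at e1
    have e2 := congrFun e1 v₀
    rw [Finset.sum_empty, Finset.sum_eq_single a (fun b _ hb => ?_) (by simp only [Finset.mem_univ, not_true_eq_false, mul_eq_zero, IsEmpty.forall_iff])] at e2
    · rw [hA, ff_four T.sy.alt en (h.inv _ p.mem) (p.ν_mem a) (p.ν'_mem a)] at e2
      have e3 := mt (p.tab a a).1 fun c => c rfl
      simpa [h0, e3] using e2.symm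
    · rw [hA, ff_four T.sy.alt en (h.inv _ p.mem) (p.ν_mem a) (p.ν'_mem a)]
      simp [(p.tab a b).2 hb.symm]
  obtain ⟨v, hv, hd⟩ := den_det hen hi
  refine ⟨v, hv, ?_⟩
  have an : ∀ y, AnalyticAt ℂ (fun x => Φ x y) p.x := fun y =>
    AnalyticAt.comp (g := fun q : (σ → ℂ) × V => Φ q.1 q.2) (f := fun x => (x, y))
      (h.an _ ⟨p.mem, trivial⟩) (analyticAt_id.prod analyticAt_const)
  have dq : ∀ a, DifferentiableAt ℂ (fun x => Φ x (v a) / Φ x v₀) p.x := fun a =>
    ((an (v a)).fun_div (an v₀) h0).differentiableAt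
  obtain ⟨L, hL⟩ : ∃ L, L = fderiv ℂ (fun x a => Φ x (v a) / Φ x v₀) p.x := ⟨_, rfl⟩
  have e : ∀ a b, p.ρ a p.x * L (Pi.single a 1) b = A a (v b) := fun a b => by
    have := p.der h p.mem h0 a (v b) []
    simp only [nabl, List.nil_append] at this
    rw [hL, fderiv_pi dq, ContinuousLinearMap.pi_apply, this, hA]
    field_simp
    ring
  rw [← hL]
  intro w
  obtain ⟨z, hz⟩ := Matrix.vecMul_surjective_iff_isUnit.2
    ((Matrix.isUnit_iff_isUnit_det _).2 hd.isUnit) w
  refine ⟨∑ a, (z a * p.ρ a p.x) • Pi.single a 1, ?_⟩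
  funext b
  rw [← hz]
  simp only [map_sum, map_smul, Finset.sum_apply, Pi.smul_apply, smul_eq_mul, mul_assoc, Matrix.vecMul, dotProduct, ← e, Matrix.of_apply]

/-- `low_one`, `tabκ`, `den_two`. -/
theorem Pt.det_ne (h : Fm T Φ) {c : ℂ} (p : Pt T c) : ∃ v₃ ∈ Rq T.e, ∃ v₄ ∈ Rq T.e,
    nab T.B (T.d 0) (Φ p.x) v₃ * nab T.B (T.d 1) (Φ p.x) v₄ -
      nab T.B (T.d 1) (Φ p.x) v₃ * nab T.B (T.d 0) (Φ p.x) v₄ ≠ 0 := by
  have en := h.en p.mem
  refine den_two (en.nab _) (en.nab _) fun a b hab => ?_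
  obtain ⟨y, hy⟩ := Function.ne_iff.1 (h.ne p.mem)
  have key : ∀ k, a * T.B (p.κ k) (T.d 0) + b * T.B (p.κ k) (T.d 1) = 0 := fun k => by
    have e1 := nabl_lin (B := T.B) (en.nab (B := T.B) (T.d 0)) (en.nab (B := T.B) (T.d 1)) a b
      [p.κ k]
    have e2 := nabl_lin (B := T.B) en en 0 0 [p.κ k]
    simp only [nabl, zero_mul, add_zero] at e1 e2
    rw [hab, low_one T.sy.alt en (h.inv _ p.mem) (p.κ_mem k),
      low_one T.sy.alt en (h.inv _ p.mem) (p.κ_mem k)] at e1
    have e3 : nab T.B (p.κ k) (0 : V → ℂ) y = 0 := congrFun e2 y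
    have e4 := congrFun e1 y
    rw [e3] at e4
    refine (mul_eq_zero.1 (show _ * Φ p.x y = 0 by linear_combination (1 / 2 : ℂ) * e4)).resolve_right hy
  have k0 := key 0
  have k1 := key 1
  rw [(p.tabκ 0 1).2 (by decide), mul_zero, add_zero] at k0
  rw [(p.tabκ 1 0).2 (by decide), mul_zero, zero_add] at k1
  exact ⟨(mul_eq_zero.1 k0).resolve_right (mt (p.tabκ 0 0).1 fun c => c rfl),
    (mul_eq_zero.1 k1).resolve_right (mt (p.tabκ 1 1).1 fun c => c rfl)⟩

/-- `exists_fm`, `den` for the product `Φ x₁ * Φ x₂` (`En.mul_ne`), `Pt.indep`, `Pt.det_ne`,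
`Fm.rel`, `Pt.jet`, `Pt.sec_mem`, `descent`. -/
theorem core (T : Dat V n J (Fin 2)) {c₁ c₂ : ℂ} (h₁ : c₁ ≠ 0) (p₁ : Pt T c₁) (p₂ : Pt T c₂) :
    IsAlgebraic ℚ (c₂ / c₁) := by
  obtain ⟨Φ, h⟩ := exists_fm T
  obtain ⟨v₀, hv₀, h0⟩ := den ((h.en p₁.mem).mul (h.en p₂.mem))
    (En.mul_ne (h.en p₁.mem) (h.en p₂.mem) (h.ne p₁.mem) (h.ne p₂.mem))
  obtain ⟨a1, a2⟩ := mul_ne_zero_iff.1 h0
  obtain ⟨w, hw, hJ⟩ := p₁.indep h a1
  obtain ⟨v₃, h₃, v₄, h₄, hd⟩ := p₁.det_ne h
  obtain ⟨v, hv⟩ : ∃ v : Fin 5 → V, v = ![v₀, w 0, w 1, v₃, v₄] := ⟨_, rfl⟩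
  have e0 : v 0 = v₀ := hv ▸ rfl
  have hr : ∀ i, v i ∈ Rq T.e := fun i => by
    rw [hv]
    fin_cases i
    exacts [hv₀, hw 0, hw 1, h₃, h₄]
  obtain ⟨Q, hQ, hQ0⟩ := h.rel hr
  have s1 := p₁.sec_mem h hr (e0 ▸ a1)
  have s2 := p₂.sec_mem h hr (e0 ▸ a2)
  refine descent (x := ![p₁.x, p₂.x]) (S := ![p₁.Q Φ (v 0), p₂.Q Φ (v 0)]) (c := ![c₁, c₂])
    T.cv.isPreconnected (h.sec_an v) hQ hQ0 T.op (Fin.forall_fin_two.2 ⟨p₁.mem, p₂.mem⟩)
    (Fin.forall_fin_two.2 ⟨mul_self_ne_zero.2 (e0 ▸ a1), mul_self_ne_zero.2 (e0 ▸ a2)⟩)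
    (Fin.forall_fin_two.2 ⟨p₁.jet h (hr 0) (e0 ▸ a1), p₂.jet h (hr 0) (e0 ▸ a2)⟩) h₁
    (Fin.forall_fin_two.2 ⟨s1.1, s2.1⟩) (Fin.forall_fin_two.2 ⟨s1.2.1, s2.2.1⟩)
    (Fin.forall_fin_two.2 ⟨s1.2.2, s2.2.2⟩) ?_ (by rw [hv]; exact hd)
  have an : ContinuousAt (fun x => Φ x v₀) p₁.x :=
    (AnalyticAt.comp (g := fun q : (Fin 2 → ℂ) × V => Φ q.1 q.2) (f := fun x => (x, v₀))
      (h.an _ ⟨p₁.mem, trivial⟩) (analyticAt_id.prod analyticAt_const)).continuousAt
  have e : (fun y => (![sec T Φ v 1 y / sec T Φ v 0 y, sec T Φ v 2 y / sec T Φ v 0 y] :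
      Fin 2 → ℂ)) =ᶠ[𝓝 p₁.x] fun x a => Φ x (w a) / Φ x v₀ := by
    filter_upwards [an.eventually_ne a1] with y hy
    funext a
    rw [hv]
    fin_cases a <;> exact mul_div_mul_right _ _ hy
  rw [← e.fderiv_eq (𝕜 := ℂ)] at hJ
  exact hJ

end GPCW

end
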