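import Pool.Agent.MP_57341d_ag.HW.Abs
import Pool.Agent.MP_57341d_ag.H42.Eig
import Pool.Agent.MP_57341d_ag.H96.Defs

attribute [-instance] SubmoduleClass.module instNonUnitalAlgHomClassOfNonUnitalAlgEquivClass
  RightPreLieAlgebra.toModule LeftPreLieAlgebra.toModule SetLike.GradeZero.instCommSemiring
  IsAffineAddMonoid.mk SetLike.GradeZero.instSemiring CoalgHomClass.toSemilinearMapClass
  LieAlgebra.toModule ContinuousSemilinearEquivClass.continuousSemilinearMapClass
  NonarchimedeanRing.toIsTopologicalRing IsTopologicalTorsor.toContinuousSMul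
  MonTypeEquivalenceMon.monMonoid IsPurelyInseparable.instOfHasExponent
  RingHomClass.toLinearMapClassNNRat SubalgebraClass.toAlgebra instCoeTCOfCoe
  PositiveLinearMap.instContinuousLinearMapClassComplexOfLinearMapClassOfOrderHomClass
  ProperSMul.toContinuousSMul SetLike.GradeZero.instCommRing SubringClass.toSeminormedCommRing
  Algebra.WeaklyEtale.flat SetLike.GradeZero.instRing SemilinearIsometryClass.toSemilinearMapClass
  Valued.isTopologicalDivisionRing AlgHom.instContinuousLinearMapClassOfAlgHomClass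
  Algebra.Smooth.flat StarSubalgebra.cstarAlgebra NonarchimedeanAddGroup.toIsTopologicalAddGroup
  SemilatticeInf.toPartialOrder GrpTypeEquivalenceGrp.grpGroup RingHomClass.toLinearMapClassRat
  BialgHomClass.toAlgHomClass IdemSemiring.toCanonicallyOrderedAdd Valued.toUniformSpace
  NonUnitalNonAssocRing.toAddCommGroup SubmoduleClass.toNormedSpace Algebra.IsFiniteSplit.instFree
  AddQuantale.instAddLeftMono SemilinearIsometryClass.toContinuousSemilinearMapClass
  NonUnitalStarSubalgebra.nonUnitalCStarAlgebra CommRing.Pic.instFreeOfSubsingleton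
  Fintype.decidableExistsFintype NumberField.instFiniteDimensional
  MulRingSeminormClass.toMonoidWithZeroHomClass IntermediateField.algebra'
  Algebra.Generators.instRing littleWedderburn
  NonUnitalAlgHomClass.instSemilinearMapClassOfNonUnitalAlgSemiHomClassToMonoidHomRingHom
  LieAdmissibleAlgebra.toIsScalarTower AlgHomClass.linearMapClass TotallySeparatedSpace.t2Space
  GradedMonoid.GradeZero.mulAction Group.IsPerfect.subsingleton_of_isMulCommutative
  RingConeClass.toSubsemiringClass GradedMonoid.GradeZero.smul LieRinehartAlgebra.toIsScalarTower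
  NormedRing.toNonUnitalNormedRing SubringClass.toNormedCommRing
  IntermediateField.isPurelyInseparable_tower_top MulSemiringAction.toDistribMulAction
  LieAdmissibleRing.toNonUnitalNonAssocRing
  MulSemiringActionSemiHomClass.toDistribMulActionSemiHomClass CompletePartialOrder.toPartialOrder
  TestFunctionClass.toDFunLike instCoeHTCTOfCoeTailOfCoeHTC IdemSemiring.toSemiring
  ContDiffMapSupportedInClass.toDFunLike BialgHomClass.toMonoidHomClass
  SubalgebraClass.toNormedAlgebra ValuationClass.toMonoidWithZeroHomClass instCharZeroOfIsSemireal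
  IdemSemiring.toMulLeftMono Bialgebra.toAlgebra MulEquivClass.toMonoidWithZeroHomClass
  instZeroLEOneClass Algebra.IsQuadraticExtension.toFree SMulWithZero.toSMulZeroClass
  NonUnitalAlgHomClass.toNonUnitalRingHomClass RingEquivClass.toRingHomClass
  LeftPreLieAlgebra.toIsScalarTower RightPreLieAlgebra.toIsScalarTower RCLike.toInnerProductSpaceReal
  PerfectField.ofFinite CStarAlgebra.toNonUnitalCStarAlgebra
  CommMonTypeEquivalenceCommMon.commMonCommMonoid instCoeHTCOfCoeHeadOfCoeOTC instSMulZeroClass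
  MulSemiringActionSemiHomClass.toRingHomClass IsFormallyReal.instIsReduced
  EuclideanDomain.toCommRing Torsor.toMulAction IsOrderedMonoid.toMulLeftMono
  CentroidHomClass.toAddMonoidHomClass continuousSub_of_discreteTopology
  NonUnitalCommCStarAlgebra.toNonUnitalNormedCommRing LieRing.toAddCommGroup Quantale.instMulLeftMono
  instIsFractionRing instCoeTOfCoeDep IsNonarchimedeanLocalField.instIsTopologicalDivisionRing
  SeminormedCommRing.toCommRing NonUnitalRing.toNonUnitalNonAssocRing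
  TopologicalSpace.instSecondCountableTopologyOfLindelofSpaceOfPseudoMetrizableSpace
  AddSubmonoidWithOneClass.toAddSubmonoidClass IsValuativeTopology.instIsTopologicalAddGroup
  IntermediateField.isPurelyInseparable_tower_bot AddQuantale.instAddRightMono

section

/-! Derivations of the complex numbers, algebraic germs, descent along dense sets of points. -/

open MvPolynomial Filter Topology GPC73

namespace GPCW

/-! ### Block DER -/

theorem der_alg (δ : Derivation ℚ ℂ ℂ) {c : ℂ} (h : IsAlgebraic ℚ c) : δ c = 0 := by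
  have h1 := δ.map_aeval (minpoly ℚ c) c
  rw [minpoly.aeval, map_zero, smul_eq_mul] at h1
  exact (mul_eq_zero.1 h1.symm).resolve_left
    ((minpoly.irreducible h.isIntegral).separable.aeval_derivative_ne_zero (minpoly.aeval ℚ c))

/-- Take a transcendence basis `t ∋ c` (`sig_super`), the algebra map from `MvPolynomial t Qb` to
the dual numbers `TrivSqZeroExt ℂ ℂ` with `X c ↦ c + ε`, `X s ↦ s`; `ℂ` is formally etale over the
polynomial ring (localisation, then `Algebra.FormallyEtale.of_isSeparable`), so it lifts to `ℂ`;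
the `ε` part is a derivation with `δ c = 1`. -/
theorem alg_of_der {c : ℂ} (h : ∀ δ : Derivation ℚ ℂ ℂ, δ c = 0) : IsAlgebraic ℚ c := by
  classical
  by_contra hc
  obtain ⟨t, h1, h2⟩ := exists_isTranscendenceBasis_superset (R := ℚ) (s := {c})
    ((algebraicIndependent_singleton_iff (⟨c, rfl⟩ : ({c} : Set ℂ))).2 hc)
  letI : Algebra (MvPolynomial t ℚ) ℂ := (aeval ((↑) : t → ℂ)).toRingHom.toAlgebra
  haveI : FaithfulSMul (MvPolynomial t ℚ) ℂ :=
    (faithfulSMul_iff_algebraMap_injective _ _).2 h2.1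
  haveI : Algebra.IsAlgebraic (MvPolynomial t ℚ) ℂ := ⟨fun x =>
    IsAlgebraic.of_ringHom_of_comp_eq h2.1.aevalEquiv (RingHom.id ℂ) (h2.isAlgebraic.1 x)
      h2.1.aevalEquiv.surjective Function.injective_id
      (RingHom.ext h2.1.algebraMap_aevalEquiv)⟩
  letI := FractionRing.liftAlgebra (MvPolynomial t ℚ) ℂ
  haveI : Algebra.IsAlgebraic (FractionRing (MvPolynomial t ℚ)) ℂ :=
    Algebra.IsAlgebraic.extendScalars (R := MvPolynomial t ℚ) (IsFractionRing.injective _ _)
  haveI := Algebra.FormallyEtale.of_isSeparable (FractionRing (MvPolynomial t ℚ)) ℂ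
  haveI : Algebra.FormallySmooth (MvPolynomial t ℚ) (FractionRing (MvPolynomial t ℚ)) :=
    .of_isLocalization (nonZeroDivisors _)
  haveI := Algebra.FormallySmooth.comp (MvPolynomial t ℚ) (FractionRing (MvPolynomial t ℚ)) ℂ
  letI : Algebra (MvPolynomial t ℚ) (TrivSqZeroExt ℂ ℂ) :=
    (aeval fun s : t => (TrivSqZeroExt.inl s.1 + TrivSqZeroExt.inr 1 : TrivSqZeroExt ℂ ℂ)
      ).toRingHom.toAlgebra
  let g : TrivSqZeroExt ℂ ℂ →ₐ[MvPolynomial t ℚ] ℂ :=
    { (TrivSqZeroExt.fstHom ℚ ℂ ℂ).toRingHom with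
      commutes' := fun p => DFunLike.congr_fun (show (TrivSqZeroExt.fstHom ℚ ℂ ℂ).comp
        (aeval fun s : t => (TrivSqZeroExt.inl s.1 + TrivSqZeroExt.inr 1 : TrivSqZeroExt ℂ ℂ)) =
          aeval ((↑) : t → ℂ) by ext s; simp) p }
  have hs : Function.Surjective g := fun z => ⟨TrivSqZeroExt.inl z, rfl⟩
  have hn : IsNilpotent (RingHom.ker (g : TrivSqZeroExt ℂ ℂ →+* ℂ)) := by
    refine ⟨2, ?_⟩
    refine (Submodule.pow_succ _).trans (eq_bot_iff.2 ?_)
    rw [Submodule.pow_one, Ideal.mul_le]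
    intro a ha b hb
    have ha' : a.fst = 0 := ha
    have hb' : b.fst = 0 := hb
    rw [Ideal.mem_bot]
    ext <;> simp [ha', hb']
  let l := Algebra.FormallySmooth.liftOfSurjective (AlgHom.id _ ℂ) g hs hn
  have hl : ∀ z, (l z).fst = z := fun z =>
    Algebra.FormallySmooth.liftOfSurjective_apply (AlgHom.id _ ℂ) g hs hn z
  let δ : Derivation ℚ ℂ ℂ := Derivation.mk'
    ((TrivSqZeroExt.sndHom ℂ ℂ).toAddMonoidHom.comp l.toRingHom.toAddMonoidHom).toRatLinearMap
    fun a b => by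
      show (l (a * b)).snd = a • (l b).snd + b • (l a).snd
      rw [map_mul, TrivSqZeroExt.snd_mul, hl, hl]
      simp [mul_comm]
  have h3 : (l c).snd = 0 := h δ
  have h4 := l.commutes (X ⟨c, h1 rfl⟩)
  rw [RingHom.algebraMap_toAlgebra, RingHom.algebraMap_toAlgebra] at h4
  simp only [AlgHom.toRingHom_eq_coe, RingHom.coe_coe, aeval_X] at h4
  rw [h4] at h3
  simp at h3

/-! ### Block DSC -/

theorem exists_pm_ne {κ : Type} {Q : MvPolynomial κ ℂ} (h : Q ≠ 0) : ∃ π, pm π Q ≠ 0 := by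
  by_contra! hc
  exact h (Ideal.mem_bot.1 (mem_of_pm ⊥ Q fun π => by simp only [hc π, map_zero, zero_mem]))

theorem pm_hom {κ : Type} {Q : MvPolynomial κ ℂ} {d : ℕ} (h : Q.IsHomogeneous d)
    (π : ℂ →ₗ[Qb] Qb) : (pm π Q).IsHomogeneous d := by
  intro α hα
  rw [sig_coeff] at hα
  exact h fun h0 => hα (by rw [h0, map_zero])

/-- `mem_of_pm` for the ideal of the point `x`. -/
theorem eval_of_pm {κ : Type} {Q : MvPolynomial κ ℂ} {x : κ → ℂ}
    (h : ∀ π, aeval x (pm π Q) = 0) : eval x Q = 0 := by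
  refine mem_of_pm (RingHom.ker (eval x)) Q fun π => ?_
  rw [RingHom.mem_ker, eval_map, ← aeval_def, h]

/-- `aeval_pm` at the points of `T ∩ O`, which are dense in `O`. -/
theorem desc_pts {X κ : Type} [TopologicalSpace X] {O T : Set X} (hO : IsOpen O) (hT : Dense T)
    {u : κ → X → ℂ} (hu : ∀ j, ContinuousOn (u j) O)
    (ha : ∀ t ∈ T, t ∈ O → ∀ j, IsAlgebraic ℚ (u j t)) {Q : MvPolynomial κ ℂ}
    (h : ∀ x ∈ O, eval (fun j => u j x) Q = 0) (π : ℂ →ₗ[Qb] Qb) :
    ∀ x ∈ O, aeval (fun j => u j x) (pm π Q) = 0 := by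
  have hc : ∀ p : MvPolynomial κ Qb, ContinuousOn (fun x => aeval (fun j => u j x) p) O := by
    intro p
    induction p using MvPolynomial.induction_on with
    | C c => simpa using continuousOn_const
    | add f g hf hg => simp only [map_add]; exact hf.add hg
    | mul_X f i hf => simp only [map_mul, aeval_X]; exact hf.mul (hu i)
  refine Set.EqOn.of_subset_closure (s := O ∩ T) (g := fun _ => 0) (fun t ht => ?_) (hc _)
    continuousOn_const Set.inter_subset_left (hT.open_subset_closure_inter hO)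
  have h1 := aeval_pm π (fun j => ⟨_, mem_algebraicClosure_iff.2 (ha t ht.2 ht.1 j)⟩) Q
  simpa only [h t ht.1, map_zero, ZeroMemClass.coe_zero] using h1

variable {σ : Type} [Fintype σ] [DecidableEq σ]

/-! ### Block NL -/

/-- The Taylor series along a line. -/
noncomputable def nlT (b w : σ → ℂ) (k : (σ → ℂ) → ℂ) : PowerSeries ℂ :=
  PowerSeries.mk fun n => iteratedDeriv n (fun s : ℂ => k (b + s • w)) 0 / n.factorial

/-- The defect of the chain rule along a line. -/
noncomputable def nlD (δ : Derivation ℚ ℂ ℂ) (b w : σ → ℂ) (k : (σ → ℂ) → ℂ) : PowerSeries ℂ :=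
  (PowerSeries.mk fun n => δ (PowerSeries.coeff n (nlT b w k))) -
    nlT b w fun y => fderiv ℂ k y fun j => δ (b j)

section

variable {b w : σ → ℂ} {k k' : (σ → ℂ) → ℂ} {δ : Derivation ℚ ℂ ℂ}

omit [DecidableEq σ]

theorem nl_line (h : AnalyticAt ℂ k b) : AnalyticAt ℂ (fun s : ℂ => k (b + s • w)) 0 :=
  h.comp_of_eq (f := fun s : ℂ => b + s • w) (by fun_prop) (by simp)

theorem nlT_congr (e : k =ᶠ[𝓝 b] k') : nlT b w k = nlT b w k' := by
  have : Tendsto (fun s : ℂ => b + s • w) (𝓝 0) (𝓝 b) :=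
    Continuous.tendsto' (by fun_prop) _ _ (by simp)
  ext n
  simp only [nlT, PowerSeries.coeff_mk]
  exact congrArg (· / _) (EventuallyEq.iteratedDeriv_eq n (e.comp_tendsto this))

theorem nlT_add (h : AnalyticAt ℂ k b) (h' : AnalyticAt ℂ k' b) :
    nlT b w (fun y => k y + k' y) = nlT b w k + nlT b w k' := by
  ext n
  simp only [nlT, map_add, PowerSeries.coeff_mk, ← add_div]
  rw [← iteratedDeriv_add (nl_line h).contDiffAt (nl_line h').contDiffAt]
  rfl

theorem nlT_mul (h : AnalyticAt ℂ k b) (h' : AnalyticAt ℂ k' b) :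
    nlT b w (fun y => k y * k' y) = nlT b w k * nlT b w k' := by
  ext n
  rw [PowerSeries.coeff_mul, Finset.Nat.sum_antidiagonal_eq_sum_range_succ_mk]
  simp only [nlT, PowerSeries.coeff_mk]
  refine (congrArg (· / _) (iteratedDeriv_mul (nl_line h).contDiffAt
    (nl_line h').contDiffAt)).trans ?_
  rw [Finset.sum_div]
  refine Finset.sum_congr rfl fun i hi => ?_
  have := (Nat.cast_ne_zero (R := ℂ)).2 n.factorial_ne_zero
  rw [Nat.cast_choose ℂ (Nat.le_of_lt_succ (Finset.mem_range.1 hi))]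
  field_simp

omit [Fintype σ] in
theorem nlT_const (c : ℂ) : nlT b w (fun _ => c) = PowerSeries.C c := by
  ext n
  simp only [nlT, PowerSeries.coeff_mk, PowerSeries.coeff_C, iteratedDeriv_const]
  split_ifs with h <;> simp [h]

theorem nlT_one (h : AnalyticAt ℂ k b) : PowerSeries.coeff 1 (nlT b w k) = fderiv ℂ k b w := by
  have d1 : HasDerivAt (fun s : ℂ => b + s • w) w 0 := by
    simpa using ((hasDerivAt_id (0 : ℂ)).smul_const w).const_add b
  simpa only [nlT, PowerSeries.coeff_mk, iteratedDeriv_one, Nat.factorial_one, Nat.cast_one, div_one, Function.comp_def] using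
    (h.differentiableAt.hasFDerivAt.comp_hasDerivAt_of_eq 0 d1 (by simp)).deriv

theorem nlD_congr (e : k =ᶠ[𝓝 b] k') : nlD δ b w k = nlD δ b w k' := by
  rw [nlD, nlD, nlT_congr e, nlT_congr (k := fun y => fderiv ℂ k y fun j => δ (b j))
    ((e.fderiv (𝕜 := ℂ)).mono fun y hy => DFunLike.congr_fun hy _)]

theorem nl_d (h : AnalyticAt ℂ k b) (v : σ → ℂ) : AnalyticAt ℂ (fun y => fderiv ℂ k y v) b :=
  (ContinuousLinearMap.apply ℂ ℂ v).analyticAt _ |>.comp h.fderiv

theorem nlD_add (h : AnalyticAt ℂ k b) (h' : AnalyticAt ℂ k' b) :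
    nlD δ b w (fun y => k y + k' y) = nlD δ b w k + nlD δ b w k' := by
  rw [nlD, nlD, nlD, nlT_add h h', nlT_congr (k := fun y => fderiv ℂ _ y _)
    (k' := fun y => fderiv ℂ k y _ + fderiv ℂ k' y _) ?_, nlT_add (nl_d h _) (nl_d h' _)]
  · ext n
    simp only [map_add, map_sub, PowerSeries.coeff_mk]
    ring
  · filter_upwards [h.eventually_analyticAt, h'.eventually_analyticAt] with y a a'
    rw [fderiv_fun_add a.differentiableAt a'.differentiableAt, add_apply]

theorem nlD_mul (h : AnalyticAt ℂ k b) (h' : AnalyticAt ℂ k' b) :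
    nlD δ b w (fun y => k y * k' y) = nlT b w k * nlD δ b w k' + nlT b w k' * nlD δ b w k := by
  rw [nlD, nlD, nlD, nlT_mul h h', nlT_congr (k := fun y => fderiv ℂ _ y _)
    (k' := fun y => k y * fderiv ℂ k' y (fun j => δ (b j)) +
      k' y * fderiv ℂ k y fun j => δ (b j)) ?_,
    nlT_add (h.fun_mul (nl_d h' _)) (h'.fun_mul (nl_d h _)), nlT_mul h (nl_d h' _), nlT_mul h' (nl_d h _),
    mul_sub, mul_sub, sub_add_sub_comm, mul_comm (nlT b w k') (PowerSeries.mk _)]
  · congr 1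
    ext n
    simp only [map_add, PowerSeries.coeff_mk, PowerSeries.coeff_mul, map_sum, Derivation.leibniz,
      smul_eq_mul, Finset.sum_add_distrib]
    exact congrArg _ (Finset.sum_congr rfl fun _ _ => mul_comm _ _)
  · filter_upwards [h.eventually_analyticAt, h'.eventually_analyticAt] with y a a'
    rw [fderiv_fun_mul a.differentiableAt a'.differentiableAt]
    rfl

omit [Fintype σ] in
theorem nlD_const {c : ℂ} (hc : IsAlgebraic ℚ c) : nlD δ b w (fun _ => c) = 0 := by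
  ext n
  simp only [nlD, nlT_const, fderiv_fun_const, Pi.zero_apply, zero_apply, map_zero, sub_zero,
    PowerSeries.coeff_mk, PowerSeries.coeff_C]
  split_ifs
  exacts [der_alg δ hc, map_zero _]

theorem nlD_co {j : σ} (hw : IsAlgebraic ℚ (w j)) : nlD δ b w (fun y => y j) = 0 := by
  have e : (fun y : σ → ℂ => fderiv ℂ (fun y : σ → ℂ => y j) y fun j => δ (b j)) =
      fun _ => δ (b j) := funext fun y => by rw [(hasFDerivAt_apply j y).fderiv]; rfl
  have e' : deriv (fun s : ℂ => (b + s • w) j) = fun _ => w j := funext fun s => by simp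
  ext n
  rw [nlD, e, nlT_const, map_sub, PowerSeries.coeff_mk, nlT, PowerSeries.coeff_mk]
  rcases n with _ | n
  · simp
  · rw [iteratedDeriv_succ', e', iteratedDeriv_const]
    split_ifs with h <;> simp [h, der_alg δ hw]

/-- A germ with zero Taylor series along a dense set of directions is zero. -/
theorem nl_zero (h : AnalyticAt ℂ k b) {W : Set (σ → ℂ)} (hW : Dense W)
    (h0 : ∀ w ∈ W, nlT b w k = 0) : k =ᶠ[𝓝 b] 0 := by
  obtain ⟨r, hr, hb⟩ := Metric.eventually_nhds_iff_ball.1 h.eventually_analyticAt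
  have h1 : ∀ w ∈ W, b + w ∈ Metric.ball b r → k (b + w) = 0 := fun w hw hm => by
    have hc : Convex ℝ ((fun s : ℂ => b + s • w) ⁻¹' Metric.ball b r) :=
      ((convex_ball b r).translate_preimage_right b).is_linear_preimage
        (f := fun s : ℂ => s • w) ⟨fun _ _ => add_smul _ _ _, fun _ _ => smul_assoc _ _ _⟩
    have ha : AnalyticOnNhd ℂ (fun s : ℂ => k (b + s • w))
        ((fun s : ℂ => b + s • w) ⁻¹' Metric.ball b r) := fun s hs =>
      (hb _ hs).comp (f := fun s : ℂ => b + s • w) (by fun_prop)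
    simpa only [one_smul, Pi.zero_apply] using ha.eqOn_zero_of_preconnected_of_eventuallyEq_zero hc.isPreconnected (z₀ := 0)
      (by simpa using hr) (analyticOrderAt_eq_top.1 (ENat.eq_top_iff_forall_ge.2 fun m =>
        (natCast_le_analyticOrderAt_iff_iteratedDeriv_eq_zero (nl_line h)).2 fun i _ => by
          simpa [nlT, Nat.factorial_ne_zero] using congrArg (PowerSeries.coeff i) (h0 w hw)))
      (x := 1) (by simpa using hm)
  filter_upwards [Metric.ball_mem_nhds b hr] with y hy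
  by_contra hne
  have h2 : ∀ᶠ w in 𝓝 (y - b), b + w ∈ Metric.ball b r ∧ k (b + w) ≠ 0 :=
    (Continuous.tendsto' (f := fun w => b + w) (by fun_prop) _ y (by simp)).eventually
      (.and (Metric.isOpen_ball.mem_nhds hy) ((hb y hy).continuousAt.eventually_ne hne))
  obtain ⟨w, hw, h3⟩ := hW.inter_nhds_nonempty h2
  exact h3.2 (h1 w hw h3.1)

omit [Fintype σ] in
theorem nl_dense : Dense {w : σ → ℂ | ∀ j, IsAlgebraic ℚ (w j)} := by
  have h : Dense {z : ℂ | IsAlgebraic ℚ z} := by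
    refine (Complex.equivRealProdCLM.symm.surjective.denseRange.comp
      (Rat.denseRange_cast.prodMap Rat.denseRange_cast)
      Complex.equivRealProdCLM.symm.continuous).mono ?_
    rintro _ ⟨q, rfl⟩
    have hI : IsAlgebraic ℚ Complex.I := IsAlgebraic.of_pow two_pos (by
      rw [Complex.I_sq]; exact isAlgebraic_one.neg)
    simpa [Complex.equivRealProdCLM_symm_apply] using
      (isAlgebraic_algebraMap (A := ℂ) q.1).add ((isAlgebraic_algebraMap (A := ℂ) q.2).mul hI)
  simpa only [Set.pi, Set.mem_univ, Set.mem_ofPred_eq, forall_const] using dense_pi (ι := σ) Set.univ fun _ _ => h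

variable {F : (σ → ℂ) → ℂ}

theorem nl_an (hF : AnalyticAt ℂ F b) (Q : MvPolynomial (Option σ) Qb) :
    AnalyticAt ℂ (fun y => aeval (fun o : Option σ => o.elim (F y) y) Q) b :=
  AnalyticAt.aeval_mvPolynomial (Option.forall.2 ⟨hF, fun j =>
    (ContinuousLinearMap.proj (R := ℂ) (φ := fun _ : σ => ℂ) j).analyticAt b⟩) Q

theorem nl_chain [DecidableEq σ] (hF : AnalyticAt ℂ F b) (hw : ∀ j, IsAlgebraic ℚ (w j))
    (Q : MvPolynomial (Option σ) Qb) :
    nlD δ b w (fun y => aeval (fun o : Option σ => o.elim (F y) y) Q) =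
      nlT b w (fun y => aeval (fun o : Option σ => o.elim (F y) y) (pderiv none Q)) *
        nlD δ b w F := by
  induction Q using MvPolynomial.induction_on with
  | C a =>
    simp only [aeval_C, pderiv_C, map_zero, nlT_const, zero_mul]
    exact nlD_const (mem_algebraicClosure_iff.1 a.2)
  | add p q hp hq =>
    simp only [map_add]
    rw [nlD_add (nl_an hF p) (nl_an hF q), nlT_add (nl_an hF _) (nl_an hF _), hp, hq, add_mul]
  | mul_X p o hp =>
    simp only [pderiv_mul, map_add, map_mul]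
    rw [nlD_mul (nl_an hF p) (nl_an hF _), nlT_add ((nl_an hF _).fun_mul (nl_an hF _))
      ((nl_an hF _).fun_mul (nl_an hF _)), nlT_mul (nl_an hF _) (nl_an hF _),
      nlT_mul (nl_an hF _) (nl_an hF _), hp]
    rcases o with _ | j
    · simp only [aeval_X, Option.elim, pderiv_X_self, map_one, nlT_const]
      ring
    · simp only [aeval_X, Option.elim, pderiv_X_of_ne (Option.some_ne_none j), map_zero, nlT_const,
        nlD_co (hw j)]
      ring

theorem nl_min [DecidableEq σ] {Q : MvPolynomial (Option σ) Qb} (hQ : Q ≠ 0)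
    (h0 : ∀ᶠ y in 𝓝 b, aeval (fun o : Option σ => o.elim (F y) y) Q = 0) :
    ∃ P : MvPolynomial (Option σ) Qb,
      (∀ᶠ y in 𝓝 b, aeval (fun o : Option σ => o.elim (F y) y) P = 0) ∧
      ¬∀ᶠ y in 𝓝 b, aeval (fun o : Option σ => o.elim (F y) y) (pderiv none P) = 0 := by
  have e1 : ∀ Q : MvPolynomial (Option σ) Qb, optionEquivLeft Qb σ (pderiv none Q) =
      Polynomial.derivative (optionEquivLeft Qb σ Q) := fun Q => by
    induction Q using MvPolynomial.induction_on with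
    | C a => simp only [derivation_C, map_zero, optionEquivLeft_C, Polynomial.derivative_C]
    | add p q hp hq => simp only [map_add, hp, hq]
    | mul_X p o hp => rcases o with _ | j <;> simp [hp, mul_comm]
  have e2 : ∀ p : MvPolynomial σ Qb, optionEquivLeft Qb σ (rename some p) = Polynomial.C p :=
    fun p => by induction p using MvPolynomial.induction_on <;> simp [*]
  induction hn : (optionEquivLeft Qb σ Q).natDegree using Nat.strong_induction_on generalizing Q with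
  | h n ih =>
    by_cases h1 : (optionEquivLeft Qb σ Q).natDegree = 0
    · obtain ⟨p, rfl⟩ : ∃ p, Q = rename some p := ⟨_, (optionEquivLeft Qb σ).injective
        ((Polynomial.eq_C_of_natDegree_eq_zero h1).trans (e2 _).symm)⟩
      have h2 := (AnalyticOnNhd.eval_mvPolynomial (map (algebraMap Qb ℂ)
        p)).eqOn_zero_of_preconnected_of_eventuallyEq_zero isPreconnected_univ (Set.mem_univ b)
        (h0.mono fun y hy => by
          rw [aeval_rename] at hy
          exact (eval_map _ _ _).trans hy)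
      have h3 : map (algebraMap Qb ℂ) p = map (algebraMap Qb ℂ) 0 :=
        MvPolynomial.funext fun y => (h2 (Set.mem_univ y)).trans (by simp)
      rw [map_injective _ (algebraMap Qb ℂ).injective h3, map_zero] at hQ
      exact absurd rfl hQ
    · by_contra h2
      refine h2 (ih _ ?_ (Q := pderiv none Q) (fun h => h1 ?_)
        (not_not.1 fun h => h2 ⟨Q, h0, h⟩) rfl)
      · rw [e1, ← hn]
        exact Polynomial.natDegree_derivative_lt h1
      · rw [← Polynomial.derivative_eq_zero, ← e1, h, map_zero]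

end

/-- Take `Q` of minimal degree in the variable `none` (positive, since a polynomial in `y` that
vanishes near `b` is zero), so `h y = (pderiv none Q) (F y, y)` is not the zero germ.  For a rational
direction `w` let `T k` be the Taylor series of `s ↦ k (b + s • w)`, a ring homomorphism on germs,
and `D k = δ (T k) - T (∂_η k)` with `η = δ b` (`δ` acts on the coefficients).  Then
`D (k k') = T k * D k' + T k' * D k`, `D` kills the coordinates and `Qb`, so `T h * D F = 0`.  If `h`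
is not zero on the line then `D F = 0`: coefficients `0` and `1` give the claims.  The good `w` form
a nonempty open set of rational vectors, so they span. -/
theorem nash_chart {b : σ → ℂ} {F : (σ → ℂ) → ℂ} (hF : AnalyticAt ℂ F b)
    {Q : MvPolynomial (Option σ) Qb} (hQ : Q ≠ 0)
    (h0 : ∀ᶠ y in 𝓝 b, aeval (fun o : Option σ => o.elim (F y) y) Q = 0) (δ : Derivation ℚ ℂ ℂ) :
    δ (F b) = fderiv ℂ F b (fun j => δ (b j)) ∧
      ((∀ j, δ (b j) = 0) → ∀ j, δ (fderiv ℂ F b (Pi.single j 1)) = 0) := by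
  obtain ⟨P, h1, h2⟩ := nl_min hQ h0
  have key : ∀ W : Set (σ → ℂ), Dense W → (∀ w ∈ W, ∀ j, IsAlgebraic ℚ (w j)) →
      ∃ w ∈ W, nlD δ b w F = 0 := fun W hW ha => by
    by_contra! hn
    refine h2 (nl_zero (nl_an hF _) hW fun w hw => ?_)
    have := nl_chain (δ := δ) hF (ha w hw) P
    rw [nlD_congr (k' := fun _ => 0) h1, nlD_const isAlgebraic_zero] at this
    exact (mul_eq_zero.1 this.symm).resolve_right (hn w hw)
  refine ⟨?_, fun hb => ?_⟩
  · obtain ⟨w, -, h⟩ := key _ nl_dense fun _ h => h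
    simpa only [nlD, nlT, PowerSeries.coeff_mk, PowerSeries.coeff_zero_eq_constantCoeff, map_sub, PowerSeries.constantCoeff_mk, iteratedDeriv_zero, zero_smul, add_zero, Nat.factorial_zero, Nat.cast_one, div_one, PowerSeries.constantCoeff_zero, sub_eq_zero] using congrArg (PowerSeries.coeff 0) h
  by_contra! hn
  obtain ⟨j, hj⟩ := hn
  let l := Fintype.linearCombination ℂ fun j => δ (fderiv ℂ F b (Pi.single j 1))
  obtain ⟨w, ⟨ha, hl⟩, h⟩ := key _ (nl_dense.inter_of_isOpen_right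
    (t := (LinearMap.ker l : Set (σ → ℂ))ᶜ) (interior_eq_empty_iff_dense_compl.1 (by
      by_contra h
      have := (LinearMap.ker l).eq_top_of_nonempty_interior' (Set.nonempty_iff_ne_empty.2 h)
      exact hj (by simpa only [l, LinearMap.mem_ker, Fintype.linearCombination_apply_single, smul_eq_mul, one_mul] using this.ge (Submodule.mem_top (x := Pi.single j (1 : ℂ))))))
    (LinearMap.ker l).closed_of_finiteDimensional.isOpen_compl) fun _ h => h.1
  have h3 := congrArg (PowerSeries.coeff 1) h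
  simp only [nlD, hb, PowerSeries.coeff_mk, nlT_one hF,
    show ∀ y, fderiv ℂ F y (fun _ => 0) = 0 from fun y => map_zero _, nlT_const, map_zero,
    sub_zero] at h3
  refine hl (Eq.trans ?_ h3)
  conv_rhs => rw [pi_eq_sum_univ' w]
  simp only [l, Fintype.linearCombination_apply, smul_eq_mul, map_sum, map_smul, Derivation.leibniz, der_alg δ (ha _), mul_zero, add_zero]

/-! ### Block NC -/

omit [DecidableEq σ] in
theorem nc_chart {a : σ → ℂ} {u : σ → (σ → ℂ) → ℂ} {f : (σ → ℂ) → ℂ}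
    (hu : ∀ j, AnalyticAt ℂ (u j) a) (hf : AnalyticAt ℂ f a)
    (hs : Function.Surjective (fderiv ℂ (fun x j => u j x) a)) {Q : MvPolynomial (Option σ) Qb}
    (h0 : ∀ᶠ x in 𝓝 a, aeval (fun o : Option σ => o.elim (f x) fun j => u j x) Q = 0) :
    ∃ F : (σ → ℂ) → ℂ, AnalyticAt ℂ F (fun j => u j a) ∧ F (fun j => u j a) = f a ∧
      (∀ᶠ y in 𝓝 fun j => u j a, aeval (fun o : Option σ => o.elim (F y) y) Q = 0) ∧
      ∀ w, fderiv ℂ f a w = fderiv ℂ F (fun j => u j a) fun j => fderiv ℂ (u j) a w := by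
  set U : (σ → ℂ) → σ → ℂ := fun x j => u j x
  have hU : AnalyticAt ℂ U a := analyticAt_pi_iff.2 hu
  let e : (σ → ℂ) ≃L[ℂ] σ → ℂ := (LinearEquiv.ofBijective (fderiv ℂ U a).toLinearMap
    ⟨LinearMap.injective_iff_surjective.2 hs, hs⟩).toContinuousLinearEquiv
  have hd : HasFDerivAt U (e : (σ → ℂ) →L[ℂ] σ → ℂ) a := hU.differentiableAt.hasFDerivAt
  have hc : ContDiffAt ℂ ⊤ U a := hU.contDiffAt
  have hst := hc.hasStrictFDerivAt' hd (by simp)
  have hsa : AnalyticAt ℂ (hst.localInverse U e a) (U a) :=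
    (hc.to_localInverse hd (by simp)).analyticAt
  have e0 : hst.localInverse U e a (U a) = a := hst.localInverse_apply_image
  have hF : AnalyticAt ℂ (f ∘ hst.localInverse U e a) (U a) := hf.comp_of_eq hsa e0
  refine ⟨_, hF, congrArg f e0, ?_, fun w => ?_⟩
  · filter_upwards [hst.eventually_right_inverse, hst.localInverse_tendsto.eventually h0] with y h1 h2
    exact (congrArg (fun t => aeval (fun o : Option σ => o.elim (f _) t) Q) h1).symm.trans h2
  · have h1 : f =ᶠ[𝓝 a] (f ∘ hst.localInverse U e a) ∘ U :=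
      hst.eventually_left_inverse.mono fun x h => (congrArg f h).symm
    rw [h1.fderiv_eq, fderiv_comp a hF.differentiableAt hU.differentiableAt,
      fderiv_pi fun j => (hu j).differentiableAt]
    rfl

/-- An analytic local inverse `s` of `U = (u j)`; `nash_chart` for `f ∘ s`. -/
theorem nash {a : σ → ℂ} {u : σ → (σ → ℂ) → ℂ} {f : (σ → ℂ) → ℂ} (hu : ∀ j, AnalyticAt ℂ (u j) a)
    (hf : AnalyticAt ℂ f a) (hs : Function.Surjective (fderiv ℂ (fun x j => u j x) a))
    {Q : MvPolynomial (Option σ) Qb} (hQ : Q ≠ 0)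
    (h0 : ∀ᶠ x in 𝓝 a, aeval (fun o : Option σ => o.elim (f x) fun j => u j x) Q = 0)
    (δ : Derivation ℚ ℂ ℂ) {ξ : σ → ℂ} (hξ : ∀ j, fderiv ℂ (u j) a ξ = δ (u j a)) :
    δ (f a) = fderiv ℂ f a ξ := by
  obtain ⟨F, hF, e0, h1, h2⟩ := nc_chart hu hf hs h0
  rw [h2, ← e0, (nash_chart hF hQ h1 δ).1, funext hξ]

/-- The same chart, `der_alg`, `alg_of_der`. -/
theorem nash_one {a : σ → ℂ} {u : σ → (σ → ℂ) → ℂ} {f : (σ → ℂ) → ℂ}
    (hu : ∀ j, AnalyticAt ℂ (u j) a) (hf : AnalyticAt ℂ f a)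
    (hs : Function.Surjective (fderiv ℂ (fun x j => u j x) a))
    {Q : MvPolynomial (Option σ) Qb} (hQ : Q ≠ 0)
    (h0 : ∀ᶠ x in 𝓝 a, aeval (fun o : Option σ => o.elim (f x) fun j => u j x) Q = 0)
    (ha : ∀ j, IsAlgebraic ℚ (u j a)) {w : σ → ℂ} (hw : ∀ j, IsAlgebraic ℚ (fderiv ℂ (u j) a w)) :
    IsAlgebraic ℚ (fderiv ℂ f a w) := by
  obtain ⟨F, hF, -, h1, h2⟩ := nc_chart hu hf hs h0
  refine alg_of_der fun δ => ?_
  have h3 := (nash_chart hF hQ h1 δ).2 fun j => der_alg δ (ha j)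
  rw [h2, ← Finset.univ_sum_single fun j => fderiv ℂ (u j) a w, map_sum, map_sum]
  refine Finset.sum_eq_zero fun j _ => ?_
  rw [← mul_one (fderiv ℂ (u j) a w), ← smul_eq_mul, Pi.single_smul', map_smul, smul_eq_mul,
    δ.leibniz, h3, der_alg δ (hw j), smul_zero, smul_zero, add_zero]

end GPCW

end

section

/-! From a projective embedding with algebraic torsion points to an abelian variety. -/

open Complex Module MvPolynomial GPC73

namespace GPCW

variable {g N : ℕ}

namespace Pre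

variable (P : Pre g N)

/-- The coordinates are dual to the differentials of coordinate functions at the origin. -/
def Nrm : Prop := ∃ (k : Fin (N + 1)) (y : Fin g → Fin (N + 1)), P.θ k 0 ≠ 0 ∧
  ∀ a j, pd j (fun z => P.θ (y a) z / P.θ k z) 0 = if a = j then 1 else 0

/-- The numerator of a derivative. -/
noncomputable def wr (i k : Fin (N + 1)) (j : Fin g) : (Fin g → ℂ) → ℂ :=
  P.θ k * pd j (P.θ i) - P.θ i * pd j (P.θ k)

theorem img {x : Fin (N + 1) → ℂ} (hx : x ≠ 0)
    (h : ∀ (p : MvPolynomial (Fin (N + 1)) ℂ) (d : ℕ), p.IsHomogeneous d →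
      (∀ z, eval (fun i => P.θ i z) p = 0) → eval x p = 0) :
    ∃ (z : Fin g → ℂ) (c : ℂ), ∀ i, x i = c * P.θ i z :=
  GPCW.img P.pol P.pos P.nm P.mem P.ne hx fun n p => h p n

/-! ### Block IB -/

theorem ib_cont (p : MvPolynomial (Fin (N + 1)) Qb) : Continuous (val P.θ p) := by
  have := (an_eval P.θ (fun i => sec_an (P.mem i)) (map (algebraMap Qb ℂ) p)).continuous
  simp only [eval_map, ← aeval_def] at this
  exact this

/-- The descent of a linear relation at a torsion point. -/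
theorem ib_tor {e : ℕ} {p q : MvPolynomial (Fin (N + 1)) ℂ} (hp : p.IsHomogeneous e)
    (hq : q.IsHomogeneous e) (π : ℂ →ₗ[Qb] Qb) {t : Fin g → ℂ} (ht : t ∈ Tp P.ω) {r : ℂ}
    (hr : IsAlgebraic ℚ r) (h : eval (fun i => P.θ i t) q * r = eval (fun i => P.θ i t) p) :
    val P.θ (pm π q) t * r = val P.θ (pm π p) t := by
  obtain ⟨κ, h0, hκ⟩ := P.tor t ht
  have h1 := aeval_pm π (fun i => ⟨_, mem_algebraicClosure_iff.2 (hκ i)⟩) p
  have h2 := aeval_pm π (fun i => ⟨_, mem_algebraicClosure_iff.2 (hκ i)⟩) q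
  simp only [norm_hom (pm_hom hp π), norm_hom (pm_hom hq π), Gx.gx_hom hp, Gx.gx_hom hq] at h1 h2
  have h3 : κ ^ e * eval (fun i => P.θ i t) p =
      (⟨r, mem_algebraicClosure_iff.2 hr⟩ : Qb) • (κ ^ e * eval (fun i => P.θ i t) q) := by
    rw [← h]
    change _ = r * _
    ring
  rw [h3, map_smul, smul_eq_mul, MulMemClass.coe_mul, ← h2] at h1
  refine mul_left_cancel₀ (pow_ne_zero e h0) ?_
  simp only [val]
  linear_combination -h1

/-- At a torsion point use `tor`, homogeneity and `aeval_pm`; `tp_dense`. -/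
theorem val_pm {p : MvPolynomial (Fin (N + 1)) ℂ} {d : ℕ} (hp : p.IsHomogeneous d)
    (h : ∀ z, eval (fun i => P.θ i z) p = 0) (π : ℂ →ₗ[Qb] Qb) (z : Fin g → ℂ) :
    val P.θ (pm π p) z = 0 := by
  refine congrFun (Continuous.ext_on (tp_dense P.ω) (P.ib_cont _) (continuous_const (y := 0))
    fun t ht => ?_) z
  rw [← P.ib_tor hp hp π ht isAlgebraic_zero (by rw [h, mul_zero]), mul_zero]

/-- `S` is the set of all forms over `Qb` that vanish on `θ`; `img`, `val_pm`, `eval_of_pm`. -/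
theorem alg : ∃ S : Set (MvPolynomial (Fin (N + 1)) Qb), (∀ p ∈ S, ∃ d, p.IsHomogeneous d) ∧
    ∀ x : Fin (N + 1) → ℂ, x ≠ 0 →
      ((∀ p ∈ S, aeval x p = 0) ↔ ∃ (z : Fin g → ℂ) (c : ℂ), ∀ i, x i = c * P.θ i z) := by
  refine ⟨{p | (∃ d, p.IsHomogeneous d) ∧ ∀ z, val P.θ p z = 0}, fun p hp => hp.1,
    fun x hx => ⟨fun h => P.img hx fun p d hp h0 => eval_of_pm fun π =>
      h _ ⟨⟨d, pm_hom hp π⟩, P.val_pm hp h0 π⟩, ?_⟩⟩
  rintro ⟨z, c, h⟩ p ⟨⟨d, hd⟩, h0⟩
  rw [funext h, norm_hom hd]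
  exact mul_eq_zero_of_right _ (h0 z)

/-- Choose `π` with `val θ (pm π q) z ≠ 0` (`eval_of_pm`).  At a torsion point with `v t ≠ 0` apply
`π` to `q (κ θ t) * (u t / v t) = p (κ θ t)`; density and continuity on `v ≠ 0`, which is dense. -/
theorem rat {u v : (Fin g → ℂ) → ℂ} (hu : AnalyticOnNhd ℂ u Set.univ)
    (hv : AnalyticOnNhd ℂ v Set.univ) (h0 : v ≠ 0) {e : ℕ} {p q : MvPolynomial (Fin (N + 1)) ℂ}
    (hp : p.IsHomogeneous e) (hq : q.IsHomogeneous e) (hne : ∃ z, eval (fun i => P.θ i z) q ≠ 0)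
    (h : ∀ z, eval (fun i => P.θ i z) q * u z = eval (fun i => P.θ i z) p * v z)
    (ha : ∀ t ∈ Tp P.ω, v t ≠ 0 → IsAlgebraic ℚ (u t / v t)) : IsRat P.θ u v := by
  obtain ⟨z, hz⟩ := hne
  obtain ⟨π, hπ⟩ := not_forall.1 fun h => hz (eval_of_pm h)
  obtain ⟨w, hw⟩ := Function.ne_iff.1 h0
  have hd := (tp_dense P.ω).inter_of_isOpen_right
    (lf_dense (differentiableOn_univ.1 hv.differentiableOn) hw) (isOpen_ne_fun hv.continuous continuous_const)
  refine ⟨e, pm π p, pm π q, pm_hom hp π, pm_hom hq π, ⟨z, hπ⟩, congrFun (Continuous.ext_on hd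
    ((P.ib_cont _).mul hu.continuous) ((P.ib_cont _).mul hv.continuous) fun t ht => ?_)⟩
  have h1 : v t ≠ 0 := ht.2
  have h2 := P.ib_tor hp hq π ht.1 (ha t ht.1 h1) (by rw [← mul_div_assoc, h, mul_div_cancel_right₀ _ h1])
  change _ * u t = _ * v t
  rw [← h2, mul_assoc, div_mul_cancel₀ _ h1]

/-! ### Block IC -/

section

variable {V : Type*} [NormedAddCommGroup V] [NormedSpace ℂ V]
  {H : V →ₗ⋆[ℂ] V →ₗ[ℂ] ℂ} {L : Set V}

theorem ic_scale {ι K : Type*} [CommRing K] [Algebra K ℂ] {p : MvPolynomial ι K} {n : ℕ}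
    (hp : p.IsHomogeneous n) (κ : ℂ) (x : ι → ℂ) :
    aeval (fun i => κ * x i) p = κ ^ n * aeval x p := by
  simp only [aeval_def, eval₂_eq, Finset.mul_sum]
  refine Finset.sum_congr rfl fun m hm => ?_
  simp only [mul_pow, Finset.prod_mul_distrib, Finset.prod_pow_eq_pow_sum,
    ← hp.degree_eq_sum_deg_support hm]
  ring

theorem ic_lift {ι : Type*} (k : ι) (a : MvPolynomial ι ℂ) : ∃ n0, ∀ n, n0 ≤ n →
    ∃ p : MvPolynomial ι ℂ, p.IsHomogeneous n ∧
      ∀ x : ι → ℂ, x k ≠ 0 → aeval x p = x k ^ n * aeval (fun i => x i / x k) a := by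
  induction a using MvPolynomial.induction_on with
  | C c => exact ⟨0, fun n _ => ⟨_, isHomogeneous_C_mul_X_pow c k n, fun x _ => by simp [mul_comm]⟩⟩
  | add a b ha hb =>
    obtain ⟨n1, h1⟩ := ha
    obtain ⟨n2, h2⟩ := hb
    refine ⟨n1 + n2, fun n hn => ?_⟩
    obtain ⟨p, hp, e1⟩ := h1 n (by omega)
    obtain ⟨q, hq, e2⟩ := h2 n (by omega)
    exact ⟨p + q, hp.add hq, fun x hx => by rw [map_add, map_add, e1 x hx, e2 x hx, mul_add]⟩
  | mul_X a i ha =>
    obtain ⟨n1, h1⟩ := ha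
    refine ⟨n1 + 1, fun n hn => ?_⟩
    obtain ⟨n, rfl⟩ : ∃ m, n = m + 1 := ⟨n - 1, by omega⟩
    obtain ⟨p, hp, e1⟩ := h1 n (by omega)
    refine ⟨p * X i, hp.mul (isHomogeneous_X ℂ i), fun x hx => ?_⟩
    simp only [map_mul, e1 x hx, aeval_X]
    field_simp
    ring

theorem ic_root {U A : Type*} [CommRing A] (ev : U → A →+* ℂ) (w : U → ℂ) (z1 : U)
    (hev : ∀ a, (∀ z, ev z a = 0) → a = 0)
    (h : ∀ z τ, (∀ Q : Polynomial A, (∀ y, Q.eval₂ (ev y) (w y) = 0) → Q.eval₂ (ev z) τ = 0) →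
      τ = w z) : ∃ a b, (∃ z, ev z b ≠ 0) ∧ ∀ z, ev z b * w z = ev z a := by
  classical
  have hex : ∃ r, ∃ Q : Polynomial A, (∀ y, Q.eval₂ (ev y) (w y) = 0) ∧ Q ≠ 0 ∧ Q.natDegree = r := by
    by_contra! hn
    have := h z1 (w z1 + 1) fun Q hQ => by
      by_cases h0 : Q = 0
      · simp [h0]
      · exact (hn _ Q hQ h0 rfl).elim
    simp at this
  obtain ⟨P, hP, hP0, hr⟩ := Nat.find_spec hex
  have hmin : ∀ Q : Polynomial A, (∀ y, Q.eval₂ (ev y) (w y) = 0) → Q.natDegree < P.natDegree →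
      Q = 0 := fun Q hQ hlt => by
    by_contra h0
    exact Nat.find_min hex (hr ▸ hlt) ⟨Q, hQ, h0, rfl⟩
  have hlc : ∃ z, ev z P.leadingCoeff ≠ 0 := by
    by_contra! hz
    exact hP0 (Polynomial.leadingCoeff_eq_zero.1 (hev _ hz))
  have hpos : 0 < P.natDegree := by
    by_contra! hz
    obtain ⟨z, hz'⟩ := hlc
    have := hP z
    rw [Polynomial.eq_C_of_natDegree_le_zero hz, Polynomial.eval₂_C] at this
    exact hz' (by rw [Polynomial.leadingCoeff, Nat.le_zero.1 hz, this])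
  have key : ∀ z, ev z P.leadingCoeff ≠ 0 → ∀ τ, P.eval₂ (ev z) τ = 0 → τ = w z :=
    fun z hz τ hτ => h z τ fun Q => by
      induction hn : Q.natDegree using Nat.strong_induction_on generalizing Q with
      | _ n ih =>
        intro hQ
        by_cases hlt : Q.natDegree < P.natDegree
        · simp [hmin Q hQ hlt]
        have h1 := Polynomial.natDegree_cancelLeads_lt_of_natDegree_le_natDegree (not_lt.1 hlt)
          (hpos.trans_le (not_lt.1 hlt))
        have h2 := ih _ (hn ▸ h1) (P.cancelLeads Q) rfl fun y => by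
          simp only [Polynomial.cancelLeads, Polynomial.eval₂_sub, Polynomial.eval₂_mul, Polynomial.eval₂_C, Polynomial.eval₂_X_pow, hQ y, mul_zero, hP y, sub_self]
        simpa only [Polynomial.cancelLeads, Nat.sub_eq_zero_of_le (not_lt.1 hlt), pow_zero, mul_one, Polynomial.eval₂_sub, Polynomial.eval₂_mul, Polynomial.eval₂_C, Polynomial.eval₂_X_pow, hτ, mul_zero, sub_zero, mul_eq_zero, hz, false_or] using h2
  refine ⟨-(P.leadingCoeff * P.nextCoeff), P.natDegree * P.leadingCoeff ^ 2, ?_, fun z => ?_⟩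
  · obtain ⟨z, hz⟩ := hlc
    exact ⟨z, by simp only [map_mul, map_natCast, map_pow, ne_eq, mul_eq_zero, Nat.cast_eq_zero, hpos.ne', OfNat.ofNat_ne_zero, not_false_eq_true, pow_eq_zero_iff, hz, or_self]⟩
  by_cases hz : ev z P.leadingCoeff = 0
  · simp only [map_mul, map_natCast, map_pow, hz, ne_eq, OfNat.ofNat_ne_zero, not_false_eq_true, zero_pow, mul_zero, zero_mul, map_neg, neg_zero]
  have hd := Polynomial.natDegree_map_of_leadingCoeff_ne_zero (ev z) hz
  have hs := IsAlgClosed.splits (P.map (ev z))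
  have h1 := hs.nextCoeff_eq_neg_sum_roots_mul_leadingCoeff
  have h2 : (P.map (ev z)).roots = Multiset.replicate P.natDegree (w z) :=
    Multiset.eq_replicate.2 ⟨by rw [← hs.natDegree_eq_card_roots, hd], fun τ hτ =>
      key z hz τ (by rw [Polynomial.eval₂_eq_eval_map]; exact Polynomial.isRoot_of_mem_roots hτ)⟩
  have h3 : (P.map (ev z)).nextCoeff = ev z P.nextCoeff := by
    simp only [Polynomial.nextCoeff, hd, hpos.ne', ↓ reduceIte, Polynomial.coeff_map]
  rw [h2, h3, Polynomial.leadingCoeff_map_of_leadingCoeff_ne_zero _ hz] at h1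
  simp only [map_mul, map_natCast, map_pow, map_neg, h1, Multiset.sum_replicate, nsmul_eq_mul, neg_mul, mul_neg, neg_neg]; ring

theorem ic_ind {X : Type*} [TopologicalSpace X] {D : Set X} (hD : Dense D) {p : X → Prop} (z : X)
    (hp : IsClosed {z | p z}) (h : ∀ z ∈ D, p z) : p z := closure_minimal h hp (hD z)

theorem ic_diff {ι K : Type*} [CommRing K] [Algebra K ℂ] {θ : ι → V → ℂ}
    (hθ : ∀ i, Differentiable ℂ (θ i)) (p : MvPolynomial ι K) :
    Differentiable ℂ fun z => aeval (fun i => θ i z) p := by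
  induction p using MvPolynomial.induction_on with
  | C c => simp
  | add a b ha hb => simpa only [map_add] using ha.fun_add hb
  | mul_X a i ha => simpa only [map_mul, aeval_X] using ha.fun_mul (hθ i)

variable [FiniteDimensional ℂ V] {ι : Type*} [Fintype ι] {d : ℝ} {cd : V → ℂ} {θ : ι → V → ℂ}

/-- Quotients of sections are rational functions of an injective family. -/
theorem ic_rat (P : Pol H L) (hd : 0 < d) (hcd : Nm H L d cd) (hθ : ∀ i, θ i ∈ Sec H L d cd)
    (h0 : ∀ z, ∃ i, θ i z ≠ 0)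
    (hi : ∀ z w κ, (∀ i, θ i w = κ * θ i z) → w - z ∈ AddSubgroup.closure L)
    {u : V → ℂ} (hu : u ∈ Sec H L (d + d) (cd * cd)) {k : ι} {z1 : V} (hk : θ k z1 ≠ 0) :
    ∃ (n : ℕ) (p q : MvPolynomial ι ℂ), p.IsHomogeneous n ∧ q.IsHomogeneous n ∧
      (∃ z, aeval (fun i => θ i z) q ≠ 0) ∧
      ∀ z, aeval (fun i => θ i z) q * u z = aeval (fun i => θ i z) p * θ k z ^ 2 := by
  let U := {z // θ k z ≠ 0}
  let Φ : MvPolynomial ι ℂ →ₐ[ℂ] (U → ℂ) := aeval fun i z => θ i z.1 / θ k z.1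
  let ev : U → Φ.range →ₐ[ℂ] ℂ := fun z => (Pi.evalAlgHom ℂ _ z).comp Φ.range.val
  have hΦ : ∀ a z, Φ a z = aeval (fun i => θ i z.1 / θ k z.1) a := fun a z =>
    DFunLike.congr_fun (comp_aeval _ (Pi.evalAlgHom ℂ (fun _ : U => ℂ) z)) a
  obtain ⟨⟨_, a, rfl⟩, ⟨_, b, rfl⟩, ⟨z2, hb⟩, e⟩ := ic_root (fun z => (ev z).toRingHom)
    (fun z => u z.1 / θ k z.1 ^ 2) ⟨z1, hk⟩ (fun a h => Subtype.ext (funext h)) fun z τ h => by
      let y : ι → Φ.range := fun i => ⟨Φ (X i), _, rfl⟩
      have hy : ∀ w i, ev w (y i) = θ i w.1 / θ k w.1 := fun w i => by simp [ev, y, hΦ]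
      let g : Option (ι × ι) → Polynomial Φ.range := fun o =>
        o.elim Polynomial.X fun j => Polynomial.C (y j.1 * y j.2)
      have hg : ∀ (w : U) σ (p : MvPolynomial _ ℂ), (aeval g p).eval₂ (ev w).toRingHom σ =
          eval (fun o => o.elim σ fun j => θ j.1 w.1 / θ k w.1 * (θ j.2 w.1 / θ k w.1)) p :=
        fun w σ p => by
          induction p using MvPolynomial.induction_on with
          | C c => simp only [AlgHom.toRingHom_eq_coe, algHom_C, Polynomial.algebraMap_apply, Polynomial.eval₂_C, RingHom.coe_coe, AlgHom.commutes, Algebra.algebraMap_self, RingHom.id_apply, ne_eq, eval_C]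
          | add a b ha hb => simp only [map_add, Polynomial.eval₂_add, ha, hb]
          | mul_X a o ha =>
            simp only [map_mul, Polynomial.eval₂_mul, ha, aeval_X, eval_X]
            cases o <;> simp [g, hy]
      have hz := z.2
      obtain ⟨w, κ, hw⟩ := GPCW.img P (add_pos hd hd) (hcd.mul hcd)
        (θ := fun o : Option (ι × ι) => o.elim u fun j => θ j.1 * θ j.2)
        (fun o => by cases o; exacts [hu, sec_mul (hθ _) (hθ _)])
        (fun w => (h0 w).imp' (fun i => some (i, i)) fun i hi => mul_ne_zero hi hi)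
        (x := fun o => o.elim τ fun j => θ j.1 z.1 / θ k z.1 * (θ j.2 z.1 / θ k z.1))
        (fun h => by simpa only [ne_eq, Option.elim_some, hz, not_false_eq_true, div_self, mul_one, Pi.zero_apply, one_ne_zero] using congrFun h (some (k, k))) fun n p hp hv => by
          rw [← hg]
          refine h _ fun w => ?_
          have h1 := ic_scale hp ((θ k w.1 ^ 2)⁻¹) fun o => (o.elim u fun j => θ j.1 * θ j.2) w.1
          rw [hg, ← coe_aeval_eq_eval, RingHom.coe_coe]
          refine Eq.trans ?_ (h1.trans (mul_eq_zero_of_right _ (hv _)))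
          congr 2
          funext o
          cases o <;> simp only [ne_eq, Option.elim_none, Option.elim_some, Pi.mul_apply] <;> ring
      have h1 := hw none
      have h2 := fun i => hw (some (i, k))
      simp only [Option.elim, Pi.mul_apply, div_self hz, mul_one] at h1 h2
      have h3 := h2 k
      rw [div_self hz] at h3
      have hw0 : θ k w ≠ 0 := fun h => by simp [h] at h3
      have h4 := hi w z.1 (κ * θ k w * θ k z.1) fun i => by
        have := h2 i; field_simp at this; rw [this]; ring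
      have h5 := tp_inv (F := fun z => u z / θ k z ^ 2) (fun l hl z => by
        have h6 : cd l ≠ 0 := fun h => by
          have := hcd l hl
          rw [h, norm_zero] at this
          exact (Real.exp_pos _).ne this
        have := exp_ne_zero (d * H l z)
        simp only [hu.2 l hl, (hθ k).2 l hl, Pi.mul_apply, ofReal_add, add_mul, exp_add]
        by_cases h : θ k z = 0
        · simp [h]
        · field_simp) h4 w
      simp only [add_sub_cancel] at h5
      rw [h5, h1, eq_div_iff (pow_ne_zero _ hw0)]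
      linear_combination (-u w) * h3
  obtain ⟨n1, h1⟩ := ic_lift k a
  obtain ⟨n2, h2⟩ := ic_lift k b
  obtain ⟨p, hp, e1⟩ := h1 (n1 + n2) (by omega)
  obtain ⟨q, hq, e2⟩ := h2 (n1 + n2) (by omega)
  have hθd := fun i => (hθ i).1
  refine ⟨_, p, q, hp, hq, ⟨z2.1, ?_⟩, fun z => ic_ind (lf_dense (hθd k) hk) z
    (isClosed_eq ((ic_diff hθd _).continuous.mul hu.1.continuous)
      ((ic_diff hθd _).continuous.mul ((hθd k).continuous.pow 2))) fun z hz => ?_⟩
  · rw [e2 _ z2.2, ← hΦ]; exact mul_ne_zero (pow_ne_zero _ z2.2) hb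
  · have h3 : Φ b ⟨z, hz⟩ * (u z / θ k z ^ 2) = Φ a ⟨z, hz⟩ := e ⟨z, hz⟩
    have hz' : θ k z ≠ 0 := hz
    rw [hΦ, hΦ] at h3
    simp only [Pi.mul_apply, Pi.pow_apply]
    rw [e1 _ hz', e2 _ hz', ← h3]
    field_simp

end

/-- `img` for the products `θ i * θ j` and `W`, and a relation of minimal degree. -/
theorem gaga {k : Fin (N + 1)} (hk : P.θ k ≠ 0) {W : (Fin g → ℂ) → ℂ}
    (hW : W ∈ Sec P.H (Set.range P.ω) (P.d + P.d) (P.c * P.c)) :
    ∃ (e : ℕ) (p q : MvPolynomial (Fin (N + 1)) ℂ), p.IsHomogeneous e ∧ q.IsHomogeneous e ∧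
      (∃ z, eval (fun i => P.θ i z) q ≠ 0) ∧
      ∀ z, eval (fun i => P.θ i z) q * W z = eval (fun i => P.θ i z) p * P.θ k z ^ 2 := by
  obtain ⟨z1, hz⟩ := Function.ne_iff.1 hk
  refine ic_rat P.pol P.pos P.nm P.mem P.ne (fun z w κ h => ?_) hW hz
  obtain ⟨n, rfl⟩ := P.inj z w κ h
  rw [add_sub_cancel_left]
  exact sum_mem fun j _ => zsmul_mem (AddSubgroup.subset_closure (Set.mem_range_self j)) _

/-! ### Block ID -/

theorem id_alg {t : Fin g → ℂ} (ht : t ∈ Tp P.ω) (i k : Fin (N + 1)) :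
    IsAlgebraic ℚ (P.θ i t / P.θ k t) := by
  obtain ⟨κ, h0, h⟩ := P.tor t ht
  rw [← mul_div_mul_left _ _ h0, div_eq_mul_inv]
  exact (h i).mul (h k).inv

/-- With `k₀`, `y` from `Nrm` and `τ f z = f (z + t) * exp (-(d * H t z))` (`sec_tr`, `nm_tr`) apply
`sgt` to `s₀ = θ k₀ * τ (θ k)`, `s (some a) = θ (y a) * τ (θ k)`, `s none = θ k₀ * τ (θ i)`; the
quotients have algebraic values at torsion points (`tor`), so `desc_pts`, `exists_pm_ne` give a
relation over `Qb`; `nash_one` at `0` for `f z = θ i (z + t) / θ k (z + t)`. -/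
theorem jet (h : P.Nrm) (i k : Fin (N + 1)) (j : Fin g) {t : Fin g → ℂ} (ht : t ∈ Tp P.ω)
    (hk : P.θ k t ≠ 0) : IsAlgebraic ℚ (P.wr i k j t / P.θ k t ^ 2) := by
  obtain ⟨k₀, y, h0, hy⟩ := h
  have an : ∀ i, AnalyticOnNhd ℂ (P.θ i) Set.univ := fun i => sec_an (P.mem i)
  have ant : ∀ i z, AnalyticAt ℂ (fun z => P.θ i (z + t)) z := fun i z =>
    (an i _ trivial).comp (f := fun z => z + t) (analyticAt_id.add analyticAt_const)
  have nm : Nm P.H (Set.range P.ω) (P.d + P.d)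
      (P.c * fun l => P.c l * exp (P.d * (P.H l t - P.H t l))) := fun l hl => by
    rw [Pi.mul_apply, _root_.norm_mul, nm_tr P.pol P.nm t l hl, P.nm l hl, ← Real.exp_add]
    congr 1; ring
  obtain ⟨Q, hQ, hv⟩ := sgt P.pol (add_pos P.pos P.pos).le nm
    (sec_mul (P.mem k₀) (sec_tr (P.mem k) t))
    (s := fun o => o.elim (P.θ k₀ * fun z => P.θ i (z + t) * exp (-(P.d * P.H t z)))
      fun a => P.θ (y a) * fun z => P.θ k (z + t) * exp (-(P.d * P.H t z)))
    (fun o => by
      cases o with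
      | none => exact sec_mul (P.mem k₀) (sec_tr (P.mem i) t)
      | some a => exact sec_mul (P.mem (y a)) (sec_tr (P.mem k) t))
  obtain ⟨π, hπ⟩ := exists_pm_ne hQ
  have hO : IsOpen {z | P.θ k₀ z ≠ 0 ∧ P.θ k (z + t) ≠ 0} :=
    (isOpen_ne_fun (P.mem k₀).1.continuous continuous_const).inter
      (isOpen_ne_fun ((P.mem k).1.continuous.comp (continuous_add_const t)) continuous_const)
  have m0 : (0 : Fin g → ℂ) ∈ {z | P.θ k₀ z ≠ 0 ∧ P.θ k (z + t) ≠ 0} := ⟨h0, by simpa using hk⟩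
  have hd := desc_pts hO (tp_dense P.ω) (Q := Q)
    (u := fun o z => o.elim (P.θ i (z + t) / P.θ k (z + t)) fun a => P.θ (y a) z / P.θ k₀ z)
    (fun o z hz => by
      cases o with
      | none => exact ((ant i z).div (ant k z) hz.2).continuousAt.continuousWithinAt
      | some a =>
        exact ((an _ z trivial).div (an _ z trivial) hz.1).continuousAt.continuousWithinAt)
    (fun z hz _ o => by
      cases o with
      | none => exact P.id_alg (add_mem hz ht) _ _
      | some a => exact P.id_alg hz _ _)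
    (fun z hz => by
      refine Eq.trans ?_ (hv z (mul_ne_zero hz.1 (mul_ne_zero hz.2 (exp_ne_zero _))))
      congr 2
      funext o
      have h1 := hz.1
      have h2 := hz.2
      cases o <;> simp only [Option.elim, Pi.mul_apply] <;> field_simp) π
  have e : ∀ a (v : Fin g → ℂ), fderiv ℂ (fun z => P.θ (y a) z / P.θ k₀ z) 0 v = v a := by
    intro a v
    have h1 : ∀ l, fderiv ℂ (fun z => P.θ (y a) z / P.θ k₀ z) 0 (Pi.single l 1) =
      if a = l then 1 else 0 := hy a
    conv_lhs => rw [pi_eq_sum_univ' v]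
    simp only [map_sum, map_smul, h1, smul_eq_mul, mul_ite, mul_one, mul_zero, Finset.sum_ite_eq, Finset.mem_univ, ↓ reduceIte]
  have au : ∀ a, AnalyticAt ℂ (fun z => P.θ (y a) z / P.θ k₀ z) 0 := fun a =>
    (an _ 0 trivial).div (an _ 0 trivial) h0
  have key := nash_one (u := fun a z => P.θ (y a) z / P.θ k₀ z)
    (f := fun z => P.θ i (z + t) / P.θ k (z + t)) au ((ant i 0).div (ant k 0) m0.2)
    (fun v => ⟨v, by
      rw [fderiv_pi fun a => (au a).differentiableAt]
      exact funext fun a => e a v⟩) hπ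
    (Filter.eventually_of_mem (hO.mem_nhds m0) hd) (fun a => P.id_alg (zero_mem _) _ _)
    (w := Pi.single j 1) fun a => by
      rw [e, Pi.single_apply]
      split_ifs
      exacts [isAlgebraic_one, isAlgebraic_zero]
  rw [fderiv_comp_add_right (f := fun z => P.θ i z / P.θ k z), zero_add] at key
  have h3 := ((P.mem i).1 t).hasFDerivAt.mul
    ((hasFDerivAt_inv hk).comp t ((P.mem k).1 t).hasFDerivAt)
  rw [show (fun z => P.θ i z / P.θ k z) = P.θ i * (fun x => x⁻¹) ∘ P.θ k from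
    funext fun z => div_eq_mul_inv _ _, h3.fderiv] at key
  convert key using 1
  simp only [wr, Pi.sub_apply, Pi.mul_apply, pd, Function.comp_apply, add_apply, smul_apply, ContinuousLinearMap.comp_apply, ContinuousLinearMap.toSpanSingleton_apply, smul_eq_mul, mul_neg]
  field_simp
  ring

/-! ### Block IE -/

/-- Change of coordinates. -/
noncomputable def ie_comp (L : (Fin g → ℂ) ≃ₗ[ℂ] (Fin g → ℂ)) : Pre g N where
  ω := P.ω.map (L.symm.restrictScalars ℝ)
  H := (P.H.comp L.toLinearMap).compl₂ L.toLinearMap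
  d := P.d
  c := fun z => P.c (L z)
  θ := fun i z => P.θ i (L z)
  pol := ⟨fun w z => P.pol.herm (L w) (L z), fun u hu => P.pol.pos (L u) (by simpa using hu),
    pol_of_basis _⟩
  pos := P.pos
  nm := by
    rintro _ ⟨j, rfl⟩
    simpa only [Basis.map_apply, LinearEquiv.restrictScalars_apply, LinearEquiv.apply_symm_apply, LinearMap.compl₂_apply, LinearMap.coe_comp, LinearEquiv.coe_coe, Function.comp_apply] using P.nm _ ⟨j, rfl⟩
  mem := fun i => ⟨(P.mem i).1.comp L.toContinuousLinearEquiv.differentiable, by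
    rintro _ ⟨j, rfl⟩ z
    simpa using (P.mem i).2 _ ⟨j, rfl⟩ (L z)⟩
  ne := fun z => P.ne (L z)
  inj := fun z w c h => by
    obtain ⟨n, hn⟩ := P.inj (L z) (L w) c h
    exact ⟨n, L.injective (by simpa only [Basis.map_apply, LinearEquiv.restrictScalars_apply, map_add, map_sum, map_zsmul, LinearEquiv.apply_symm_apply] using hn)⟩
  imm := fun z v c h => by
    refine L.injective ((P.imm (L z) (L v) c fun i => ?_).trans (map_zero L).symm)
    rw [← h i]
    exact (DFunLike.congr_fun (((P.mem i).1 (L z)).hasFDerivAt.comp z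
      L.toContinuousLinearEquiv.hasFDerivAt).fderiv v).symm
  tor := fun t ht => P.tor (L t) fun j => by simpa using ht j

/-- By `imm` the differentials at `0` of the `θ i / θ k` span the dual space; choose a basis among
them (`exists_linearIndependent`), let `L` be the inverse of the map they define, and compose
everything with `L`. -/
theorem chg : ∃ (P' : Pre g N) (L : (Fin g → ℂ) ≃ₗ[ℂ] (Fin g → ℂ)), P'.Nrm ∧
    ∀ j, L (P'.ω j) = P.ω j := by
  obtain ⟨k, hk⟩ := P.ne 0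
  have hD := fun i => (((P.mem i).1 0).hasFDerivAt.mul
    ((hasDerivAt_inv hk).comp_hasFDerivAt 0 ((P.mem k).1 0).hasFDerivAt))
  obtain ⟨D, hD, h0⟩ : ∃ D : Fin (N + 1) → (Fin g → ℂ) →L[ℂ] ℂ,
      (∀ i, HasFDerivAt (fun z => P.θ i z / P.θ k z) (D i) 0) ∧ ∀ v, (∀ i, D i v = 0) → v = 0 := by
    refine ⟨_, fun i => by simp only [div_eq_mul_inv]; exact hD i, fun v hv => P.imm 0 v
      (fderiv ℂ (P.θ k) 0 v / P.θ k 0) fun i => ?_⟩
    have := hv i
    simp only [add_apply, smul_apply, smul_eq_mul, Function.comp_apply] at this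
    field_simp at this ⊢
    linear_combination this
  have hs : ∀ i v, D i v = (fun j => D i (Pi.single j 1)) ⬝ᵥ v := fun i v => by
    conv_lhs => rw [pi_eq_sum_univ' v, map_sum]
    simp only [map_smul, smul_eq_mul, dotProduct, mul_comm]
  have h1 : LinearIndependent ℂ fun j i => D i (Pi.single j 1) := by
    rw [Fintype.linearIndependent_iff]
    refine fun v hv => congrFun (h0 v fun i => ?_)
    simpa only [hs i v, dotProduct, mul_comm, Finset.sum_apply, Pi.smul_apply, smul_eq_mul, Pi.zero_apply] using congrFun hv i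
  have h2 := span_flip_eq_top_iff_linearIndependent.2 h1
  obtain ⟨f, hf, -, h3⟩ := Submodule.exists_fun_fin_finrank_span_eq ℂ
    (Set.range (flip fun j i => D i (Pi.single j 1)))
  choose y hy using hf
  have hc : g = finrank ℂ (Submodule.span ℂ (Set.range (flip fun j i => D i (Pi.single j 1)))) := by
    rw [h2, finrank_top, finrank_fin_fun]
  have h4 : IsUnit (Matrix.of fun a j => D (y (Fin.cast hc a)) (Pi.single j 1)) := by
    rw [← Matrix.linearIndependent_rows_iff_isUnit]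
    have := h3.comp _ (Fin.cast_injective hc)
    rw [← funext hy] at this
    exact this
  let T := LinearEquiv.ofInjectiveEndo
    (Matrix.of fun a j => D (y (Fin.cast hc a)) (Pi.single j 1)).mulVecLin
    (Matrix.mulVec_injective_iff_isUnit.2 h4)
  refine ⟨P.ie_comp T.symm, T.symm, ⟨k, fun a => y (Fin.cast hc a), by simpa [ie_comp] using hk,
    fun a j => ?_⟩, fun j => by simp [ie_comp]⟩
  have h5 := (show HasFDerivAt _ _ (T.symm.toContinuousLinearEquiv 0) by
    simpa using hD (y (Fin.cast hc a))).comp 0 T.symm.toContinuousLinearEquiv.hasFDerivAt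
  refine (DFunLike.congr_fun h5.fderiv _).trans ((hs _ _).trans ?_)
  exact (congrFun (T.apply_symm_apply (Pi.single j 1)) a).trans (Pi.single_apply _ _ _)

/-- If `θ k = 0` take `p = q = 1`; otherwise `sec_wr`, `gaga`, `jet`, `rat`. -/
theorem der (h : P.Nrm) (i k : Fin (N + 1)) (j : Fin g) :
    IsRat P.θ (P.θ k * pd j (P.θ i) - P.θ i * pd j (P.θ k)) (P.θ k ^ 2) := by
  by_cases hk : P.θ k = 0
  · refine ⟨0, 1, 1, isHomogeneous_one _ _, isHomogeneous_one _ _, ⟨0, by simp [val]⟩, fun z => ?_⟩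
    simp [hk, pd]
  have hW := sec_wr (P.mem k) (P.mem i) (Pi.single j 1)
  obtain ⟨e, p, q, hp, hq, hne, h0⟩ := P.gaga hk hW
  exact P.rat (sec_an hW) ((sec_an (P.mem k)).pow 2) (pow_ne_zero 2 hk) hp hq hne h0
    fun t ht h1 => P.jet h i k j ht fun h2 => h1 (by simp [h2])

/-- `chg`; `a j = d * H (ω j)`, `b j = log (c (ω j))`. -/
theorem exists_ab : ∃ (A : AbVar g N) (L : (Fin g → ℂ) ≃ₗ[ℂ] (Fin g → ℂ)),
    ∀ j, L (A.ω j) = P.ω j := by
  obtain ⟨Q, L, hQ, hL⟩ := P.chg
  refine ⟨⟨Q.ω, Q.θ, fun j => LinearMap.toContinuousLinearMap ((Q.d : ℂ) • Q.H (Q.ω j)),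
    fun j => log (Q.c (Q.ω j)), fun i => sec_an (Q.mem i), fun i j z => ?_, Q.ne, Q.inj, Q.imm,
    Q.alg, Q.der hQ⟩, L, hL⟩
  have h0 : Q.c (Q.ω j) ≠ 0 := by
    rw [← norm_pos_iff, Q.nm _ ⟨j, rfl⟩]
    exact Real.exp_pos _
  rw [(Q.mem i).2 _ ⟨j, rfl⟩, exp_add, exp_log h0, mul_comm (Q.c _)]
  rfl

end Pre

end GPCW

end

section

/-! Rigidity: theta values at an isolated fixed point of a symmetry are algebraic. -/

open Complex Module Filter Topology GPC73

namespace GPCW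

variable {V : Type} [NormedAddCommGroup V] [NormedSpace ℂ V] [FiniteDimensional ℂ V] {n : ℕ}
  {J σ : Type} [Fintype J] [Fintype σ] [DecidableEq σ]

/-- A point with a rational symmetry that acts by `-1` on the tangent space. -/
structure Sym (T : Dat V n J σ) (x : σ → ℂ) where
  mem : x ∈ T.X
  ε : σ → V
  ε' : σ → V
  ρ : σ → ℂ
  ρ_ne : ∀ a, ρ a ≠ 0
  vec : ∀ a j, ρ a • T.g1 a j - (2 * T.B (gen T.g0 T.g1 x j) (ε a)) • ε' a -
    (2 * T.B (gen T.g0 T.g1 x j) (ε' a)) • ε a ∈ T.F x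
  ν : σ → V
  ν' : σ → V
  ν_mem : ∀ a, ν a ∈ T.F x
  ν'_mem : ∀ a, ν' a ∈ T.F x
  tab : ∀ a b, T.B (ν a) (ε b) * T.B (ν' a) (ε' b) + T.B (ν a) (ε' b) * T.B (ν' a) (ε b) = 0 ↔ a ≠ b
  α : V →ₗ[ℂ] V
  iso : ∀ u v, T.B (α u) (α v) = T.B u v
  rat : ∀ r ∈ Rq T.e, α r ∈ Rq T.e
  fix : ∀ v ∈ T.F x, α v ∈ T.F x
  eig : ∀ a, (α (ε a) = ε a ∧ α (ε' a) = -ε' a) ∨ (α (ε a) = -ε a ∧ α (ε' a) = ε' a)

variable {T : Dat V n J σ} {Φ : (σ → ℂ) → V → ℂ} {x : σ → ℂ}

/-- The second order operator attached to a tangent vector. -/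
noncomputable def Sym.lap (s : Sym T x) (μ : σ → ℂ) (G : V → ℂ) (y : V) : ℂ :=
  ∑ a, μ a * nabl T.B [s.ε a, s.ε' a] G y

/-! ### Block RA -/

/-- The proof of `Th.eig` for an arbitrary class `W`. -/
theorem eig_gen {B : V →ₗ[ℂ] V →ₗ[ℂ] ℂ} {R : AddSubgroup V} (hR : Rt B R) (W : (V → ℂ) → Prop)
    (hS : ∀ G, W G → ∀ w ∈ R, W (S B w G))
    (hl : ∀ G G' (a : ℂ), W G → W G' → IsAlgebraic ℚ a → W (G - a • G'))
    (hp : ∀ G, W G → ∀ r ∈ R, ∃ M : ℕ, 0 < M ∧ S B ((M : ℂ) • r) G = G)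
    {ι : Type} [Fintype ι] [DecidableEq ι] {e e' : ι → V} (he : ∀ i, e i ∈ R) (he' : ∀ i, e' i ∈ R)
    (hd : ∀ i j, B (e i) (e' j) = if i = j then Real.pi * I else 0)
    (hz : ∀ i j, ∃ m : ℤ, B (e i) (e j) = Real.pi * I * m) {G : V → ℂ} (h : W G) (h0 : G ≠ 0) :
    ∃ G', G' ≠ 0 ∧ W G' ∧ ∀ i, S B (e i) G' = G' := by
  have key : ∀ s : Finset ι, ∃ G', G' ≠ 0 ∧ W G' ∧ ∀ i ∈ s, S B (e i) G' = G' := by
    intro s
    induction s using Finset.induction_on with
    | empty => exact ⟨G, h0, h, by simp⟩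
    | insert i s hi ih =>
      obtain ⟨G₁, n₁, t₁, f₁⟩ := ih
      obtain ⟨M, hM, eM⟩ := hp _ t₁ _ (he i)
      have hq := Complex.isPrimitiveRoot_exp M hM.ne'
      have hE := (hb_eigvec (hbS B (e i))
        (fun H => W H ∧ ∀ j ∈ s, S B (e j) H = H) ?_ ?_ ⟨t₁, f₁⟩ n₁
        (Polynomial.nthRootsFinset M 1) ?_).2 ?_
      · obtain ⟨ζ, hζ, H, ⟨tH, fH⟩, nH, eH⟩ := hE
        have : NeZero M := ⟨hM.ne'⟩
        obtain ⟨k, -, hk⟩ := hq.eq_pow_of_pow_eq_one ((Polynomial.mem_nthRootsFinset hM 1).1 hζ)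
        have hw := hR.smul (-(k : ℚ) / M) _ (he' i)
        refine ⟨_, S_ne _ nH, hS _ tH _ hw, fun j hj => ?_⟩
        rw [hb_S_comm hR.alt, map_smul, hd]
        rcases Finset.mem_insert.1 hj with rfl | hj
        · have eH' : S B (e j) H = fun y => ζ * H y := eH
          rw [eH', hb_S_mul, if_pos rfl]
          funext y
          rw [← mul_assoc, ← hk, ← Complex.exp_nat_mul, ← Complex.exp_add]
          have hM' : (M : ℂ) ≠ 0 := by exact_mod_cast hM.ne'
          have : 2 * ((-(k : ℚ) / M : ℚ) : ℂ) • ((Real.pi : ℂ) * I)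
              + (k : ℂ) * (2 * Real.pi * I / M) = 0 := by
            rw [smul_eq_mul]; push_cast; field_simp; ring
          rw [this]; simp
        · have : j ≠ i := fun e => hi (e ▸ hj)
          rw [if_neg this, fH j hj]
          simp
      · rintro H ⟨tH, fH⟩
        refine ⟨hS _ tH _ (he i), fun j hj => ?_⟩
        show S B (e j) (S B (e i) H) = S B (e i) H
        obtain ⟨m, hm⟩ := hz j i
        rw [hb_S_comm hR.alt, fH j hj, hm]
        have : 2 * (Real.pi * I * (m : ℂ)) = (m : ℂ) * (2 * Real.pi * I) := by ring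
        rw [this, Complex.exp_int_mul_two_pi_mul_I]
        simp
      · rintro H H' a ⟨tH, fH⟩ ⟨tH', fH'⟩ ha
        have e1 : H - a • H' = fun y => 1 * H y + -a * H' y := by
          funext y; simp only [Pi.sub_apply, Pi.smul_apply, smul_eq_mul]; ring
        refine ⟨hl _ _ _ tH tH' ha, fun j hj => ?_⟩
        rw [e1, hb_S_lin, fH j hj, fH' j hj]
      · intro ζ hζ
        apply IsAlgebraic.of_pow hM
        rw [(Polynomial.mem_nthRootsFinset hM 1).1 hζ]
        exact isAlgebraic_one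
      · rw [← Polynomial.X_pow_sub_one_eq_prod hM hq]
        simp only [map_sub, map_pow, Polynomial.aeval_X, map_one, LinearMap.sub_apply,
          Module.End.one_apply]
        rw [hbS_pow hR.alt, eM, sub_self]
  obtain ⟨G', a, b, c⟩ := key Finset.univ
  exact ⟨G', a, b, fun i => c i (Finset.mem_univ i)⟩

/-- `exists_den`, `Sy.two`. -/
theorem Fm.per_rat (h : Fm T Φ) (hx : x ∈ T.X) {r : V} (hr : r ∈ Rq T.e) :
    ∃ M : ℕ, 0 < M ∧ S T.B ((M : ℂ) • r) (Φ x) = Φ x := by
  obtain ⟨N, hN, h1⟩ := exists_den hr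
  refine ⟨2 * N, by positivity, ?_⟩
  rw [Nat.cast_mul, mul_smul]
  exact T.sy.two (h.per x hx) h1

/-- As `Fm.rel`, with `siegelG` for the sections `Φ x (v o) * Φ x v₀`. -/
theorem Fm.relq (h : Fm T Φ) {v₀ : V} (h₀ : v₀ ∈ Rq T.e) {v : Option σ → V}
    (hv : ∀ o, v o ∈ Rq T.e) : ∃ Q : MvPolynomial (Option σ) ℂ, Q ≠ 0 ∧ ∀ x ∈ T.X, Φ x v₀ ≠ 0 →
      MvPolynomial.eval (fun o => Φ x (v o) / Φ x v₀) Q = 0 := by
  obtain ⟨N, hN, hw⟩ : ∃ N : ℕ, 0 < N ∧ ∀ i : Option (Option σ), (N : ℂ) • i.elim v₀ v ∈ Rz T.e := by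
    choose N h0 hN using fun i : Option (Option σ) =>
      exists_den (show i.elim v₀ v ∈ Rq T.e from i.rec h₀ hv)
    refine ⟨∏ j, N j, Finset.prod_pos fun j _ => h0 j, fun j => ?_⟩
    rw [← Finset.prod_erase_mul _ _ (Finset.mem_univ j), Nat.cast_mul, mul_smul]
    exact fd_nat (hN j) _
  obtain ⟨K, hKX, hK, hq⟩ := T.coc (2 * N ^ 2) (by positivity)
  obtain ⟨Q, hQ, h1⟩ := siegelG (h := fun x => hh T.e (Φ x)) (s₀ := fun x => Φ x v₀ * Φ x v₀)
    (s := fun o x => Φ x (v o) * Φ x v₀) (by simp only [Fintype.card_option, lt_add_iff_pos_right, Order.lt_one_iff]) T.op hK hKX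
    (fun x hx => (fe_an h hx [] _).mul (fe_an h hx [] _))
    (fun o x hx => (fe_an h hx [] _).mul (fe_an h hx [] _)) (fun x hx => h.hh_one (hKX hx))
    (fun K' h1 h2 => h.hh_le h1 h2) fun x hx => by
      obtain ⟨x', hx', γ, hγ⟩ := hq x hx
      obtain ⟨c, hc0, hc⟩ := h.mod hx (hKX hx') hγ
      have h0 : Φ x' v₀ = c * Φ x v₀ := h.mod_val hx (hKX hx') hN hγ hc (hw none) []
      have h1 : ∀ o, Φ x' (v o) = c * Φ x (v o) := fun o =>
        h.mod_val hx (hKX hx') hN hγ hc (hw (some o)) []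
      refine ⟨x', hx', c ^ 2, pow_ne_zero 2 hc0, ?_, fun o => ?_, fd_hh T.sy hγ hc⟩ <;>
        simp only [h0, h1] <;> ring
  refine ⟨Q, hQ, fun x hx h0 => ?_⟩
  simpa only [mul_div_mul_right _ _ h0] using h1 x hx (mul_ne_zero h0 h0)

/-! ### Block RB -/

/-- `Fm.relq`, `Pt.jet`, `desc_hom`. -/
theorem Pt.relq (h : Fm T Φ) {c : ℂ} (p : Pt T c) {v₀ : V} (h₀ : v₀ ∈ Rq T.e) (h1 : Φ p.x v₀ ≠ 0)
    {v : Option σ → V} (hv : ∀ o, v o ∈ Rq T.e) :
    ∃ Q : MvPolynomial (Option σ) Qb, Q ≠ 0 ∧ ∀ x ∈ T.X, Φ x v₀ ≠ 0 →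
      MvPolynomial.aeval (fun o => Φ x (v o) / Φ x v₀) Q = 0 := by
  obtain ⟨Q, hQ, h2⟩ := h.relq h₀ hv
  have a : ∀ r, AnalyticOnNhd ℂ (fun x => Φ x r) T.X := fun r x hx => fe_an h hx [] r
  have m : ∀ r ∈ Rq T.e, ∃ f ∈ Algebra.adjoin (algebraicClosure ℚ ℂ) (p.Q Φ v₀),
      (fun y => Φ y r / Φ y v₀) =ᶠ[𝓝 p.x] f := fun r hr =>
    ⟨_, Algebra.subset_adjoin ⟨r, hr, [], by simp, rfl⟩, .rfl⟩
  exact desc_hom T.op T.cv.isPreconnected (a v₀) (fun o => a (v o)) hQ h2 p.mem (p.jet h h₀ h1)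
    ((a v₀ _ p.mem).continuousAt.eventually_ne h1) (m _ h₀) fun o => m _ (hv o)

/-! ### Block RC -/

theorem rc_one (h : Fm T Φ) (s : Sym T x) {v₀ : V} (h0 : Φ x v₀ ≠ 0) (a : σ) (r : V) :
    fderiv ℂ (fun x => Φ x r / Φ x v₀) x (Pi.single a 1) =
      (nabl T.B [s.ε a, s.ε' a] (Φ x) r / Φ x v₀ -
        nabl T.B [s.ε a, s.ε' a] (Φ x) v₀ / Φ x v₀ * (Φ x r / Φ x v₀)) / s.ρ a := by
  obtain ⟨c, hc⟩ := h.pde s.mem a (s.vec a)
  have an : ∀ y, AnalyticAt ℂ (fun x => Φ x y) x := fun y => fe_an h s.mem [] y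
  have d1 := (an r).differentiableAt.hasFDerivAt.hasLineDerivAt (Pi.single a 1)
  have d2 := (an v₀).differentiableAt.hasFDerivAt.hasLineDerivAt (Pi.single a 1)
  have d3 := ((an r).fun_div (an v₀) h0).differentiableAt.hasFDerivAt.hasLineDerivAt
    (Pi.single a 1)
  have e3 := HasDerivAt.unique d3 (HasDerivAt.fun_div d1 d2 (by simpa using h0))
  simp only [zero_smul, add_zero] at e3
  have hρ := s.ρ_ne a
  rw [e3]
  simp only [nabl]
  field_simp
  linear_combination Φ x v₀ * hc r - Φ x r * hc v₀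

/-- `Fm.pde`, the quotient rule, `ξ = ∑ ξ a • single a 1`. -/
theorem Sym.der (h : Fm T Φ) (s : Sym T x) {v₀ : V} (h0 : Φ x v₀ ≠ 0) (ξ : σ → ℂ) (r : V) :
    fderiv ℂ (fun x => Φ x r / Φ x v₀) x ξ =
      s.lap (fun a => ξ a / s.ρ a) (Φ x) r / Φ x v₀ -
        s.lap (fun a => ξ a / s.ρ a) (Φ x) v₀ / Φ x v₀ * (Φ x r / Φ x v₀) := by
  conv_lhs => rw [pi_eq_sum_univ' ξ]
  simp only [map_sum, map_smul, rc_one h s h0, smul_eq_mul, Sym.lap, Finset.sum_div,
    Finset.sum_mul, ← Finset.sum_sub_distrib]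
  exact Finset.sum_congr rfl fun a _ => by ring

/-- Apply `nabl [ν a, ν' a]` (`ff_sum`, `ff_four`, `tab`). -/
theorem Sym.li (h : Fm T Φ) (s : Sym T x) {μ : σ → ℂ} {c : ℂ}
    (e : ∀ y, s.lap μ (Φ x) y = c * Φ x y) : μ = 0 := by
  funext a
  have en := h.en s.mem
  obtain ⟨y, hy⟩ := Function.ne_iff.1 (h.ne s.mem)
  have f4 := fun u u' p q =>
    congrFun (ff_four T.sy.alt en (h.inv _ s.mem) (s.ν_mem a) (s.ν'_mem a) u u' p q) y
  have e1 := congrFun (ff_sum (B := T.B) Finset.univ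
    (A := fun b => nabl T.B [s.ε b, s.ε' b] (Φ x)) (fun b => en.nabl _) μ [s.ν a, s.ν' a]).2 y
  have e0 : (fun y => ∑ b, μ b * nabl T.B [s.ε b, s.ε' b] (Φ x) y) =
      fun y => 0 * nab T.B 0 (nab T.B 0 (Φ x)) y + c * Φ x y :=
    funext fun y => by rw [zero_mul, zero_add]; exact e y
  have e2 : ∀ b, nabl T.B [s.ν a, s.ν' a] (nabl T.B [s.ε b, s.ε' b] (Φ x)) y =
      4 * (T.B (s.ν a) (s.ε b) * T.B (s.ν' a) (s.ε' b) +
        T.B (s.ν a) (s.ε' b) * T.B (s.ν' a) (s.ε b)) * Φ x y := fun b => by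
    simpa only [nabl, one_mul, zero_mul, add_zero, mul_one] using f4 (s.ε b) (s.ε' b) 1 0
  rw [e0, f4, Finset.sum_eq_single a (fun b _ hb => by rw [e2, (s.tab a b).2 hb.symm]; simp)
    (by simp only [Finset.mem_univ, not_true_eq_false, mul_eq_zero, IsEmpty.forall_iff]), e2] at e1
  have e3 := mt (s.tab a a).1 fun c => c rfl
  have e4 : Φ x y ≠ 0 := hy
  simpa [e4, e3] using e1.symm

/-- As `Pt.indep`: `den_det`, `Sym.li`, `Sym.der`. -/
theorem Sym.indep (h : Fm T Φ) (s : Sym T x) {v₀ : V} (h0 : Φ x v₀ ≠ 0) :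
    ∃ v : σ → V, (∀ a, v a ∈ Rq T.e) ∧
      Function.Surjective (fderiv ℂ (fun x a => Φ x (v a) / Φ x v₀) x) := by
  have en := h.en s.mem
  have hen : ∀ a, En fun y => fderiv ℂ (fun x => Φ x y / Φ x v₀) x (Pi.single a 1) := fun a => by
    simp only [rc_one h s h0]
    exact (((en.nabl _).div_const).sub (analyticOnNhd_const.mul en.div_const)).div_const
  have hi : LinearIndependent ℂ
      fun a y => fderiv ℂ (fun x => Φ x y / Φ x v₀) x (Pi.single a 1) := by
    refine Fintype.linearIndependent_iff.2 fun g hg a => ?_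
    have e1 := s.li h (μ := fun a => g a / s.ρ a)
      (c := s.lap (fun a => g a / s.ρ a) (Φ x) v₀ / Φ x v₀) fun y => by
        have e2 := s.der h h0 g y
        have e3 : fderiv ℂ (fun x => Φ x y / Φ x v₀) x g = 0 := by
          conv_lhs => rw [pi_eq_sum_univ' g]
          simpa only [map_sum, map_smul, Finset.sum_apply, Pi.smul_apply, Pi.zero_apply]
            using congrFun hg y
        rw [e3, eq_comm, sub_eq_zero, ← mul_div_assoc, div_left_inj' h0] at e2
        exact e2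
    simpa [s.ρ_ne a] using congrFun e1 a
  obtain ⟨v, hv, hd⟩ := den_det hen hi
  refine ⟨v, hv, fun w => ?_⟩
  have dq : ∀ a, DifferentiableAt ℂ (fun x => Φ x (v a) / Φ x v₀) x := fun a =>
    ((fe_an h s.mem [] (v a)).fun_div (fe_an h s.mem [] v₀) h0).differentiableAt
  obtain ⟨z, hz⟩ := Matrix.vecMul_surjective_iff_isUnit.2
    ((Matrix.isUnit_iff_isUnit_det _).2 hd.isUnit) w
  refine ⟨z, funext fun b => ?_⟩
  rw [← hz, fderiv_pi dq, ContinuousLinearMap.pi_apply]
  conv_lhs => rw [pi_eq_sum_univ' z]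
  simp only [map_sum, map_smul, smul_eq_mul, Matrix.vecMul, dotProduct, Matrix.of_apply]

/-! ### Block RD -/

theorem rd_lap (s : Sym T x) (μ : σ → ℂ) {G : V → ℂ} (hG : En G) (a : ℂ) (r : V) :
    s.lap μ (fun y => G y / a) r = s.lap μ G r / a := by
  have e : (fun y => G y / a) = fun y => a⁻¹ * G y + 0 * G y := funext fun y => by ring
  simp only [Sym.lap, e, nabl_lin hG hG, Finset.sum_div]
  exact Finset.sum_congr rfl fun b _ => by ring

/-- `Sym.indep` gives coordinates `u a` and `ξ` with `d (u a) ξ = δ (u a x)`; `Pt.relq`, `nash`,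
`Sym.der`. -/
theorem Sym.flow (h : Fm T Φ) {c : ℂ} (p : Pt T c) (s : Sym T x) {v₀ : V} (h₀ : v₀ ∈ Rq T.e)
    (h1 : Φ p.x v₀ ≠ 0) (h2 : Φ x v₀ ≠ 0) (δ : Derivation ℚ ℂ ℂ) : ∃ (μ : σ → ℂ) (κ : ℂ),
      ∀ r ∈ Rq T.e, δ (Φ x r / Φ x v₀) =
        s.lap μ (fun y => Φ x y / Φ x v₀) r - κ * (Φ x r / Φ x v₀) := by
  obtain ⟨v, hv, hs⟩ := s.indep h h2
  obtain ⟨ξ, hξ⟩ := hs fun a => δ (Φ x (v a) / Φ x v₀)
  have an : ∀ y, AnalyticAt ℂ (fun x => Φ x y / Φ x v₀) x := fun y =>
    (fe_an h s.mem [] y).fun_div (fe_an h s.mem [] v₀) h2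
  refine ⟨fun a => ξ a / s.ρ a, s.lap (fun a => ξ a / s.ρ a) (Φ x) v₀ / Φ x v₀, fun r hr => ?_⟩
  obtain ⟨Q, hQ, hQ0⟩ := p.relq h h₀ h1 (v := fun o => o.elim r v) (by
    rintro (_ | a)
    exacts [hr, hv a])
  rw [rd_lap s _ (h.en s.mem), ← s.der h h2]
  refine nash (u := fun a x => Φ x (v a) / Φ x v₀) (fun a => an (v a)) (an r) hs hQ ?_ δ
    fun a => ?_
  · filter_upwards [T.op.mem_nhds s.mem,
      (fe_an h s.mem [] v₀).continuousAt.eventually_ne h2] with y hy hy0
    refine Eq.trans ?_ (hQ0 y hy hy0)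
    congr 2
    funext o
    cases o <;> rfl
  · rw [← congrFun hξ a, fderiv_pi fun a => (an (v a)).differentiableAt,
      ContinuousLinearMap.pi_apply]

/-- `den` for `Φ p.x * Φ x` (`En.mul_ne`) gives `v₀`; `G = Φ x / Φ x v₀`; `Sym.flow`, `Sym.kill`
(stated above this lemma in block RE), `G v₀ = 1` gives `κ = 0`; `alg_of_der`. -/
theorem rig' (h : Fm T Φ) {c : ℂ} (p : Pt T c) (s : Sym T x)
    (kill : ∀ (a : ℂ), a ≠ 0 → ∀ (δ : Derivation ℚ ℂ ℂ) (μ : σ → ℂ) (κ : ℂ),
      (∀ r ∈ Rq T.e, δ (Φ x r / a) = s.lap μ (fun y => Φ x y / a) r - κ * (Φ x r / a)) → μ = 0) :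
    ∃ G, G ≠ 0 ∧ Th T.B (Rq T.e) (T.F x) ∅ G := by
  have en := h.en s.mem
  obtain ⟨v₀, h₀, h0⟩ := den (e := T.e) ((h.en p.mem).mul en)
    (En.mul_ne (h.en p.mem) en (h.ne p.mem) (h.ne s.mem))
  obtain ⟨h1, h2⟩ := mul_ne_zero_iff.1 h0
  refine ⟨fun y => Φ x y / Φ x v₀, fun hz => ?_, en.div_const, fun ν hν y => ?_, fun r hr => ?_,
    fun r hr l hl => ?_⟩
  · simpa [h2] using congrFun hz v₀
  · simp only [h.inv x s.mem ν hν y, mul_div_assoc]
  · refine (h.per_rat s.mem hr).imp fun M hM => ⟨hM.1, funext fun y => ?_⟩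
    rw [← congrFun hM.2 y]
    simp only [S, mul_div_assoc]
  · obtain rfl : l = [] := List.eq_nil_iff_forall_not_mem.2 hl
    refine alg_of_der fun δ => ?_
    obtain ⟨μ, κ, e⟩ := s.flow h p h₀ h1 h2 δ
    obtain rfl := kill _ h2 δ μ κ e
    have e0 := e v₀ h₀
    simp only [Sym.lap, Pi.zero_apply, zero_mul, Finset.sum_const_zero, div_self h2,
      Derivation.map_one_eq_zero, zero_sub, mul_one, zero_eq_neg] at e e0
    simpa only [nabl, e0, zero_mul, neg_zero] using e r hr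

/-! ### Block RE -/

theorem re_lin (s : Sym T x) (μ : σ → ℂ) {G G' : V → ℂ} (h : En G) (h' : En G') (a b : ℂ) (y : V) :
    s.lap μ (fun y => a * G y + b * G' y) y = a * s.lap μ G y + b * s.lap μ G' y := by
  simp only [Sym.lap, nabl_lin h h', Finset.mul_sum, ← Finset.sum_add_distrib]
  exact Finset.sum_congr rfl fun _ _ => by ring

theorem re_comp (s : Sym T x) (μ : σ → ℂ) {G : V → ℂ} (h : En G) (y : V) :
    s.lap μ (fun y => G (s.α y)) y = -s.lap μ G (s.α y) := by
  have hB : T.B.compl₁₂ s.α s.α = T.B := by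
    ext u v
    exact s.iso u v
  rw [Sym.lap, Sym.lap, ← Finset.sum_neg_distrib]
  refine Finset.sum_congr rfl fun a _ => ?_
  have e := nabl_comp (B := T.B) s.α h [s.ε a, s.ε' a] y
  rw [hB] at e
  rw [e, ← mul_neg]
  congr 1
  rcases s.eig a with ⟨h1, h2⟩ | ⟨h1, h2⟩ <;> simp only [List.map, h1, h2, nabl]
  · have := congrFun (nabl_lin (B := T.B) (h.nab (B := T.B) (s.ε' a)) h (-1) 0 [s.ε a]) (s.α y)
    rw [← neg_one_smul ℂ (s.ε' a), nab_smul]
    simpa only [nabl, zero_mul, add_zero, neg_one_mul] using this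
  · rw [← neg_one_smul ℂ (s.ε a), nab_smul]
    exact neg_one_mul _

/-- Let `G = Φ x / a` and `W H` mean: `H` is entire, `Inv`, periodic, and
`δ (H r) = lap μ H r - κ * H r` on `Rq`.  `W` is stable under `S w` (`S_nabl`, the factor
`exp (-B w r)` is a root of unity, `der_alg`) and algebraic combinations.  `eig_gen` for the basis
`α (e i)` gives `H`; `H ∘ α = c G` by `uniq`, `c ≠ 0` as `α` is onto (`Sy.nondeg`);
`nabl_comp` and `eig` give `lap μ (H ∘ α) r = -(lap μ H) (α r)`.  So `2 c * lap μ G r = -δ c * G r`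
on `Rq`, hence everywhere (`den`); `Sym.li`. -/
theorem Sym.kill (h : Fm T Φ) (s : Sym T x) (a : ℂ) (ha : a ≠ 0) (δ : Derivation ℚ ℂ ℂ)
    (μ : σ → ℂ) (κ : ℂ)
    (e : ∀ r ∈ Rq T.e, δ (Φ x r / a) = s.lap μ (fun y => Φ x y / a) r - κ * (Φ x r / a)) :
    μ = 0 := by
  have hR := T.sy.rt
  have en := h.en s.mem
  have eG : (fun y => Φ x y / a) = fun y => a⁻¹ * Φ x y + 0 * Φ x y := funext fun y => by ring
  obtain ⟨H, h0, ⟨hH, hI, -, hD⟩, hS⟩ := eig_gen hR (fun H => En H ∧ Inv T.B (T.F x) H ∧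
      (∀ r ∈ Rq T.e, ∃ M : ℕ, 0 < M ∧ S T.B ((M : ℂ) • r) H = H) ∧
      ∀ r ∈ Rq T.e, δ (H r) = s.lap μ H r - κ * H r)
    (fun G ⟨h1, h2, h3, h4⟩ w hw => ⟨h1.S w, h2.S hR.alt w, fun r hr => by
      obtain ⟨M, hM, e⟩ := h3 r hr
      obtain ⟨q, hq⟩ := hR.rat r hr w hw
      refine ⟨M * q.den, Nat.mul_pos hM q.den_pos, ?_⟩
      have h1 : ((q.den : ℕ) : ℂ) * (q : ℂ) = (q.num : ℂ) := by
        exact_mod_cast Rat.den_mul_eq_num q
      have : 2 * T.B (((M * q.den : ℕ) : ℂ) • r) w =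
          (((M : ℤ) * q.num : ℤ) : ℂ) * (2 * Real.pi * I) := by
        rw [map_smul, LinearMap.smul_apply, hq, smul_eq_mul]
        push_cast
        rw [← h1]
        ring
      simp only [hb_S_comm hR.alt _ w, hb_S_nat hR.alt e, this, exp_int_mul_two_pi_mul_I, one_mul],
      fun r hr => by
      obtain ⟨q, hq⟩ := hR.rat w hw r hr
      have z : δ (exp (-T.B w r)) = 0 := der_alg δ (by
        rw [show -T.B w r = Real.pi * I * ((-q : ℚ) : ℂ) by rw [hq]; push_cast; ring]
        exact hb_exp_alg _)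
      simp only [Sym.lap, ← S_nabl hR.alt h1]
      simp only [S, Derivation.leibniz, z, h4 _ (add_mem hr hw), Sym.lap, smul_eq_mul, mul_zero,
        add_zero, mul_sub, Finset.mul_sum, mul_left_comm (exp _)]⟩)
    (fun G G' c ⟨h1, h2, h3, h4⟩ ⟨h1', h2', h3', h4'⟩ hc => by
      rw [show G - c • G' = fun y => 1 * G y + -c * G' y from funext fun y => by simp; ring]
      refine ⟨(analyticOnNhd_const.mul h1).add (analyticOnNhd_const.mul h1'), fun ν hν y => ?_,
        fun r hr => ?_, fun r hr => ?_⟩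
      · simp only [h2 ν hν y, h2' ν hν y]
        ring
      · obtain ⟨M, hM, e⟩ := h3 r hr
        obtain ⟨M', hM', e'⟩ := h3' r hr
        refine ⟨M * M', Nat.mul_pos hM hM', ?_⟩
        rw [hb_S_lin, hb_S_nat hR.alt e, mul_comm M, hb_S_nat hR.alt e']
      · rw [re_lin s μ h1 h1']
        simp only [one_mul, map_add, Derivation.leibniz, der_alg δ hc.neg, h4 r hr, h4' r hr,
          smul_eq_mul]
        ring)
    (fun G hG => hG.2.2.1) (e := fun i => s.α (T.e i))
    (e' := fun i => s.α (Sum.elim (fun i => T.e (.inr i)) (fun i => -T.e (.inl i)) i))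
    (fun i => s.rat _ (fe_rq T.e i))
    (by
      rintro (i | i)
      · exact s.rat _ (fe_rq T.e _)
      · exact s.rat _ (neg_mem (fe_rq T.e _)))
    (by
      simp only [s.iso]
      rintro (i | i) (j | j)
      · simp [T.sy.lr]
      · simp only [Sum.elim_inr, map_neg, T.sy.ll, neg_zero, reduceCtorEq, ↓ reduceIte]
      · simp [T.sy.rr]
      · simp only [Sum.elim_inr, map_neg, skew T.sy.alt (T.e (.inl j)) (T.e (.inr i)), T.sy.lr, eq_comm, neg_neg, Sum.inr.injEq])
    (fun i j => by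
      rw [s.iso]
      exact T.sy.int (fe_rz T.e i) (fe_rz T.e j)) (G := fun y => Φ x y / a)
    ⟨fun y _ => (en y trivial).div_const, fun ν hν y => by
      simp only [h.inv x s.mem ν hν y, mul_div_assoc], fun r hr => by
      obtain ⟨M, hM, e⟩ := h.per_rat s.mem hr
      exact ⟨M, hM, by rw [eG, hb_S_lin, e]⟩, e⟩
    fun z => h.ne s.mem (funext fun y => (div_eq_zero_iff.1 (congrFun z y)).resolve_right ha)
  obtain ⟨c, hc⟩ := h.uniq x s.mem (fun y => H (s.α y))
    (fun y _ => (hH (s.α y) trivial).comp ((LinearMap.toContinuousLinearMap s.α).analyticAt y))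
    (fun ν hν y => by
      simp only [map_add]
      rw [hI _ (s.fix ν hν), s.iso])
    fun i => funext fun y => by simpa only [S, map_add, s.iso] using congrFun (hS i) (s.α y)
  have c0 : c ≠ 0 := fun z => h0 (funext fun y => by
    obtain ⟨u, rfl⟩ := fd_inj T.sy s.iso y
    simpa [z] using congrFun hc u)
  refine s.li h (c := -δ (c * a) / (2 * (c * a))) fun y => sub_eq_zero.1 ?_
  by_contra hy
  obtain ⟨r, hr, h1⟩ := den (e := T.e)
    (G := fun y => s.lap μ (Φ x) y - -δ (c * a) / (2 * (c * a)) * Φ x y)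
    ((Finset.analyticOnNhd_fun_sum _ fun b _ => analyticOnNhd_const.mul (en.nabl _)).sub
      (analyticOnNhd_const.mul en)) fun z => hy (congrFun z y)
  have h2 := hD _ (s.rat r hr)
  have h3 := re_comp s μ hH r
  have h4 := e r hr
  have h5 : H (s.α r) = c * a * (Φ x r / a) := by
    rw [congrFun hc r]
    field_simp
  rw [hc, show (fun y => c * Φ x y) = fun y => c * Φ x y + 0 * Φ x y by simp,
    re_lin s μ en en] at h3
  rw [eG, re_lin s μ en en] at h4
  rw [h5, Derivation.leibniz, h4, smul_eq_mul, smul_eq_mul] at h2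
  apply h1
  field_simp at h2 ⊢
  linear_combination h2 + a * h3

theorem rig {c : ℂ} (p : Pt T c) (s : Sym T x) : ∃ G, G ≠ 0 ∧ Th T.B (Rq T.e) (T.F x) ∅ G := by
  obtain ⟨Φ, h⟩ := exists_fm T
  exact rig' h p s (s.kill h)

end GPCW

end

section

/-! The Weierstrass functions. -/

open Complex Filter Topology GPC96
open scoped PeriodPair

namespace GPCE

variable (L : PeriodPair)

theorem zeta_bound (r : ℝ) (hr : 0 < r) (s : ℂ) (hs : ‖s‖ < r) (l : ℂ) (h : 2 * r ≤ ‖l‖) :
    ‖1 / (s - l) + 1 / l + s / l ^ 2‖ ≤ 2 * r ^ 2 * ‖l‖ ^ (-3 : ℝ) := by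
  have h0 : 0 < ‖l‖ := by linarith
  have hl : l ≠ 0 := norm_pos_iff.1 h0
  have h1 : s - l ≠ 0 := by
    rw [sub_ne_zero]; rintro rfl; linarith
  have h2 : ‖l‖ / 2 ≤ ‖s - l‖ := by
    rw [norm_sub_rev]
    exact .trans (by linarith) (norm_sub_norm_le l s)
  calc _ = ‖s ^ 2 / (l ^ 2 * (s - l))‖ := by congr 1; field_simp; ring
    _ = ‖s‖ ^ 2 / (‖l‖ ^ 2 * ‖s - l‖) := by simp
    _ ≤ r ^ 2 / (‖l‖ ^ 2 * (‖l‖ / 2)) := by gcongr
    _ = 2 * r ^ 2 / ‖l‖ ^ 3 := by field
    _ = _ := by norm_cast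

/-- The zeta function with the term `l₀` omitted. -/
noncomputable def zetaEx (l₀ z : ℂ) : ℂ :=
  ∑' l : L.lattice, if l.1 = l₀ then 0 else (1 / (z - l) + 1 / (l : ℂ) + z / (l : ℂ) ^ 2)

theorem zeta_hasSumEx (l₀ : ℂ) : HasSumLocallyUniformly (fun (l : L.lattice) (z : ℂ) =>
    if l.1 = l₀ then 0 else (1 / (z - l) + 1 / (l : ℂ) + z / (l : ℂ) ^ 2)) (zetaEx L l₀) := by
  refine L.hasSumLocallyUniformly_aux (u := fun r l => 2 * r ^ 2 * ‖l‖ ^ (-3 : ℝ)) _
    (fun _ _ => (ZLattice.summable_norm_rpow _ _ (by simp; norm_num)).mul_left _) fun r hr =>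
    Filter.eventually_atTop.mpr ⟨2 * r, ?_⟩
  rintro _ h s hs l rfl
  split_ifs
  · rw [norm_zero]; positivity
  · exact zeta_bound r hr s hs l h

theorem zeta_term {z l : ℂ} (h : z ≠ l) :
    HasDerivAt (fun z : ℂ => 1 / (z - l) + 1 / l + z / l ^ 2) (-(1 / (z - l) ^ 2 - 1 / l ^ 2)) z := by
  have h1 : z - l ≠ 0 := sub_ne_zero.2 h
  have h2 := ((((hasDerivAt_id' z).sub_const l).fun_inv h1).add_const (1 / l)).fun_add
    ((hasDerivAt_id' z).div_const (l ^ 2))
  simp only [one_div] at h2 ⊢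
  exact h2.congr_deriv (by ring)

theorem zetaEx_add (l₀ : L.lattice) (z : ℂ) :
    zetaEx L l₀ z + (1 / (z - l₀) + 1 / (l₀ : ℂ) + z / (l₀ : ℂ) ^ 2) = zeta L z := by
  trans zetaEx L l₀ z + ∑' i : L.lattice,
    if i = l₀.1 then (1 / (z - l₀) + 1 / (l₀ : ℂ) + z / (l₀ : ℂ) ^ 2) else 0
  · simp
  rw [zetaEx, ← Summable.tsum_add]
  · congr with w; split_ifs <;> simp only [zero_add, add_zero, *]
  · exact ⟨_, (zeta_hasSumEx L _).hasSum⟩
  · exact summable_of_hasFiniteSupport ((Set.finite_singleton l₀).subset (by simp only [SetLike.coe_eq_coe, one_div, Set.subset_singleton_iff, Function.mem_support, ne_eq, ite_eq_right_iff, Classical.not_imp, and_imp, forall_eq, implies_true]))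

theorem zeta_hasSum : HasSumLocallyUniformly (fun (l : L.lattice) (z : ℂ) =>
    1 / (z - l) + 1 / (l : ℂ) + z / (l : ℂ) ^ 2) (zeta L) := by
  have h : ∀ l : L.lattice, l.1 ≠ L.ω₁ / 2 := fun l e => L.ω₁_div_two_notMem_lattice (e ▸ l.2)
  have := zeta_hasSumEx L (L.ω₁ / 2)
  unfold zetaEx at this
  simp only [if_neg (h _)] at this
  exact this

/-- Hint: as in Mathlib's `Analysis/SpecialFunctions/Elliptic/Weierstrass.lean`: define the sum with
the term `l₀` omitted, `L.hasSumLocallyUniformly_aux` with the bound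
`‖1/(s-l) + 1/l + s/l²‖ = ‖s²/(l²(s-l))‖ ≤ 2 r² ‖l‖^(-3)`; derivative as in
`eqOn_deriv_weierstrassPExcept_derivWeierstrassPExcept`. -/
theorem hasDerivAt_zeta {z : ℂ} (hz : z ∉ L.lattice) : HasDerivAt (zeta L) (-℘[L] z) z := by
  have ho : IsOpen (L.lattice : Set ℂ)ᶜ := L.isClosed_lattice.isOpen_compl
  have hd : ∀ s : Finset L.lattice, DifferentiableOn ℂ
      (fun z : ℂ => ∑ l ∈ s, (1 / (z - l) + 1 / (l : ℂ) + z / (l : ℂ) ^ 2)) (L.lattice : Set ℂ)ᶜ :=
    fun s => .fun_sum fun i _ z hz =>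
      (zeta_term fun e : z = i => hz (e ▸ i.2)).differentiableAt.differentiableWithinAt
  have h1 := (zeta_hasSum L).hasSumLocallyUniformlyOn.differentiableOn (.of_forall hd) ho
  have h2 := (((zeta_hasSum L).tendstoLocallyUniformlyOn (s := (L.lattice : Set ℂ)ᶜ)).deriv
    (.of_forall hd) ho).tendsto_at hz
  have h3 : Tendsto (fun s : Finset L.lattice => ∑ l ∈ s, -(1 / (z - l) ^ 2 - 1 / (l : ℂ) ^ 2))
      atTop (𝓝 (-℘[L] z)) := (L.hasSum_weierstrassP z).neg
  have h4 : deriv (zeta L) z = -℘[L] z := by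
    refine tendsto_nhds_unique h2 (h3.congr fun s => ?_)
    exact (HasDerivAt.fun_sum fun (i : L.lattice) _ =>
      zeta_term fun e : z = i => hz (e ▸ i.2)).deriv.symm
  rw [← h4]
  exact (h1.differentiableAt (ho.mem_nhds hz)).hasDerivAt

/-- The complement of a countable set is connected
(`Set.Countable.isConnected_compl_of_one_lt_rank`); the lattice is countable. -/
theorem countable_lattice : (L.lattice : Set ℂ).Countable :=
  countable_of_Lindelof_of_discrete (X := L.lattice)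

theorem hasDerivAt_wp {z : ℂ} (hz : z ∉ L.lattice) : HasDerivAt ℘[L] (℘'[L] z) z := by
  have h := (L.analyticOnNhd_weierstrassP z hz).differentiableAt.hasDerivAt
  rwa [L.deriv_weierstrassP] at h

theorem wp_tendsto {l : ℂ} (hl : l ∈ L.lattice) :
    Tendsto ℘[L] (𝓝[≠] l) (Bornology.cobounded ℂ) := by
  apply tendsto_cobounded_of_meromorphicOrderAt_neg
  rw [L.order_weierstrassP l hl]
  decide

theorem wp_ev (l : ℂ) : ∀ᶠ w in 𝓝[≠] l, w ∉ L.lattice := by
  filter_upwards [self_mem_nhdsWithin,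
    nhdsWithin_le_nhds (L.compl_lattice_sdiff_singleton_mem_nhds l)] with w hw hw' hm
  exact hw' ⟨hm, hw⟩

theorem wp_ev' {z : ℂ} (hz : z ∉ L.lattice) : ∀ᶠ w in 𝓝 z, w ∉ L.lattice :=
  L.isClosed_lattice.isOpen_compl.mem_nhds hz

/-- `℘` is not constant near any point off the lattice.  Hint: identity theorem on the connected
set `latticeᶜ`, and `order_weierstrassP` (or `not_continuousAt_weierstrassP`). -/
theorem wp_not_const {z c : ℂ} (hz : z ∉ L.lattice) : ¬ ∀ᶠ w in 𝓝 z, ℘[L] w = c := by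
  intro h
  have hc : IsPreconnected ((L.lattice : Set ℂ)ᶜ) :=
    (Set.Countable.isConnected_compl_of_one_lt_rank (by simp) (countable_lattice L)).2
  have h1 : Set.EqOn ℘[L] (fun _ => c) (L.lattice : Set ℂ)ᶜ :=
    L.analyticOnNhd_weierstrassP.eqOn_of_preconnected_of_eventuallyEq analyticOnNhd_const hc hz h
  have h2 : Tendsto ℘[L] (𝓝[≠] 0) (𝓝 c) :=
    tendsto_const_nhds.congr' ((wp_ev L 0).mono fun w hw => (h1 hw).symm)
  have h3 := wp_tendsto L L.lattice.zero_mem
  exact (h2.not_tendsto (Metric.disjoint_nhds_cobounded c)) h3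

theorem wp_order {z : ℂ} (hz : z ∉ L.lattice) :
    analyticOrderAt ℘'[L] z + 1 = analyticOrderAt (fun w => ℘[L] w - ℘[L] z) z := by
  have h := (L.analyticOnNhd_weierstrassP z hz).analyticOrderAt_deriv_add_one
  rwa [L.deriv_weierstrassP] at h

theorem wp_order_ne {z : ℂ} (hz : z ∉ L.lattice) :
    analyticOrderAt (fun w => ℘[L] w - ℘[L] z) z ≠ ⊤ := by
  intro h
  rw [analyticOrderAt_eq_top] at h
  exact wp_not_const L hz (h.mono fun w hw => sub_eq_zero.1 hw)

theorem wp_ode {w : ℂ} (hw : w ∉ L.lattice) :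
    ℘'[L] w * (deriv ℘'[L] w - (6 * ℘[L] w ^ 2 - L.g₂ / 2)) = 0 := by
  have h1 := (L.analyticOnNhd_derivWeierstrassP w hw).differentiableAt.hasDerivAt
  have h2 := hasDerivAt_wp L hw
  have h3 := h1.pow 2
  have h4 := (((h2.pow 3).const_mul 4).sub (h2.const_mul L.g₂)).sub_const L.g₃
  have h5 := h4.congr_of_eventuallyEq (f₁ := ℘'[L] ^ 2)
    ((wp_ev' L hw).mono fun u hu => by simpa using L.derivWeierstrassP_sq u hu)
  have h6 := h3.unique h5
  simp only [Nat.cast_ofNat, Nat.add_one_sub_one, pow_one] at h6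
  linear_combination h6 / 2

/-- Hint: differentiate `derivWeierstrassP_sq`; `℘'` is not eventually zero, so cancel it on a
punctured neighbourhood and use continuity. -/
theorem hasDerivAt_wp' {z : ℂ} (hz : z ∉ L.lattice) :
    HasDerivAt ℘'[L] (6 * ℘[L] z ^ 2 - L.g₂ / 2) z := by
  have ha := L.analyticOnNhd_derivWeierstrassP z hz
  have hb := L.analyticOnNhd_weierstrassP z hz
  have key : deriv ℘'[L] z = 6 * ℘[L] z ^ 2 - L.g₂ / 2 := by
    rcases ha.eventually_eq_zero_or_eventually_ne_zero with h | h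
    · exfalso
      apply wp_order_ne L hz
      rw [← wp_order L hz, analyticOrderAt_eq_top.2 h, top_add]
    · have c1 : ContinuousAt (deriv ℘'[L]) z := ha.deriv.continuousAt
      have c2 : ContinuousAt (fun w => 6 * ℘[L] w ^ 2 - L.g₂ / 2) z :=
        ((hb.continuousAt.pow 2).const_mul 6).sub continuousAt_const
      refine tendsto_nhds_unique_of_eventuallyEq (l := 𝓝[≠] z)
        (c1.tendsto.mono_left nhdsWithin_le_nhds) (c2.tendsto.mono_left nhdsWithin_le_nhds) ?_
      filter_upwards [h, wp_ev L z] with w hw hw'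
      exact sub_eq_zero.1 ((mul_eq_zero.1 (wp_ode L hw')).resolve_left hw)
  rw [← key]
  exact ha.differentiableAt.hasDerivAt

theorem wp_surj (x : ℂ) : ∃ z, z ∉ L.lattice ∧ ℘[L] z = x := by
  classical
  by_contra hne
  push Not at hne
  let h : ℂ → ℂ := fun z => if z ∈ L.lattice then 0 else (℘[L] z - x)⁻¹
  have d1 : ∀ z, z ∉ L.lattice → DifferentiableAt ℂ h z := by
    intro z hz
    have := ((hasDerivAt_wp L hz).differentiableAt.sub_const x).inv (sub_ne_zero.2 (hne z hz))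
    refine this.congr_of_eventuallyEq ((wp_ev' L hz).mono fun w hw => ?_)
    simp [h, hw]
  have d2 : Differentiable ℂ h := by
    intro z
    by_cases hz : z ∈ L.lattice
    · refine (Complex.analyticAt_of_differentiable_on_punctured_nhds_of_continuousAt
        ((wp_ev L z).mono d1) ?_).differentiableAt
      rw [← continuousWithinAt_compl_self, ContinuousWithinAt]
      have t1 : Tendsto (fun w => ℘[L] w - x) (𝓝[≠] z) (Bornology.cobounded ℂ) :=
        (tendsto_sub_const_cobounded x).comp (wp_tendsto L hz)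
      have t2 := tendsto_inv₀_cobounded.comp t1
      have e : h z = 0 := by simp [h, hz]
      rw [e]
      exact t2.congr' ((wp_ev L z).mono fun w hw => by simp [h, hw])
    · exact d1 z hz
  have hp : ∀ z w, w ∈ L.lattice → h (z + w) = h z := by
    intro z w hw
    have e : z + w ∈ L.lattice ↔ z ∈ L.lattice := L.lattice.add_mem_iff_left hw
    have e' : ℘[L] (z + w) = ℘[L] z := L.weierstrassP_add_coe z ⟨w, hw⟩
    simp only [h, e, e']
  have hc := d2.apply_eq_apply_of_bounded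
    (IsZLattice.isCompact_range_of_periodic L.lattice _ d2.continuous hp).isBounded
    (L.ω₁ / 2) 0
  have hn := L.ω₁_div_two_notMem_lattice
  simp only [h, hn, if_false, zero_mem, if_true, inv_eq_zero] at hc
  exact hne _ hn (sub_eq_zero.1 hc)

/-- Hint: if `℘ ≠ x` off the lattice then `1/(℘ - x)`, extended by `0`, is entire and periodic,
so constant (see the proof of `relation_eq_zero` in Mathlib's file); then replace `z` by `-z` if
`℘' z = -y`. -/
theorem exists_point {x y : ℂ} (h : y ^ 2 = 4 * x ^ 3 - L.g₂ * x - L.g₃) :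
    ∃ z, z ∉ L.lattice ∧ ℘[L] z = x ∧ ℘'[L] z = y := by
  obtain ⟨z, hz, hx⟩ := wp_surj L x
  have h1 := L.derivWeierstrassP_sq z hz
  rw [hx, ← h] at h1
  rcases sq_eq_sq_iff_eq_or_eq_neg.1 h1 with h2 | h2
  · exact ⟨z, hz, hx, h2⟩
  · refine ⟨-z, fun hm => hz (by simpa using hm), by simpa using hx, ?_⟩
    rw [L.derivWeierstrassP_neg, h2, neg_neg]

/-- The cubic has simple roots.  Hint: with `z` from `exists_point`, `f = ℘ - x` has
`f'' = 6 f (℘ + x)` near `z`, `f z = f' z = 0`; compare `analyticOrderAt` (order of `f''` is the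
order of `f` minus two) to get `f = 0` near `z`, against `wp_not_const`. -/
theorem nonsing {x y : ℂ} (h : y ^ 2 = 4 * x ^ 3 - L.g₂ * x - L.g₃) :
    y ≠ 0 ∨ 6 * x ^ 2 - L.g₂ / 2 ≠ 0 := by
  by_contra hne
  push Not at hne
  obtain ⟨hy, hg⟩ := hne
  obtain ⟨z, hz, hx, hy'⟩ := exists_point L h
  have ha := L.analyticOnNhd_derivWeierstrassP z hz
  have hb := L.analyticOnNhd_weierstrassP z hz
  have o1 := wp_order L hz
  have o2 := ha.analyticOrderAt_deriv_add_one
  have o0 := wp_order_ne L hz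
  rw [hy', hy] at o2
  simp only [sub_zero] at o2
  have f1 : AnalyticAt ℂ (fun w => ℘[L] w - ℘[L] z) z := hb.sub analyticAt_const
  have f2 : AnalyticAt ℂ (fun w => 6 * (℘[L] w + x)) z :=
    analyticAt_const.mul (hb.add analyticAt_const)
  have e : deriv ℘'[L] =ᶠ[𝓝 z] (fun w => ℘[L] w - ℘[L] z) * fun w => 6 * (℘[L] w + x) := by
    filter_upwards [wp_ev' L hz] with w hw
    rw [(hasDerivAt_wp' L hw).deriv, Pi.mul_apply, hx]
    linear_combination hg
  rw [analyticOrderAt_congr e, analyticOrderAt_mul f1 f2] at o2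
  change _ = analyticOrderAt ℘'[L] z at o2
  rw [← o2] at o1
  generalize analyticOrderAt (fun w => ℘[L] w - ℘[L] z) z = a at o0 o1
  generalize analyticOrderAt (fun w => 6 * (℘[L] w + x)) z = b at o1
  cases a with
  | top => exact o0 rfl
  | coe a =>
    cases b with
    | top => simp at o1
    | coe b =>
      norm_cast at o1
      omega

end GPCE

end

section

/-! Elliptic curves and their powers as abelian varieties. -/

open Complex Filter Topology Module MvPolynomial GPC96 GPC73 GPC42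
open scoped PeriodPair

namespace GPCE

/-! ### Block ELL -/

section ELL

variable (L : PeriodPair)

/-- Uniqueness for `D'' = h D`. -/
theorem ell_ode_zero {D h : ℂ → ℂ} {z : ℂ} (hD : AnalyticAt ℂ D z) (hh : AnalyticAt ℂ h z)
    (h0 : D z = 0) (h1 : deriv D z = 0) (e : deriv (deriv D) =ᶠ[𝓝 z] D * h) :
    ∀ᶠ w in 𝓝 z, D w = 0 := by
  have o1 := hD.analyticOrderAt_deriv_add_one
  have o2 := hD.deriv.analyticOrderAt_deriv_add_one
  simp only [h0, h1, sub_zero] at o1 o2
  rw [analyticOrderAt_congr e, analyticOrderAt_mul hD hh] at o2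
  change _ = analyticOrderAt (deriv D) z at o2
  change _ = analyticOrderAt D z at o1
  rw [← o2] at o1
  rw [← analyticOrderAt_eq_top]
  generalize analyticOrderAt D z = a at o1
  generalize analyticOrderAt h z = b at o1
  cases a with
  | top => rfl
  | coe a =>
    cases b with
    | top => simp at o1
    | coe b =>
      norm_cast at o1
      omega

theorem ell_wp_dd {z : ℂ} (hz : z ∉ L.lattice) (a : ℂ) {w : ℂ} (e : w + a = z) :
    deriv (fun w => ℘[L] (w + a)) w = ℘'[L] z ∧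
      deriv (deriv fun w => ℘[L] (w + a)) w = 6 * ℘[L] z ^ 2 - L.g₂ / 2 := by
  have h : deriv (fun w => ℘[L] (w + a)) = fun w => ℘'[L] (w + a) := by
    funext w
    rw [deriv_comp_add_const, L.deriv_weierstrassP]
  rw [h, deriv_comp_add_const, e, (hasDerivAt_wp' L hz).deriv]
  exact ⟨congrArg _ e, rfl⟩

theorem ell_wp_inj {z w : ℂ} (hz : z ∉ L.lattice) (hw : w ∉ L.lattice) (h1 : ℘[L] w = ℘[L] z)
    (h2 : ℘'[L] w = ℘'[L] z) : w - z ∈ L.lattice := by
  by_contra hn
  set S : Set ℂ := L.lattice ∪ (fun t => t + (w - z)) ⁻¹' L.lattice with hS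
  have hc : IsPreconnected Sᶜ := (Set.Countable.isConnected_compl_of_one_lt_rank (by simp)
    ((countable_lattice L).union ((countable_lattice L).preimage (add_left_injective _)))).2
  have a1 : ∀ t, t + (w - z) ∉ L.lattice → AnalyticAt ℂ (fun t => ℘[L] (t + (w - z))) t :=
    fun t ht => (L.analyticOnNhd_weierstrassP _ ht).comp_of_eq
      (analyticAt_id.add analyticAt_const) rfl
  have an : AnalyticOnNhd ℂ (fun t => ℘[L] (t + (w - z)) - ℘[L] (t + 0)) Sᶜ := fun t ht => by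
    simp only [add_zero]
    exact (a1 t fun h => ht (Or.inr h)).sub (L.analyticOnNhd_weierstrassP t fun h => ht (Or.inl h))
  have e : z + (w - z) = w := by ring
  have hzS : z ∈ Sᶜ := by
    rintro (h | h)
    exacts [hz h, hw (e ▸ h)]
  have ho : IsOpen Sᶜ := (L.isClosed_lattice.union
    (L.isClosed_lattice.preimage (by fun_prop))).isOpen_compl
  have d1 : ∀ t ∈ Sᶜ, deriv (fun t => ℘[L] (t + (w - z)) - ℘[L] (t + 0)) t =
      deriv (fun t => ℘[L] (t + (w - z))) t - deriv (fun t => ℘[L] (t + 0)) t := fun t ht => by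
    simp only [add_zero]
    exact deriv_fun_sub (a1 t fun h => ht (Or.inr h)).differentiableAt
      (L.analyticOnNhd_weierstrassP t fun h => ht (Or.inl h)).differentiableAt
  have h0 := ell_ode_zero (h := fun t => 6 * (℘[L] (t + (w - z)) + ℘[L] t)) (an z hzS)
    (analyticAt_const.mul ((a1 z (e.symm ▸ hw)).add (L.analyticOnNhd_weierstrassP z hz)))
    (by simp only [e, add_zero, h1, sub_self])
    (by rw [d1 z hzS, (ell_wp_dd L hw _ e).1, (ell_wp_dd L hz 0 (add_zero z)).1, h2, sub_self]) (by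
      filter_upwards [ho.mem_nhds hzS] with t ht
      have t1 : t + (w - z) ∉ L.lattice := fun h => ht (Or.inr h)
      have t2 : t ∉ L.lattice := fun h => ht (Or.inl h)
      rw [EventuallyEq.deriv_eq (mem_of_superset (ho.mem_nhds ht) d1), deriv_fun_sub
        (a1 t t1).deriv.differentiableAt (by
          simpa using (L.analyticOnNhd_weierstrassP t t2).deriv.differentiableAt),
        (ell_wp_dd L t1 _ rfl).2, (ell_wp_dd L t2 0 (add_zero t)).2]
      simp only [Pi.mul_apply, add_zero]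
      ring)
  have h3 := an.eqOn_zero_of_preconnected_of_eventuallyEq_zero hc hzS h0
  have h4 : Tendsto ℘[L] (𝓝[≠] 0) (𝓝 (℘[L] (0 + (w - z)))) := by
    have h5 : (0 : ℂ) + (w - z) ∉ L.lattice := by rwa [zero_add]
    refine ((a1 0 h5).continuousAt.tendsto.mono_left nhdsWithin_le_nhds).congr' ?_
    filter_upwards [wp_ev L 0, nhdsWithin_le_nhds ((by fun_prop : Continuous
      fun t : ℂ => t + (w - z)).continuousAt.eventually (wp_ev' L h5))] with t t1 t2
    simpa [sub_eq_zero] using h3 (show t ∈ Sᶜ from fun h => h.elim t1 t2)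
  exact (h4.not_tendsto (Metric.disjoint_nhds_cobounded _)) (wp_tendsto L L.lattice.zero_mem)

/-- The elementary factor. -/
noncomputable def ef (w : ℂ) : ℂ := (1 - w) * exp (w + w ^ 2 / 2)

theorem ell_ef_der (w : ℂ) : HasDerivAt ef (-w ^ 2 * exp (w + w ^ 2 / 2)) w :=
  ((((hasDerivAt_id' w).const_sub 1).fun_mul (((hasDerivAt_id' w).fun_add
    (((hasDerivAt_id' w).fun_pow 2).div_const 2)).cexp))).congr_deriv (by simp only [neg_mul, one_mul, Nat.cast_ofNat, Nat.add_one_sub_one, pow_one, mul_one, ne_eq, OfNat.ofNat_ne_zero, not_false_eq_true, mul_div_cancel_left₀]; ring)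

theorem ell_ef_bound {w : ℂ} (h : ‖w‖ ≤ 1) : ‖ef w - 1‖ ≤ Real.exp 2 * ‖w‖ ^ 3 := by
  have := (convex_closedBall (0 : ℂ) ‖w‖).norm_image_sub_le_of_norm_hasDerivWithin_le
    (C := ‖w‖ ^ 2 * Real.exp 2) (fun v _ => (ell_ef_der v).hasDerivWithinAt) (fun v hv => by
      have hv' : ‖v‖ ≤ ‖w‖ := by simpa using hv
      rw [_root_.norm_mul, norm_neg, norm_pow]
      refine mul_le_mul (by gcongr) ((norm_exp_le_exp_norm _).trans (Real.exp_le_exp.2
        ((norm_add_le _ _).trans ?_))) (norm_nonneg _) (by positivity)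
      rw [norm_div, norm_pow, Complex.norm_two]
      nlinarith only [norm_nonneg v, h, hv']) (Metric.mem_closedBall_self (norm_nonneg w))
    (show w ∈ _ by simp)
  simp only [ef, sub_zero] at this ⊢
  norm_num at this
  linarith

/-- The sigma function. -/
theorem ell_exists_sigma : ∃ σ : ℂ → ℂ, Differentiable ℂ σ ∧ deriv σ 0 = 1 ∧
    (∀ z, σ z = 0 ↔ z ∈ L.lattice) ∧ ∀ z ∉ L.lattice, deriv σ z = zeta L z * σ z := by
  have hs : ∀ r : ℝ, Summable fun l : L.lattice => Real.exp 2 * r ^ 3 * ‖l‖ ^ (-3 : ℝ) := fun r =>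
    (ZLattice.summable_norm_rpow _ _ (by simp; norm_num)).mul_left _
  have hb : ∀ r : ℝ, 0 < r → ∀ᶠ l : L.lattice in cofinite, ∀ z ∈ Metric.ball (0 : ℂ) r,
      ‖ef (z / l) - 1‖ ≤ Real.exp 2 * r ^ 3 * ‖l‖ ^ (-3 : ℝ) := fun r hr => by
    refine (isCompact_iff_finite.mp (isCompact_closedBall (0 : L.lattice) r)).subset fun l hl => ?_
    by_contra h
    have h1 : r < ‖(l : ℂ)‖ := by simpa only [Metric.mem_closedBall, dist_zero_right, Submodule.coe_norm, not_le] using h
    refine hl fun z hz => ?_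
    have h2 : ‖z‖ < r := by simpa using hz
    refine (ell_ef_bound (by rw [norm_div, div_le_one (by linarith)]; linarith)).trans ?_
    rw [norm_div, div_pow, mul_assoc, Real.rpow_neg (norm_nonneg _), ← div_eq_mul_inv]
    norm_cast
    gcongr
  have hd : ∀ l : L.lattice, Differentiable ℂ fun z : ℂ => 1 + (ef (z / l) - 1) := fun l z =>
    ((((ell_ef_der _).differentiableAt.comp z (differentiableAt_id.div_const _)).sub_const
      1).const_add 1)
  have hp : ∀ r : ℝ, 0 < r → HasProdLocallyUniformlyOn (fun (l : L.lattice) z =>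
      1 + (ef (z / l) - 1)) (fun z => ∏' l : L.lattice, (1 + (ef (z / l) - 1)))
      (Metric.ball 0 r) := fun r hr => (hs r).hasProdLocallyUniformlyOn_one_add Metric.isOpen_ball
        (hb r hr) fun l => by simpa using ((hd l).sub_const 1).continuous.continuousOn
  have hz : ∀ z : ℂ, z ∈ Metric.ball (0 : ℂ) (‖z‖ + 1) := fun z => by simp
  have hu : Differentiable ℂ fun z => ∏' l : L.lattice, (1 + (ef (z / l) - 1)) := fun z =>
    (TendstoLocallyUniformlyOn.differentiableOn (hp (‖z‖ + 1) (by positivity))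
      (.of_forall fun s => .fun_finsetProd fun l _ => (hd l).differentiableOn)
      Metric.isOpen_ball).differentiableAt (Metric.isOpen_ball.mem_nhds (hz z))
  have h1 : ∀ (z : ℂ) (l : L.lattice), z ≠ l → 1 + (ef (z / l) - 1) ≠ 0 := fun z l h => by
    rw [add_sub_cancel, ef]
    refine mul_ne_zero (sub_ne_zero.2 fun e => ?_) (exp_ne_zero _)
    exact h (by simpa using (div_eq_one_iff_eq (by rintro e'; simp [e'] at e)).1 e.symm)
  have hne : ∀ z ∉ L.lattice, ∏' l : L.lattice, (1 + (ef (z / l) - 1)) ≠ 0 := fun z hz' =>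
    tprod_one_add_ne_zero_of_summable (fun l => h1 z l fun e => hz' (e ▸ l.2))
      (Summable.of_norm_bounded_eventually (hs (‖z‖ + 1))
        ((hb (‖z‖ + 1) (by positivity)).mono fun l hl => by simpa only [norm_norm, Submodule.coe_norm, Real.rpow_neg_ofNat, Int.reduceNeg, zpow_neg, zpow_ofNat] using hl z (hz z)))
  refine ⟨fun z => z * ∏' l : L.lattice, (1 + (ef (z / l) - 1)), differentiable_id.mul hu, ?_,
    fun z => ⟨fun h => ?_, fun h => ?_⟩, fun z hz' => ?_⟩
  · rw [((hasDerivAt_id' 0).fun_mul (hu 0).hasDerivAt).deriv]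
    simp only [ef, zero_div, sub_zero, ne_eq, OfNat.ofNat_ne_zero, not_false_eq_true, zero_pow, add_zero, exp_zero, mul_one, sub_self, tprod_one, add_sub_cancel, zero_mul]
  · by_contra hz'
    exact mul_ne_zero (fun e : z = 0 => hz' (e ▸ zero_mem _)) (hne z hz') h
  · by_cases h0 : z = 0
    · simp only [h0, zero_div, add_sub_cancel, zero_mul]
    · exact mul_eq_zero_of_right _
        (tprod_of_exists_eq_zero ⟨⟨z, h⟩, by simp [ef, div_self h0]⟩)
  · have h0 : z ≠ 0 := fun e => hz' (e ▸ zero_mem _)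
    have hl : ∀ l : L.lattice, logDeriv (fun z : ℂ => 1 + (ef (z / l) - 1)) z =
        if l.1 = 0 then 0 else (1 / (z - l) + 1 / (l : ℂ) + z / (l : ℂ) ^ 2) := fun l => by
      split_ifs with h
      · simp [h]
      · have h2 : z - l ≠ 0 := sub_ne_zero.2 fun e => hz' (e ▸ l.2)
        have h3 : (l : ℂ) - z ≠ 0 := fun e => h2 (by linear_combination -e)
        have h4 := (((HasDerivAt.comp (h := fun z : ℂ => z / l) z (ell_ef_der (z / l))
          ((hasDerivAt_id' z).div_const (l : ℂ))).sub_const 1).const_add 1).deriv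
        simp only [Function.comp] at h4
        rw [logDeriv_apply, h4, add_sub_cancel, ef]
        field_simp
        ring
    have h2 := logDeriv_tprod_eq_tsum Metric.isOpen_ball (hz z)
      (fun l => h1 z l fun e => hz' (e ▸ l.2)) (fun l => (hd l).differentiableOn)
      (by simp only [hl]; exact ⟨_, (zeta_hasSumEx L 0).hasSum⟩) ⟨_, hp _ (by positivity)⟩
      (hne z hz')
    simp only [hl] at h2
    rw [logDeriv_apply, div_eq_iff (hne z hz')] at h2
    rw [((hasDerivAt_id' z).fun_mul (hu z).hasDerivAt).deriv, h2, ← zetaEx_add L 0, zetaEx]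
    simp only [ZeroMemClass.coe_zero, sub_zero, div_zero, ne_eq, OfNat.ofNat_ne_zero,
      not_false_eq_true, zero_pow, add_zero]
    field_simp
    ring

theorem ell_off_const {f : ℂ → ℂ} (hd : ∀ x ∉ L.lattice, HasDerivAt f 0 x) :
    ∃ c, ∀ x ∉ L.lattice, f x = c :=
  ⟨_, fun x hx => L.isClosed_lattice.isOpen_compl.is_const_of_deriv_eq_zero
    (Set.Countable.isConnected_compl_of_one_lt_rank (by simp) (countable_lattice L)).2
    (fun x hx => (hd x hx).differentiableAt.differentiableWithinAt) (fun x hx => (hd x hx).deriv)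
    hx L.ω₁_div_two_notMem_lattice⟩

theorem ell_off_ext {u v : ℂ → ℂ} (hu : Continuous u) (hv : Continuous v)
    (h : ∀ x ∉ L.lattice, u x = v x) : u = v :=
  hu.ext_on ((countable_lattice L).dense_compl ℂ) hv h

theorem ell_sigma_aut {σ : ℂ → ℂ} (hd : Differentiable ℂ σ) (h0 : ∀ z, σ z = 0 ↔ z ∈ L.lattice)
    (h : ∀ z ∉ L.lattice, deriv σ z = zeta L z * σ z) {l : ℂ} (hl : l ∈ L.lattice) :
    ∃ a b : ℂ, ∀ z, σ (z + l) = exp (a * z + b) * σ z := by
  have hm : ∀ x ∉ L.lattice, x + l ∉ L.lattice := fun x hx h => hx (by simpa using sub_mem h hl)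
  obtain ⟨a, ha⟩ := ell_off_const L (f := fun z => zeta L (z + l) - zeta L z) fun x hx => by
    have h3 := ((hasDerivAt_zeta L (hm x hx)).comp_add_const x l).fun_sub (hasDerivAt_zeta L hx)
    rwa [L.weierstrassP_add_coe x ⟨l, hl⟩, sub_self] at h3
  obtain ⟨c, hc⟩ := ell_off_const L (f := fun z => σ (z + l) / (exp (a * z) * σ z)) fun x hx => by
    have h1 := mt (h0 x).1 hx
    refine (((hd (x + l)).hasDerivAt.comp_add_const x l).fun_div
      (((hasDerivAt_id' x).const_mul a).cexp.fun_mul (hd x).hasDerivAt)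
      (mul_ne_zero (exp_ne_zero _) h1)).congr_deriv ?_
    rw [h _ hx, h _ (hm x hx), ← ha x hx]
    ring
  have hn := L.ω₁_div_two_notMem_lattice
  have c0 : c ≠ 0 := hc _ hn ▸ div_ne_zero (mt (h0 _).1 (hm _ hn))
    (mul_ne_zero (exp_ne_zero _) (mt (h0 _).1 hn))
  have hc' := hd.continuous
  refine ⟨a, log c, congrFun (ell_off_ext L (by fun_prop) (by fun_prop) fun x hx => ?_)⟩
  rw [exp_add, exp_log c0, ← hc x hx]
  have := mt (h0 x).1 hx
  field_simp

theorem ell_exists_theta : ∃ t : Fin 3 → ℂ → ℂ, (∀ i, Differentiable ℂ (t i)) ∧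
    (∀ z ∉ L.lattice, t 0 z ≠ 0 ∧ ∀ i, t i z = t 0 z * ![1, ℘[L] z, ℘'[L] z] i) ∧
    (∀ z ∈ L.lattice, t 0 z = 0 ∧ t 1 z = 0 ∧ t 2 z ≠ 0 ∧ deriv (t 1) z ≠ 0) ∧
    ∀ l ∈ L.lattice, ∃ a b : ℂ, ∀ i z, t i (z + l) = exp (a * z + b) * t i z := by
  obtain ⟨σ, hd, h1, h0, h⟩ := ell_exists_sigma L
  have hd' := hd.deriv
  set P : ℂ → ℂ := fun z => deriv σ z ^ 2 - σ z * deriv (deriv σ) z with hP
  have dP : Differentiable ℂ P := (hd'.pow 2).sub (hd.mul hd'.deriv)
  have e1 : ∀ z ∉ L.lattice, P z = ℘[L] z * σ z ^ 2 := fun z hz => by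
    rw [hP]
    simp only
    rw [EventuallyEq.deriv_eq (show deriv σ =ᶠ[𝓝 z] fun z => zeta L z * σ z from
      (wp_ev' L hz).mono h), ((hasDerivAt_zeta L hz).fun_mul (hd z).hasDerivAt).deriv, h z hz]
    ring
  set t : Fin 3 → ℂ → ℂ := ![fun z => σ z ^ 3, fun z => σ z * P z,
    fun z => deriv P z * σ z - 2 * P z * deriv σ z] with ht
  have dt : ∀ i, Differentiable ℂ (t i) := fun i => by
    fin_cases i
    exacts [hd.pow 3, hd.mul dP, (dP.deriv.mul hd).sub ((dP.const_mul 2).mul hd')]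
  have e2 : ∀ z ∉ L.lattice, ∀ i, t i z = σ z ^ 3 * ![1, ℘[L] z, ℘'[L] z] i := fun z hz i => by
    fin_cases i
    · exact (mul_one _).symm
    · show σ z * P z = σ z ^ 3 * ℘[L] z
      rw [e1 z hz]
      ring
    · show deriv P z * σ z - 2 * P z * deriv σ z = σ z ^ 3 * ℘'[L] z
      rw [EventuallyEq.deriv_eq (show P =ᶠ[𝓝 z] fun z => ℘[L] z * σ z ^ 2 from
        (wp_ev' L hz).mono e1), ((hasDerivAt_wp L hz).fun_mul ((hd z).hasDerivAt.fun_pow 2)).deriv,
        e1 z hz]
      simp only [Nat.cast_ofNat, Nat.add_one_sub_one, pow_one]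
      ring
  refine ⟨t, dt, fun z hz => ⟨pow_ne_zero 3 (mt (h0 z).1 hz), e2 z hz⟩, fun z hz => ?_,
    fun l hl => ?_⟩
  · have z0 := (h0 z).2 hz
    obtain ⟨a, b, hab⟩ := ell_sigma_aut L hd h0 h hz
    have z1 : deriv σ z ≠ 0 := by
      have := congrArg (deriv · 0) (funext hab)
      simp only [deriv_comp_add_const, zero_add] at this
      rw [this, ((((hasDerivAt_id' 0).const_mul a).add_const b).cexp.fun_mul
        (hd 0).hasDerivAt).deriv, h1, (h0 0).2 (zero_mem _)]
      simp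
    refine ⟨by simp [ht, z0], by simp [ht, z0], by simp only [ht, hP, Fin.isValue, Matrix.cons_val', z0, ne_eq, OfNat.ofNat_ne_zero, not_false_eq_true, zero_pow, zero_mul, sub_zero, mul_zero, zero_sub, Matrix.cons_val_fin_one, Matrix.cons_val, Matrix.cons_val_one, neg_eq_zero, mul_eq_zero, pow_eq_zero_iff, z1, or_self], ?_⟩
    show deriv (fun z => σ z * P z) z ≠ 0
    rw [((hd z).hasDerivAt.fun_mul (dP z).hasDerivAt).deriv]
    simp only [hP, z0, zero_mul, sub_zero, add_zero, ne_eq, mul_eq_zero, z1, OfNat.ofNat_ne_zero, not_false_eq_true, pow_eq_zero_iff, or_self]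
  · obtain ⟨a, b, hab⟩ := ell_sigma_aut L hd h0 h hl
    refine ⟨3 * a, 3 * b, fun i => ?_⟩
    have := (dt i).continuous
    refine congrFun (ell_off_ext L (by fun_prop) (by fun_prop) fun x hx => ?_)
    rw [e2 x hx, e2 _ fun h => hx (by simpa using sub_mem h hl), hab,
      L.weierstrassP_add_coe x ⟨l, hl⟩, L.derivWeierstrassP_add_coe x ⟨l, hl⟩, mul_pow,
      ← exp_nat_mul, mul_assoc]
    congr 2
    push_cast
    ring

theorem ell_exists_good : ∃ z ∉ L.lattice, ∀ i, ![1, ℘[L] z, ℘'[L] z] i ≠ 0 := by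
  obtain ⟨x, x0, hx⟩ : ∃ x : ℂ, x ≠ 0 ∧ 4 * x ^ 3 - L.g₂ * x - L.g₃ ≠ 0 := by
    by_contra h
    push Not at h
    exact (by norm_num : (24 : ℂ) ≠ 0) (by
      linear_combination h 4 (by norm_num) - 3 * h 3 (by norm_num) + 3 * h 2 (by norm_num) -
        h 1 (by norm_num))
  obtain ⟨z, hz, rfl⟩ := wp_surj L x
  rw [← L.derivWeierstrassP_sq z hz] at hx
  refine ⟨z, hz, fun i => ?_⟩
  fin_cases i
  exacts [one_ne_zero, x0, fun e => hx (by rw [show ℘'[L] z = 0 from e]; simp)]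

end ELL

/-- The Weierstrass model. -/
theorem exists_ell (L : PeriodPair) (h₂ : IsAlgebraic ℚ L.g₂) (h₃ : IsAlgebraic ℚ L.g₃) :
    ∃ A : AbVar 1 2, A.ω 0 = (fun _ => L.ω₁) ∧ A.ω 1 = fun _ => L.ω₂ := by
  obtain ⟨t, dt, h1, h0, ha⟩ := ell_exists_theta L
  have hω : ∀ j : Fin 2, L.basis j = ![L.ω₁, L.ω₂] j := fun j => by fin_cases j <;> simp
  choose a b hab using fun j : Fin 2 => ha (![L.ω₁, L.ω₂] j) (by
    fin_cases j
    exacts [L.ω₁_mem_lattice, L.ω₂_mem_lattice])
  have hf : ∀ i (z v : Fin 1 → ℂ), fderiv ℂ (fun z : Fin 1 → ℂ => t i (z 0)) z v =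
      v 0 * deriv (t i) (z 0) := fun i z v => by
    exact congrArg (fun L : (Fin 1 → ℂ) →L[ℂ] ℂ => L v) (HasDerivAt.comp_hasFDerivAt
      (f := fun z : Fin 1 → ℂ => z 0) z (dt i (z 0)).hasDerivAt (hasFDerivAt_apply 0 z)).fderiv |>.trans
      (mul_comm _ _)
  have hD : ∀ z ∉ L.lattice, ∀ i, deriv (t i) z = deriv (t 0) z * ![1, ℘[L] z, ℘'[L] z] i +
      t 0 z * ![0, ℘'[L] z, 6 * ℘[L] z ^ 2 - L.g₂ / 2] i := fun z hz i => by
    rw [EventuallyEq.deriv_eq ((wp_ev' L hz).mono fun w hw => (h1 w hw).2 i)]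
    refine ((dt 0 z).hasDerivAt.fun_mul ?_).deriv
    fin_cases i
    exacts [hasDerivAt_const _ _, hasDerivAt_wp L hz, hasDerivAt_wp' L hz]
  let c₂ : Qb := ⟨_, (mem_algebraicClosure_iff).2 h₂⟩
  let c₃ : Qb := ⟨_, (mem_algebraicClosure_iff).2 h₃⟩
  have hX := fun i : Fin 3 => isHomogeneous_X Qb i
  refine ⟨{ ω := L.basis.map (LinearEquiv.funUnique (Fin 1) ℝ ℂ).symm
            θ := fun i z => t i (z 0)
            a := fun j => a j • ContinuousLinearMap.proj (R := ℂ) (φ := fun _ : Fin 1 => ℂ) 0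
            b := b
            hol := fun i z _ => ((dt i).analyticAt _).comp
              ((ContinuousLinearMap.proj (R := ℂ) (φ := fun _ : Fin 1 => ℂ) 0).analyticAt z)
            aut := fun i j z => (congrArg (fun w => t i (z 0 + w)) (hω j)).trans (hab j i (z 0))
            ne := fun z => ?_
            inj := fun z w c h => ?_
            imm := fun z v c h => ?_
            alg := ⟨{X 0 * X 2 ^ 2 - (C 4 * X 1 ^ 3 - C c₂ * (X 0 ^ 2 * X 1) - C c₃ * X 0 ^ 3)},
              ?_, fun x hx => ?_⟩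
            der := fun i k j => ?_ }, funext fun _ => hω 0, funext fun _ => hω 1⟩
  · by_cases hz : z 0 ∈ L.lattice
    exacts [⟨2, (h0 _ hz).2.2.1⟩, ⟨0, (h1 _ hz).1⟩]
  · have hm : w 0 - z 0 ∈ L.lattice := by
      by_cases hz : z 0 ∈ L.lattice
      · refine sub_mem (not_not.1 fun hw => (h1 _ hw).1 ?_) hz
        rw [h 0, (h0 _ hz).1, mul_zero]
      by_cases hw : w 0 ∈ L.lattice
      · have := h 0
        rw [(h0 _ hw).1, eq_comm, mul_eq_zero, or_iff_left (h1 _ hz).1] at this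
        exact absurd (by rw [h 2, this, zero_mul]) (h0 _ hw).2.2.1
      have e : ∀ i, ![1, ℘[L] (w 0), ℘'[L] (w 0)] i = ![1, ℘[L] (z 0), ℘'[L] (z 0)] i := fun i =>
        mul_left_cancel₀ (h1 _ hw).1 (by
          rw [← (h1 _ hw).2, h i, h 0, (h1 _ hz).2 i, mul_assoc])
      exact ell_wp_inj L hz hw (e 1) (e 2)
    obtain ⟨m, n, hmn⟩ := PeriodPair.mem_lattice.1 hm
    refine ⟨![m, n], funext fun i => ?_⟩
    rw [Subsingleton.elim i 0, Pi.add_apply, Finset.sum_apply]
    refine Eq.trans ?_ (congrArg _ (Fin.sum_univ_two _).symm)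
    simp only [Fin.isValue, Matrix.cons_val_zero, Nat.reduceMul, Basis.map_apply, PeriodPair.basis_zero, LinearEquiv.funUnique_symm_apply, Pi.smul_apply, AddEquiv.funUnique_symm_apply, zsmul_eq_mul, Matrix.cons_val_one, Matrix.cons_val_fin_one, PeriodPair.basis_one]
    linear_combination -hmn
  · refine funext fun i => ?_
    rw [Subsingleton.elim i 0]
    by_contra hv
    simp only [hf] at h
    by_cases hz : z 0 ∈ L.lattice
    · exact mul_ne_zero hv (h0 _ hz).2.2.2 (by rw [h 1, (h0 _ hz).2.1, mul_zero])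
    have e : ∀ i, ![0, ℘'[L] (z 0), 6 * ℘[L] (z 0) ^ 2 - L.g₂ / 2] i = 0 := fun i =>
      (mul_eq_zero.1 (show (v 0 * t 0 (z 0)) * _ = 0 by
        have := h i
        rw [hD _ hz, (h1 _ hz).2 i] at this
        linear_combination this - ![1, ℘[L] (z 0), ℘'[L] (z 0)] i * h 0)).resolve_left
        (mul_ne_zero hv (h1 _ hz).1)
    exact (nonsing L (L.derivWeierstrassP_sq _ hz)).elim (· (e 1)) (· (e 2))
  · rintro _ rfl
    exact ⟨3, ((hX 0).mul ((hX 2).pow 2)).sub (((((hX 1).pow 3).C_mul _).sub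
      ((((hX 0).pow 2).mul (hX 1)).C_mul _)).sub (((hX 0).pow 3).C_mul _))⟩
  · have e : aeval x (X 0 * X 2 ^ 2 - (C 4 * X 1 ^ 3 - C c₂ * (X 0 ^ 2 * X 1) - C c₃ * X 0 ^ 3) :
        MvPolynomial (Fin 3) Qb) = x 0 * x 2 ^ 2 - (4 * x 1 ^ 3 - L.g₂ * (x 0 ^ 2 * x 1) -
          L.g₃ * x 0 ^ 3) := by
      simp only [map_sub, map_mul, map_pow, aeval_X, aeval_C, map_ofNat]
      rfl
    simp only [Set.mem_singleton_iff, forall_eq, e]
    refine ⟨fun h => ?_, fun ⟨z, c, h⟩ => ?_⟩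
    · by_cases x0 : x 0 = 0
      · obtain ⟨z0, z1, z2, -⟩ := h0 0 (zero_mem _)
        have x1 : x 1 = 0 := by simpa [x0] using h
        refine ⟨0, x 2 / t 2 0, fun i => ?_⟩
        fin_cases i
        · simp [x0, z0]
        · simp [x1, z1]
        · exact (div_mul_cancel₀ _ z2).symm
      · obtain ⟨z, hz, e1, e2⟩ := exists_point L (x := x 1 / x 0) (y := x 2 / x 0) (by
          field_simp
          linear_combination h)
        refine ⟨fun _ => z, x 0 / t 0 z, fun i => ?_⟩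
        have := (h1 z hz).1
        rw [(h1 z hz).2 i, e1, e2]
        fin_cases i <;> simp <;> field_simp
    · simp only [h]
      by_cases hz : z 0 ∈ L.lattice
      · simp [(h0 _ hz).1, (h0 _ hz).2.1]
      · rw [(h1 _ hz).2 1, (h1 _ hz).2 2]
        simp only [Matrix.cons_val]
        linear_combination (c * t 0 (z 0)) ^ 3 * L.derivWeierstrassP_sq _ hz
  · let D : Fin 3 → MvPolynomial (Fin 3) Qb :=
      ![0, X 2 * X 0, C 6 * X 1 ^ 2 - C (c₂ / 2) * X 0 ^ 2]
    have hDh : ∀ i, (D i).IsHomogeneous 2 := fun i => by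
      fin_cases i
      exacts [isHomogeneous_zero _ _ _, (hX 2).mul (hX 0),
        (((hX 1).pow 2).C_mul _).sub (((hX 0).pow 2).C_mul _)]
    let D' : Fin 3 → ℂ → ℂ :=
      ![0, fun z => t 2 z * t 0 z, fun z => 6 * t 1 z ^ 2 - L.g₂ / 2 * t 0 z ^ 2]
    have hc := fun i => (dt i).continuous
    have hc' := fun i => (dt i).deriv.continuous
    have cD : ∀ i, Continuous (D' i) := fun i => by
      fin_cases i
      exacts [continuous_zero, (hc 2).mul (hc 0), (((hc 1).pow 2).const_mul _).sub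
        (((hc 0).pow 2).const_mul _)]
    have eD : ∀ i z, aeval (fun i => t i z) (D i) = D' i z := fun i z => by
      fin_cases i <;> simp only [D, Fin.isValue, c₂, Fin.zero_eta, Matrix.cons_val_zero, map_zero, D', Matrix.cons_val', Pi.zero_apply, Matrix.cons_val_fin_one, Fin.mk_one, Matrix.cons_val_one, map_mul, aeval_X, Fin.reduceFinMk, Matrix.cons_val, map_sub, algHom_C, IntermediateField.algebraMap_apply, map_pow, map_div₀]
      rfl
    have key := congrFun (ell_off_ext L (u := fun z => t 0 z * (t k z * deriv (t i) z -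
        t i z * deriv (t k) z)) (v := fun z => t k z * D' i z - t i z * D' k z) (by fun_prop)
      (by fun_prop) fun z hz => by
        have e : ∀ i, D' i z = t 0 z ^ 2 * ![0, ℘'[L] z, 6 * ℘[L] z ^ 2 - L.g₂ / 2] i := fun i => by
          fin_cases i
          · simp [D']
          · show t 2 z * t 0 z = t 0 z ^ 2 * ℘'[L] z
            rw [(h1 z hz).2 2, sq, mul_right_comm]
            rfl
          · show 6 * t 1 z ^ 2 - L.g₂ / 2 * t 0 z ^ 2 = t 0 z ^ 2 * (6 * ℘[L] z ^ 2 - L.g₂ / 2)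
            rw [(h1 z hz).2 1]
            simp only [Matrix.cons_val]
            ring
        rw [e, e, hD z hz i, hD z hz k, (h1 z hz).2 i, (h1 z hz).2 k]
        ring)
    obtain ⟨z, hz, hg⟩ := ell_exists_good L
    refine ⟨3, X k * D i - X i * D k, X 0 * X k ^ 2, ((hX k).mul (hDh i)).sub ((hX i).mul (hDh k)),
      (hX 0).mul ((hX k).pow 2), ⟨fun _ => z, ?_⟩, fun z => ?_⟩
    · simp only [val, map_mul, map_pow, aeval_X]
      rw [(h1 z hz).2 k]
      exact mul_ne_zero (h1 z hz).1 (pow_ne_zero _ (mul_ne_zero (h1 z hz).1 (hg k)))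
    · simp only [val, map_mul, map_pow, map_sub, aeval_X, eD, pd, hf, Pi.sub_apply, Pi.mul_apply,
        Pi.pow_apply, Subsingleton.elim j 0, Pi.single_eq_same, one_mul]
      linear_combination t k (z 0) ^ 2 * key (z 0)

/-! ### Block ED -/

theorem ed_G (L : PeriodPair) (n : ℕ) : L.G n = ∑' x : ℤ × ℤ, ((x.1 * L.ω₁ + x.2 * L.ω₂) ^ n)⁻¹ := by
  rw [PeriodPair.G, ← L.latticeEquivProd.symm.toEquiv.tsum_eq]
  exact tsum_congr fun x => by rw [← L.latticeEquiv_symm_apply]; rfl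

/-- The lattices `ℤ[i]` and `ℤ[ρ]`, scaled. -/
theorem exists_pair {τ : ℂ} (h : τ ^ 2 = -1 ∨ τ ^ 2 + τ + 1 = 0) : ∃ L : PeriodPair,
    L.ω₂ = τ * L.ω₁ ∧ IsAlgebraic ℚ L.g₂ ∧ IsAlgebraic ℚ L.g₃ := by
  rw [← add_eq_zero_iff_eq_neg] at h
  have hτ : τ.im ≠ 0 := fun e => by
    rcases h with h | h <;> have := congrArg re h <;> simp only [sq, add_re, mul_re, e, mul_zero, sub_zero, one_re, zero_re] at this <;>
      nlinarith only [this]
  have hi : ∀ c : ℂ, c ≠ 0 → LinearIndependent ℝ ![c, c * τ] := fun c hc =>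
    LinearIndependent.pair_iff.2 fun s t e => by
      have e1 : (s : ℂ) + t * τ = 0 := mul_left_cancel₀ hc (by
        simp only [real_smul] at e
        linear_combination e)
      have t0 : t = 0 := by simpa [hτ] using congrArg im e1
      exact ⟨by simpa [t0] using e1, t0⟩
  set G : ℕ → ℂ := fun n => ∑' x : ℤ × ℤ, (((x.1 : ℂ) + x.2 * τ) ^ n)⁻¹ with hG
  have h1 : ∀ c hc n, PeriodPair.G ⟨c, c * τ, hi c hc⟩ n = (c ^ n)⁻¹ * G n := fun c hc n => by
    rw [ed_G, ← tsum_mul_left]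
    exact tsum_congr fun x => by rw [← mul_inv, ← mul_pow]; congr 2; ring
  have h2 : ∀ (k : ℤ) n, τ ^ 2 + k * τ + 1 = 0 → τ ^ n ≠ 1 → G n = 0 := fun k n hk hn => by
    have e := (Equiv.tsum_eq ⟨fun x : ℤ × ℤ => (-x.2, x.1 - k * x.2),
      fun x => (x.2 - k * x.1, -x.1), fun x => by simp, fun x => by simp⟩
      fun x : ℤ × ℤ => (((x.1 : ℂ) + x.2 * τ) ^ n)⁻¹).symm.trans
      (tsum_congr (g := fun x : ℤ × ℤ => (τ ^ n)⁻¹ * (((x.1 : ℂ) + x.2 * τ) ^ n)⁻¹) fun x => by
        rw [← mul_inv, ← mul_pow]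
        congr 2
        simp only [Equiv.coe_fn_mk]
        push_cast
        linear_combination -x.2 * hk)
    rw [tsum_mul_left] at e
    by_contra h0
    exact hn (inv_eq_one.1 (mul_right_cancel₀ h0 (e.symm.trans (one_mul _).symm)))
  have h3 : ∀ n, 0 < n → ∃ c : ℂ, c ≠ 0 ∧ IsAlgebraic ℚ ((c ^ n)⁻¹ * G n) := fun n hn => by
    by_cases h0 : G n = 0
    · exact ⟨1, one_ne_zero, by rw [h0, mul_zero]; exact isAlgebraic_zero⟩
    · obtain ⟨c, hc⟩ := IsAlgClosed.exists_pow_nat_eq (G n) hn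
      exact ⟨c, fun e => h0 (by rw [← hc, e, zero_pow hn.ne']), by
        rw [hc, inv_mul_cancel₀ h0]; exact isAlgebraic_one⟩
  have h4 : ∃ c : ℂ, c ≠ 0 ∧ IsAlgebraic ℚ ((c ^ 4)⁻¹ * G 4) ∧ IsAlgebraic ℚ ((c ^ 6)⁻¹ * G 6) := by
    rcases h with h | h
    · obtain ⟨c, hc, a⟩ := h3 4 (by norm_num)
      refine ⟨c, hc, a, ?_⟩
      rw [h2 0 6 (by simpa only [Int.cast_zero, zero_mul, add_zero] using h) fun e => two_ne_zero (α := ℂ) (by
        linear_combination (τ ^ 4 - τ ^ 2 + 1) * h - e), mul_zero]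
      exact isAlgebraic_zero
    · obtain ⟨c, hc, a⟩ := h3 6 (by norm_num)
      refine ⟨c, hc, ?_, a⟩
      rw [h2 1 4 (by simpa using h) fun e => hτ (by
        rw [show τ = 1 by linear_combination e - (τ ^ 2 - τ) * h, one_im]), mul_zero]
      exact isAlgebraic_zero
  obtain ⟨c, hc, a4, a6⟩ := h4
  refine ⟨⟨c, c * τ, hi c hc⟩, mul_comm _ _, ?_, ?_⟩
  · rw [PeriodPair.g₂, h1 c hc]
    exact (isAlgebraic_natCast 60).mul a4
  · rw [PeriodPair.g₃, h1 c hc]
    exact (isAlgebraic_natCast 140).mul a6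

/-! ### Block EE -/

theorem ee_step (d : ℕ) (e : Fin (2 * (d + 1)) ≃ Fin (d + 1) × Fin (2 * 1)) :
    ∃ (e₀ : Fin (2 * (d + 1 + 1)) ≃ Fin (2 * (d + 1)) ⊕ Fin (2 * 1))
      (e' : Fin (2 * (d + 1 + 1)) ≃ Fin (d + 1 + 1) × Fin (2 * 1)),
      ∀ j, e' j = Sum.elim (fun k => (Fin.castAdd 1 (e k).1, (e k).2))
        (fun k => (Fin.natAdd (d + 1) 0, k)) (e₀ j) := by
  let e₀ : Fin (2 * (d + 1 + 1)) ≃ Fin (2 * (d + 1)) ⊕ Fin (2 * 1) :=
    (finCongr (by ring)).trans finSumFinEquiv.symm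
  refine ⟨e₀, e₀.trans ((Equiv.sumCongr e (Equiv.uniqueProd (Fin (2 * 1)) (Fin 1)).symm).trans
    ((Equiv.sumProdDistrib _ _ _).symm.trans (Equiv.prodCongr finSumFinEquiv (Equiv.refl _)))),
    fun j => ?_⟩
  simp only [Equiv.trans_apply]
  rcases e₀ j with k | k
  · simp
  · simp

theorem ee_cn {d : ℕ} (i : Fin d) (k : Fin 1) : Fin.castAdd 1 i ≠ Fin.natAdd d k := fun h => by
  have h1 := congrArg Fin.val h
  have h2 := i.2
  rw [Fin.val_castAdd, Fin.val_natAdd] at h1
  omega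

theorem ee_app₁ {d : ℕ} (i : Fin d) (a : ℂ) :
    Fin.append (Pi.single i a : Fin d → ℂ) (0 : Fin 1 → ℂ) = Pi.single (Fin.castAdd 1 i) a := by
  funext k
  refine Fin.addCases (fun k => ?_) (fun k => ?_) k
  · rw [Fin.append_left]
    by_cases h : k = i
    · subst h; simp
    · rw [Pi.single_eq_of_ne h, Pi.single_eq_of_ne fun h' => h (Fin.castAdd_injective _ _ h')]
  · rw [Fin.append_right, Pi.single_eq_of_ne (ee_cn i k).symm]
    rfl

theorem ee_app₂ {d : ℕ} (w : Fin 1 → ℂ) :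
    Fin.append (0 : Fin d → ℂ) w = Pi.single (Fin.natAdd d 0) (w 0) := by
  funext k
  refine Fin.addCases (fun k => ?_) (fun k => ?_) k
  · rw [Fin.append_left, Pi.single_eq_of_ne (ee_cn k 0)]
    rfl
  · rw [Fin.append_right, Subsingleton.elim k 0, Pi.single_eq_same]

/-- Induction with `exists_prod`. -/
theorem exists_pw {N : ℕ} (A : AbVar 1 N) (d : ℕ) :
    ∃ (N' : ℕ) (B : AbVar (d + 1) N') (e : Fin (2 * (d + 1)) ≃ Fin (d + 1) × Fin (2 * 1)),
      ∀ j, B.ω j = Pi.single (e j).1 (A.ω (e j).2 0) := by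
  induction d with
  | zero =>
    refine ⟨N, A, (Equiv.uniqueProd (Fin (2 * 1)) (Fin 1)).symm, fun j => funext fun k => ?_⟩
    rw [Subsingleton.elim (α := Fin 1) k 0]
    exact (Pi.single_eq_same (M := fun _ : Fin 1 => ℂ) 0 (A.ω j 0)).symm
  | succ d ih =>
    obtain ⟨N', B, e, h⟩ := ih
    obtain ⟨e₀, e', he⟩ := ee_step d e
    obtain ⟨N'', C, hC, -⟩ := exists_prod B A e₀
    refine ⟨N'', C, e', fun j => ?_⟩
    rw [hC, he, pω]
    rcases e₀ j with k | k
    · simp only [Sum.elim_inl]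
      rw [h, ee_app₁]
    · simp only [Sum.elim_inr]
      rw [ee_app₂]

theorem ee_ne {τ : ℂ} (hτ : τ.im ≠ 0) : (starRingEnd ℂ) τ ≠ τ := fun h =>
  hτ (conj_eq_iff_im.1 h)

theorem ee_card {E : Type} [Field E] [NumberField E] {d : ℕ} (hd : finrank ℚ E = 2 * d) {τ : ℂ}
    (hτ : τ.im ≠ 0) {x : E} (hx : ∀ φ : E →+* ℂ, φ x = τ ∨ φ x = (starRingEnd ℂ) τ) :
    {φ : E →+* ℂ | φ x = τ}.ncard = d := by
  have h1 := Set.ncard_add_ncard_compl {φ : E →+* ℂ | φ x = τ}
  rw [Nat.card_eq_fintype_card, NumberField.Embeddings.card, hd] at h1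
  have h2 : {φ : E →+* ℂ | φ x = τ}ᶜ =
      NumberField.ComplexEmbedding.conjugate '' {φ : E →+* ℂ | φ x = τ} := by
    ext φ
    constructor
    · intro h
      refine ⟨NumberField.ComplexEmbedding.conjugate φ, ?_, star_star φ⟩
      have h3 := (hx φ).resolve_left h
      show NumberField.ComplexEmbedding.conjugate φ x = τ
      rw [NumberField.ComplexEmbedding.conjugate_coe_eq, h3, conj_conj]
    · rintro ⟨ψ, h, rfl⟩ h'
      have h3 : ψ x = τ := h
      have h4 : NumberField.ComplexEmbedding.conjugate ψ x = τ := h'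
      rw [NumberField.ComplexEmbedding.conjugate_coe_eq, h3] at h4
      exact ee_ne hτ h4
  rw [h2, Set.ncard_image_of_injective _ (star_injective)] at h1
  omega

theorem ee_deg {E : Type} [Field E] [NumberField E] {τ : ℂ}
    (hτ : τ.im ≠ 0) {x : E} (hx : ∀ φ : E →+* ℂ, φ x = τ ∨ φ x = (starRingEnd ℂ) τ) :
    (minpoly ℚ x).natDegree = 2 := by
  have hi : IsIntegral ℚ x := Algebra.IsIntegral.isIntegral x
  have h1 : (minpoly ℚ x).rootSet ℂ = {τ, (starRingEnd ℂ) τ} := by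
    rw [← NumberField.Embeddings.range_eval_eq_rootSet_minpoly E ℂ x]
    obtain ⟨φ⟩ : Nonempty (E →+* ℂ) := inferInstance
    ext z
    constructor
    · rintro ⟨ψ, rfl⟩
      exact hx ψ
    · have h2 := NumberField.ComplexEmbedding.conjugate_coe_eq φ x
      rintro (rfl | rfl) <;> rcases hx φ with h | h
      · exact ⟨φ, h⟩
      · exact ⟨_, by rw [h, conj_conj] at h2; exact h2⟩
      · exact ⟨_, by rw [h] at h2; exact h2⟩
      · exact ⟨φ, h⟩
  have h2 := Polynomial.card_rootSet_eq_natDegree (minpoly.irreducible hi).separable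
    (IsAlgClosed.splits ((minpoly ℚ x).map (algebraMap ℚ ℂ)))
  rw [← h2, ← Nat.card_eq_fintype_card, h1, Nat.card_coe_set_eq, Set.ncard_pair (ee_ne hτ).symm]

open scoped IntermediateField in
theorem ee_basis {E : Type} [Field E] [NumberField E] {d : ℕ} (hd : finrank ℚ E = 2 * d) {x : E}
    (h : (minpoly ℚ x).natDegree = 2) :
    ∃ (f : Fin d → E) (b : Basis (Fin d × Fin (2 * 1)) ℚ E), ∀ p, b p = x ^ (p.2 : ℕ) * f p.1 := by
  have hi : IsIntegral ℚ x := Algebra.IsIntegral.isIntegral x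
  have h1 : finrank ℚ ℚ⟮x⟯ = 2 := by rw [IntermediateField.adjoin.finrank hi, h]
  have h2 : finrank ℚ⟮x⟯ E = d := by
    have := Module.finrank_mul_finrank ℚ ℚ⟮x⟯ E
    rw [h1, hd] at this
    omega
  let f : Basis (Fin d) ℚ⟮x⟯ E := finBasisOfFinrankEq _ _ h2
  let pb := IntermediateField.adjoin.powerBasis hi
  have h3 : pb.dim = 2 * 1 := h
  let b₀ : Basis (Fin (2 * 1)) ℚ ℚ⟮x⟯ := pb.basis.reindex (finCongr h3)
  refine ⟨f, b₀.smulTower' f, fun p => ?_⟩
  rw [Basis.smulTower'_apply, Basis.reindex_apply, pb.basis_eq_pow, Algebra.smul_def, map_pow]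
  rfl

/-- A basis of `E` of the form `e k`, `x * e k` (`e` a basis over `ℚ⟮x⟯`, `Basis.smulTower`, or a
maximal family); `l φ z = ∑ k, φ (e k) * z k / c`.  Conjugation exchanges the set and its
complement, so it has `d` elements (`card_emb`). -/
theorem start {E : Type} [Field E] [NumberField E] {d N : ℕ} (hd : finrank ℚ E = 2 * d) {τ c : ℂ}
    (hτ : τ.im ≠ 0) (hc : c ≠ 0) {x : E} (hx : ∀ φ : E →+* ℂ, φ x = τ ∨ φ x = (starRingEnd ℂ) τ)
    (A : AbVar 1 N) (h0 : A.ω 0 = fun _ => c) (h1 : A.ω 1 = fun _ => τ * c) :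
    ∃ (N' : ℕ) (B : AbVar d N') (b : Basis (Fin (2 * d)) ℚ E), IsCM B b {φ | φ x = τ} := by
  obtain ⟨d, rfl⟩ : ∃ d', d = d' + 1 := by
    have := finrank_pos (R := ℚ) (M := E)
    exact ⟨d - 1, by omega⟩
  obtain ⟨N', B, e, hB⟩ := exists_pw A d
  obtain ⟨f, b, hb⟩ := ee_basis hd (ee_deg hτ hx)
  refine ⟨N', B, b.reindex e.symm, ee_card hd hτ hx, fun φ hφ => ?_⟩
  have h2 : φ x = τ := hφ
  refine ⟨∑ k, (φ (f k) / c) • LinearMap.proj k, fun j => ?_⟩
  rw [Basis.reindex_apply, Equiv.symm_symm, hb, hB, map_mul, map_pow, h2, LinearMap.sum_apply,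
    Finset.sum_eq_single (e j).1
      (fun k _ hk => by simp [Pi.single_eq_of_ne hk]) (fun h => (h (Finset.mem_univ _)).elim)]
  simp only [LinearMap.smul_apply, LinearMap.proj_apply, Pi.single_eq_same, smul_eq_mul]
  have h3 : ∀ i : Fin (2 * 1), A.ω i 0 = τ ^ (i : ℕ) * c := by
    intro i
    have : i = 0 ∨ i = 1 := by
      rcases i with ⟨_ | _ | i, hi⟩
      · exact Or.inl rfl
      · exact Or.inr rfl
      · omega
    rcases this with rfl | rfl
    · rw [h0]; simp
    · rw [h1]; simp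
  rw [h3]
  field_simp

end GPCE

end
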