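import Pool.Agent.MP_57341d_ag.HW.Abs

attribute [-instance] RKHS.instFunLike IsPurelyInseparable.instOfHasExponent
  AddQuantale.instAddLeftMono IsStarProjection.instTrivialStarOfStarOrderedRing
  IdemSemiring.toCanonicallyOrderedAdd instNonUnitalAlgHomClassOfNonUnitalAlgEquivClass
  BialgHomClass.toAlgHomClass decidableEq_of_subsingleton instCharZeroOfIsSemireal
  instCoeHTCTOfCoeTailOfCoeHTC IdemSemiring.toSemiring
  ContinuousSemilinearMapClass.toSemilinearMapClass Pi.seminormedAddCommGroup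
  LieAdmissibleAlgebra.toModule NonUnitalAlgHomClass.instLinearMapClass FunLike.toDecidableEq
  GrpTypeEquivalenceGrp.grpGroup MonTypeEquivalenceMon.monMonoid RightPreLieAlgebra.toModule
  LeftPreLieAlgebra.toModule CoalgHomClass.toSemilinearMapClass LieAlgebra.toModule
  instCoeHTCOfCoeHeadOfCoeOTC RingHomClass.toLinearMapClassRat TestFunctionClass.toDFunLike
  NonUnitalAlgHomClass.toNonUnitalRingHomClass
  MulSemiringActionSemiHomClass.toDistribMulActionSemiHomClass ContDiffMapSupportedInClass.toDFunLike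
  CategoryTheory.Limits.Concrete.instUniqueToTypeTerminal LinearOrder.toDecidableEq instCoeTCOfCoe
  littleWedderburn IdemSemiring.toMulLeftMono IsOrderedMonoid.toMulLeftMono
  ValuationClass.toMonoidWithZeroHomClass
  NonUnitalAlgHomClass.instSemilinearMapClassOfNonUnitalAlgSemiHomClassToMonoidHomRingHom
  AddQuantale.instAddRightMono Normal.toIsAlgebraic BialgHomClass.toMonoidHomClass
  Quantale.instMulLeftMono NonUnitalNormedRing.toNonUnitalSeminormedRing NormedRing.toRing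
  LieAdmissibleRing.toNonUnitalNonAssocRing DistribLattice.toLattice instSMulZeroClass
  instCoeTOfCoeDep CentroidHomClass.toAddMonoidHomClass SemilinearIsometryClass.toSemilinearMapClass
  NonUnitalRing.toNonUnitalNonAssocRing BooleanRing.toRing RCLike.charZero_rclike
  MulSemiringAction.toDistribMulAction Rat.instIsOrderedAddMonoid
  ContinuousMonoidHom.instCoeOutOfMonoidHomClassOfContinuousMapClass
  GeneralizedCoheytingAlgebra.toLattice AddCommGroupWithOne.toAddGroupWithOne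
  Algebra.WeaklyEtale.flat InvOneClass.toOne Valued.toUniformSpace Quantale.instMulRightMono
  AlgHomClass.linearMapClass NormedCommRing.toCommRing LieRing.toAddCommGroup
  FirstOrder.Language.instDecidableEqRelations Module.Invertible.instFaithfulSMul
  LinearOrderedAddCommMonoidWithTop.toAddCommMonoid IsometryClass.instCoeOutIsometryEquiv
  Group.IsPerfect.subsingleton_of_isMulCommutative CommRing.Pic.instFreeOfSubsingleton
  Bialgebra.toAlgebra

section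

/-! Symplectic bases; the Casimir element of a trace form. -/

open Module

namespace GPCW

section Symp

variable {K R : Type} [Field K] [AddCommGroup R] [Module K R]

/-- A symplectic family. -/
def SyF (b : R →ₗ[K] R →ₗ[K] K) {n : ℕ} (e f : Fin n → R) : Prop :=
  (∀ i j, b (e i) (e j) = 0) ∧ (∀ i j, b (f i) (f j) = 0) ∧
    ∀ i j, b (e i) (f j) = if i = j then 1 else 0

theorem sy_skew {b : R →ₗ[K] R →ₗ[K] K} (ha : ∀ v, b v v = 0) (u v : R) : b v u = -b u v := by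
  have h := ha (u + v)
  simp only [map_add, LinearMap.add_apply, ha u, ha v] at h
  linear_combination h

theorem SyF.li {b : R →ₗ[K] R →ₗ[K] K} {n : ℕ} {e f : Fin n → R}
    (h : SyF b e f) : LinearIndependent K (Sum.elim e f) := by
  rw [Fintype.linearIndependent_iff]
  intro g hg
  rintro (j | j)
  · have := congrArg (fun x => b x (f j)) hg
    simpa only [Fintype.sum_sum_type, Sum.elim_inl, Sum.elim_inr, map_add, map_sum, map_smul, LinearMap.add_apply, LinearMap.sum_apply, LinearMap.smul_apply, h.2.2, smul_eq_mul, mul_ite, mul_one, mul_zero, Finset.sum_ite_eq', Finset.mem_univ, ↓ reduceIte, h.2.1, Finset.sum_const_zero, add_zero, map_zero, LinearMap.zero_apply] using this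
  · have := congrArg (fun x => b (e j) x) hg
    simpa only [Fintype.sum_sum_type, Sum.elim_inl, Sum.elim_inr, map_add, map_sum, map_smul, h.1, smul_eq_mul, mul_zero, Finset.sum_const_zero, h.2.2, mul_ite, mul_one, Finset.sum_ite_eq, Finset.mem_univ, ↓ reduceIte, zero_add, map_zero] using this

theorem SyF.proj {b : R →ₗ[K] R →ₗ[K] K} (ha : ∀ v, b v v = 0) {n : ℕ} {e f : Fin n → R}
    (h : SyF b e f) (x : R) (j : Fin n) :
    b (x - ∑ i, b x (f i) • e i + ∑ i, b x (e i) • f i) (e j) = 0 ∧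
      b (x - ∑ i, b x (f i) • e i + ∑ i, b x (e i) • f i) (f j) = 0 := by
  have h3 : ∀ i, b (f i) (e j) = if j = i then -1 else 0 := fun i => by
    rw [sy_skew ha, h.2.2]; split_ifs <;> simp
  constructor
  · simp only [map_add, map_sub, map_sum, map_smul, LinearMap.add_apply, LinearMap.sub_apply, LinearMap.sum_apply, LinearMap.smul_apply, h.1, smul_eq_mul, mul_zero, Finset.sum_const_zero, sub_zero, h3, mul_ite, mul_neg, mul_one, Finset.sum_ite_eq, Finset.mem_univ, ↓ reduceIte, add_neg_cancel]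
  · simp only [map_add, map_sub, map_sum, map_smul, LinearMap.add_apply, LinearMap.sub_apply, LinearMap.sum_apply, LinearMap.smul_apply, h.2.2, smul_eq_mul, mul_ite, mul_one, mul_zero, Finset.sum_ite_eq', Finset.mem_univ, ↓ reduceIte, sub_self, h.2.1, Finset.sum_const_zero, add_zero]

/-- **Symplectic basis.** -/
theorem symp [FiniteDimensional K R] (b : R →ₗ[K] R →ₗ[K] K) (ha : ∀ v, b v v = 0)
    (hn : ∀ v, (∀ w, b v w = 0) → v = 0) :
    ∃ (n : ℕ) (e : Basis (Fin n ⊕ Fin n) K R), (∀ i j, b (e (.inl i)) (e (.inl j)) = 0) ∧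
      (∀ i j, b (e (.inr i)) (e (.inr j)) = 0) ∧
      ∀ i j, b (e (.inl i)) (e (.inr j)) = if i = j then 1 else 0 := by
  obtain ⟨n, ⟨e, f, h⟩, hmax⟩ : ∃ n : ℕ, (∃ e f : Fin n → R, SyF b e f) ∧
      ¬∃ e f : Fin (n + 1) → R, SyF b e f := by
    by_contra hcon
    have hall : ∀ n : ℕ, ∃ e f : Fin n → R, SyF b e f := by
      intro n
      induction n with
      | zero => exact ⟨Fin.elim0, Fin.elim0, fun i => i.elim0, fun i => i.elim0, fun i => i.elim0⟩
      | succ n ih => by_contra h'; exact hcon ⟨n, ih, h'⟩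
    obtain ⟨e, f, h⟩ := hall (finrank K R + 1)
    have := h.li.fintype_card_le_finrank
    simp at this
    omega
  have key : ∀ x, (∀ j, b x (e j) = 0 ∧ b x (f j) = 0) → x = 0 := by
    intro x hx
    by_contra hx0
    obtain ⟨w, hw⟩ : ∃ w, b x w ≠ 0 := by
      by_contra h'
      exact hx0 (hn x fun w => by by_contra h''; exact h' ⟨w, h''⟩)
    set y := (b x w)⁻¹ • w with hy
    have hxy : b x y = 1 := by simp [hy, hw]
    set z := y - ∑ i, b y (f i) • e i + ∑ i, b y (e i) • f i with hz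
    have hz1 := h.proj ha y
    rw [← hz] at hz1
    have hxz : b x z = 1 := by
      simp only [hz, map_add, map_sub, hxy, map_sum, map_smul, (hx _).1, smul_eq_mul, mul_zero, Finset.sum_const_zero, sub_zero, (hx _).2, add_zero]
    refine hmax ⟨Fin.cons x e, Fin.cons z f, ?_, ?_, ?_⟩
    · refine Fin.cases ?_ (fun i => ?_) <;> refine Fin.cases ?_ (fun j => ?_)
      · simp [ha]
      · simp [(hx j).1]
      · simp [sy_skew ha x (e i), (hx i).1]
      · simp [h.1]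
    · refine Fin.cases ?_ (fun i => ?_) <;> refine Fin.cases ?_ (fun j => ?_)
      · simp [ha]
      · simp [(hz1 j).2]
      · simp [sy_skew ha z (f i), (hz1 i).2]
      · simp [h.2.1]
    · refine Fin.cases ?_ (fun i => ?_) <;> refine Fin.cases ?_ (fun j => ?_)
      · simp [hxz]
      · simp [(hx j).2, (Fin.succ_ne_zero j).symm]
      · simp [sy_skew ha z (e i), (hz1 i).1]
      · simp [h.2.2]
  have hsp : ⊤ ≤ Submodule.span K (Set.range (Sum.elim e f)) := by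
    intro x _
    have h0 := key _ (h.proj ha x)
    have h1 : x = ∑ i, b x (f i) • e i - ∑ i, b x (e i) • f i := by
      rw [← sub_eq_zero, ← h0]; abel
    rw [h1]
    refine Submodule.sub_mem _ (Submodule.sum_mem _ fun i _ => Submodule.smul_mem _ _ ?_)
      (Submodule.sum_mem _ fun i _ => Submodule.smul_mem _ _ ?_)
    · exact Submodule.subset_span ⟨.inl i, rfl⟩
    · exact Submodule.subset_span ⟨.inr i, rfl⟩
  refine ⟨n, Basis.mk h.li hsp, ?_, ?_, ?_⟩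
  · intro i j; simpa only [Basis.coe_mk, Sum.elim_inl] using h.1 i j
  · intro i j; simpa only [Basis.coe_mk, Sum.elim_inr] using h.2.1 i j
  · intro i j; simpa using h.2.2 i j

end Symp

section Cas

variable {E : Type} [Field E] [NumberField E] [DecidableEq (E →+* ℂ)]

omit [DecidableEq (E →+* ℂ)] in
theorem cas_trace (x : E) : ((Algebra.trace ℚ E x : ℚ) : ℂ) = ∑ φ : E →+* ℂ, φ x := by
  have h := trace_eq_sum_embeddings ℂ (K := ℚ) (L := E) (x := x)
  rw [eq_ratCast] at h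
  rw [h]
  exact Fintype.sum_equiv (RingHom.equivRatAlgHom E ℂ).symm _ _ fun _ => rfl

/-- **Casimir**, with rational weights. -/
theorem casimir_q (c : E → E) (hc : ∀ (φ : E →+* ℂ) (x : E), φ (c x) = star (φ x)) (β : E)
    (hβ : ∀ φ : E →+* ℂ, 0 < (φ β).re ∧ (φ β).im = 0) :
    ∃ (n : ℕ) (α : Fin n → E) (q : Fin n → ℚ), (∀ i, α i ≠ 0) ∧ (∀ i, 0 < q i) ∧
      ∀ φ ψ : E →+* ℂ, ∑ i, (q i : ℂ) * (star (φ (α i)) * ψ (α i)) = if φ = ψ then φ β else 0 := by
  obtain ⟨φ₀⟩ : Nonempty (E →+* ℂ) := inferInstance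
  have hne : ∀ φ : E →+* ℂ, φ β ≠ 0 := fun φ h => by simpa [h] using (hβ φ).1
  have hst : ∀ φ : E →+* ℂ, star (φ β) = φ β := fun φ =>
    Complex.conj_eq_iff_im.2 (hβ φ).2
  let b : LinearMap.BilinForm ℚ E := LinearMap.mk₂ ℚ (fun x y => Algebra.trace ℚ E (c x * y / β))
    (fun x x' y => by
      have : c (x + x') = c x + c x' := φ₀.injective (by simp [hc])
      rw [this, add_mul, add_div, map_add])
    (fun a x y => by
      have : c (a • x) = a • c x := φ₀.injective (by simp [hc, Rat.smul_def])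
      rw [this, smul_mul_assoc, smul_div_assoc, map_smul])
    (fun x y y' => by rw [mul_add, add_div, map_add])
    (fun a x y => by rw [mul_smul_comm, smul_div_assoc, map_smul])
  have hb : ∀ x y, (b x y : ℂ) = ∑ φ : E →+* ℂ, star (φ x) * φ y / φ β := fun x y => by
    simp only [b, LinearMap.mk₂_apply, cas_trace, map_div₀, map_mul, hc]
  have hs : LinearMap.IsSymm b := ⟨fun x y => by
    have h : star (b x y : ℂ) = (b y x : ℂ) := by
      rw [hb, hb, star_sum]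
      refine Finset.sum_congr rfl fun φ _ => ?_
      rw [star_div₀, star_mul', star_star, hst, mul_comm]
    rw [star_ratCast] at h
    exact_mod_cast h⟩
  have hpos : ∀ x, x ≠ 0 → 0 < b x x := fun x hx => by
    have h : ((b x x : ℚ) : ℝ) = ∑ φ : E →+* ℂ, Complex.normSq (φ x) / (φ β).re := by
      have h1 : ((((b x x : ℚ) : ℝ)) : ℂ) =
          ((∑ φ : E →+* ℂ, Complex.normSq (φ x) / (φ β).re : ℝ) : ℂ) := by
        rw [Complex.ofReal_ratCast, hb, Complex.ofReal_sum]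
        refine Finset.sum_congr rfl fun φ _ => ?_
        rw [Complex.ofReal_div, Complex.normSq_eq_conj_mul_self,
          Complex.conj_eq_iff_re.1 (hst φ)]
        rfl
      exact_mod_cast h1
    have h2 : (0 : ℝ) < ((b x x : ℚ) : ℝ) := by
      rw [h]
      exact Finset.sum_pos (fun φ _ => div_pos
        (Complex.normSq_pos.2 ((map_ne_zero φ).2 hx)) (hβ φ).1) ⟨φ₀, Finset.mem_univ _⟩
    exact_mod_cast h2
  obtain ⟨v, hv⟩ := LinearMap.BilinForm.exists_orthogonal_basis hs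
  refine ⟨_, v, fun i => (b (v i) (v i))⁻¹, v.ne_zero,
    fun i => inv_pos.2 (hpos _ (v.ne_zero i)), ?_⟩
  let A : Matrix (Fin (finrank ℚ E)) (E →+* ℂ) ℂ :=
    .of fun i φ => (((b (v i) (v i))⁻¹ : ℚ) : ℂ) * star (φ (v i)) / φ β
  let M : Matrix (E →+* ℂ) (Fin (finrank ℚ E)) ℂ := .of fun φ i => φ (v i)
  have h1 : A * M = 1 := by
    ext i j
    have : (A * M) i j = (((b (v i) (v i))⁻¹ : ℚ) : ℂ) * (b (v i) (v j) : ℂ) := by
      rw [Matrix.mul_apply, hb, Finset.mul_sum]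
      refine Finset.sum_congr rfl fun φ _ => ?_
      simp only [A, M, Matrix.of_apply]
      ring
    rw [this, Matrix.one_apply]
    split_ifs with hij
    · subst hij
      rw [← Rat.cast_mul, inv_mul_cancel₀ (hpos _ (v.ne_zero i)).ne', Rat.cast_one]
    · have : b (v i) (v j) = 0 := hv hij
      rw [this]; simp
  have h2 : M * A = 1 := by
    refine (Matrix.mul_eq_one_comm_of_card_eq _ _ _ ?_).1 h1
    simp only [Fintype.card_fin, NumberField.Embeddings.card]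
  intro φ ψ
  have h3 := congrFun (congrFun h2 ψ) φ
  rw [Matrix.mul_apply, Matrix.one_apply] at h3
  have h4 : ∑ i, (((b (v i) (v i))⁻¹ : ℚ) : ℂ) * (star (φ (v i)) * ψ (v i)) =
      (∑ i, M ψ i * A i φ) * φ β := by
    rw [Finset.sum_mul]
    refine Finset.sum_congr rfl fun i _ => ?_
    simp only [A, M, Matrix.of_apply]
    field_simp [hne φ]
  rw [h4, h3]
  by_cases h : φ = ψ
  · simp [h]
  · simp [h, Ne.symm h]

/-- **Casimir**, without weights (`α / s` repeated `r s` times for the weight `r / s`). -/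
theorem casimir (c : E → E) (hc : ∀ (φ : E →+* ℂ) (x : E), φ (c x) = star (φ x)) (β : E)
    (hβ : ∀ φ : E →+* ℂ, 0 < (φ β).re ∧ (φ β).im = 0) :
    ∃ (m : ℕ) (α : Fin m → E), (∀ i, α i ≠ 0) ∧ ∀ φ ψ : E →+* ℂ,
      ∑ i, star (φ (α i)) * ψ (α i) = if φ = ψ then φ β else 0 := by
  obtain ⟨n, α, q, hα, hq, h⟩ := casimir_q c hc β hβ
  let ι := Σ i : Fin n, Fin ((q i).num.toNat * (q i).den)
  refine ⟨Fintype.card ι, fun k => α ((Fintype.equivFin ι).symm k).1 /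
    ((q ((Fintype.equivFin ι).symm k).1).den : E),
    fun k => div_ne_zero (hα _) (Nat.cast_ne_zero.2 (q _).den_nz), fun φ ψ => ?_⟩
  rw [← h, (Fintype.equivFin ι).symm.sum_comp
    (fun x : ι => star (φ (α x.1 / ((q x.1).den : E))) * ψ (α x.1 / ((q x.1).den : E))),
    Fintype.sum_sigma]
  refine Finset.sum_congr rfl fun i _ => ?_
  have hd : ((q i).den : ℂ) ≠ 0 := by exact_mod_cast (q i).den_nz
  have hn : (((q i).num.toNat : ℕ) : ℂ) = (q i).num := by
    have : (((q i).num.toNat : ℕ) : ℤ) = (q i).num := Int.toNat_of_nonneg (Rat.num_pos.2 (hq i)).le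
    exact_mod_cast this
  simp only [Finset.sum_const, Finset.card_univ, Fintype.card_fin, nsmul_eq_mul, map_div₀,
    map_natCast, star_div₀, star_natCast, Nat.cast_mul, hn]
  rw [Rat.cast_def]
  field_simp

end Cas

end GPCW

end

section

/-! Hermitian planes over a CM field: the symmetric domain and its compact quotient. -/

open Complex Module NumberField ComplexEmbedding Matrix

namespace GPCW

variable {E : Type} [Field E] [NumberField E]

/-- The form `π i Tr (ξ x conj y)` on `E ⊗ ℂ`. -/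
noncomputable def Bx (ξ : E) : ((E →+* ℂ) → ℂ) →ₗ[ℂ] ((E →+* ℂ) → ℂ) →ₗ[ℂ] ℂ :=
  LinearMap.mk₂ ℂ (fun y y' => Real.pi * I * ∑ φ, φ ξ * y φ * y' (conjugate φ))
    (fun _ _ _ => by simp only [Pi.add_apply, mul_add, add_mul, Finset.sum_add_distrib])
    (fun _ _ _ => by
      simp only [Pi.smul_apply, smul_eq_mul, Finset.mul_sum]
      exact Finset.sum_congr rfl fun _ _ => by ring)
    (fun _ _ _ => by simp only [Pi.add_apply, mul_add, Finset.sum_add_distrib])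
    (fun _ _ _ => by
      simp only [Pi.smul_apply, smul_eq_mul, Finset.mul_sum]
      exact Finset.sum_congr rfl fun _ _ => by ring)

theorem Bx_apply (ξ : E) (y y' : (E →+* ℂ) → ℂ) :
    Bx ξ y y' = Real.pi * I * ∑ φ, φ ξ * y φ * y' (conjugate φ) := rfl

/-- The rational points of `E ⊗ ℂ`. -/
def RW (E : Type) [Field E] : AddSubgroup ((E →+* ℂ) → ℂ) where
  carrier := {y | ∃ x : E, y = fun φ => φ x}
  add_mem' := by
    rintro _ _ ⟨x, rfl⟩ ⟨x', rfl⟩
    exact ⟨x + x', funext fun φ => (map_add φ x x').symm⟩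
  zero_mem' := ⟨0, funext fun φ => (map_zero φ).symm⟩
  neg_mem' := by
    rintro _ ⟨x, rfl⟩
    exact ⟨-x, funext fun φ => (map_neg φ x).symm⟩

/-- The kernel of the projection to the Lie algebra. -/
def FW (Φ : Set (E →+* ℂ)) : Submodule ℂ ((E →+* ℂ) → ℂ) where
  carrier := {y | ∀ φ ∈ Φ, y φ = 0}
  add_mem' := fun h h' φ hφ => by rw [Pi.add_apply, h φ hφ, h' φ hφ, add_zero]
  zero_mem' := fun _ _ => rfl
  smul_mem' := fun c y h φ hφ => by rw [Pi.smul_apply, h φ hφ, smul_zero]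

/-- The de Rham rational directions. -/
def DW (p : (E →+* ℂ) → ℂ) : Set ((E →+* ℂ) → ℂ) := {u | ∀ φ, IsAlgebraic ℚ (p φ * u φ)}

/-- `E ^ 2 ⊗ ℂ`. -/
abbrev VV (E : Type) [Field E] : Type := Fin 2 → (E →+* ℂ) → ℂ

/-- The form on `E ^ 2 ⊗ ℂ`. -/
noncomputable def B2 (ξ : Fin 2 → E) : VV E →ₗ[ℂ] VV E →ₗ[ℂ] ℂ :=
  ∑ k, (Bx (ξ k)).compl₁₂ (LinearMap.proj k) (LinearMap.proj k)

theorem B2_apply (ξ : Fin 2 → E) (y y' : VV E) :
    B2 ξ y y' = Bx (ξ 0) (y 0) (y' 0) + Bx (ξ 1) (y 1) (y' 1) := by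
  simp only [B2, Fin.sum_univ_two, Fin.isValue, LinearMap.add_apply, LinearMap.compl₁₂_apply, LinearMap.coe_proj, Function.eval]

/-- Rational points. -/
def emb (w : Fin 2 → E) : VV E := fun k φ => φ (w k)

/-- The action of a matrix over `E`. -/
noncomputable def act (γ : Matrix (Fin 2) (Fin 2) E) : VV E →ₗ[ℂ] VV E where
  toFun y k φ := ∑ l, φ (γ k l) * y l φ
  map_add' _ _ := by
    funext k φ
    simp only [Pi.add_apply, mul_add, Finset.sum_add_distrib]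
  map_smul' _ _ := by
    funext k φ
    simp only [Pi.smul_apply, smul_eq_mul, RingHom.id_apply, Finset.mul_sum]
    exact Finset.sum_congr rfl fun _ _ => by ring

variable [IsCMField E]

/-- Complex conjugation. -/
noncomputable def cc (x : E) : E := IsCMField.complexConj E x

/-- The skew hermitian form. -/
noncomputable def Hm (ξ u v : Fin 2 → E) : E := ∑ k, ξ k * u k * cc (v k)

/-- A skew hermitian plane that is indefinite exactly at the places `ab c`. -/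
structure Sig (E : Type) [Field E] [NumberField E] [IsCMField E] (σ : Type) where
  Ψ : Set (E →+* ℂ)
  ψ : E →+* ℂ
  ab : σ → E →+* ℂ
  ξ : Fin 2 → E
  mem : ψ ∈ Ψ
  ne : Function.Injective ab
  tot : ∀ φ, φ ∈ Ψ ∨ conjugate φ ∈ Ψ ∨ ∃ c, φ = ab c ∨ φ = conjugate (ab c)
  imag : ∀ k, cc (ξ k) = -ξ k
  pos : ∀ φ ∈ Ψ, ∀ k, 0 < (φ (ξ k)).im
  pos0 : ∀ c, 0 < (ab c (ξ 0)).im
  neg1 : ∀ c, (ab c (ξ 1)).im < 0

namespace Sig

variable {σ : Type} (T : Sig E σ)

/-- The product of discs. -/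
def X : Set (σ → ℂ) := {x | ∀ c, (T.ab c (T.ξ 0)).im * ‖x c‖ ^ 2 < -(T.ab c (T.ξ 1)).im}

/-- The Hodge filtration at `x`. -/
def F (x : σ → ℂ) : Submodule ℂ (VV E) where
  carrier := {y | (∀ k, ∀ φ ∈ T.Ψ, y k φ = 0) ∧ ∀ c, y 0 (T.ab c) = x c * y 1 (T.ab c) ∧
    T.ab c (T.ξ 1) * y 1 (conjugate (T.ab c)) +
      x c * T.ab c (T.ξ 0) * y 0 (conjugate (T.ab c)) = 0}
  add_mem' := fun {y y'} h h' => ⟨fun k φ hφ => by
      simp only [Pi.add_apply, h.1 k φ hφ, h'.1 k φ hφ, add_zero],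
    fun c => ⟨by simp only [Pi.add_apply, (h.2 c).1, (h'.2 c).1, mul_add], by
      simp only [Pi.add_apply]
      linear_combination (h.2 c).2 + (h'.2 c).2⟩⟩
  zero_mem' := ⟨fun _ _ _ => rfl, fun c => by simp⟩
  smul_mem' := fun a y h => ⟨fun k φ hφ => by simp only [Pi.smul_apply, h.1 k φ hφ, smul_zero],
    fun c => ⟨by simp only [Pi.smul_apply, smul_eq_mul, (h.2 c).1]; ring, by
      simp only [Pi.smul_apply, smul_eq_mul]
      linear_combination a * (h.2 c).2⟩⟩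

/-- Special unitary matrices. -/
def SU (γ : Matrix (Fin 2) (Fin 2) E) : Prop :=
  γ.det = 1 ∧ ∀ u v, Hm T.ξ (γ *ᵥ u) (γ *ᵥ v) = Hm T.ξ u v

end Sig

end GPCW

end

section

/-! A short lattice vector adapted to a point of the product of two discs (box principle). -/

open Complex Module NumberField ComplexEmbedding Matrix

namespace GPCW

variable {E : Type} [Field E] [NumberField E]

theorem mk_box {κ : Type} [Fintype κ] [Nonempty κ] {δ : κ → ℝ} (hδ : ∀ i, 0 < δ i) {C : ℝ}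
    (r : (κ → ℕ) → κ → ℝ) (hr : ∀ n i, |r n i| ≤ C) :
    ∃ n n', n ≠ n' ∧ ∀ i, |(n i : ℝ) - n' i| ≤ 2 * C / δ i + 1 ∧ |r n i - r n' i| ≤ δ i := by
  classical
  have h0 : ∀ n i, 0 ≤ (r n i + C) / δ i := fun n i =>
    div_nonneg (by linarith [(abs_le.1 (hr n i)).1]) (hδ i).le
  have h1 : ∀ n i, (r n i + C) / δ i ≤ 2 * C / δ i := fun n i =>
    div_le_div_of_nonneg_right (by linarith [(abs_le.1 (hr n i)).2]) (hδ i).le
  obtain ⟨n, hn, n', hn', hne, he⟩ := Finset.exists_ne_map_eq_of_card_lt_of_maps_to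
    (s := Fintype.piFinset fun i => Finset.range (⌊2 * C / δ i⌋₊ + 2))
    (t := Fintype.piFinset fun i => Finset.range (⌊2 * C / δ i⌋₊ + 1))
    (by
      simp only [Fintype.card_piFinset, Finset.card_range]
      exact Finset.prod_lt_prod_of_nonempty (fun _ _ => by omega) (fun _ _ => by omega)
        Finset.univ_nonempty)
    (f := fun n i => ⌊(r n i + C) / δ i⌋₊) (fun n _ => by
      simp only [Finset.mem_coe, Fintype.mem_piFinset, Finset.mem_range]
      exact fun i => Nat.lt_succ_of_le (Nat.floor_mono (h1 n i)))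
  refine ⟨n, n', hne, fun i => ⟨?_, ?_⟩⟩
  · have a1 : (n i : ℝ) ≤ ⌊2 * C / δ i⌋₊ + 1 := by
      exact_mod_cast Nat.lt_succ_iff.1 (Finset.mem_range.1 (Fintype.mem_piFinset.1 hn i))
    have a2 : (n' i : ℝ) ≤ ⌊2 * C / δ i⌋₊ + 1 := by
      exact_mod_cast Nat.lt_succ_iff.1 (Finset.mem_range.1 (Fintype.mem_piFinset.1 hn' i))
    have a3 := Nat.floor_le ((h0 n i).trans (h1 n i))
    have a4 : (0 : ℝ) ≤ n i := Nat.cast_nonneg _
    have a5 : (0 : ℝ) ≤ n' i := Nat.cast_nonneg _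
    rw [abs_le]
    constructor <;> linarith only [a2, a3, a1]
  · have e : ⌊(r n i + C) / δ i⌋₊ = ⌊(r n' i + C) / δ i⌋₊ := congrFun he i
    have a1 := Nat.floor_le (h0 n i)
    have a2 := Nat.floor_le (h0 n' i)
    have a3 := Nat.lt_floor_add_one ((r n i + C) / δ i)
    have a4 := Nat.lt_floor_add_one ((r n' i + C) / δ i)
    rw [e] at a1 a3
    have a5 : |(r n i + C) / δ i - (r n' i + C) / δ i| ≤ 1 := by
      rw [abs_le]
      constructor <;> linarith only [a1, a4, a2, a3]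
    rw [← sub_div, abs_div, abs_of_pos (hδ i), div_le_one (hδ i)] at a5
    simpa using a5

theorem mk_span {ι : Type} [Fintype ι] (β : Basis ι ℚ (Fin 2 → E)) (y : VV E) :
    ∃ c : ι → ℂ, ∑ j, c j • emb (β j) = y := by
  classical
  rw [← Submodule.mem_span_range_iff_exists_fun]
  have h1 : ∀ w : Fin 2 → E, emb w ∈ Submodule.span ℂ (Set.range fun j => emb (β j)) := by
    intro w
    rw [Submodule.mem_span_range_iff_exists_fun]
    refine ⟨fun j => (β.repr w j : ℂ), funext fun k => funext fun φ => ?_⟩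
    conv_rhs => rw [← β.sum_repr w]
    simp only [Finset.sum_apply, Pi.smul_apply, emb, smul_eq_mul, Rat.smul_def, map_sum, map_mul, map_ratCast]
  have h2 : y = ∑ k, ∑ i, (canonicalEmbedding.latticeBasis E).repr (y k) i •
      emb (Pi.single k (integralBasis E i)) := by
    funext k φ
    conv_lhs => rw [← (canonicalEmbedding.latticeBasis E).sum_repr (y k)]
    simp only [Finset.sum_apply, Pi.smul_apply, emb, canonicalEmbedding.latticeBasis_apply,
      canonicalEmbedding.apply_at]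
    rw [Finset.sum_eq_single k (fun k' _ hk => by simp [Pi.single_eq_of_ne hk.symm]) (by simp only [Finset.mem_univ, not_true_eq_false, integralBasis_apply, Pi.single_eq_same, smul_eq_mul, IsEmpty.forall_iff])]
    simp only [integralBasis_apply, smul_eq_mul, Pi.single_eq_same]
  rw [h2]
  exact Submodule.sum_mem _ fun k _ => Submodule.sum_mem _ fun i _ =>
    Submodule.smul_mem _ _ (h1 _)

theorem mk_cover {ι : Type} [Fintype ι] (β : Basis ι ℚ (Fin 2 → E)) :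
    ∃ C : ℝ, 0 ≤ C ∧ ∀ y : VV E, (∀ k φ, y k (conjugate φ) = starRingEnd ℂ (y k φ)) →
      ∃ m : ι → ℤ, ∀ k (φ : E →+* ℂ), ‖φ ((∑ j, m j • β j) k) - y k φ‖ ≤ C := by
  refine ⟨∑ j, ‖emb (β j)‖, Finset.sum_nonneg fun _ _ => norm_nonneg _, fun y hy => ?_⟩
  obtain ⟨c, hc⟩ := mk_span β y
  refine ⟨fun j => ⌊(c j).re⌋, fun k φ => ?_⟩
  have h1 : ∀ φ : E →+* ℂ, y k φ = ∑ j, c j * φ (β j k) := fun φ => by
    rw [← hc]
    simp only [Finset.sum_apply, Pi.smul_apply, emb, smul_eq_mul]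
  have h2 : y k φ = ∑ j, ((c j).re : ℂ) * φ (β j k) := by
    have h3 := congrArg (starRingEnd ℂ) (hy k φ)
    rw [conj_conj, h1, map_sum] at h3
    have h4 : 2 * y k φ = ∑ j, 2 * (((c j).re : ℂ) * φ (β j k)) := by
      rw [two_mul]
      nth_rewrite 1 [← h3]
      rw [h1, ← Finset.sum_add_distrib]
      refine Finset.sum_congr rfl fun j _ => ?_
      rw [map_mul, conjugate_coe_eq, conj_conj, re_eq_add_conj]
      ring
    rw [← Finset.mul_sum] at h4
    exact mul_left_cancel₀ two_ne_zero h4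
  rw [h2, Finset.sum_apply, map_sum, ← Finset.sum_sub_distrib]
  refine (norm_sum_le _ _).trans (Finset.sum_le_sum fun j _ => ?_)
  have h5 : φ ((⌊(c j).re⌋ • β j) k) - ((c j).re : ℂ) * φ (β j k) =
      ((⌊(c j).re⌋ - (c j).re : ℝ) : ℂ) * emb (β j) k φ := by
    simp only [Pi.smul_apply, zsmul_eq_mul, map_mul, map_intCast, emb]
    push_cast
    ring
  rw [h5, norm_mul, norm_real, Real.norm_eq_abs]
  refine (mul_le_of_le_one_left (norm_nonneg _) ?_).trans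
    ((norm_le_pi_norm _ φ).trans (norm_le_pi_norm (emb (β j)) k))
  rw [abs_le]
  constructor <;> linarith [Int.floor_le (c j).re, Int.lt_floor_add_one (c j).re]

variable [IsCMField E] {σ : Type} [Fintype σ] (T : Sig E σ)

theorem Sig.mk_near {ι : Type} [Fintype ι] (β : Basis ι ℚ (Fin 2 → E)) :
    ∃ C : ℝ, 0 ≤ C ∧ ∀ z : Fin 2 → σ → ℂ, ∃ m : ι → ℤ,
      (∀ φ ∈ T.Ψ, ∀ k, ‖φ ((∑ j, m j • β j) k)‖ ≤ C) ∧
        ∀ k c, ‖T.ab c ((∑ j, m j • β j) k) - z k c‖ ≤ C := by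
  classical
  obtain ⟨C, h0, hC⟩ := mk_cover β
  refine ⟨C, h0, fun z => ?_⟩
  have hb : ∀ (φ : E →+* ℂ) c, 0 < (φ (T.ξ 0)).im → φ ≠ conjugate (T.ab c) := by
    rintro φ c h rfl
    rw [conjugate_coe_eq, conj_im] at h
    linarith [T.pos0 c]
  obtain ⟨m, hm⟩ := hC (fun k φ => ∑ c, ((if φ = T.ab c then z k c else 0) +
      if φ = conjugate (T.ab c) then starRingEnd ℂ (z k c) else 0)) fun k φ => by
    rw [map_sum]
    refine Finset.sum_congr rfl fun c _ => ?_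
    simp only [(involutive_conjugate E).eq_iff, involutive_conjugate E _, map_add,
      apply_ite (starRingEnd ℂ), conj_conj, map_zero, add_comm]
  refine ⟨m, fun φ hφ k => ?_, fun k c => ?_⟩
  · have := hm k φ
    rwa [Finset.sum_eq_zero fun (c : σ) _ => by
      rw [if_neg, if_neg (hb φ c (T.pos φ hφ 0)), add_zero]
      rintro rfl
      linarith [T.neg1 c, T.pos _ hφ 1], sub_zero] at this
  · have := hm k (T.ab c)
    rwa [Finset.sum_eq_single c (fun c' _ hc => by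
      rw [if_neg fun h => hc (T.ne h).symm, if_neg (hb _ c' (T.pos0 c)), add_zero]) (by simp only [Finset.mem_univ, not_true_eq_false, ↓ reduceIte, IsEmpty.forall_iff]), if_pos rfl,
      if_neg (hb _ c (T.pos0 c)), add_zero] at this

/-- Paper, section 5, first step of COC. -/
theorem Sig.mink {ι : Type} [Fintype ι] (β : Basis ι ℚ (Fin 2 → E)) :
    ∃ C : ℝ, ∀ x ∈ T.X, ∃ (m : ι → ℤ) (w : Fin 2 → E), w = ∑ j, m j • β j ∧ w ≠ 0 ∧
      (∀ φ ∈ T.Ψ, ∀ k, ‖φ (w k)‖ ≤ C) ∧ ∀ c, ‖T.ab c (w 0) - x c * T.ab c (w 1)‖ ^ 2 ≤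
        C * (-(T.ab c (T.ξ 1)).im - (T.ab c (T.ξ 0)).im * ‖x c‖ ^ 2) ∧
      (-(T.ab c (T.ξ 1)).im - (T.ab c (T.ξ 0)).im * ‖x c‖ ^ 2) * ‖T.ab c (w 1)‖ ^ 2 ≤ C := by
  classical
  rcases isEmpty_or_nonempty σ with hσ | hσ
  · obtain ⟨j⟩ := β.index_nonempty
    exact ⟨‖emb (β j)‖, fun x _ => ⟨Pi.single j 1, β j, by simp only [Pi.single_apply, ite_smul, one_smul, zero_smul, Finset.sum_ite_eq', Finset.mem_univ, ↓ reduceIte], β.ne_zero j,
      fun φ _ k => (norm_le_pi_norm _ φ).trans (norm_le_pi_norm (emb (β j)) k),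
      fun c => hσ.elim c⟩⟩
  obtain ⟨C, h0, hC⟩ := T.mk_near β
  obtain ⟨A, hA0, hA⟩ : ∃ A : ℝ, 0 ≤ A ∧ ∀ c, -(T.ab c (T.ξ 1)).im + 1 ≤ A ∧
      -(T.ab c (T.ξ 1)).im / (T.ab c (T.ξ 0)).im + 1 ≤ A := by
    obtain ⟨A, hA⟩ := (Set.finite_range fun c => max (-(T.ab c (T.ξ 1)).im + 1)
      (-(T.ab c (T.ξ 1)).im / (T.ab c (T.ξ 0)).im + 1)).bddAbove
    exact ⟨max A 0, le_max_right _ _, fun c => max_le_iff.1 ((hA ⟨c, rfl⟩).trans (le_max_left _ _))⟩
  refine ⟨2 + 2 * C + (2 * (2 * C + 1) * (2 * (C + A * C) + A) + 2 * C * A) ^ 2, fun x hx => ?_⟩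
  set d : σ → ℝ := fun c => -(T.ab c (T.ξ 1)).im - (T.ab c (T.ξ 0)).im * ‖x c‖ ^ 2 with hd
  have hd0 : ∀ c, 0 < d c := fun c => sub_pos.2 (hx c)
  have hxA : ∀ c, ‖x c‖ ≤ A := fun c => by
    have h1 : ‖x c‖ ^ 2 ≤ -(T.ab c (T.ξ 1)).im / (T.ab c (T.ξ 0)).im :=
      (le_div_iff₀' (T.pos0 c)).2 (hx c).le
    linarith only [(hA c).2, sq_nonneg (‖x c‖ - 1), hA0, h1]
  have hdA : ∀ c, √(d c) ≤ A := fun c => by
    have h1 := mul_nonneg (T.pos0 c).le (sq_nonneg ‖x c‖)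
    have h2 := Real.sq_sqrt (hd0 c).le
    have h3 : d c = -(T.ab c (T.ξ 1)).im - (T.ab c (T.ξ 0)).im * ‖x c‖ ^ 2 := rfl
    linarith only [(hA c).1, sq_nonneg (√(d c) - 1), hA0, h1, h2]
  set g : (σ × Bool → ℕ) → σ → ℂ := fun n c =>
    ⟨(2 * C + 1) * n (c, true), (2 * C + 1) * n (c, false)⟩ with hg
  choose m hm1 hm2 using fun n => hC ![fun c => x c * g n c, g n]
  set w : (σ × Bool → ℕ) → Fin 2 → E := fun n => ∑ j, m n j • β j with hw
  have h1 : ∀ n c, ‖T.ab c (w n 1) - g n c‖ ≤ C := fun n c => hm2 n 1 c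
  have h2 : ∀ n c, ‖T.ab c (w n 0) - x c * T.ab c (w n 1)‖ ≤ C + A * C := fun n c => by
    have e : T.ab c (w n 0) - x c * T.ab c (w n 1) =
        T.ab c (w n 0) - x c * g n c - x c * (T.ab c (w n 1) - g n c) := by ring
    rw [e]
    refine (norm_sub_le _ _).trans (add_le_add (hm2 n 0 c) ?_)
    rw [norm_mul]
    exact mul_le_mul (hxA c) (h1 n c) (norm_nonneg _) hA0
  obtain ⟨n, n', hne, hn⟩ := mk_box (κ := σ × Bool) (δ := fun i => √(d i.1))
    (fun i => Real.sqrt_pos.2 (hd0 i.1)) (C := C + A * C)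
    (fun n i => if i.2 then (T.ab i.1 (w n 0) - x i.1 * T.ab i.1 (w n 1)).re
      else (T.ab i.1 (w n 0) - x i.1 * T.ab i.1 (w n 1)).im) fun n i => by
      split_ifs
      exacts [(abs_re_le_norm _).trans (h2 n _), (abs_im_le_norm _).trans (h2 n _)]
  have h3 : ∀ c, ‖T.ab c ((w n - w n') 1) - (g n c - g n' c)‖ ≤ 2 * C := fun c => by
    rw [Pi.sub_apply, map_sub, sub_sub_sub_comm, two_mul]
    exact (norm_sub_le _ _).trans (add_le_add (h1 n c) (h1 n' c))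
  have hL : 0 < 2 * C + 1 := by linarith
  have h4 : ∀ c, |(g n c - g n' c).re| = (2 * C + 1) * |(n (c, true) : ℝ) - n' (c, true)| ∧
      |(g n c - g n' c).im| = (2 * C + 1) * |(n (c, false) : ℝ) - n' (c, false)| := fun c => by
    simp only [hg, sub_re, sub_im, ← mul_sub, abs_mul, abs_of_pos hL, and_self]
  refine ⟨m n - m n', w n - w n', by simp only [hw, zsmul_eq_mul, Pi.sub_apply, sub_smul, Finset.sum_sub_distrib], fun hz => ?_, fun φ hφ k => ?_,
    fun c => ⟨?_, ?_⟩⟩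
  · obtain ⟨⟨c, b⟩, hi⟩ := Function.ne_iff.1 hne
    have h5 : (1 : ℝ) ≤ |(n (c, b) : ℝ) - n' (c, b)| := by
      have : (1 : ℤ) ≤ |(n (c, b) : ℤ) - n' (c, b)| := Int.one_le_abs (by omega)
      exact_mod_cast this
    have h6 := h3 c
    rw [hz, Pi.zero_apply, map_zero, zero_sub, norm_neg] at h6
    have h7 := abs_re_le_norm (g n c - g n' c)
    have h8 := abs_im_le_norm (g n c - g n' c)
    rw [(h4 c).1] at h7
    rw [(h4 c).2] at h8
    cases b <;> nlinarith only [h0, h6, h8, h5, h7]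
  · rw [Pi.sub_apply, map_sub]
    refine (norm_sub_le _ _).trans ((add_le_add (hm1 n φ hφ k) (hm1 n' φ hφ k)).trans ?_)
    linarith only [sq_nonneg (2 * (2 * C + 1) * (2 * (C + A * C) + A) + 2 * C * A)]
  · have h5 := (hn (c, true)).2
    have h6 := (hn (c, false)).2
    simp only [if_true, Bool.false_eq_true, if_false, ← sub_re, ← sub_im] at h5 h6
    have e : T.ab c ((w n - w n') 0) - x c * T.ab c ((w n - w n') 1) =
        T.ab c (w n 0) - x c * T.ab c (w n 1) - (T.ab c (w n' 0) - x c * T.ab c (w n' 1)) := by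
      simp only [Pi.sub_apply, map_sub]
      ring
    have h7 := pow_le_pow_left₀ (abs_nonneg _) h5 2
    have h8 := pow_le_pow_left₀ (abs_nonneg _) h6 2
    rw [sq_abs, Real.sq_sqrt (hd0 c).le] at h7 h8
    rw [e, Complex.sq_norm, normSq_apply, ← sq, ← sq]
    refine (add_le_add h7 h8).trans ?_
    rw [← two_mul]
    refine mul_le_mul_of_nonneg_right ?_ (hd0 c).le
    linarith only [sq_nonneg (2 * (2 * C + 1) * (2 * (C + A * C) + A) + 2 * C * A), h0]
  · have hs := Real.sqrt_pos.2 (hd0 c)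
    have h5 := mul_le_mul_of_nonneg_left (hn (c, true)).1 hs.le
    have h6 := mul_le_mul_of_nonneg_left (hn (c, false)).1 hs.le
    rw [mul_add, mul_div_cancel₀ _ hs.ne', mul_one] at h5 h6
    have h7 : ‖T.ab c ((w n - w n') 1)‖ ≤ (2 * C + 1) * |(n (c, true) : ℝ) - n' (c, true)| +
        (2 * C + 1) * |(n (c, false) : ℝ) - n' (c, false)| + 2 * C := by
      rw [← (h4 c).1, ← (h4 c).2]
      linarith [h3 c, norm_le_abs_re_add_abs_im (g n c - g n' c),
        norm_sub_norm_le (T.ab c ((w n - w n') 1)) (g n c - g n' c)]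
    have h8 : √(d c) * ‖T.ab c ((w n - w n') 1)‖ ≤
        2 * (2 * C + 1) * (2 * (C + A * C) + A) + 2 * C * A := by
      have h9 := mul_le_mul_of_nonneg_left h7 hs.le
      have h10 := mul_le_mul_of_nonneg_left (add_le_add h5 h6) hL.le
      have h11 := mul_le_mul_of_nonneg_left (hdA c) hL.le
      have h12 := mul_le_mul_of_nonneg_left (hdA c) h0
      linarith
    have h9 := pow_le_pow_left₀ (mul_nonneg hs.le (norm_nonneg _)) h8 2
    rw [mul_pow, Real.sq_sqrt (hd0 c).le] at h9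
    exact h9.trans (by linarith)

end GPCW

end

section

/-! The quotient of the product of discs by a congruence subgroup is compact. -/

open Complex Module NumberField ComplexEmbedding Matrix
open scoped ComplexConjugate

namespace GPCW

theorem co_id (s t : ℝ) (x u v : ℂ) : (t - s * ‖x‖ ^ 2) * (s * ‖u‖ ^ 2 - t * ‖v‖ ^ 2) =
    s * t * ‖u - x * v‖ ^ 2 - ‖s * u * conj x - t * v‖ ^ 2 := by
  simp only [Complex.sq_norm, normSq_apply, sub_re, sub_im, mul_re, mul_im, ofReal_re, ofReal_im,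
    conj_re, conj_im]
  ring

theorem co_bd {s t C : ℝ} {x u v : ℂ} (hs : 0 < s) (ht : 0 < t) (hx : s * ‖x‖ ^ 2 < t)
    (h1 : ‖u - x * v‖ ^ 2 ≤ C * (t - s * ‖x‖ ^ 2)) (h2 : (t - s * ‖x‖ ^ 2) * ‖v‖ ^ 2 ≤ C) :
    ‖s * u * conj x - t * v‖ ^ 2 ≤ 2 * C * (1 + s * t) * (t - s * ‖x‖ ^ 2) ∧
      |s * ‖u‖ ^ 2 - t * ‖v‖ ^ 2| ≤ 3 * |C| * (1 + s * t) := by
  obtain ⟨D, hD⟩ : ∃ D, D = t - s * ‖x‖ ^ 2 := ⟨_, rfl⟩
  have h3 := co_id s t x u v
  have h4 : s * u * conj x - t * v = s * conj x * (u - x * v) - D * v := by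
    rw [hD]
    push_cast
    linear_combination s * v * mul_conj' x
  have hD0 : 0 < D := by linarith only [hx, hD]
  rw [← hD] at h1 h2 h3 ⊢
  have hC : 0 ≤ C := le_trans (by positivity) h2
  have h5 : ‖s * u * conj x - t * v‖ ≤ s * ‖x‖ * ‖u - x * v‖ + D * ‖v‖ := by
    rw [h4]
    refine (norm_sub_le _ _).trans (le_of_eq ?_)
    simp [abs_of_pos hs, abs_of_pos hD0]
  have h6 : (s * ‖x‖ * ‖u - x * v‖) ^ 2 ≤ s * t * (C * D) := by
    rw [show (s * ‖x‖ * ‖u - x * v‖) ^ 2 = s * (s * ‖x‖ ^ 2) * ‖u - x * v‖ ^ 2 by ring]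
    gcongr
  have h7 : (D * ‖v‖) ^ 2 ≤ D * C := by
    rw [show (D * ‖v‖) ^ 2 = D * (D * ‖v‖ ^ 2) by ring]
    gcongr
  have h8 : ‖s * u * conj x - t * v‖ ^ 2 ≤ 2 * C * (1 + s * t) * D := by
    refine (pow_le_pow_left₀ (norm_nonneg _) h5 2).trans ?_
    linarith only [sq_nonneg (s * ‖x‖ * ‖u - x * v‖ - D * ‖v‖), h6, h7]
  refine ⟨h8, le_of_mul_le_mul_left ?_ hD0⟩
  have h9 : s * t * ‖u - x * v‖ ^ 2 ≤ s * t * (C * D) := by gcongr
  have h10 : 0 ≤ s * t * ‖u - x * v‖ ^ 2 := by positivity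
  have h11 : 0 ≤ C * D := by positivity
  have h12 : 0 ≤ s * t * (C * D) := by positivity
  rw [← abs_of_pos hD0, ← abs_mul, h3, abs_of_pos hD0, abs_of_nonneg hC, abs_le]
  constructor <;> linarith only [sq_nonneg ‖s * u * conj x - t * v‖, h8, h9, h10, h11]

theorem co_mob {s t C : ℝ} {a b c d x u v : ℂ} (hs : 0 < s) (hx : s * ‖x‖ ^ 2 < t)
    (hb : ∀ u v z w : ℂ, s * (a * u + b * v) * (conj a * z + conj b * w) -
      t * (c * u + d * v) * (conj c * z + conj d * w) = s * u * z - t * v * w)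
    (h : ‖s * u * conj x - t * v‖ ^ 2 ≤ C * (t - s * ‖x‖ ^ 2)) :
    c * x + d ≠ 0 ∧ s * ‖(a * x + b) / (c * x + d)‖ ^ 2 ≤ t ∧
      ‖s * (a * u + b * v) * conj ((a * x + b) / (c * x + d)) - t * (c * u + d * v)‖ ^ 2 ≤
        C * (t - s * ‖(a * x + b) / (c * x + d)‖ ^ 2) := by
  have h1 : s * ‖a * x + b‖ ^ 2 - t * ‖c * x + d‖ ^ 2 = s * ‖x‖ ^ 2 - t := by
    have h2 := hb x 1 (conj x) 1
    apply ofReal_injective
    push_cast
    rw [← mul_conj', ← mul_conj', ← mul_conj']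
    simp only [map_add, map_mul]
    linear_combination h2
  have h0 : c * x + d ≠ 0 := fun e => by
    rw [e, norm_zero] at h1
    linarith only [mul_nonneg hs.le (sq_nonneg ‖a * x + b‖), hx, h1]
  have hp : 0 < ‖c * x + d‖ ^ 2 := by positivity
  have h3 : ‖c * x + d‖ ^ 2 * (t - s * ‖(a * x + b) / (c * x + d)‖ ^ 2) = t - s * ‖x‖ ^ 2 := by
    rw [norm_div, div_pow, mul_sub, mul_left_comm, mul_div_cancel₀ _ hp.ne']
    linarith
  have h4 : conj (c * x + d) * (s * (a * u + b * v) * conj ((a * x + b) / (c * x + d)) -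
      t * (c * u + d * v)) = s * u * conj x - t * v := by
    have h5 : conj (c * x + d) * conj ((a * x + b) / (c * x + d)) = conj (a * x + b) := by
      rw [← map_mul, mul_div_cancel₀ _ h0]
    simp only [map_add, map_mul] at h5 ⊢
    linear_combination hb u v (conj x) 1 + s * (a * u + b * v) * h5
  refine ⟨h0, sub_nonneg.1 (le_of_mul_le_mul_left ?_ hp), le_of_mul_le_mul_left ?_ hp⟩
  · rw [h3, mul_zero]
    linarith only [hx]
  · rw [← h4, norm_mul, norm_conj, mul_pow, ← h3, mul_left_comm] at h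
    exact h

variable {E : Type} [Field E] [NumberField E] [IsCMField E] {σ : Type} (T : Sig E σ)

theorem co_cc (φ : E →+* ℂ) (x : E) : φ (cc x) = conj (φ x) :=
  IsCMField.complexEmbedding_complexConj E φ x

/-- The matrix with columns `w` and its orthogonal. -/
noncomputable def coG (ξ w : Fin 2 → E) : Matrix (Fin 2) (Fin 2) E :=
  !![w 0, ξ 1 * cc (w 1); w 1, -(ξ 0 * cc (w 0))]

theorem co_det (ξ w : Fin 2 → E) : (coG ξ w).det = -Hm ξ w w := by
  simp only [coG, det_fin_two_of, Hm, Fin.sum_univ_two]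
  ring

theorem co_H (w p q : Fin 2 → E) : Hm T.ξ (coG T.ξ w *ᵥ p) (coG T.ξ w *ᵥ q) =
    Hm T.ξ w w * (p 0 * cc (q 0) - T.ξ 0 * T.ξ 1 * p 1 * cc (q 1)) := by
  have h0 := T.imag 0
  have h1 := T.imag 1
  simp only [cc] at h0 h1
  simp only [Hm, mulVec, dotProduct, coG, Fin.isValue, cc, of_apply, cons_val', cons_val_fin_one, Fin.sum_univ_two, cons_val_zero, cons_val_one, map_add, map_mul, h1, IsCMField.complexConj_apply_apply, neg_mul, map_neg, h0, neg_neg]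
  ring

theorem co_SU {w w' : Fin 2 → E} (h0 : Hm T.ξ w w ≠ 0) (h : Hm T.ξ w' w' = Hm T.ξ w w) :
    T.SU (coG T.ξ w' * (coG T.ξ w)⁻¹) ∧ (coG T.ξ w' * (coG T.ξ w)⁻¹) *ᵥ w = w' := by
  have hd : (coG T.ξ w).det ≠ 0 := by rw [co_det]; exact neg_ne_zero.2 h0
  have hu := isUnit_iff_ne_zero.2 hd
  have h1 : ∀ z, coG T.ξ z *ᵥ Pi.single 0 1 = z := fun z => by
    funext k
    fin_cases k <;> simp [coG]
  refine ⟨⟨?_, fun u v => ?_⟩, ?_⟩
  · rw [det_mul, det_nonsing_inv, Ring.inverse_eq_inv', co_det _ w', h, ← co_det,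
      mul_inv_cancel₀ hd]
  · rw [← mulVec_mulVec, ← mulVec_mulVec, co_H, h, ← co_H, mulVec_mulVec, mulVec_mulVec,
      mul_nonsing_inv _ hu, one_mulVec, one_mulVec]
  · conv_lhs => rw [← h1 w, mulVec_mulVec, h1 w, nonsing_inv_mul_cancel_right _ _ hu, h1]

theorem co_im (φ : E →+* ℂ) (k : Fin 2) : φ (T.ξ k) = (φ (T.ξ k)).im * I := by
  have h := congrArg (fun z => (φ z).re) (T.imag k)
  simp only [co_cc, map_neg, conj_re, neg_re] at h
  refine Complex.ext ?_ (by simp)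
  simp only [mul_re, ofReal_re, I_re, ofReal_im, I_im]
  linarith

theorem co_bil {γ : Matrix (Fin 2) (Fin 2) E} (h : T.SU γ) (φ : E →+* ℂ) (u v z w : ℂ) :
    φ (T.ξ 0) * (φ (γ 0 0) * u + φ (γ 0 1) * v) * (conj (φ (γ 0 0)) * z + conj (φ (γ 0 1)) * w) +
      φ (T.ξ 1) * (φ (γ 1 0) * u + φ (γ 1 1) * v) *
        (conj (φ (γ 1 0)) * z + conj (φ (γ 1 1)) * w) = φ (T.ξ 0) * u * z + φ (T.ξ 1) * v * w := by
  have h1 := fun k l => congrArg φ (h.2 (Pi.single k 1) (Pi.single l 1))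
  have h00 := h1 0 0
  have h01 := h1 0 1
  have h10 := h1 1 0
  have h11 := h1 1 1
  simp only [Hm, Fin.isValue, mulVec_single, MulOpposite.op_one, Pi.smul_apply, col_apply, one_smul, Fin.sum_univ_two, map_add, map_mul, co_cc, Pi.single_eq_same, mul_one, ne_eq, one_ne_zero, not_false_eq_true, Pi.single_eq_of_ne, mul_zero, zero_mul, add_zero, map_one, zero_ne_one, map_zero, zero_add] at h00 h01 h10 h11
  linear_combination u * z * h00 + u * w * h01 + v * z * h10 + v * w * h11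

theorem co_val (φ : E →+* ℂ) (w : Fin 2 → E) : φ (Hm T.ξ w w) =
    ((φ (T.ξ 0)).im * ‖φ (w 0)‖ ^ 2 + (φ (T.ξ 1)).im * ‖φ (w 1)‖ ^ 2 : ℝ) * I := by
  simp only [Hm, Fin.sum_univ_two, map_add, map_mul, co_cc, mul_assoc, mul_conj']
  push_cast
  linear_combination (‖φ (w 0)‖ : ℂ) ^ 2 * co_im T φ 0 + (‖φ (w 1)‖ : ℂ) ^ 2 * co_im T φ 1

theorem co_ne {w : Fin 2 → E} (hw : w ≠ 0) : Hm T.ξ w w ≠ 0 := fun e => by
  have h := co_val T T.ψ w
  rw [e, map_zero, eq_comm, mul_eq_zero_iff_right I_ne_zero, ofReal_eq_zero] at h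
  have h0 := T.pos _ T.mem 0
  have h1 := T.pos _ T.mem 1
  have h2 : ‖T.ψ (w 0)‖ ^ 2 = 0 := by
    nlinarith only [mul_nonneg h1.le (sq_nonneg ‖T.ψ (w 1)‖), h, h0]
  have h3 : ‖T.ψ (w 1)‖ ^ 2 = 0 := by
    nlinarith only [mul_nonneg h0.le (sq_nonneg ‖T.ψ (w 0)‖), h, h1]
  refine hw (funext fun k => ?_)
  fin_cases k
  · simpa using h2
  · simpa using h3

omit [IsCMField E] in
theorem co_den {ι : Type} [Fintype ι] (β : Basis ι ℚ (Fin 2 → E)) : ∃ D : ℤ, D ≠ 0 ∧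
    ∀ u : Fin 2 → E, (∀ k, u k ∈ integralClosure ℤ E) → ∃ m : ι → ℤ, ∑ j, m j • β j = D • u := by
  obtain ⟨D, hD⟩ := IsLocalization.exist_integer_multiples_of_finite (nonZeroDivisors ℤ)
    (fun p : _ × _ × ι => β.repr (Pi.single p.1 (integralBasis E p.2.1)) p.2.2)
  refine ⟨D, nonZeroDivisors.ne_zero D.2, fun u hu => ?_⟩
  rw [← Submodule.mem_span_range_iff_exists_fun, ← Finset.univ_sum_single u, Finset.smul_sum]
  refine Submodule.sum_mem _ fun k _ => ?_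
  have h : u k ∈ Submodule.span ℤ (Set.range (integralBasis E)) :=
    (mem_span_integralBasis E).2 ⟨⟨u k, hu k⟩, rfl⟩
  generalize u k = x at h
  induction h using Submodule.span_induction with
  | mem x hx =>
    obtain ⟨i, rfl⟩ := hx
    rw [← β.sum_repr (Pi.single k (integralBasis E i)), Finset.smul_sum]
    refine Submodule.sum_mem _ fun j _ => ?_
    obtain ⟨n, hn⟩ := hD (k, i, j)
    rw [← smul_assoc, ← hn, algebraMap_smul]
    exact Submodule.smul_mem _ _ (Submodule.subset_span ⟨j, rfl⟩)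
  | zero => simp
  | add x y _ _ hx hy => rw [Pi.single_add, smul_add]; exact Submodule.add_mem _ hx hy
  | smul a x _ hx => rw [Pi.single_smul, smul_comm]; exact Submodule.smul_mem _ _ hx

omit [NumberField E] [IsCMField E] in
theorem co_mv {O : Subalgebra ℤ E} {A : Matrix (Fin 2) (Fin 2) E} {v : Fin 2 → E}
    (hA : ∀ i j, A i j ∈ O) (hv : ∀ j, v j ∈ O) (i : Fin 2) : (A *ᵥ v) i ∈ O :=
  O.sum_mem (t := Finset.univ) fun j _ => O.mul_mem (hA i j) (hv j)

theorem co_cint {D : ℤ} {x : E} (h : (D : E) * x ∈ integralClosure ℤ E) :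
    (D : E) * cc x ∈ integralClosure ℤ E := by
  have h1 := map_isIntegral_int (IsCMField.complexConj E) h
  rwa [map_mul, map_intCast] at h1

theorem co_gint {D : ℤ} {ξ w : Fin 2 → E} (hξ : ∀ k, (D : E) * ξ k ∈ integralClosure ℤ E)
    (hw : ∀ k, (D : E) * w k ∈ integralClosure ℤ E) (i j : Fin 2) :
    (((D : E) * D) • coG ξ w) i j ∈ integralClosure ℤ E ∧
      (((D : E) * D) • (coG ξ w).adjugate) i j ∈ integralClosure ℤ E := by
  have h1 : ∀ k, (D : E) * D * w k ∈ integralClosure ℤ E := fun k => by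
    rw [mul_assoc]; exact mul_mem (intCast_mem _ D) (hw k)
  have h2 : ∀ k, (D : E) * D * (ξ k * cc (w k)) ∈ integralClosure ℤ E := fun k => by
    rw [mul_mul_mul_comm]; exact mul_mem (hξ k) (co_cint (hw k))
  fin_cases i <;> fin_cases j <;> simp only [coG, Fin.isValue, Fin.zero_eta, Matrix.smul_apply, of_apply, cons_val', cons_val_zero, cons_val_fin_one, smul_eq_mul, h1, adjugate_fin_two, cons_val_one, mul_neg, neg_mem_iff, h2, and_self, Fin.mk_one]

/-- The compact piece attached to a vector. -/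
def coK (C : σ → ℝ) (w : Fin 2 → E) : Set (σ → ℂ) :=
  {x | ∀ c, (T.ab c (T.ξ 0)).im * ‖x c‖ ^ 2 ≤ -(T.ab c (T.ξ 1)).im ∧
    ‖((T.ab c (T.ξ 0)).im : ℂ) * T.ab c (w 0) * conj (x c) -
      (-(T.ab c (T.ξ 1)).im : ℝ) * T.ab c (w 1)‖ ^ 2 ≤
      C c * (-(T.ab c (T.ξ 1)).im - (T.ab c (T.ξ 0)).im * ‖x c‖ ^ 2)}

theorem coK_compact (C : σ → ℝ) (w : Fin 2 → E) : IsCompact (coK T C w) := by
  refine (isCompact_univ_pi fun c => isCompact_closedBall (0 : ℂ)
    (√(-(T.ab c (T.ξ 1)).im / (T.ab c (T.ξ 0)).im))).of_isClosed_subset ?_ fun x hx c _ => ?_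
  · rw [coK, Set.ofPred_forall]
    refine isClosed_iInter fun c => ?_
    rw [Set.ofPred_and]
    exact (isClosed_le (by fun_prop) (by fun_prop)).inter (isClosed_le (by fun_prop) (by fun_prop))
  · rw [mem_closedBall_zero_iff]
    refine Real.le_sqrt_of_sq_le ?_
    rw [le_div_iff₀ (T.pos0 c), mul_comm]
    exact (hx c).1

theorem coK_sub (C : σ → ℝ) {w : Fin 2 → E} (hw : w ≠ 0) : coK T C w ⊆ T.X := by
  intro x hx c
  obtain ⟨h1, h2⟩ := hx c
  refine lt_of_le_of_ne h1 fun e => co_ne T hw ((T.ab c).injective ?_)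
  rw [e, sub_self, mul_zero] at h2
  have h3 := sub_eq_zero.1 (norm_eq_zero.1 (pow_eq_zero_iff two_ne_zero |>.1
    (le_antisymm h2 (sq_nonneg _))))
  have h4 := congrArg (fun z => ‖z‖ ^ 2) h3
  simp only [norm_mul, norm_conj, norm_real, Real.norm_eq_abs, mul_pow, sq_abs] at h4
  rw [co_val, map_zero, mul_eq_zero_iff_right I_ne_zero, ofReal_eq_zero]
  refine mul_left_cancel₀ (T.neg1 c).ne ?_
  linear_combination (T.ab c (T.ξ 0)).im * ‖T.ab c (w 0)‖ ^ 2 * e - h4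

theorem co_move {C : σ → ℝ} {w : Fin 2 → E} {γ : Matrix (Fin 2) (Fin 2) E} (h : T.SU γ)
    {x : σ → ℂ} (hx : x ∈ T.X) (hK : x ∈ coK T C w) :
    ∃ x' ∈ coK T C (γ *ᵥ w), ∀ ν ∈ T.F x, act γ ν ∈ T.F x' := by
  have hm := fun c => co_mob (a := T.ab c (γ 0 0)) (b := T.ab c (γ 0 1)) (c := T.ab c (γ 1 0))
    (d := T.ab c (γ 1 1)) (T.pos0 c) (hx c) (fun u v z w => by
      have h1 := co_bil T h (T.ab c) u v z w
      rw [co_im T _ 0, co_im T _ 1] at h1
      push_cast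
      exact mul_left_cancel₀ I_ne_zero (by linear_combination h1)) (hK c).2
  refine ⟨fun c => (T.ab c (γ 0 0) * x c + T.ab c (γ 0 1)) /
    (T.ab c (γ 1 0) * x c + T.ab c (γ 1 1)), fun c => ?_, fun ν hν => ⟨fun k φ hφ => ?_,
    fun c => ⟨?_, ?_⟩⟩⟩
  · simpa only [mulVec, dotProduct, Fin.sum_univ_two, map_add, map_mul] using (hm c).2
  · change ∑ l, φ (γ k l) * ν l φ = 0
    simp only [hν.1 _ φ hφ, mul_zero, Finset.sum_const_zero]
  · have h0 := div_mul_cancel₀ (T.ab c (γ 0 0) * x c + T.ab c (γ 0 1)) (hm c).1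
    simp only [act, LinearMap.coe_mk, AddHom.coe_mk, Fin.sum_univ_two, (hν.2 c).1]
    linear_combination -ν 1 (T.ab c) * h0
  · have h0 := div_mul_cancel₀ (T.ab c (γ 0 0) * x c + T.ab c (γ 0 1)) (hm c).1
    have h1 := co_bil T h (T.ab c) (x c) 1 (ν 0 (conjugate (T.ab c))) (ν 1 (conjugate (T.ab c)))
    simp only [act, LinearMap.coe_mk, AddHom.coe_mk, Fin.sum_univ_two, conjugate_coe_eq]
    refine mul_left_cancel₀ (hm c).1 ?_
    linear_combination h1 + (hν.2 c).2 + T.ab c (T.ξ 0) *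
      (conj (T.ab c (γ 0 0)) * ν 0 (conjugate (T.ab c)) +
        conj (T.ab c (γ 0 1)) * ν 1 (conjugate (T.ab c))) * h0

variable [Fintype σ]

theorem co_conj {C : ℝ} {x : σ → ℂ} {w : Fin 2 → E} (hx : x ∈ T.X)
    (h1 : ∀ φ ∈ T.Ψ, ∀ k, ‖φ (w k)‖ ≤ C)
    (h2 : ∀ c, ‖T.ab c (w 0) - x c * T.ab c (w 1)‖ ^ 2 ≤
      C * (-(T.ab c (T.ξ 1)).im - (T.ab c (T.ξ 0)).im * ‖x c‖ ^ 2) ∧
      (-(T.ab c (T.ξ 1)).im - (T.ab c (T.ξ 0)).im * ‖x c‖ ^ 2) * ‖T.ab c (w 1)‖ ^ 2 ≤ C)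
    (φ : E →+* ℂ) : ‖φ (Hm T.ξ w w)‖ ≤ ∑ φ : E →+* ℂ, ∑ k, ‖φ (T.ξ k)‖ * C ^ 2 +
      ∑ c, 3 * |C| * (1 + (T.ab c (T.ξ 0)).im * -(T.ab c (T.ξ 1)).im) := by
  have hp : ∀ c, 0 ≤ 3 * |C| * (1 + (T.ab c (T.ξ 0)).im * -(T.ab c (T.ξ 1)).im) := fun c => by
    have := T.pos0 c
    have := neg_pos.2 (T.neg1 c)
    positivity
  have hc : ∀ φ : E →+* ℂ, ‖conjugate φ (Hm T.ξ w w)‖ = ‖φ (Hm T.ξ w w)‖ := fun φ => norm_conj _
  have hA : ∀ φ ∈ T.Ψ, ‖φ (Hm T.ξ w w)‖ ≤ ∑ φ : E →+* ℂ, ∑ k, ‖φ (T.ξ k)‖ * C ^ 2 := by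
    intro φ hφ
    refine le_trans ?_ (Finset.single_le_sum (f := fun φ : E →+* ℂ => ∑ k, ‖φ (T.ξ k)‖ * C ^ 2)
      (fun _ _ => by positivity) (Finset.mem_univ φ))
    rw [Hm, map_sum]
    refine norm_sum_le_of_le _ fun k _ => ?_
    rw [map_mul, map_mul, co_cc, norm_mul, norm_mul, norm_conj, mul_assoc, ← sq]
    gcongr
    exact h1 φ hφ k
  have hB : ∀ c, ‖T.ab c (Hm T.ξ w w)‖ ≤
      ∑ c, 3 * |C| * (1 + (T.ab c (T.ξ 0)).im * -(T.ab c (T.ξ 1)).im) := fun c => by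
    refine le_trans ?_ (Finset.single_le_sum (fun c _ => hp c) (Finset.mem_univ c))
    rw [co_val, norm_mul, norm_I, mul_one, norm_real, Real.norm_eq_abs]
    simpa only [Fin.isValue, mul_neg, neg_mul, sub_neg_eq_add] using (co_bd (T.pos0 c) (neg_pos.2 (T.neg1 c)) (hx c) (h2 c).1 (h2 c).2).2
  have hA0 : 0 ≤ ∑ φ : E →+* ℂ, ∑ k, ‖φ (T.ξ k)‖ * C ^ 2 := by positivity
  have hB0 := Finset.sum_nonneg (s := Finset.univ) fun c _ => hp c
  obtain h | h | ⟨c, rfl | rfl⟩ := T.tot φ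
  · linarith [hA φ h]
  · linarith [hA _ h, hc φ]
  · linarith [hB c]
  · linarith [hB c, hc (T.ab c)]

/-- Paper, section 5, COC. -/
theorem Sig.coc {ι : Type} [Fintype ι] (β : Basis ι ℚ (Fin 2 → E)) {M : ℕ} (hM : 0 < M) :
    ∃ K ⊆ T.X, IsCompact K ∧ ∀ x ∈ T.X, ∃ x' ∈ K, ∃ γ, T.SU γ ∧
      (∀ ν ∈ T.F x, act γ ν ∈ T.F x') ∧
      ∀ i, ∃ m : ι → ℤ, γ *ᵥ β i - β i = ∑ j, ((M : ℤ) * m j) • β j := by
  classical
  obtain ⟨C, hC⟩ := T.mink β
  obtain ⟨B, hB⟩ : ∃ B, B = ∑ φ : E →+* ℂ, ∑ k, ‖φ (T.ξ k)‖ * C ^ 2 +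
    ∑ c, 3 * |C| * (1 + (T.ab c (T.ξ 0)).im * -(T.ab c (T.ξ 1)).im) := ⟨_, rfl⟩
  let W : (ι → ℤ) → Fin 2 → E := fun m => ∑ j, m j • β j
  obtain ⟨D, hD0, hD⟩ := exists_integral_multiples ℤ ℚ
    (Finset.univ.image T.ξ ∪ Finset.univ.image fun p : ι × Fin 2 => β p.1 p.2)
  have hξ : ∀ k, (D : E) * T.ξ k ∈ integralClosure ℤ E := fun k => by
    rw [← zsmul_eq_mul]
    exact hD _ (by simp only [Finset.mem_union, Finset.mem_image, Finset.mem_univ, true_and, exists_apply_eq_apply, Prod.exists, Fin.exists_fin_two, Fin.isValue, true_or])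
  have hβ : ∀ j k, (D : E) * β j k ∈ integralClosure ℤ E := fun j k => by
    rw [← zsmul_eq_mul]
    exact hD _ (Finset.mem_union_right _ (Finset.mem_image_of_mem _ (Finset.mem_univ (j, k))))
  have hW : ∀ m k, (D : E) * W m k ∈ integralClosure ℤ E := fun m k => by
    simp only [W, Finset.sum_apply, Pi.smul_apply, Finset.mul_sum, mul_smul_comm]
    exact sum_mem fun j _ => zsmul_mem (hβ j k) _
  let G : Set (ι → ℤ) := {m | W m ≠ 0 ∧ ∀ φ : E →+* ℂ, ‖φ (Hm T.ξ (W m) (W m))‖ ≤ B}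
  have hF : ((fun m => Hm T.ξ (W m) (W m)) '' G).Finite := by
    refine ((Embeddings.finite_of_norm_le E ℂ (‖(D : ℂ)‖ ^ 3 * B)).preimage
      (f := fun y => (D : E) ^ 3 * y)
      (mul_right_injective₀ (pow_ne_zero 3 (Int.cast_ne_zero.2 hD0))).injOn).subset ?_
    rintro _ ⟨m, hm, rfl⟩
    refine ⟨?_, fun φ => ?_⟩
    · change _ ∈ integralClosure ℤ E
      simp only [Hm, Finset.mul_sum]
      refine sum_mem fun k _ => ?_
      convert mul_mem (mul_mem (hξ k) (hW m k)) (co_cint (hW m k)) using 1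
      ring
    · rw [map_mul, map_pow, map_intCast, norm_mul, norm_pow]
      gcongr
      exact hm.2 φ
  obtain ⟨D2, hD2, hI⟩ := exists_integral_multiples ℤ ℚ (hF.toFinset.image fun y => (-y)⁻¹)
  obtain ⟨D3, hD3, hL⟩ := co_den β
  obtain ⟨N, hN⟩ : ∃ N : ℤ, N = M * D3 * D ^ 5 * D2 := ⟨_, rfl⟩
  have : NeZero N.natAbs := ⟨by simp only [hN, ne_eq, Int.natAbs_eq_zero, mul_eq_zero, Int.natCast_eq_zero, hM.ne', hD3, or_self, OfNat.ofNat_ne_zero, not_false_eq_true, pow_eq_zero_iff, hD0, hD2]⟩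
  let f := fun m => (Hm T.ξ (W m) (W m), fun j => (m j : ZMod N.natAbs))
  have hf : (f '' G).Finite := (hF.prod Set.finite_univ).subset (by
    rintro _ ⟨m, hm, rfl⟩
    exact ⟨⟨m, hm, rfl⟩, trivial⟩)
  obtain ⟨R, hRG, hR, hRf⟩ := hf.exists_subset_finite_image_eq subset_rfl
  let C' : σ → ℝ := fun c => 2 * C * (1 + (T.ab c (T.ξ 0)).im * -(T.ab c (T.ξ 1)).im)
  refine ⟨⋃ m ∈ R, coK T C' (W m), Set.iUnion₂_subset fun m hm => coK_sub T _ (hRG hm).1,
    hR.isCompact_biUnion fun m _ => coK_compact T _ _, fun x hx => ?_⟩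
  obtain ⟨m, w, rfl, h0, h1, h2⟩ := hC x hx
  have hm : m ∈ G := ⟨h0, fun φ => hB ▸ co_conj T hx h1 h2 φ⟩
  obtain ⟨m', hm', he⟩ := hRf.ge (Set.mem_image_of_mem f hm)
  obtain ⟨hS, hw⟩ := co_SU T (co_ne T hm.1) (congrArg Prod.fst he)
  obtain ⟨x', hx', hx''⟩ := co_move T (C := C') (w := W m) hS hx fun c => ⟨(hx c).le,
    (co_bd (T.pos0 c) (neg_pos.2 (T.neg1 c)) (hx c) (h2 c).1 (h2 c).2).1⟩
  rw [hw] at hx'
  refine ⟨x', Set.mem_biUnion hm' hx', _, hS, hx'', fun i => ?_⟩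
  have h3 : ∀ j, N ∣ m' j - m j := fun j => Int.natAbs_dvd.1
    ((ZMod.intCast_eq_intCast_iff_dvd_sub _ _ _).1 (congrFun (congrArg Prod.snd he) j).symm)
  choose e he' using h3
  have h4 : W m' = W m + (N : E) • W e := by
    simp only [W, Finset.smul_sum, ← Finset.sum_add_distrib, Int.cast_smul_eq_zsmul, smul_smul,
      ← add_smul, ← he', add_sub_cancel]
  have h5 : coG T.ξ (W m') = coG T.ξ (W m) + (N : E) • coG T.ξ (W e) := by
    rw [h4]
    ext k l
    fin_cases k <;> fin_cases l <;> simp only [coG, Fin.isValue, Pi.add_apply, Pi.smul_apply, smul_eq_mul, cc, map_add, map_mul, map_intCast, Fin.zero_eta, of_apply, cons_val', cons_val_zero, cons_val_fin_one, smul_of, smul_cons, smul_empty, mul_neg, Matrix.add_apply, Fin.mk_one, cons_val_one] <;> ring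
  have h6 : (D2 : E) * (-Hm T.ξ (W m) (W m))⁻¹ ∈ integralClosure ℤ E := by
    rw [← zsmul_eq_mul]
    exact hI _ (Finset.mem_image_of_mem _ (hF.mem_toFinset.2 ⟨m, hm, rfl⟩))
  obtain ⟨n, hn⟩ := hL _ (co_mv (fun k l => (co_gint hξ (hW e) k l).1)
    (co_mv (fun k l => (co_gint hξ (hW m) k l).2)
      (v := ((D2 : E) * (-Hm T.ξ (W m) (W m))⁻¹ * D) • β i) fun k => by
        rw [Pi.smul_apply, smul_eq_mul, mul_assoc]
        exact mul_mem h6 (hβ i k)))
  have hd : IsUnit (coG T.ξ (W m)).det := by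
    rw [co_det, isUnit_iff_ne_zero]
    exact neg_ne_zero.2 (co_ne T hm.1)
  refine ⟨n, ?_⟩
  simp only [mul_smul, ← Finset.smul_sum]
  rw [hn, h5, Matrix.add_mul, mul_nonsing_inv _ hd, add_mulVec, one_mulVec, add_sub_cancel_left,
    Matrix.inv_def, Ring.inverse_eq_inv', co_det]
  simp only [← Int.cast_smul_eq_zsmul E, smul_mulVec, mulVec_smul, smul_smul, Matrix.smul_mul,
    Matrix.mul_smul, mulVec_mulVec]
  congr 1
  rw [hN]
  push_cast
  ring

end GPCW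

end

section

/-! CM points of the product of discs: theta functions with algebraic jets. -/

open Complex Module NumberField ComplexEmbedding Matrix

namespace GPCW

variable {E : Type} [Field E] [NumberField E]

/-- The rational points of `E ^ 2 ⊗ ℂ`. -/
def R2 (E : Type) [Field E] : AddSubgroup (VV E) where
  carrier := {y | ∃ w : Fin 2 → E, y = emb w}
  add_mem' := by
    rintro _ _ ⟨x, rfl⟩ ⟨x', rfl⟩
    exact ⟨x + x', funext fun k => funext fun φ => (map_add φ (x k) (x' k)).symm⟩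
  zero_mem' := ⟨0, funext fun _ => funext fun φ => (map_zero φ).symm⟩
  neg_mem' := by
    rintro _ ⟨x, rfl⟩
    exact ⟨-x, funext fun k => funext fun φ => (map_neg φ (x k)).symm⟩

/-- The vector with coordinates `e` at the embedding `φ`. -/
noncomputable def sv (φ : E →+* ℂ) (e : Fin 2 → ℂ) : VV E :=
  fun k φ' => open Classical in if φ' = φ then e k else 0

theorem cm_approx {ι : Type} [Finite ι] (a : ι → E →+* ℂ)
    (ha : ∀ c c', InfinitePlace.mk (a c) = InfinitePlace.mk (a c') → c = c') (A : Set ι)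
    (r : ι → ℝ) (hr : ∀ c, 0 < r c) :
    ∃ w : E, (∀ c ∈ A, r c < ‖a c w‖) ∧ ∀ c ∉ A, ‖a c w‖ < r c := by
  classical
  obtain ⟨N, hN⟩ : ∃ N : ℕ, ∀ c, r c < N := by
    obtain ⟨b, hb⟩ := (Set.finite_range r).bddAbove
    obtain ⟨N, hN⟩ := exists_nat_gt b
    exact ⟨N, fun c => (hb ⟨c, rfl⟩).trans_lt hN⟩
  have hn : ∀ (w : E) c, ‖algebraMap E ((v : InfinitePlace E) → WithAbs v.1) w
      (InfinitePlace.mk (a c))‖ = ‖a c w‖ := fun w c => rfl
  obtain ⟨w, hw⟩ := (InfinitePlace.denseRange_algebraMap_pi E).exists_mem_open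
    (s := ⋂ c, {z | if c ∈ A then r c < ‖z (InfinitePlace.mk (a c))‖
      else ‖z (InfinitePlace.mk (a c))‖ < r c})
    (isOpen_iInter_of_finite fun c => by
      split_ifs
      · exact isOpen_lt continuous_const (by fun_prop)
      · exact isOpen_lt (by fun_prop) continuous_const)
    ⟨fun v => if ∃ c ∈ A, v = InfinitePlace.mk (a c) then
      algebraMap E ((v : InfinitePlace E) → WithAbs v.1) (N : E) v else 0,
      Set.mem_iInter.2 fun c => by
        by_cases h : c ∈ A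
        · simp only [Set.mem_ofPred_eq, if_pos h]
          rw [if_pos ⟨c, h, rfl⟩, hn]
          simpa using hN c
        · simp only [Set.mem_ofPred_eq, if_neg h]
          rw [if_neg fun ⟨c', h', e⟩ => h (ha _ _ e ▸ h'), norm_zero]
          exact hr c⟩
  have h2 := fun c => Set.mem_iInter.1 hw c
  exact ⟨w, fun c hc => by simpa only [Set.mem_ofPred_eq, if_pos hc, hn] using h2 c,
    fun c hc => by simpa only [Set.mem_ofPred_eq, if_neg hc, hn] using h2 c⟩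

omit [NumberField E] in
theorem act_apply (g : Matrix (Fin 2) (Fin 2) E) (y : VV E) (k : Fin 2) (φ : E →+* ℂ) :
    act g y k φ = φ (g k 0) * y 0 φ + φ (g k 1) * y 1 φ := by
  simp [act, Fin.sum_univ_two]

omit [NumberField E] in
theorem act_act (g h : Matrix (Fin 2) (Fin 2) E) (y : VV E) :
    act g (act h y) = act (g * h) y := by
  funext k φ
  simp only [act_apply, mul_apply, Fin.sum_univ_two, map_add, map_mul]
  ring

omit [NumberField E] in
theorem act_one (y : VV E) : act 1 y = y := by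
  funext k φ
  fin_cases k <;> simp [act_apply]

omit [NumberField E] in
theorem act_emb (g : Matrix (Fin 2) (Fin 2) E) (w : Fin 2 → E) :
    act g (emb w) = emb (g *ᵥ w) := by
  funext k φ
  simp [act_apply, emb, mulVec, dotProduct, Fin.sum_univ_two]

omit [NumberField E] in
theorem act_sv (g : Matrix (Fin 2) (Fin 2) E) (φ : E →+* ℂ) (e : Fin 2 → ℂ) :
    act g (sv φ e) = sv φ fun k => φ (g k 0) * e 0 + φ (g k 1) * e 1 := by
  funext k φ'
  simp only [act_apply, sv]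
  split_ifs with h
  · rw [h]
  · simp

theorem cm_dir (z : ℂ) : ∃ t : ℂ, t ≠ 0 ∧ IsAlgebraic ℚ (z * t) := by
  by_cases h : z = 0
  · exact ⟨1, one_ne_zero, by simpa [h] using isAlgebraic_zero⟩
  · exact ⟨z⁻¹, inv_ne_zero h, by simpa [h] using isAlgebraic_one⟩

omit [NumberField E] in
theorem sv_DW {p : Fin 2 → (E →+* ℂ) → ℂ} {φ : E →+* ℂ} {j : Fin 2} {t : ℂ}
    (h : IsAlgebraic ℚ (p j φ * t)) (i : Fin 2) : sv φ (Pi.single j t) i ∈ DW (p i) := fun φ' => by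
  simp only [sv, Pi.single_apply]
  split_ifs with h1 h2
  · rwa [h1, h2]
  all_goals simpa using isAlgebraic_zero

variable [IsCMField E]

theorem cc_star (φ : E →+* ℂ) (x : E) : φ (cc x) = (starRingEnd ℂ) (φ x) :=
  IsCMField.complexEmbedding_complexConj E φ x

theorem conj_eq_cc (φ : E →+* ℂ) (x : E) : conjugate φ x = φ (cc x) := (cc_star φ x).symm

theorem Bx_alt {η : E} (h : cc η = -η) (y : (E →+* ℂ) → ℂ) : Bx η y y = 0 := by
  have h1 := Equiv.sum_comp (star_involutive (R := E →+* ℂ)).toPerm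
    fun φ => φ η * y φ * y (conjugate φ)
  have h2 : ∑ φ : E →+* ℂ, φ η * y φ * y (conjugate φ) =
      -∑ φ : E →+* ℂ, φ η * y φ * y (conjugate φ) := by
    rw [← Finset.sum_neg_distrib]
    refine h1.symm.trans (Finset.sum_congr rfl fun φ _ => ?_)
    show conjugate φ η * y (conjugate φ) * y (star (star φ)) = _
    rw [star_star, conj_eq_cc, h, map_neg]
    ring
  rw [Bx_apply, self_eq_neg.1 h2, mul_zero]

theorem B2_act {ξ η : Fin 2 → E} {g : Matrix (Fin 2) (Fin 2) E}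
    (h : ∀ i j, Hm ξ (g · i) (g · j) = if i = j then η i else 0) (a b : VV E) :
    B2 ξ (act g a) (act g b) = B2 η a b := by
  simp only [B2_apply, Bx_apply, ← mul_add, ← Finset.sum_add_distrib]
  refine congrArg _ (Finset.sum_congr rfl fun φ _ => ?_)
  have h1 := fun i j => congrArg φ (h i j)
  have h00 := h1 0 0
  have h01 := h1 0 1
  have h10 := h1 1 0
  have h11 := h1 1 1
  simp only [Hm, Fin.sum_univ_two, map_add, map_mul, if_true, zero_ne_one, one_ne_zero, if_false,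
    map_zero] at h00 h01 h10 h11
  simp only [act_apply, conj_eq_cc]
  linear_combination a 0 φ * b 0 (conjugate φ) * h00 + a 0 φ * b 1 (conjugate φ) * h01 +
    a 1 φ * b 0 (conjugate φ) * h10 + a 1 φ * b 1 (conjugate φ) * h11

/-- The output of `jay` for the type `Φ` and the periods `p`. -/
def Jay (Φ : Set (E →+* ℂ)) (p : (E →+* ℂ) → ℂ) : Prop :=
  ∀ η : E, cc η = -η → (∀ φ ∈ Φ, 0 < (φ η).im) →
    ∃ G, G ≠ 0 ∧ Th (Bx η) (RW E) (FW Φ) (DW p) G

/-- The product of two theta functions along an orthogonal basis. -/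
theorem th_orth {ξ η : Fin 2 → E} {g : Matrix (Fin 2) (Fin 2) E} (hg : g.det ≠ 0)
    (h : ∀ i j, Hm ξ (g · i) (g · j) = if i = j then η i else 0) (hη : ∀ j, cc (η j) = -η j)
    {Φ : Fin 2 → Set (E →+* ℂ)} {p : Fin 2 → (E →+* ℂ) → ℂ}
    (hG : ∀ j, ∃ G, G ≠ 0 ∧ Th (Bx (η j)) (RW E) (FW (Φ j)) (DW (p j)) G)
    {R : AddSubgroup (VV E)} (hR : ∀ y ∈ R, ∃ w, y = emb w) {F : Submodule ℂ (VV E)}
    (hF : ∀ a, act g a ∈ F → ∀ j, a j ∈ FW (Φ j)) :
    ∃ H, H ≠ 0 ∧ Th (B2 ξ) R F (act g '' {a | ∀ j, a j ∈ DW (p j)}) H := by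
  choose G h0 hG using hG
  have hu : IsUnit g.det := isUnit_iff_ne_zero.2 hg
  have e1 : ∀ y, act g (act g⁻¹ y) = y := fun y => by
    rw [act_act, mul_nonsing_inv _ hu, act_one]
  have e2 : ∀ y, act g⁻¹ (act g y) = y := fun y => by
    rw [act_act, nonsing_inv_mul _ hu, act_one]
  let f : Fin 2 → VV E →ₗ[ℂ] (E →+* ℂ) → ℂ := fun j => LinearMap.proj j ∘ₗ act g⁻¹
  have h1 := Th.prod (R := R) (F := F) (D := act g '' {a | ∀ j, a j ∈ DW (p j)}) Finset.univ
    (B := fun j => (Bx (η j)).compl₁₂ (f j) (f j)) (G := fun j y => G j (f j y))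
    (fun j v => Bx_alt (hη j) _)
    (fun j => (hG j).comp (f j)
      (fun r hr => by
        obtain ⟨w, rfl⟩ := hR r hr
        exact ⟨(g⁻¹ *ᵥ w) j, congrFun (act_emb _ w) j⟩)
      (fun ν hν => hF (act g⁻¹ ν) ((e1 ν).symm ▸ hν) j)
      (by
        rintro _ ⟨a, ha, rfl⟩
        show act g⁻¹ (act g a) j ∈ _
        rw [e2]
        exact ha j))
    fun j => by
      obtain ⟨y, hy⟩ := Function.ne_iff.1 (h0 j)
      refine Function.ne_iff.2 ⟨act g fun _ => y, ?_⟩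
      show G j (act g⁻¹ (act g fun _ => y) j) ≠ 0
      rwa [e2]
  have h2 : ∑ j, (Bx (η j)).compl₁₂ (f j) (f j) = B2 ξ := by
    refine LinearMap.ext fun u => LinearMap.ext fun v => ?_
    rw [← e1 u, ← e1 v, B2_act h, B2_apply, e1, e1, Fin.sum_univ_two]
    rfl
  exact ⟨_, h1.2, h2 ▸ h1.1⟩

/-- The type that contains `ab c` for `c ∈ A` and its conjugate for `c ∉ A`. -/
def Sig.typ {σ : Type} (T : Sig E σ) (A : Set σ) : Set (E →+* ℂ) :=
  {φ | φ ∈ T.Ψ ∨ (∃ c ∈ A, φ = T.ab c) ∨ ∃ c ∉ A, φ = conjugate (T.ab c)}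

theorem cc_mul (x y : E) : cc (x * y) = cc x * cc y := map_mul _ x y

theorem cc_add (x y : E) : cc (x + y) = cc x + cc y := map_add _ x y

theorem cc_neg (x : E) : cc (-x) = -cc x := map_neg _ x

theorem cc_one : cc (1 : E) = 1 := map_one _

theorem cc_cc (x : E) : cc (cc x) = x := IsCMField.complexConj_apply_apply E x

theorem imag_eq {z : E} (h : cc z = -z) (φ : E →+* ℂ) : φ z = (φ z).im * I := by
  have h1 := congrArg re (cc_star φ z)
  rw [h, map_neg, neg_re, conj_re] at h1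
  exact Complex.ext (by simp; linarith) (by simp)

theorem Sig.place {σ : Type} (T : Sig E σ) (c c' : σ)
    (h : InfinitePlace.mk (T.ab c) = InfinitePlace.mk (T.ab c')) : c = c' := by
  rcases InfinitePlace.mk_eq_iff.1 h with h | h
  · exact T.ne h
  · have h1 := T.pos0 c'
    rw [← h, conj_eq_cc, T.imag, map_neg, neg_im] at h1
    linarith only [T.pos0 c, h1]

namespace Sig

variable {σ : Type} (T : Sig E σ)

theorem gb_B (φ φ' : E →+* ℂ) (a b : Fin 2 → ℂ) : B2 T.ξ (sv φ a) (sv φ' b) =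
    open Classical in if conjugate φ = φ' then
      Real.pi * I * (φ (T.ξ 0) * a 0 * b 0 + φ (T.ξ 1) * a 1 * b 1) else 0 := by
  simp only [B2_apply, Bx_apply, sv, mul_ite, ite_mul, mul_zero, zero_mul]
  rw [Finset.sum_eq_single φ (fun _ _ h => by simp only [h, ↓ reduceIte, ite_self]) (by simp),
    Finset.sum_eq_single φ (fun _ _ h => by simp only [h, ↓ reduceIte, ite_self]) (by simp)]
  split_ifs <;> simp_all [mul_add]

theorem gb_ne {φ : E →+* ℂ} (h : φ ∈ T.Ψ) (c c' : σ) : φ ≠ T.ab c ∧ φ ≠ conjugate (T.ab c) ∧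
    conjugate φ ∉ T.Ψ ∧ T.ab c ≠ conjugate (T.ab c') := by
  have h1 : ∀ (φ : E →+* ℂ) k, (conjugate φ (T.ξ k)).im = -(φ (T.ξ k)).im := fun φ k => by
    rw [conj_eq_cc, T.imag, map_neg, neg_im]
  refine ⟨fun e => ?_, fun e => ?_, fun e => ?_, fun e => ?_⟩
  · linarith [e ▸ T.pos φ h 1, T.neg1 c]
  · linarith [e ▸ T.pos φ h 0, T.pos0 c, h1 (T.ab c) 0]
  · linarith [T.pos φ h 0, T.pos _ e 0, h1 φ 0]
  · linarith [e ▸ T.pos0 c, T.pos0 c', h1 (T.ab c') 0]

theorem gb_mem {x : σ → ℂ} {φ : E →+* ℂ} {e : Fin 2 → ℂ} (h : φ ∉ T.Ψ)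
    (h0 : ∀ c, T.ab c = φ → e 0 = x c * e 1) (h1 : ∀ c, conjugate (T.ab c) = φ →
      T.ab c (T.ξ 1) * e 1 + x c * T.ab c (T.ξ 0) * e 0 = 0) : sv φ e ∈ T.F x := by
  refine ⟨fun k φ' h' => if_neg fun e : φ' = φ => h (e ▸ h'), fun c => ⟨?_, ?_⟩⟩ <;> simp only [sv] <;>
    split_ifs with e
  exacts [h0 c e, by simp, h1 c e, by simp]

theorem gb_mem0 {x : σ → ℂ} {c : σ} {e : Fin 2 → ℂ} (h : e 0 = x c * e 1) :
    sv (T.ab c) e ∈ T.F x :=
  T.gb_mem (fun h => (T.gb_ne h c c).1 rfl) (fun _ e => T.ne e ▸ h)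
    fun c' e => absurd e.symm (T.gb_ne T.mem c c').2.2.2

theorem gb_mem1 {x : σ → ℂ} {c : σ} {e : Fin 2 → ℂ}
    (h : T.ab c (T.ξ 1) * e 1 + x c * T.ab c (T.ξ 0) * e 0 = 0) :
    sv (conjugate (T.ab c)) e ∈ T.F x :=
  T.gb_mem (fun h => (T.gb_ne h c c).2.1 rfl)
    (fun c' e => absurd e (T.gb_ne T.mem c' c).2.2.2) fun _ e => T.ne (star_injective e) ▸ h

end Sig

/-- A CM point and the orthogonal basis that defines it. -/
theorem Sig.sy_pt {σ : Type} [Fintype σ] (T : Sig E σ) (A : Set σ) :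
    ∃ x ∈ T.X, ∃ (η : Fin 2 → E) (g : Matrix (Fin 2) (Fin 2) E), g.det ≠ 0 ∧
      (∀ i j, Hm T.ξ (g · i) (g · j) = if i = j then η i else 0) ∧ (∀ j, cc (η j) = -η j) ∧
      (∀ φ ∈ T.typ A, 0 < (φ (η 0)).im) ∧ (∀ φ ∈ T.typ Aᶜ, 0 < (φ (η 1)).im) ∧
      ∀ a, act g a ∈ T.F x ↔ a 0 ∈ FW (T.typ A) ∧ a 1 ∈ FW (T.typ Aᶜ) := by
  classical
  have s0 := T.pos0
  have s1 := T.neg1
  have i0 := T.imag 0
  have i1 := T.imag 1
  have hr : ∀ c, 0 < -(T.ab c (T.ξ 1)).im / (T.ab c (T.ξ 0)).im := fun c =>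
    div_pos (neg_pos.2 (s1 c)) (s0 c)
  obtain ⟨w, w1, w2⟩ := cm_approx T.ab T.place A _ fun c => Real.sqrt_pos.2 (hr c)
  obtain ⟨η, hη⟩ : ∃ η, η = T.ξ 0 * (w * cc w) + T.ξ 1 := ⟨_, rfl⟩
  have j0 : cc η = -η := by
    simp only [hη, cc_add, cc_mul, cc_cc, i0, i1]
    ring
  have j1 : cc (-(T.ξ 0 * T.ξ 1) * η) = -(-(T.ξ 0 * T.ξ 1) * η) := by
    simp only [cc_neg, cc_mul, i0, i1, j0]
    ring
  have m0 : ∀ φ : E →+* ℂ, (φ η).im = (φ (T.ξ 0)).im * ‖φ w‖ ^ 2 + (φ (T.ξ 1)).im := fun φ => by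
    rw [hη, map_add, map_mul, map_mul, cc_star, mul_conj', add_im, ← ofReal_pow, im_mul_ofReal]
  have m1 : ∀ φ : E →+* ℂ, (φ (-(T.ξ 0 * T.ξ 1) * η)).im =
      (φ (T.ξ 0)).im * (φ (T.ξ 1)).im * (φ η).im := fun φ => by
    have : φ (-(T.ξ 0 * T.ξ 1)) = ((φ (T.ξ 0)).im * (φ (T.ξ 1)).im : ℝ) := by
      rw [map_neg, map_mul, ofReal_mul]
      linear_combination -φ (T.ξ 1) * imag_eq i0 φ - (φ (T.ξ 0)).im * I * imag_eq i1 φ -
        (φ (T.ξ 0)).im * (φ (T.ξ 1)).im * I_mul_I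
    rw [map_mul, this, im_ofReal_mul]
  have pΨ : ∀ φ ∈ T.Ψ, 0 < (φ η).im := fun φ h => by
    have := T.pos φ h 0
    have := T.pos φ h 1
    rw [m0]
    positivity
  have pA : ∀ c ∈ A, 0 < (T.ab c η).im := fun c h => by
    have := (div_lt_iff₀' (s0 c)).1 ((Real.sqrt_lt' ((Real.sqrt_nonneg _).trans_lt (w1 c h))).1
      (w1 c h))
    rw [m0]
    linarith
  have pB : ∀ c ∉ A, (T.ab c η).im < 0 := fun c h => by
    have := (lt_div_iff₀' (s0 c)).1 ((Real.lt_sqrt (norm_nonneg _)).1 (w2 c h))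
    rw [m0]
    linarith
  have n0 : η ≠ 0 := fun h => by simpa [h] using pΨ _ T.mem
  have x0 : ∀ c, T.ab c (T.ξ 0) ≠ 0 := fun c h => by simpa [h] using s0 c
  have x1 : ∀ c, T.ab c (T.ξ 1) ≠ 0 := fun c h => by simpa [h] using s1 c
  have nn : ∀ φ : E →+* ℂ, φ (T.ξ 0) * (φ w * φ (cc w)) + φ (T.ξ 1) ≠ 0 := fun φ => by
    simpa only [hη, map_add, map_mul] using (map_ne_zero φ).2 n0
  have nw : ∀ c ∈ A, T.ab c (cc w) ≠ 0 := fun c h => by
    rw [cc_star, map_ne_zero, ← norm_pos_iff]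
    exact (Real.sqrt_nonneg _).trans_lt (w1 c h)
  obtain ⟨x, hx⟩ : ∃ x : σ → ℂ, ∀ c, x c = if c ∈ A then
    -T.ab c (T.ξ 1) / (T.ab c (T.ξ 0) * T.ab c (cc w)) else T.ab c w := ⟨_, fun _ => rfl⟩
  have qA : ∀ c ∈ A, T.ab c (T.ξ 1) + x c * T.ab c (T.ξ 0) * T.ab c (cc w) = 0 := fun c h => by
    have := x0 c
    have := nw c h
    rw [hx, if_pos h]
    field_simp
    ring
  have rA : ∀ c ∈ A, T.ab c w - x c ≠ 0 := fun c h e => nn (T.ab c) (by
    linear_combination qA c h + T.ab c (T.ξ 0) * T.ab c (cc w) * e)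
  have rB : ∀ c ∉ A, T.ab c w - x c = 0 := fun c h => by rw [hx, if_neg h, sub_self]
  have qB : ∀ c ∉ A, T.ab c (T.ξ 1) + x c * T.ab c (T.ξ 0) * T.ab c (cc w) ≠ 0 := fun c h e =>
    nn (T.ab c) (by linear_combination e + T.ab c (T.ξ 0) * T.ab c (cc w) * rB c h)
  obtain ⟨g, hg⟩ : ∃ g : Matrix (Fin 2) (Fin 2) E, g = !![w, T.ξ 1; 1, -(T.ξ 0 * cc w)] := ⟨_, rfl⟩
  have g00 : g 0 0 = w := by simp [hg]
  have g01 : g 0 1 = T.ξ 1 := by simp [hg]
  have g10 : g 1 0 = 1 := by simp [hg]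
  have g11 : g 1 1 = -(T.ξ 0 * cc w) := by simp [hg]
  have k0 : ∀ (a : VV E) c, act g a 0 (T.ab c) - x c * act g a 1 (T.ab c) =
      (T.ab c w - x c) * a 0 (T.ab c) +
        (T.ab c (T.ξ 1) + x c * T.ab c (T.ξ 0) * T.ab c (cc w)) * a 1 (T.ab c) := fun a c => by
    simp only [act_apply, g00, g01, g10, g11, map_one, map_neg, map_mul]
    ring
  have k1 : ∀ (a : VV E) c, T.ab c (T.ξ 1) * act g a 1 (conjugate (T.ab c)) +
      x c * T.ab c (T.ξ 0) * act g a 0 (conjugate (T.ab c)) =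
      (T.ab c (T.ξ 1) + x c * T.ab c (T.ξ 0) * T.ab c (cc w)) * a 0 (conjugate (T.ab c)) +
        T.ab c (T.ξ 0) * T.ab c (T.ξ 1) * (T.ab c w - x c) * a 1 (conjugate (T.ab c)) :=
    fun a c => by
      simp only [act_apply, g00, g01, g10, g11, conj_eq_cc, cc_cc, i0, i1, map_one, map_neg, map_mul]
      ring
  have cj : ∀ (φ : E →+* ℂ) {z : E}, cc z = -z → (conjugate φ z).im = -(φ z).im := fun φ z h => by
    rw [conj_eq_cc, h, map_neg, neg_im]
  refine ⟨x, fun c => ?_, ![η, -(T.ξ 0 * T.ξ 1) * η], g, fun h => n0 ?_, ?_,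
    Fin.forall_fin_two.2 ⟨j0, j1⟩, ?_, ?_, fun a => ⟨fun ha => ?_, fun ⟨a0, a1⟩ =>
      ⟨fun k φ h => ?_, fun c => ?_⟩⟩⟩
  · by_cases h : c ∈ A
    · have h1 := pA c h
      have h2 := congrArg (‖·‖ ^ 2) (eq_neg_of_add_eq_zero_left (qA c h))
      rw [m0] at h1
      rw [imag_eq i0, imag_eq i1] at h2
      simp only [norm_neg, Complex.norm_mul, cc_star, norm_conj, norm_I, norm_real, Real.norm_eq_abs,
        mul_one, mul_pow, sq_abs] at h2
      by_contra h3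
      linarith only [mul_pos h1 (neg_pos.2 (s1 c)), mul_le_mul_of_nonneg_right (not_lt.1 h3)
        (mul_nonneg (s0 c).le (sq_nonneg ‖T.ab c w‖)), h2]
    · have h1 := pB c h
      rw [m0] at h1
      rw [← sub_eq_zero.1 (rB c h)]
      linarith
  · rw [det_fin_two, g00, g01, g10, g11] at h
    linear_combination hη - h
  · simp only [Fin.forall_fin_two, Hm, Fin.sum_univ_two, g00, g01, g10, g11, cc_one, cc_neg,
      cc_mul, cc_cc, i0, i1, hη, if_true, zero_ne_one, one_ne_zero, if_false, cons_val_zero,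
      cons_val_one]
    refine ⟨⟨?_, ?_⟩, ?_, ?_⟩ <;> ring
  · show ∀ φ ∈ T.typ A, 0 < (φ η).im
    rintro φ (h | ⟨c, h, rfl⟩ | ⟨c, h, rfl⟩)
    · exact pΨ φ h
    · exact pA c h
    · rw [cj _ j0]
      exact neg_pos.2 (pB c h)
  · show ∀ φ ∈ T.typ Aᶜ, 0 < (φ (-(T.ξ 0 * T.ξ 1) * η)).im
    rintro φ (h | ⟨c, h, rfl⟩ | ⟨c, h, rfl⟩)
    · rw [m1]
      exact mul_pos (mul_pos (T.pos φ h 0) (T.pos φ h 1)) (pΨ φ h)
    · rw [m1]
      exact mul_pos_of_neg_of_neg (mul_neg_of_pos_of_neg (s0 c) (s1 c)) (pB c h)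
    · rw [cj _ j1, m1]
      exact neg_pos.2 (mul_neg_of_neg_of_pos (mul_neg_of_pos_of_neg (s0 c) (s1 c))
        (pA c (not_not.1 h)))
  · have a0 := fun c => (k0 a c).symm.trans (sub_eq_zero.2 (ha.2 c).1)
    have a1 := fun c => (k1 a c).symm.trans (ha.2 c).2
    have a2 : ∀ φ ∈ T.Ψ, a 0 φ = 0 ∧ a 1 φ = 0 := fun φ h => by
      have b0 := ha.1 0 φ h
      have b1 := ha.1 1 φ h
      simp only [act_apply, g00, g01, g10, g11, map_one, map_neg, map_mul] at b0 b1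
      exact ⟨(mul_eq_zero.1 (by
        linear_combination φ (T.ξ 0) * φ (cc w) * b0 + φ (T.ξ 1) * b1)).resolve_left (nn φ),
        (mul_eq_zero.1 (by linear_combination b0 - φ w * b1)).resolve_left (nn φ)⟩
    constructor
    · rintro φ (h | ⟨c, h, rfl⟩ | ⟨c, h, rfl⟩)
      · exact (a2 φ h).1
      · simpa [qA c h, rA c h] using a0 c
      · simpa only [Fin.isValue, rB c h, mul_zero, zero_mul, add_zero, mul_eq_zero, qB c h, false_or] using a1 c
    · rintro φ (h | ⟨c, h, rfl⟩ | ⟨c, h, rfl⟩)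
      · exact (a2 φ h).2
      · simpa [qB c h, rB c h] using a0 c
      · simpa only [Fin.isValue, qA c (not_not.1 h), zero_mul, zero_add, mul_eq_zero, x0 c, x1 c, or_self, rA c (not_not.1 h), false_or] using a1 c
  · rw [act_apply, a0 φ (.inl h), a1 φ (.inl h), mul_zero, mul_zero, add_zero]
  · rw [← sub_eq_zero, k0, k1]
    by_cases h : c ∈ A
    · simp only [Fin.isValue, a0 _ (.inr (.inl ⟨c, h, rfl⟩)), mul_zero, qA c h, zero_mul, add_zero, a1 _ (.inr (.inr ⟨c, not_not.2 h, rfl⟩)), and_self]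
    · simp [rB c h, a1 _ (.inr (.inl ⟨c, h, rfl⟩)), a0 _ (.inr (.inr ⟨c, h, rfl⟩))]

/-- A CM point with the types `typ A` and `typ Aᶜ`. -/
theorem Sig.cm {σ : Type} [Fintype σ] (T : Sig E σ) (A : Set σ) {p p' : (E →+* ℂ) → ℂ}
    (hp : p T.ψ ≠ 0) (hp' : p' T.ψ ≠ 0) (hJ : Jay (T.typ A) p) (hJ' : Jay (T.typ Aᶜ) p') :
    ∃ x ∈ T.X, ∃ D H, H ≠ 0 ∧ Th (B2 T.ξ) (R2 E) (T.F x) D H ∧
      (∀ c, ∃ e, sv (T.ab c) e ∈ D ∧ e 0 ≠ x c * e 1) ∧
      (∀ c, ∃ e, sv (conjugate (T.ab c)) e ∈ D ∧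
        T.ab c (T.ξ 1) * e 1 + x c * T.ab c (T.ξ 0) * e 0 ≠ 0) ∧
      ∃ (u : Fin 2 → VV E) (M : Matrix (Fin 2) (Fin 2) ℂ) (α : ℂ), (∀ j, u j ∈ D) ∧
        (∀ k, sv T.ψ (Pi.single k 1) = M k 0 • u 0 + M k 1 • u 1) ∧
        IsAlgebraic ℚ α ∧ α ≠ 0 ∧ M.det = α * (p T.ψ * p' T.ψ) := by
  classical
  obtain ⟨x, hx, η, g, hg, hH, hη, h0, h1, hF⟩ := T.sy_pt A
  obtain ⟨H, H0, hT⟩ := th_orth (Φ := ![T.typ A, T.typ Aᶜ]) (p := ![p, p']) (R := R2 E) hg hH hη
    (Fin.forall_fin_two.2 ⟨hJ _ (hη 0) h0, hJ' _ (hη 1) h1⟩) (fun _ h => h)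
    fun a ha => Fin.forall_fin_two.2 ((hF a).1 ha)
  have dir : ∀ (φ : E →+* ℂ) j, φ ∈ ![T.typ A, T.typ Aᶜ] j → ∃ e,
      sv φ e ∈ act g '' {a | ∀ j, a j ∈ DW (![p, p'] j)} ∧ sv φ e ∉ T.F x := fun φ j h => by
    obtain ⟨t, h0, h1⟩ := cm_dir (![p, p'] j φ)
    obtain ⟨e, he⟩ : ∃ e, _ = sv φ e := ⟨_, act_sv g φ (Pi.single j t)⟩
    refine ⟨e, he ▸ ⟨⟨_, sv_DW h1, rfl⟩, fun h' => ?_⟩⟩
    fin_cases j
    · simpa [sv, h0] using ((hF _).1 h').1 φ h
    · simpa [sv, h0] using ((hF _).1 h').2 φ h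
  have nψ := (map_ne_zero T.ψ).2 hg
  refine ⟨x, hx, _, H, H0, hT, fun c => ?_, fun c => ?_,
    fun l => act g (sv T.ψ (Pi.single l (![p, p'] l T.ψ)⁻¹)),
    (T.ψ g.det)⁻¹ • !![T.ψ (g 1 1) * p T.ψ, -T.ψ (g 1 0) * p' T.ψ;
      -T.ψ (g 0 1) * p T.ψ, T.ψ (g 0 0) * p' T.ψ],
    T.ψ g.det⁻¹, fun j => ⟨_, sv_DW ?_, rfl⟩, fun k => ?_,
    (Algebra.IsAlgebraic.isAlgebraic _).algHom T.ψ.toRatAlgHom, by simpa using hg, ?_⟩
  · obtain ⟨e, h2, h3⟩ := dir (T.ab c) (if c ∈ A then 0 else 1) (by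
      split_ifs with h
      exacts [.inr (.inl ⟨c, h, rfl⟩), .inr (.inl ⟨c, h, rfl⟩)])
    exact ⟨e, h2, fun h => h3 (T.gb_mem0 h)⟩
  · obtain ⟨e, h2, h3⟩ := dir (conjugate (T.ab c)) (if c ∈ A then 1 else 0) (by
      split_ifs with h
      exacts [.inr (.inr ⟨c, not_not.2 h, rfl⟩), .inr (.inr ⟨c, h, rfl⟩)])
    exact ⟨e, h2, fun h => h3 (T.gb_mem1 h)⟩
  · obtain ⟨h, -⟩ : ![p, p'] j T.ψ ≠ 0 ∧ True := by fin_cases j <;> simpa
    rw [mul_inv_cancel₀ h]
    exact isAlgebraic_one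
  · funext l φ
    simp only [act_sv, Pi.add_apply, Pi.smul_apply, sv]
    split_ifs
    · fin_cases k <;> fin_cases l <;> simp only [Fin.zero_eta, Fin.isValue, Pi.single_eq_same, neg_mul, Matrix.smul_apply, of_apply, cons_val', cons_val_zero, cons_val_fin_one, smul_eq_mul, Nat.succ_eq_add_one, Nat.reduceAdd, ne_eq, one_ne_zero, not_false_eq_true, Pi.single_eq_of_ne, mul_zero, add_zero, cons_val_one, mul_neg, zero_ne_one, zero_add, Fin.mk_one] <;> field_simp <;>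
        simp only [det_fin_two, map_sub, map_mul] <;> ring
    · simp
  · simp only [det_fin_two (A := _ • _), map_inv₀]
    simp only [Fin.isValue, neg_mul, Matrix.smul_apply, of_apply, cons_val', cons_val_zero, cons_val_fin_one, smul_eq_mul, cons_val_one, mul_neg, neg_neg]
    field_simp
    simp only [det_fin_two, map_sub, map_mul]
    ring

end GPCW

end

section

/-! The family attached to a skew hermitian plane and its CM points. -/

open Complex Module NumberField ComplexEmbedding Matrix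

namespace GPCW

section GA

variable {E : Type} [Field E] [NumberField E]

theorem emb_sum {ι : Type} [Fintype ι] (q : ι → ℚ) (w : ι → Fin 2 → E) :
    emb (∑ i, q i • w i) = ∑ i, (q i : ℂ) • emb (w i) := by
  funext k φ
  simp only [emb, Finset.sum_apply, Pi.smul_apply, Rat.smul_def, map_sum, map_mul, map_ratCast, smul_eq_mul]

/-- A rational basis is a complex basis. -/
noncomputable def embB {ι : Type} [Fintype ι] (β : Basis ι ℚ (Fin 2 → E)) : Basis ι ℂ (VV E) :=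
  basisOfTopLeSpanOfCardEqFinrank (fun i => emb (β i))
    (fun y _ => (Submodule.mem_span_range_iff_exists_fun ℂ).2 (mk_span β y)) (by
    rw [← finrank_eq_card_basis β]
    simp [Module.finrank_pi_fintype, Embeddings.card])

theorem embB_coe {ι : Type} [Fintype ι] (β : Basis ι ℚ (Fin 2 → E)) :
    ⇑(embB β) = fun i => emb (β i) := coe_basisOfTopLeSpanOfCardEqFinrank _ _ _

theorem embB_cj {ι : Type} [Fintype ι] (β : Basis ι ℚ (Fin 2 → E)) (v : VV E) :
    cj (embB β) v = fun k φ => star (v k (conjugate φ)) := by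
  conv_rhs => rw [← (embB β).sum_repr v]
  funext k φ
  simp only [cj, RCLike.star_def, embB_coe, Finset.sum_apply, Pi.smul_apply, emb, smul_eq_mul, conjugate_coe_eq, star_sum, star_mul', RingHomCompTriple.comp_apply]

theorem embB_Rq {ι : Type} [Fintype ι] (β : Basis ι ℚ (Fin 2 → E)) : Rq (embB β) = R2 E := by
  ext y
  constructor
  · intro h
    choose q hq using h
    refine ⟨∑ i, q i • β i, ?_⟩
    rw [emb_sum, ← (embB β).sum_repr y]
    simp only [hq, embB_coe]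
  · rintro ⟨w, rfl⟩ i
    refine ⟨β.repr w i, ?_⟩
    have := (embB β).repr_sum_self fun i => (β.repr w i : ℂ)
    rw [embB_coe, ← emb_sum, β.sum_repr] at this
    exact congrFun this i

omit [NumberField E] in
theorem conj_conj (φ : E →+* ℂ) : conjugate (conjugate φ) = φ := involutive_conjugate E φ

omit [NumberField E] in
theorem cnj_im (φ : E →+* ℂ) (x : E) : (conjugate φ x).im = -(φ x).im := by
  rw [conjugate_coe_eq, Complex.conj_im]

variable [IsCMField E]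

theorem conj_imag {ξ : E} (h : cc ξ = -ξ) (φ : E →+* ℂ) : conjugate φ ξ = -φ ξ := by
  rw [conj_eq_cc, h, map_neg]

theorem B2_emb (ξ u v : Fin 2 → E) :
    B2 ξ (emb u) (emb v) = Real.pi * I * (Algebra.trace ℚ E (Hm ξ u v) : ℚ) := by
  rw [cas_trace, B2_apply, Bx_apply, Bx_apply, ← mul_add, ← Finset.sum_add_distrib]
  simp only [Hm, emb, conj_eq_cc, Fin.sum_univ_two, map_add, map_mul]

theorem B2_alt {ξ : Fin 2 → E} (h : ∀ k, cc (ξ k) = -ξ k) (v : VV E) : B2 ξ v v = 0 := by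
  rw [B2_apply, Bx_alt (h 0), Bx_alt (h 1), add_zero]

theorem exists_symp {ξ : Fin 2 → E} (h : ∀ k, cc (ξ k) = -ξ k) (h0 : ∀ k, ξ k ≠ 0) :
    ∃ (n : ℕ) (β : Basis (Fin n ⊕ Fin n) ℚ (Fin 2 → E)),
    (∀ i j, B2 ξ (emb (β (.inl i))) (emb (β (.inl j))) = 0) ∧
    (∀ i j, B2 ξ (emb (β (.inr i))) (emb (β (.inr j))) = 0) ∧
    ∀ i j, B2 ξ (emb (β (.inl i))) (emb (β (.inr j))) = if i = j then Real.pi * I else 0 := by
  let b : (Fin 2 → E) →ₗ[ℚ] (Fin 2 → E) →ₗ[ℚ] ℚ :=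
    LinearMap.mk₂ ℚ (fun u v => Algebra.trace ℚ E (Hm ξ u v))
      (fun _ _ _ => by rw [← map_add]; congr 1; simp only [Hm, Pi.add_apply, Fin.sum_univ_two, Fin.isValue]; ring)
      (fun _ _ _ => by rw [← map_smul]; congr 1; simp only [Hm, Pi.smul_apply, Rat.smul_def, Fin.sum_univ_two, Fin.isValue, smul_add]; ring)
      (fun _ _ _ => by rw [← map_add]; congr 1; simp only [Hm, cc, Pi.add_apply, map_add, Fin.sum_univ_two, Fin.isValue]; ring)
      (fun _ _ _ => by rw [← map_smul]; congr 1; simp only [Hm, cc, Pi.smul_apply, Rat.smul_def, map_mul, map_ratCast, Fin.sum_univ_two, Fin.isValue, smul_add]; ring)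
  have hb : ∀ u v, B2 ξ (emb u) (emb v) = Real.pi * I * b u v := B2_emb ξ
  obtain ⟨n, β, h1, h2, h3⟩ := symp b
    (fun v => by simpa only [B2_alt h, mul_eq_zero, ofReal_eq_zero, Real.pi_ne_zero, I_ne_zero, or_self, Rat.cast_eq_zero, false_or] using (hb v v).symm)
    (fun v hv => by
      funext k
      by_contra hk
      have h1 : Hm ξ v (Pi.single k (cc (ξ k * v k)⁻¹)) = 1 := by
        rw [Hm, Finset.sum_eq_single k (fun l _ hl => by simp [hl, cc]) (by simp)]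
        simp only [Pi.single_eq_same, cc, IsCMField.complexConj_apply_apply]
        exact mul_inv_cancel₀ (mul_ne_zero (h0 k) hk)
      have h2 : Algebra.trace ℚ E (Hm ξ v _) = 0 := hv (Pi.single k (cc (ξ k * v k)⁻¹))
      rw [h1, ← (algebraMap ℚ E).map_one, Algebra.trace_algebraMap] at h2
      simp [(finrank_pos (R := ℚ) (M := E)).ne'] at h2)
  refine ⟨n, β, fun i j => ?_, fun i j => ?_, fun i j => ?_⟩
  · simp [hb, h1]
  · simp [hb, h2]
  · rw [hb, h3]; split_ifs <;> simp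

end GA

variable {E : Type} [Field E] [NumberField E] [IsCMField E] {σ : Type} [Fintype σ] [DecidableEq σ]

namespace Sig

variable (T : Sig E σ)

/-- The frame of `F 0`. -/
noncomputable def g0 : Fin 2 × (T.Ψ ⊕ σ) → VV E
  | (k, .inl φ) => sv (conjugate φ.1) (Pi.single k 1)
  | (k, .inr c) =>
    if k = 0 then sv (T.ab c) ![0, 1] else sv (conjugate (T.ab c)) ![T.ab c (T.ξ 1), 0]

/-- The derivative of the frame. -/
noncomputable def g1 (a : σ) : Fin 2 × (T.Ψ ⊕ σ) → VV E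
  | (_, .inl _) => 0
  | (k, .inr c) => if a = c then
      if k = 0 then sv (T.ab c) ![1, 0] else sv (conjugate (T.ab c)) ![0, -T.ab c (T.ξ 0)]
    else 0

/-- The flat frame at the definite place. -/
noncomputable def d (k : Fin 2) : VV E := sv T.ψ (Pi.single k 1)

/-- `D` is the family attached to `T`. -/
structure IsDat [Fintype T.Ψ] {n : ℕ} (D : Dat (VV E) n (Fin 2 × (T.Ψ ⊕ σ)) σ) : Prop where
  B : D.B = B2 T.ξ
  X : D.X = T.X
  F : D.F = T.F
  g0 : D.g0 = T.g0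
  g1 : D.g1 = T.g1
  d : D.d = T.d
  R : Rq D.e = R2 E

/-! ### Block GA -/

section

theorem X_open : IsOpen T.X := by
  rw [X, Set.ofPred_forall]
  exact isOpen_iInter_of_finite fun c => isOpen_lt (by fun_prop) continuous_const

theorem X_convex : Convex ℝ T.X := by
  rw [X, Set.ofPred_forall]
  refine convex_iInter fun c => ?_
  have : {x : σ → ℂ | (T.ab c (T.ξ 0)).im * ‖x c‖ ^ 2 < -(T.ab c (T.ξ 1)).im} =
      (LinearMap.proj (R := ℝ) (φ := fun _ : σ => ℂ) c) ⁻¹'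
        Metric.ball 0 √(-(T.ab c (T.ξ 1)).im / (T.ab c (T.ξ 0)).im) := by
    ext x
    simp only [Set.mem_ofPred_eq, Set.mem_preimage, LinearMap.proj_apply, mem_ball_zero_iff]
    rw [Real.lt_sqrt (norm_nonneg _), lt_div_iff₀' (T.pos0 c)]
  rw [this]
  exact (convex_ball _ _).linear_preimage _

theorem F_iso {x : σ → ℂ} {u v : VV E} (hu : u ∈ T.F x) (hv : v ∈ T.F x) : B2 T.ξ u v = 0 := by
  rw [B2_apply, Bx_apply, Bx_apply, ← mul_add, ← Finset.sum_add_distrib]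
  refine mul_eq_zero_of_right _ (Finset.sum_eq_zero fun φ _ => ?_)
  rcases T.tot φ with h | h | ⟨c, rfl | rfl⟩
  · simp [hu.1 _ φ h]
  · simp [hv.1 _ _ h]
  · linear_combination T.ab c (T.ξ 0) * v 0 (conjugate (T.ab c)) * (hu.2 c).1 +
      u 1 (T.ab c) * (hv.2 c).2
  · rw [conj_conj, conj_imag (T.imag 0), conj_imag (T.imag 1)]
    linear_combination -T.ab c (T.ξ 0) * u 0 (conjugate (T.ab c)) * (hv.2 c).1 -
      v 1 (T.ab c) * (hu.2 c).2

theorem im_ne (k : Fin 2) (φ : E →+* ℂ) : (φ (T.ξ k)).im ≠ 0 := by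
  have h0 : ∀ c, (T.ab c (T.ξ k)).im ≠ 0 := fun c => by
    fin_cases k
    exacts [(T.pos0 c).ne', (T.neg1 c).ne]
  rcases T.tot φ with h | h | ⟨c, rfl | rfl⟩
  · exact (T.pos φ h k).ne'
  · simpa only [ne_eq, conjugate_coe_eq, conj_im, neg_eq_zero] using (T.pos _ h k).ne'
  · exact h0 c
  · simpa only [conjugate_coe_eq, conj_im, ne_eq, neg_eq_zero] using h0 c

theorem F_term {x : σ → ℂ} (hx : x ∈ T.X) {v : VV E} (hv : v ∈ T.F x) (φ : E →+* ℂ) :
    ∑ k, (φ (T.ξ k)).im * ‖v k φ‖ ^ 2 ≤ 0 ∧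
      (∑ k, (φ (T.ξ k)).im * ‖v k φ‖ ^ 2 = 0 → ∀ k, v k φ = 0) := by
  have key : ∀ (r : ℝ) (z : ℂ), r < 0 → ∑ k, (φ (T.ξ k)).im * ‖v k φ‖ ^ 2 = r * ‖z‖ ^ 2 →
      (z = 0 → ∀ k, v k φ = 0) → ∑ k, (φ (T.ξ k)).im * ‖v k φ‖ ^ 2 ≤ 0 ∧
      (∑ k, (φ (T.ξ k)).im * ‖v k φ‖ ^ 2 = 0 → ∀ k, v k φ = 0) := fun r z hr h hz => by
    rw [h]
    exact ⟨mul_nonpos_of_nonpos_of_nonneg hr.le (sq_nonneg _), fun h => hz (by simpa [hr.ne] using h)⟩
  rcases T.tot φ with h | h | ⟨c, rfl | rfl⟩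
  · simp [hv.1 _ φ h]
  · have hn : ∀ k ∈ Finset.univ, (φ (T.ξ k)).im * ‖v k φ‖ ^ 2 ≤ 0 := fun k _ =>
      mul_nonpos_of_nonpos_of_nonneg (by simpa only [conjugate_coe_eq, conj_im, Left.nonneg_neg_iff] using (T.pos _ h k).le) (sq_nonneg _)
    refine ⟨Finset.sum_nonpos hn, fun h0 k => ?_⟩
    simpa [T.im_ne] using (Finset.sum_eq_zero_iff_of_nonpos hn).1 h0 k (Finset.mem_univ k)
  · refine key ((T.ab c (T.ξ 0)).im * ‖x c‖ ^ 2 + (T.ab c (T.ξ 1)).im) (v 1 (T.ab c))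
      (by linarith [hx c]) ?_ fun h k => ?_
    · rw [Fin.sum_univ_two, (hv.2 c).1, norm_mul]; ring
    · fin_cases k
      exacts [by simp [(hv.2 c).1, h], h]
  · have h1 := T.neg1 c
    have h2 : v 1 (conjugate (T.ab c)) = -(x c * ((T.ab c (T.ξ 0)).im / (T.ab c (T.ξ 1)).im : ℝ) *
        v 0 (conjugate (T.ab c))) := by
      have h3 := (hv.2 c).2
      rw [imag_eq (T.imag 0), imag_eq (T.imag 1)] at h3
      have h4 : ((T.ab c (T.ξ 1)).im : ℂ) ≠ 0 := ofReal_ne_zero.2 h1.ne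
      push_cast
      field_simp
      linear_combination -I * h3 + (((T.ab c (T.ξ 1)).im : ℂ) * v 1 (conjugate (T.ab c)) +
        x c * (T.ab c (T.ξ 0)).im * v 0 (conjugate (T.ab c))) * I_mul_I
    refine key (-((T.ab c (T.ξ 0)).im / (T.ab c (T.ξ 1)).im) *
      ((T.ab c (T.ξ 0)).im * ‖x c‖ ^ 2 + (T.ab c (T.ξ 1)).im)) (v 0 (conjugate (T.ab c)))
      (mul_neg_of_pos_of_neg (neg_pos.2 (div_neg_of_pos_of_neg (T.pos0 c) h1))
        (by linarith only [hx c])) ?_ fun h k => ?_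
    · rw [Fin.sum_univ_two, h2, norm_neg, norm_mul, norm_mul, cnj_im, cnj_im, mul_pow, mul_pow,
        norm_real, Real.norm_eq_abs, sq_abs]
      field_simp [h1.ne]
      ring
    · fin_cases k
      exacts [h, by simp [h2, h]]

theorem F_pos {x : σ → ℂ} (hx : x ∈ T.X) {v : VV E} (hv : v ∈ T.F x) (h0 : v ≠ 0) :
    0 < (B2 T.ξ v fun k φ => star (v k (conjugate φ))).re := by
  have h1 : B2 T.ξ v (fun k φ => star (v k (conjugate φ))) =
      (-(Real.pi * ∑ φ : E →+* ℂ, ∑ k, (φ (T.ξ k)).im * ‖v k φ‖ ^ 2) : ℝ) := by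
    rw [B2_apply, Bx_apply, Bx_apply, ← mul_add, ← Finset.sum_add_distrib]
    push_cast
    rw [mul_assoc, Finset.mul_sum, ← mul_neg, ← Finset.sum_neg_distrib]
    congr 1
    refine Finset.sum_congr rfl fun φ _ => ?_
    simp only [conj_conj, Fin.sum_univ_two, mul_assoc, RCLike.star_def, mul_conj']
    linear_combination I * (‖v 0 φ‖ : ℂ) ^ 2 * imag_eq (T.imag 0) φ +
      I * (‖v 1 φ‖ : ℂ) ^ 2 * imag_eq (T.imag 1) φ + (((φ (T.ξ 0)).im : ℂ) * (‖v 0 φ‖ : ℂ) ^ 2 +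
        (φ (T.ξ 1)).im * (‖v 1 φ‖ : ℂ) ^ 2) * I_mul_I
  have hn := fun φ (_ : φ ∈ Finset.univ) => (T.F_term hx hv φ).1
  rw [h1, ofReal_re, neg_pos]
  refine mul_neg_of_pos_of_neg Real.pi_pos (lt_of_le_of_ne (Finset.sum_nonpos hn) fun h => h0 ?_)
  funext k φ
  exact (T.F_term hx hv φ).2 ((Finset.sum_eq_zero_iff_of_nonpos hn).1 h φ (Finset.mem_univ _)) k

theorem F_ext {x : σ → ℂ} {v : VV E} (hv : v ∈ T.F x)
    (h : ∀ k φ, (φ (T.ξ k)).im < 0 → v k φ = 0) : v = 0 := by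
  funext k φ
  rcases T.tot φ with h' | h' | ⟨c, rfl | rfl⟩
  · exact hv.1 k φ h'
  · exact h k φ (by simpa only [conjugate_coe_eq, conj_im, Left.neg_pos_iff] using T.pos _ h' k)
  · fin_cases k
    exacts [by simp [(hv.2 c).1, h 1 _ (T.neg1 c)], h 1 _ (T.neg1 c)]
  · have h2 := h 0 (conjugate (T.ab c)) (by simpa only [Fin.isValue, conjugate_coe_eq, conj_im, Left.neg_neg_iff] using T.pos0 c)
    have h3 : T.ab c (T.ξ 1) ≠ 0 := fun h => (T.neg1 c).ne (by simp [h])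
    fin_cases k
    exacts [h2, by simpa only [Fin.mk_one, Fin.isValue, Pi.zero_apply, h2, mul_zero, add_zero, mul_eq_zero, h3, false_or] using (hv.2 c).2]

theorem SU.iso {T : Sig E σ} {γ : Matrix (Fin 2) (Fin 2) E} (h : T.SU γ) (u v : VV E) :
    B2 T.ξ (act γ u) (act γ v) = B2 T.ξ u v := by
  refine B2_act (fun i j => ?_) u v
  have := h.2 (Pi.single i 1) (Pi.single j 1)
  rw [mulVec_single_one, mulVec_single_one] at this
  refine this.trans ?_
  fin_cases i <;> fin_cases j <;> simp [Hm, cc]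

theorem gen_l (x : σ → ℂ) (k : Fin 2) (φ : T.Ψ) :
    gen T.g0 T.g1 x (k, .inl φ) = sv (conjugate φ.1) (Pi.single k 1) := by
  simp only [gen, g0, g1, smul_zero, Finset.sum_const_zero, add_zero]

theorem gen_0 (x : σ → ℂ) (c : σ) : gen T.g0 T.g1 x (0, .inr c) = sv (T.ab c) ![x c, 1] := by
  funext k φ
  fin_cases k <;> simp only [gen, g0, Fin.isValue, ↓ reduceIte, g1, smul_ite, smul_zero, Finset.sum_ite_eq', Finset.mem_univ, Fin.zero_eta, Pi.add_apply, Pi.smul_apply, sv, cons_val_zero, ite_self, smul_eq_mul, mul_ite, mul_one, mul_zero, zero_add, Fin.mk_one, cons_val_one, cons_val_fin_one, add_zero]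

theorem gen_1 (x : σ → ℂ) (c : σ) : gen T.g0 T.g1 x (1, .inr c) =
    sv (conjugate (T.ab c)) ![T.ab c (T.ξ 1), -(x c * T.ab c (T.ξ 0))] := by
  funext k φ
  fin_cases k <;> simp only [gen, g0, Fin.isValue, one_ne_zero, ↓ reduceIte, g1, smul_ite, smul_zero, Finset.sum_ite_eq', Finset.mem_univ, Fin.zero_eta, Pi.add_apply, Pi.smul_apply, sv, cons_val_zero, ite_self, smul_eq_mul, mul_zero, add_zero, Fin.mk_one, cons_val_one, cons_val_fin_one, mul_ite, mul_neg, zero_add]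

theorem ne_ab {φ : E →+* ℂ} (h : φ ∈ T.Ψ) (c : σ) : φ ≠ T.ab c := by
  rintro rfl
  exact (T.neg1 c).not_gt (T.pos _ h 1)

theorem ne_conj {φ φ' : E →+* ℂ} (h : 0 < (φ (T.ξ 0)).im) (h' : 0 < (φ' (T.ξ 0)).im) :
    φ ≠ conjugate φ' := by
  rintro rfl
  rw [cnj_im] at h
  linarith

/-- The position of the leading coordinate of the frame. -/
noncomputable def lead : Fin 2 × (T.Ψ ⊕ σ) → Fin 2 × (E →+* ℂ)
  | (k, .inl φ) => (k, conjugate φ.1)
  | (k, .inr c) => if k = 0 then (1, T.ab c) else (0, conjugate (T.ab c))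

theorem lead_neg (q : Fin 2 × (T.Ψ ⊕ σ)) : ((T.lead q).2 (T.ξ (T.lead q).1)).im < 0 := by
  obtain ⟨k, φ | c⟩ := q
  · simpa only [lead, conjugate_coe_eq, conj_im, Left.neg_neg_iff] using T.pos _ φ.2 k
  · fin_cases k
    exacts [T.neg1 c, by simpa only [lead, Fin.mk_one, Fin.isValue, one_ne_zero, ↓ reduceIte, conjugate_coe_eq, conj_im, Left.neg_neg_iff] using T.pos0 c]

theorem lead_surj {k : Fin 2} {φ : E →+* ℂ} (h : (φ (T.ξ k)).im < 0) : ∃ q, T.lead q = (k, φ) := by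
  rcases T.tot φ with h' | h' | ⟨c, rfl | rfl⟩
  · exact absurd h (T.pos φ h' k).not_gt
  · exact ⟨(k, .inl ⟨_, h'⟩), by simp [lead]⟩
  · fin_cases k
    exacts [absurd h (T.pos0 c).not_gt, ⟨(0, .inr c), rfl⟩]
  · fin_cases k
    exacts [⟨(1, .inr c), rfl⟩, absurd (T.neg1 c) (by simpa only [Fin.isValue, not_lt, Fin.mk_one, conjugate_coe_eq, conj_im, Left.neg_nonpos_iff] using h.le)]

variable [Fintype T.Ψ]

theorem gen_mem (x : σ → ℂ) (j : Fin 2 × (T.Ψ ⊕ σ)) : gen T.g0 T.g1 x j ∈ T.F x := by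
  have hi := (involutive_conjugate E).injective
  obtain ⟨k, φ | c⟩ := j
  · rw [gen_l]
    exact ⟨fun l ψ h => if_neg (T.ne_conj (T.pos _ h 0) (T.pos _ φ.2 0)), fun c => by
      simp only [sv, T.ne_conj (T.pos0 c) (T.pos _ φ.2 0), ↓ reduceIte, mul_zero, Fin.isValue, hi.eq_iff, (T.ne_ab φ.2 c).symm, add_zero, and_self]⟩
  · fin_cases k
    · refine (T.gen_0 x c).symm ▸ ⟨fun l ψ h => if_neg (T.ne_ab h c), fun a => ?_⟩
      by_cases h : a = c <;> simp only [sv, h, ↓ reduceIte, Fin.isValue, cons_val_zero, cons_val_one, cons_val_fin_one, mul_one, (T.ne_conj (T.pos0 c) (T.pos0 _)).symm, mul_zero, add_zero, and_self, T.ne.eq_iff]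
    · refine (T.gen_1 x c).symm ▸
        ⟨fun l ψ h => if_neg (T.ne_conj (T.pos _ h 0) (T.pos0 c)), fun a => ?_⟩
      by_cases h : a = c <;> simp only [sv, h, T.ne_conj (T.pos0 _) (T.pos0 c), ↓ reduceIte, mul_zero, Fin.isValue, cons_val_one, cons_val_fin_one, mul_neg, cons_val_zero, true_and, hi.eq_iff, T.ne.eq_iff, add_zero, and_self]
      ring

theorem gen_lead (x : σ → ℂ) (j q : Fin 2 × (T.Ψ ⊕ σ)) :
    gen T.g0 T.g1 x j (T.lead q).1 (T.lead q).2 = 0 ↔ j ≠ q := by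
  have hi := (involutive_conjugate E).injective
  have h1 : ∀ c, T.ab c (T.ξ 1) ≠ 0 := fun c h => (T.neg1 c).ne (by simp [h])
  have h2 := fun c c' => T.ne_conj (T.pos0 c) (T.pos0 c')
  have h3 := fun c (φ : T.Ψ) => T.ne_conj (T.pos0 c) (T.pos _ φ.2 0)
  have h4 := fun c (φ : T.Ψ) => T.ne_ab φ.2 c
  obtain ⟨k, φ | c⟩ := j <;> obtain ⟨l, ψ | a⟩ := q <;> fin_cases k <;> fin_cases l <;>
    simp [gen_l, gen_0, gen_1, lead, sv, hi.eq_iff, T.ne.eq_iff, (h1 _).symm, h2, h3, h4, (h2 _ _).symm,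
      (h3 _ _).symm, (h4 _ _).symm, Subtype.coe_inj, eq_comm]

theorem gen_sum (x : σ → ℂ) (c : Fin 2 × (T.Ψ ⊕ σ) → ℂ) (q : Fin 2 × (T.Ψ ⊕ σ)) :
    (∑ j, c j • gen T.g0 T.g1 x j) (T.lead q).1 (T.lead q).2 =
      c q * gen T.g0 T.g1 x q (T.lead q).1 (T.lead q).2 := by
  simp only [Finset.sum_apply, Pi.smul_apply, smul_eq_mul]
  exact Finset.sum_eq_single q (fun j _ h => by rw [(T.gen_lead x j q).2 h, mul_zero]) (by simp only [Finset.mem_univ, not_true_eq_false, mul_eq_zero, IsEmpty.forall_iff])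

theorem card_frame : Fintype.card (Fin 2 × (T.Ψ ⊕ σ)) = finrank ℚ E := by
  classical
  let J := {p : Fin 2 × (E →+* ℂ) // (p.2 (T.ξ p.1)).im < 0}
  have a0 : Fintype.card (Fin 2 × (T.Ψ ⊕ σ)) = Fintype.card J :=
    Fintype.card_of_bijective (f := fun q => ⟨T.lead q, T.lead_neg q⟩)
      ⟨fun q q' h => by
        by_contra h'
        have := (T.gen_lead 0 q q').2 h'
        rw [← show T.lead q = T.lead q' from congrArg Subtype.val h] at this
        exact (T.gen_lead 0 q q).1 this rfl,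
      fun p => (T.lead_surj p.2).imp fun _ h => Subtype.ext h⟩
  have a1 := Fintype.card_subtype_compl fun p : Fin 2 × (E →+* ℂ) => (p.2 (T.ξ p.1)).im < 0
  have a2 := Fintype.card_subtype_le fun p : Fin 2 × (E →+* ℂ) => (p.2 (T.ξ p.1)).im < 0
  have a3 : Fintype.card {p : Fin 2 × (E →+* ℂ) // ¬(p.2 (T.ξ p.1)).im < 0} = Fintype.card J :=
    Fintype.card_congr (Equiv.subtypeEquiv
      ((Equiv.refl _).prodCongr (involutive_conjugate E).toPerm) fun p => by
        simp only [not_lt, le_iff_lt_or_eq, (T.im_ne p.1 p.2).symm, or_false, Equiv.prodCongr_apply, Equiv.coe_refl, Function.Involutive.coe_toPerm, Prod.map_snd, Prod.map_fst, id_eq, conjugate_coe_eq, conj_im, Left.neg_neg_iff])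
  rw [Fintype.card_prod, Fintype.card_fin, Embeddings.card] at a1 a2
  change Fintype.card J ≤ _ at a2
  rw [a3] at a1
  change _ = _ - Fintype.card J at a1
  omega

omit [Fintype T.Ψ] in
theorem tr_act {ι : Type} [Fintype ι] (β : Basis ι ℚ (Fin 2 → E)) {M : ℕ} {F F' : Submodule ℂ (VV E)}
    {γ : Matrix (Fin 2) (Fin 2) E} (h : T.SU γ) (hF : ∀ ν ∈ F, act γ ν ∈ F')
    (hm : ∀ i, ∃ m : ι → ℤ, γ *ᵥ β i - β i = ∑ j, ((M : ℤ) * m j) • β j) :
    Tr (B2 T.ξ) (embB β) T.d M F F' (act γ) where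
  iso := h.iso
  map := hF
  cong y hy := by
    choose m hm using hm
    choose q hq using hy
    refine ⟨∑ j, ((∑ i, q i * m i j : ℤ) : ℂ) • embB β j, fun j => ⟨_, congrFun
      ((embB β).repr_sum_self _) j⟩, ?_⟩
    have h1 : ∀ i, act γ (embB β i) = embB β i + ∑ j, ((M : ℂ) * m i j) • embB β j := fun i => by
      have := emb_sum (fun j => ((M : ℤ) * m i j : ℤ)) β
      simp only [Int.cast_smul_eq_zsmul, ← hm] at this
      simp only [embB_coe, act_emb]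
      push_cast at this
      rw [← this]
      funext k φ
      simp only [emb, Pi.add_apply, Pi.sub_apply, map_sub, add_sub_cancel]
    rw [← (embB β).sum_repr y]
    simp only [map_sum, map_smul, h1, hq, smul_add, Finset.sum_add_distrib, Finset.smul_sum,
      smul_smul, Int.cast_sum, Finset.sum_smul, Int.cast_mul]
    rw [Finset.sum_comm]
    congr 1
    exact Finset.sum_congr rfl fun _ _ => Finset.sum_congr rfl fun _ _ => by ring_nf
  det := ⟨(γ.map T.ψ)ᵀ, by rw [det_transpose, ← RingHom.mapMatrix_apply, ← RingHom.map_det, h.1,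
    map_one], fun k => by
      rw [d, act_sv]
      funext l φ
      fin_cases k <;> fin_cases l <;> simp [d, sv]⟩

end

/-- `symp` for the form `Tr (Hm ξ u v)` on `Fin 2 → E` gives a basis `β`; the `emb (β i)` form a
basis `e` of `VV E` with `Rq e = R2 E` and `cj e y k φ = star (y k (conjugate φ))`;
`B2 ξ v (cj e v) = π i ∑ φ (ξ k) ‖v k φ‖ ^ 2`; `Sig.coc` with `act γ`. -/
theorem exists_dat [Fintype T.Ψ] :
    ∃ (n : ℕ) (D : Dat (VV E) n (Fin 2 × (T.Ψ ⊕ σ)) σ), T.IsDat D := by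
  classical
  obtain ⟨n, β, h1, h2, h3⟩ := exists_symp T.imag fun k h => T.im_ne k T.ψ (by simp [h])
  have h0 := fun x q => mt (T.gen_lead x q q).1 (not_not.2 rfl)
  refine ⟨n, ⟨B2 T.ξ, embB β, ⟨B2_alt T.imag, by simpa only [embB_coe] using h1,
    by simpa only [embB_coe] using h2, by simpa only [embB_coe] using h3⟩, T.X, T.X_open,
    T.X_convex, T.g0, T.g1, T.F, ?_, fun x _ => ?_, fun x _ => ?_,
    fun x _ u hu v hv => T.F_iso hu hv, fun x hx v hv h => ?_, T.d, fun M hM => ?_⟩,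
    rfl, rfl, rfl, rfl, rfl, rfl, embB_Rq β⟩
  · have := finrank_eq_card_basis β
    simp only [Module.finrank_pi_fintype, Fintype.card_sum, Fintype.card_fin, Finset.sum_const,
      Finset.card_univ, smul_eq_mul] at this
    rw [card_frame]
    omega
  · refine le_antisymm (fun v h => ?_)
      (Submodule.span_le.2 (by rintro _ ⟨p, rfl⟩; exact T.gen_mem x p))
    refine (Submodule.mem_span_range_iff_exists_fun ℂ).2 ⟨fun q => v (T.lead q).1 (T.lead q).2 /
      gen T.g0 T.g1 x q (T.lead q).1 (T.lead q).2, sub_eq_zero.1 (T.F_ext (Submodule.sub_mem _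
        (Submodule.sum_mem _ fun p _ => Submodule.smul_mem _ _ (T.gen_mem x p)) h) fun k φ h => ?_)⟩
    obtain ⟨q, hq⟩ := T.lead_surj h
    obtain ⟨rfl, rfl⟩ := Prod.ext_iff.1 hq
    exact sub_eq_zero.2 ((T.gen_sum x _ q).trans (div_mul_cancel₀ _ (h0 x q)))
  · refine Fintype.linearIndependent_iff.2 fun c h q => ?_
    have := T.gen_sum x c q
    rw [h] at this
    exact (mul_eq_zero.1 this.symm).resolve_right (h0 x q)
  · rw [embB_cj]
    exact T.F_pos hx hv h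
  · obtain ⟨K, a, b, h⟩ := T.coc β hM
    refine ⟨K, a, b, fun x hx => ?_⟩
    obtain ⟨x', hx', γ, a, b, c⟩ := h x hx
    exact ⟨x', hx', _, T.tr_act β a b c⟩

/-! ### Block GB -/

theorem gb_gen (x : σ → ℂ) (c : σ) : gen T.g0 T.g1 x (0, .inr c) = sv (T.ab c) ![x c, 1] ∧
    gen T.g0 T.g1 x (1, .inr c) =
      sv (conjugate (T.ab c)) ![T.ab c (T.ξ 1), -(x c * T.ab c (T.ξ 0))] := by
  constructor <;> funext k φ <;> fin_cases k <;> simp only [gen, g0, Fin.isValue, ↓ reduceIte, g1, smul_ite, smul_zero, Finset.sum_ite_eq', Finset.mem_univ, Fin.zero_eta, Pi.add_apply, Pi.smul_apply, sv, cons_val_zero, ite_self, smul_eq_mul, mul_ite, mul_one, mul_zero, zero_add, Fin.mk_one, cons_val_one, cons_val_fin_one, add_zero, one_ne_zero, mul_neg]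

theorem gb_pi : (Real.pi : ℂ) * I ≠ 0 := mul_ne_zero (ofReal_ne_zero.2 Real.pi_ne_zero) I_ne_zero

omit [Fintype σ] [DecidableEq σ] in
theorem gb_n : (∀ a b, conjugate (T.ab a) ≠ T.ab b) ∧
    (∀ a b, conjugate (T.ab a) = conjugate (T.ab b) ↔ a = b) ∧
    (∀ φ : E →+* ℂ, conjugate (conjugate φ) = φ) ∧
    ∀ (φ : E →+* ℂ) k, conjugate φ (T.ξ k) = -φ (T.ξ k) :=
  ⟨fun a b => (T.gb_ne T.mem b a).2.2.2.symm, fun _ _ => star_inj.trans T.ne.eq_iff,
    fun φ => star_star φ, fun φ k => by rw [conj_eq_cc, T.imag, map_neg]⟩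

theorem gb_vec (y : σ → ℂ) (a : σ) (e f : Fin 2 → ℂ) (j : Fin 2 × (T.Ψ ⊕ σ)) :
    (2 * (Real.pi * I) * ((e 0 - y a * e 1) *
      (T.ab a (T.ξ 1) * f 1 + y a * T.ab a (T.ξ 0) * f 0))) • T.g1 a j -
      (2 * B2 T.ξ (gen T.g0 T.g1 y j) (sv (T.ab a) e)) • sv (conjugate (T.ab a)) f -
      (2 * B2 T.ξ (gen T.g0 T.g1 y j) (sv (conjugate (T.ab a)) f)) • sv (T.ab a) e ∈ T.F y := by
  classical
  obtain ⟨n1, n2, n3, cj⟩ := T.gb_n
  have lin : ∀ (φ : E →+* ℂ) (r s : ℂ) (a b : Fin 2 → ℂ),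
      r • sv φ a - s • sv φ b = sv φ fun k => r * a k - s * b k := fun φ r s a b => by
    funext k φ'
    simp only [sv, Pi.sub_apply, Pi.smul_apply, smul_eq_mul]
    split_ifs <;> simp
  obtain ⟨k, φ | c⟩ := j
  · have : gen T.g0 T.g1 y (k, .inl φ) = sv (conjugate φ.1) (Pi.single k 1) := by
      simp only [gen, g0, g1, smul_zero, Finset.sum_const_zero, add_zero]
    simp only [Fin.isValue, g1, smul_zero, this, gb_B, n3, (T.gb_ne φ.2 a a).1, ↓ reduceIte, mul_zero, zero_smul, sub_self, (T.gb_ne φ.2 a a).2.1, zero_mem]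
  · by_cases h : a = c
    · subst h
      obtain rfl | rfl : k = 0 ∨ k = 1 := by omega
      · simp only [(T.gb_gen y a).1, gb_B, g1, if_true, if_neg (n1 a a), mul_zero, zero_smul,
          sub_zero, lin]
        refine T.gb_mem0 ?_
        simp
        ring
      · simp only [(T.gb_gen y a).2, gb_B, g1, if_true, n3, if_neg (n1 a a).symm, mul_zero,
          zero_smul, sub_zero, one_ne_zero, if_false, lin, cj]
        refine T.gb_mem1 ?_
        simp only [Fin.isValue, cons_val_one, cons_val_fin_one, mul_neg, cons_val_zero, neg_mul, neg_neg, mul_zero, zero_sub]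
        ring
    · obtain rfl | rfl : k = 0 ∨ k = 1 := by omega
      · simp only [Fin.isValue, g1, h, ↓ reduceIte, smul_zero, (T.gb_gen y c).1, gb_B, n1, mul_zero, zero_smul, sub_self, n2, Ne.symm h, zero_mem]
      · simp only [Fin.isValue, g1, h, ↓ reduceIte, smul_zero, (T.gb_gen y c).2, gb_B, n3, T.ne.eq_iff, Ne.symm h, mul_zero, zero_smul, sub_self, (n1 a c).symm, zero_mem]

omit [Fintype σ] in
theorem gb_tab {x : σ → ℂ} {e f : σ → Fin 2 → ℂ} (he' : ∀ c, e c 0 ≠ x c * e c 1)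
    (hf' : ∀ c, T.ab c (T.ξ 1) * f c 1 + x c * T.ab c (T.ξ 0) * f c 0 ≠ 0) (a b : σ) :
    B2 T.ξ (sv (T.ab a) ![x a, 1]) (sv (T.ab b) (e b)) *
      B2 T.ξ (sv (conjugate (T.ab a)) ![T.ab a (T.ξ 1), -(x a * T.ab a (T.ξ 0))])
        (sv (conjugate (T.ab b)) (f b)) +
      B2 T.ξ (sv (T.ab a) ![x a, 1]) (sv (conjugate (T.ab b)) (f b)) *
      B2 T.ξ (sv (conjugate (T.ab a)) ![T.ab a (T.ξ 1), -(x a * T.ab a (T.ξ 0))])
        (sv (T.ab b) (e b)) = 0 ↔ a ≠ b := by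
  obtain ⟨n1, n2, n3, cj⟩ := T.gb_n
  have pi0 := gb_pi
  have x0 : ∀ c, T.ab c (T.ξ 0) ≠ 0 := fun c h => by simpa [h] using T.pos0 c
  have x1 : ∀ c, T.ab c (T.ξ 1) ≠ 0 := fun c h => by simpa [h] using T.neg1 c
  simp only [gb_B, n3, if_neg (n1 a b), zero_mul, zero_add, n2, T.ne.eq_iff, cj]
  by_cases h : a = b
  · subst h
    simp only [if_true, ne_eq, not_true_eq_false, iff_false, cons_val_zero, cons_val_one]
    refine mul_ne_zero (mul_ne_zero pi0 fun h => hf' a ?_) (mul_ne_zero pi0 fun h =>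
      mul_ne_zero (mul_ne_zero (x0 a) (x1 a)) (sub_ne_zero.2 (he' a)) ?_)
    · linear_combination h
    · linear_combination -h
  · simp [h]

/-- `Sig.cm`.  With `ν a x = gen x (0, inr a)`, `ν' a x = gen x (1, inr a)` take
`ρ a x = 2 B (ν a x) (ε' a) * B (ε a) (ν' a x) / (π i ab a (ξ 0) ab a (ξ 1))`,
`κ k = sv (conjugate ψ) (Pi.single k 1)`. -/
theorem exists_pt [Fintype T.Ψ] {n : ℕ} {D : Dat (VV E) n (Fin 2 × (T.Ψ ⊕ σ)) σ} (hD : T.IsDat D)
    (A : Set σ) {p p' : (E →+* ℂ) → ℂ} (hp : p T.ψ ≠ 0) (hp' : p' T.ψ ≠ 0)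
    (hJ : Jay (T.typ A) p) (hJ' : Jay (T.typ Aᶜ) p') :
    ∃ α : ℂ, IsAlgebraic ℚ α ∧ α ≠ 0 ∧ Nonempty (Pt D (α * (p T.ψ * p' T.ψ))) := by
  classical
  obtain ⟨x, hx, S, H, H0, hH, h1, h2, u, M, α, hu, hM, hα, α0, hd⟩ := T.cm A hp hp' hJ hJ'
  choose e he he' using h1
  choose f hf hf' using h2
  obtain ⟨eB, eX, eF, e0, e1, ed, eR⟩ := hD
  obtain ⟨-, -, n3, cj⟩ := T.gb_n
  have pi0 := gb_pi
  refine ⟨α, hα, α0, ⟨{
    x := x
    mem := eX ▸ hx
    D := S
    G := H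
    ne := H0
    th := by rw [eB, eR, eF]; exact hH
    ε := fun c => sv (T.ab c) (e c)
    ε' := fun c => sv (conjugate (T.ab c)) (f c)
    ε_mem := he
    ε'_mem := hf
    ρ := fun c y => 2 * (Real.pi * I) * ((e c 0 - y c * e c 1) *
      (T.ab c (T.ξ 1) * f c 1 + y c * T.ab c (T.ξ 0) * f c 0))
    ρ_an := fun c y => by
      have : AnalyticAt ℂ (fun y : σ → ℂ => y c) y :=
        (ContinuousLinearMap.proj (R := ℂ) (φ := fun _ : σ => ℂ) c).analyticAt y
      exact analyticAt_const.mul ((analyticAt_const.sub (this.mul analyticAt_const)).mul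
        (analyticAt_const.add ((this.mul analyticAt_const).mul analyticAt_const)))
    ρ_ne := fun c => mul_ne_zero (mul_ne_zero two_ne_zero pi0)
      (mul_ne_zero (sub_ne_zero.2 (he' c)) (hf' c))
    vec := fun y _ a j => by rw [eB, eF, e0, e1]; exact T.gb_vec y a _ _ j
    δ := u
    δ_mem := hu
    m := M
    hm := fun k => by rw [ed, Fin.sum_univ_two]; exact hM k
    det := hd
    ν := fun c => sv (T.ab c) ![x c, 1]
    ν' := fun c => sv (conjugate (T.ab c)) ![T.ab c (T.ξ 1), -(x c * T.ab c (T.ξ 0))]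
    ν_mem := fun c => eF ▸ T.gb_mem0 (by simp)
    ν'_mem := fun c => eF ▸ T.gb_mem1 (by simp only [Fin.isValue, cons_val_one, cons_val_fin_one, mul_neg, cons_val_zero]; ring)
    tab := eB ▸ T.gb_tab he' hf'
    κ := fun k => sv (conjugate T.ψ) (Pi.single k 1)
    κ_mem := fun k => eF ▸ T.gb_mem (fun h => by
        have := T.pos _ h 0
        rw [cj, neg_im] at this
        linarith only [T.pos _ T.mem 0, this])
      (fun c e => absurd (e ▸ n3 _).symm (T.gb_ne T.mem c c).2.1)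
      fun c e => absurd (star_injective e).symm (T.gb_ne T.mem c c).1
    tabκ := fun k l => ?_ }⟩⟩
  · have : ∀ k, T.ξ k ≠ 0 := fun k h => by simpa [h] using T.pos _ T.mem k
    simp only [eB, ed, d, gb_B, n3, if_true, cj]
    fin_cases k <;> fin_cases l <;> simp [pi0, this]

end Sig

end GPCW

end
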