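import Pool.Agent.Lib.SCV.Osgood

attribute [-instance] SubmoduleClass.module IntermediateField.module'
  IsPrincipalIdealRing.of_isSimpleRing TotallySeparatedSpace.t2Space SetLike.GradeZero.instSemiring
  CommMonTypeEquivalenceCommMon.commMonCommMonoid SetLike.GradeZero.instCommSemiring
  NonUnitalNonAssocRing.toAddCommGroup RightPreLieAlgebra.toModule
  IdemSemiring.toCanonicallyOrderedAdd LeftPreLieAlgebra.toModule ProperSMul.toContinuousSMul
  NonarchimedeanAddGroup.toIsTopologicalAddGroup Distrib.toAdd GrpTypeEquivalenceGrp.grpGroup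
  SetLike.GradeZero.instCommRing MonTypeEquivalenceMon.monMonoid IsTopologicalTorsor.toContinuousSMul
  NonarchimedeanRing.toIsTopologicalRing Valued.toUniformSpace bot_nonempty
  AddQuantale.instAddLeftMono Nontrivial.to_nonempty littleWedderburn IsAddCyclic.isAddCommutative
  instCoeTCOfCoe IdemSemiring.toMulLeftMono NonUnitalRing.toNonUnitalNonAssocRing
  LieRing.toAddCommGroup NonUnitalNormedCommRing.toNonUnitalSeminormedCommRing
  CStarAlgebra.toNonUnitalCStarAlgebra MulRingSeminormClass.toMonoidWithZeroHomClass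
  CoalgHomClass.toSemilinearMapClass SubalgebraClass.toAlgebra RingHomClass.toLinearMapClassNNRat
  SubmoduleClass.toNormedSpace SetLike.GradeZero.instRing Valued.isTopologicalDivisionRing
  Prod.instNonAssocSemiring NormedDivisionRing.toNormedRing IsOrderedMonoid.toMulLeftMono
  NonUnitalAlgHomClass.instLinearMapClass Zero.instNonempty LieAdmissibleRing.toNonUnitalNonAssocRing
  MulSemiringAction.toDistribMulAction top_nonempty Quantale.instMulLeftMono NumberField.to_charZero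
  IntermediateField.algebra' Action.FintypeCat.instMulActionObjFiniteOf
  Group.IsPerfect.subsingleton_of_isMulCommutative TestFunctionClass.toDFunLike
  Module.Invertible.instProjective instCoeHTCOfCoeHeadOfCoeOTC RCLike.innerProductSpace
  SeminormedRing.toNonUnitalSeminormedRing NonUnitalStarSubalgebra.nonUnitalCStarAlgebra
  ContDiffMapSupportedInClass.toDFunLike EuclideanDomain.toCommRing
  LieRinehartAlgebra.toIsScalarTower AddCommMonoidWithOne.toAddCommMonoid IdemSemiring.toSemiring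
  TopologicalSpace.instSecondCountableTopologyOfLindelofSpaceOfPseudoMetrizableSpace
  NonUnitalSemiring.toNonUnitalNonAssocSemiring AddQuantale.instAddRightMono
  SeminormedCommRing.toCommRing AddTorsor.nonempty One.instNonempty Algebra.IsFiniteSplit.instFree
  AddCommGroupWithOne.toAddGroupWithOne SemilinearIsometryClass.toSemilinearMapClass
  Quantale.instMulRightMono continuousSub_of_discreteTopology IsAzumaya.toProjective
  IsValuativeTopology.instIsTopologicalAddGroup AddCommGroupWithOne.toAddCommGroup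
  instCoeHTCTOfCoeTailOfCoeHTC FunLike.toDecidableEq
  PositiveLinearMap.instContinuousLinearMapClassComplexOfLinearMapClassOfOrderHomClass
  NonUnitalNormedCommRing.toNonUnitalCommRing NonAssocCommSemiring.toNonAssocSemiring
  instCoeTOfCoeDep NormedDivisionRing.toDivisionRing BooleanRing.toRing
  RingHomClass.toLinearMapClassRat AlgHom.instContinuousLinearMapClassOfAlgHomClass
  LinearOrderedCommMonoidWithZero.toPosMulStrictMono instNonUnitalAlgHomClassOfNonUnitalAlgEquivClass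
  instIsModuleTopology BooleanRing.toCommRing NonUnitalSeminormedRing.toPseudoMetricSpace
  LinearOrderedAddCommMonoidWithTop.toAddCommMonoid Bialgebra.toAlgebra
  CanonicallyOrderedAdd.toMulLeftMono IsFormallyReal.instIsReduced instSMulZeroClass
  LinearOrderedCommMonoidWithZero.toIsBotZeroClass Module.FaithfullyFlat.of_isIntegral_of_isDomain
  Torsor.toMulAction IsRightCancelMul.mulRightStrictMono_of_mulRightMono ConnectedSpace.toNonempty
  Algebra.IsQuadraticExtension.toFree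
  MeasureTheory.Measure.instRegularOfIsAddHaarMeasureOfCompactSpace
  CommRing.Pic.instFreeOfSubsingleton MulSemiringActionSemiHomClass.toDistribMulActionSemiHomClass
  IsStarProjection.instTrivialStarOfStarOrderedRing SubringClass.toNormedCommRing
  SemilinearIsometryClass.toContinuousSemilinearMapClass

section

/-! Heisenberg operators on entire functions; theta functions with algebraic jets. -/

open Complex Module

namespace GPCW

variable {V V' : Type} [NormedAddCommGroup V] [NormedSpace ℂ V] [FiniteDimensional ℂ V]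
  [NormedAddCommGroup V'] [NormedSpace ℂ V'] [FiniteDimensional ℂ V']

/-- Entire functions. -/
abbrev En (G : V → ℂ) : Prop := AnalyticOnNhd ℂ G Set.univ

/-- The left translation. -/
noncomputable def S (B : V →ₗ[ℂ] V →ₗ[ℂ] ℂ) (v : V) (G : V → ℂ) : V → ℂ :=
  fun y => exp (-B v y) * G (y + v)

/-- The infinitesimal right translation. -/
noncomputable def nab (B : V →ₗ[ℂ] V →ₗ[ℂ] ℂ) (u : V) (G : V → ℂ) : V → ℂ :=
  fun y => fderiv ℂ G y u - B y u * G y

/-- Words in the `nab`. -/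
noncomputable def nabl (B : V →ₗ[ℂ] V →ₗ[ℂ] ℂ) : List V → (V → ℂ) → V → ℂ
  | [], G => G
  | u :: l, G => nab B u (nabl B l G)

/-- Invariance under the right translations by `F`. -/
def Inv (B : V →ₗ[ℂ] V →ₗ[ℂ] ℂ) (F : Submodule ℂ V) (G : V → ℂ) : Prop :=
  ∀ ν ∈ F, ∀ y, G (y + ν) = exp (B y ν) * G y

/-- A rational structure. -/
structure Rt (B : V →ₗ[ℂ] V →ₗ[ℂ] ℂ) (R : AddSubgroup V) : Prop where
  alt : ∀ v, B v v = 0
  smul : ∀ (q : ℚ), ∀ r ∈ R, (q : ℂ) • r ∈ R
  rat : ∀ r ∈ R, ∀ r' ∈ R, ∃ q : ℚ, B r r' = Real.pi * I * q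

/-- Theta functions with algebraic jets at the rational points. -/
structure Th (B : V →ₗ[ℂ] V →ₗ[ℂ] ℂ) (R : AddSubgroup V) (F : Submodule ℂ V) (D : Set V)
    (G : V → ℂ) : Prop where
  en : En G
  inv : Inv B F G
  per : ∀ r ∈ R, ∃ M : ℕ, 0 < M ∧ S B ((M : ℂ) • r) G = G
  alg : ∀ r ∈ R, ∀ l : List V, (∀ u ∈ l, u ∈ D) → IsAlgebraic ℚ (nabl B l G r)

variable {B B' : V →ₗ[ℂ] V →ₗ[ℂ] ℂ} {R : AddSubgroup V} {F : Submodule ℂ V} {D : Set V}
  {G G' : V → ℂ}

/-! ### Block HA -/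

theorem ha_lin (L : V →ₗ[ℂ] ℂ) (y : V) : AnalyticAt ℂ (fun y => L y) y :=
  (LinearMap.toContinuousLinearMap L).analyticAt y

theorem ha_fd (L : V →ₗ[ℂ] ℂ) (y : V) :
    HasFDerivAt (fun y => L y) (LinearMap.toContinuousLinearMap L) y :=
  (LinearMap.toContinuousLinearMap L).hasFDerivAt

theorem ha_S (h : En G) (v y : V) : HasFDerivAt (S B v G)
    (exp (-B v y) • fderiv ℂ G (y + v) +
      G (y + v) • (exp (-B v y) • -LinearMap.toContinuousLinearMap (B v))) y :=
  ((ha_fd (B v) y).neg.cexp).mul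
    ((hasFDerivAt_comp_add_right v).2 (h (y + v) trivial).differentiableAt.hasFDerivAt)

theorem skew (h : ∀ v, B v v = 0) (u v : V) : B v u = -B u v := by
  have h1 := h (u + v)
  simp only [map_add, LinearMap.add_apply, h u, h v] at h1
  linear_combination h1

theorem En.S (h : En G) (v : V) : En (S B v G) := by
  intro y _
  unfold GPCW.S
  refine AnalyticAt.mul ((ha_lin (B v) y).neg.cexp) ?_
  exact AnalyticAt.comp (g := G) (f := fun y => y + v) (h _ trivial)
    (analyticAt_id.add analyticAt_const)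

theorem En.nab (h : En G) (u : V) : En (nab B u G) := by
  intro y _
  unfold GPCW.nab
  refine AnalyticAt.sub ?_ ((ha_lin (B.flip u) y).mul (h y trivial))
  exact ((ContinuousLinearMap.apply ℂ ℂ u).analyticAt _).comp (h.fderiv y trivial)

theorem En.nabl (h : En G) (l : List V) : En (nabl B l G) := by
  induction l with
  | nil => exact h
  | cons u l ih => exact ih.nab u

theorem En.mul_ne (h : En G) (h' : En G') (h0 : G ≠ 0) (h0' : G' ≠ 0) :
    (fun y => G y * G' y) ≠ 0 := by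
  intro hz
  obtain ⟨y, hy⟩ := Function.ne_iff.1 h0
  apply h0'
  have hev : G' =ᶠ[nhds y] 0 := by
    filter_upwards [(h y trivial).continuousAt.eventually_ne hy] with z hz'
    exact (mul_eq_zero.1 (congrFun hz z)).resolve_left hz'
  funext z
  exact h'.eqOn_zero_of_preconnected_of_eventuallyEq_zero isPreconnected_univ (Set.mem_univ y) hev
    (Set.mem_univ z)

theorem S_S (hB : ∀ v, B v v = 0) (u v : V) (G : V → ℂ) :
    S B u (S B v G) = fun y => exp (B u v) * S B (u + v) G y := by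
  funext y
  simp only [S, map_add, LinearMap.add_apply, skew hB u v, add_assoc, ← mul_assoc, ← exp_add]
  congr 2
  ring

theorem S_ne (v : V) (h : G ≠ 0) : S B v G ≠ 0 := by
  intro hz
  apply h
  funext y
  have := congrFun hz (y - v)
  simpa [S, exp_ne_zero] using this

/-- Multiples of a period. -/
theorem S_zsmul (hB : ∀ v, B v v = 0) {v : V} (h : S B v G = G) (m : ℤ) :
    S B ((m : ℂ) • v) G = G := by
  have h0 : S B 0 G = G := by funext y; simp [S]
  have hn : S B (-v) G = G := by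
    have := S_S hB (-v) v G
    rw [h] at this
    rw [this]
    funext y
    simp only [map_neg, LinearMap.neg_apply, hB, neg_zero, exp_zero, neg_add_cancel, h0, one_mul]
  induction m using Int.induction_on with
  | zero => simpa using h0
  | succ n ih =>
    have := S_S hB ((((n : ℤ) : ℂ)) • v) v G
    rw [h, ih] at this
    rw [Int.cast_add, add_smul, Int.cast_one, one_smul]
    conv_rhs => rw [this]
    funext y
    simp [hB]
  | pred n ih =>
    have := S_S hB ((((-(n : ℤ) : ℤ) : ℂ)) • v) (-v) G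
    rw [hn, ih] at this
    rw [Int.cast_sub, sub_smul, Int.cast_one, one_smul, sub_eq_add_neg]
    conv_rhs => rw [this]
    funext y
    simp only [Int.cast_neg, Int.cast_natCast, neg_smul, map_neg, map_smul, LinearMap.neg_apply, LinearMap.smul_apply, hB, neg_zero, smul_eq_mul, mul_zero, exp_zero, one_mul]

theorem S_nabl (hB : ∀ v, B v v = 0) (h : En G) (v : V) (l : List V) :
    S B v (nabl B l G) = nabl B l (S B v G) := by
  induction l with
  | nil => rfl
  | cons u l ih =>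
    change S B v (nab B u (nabl B l G)) = nab B u (nabl B l (S B v G))
    rw [← ih]
    funext y
    simp only [nab]
    rw [(ha_S (h.nabl l) v y).fderiv]
    simp only [S, nab, map_add, LinearMap.add_apply, _root_.add_apply,
      _root_.smul_apply, smul_eq_mul, _root_.neg_apply,
      LinearMap.coe_toContinuousLinearMap']
    ring

theorem Inv.S (hB : ∀ v, B v v = 0) (h : Inv B F G) (v : V) : Inv B F (S B v G) := by
  intro ν hν y
  simp only [GPCW.S]
  rw [add_right_comm, h ν hν, ← mul_assoc, ← mul_assoc, ← exp_add, ← exp_add]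
  simp only [map_add, LinearMap.add_apply]
  congr 2
  ring

theorem nab_add (u v : V) (G : V → ℂ) : nab B (u + v) G = fun y => nab B u G y + nab B v G y := by
  funext y
  simp only [nab, map_add]
  ring

theorem nab_smul (c : ℂ) (u : V) (G : V → ℂ) : nab B (c • u) G = fun y => c * nab B u G y := by
  funext y
  simp only [nab, map_smul, smul_eq_mul]
  ring

theorem nabl_lin (h : En G) (h' : En G') (a b : ℂ) (l : List V) :
    nabl B l (fun y => a * G y + b * G' y) = fun y => a * nabl B l G y + b * nabl B l G' y := by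
  induction l with
  | nil => rfl
  | cons u l ih =>
    change nab B u (nabl B l _) = fun y => a * nab B u (nabl B l G) y + b * nab B u (nabl B l G') y
    rw [ih]
    funext y
    have h1 := (((h.nabl (B := B) l) y trivial).differentiableAt.hasFDerivAt.const_mul a).add
      (((h'.nabl (B := B) l) y trivial).differentiableAt.hasFDerivAt.const_mul b)
    simp only [nab]
    rw [show fderiv ℂ (fun y => a * nabl B l G y + b * nabl B l G' y) y = _ from h1.fderiv]
    simp only [_root_.add_apply, _root_.smul_apply, smul_eq_mul]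
    ring

theorem nabl_append (l l' : List V) (G : V → ℂ) :
    nabl B (l ++ l') G = nabl B l (nabl B l' G) := by
  induction l with
  | nil => rfl
  | cons u l ih => simp only [List.cons_append, nabl, ih]

/-- Symmetry of the second derivative. -/
theorem nab_comm (hB : ∀ v, B v v = 0) (h : En G) (u v : V) :
    nab B u (nab B v G) = fun y => nab B v (nab B u G) y - 2 * B u v * G y := by
  funext y
  have hs : IsSymmSndFDerivAt ℂ G y :=
    (h y trivial).contDiffAt.isSymmSndFDerivAt (n := ⊤) (by simp)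
  have key : ∀ u v : V, nab B u (nab B v G) y = fderiv ℂ (fderiv ℂ G) y u v
      - (B y v * fderiv ℂ G y u + B u v * G y) - B y u * (fderiv ℂ G y v - B y v * G y) := by
    intro u v
    have h1 : HasFDerivAt (fun y => fderiv ℂ G y v)
        ((ContinuousLinearMap.apply ℂ ℂ v).comp (fderiv ℂ (fderiv ℂ G) y)) y :=
      (ContinuousLinearMap.apply ℂ ℂ v).hasFDerivAt.comp y
        (h.fderiv y trivial).differentiableAt.hasFDerivAt
    have h2 := h1.sub ((ha_fd (B.flip v) y).mul (h y trivial).differentiableAt.hasFDerivAt)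
    have h3 : fderiv ℂ (nab B v G) y = _ := h2.fderiv
    rw [nab, h3]
    simp only [nab, _root_.sub_apply, _root_.add_apply,
      _root_.smul_apply, smul_eq_mul, ContinuousLinearMap.comp_apply,
      ContinuousLinearMap.apply_apply, LinearMap.coe_toContinuousLinearMap', LinearMap.flip_apply]
    ring
  rw [key, key, hs u v, skew hB u v]
  ring

/-- Differentiate `t ↦ exp (-t * B y ν) * G (y + t • ν)`. -/
theorem inv_iff (hB : ∀ v, B v v = 0) (h : En G) : Inv B F G ↔ ∀ ν ∈ F, nab B ν G = 0 := by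
  have hd : ∀ (y ν : V) (t : ℂ), HasDerivAt (fun t : ℂ => G (y + t • ν))
      (fderiv ℂ G (y + t • ν) ν) t := by
    intro y ν t
    have h1 : HasDerivAt (fun t : ℂ => y + t • ν) ν t := by
      simpa using ((hasDerivAt_id t).smul_const ν).const_add y
    exact (h _ trivial).differentiableAt.hasFDerivAt.comp_hasDerivAt t h1
  constructor
  · intro hF ν hν
    funext y
    have h1 := hd y ν 0
    have h2 : HasDerivAt (fun t : ℂ => exp (t * B y ν) * G y) (B y ν * G y) 0 := by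
      simpa using (((hasDerivAt_id (0 : ℂ)).mul_const (B y ν)).cexp).mul_const (G y)
    have h3 : (fun t : ℂ => G (y + t • ν)) = fun t : ℂ => exp (t * B y ν) * G y := by
      funext t
      rw [hF _ (F.smul_mem t hν), map_smul, smul_eq_mul]
    rw [h3] at h1
    have := h1.unique h2
    simp only [zero_smul, add_zero] at this
    simp [nab, this]
  · intro hF ν hν y
    have h1 : ∀ t : ℂ, HasDerivAt (fun t : ℂ => exp (-(t * B y ν)) * G (y + t • ν)) 0 t := by
      intro t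
      have h2 := (((hasDerivAt_id t).mul_const (B y ν)).neg.cexp).mul (hd y ν t)
      have h3 := congrFun (hF ν hν) (y + t • ν)
      simp only [nab, map_add, map_smul, LinearMap.add_apply, LinearMap.smul_apply, hB,
        smul_eq_mul, mul_zero, add_zero, Pi.zero_apply, sub_eq_zero] at h3
      refine h2.congr_deriv ?_
      rw [h3]
      ring
    have h2 := is_const_of_deriv_eq_zero (fun t => (h1 t).differentiableAt)
      (fun t => (h1 t).deriv) 1 0
    simp only [one_mul, one_smul, zero_mul, neg_zero, exp_zero, zero_smul, add_zero] at h2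
    rw [← h2, ← mul_assoc, ← exp_add]
    simp

theorem inv_span (hB : ∀ v, B v v = 0) (h : En G) {s : Set V} (hs : ∀ ν ∈ s, nab B ν G = 0) :
    Inv B (Submodule.span ℂ s) G := by
  rw [inv_iff hB h]
  intro ν hν
  induction hν using Submodule.span_induction with
  | mem x hx => exact hs x hx
  | zero => funext y; simp [nab]
  | add x y _ _ hx hy => rw [nab_add, hx, hy]; funext z; simp
  | smul a x _ hx => rw [nab_smul, hx]; funext z; simp

/-- Lowering operators. -/
theorem low_one (hB : ∀ v, B v v = 0) (h : En G) (hF : Inv B F G) {ν : V} (hν : ν ∈ F) (u : V) :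
    nab B ν (nab B u G) = fun y => -(2 * B ν u) * G y := by
  rw [nab_comm hB h, (inv_iff hB h).1 hF ν hν]
  funext y
  simp [nab]

theorem low_two (hB : ∀ v, B v v = 0) (h : En G) (hF : Inv B F G) {ν : V} (hν : ν ∈ F)
    (u u' : V) : nab B ν (nab B u (nab B u' G)) =
      fun y => -(2 * B ν u) * nab B u' G y - 2 * B ν u' * nab B u G y := by
  rw [nab_comm hB (h.nab u'), low_one hB h hF hν]
  have := nabl_lin (B := B) h h (-(2 * B ν u')) 0 [u]
  simp only [nabl, zero_mul, add_zero] at this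
  rw [this]
  funext y
  ring

/-- Chain rule. -/
theorem nabl_comp (f : V' →ₗ[ℂ] V) (h : En G) (l : List V') (y : V') :
    nabl (B.compl₁₂ f f) l (fun y => G (f y)) y = nabl B (l.map f) G (f y) := by
  induction l generalizing y with
  | nil => rfl
  | cons u l ih =>
    have h1 : nabl (B.compl₁₂ f f) l (fun y => G (f y)) = fun y => nabl B (l.map f) G (f y) :=
      funext ih
    have h2 : HasFDerivAt (fun y => nabl B (l.map f) G (f y)) _ y :=
      ((h.nabl (B := B) (l.map f)) (f y) trivial).differentiableAt.hasFDerivAt.comp y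
        (LinearMap.toContinuousLinearMap f).hasFDerivAt
    simp only [nabl, List.map_cons, nab, h1]
    rw [h2.fderiv]
    simp

/-! ### Block HB -/

theorem hb_S_lin (v : V) (G G' : V → ℂ) (a b : ℂ) :
    S B v (fun y => a * G y + b * G' y) = fun y => a * S B v G y + b * S B v G' y := by
  funext y; simp only [S]; ring

theorem hb_S_mul (v : V) (G : V → ℂ) (a : ℂ) :
    S B v (fun y => a * G y) = fun y => a * S B v G y := by
  funext y; simp only [S]; ring

theorem hb_S_comm (hB : ∀ v, B v v = 0) (u v : V) (G : V → ℂ) :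
    S B u (S B v G) = fun y => exp (2 * B u v) * S B v (S B u G) y := by
  rw [S_S hB, S_S hB, add_comm v u, skew hB u v]
  funext y
  rw [← mul_assoc, ← Complex.exp_add]
  congr 2; ring

theorem hb_S_nat (hB : ∀ v, B v v = 0) {v : V} {M : ℕ} (h : S B ((M : ℂ) • v) G = G) (m : ℕ) :
    S B (((M * m : ℕ) : ℂ) • v) G = G := by
  have := S_zsmul hB h (m : ℤ)
  rw [smul_smul] at this
  have e : ((M * m : ℕ) : ℂ) = ((m : ℤ) : ℂ) * (M : ℂ) := by push_cast; ring
  rw [e]; exact this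

theorem hb_exp_alg (q : ℚ) : IsAlgebraic ℚ (exp (Real.pi * I * q)) := by
  have hd : 0 < 2 * q.den := by have := q.den_pos; omega
  apply IsAlgebraic.of_pow hd
  have : exp (Real.pi * I * q) ^ (2 * q.den) = 1 := by
    rw [← Complex.exp_nat_mul]
    have h1 : ((q.den : ℕ) : ℂ) * (q : ℂ) = (q.num : ℂ) := by
      have := Rat.den_mul_eq_num q
      exact_mod_cast congrArg (fun x : ℚ => (x : ℂ)) this
    have : ((2 * q.den : ℕ) : ℂ) * (Real.pi * I * q) = (q.num : ℂ) * (2 * Real.pi * I) := by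
      rw [← h1]; push_cast; ring
    rw [this, Complex.exp_int_mul_two_pi_mul_I]
  rw [this]; exact isAlgebraic_one

theorem Th.lin (hR : Rt B R) (h : Th B R F D G) (h' : Th B R F D G') {a b : ℂ}
    (ha : IsAlgebraic ℚ a) (hb : IsAlgebraic ℚ b) :
    Th B R F D fun y => a * G y + b * G' y := by
  refine ⟨(analyticOnNhd_const.mul h.en).add (analyticOnNhd_const.mul h'.en), ?_, ?_, ?_⟩
  · intro ν hν y
    simp only [h.inv ν hν y, h'.inv ν hν y]; ring
  · intro r hr
    obtain ⟨M, hM, e⟩ := h.per r hr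
    obtain ⟨M', hM', e'⟩ := h'.per r hr
    refine ⟨M * M', Nat.mul_pos hM hM', ?_⟩
    rw [hb_S_lin, hb_S_nat hR.alt e, mul_comm M, hb_S_nat hR.alt e']
  · intro r hr l hl
    rw [nabl_lin h.en h'.en]
    exact (ha.mul (h.alg r hr l hl)).add (hb.mul (h'.alg r hr l hl))

/-- `exp (π i q)` is a root of unity. -/
theorem Th.S (hR : Rt B R) (h : Th B R F D G) {w : V} (hw : w ∈ R) : Th B R F D (S B w G) := by
  refine ⟨h.en.S w, h.inv.S hR.alt w, ?_, ?_⟩
  · intro r hr
    obtain ⟨M, hM, e⟩ := h.per r hr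
    obtain ⟨q, hq⟩ := hR.rat r hr w hw
    refine ⟨M * q.den, Nat.mul_pos hM q.den_pos, ?_⟩
    rw [hb_S_comm hR.alt, hb_S_nat hR.alt e]
    have h1 : ((q.den : ℕ) : ℂ) * (q : ℂ) = (q.num : ℂ) := by
      have := Rat.den_mul_eq_num q
      exact_mod_cast congrArg (fun x : ℚ => (x : ℂ)) this
    have : 2 * B (((M * q.den : ℕ) : ℂ) • r) w
        = (((M : ℤ) * q.num : ℤ) : ℂ) * (2 * Real.pi * I) := by
      rw [map_smul, LinearMap.smul_apply, hq, smul_eq_mul]
      push_cast
      rw [← h1]; ring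
    rw [this, Complex.exp_int_mul_two_pi_mul_I]
    simp only [one_mul]
  · intro r hr l hl
    rw [← S_nabl hR.alt h.en]
    obtain ⟨q, hq⟩ := hR.rat w hw r hr
    have : -B w r = Real.pi * I * ((-q : ℚ) : ℂ) := by rw [hq]; push_cast; ring
    show IsAlgebraic ℚ (exp (-B w r) * nabl B l G (r + w))
    rw [this]
    exact (hb_exp_alg _).mul (h.alg _ (R.add_mem hr hw) l hl)

theorem hb_nab_mul (h : En G) (h' : En G') (u : V) :
    nab (B + B') u (fun y => G y * G' y)
      = fun y => 1 * (nab B u G y * G' y) + 1 * (G y * nab B' u G' y) := by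
  funext y
  have d1 := (h y trivial).differentiableAt
  have d2 := (h' y trivial).differentiableAt
  simp only [nab]
  rw [fderiv_fun_mul d1 d2]
  simp only [LinearMap.add_apply, _root_.add_apply, _root_.smul_apply, smul_eq_mul]
  ring

/-- Leibniz: `nab (B + B') u (G G') = nab B u G * G' + G * nab B' u G'`.  Prove by induction on
the word that `nabl (B + B') l` of a product `nabl B l₁ G * nabl B' l₂ G'` is algebraic at `r`
(it is convenient to peel off the innermost letter, `nabl_append`, or to show that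
`nabl (B + B') l (G G')` is a finite sum of such products). -/
theorem Th.mul (hB : ∀ v, B v v = 0) (hB' : ∀ v, B' v v = 0) (h : Th B R F D G)
    (h' : Th B' R F D G') : Th (B + B') R F D fun y => G y * G' y := by
  refine ⟨h.en.mul h'.en, ?_, ?_, ?_⟩
  · intro ν hν y
    simp only [h.inv ν hν y, h'.inv ν hν y, LinearMap.add_apply, Complex.exp_add]; ring
  · intro r hr
    obtain ⟨M, hM, e⟩ := h.per r hr
    obtain ⟨M', hM', e'⟩ := h'.per r hr
    refine ⟨M * M', Nat.mul_pos hM hM', ?_⟩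
    have e1 := hb_S_nat hB e M'
    have e2 := hb_S_nat hB' e' M
    rw [mul_comm M' M] at e2
    funext y
    have f1 := congrFun e1 y
    have f2 := congrFun e2 y
    simp only [GPCW.S] at f1 f2 ⊢
    rw [← f1, ← f2, LinearMap.add_apply, LinearMap.add_apply, neg_add, Complex.exp_add]
    ring
  · intro r hr l hl
    have key : ∀ l : List V, (∀ u ∈ l, u ∈ D) → ∀ l₁ l₂ : List V, (∀ u ∈ l₁, u ∈ D) →
        (∀ u ∈ l₂, u ∈ D) →
        IsAlgebraic ℚ (nabl (B + B') l (fun y => nabl B l₁ G y * nabl B' l₂ G' y) r) := by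
      intro l
      induction l using List.reverseRecOn with
      | nil => exact fun _ l₁ l₂ h₁ h₂ => (h.alg r hr l₁ h₁).mul (h'.alg r hr l₂ h₂)
      | append_singleton l u ih =>
        intro hl l₁ l₂ h₁ h₂
        have hu : u ∈ D := hl u (by simp)
        have hl' : ∀ u ∈ l, u ∈ D := fun v hv => hl v (by simp [hv])
        rw [nabl_append]
        show IsAlgebraic ℚ (nabl (B + B') l
          (nab (B + B') u fun y => nabl B l₁ G y * nabl B' l₂ G' y) r)
        rw [hb_nab_mul (h.en.nabl l₁) (h'.en.nabl l₂),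
          nabl_lin (((h.en.nabl l₁).nab u).mul (h'.en.nabl l₂))
            ((h.en.nabl l₁).mul ((h'.en.nabl l₂).nab u))]
        refine (isAlgebraic_one.mul ?_).add (isAlgebraic_one.mul ?_)
        · exact ih hl' (u :: l₁) l₂ (by simpa only [List.mem_cons, forall_eq_or_imp, hu, true_and] using h₁) h₂
        · exact ih hl' l₁ (u :: l₂) h₁ (by simpa only [List.mem_cons, forall_eq_or_imp, hu, true_and] using h₂)
    exact key l hl [] [] (by simp) (by simp)

theorem hb_nabl_one (l : List V) :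
    ∃ c : ℚ, nabl (0 : V →ₗ[ℂ] V →ₗ[ℂ] ℂ) l (fun _ => 1) = fun _ => (c : ℂ) := by
  induction l with
  | nil => exact ⟨1, by funext y; simp [nabl]⟩
  | cons u l ih =>
    obtain ⟨c, hc⟩ := ih
    refine ⟨0, ?_⟩
    funext y
    simp [nabl, hc, nab]

theorem Th.prod {ι : Type} (s : Finset ι) {B : ι → V →ₗ[ℂ] V →ₗ[ℂ] ℂ} {G : ι → V → ℂ}
    (hB : ∀ i v, B i v v = 0) (h : ∀ i, Th (B i) R F D (G i)) (h0 : ∀ i, G i ≠ 0) :
    Th (∑ i ∈ s, B i) R F D (fun y => ∏ i ∈ s, G i y) ∧ (fun y => ∏ i ∈ s, G i y) ≠ 0 := by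
  classical
  induction s using Finset.induction_on with
  | empty =>
    simp only [Finset.sum_empty, Finset.prod_empty]
    refine ⟨⟨analyticOnNhd_const, ?_, ?_, ?_⟩, ?_⟩
    · intro ν _ y; simp
    · intro r _
      exact ⟨1, one_pos, by funext y; simp [GPCW.S]⟩
    · intro r _ l _
      obtain ⟨c, hc⟩ := hb_nabl_one (V := V) l
      rw [hc]
      exact isAlgebraic_algebraMap c
    · intro e
      have := congrFun e 0
      simp at this
  | insert i s hi ih =>
    simp only [Finset.sum_insert hi, Finset.prod_insert hi]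
    refine ⟨Th.mul (hB i) (fun v => ?_) (h i) ih.1, En.mul_ne (h i).en ih.1.en (h0 i) ih.2⟩
    simp only [LinearMap.sum_apply, hB, Finset.sum_const_zero]

theorem Th.comp (h : Th B R F D G) (f : V' →ₗ[ℂ] V) {R' : AddSubgroup V'} {F' : Submodule ℂ V'}
    {D' : Set V'} (hR : ∀ r ∈ R', f r ∈ R) (hF : ∀ ν ∈ F', f ν ∈ F) (hD : ∀ u ∈ D', f u ∈ D) :
    Th (B.compl₁₂ f f) R' F' D' fun y => G (f y) := by
  refine ⟨fun y _ => ?_, ?_, ?_, ?_⟩
  · exact (h.en (f y) trivial).comp ((LinearMap.toContinuousLinearMap f).analyticAt y)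
  · intro ν hν y
    simp only [map_add, LinearMap.compl₁₂_apply]
    exact h.inv _ (hF ν hν) _
  · intro r hr
    obtain ⟨M, hM, e⟩ := h.per _ (hR r hr)
    refine ⟨M, hM, ?_⟩
    funext y
    have := congrFun e (f y)
    simp only [GPCW.S, map_add, map_smul] at this ⊢
    exact this
  · intro r hr l hl
    rw [nabl_comp f h.en]
    refine h.alg _ (hR r hr) _ fun u hu => ?_
    obtain ⟨v, hv, rfl⟩ := List.mem_map.1 hu
    exact hD v (hl v hv)

open Polynomial in
theorem hb_eigvec {M : Type} [AddCommGroup M] [Module ℂ M] (A : Module.End ℂ M) (W : M → Prop)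
    (hA : ∀ x, W x → W (A x))
    (hl : ∀ x y (a : ℂ), W x → W y → IsAlgebraic ℚ a → W (x - a • y)) {x : M} (hx : W x)
    (h0 : x ≠ 0) (s : Finset ℂ) (hs : ∀ ζ ∈ s, IsAlgebraic ℚ ζ) :
    W (aeval A (∏ ζ ∈ s, (X - C ζ)) x) ∧ (aeval A (∏ ζ ∈ s, (X - C ζ)) x = 0 →
      ∃ ζ ∈ s, ∃ y, W y ∧ y ≠ 0 ∧ A y = ζ • y) := by
  classical
  induction s using Finset.induction_on with
  | empty => simpa only [Finset.prod_empty, map_one, End.one_apply, Finset.notMem_empty, ne_eq, false_and, exists_const, imp_false] using ⟨hx, h0⟩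
  | insert ζ s hζ ih =>
    obtain ⟨i1, i2⟩ := ih fun z hz => hs z (Finset.mem_insert_of_mem hz)
    have e : aeval A (∏ z ∈ insert ζ s, (X - C z)) x
        = A (aeval A (∏ z ∈ s, (X - C z)) x) - ζ • aeval A (∏ z ∈ s, (X - C z)) x := by
      rw [Finset.prod_insert hζ, map_mul, Module.End.mul_apply]
      simp only [aeval_sub, aeval_X, aeval_C, LinearMap.sub_apply, algebraMap_end_apply]
    rw [e]
    refine ⟨hl _ _ _ (hA _ i1) i1 (hs ζ (Finset.mem_insert_self _ _)), fun hz => ?_⟩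
    by_cases h1 : aeval A (∏ z ∈ s, (X - C z)) x = 0
    · obtain ⟨z, hz, r⟩ := i2 h1
      exact ⟨z, Finset.mem_insert_of_mem hz, r⟩
    · exact ⟨ζ, Finset.mem_insert_self _ _, _, i1, h1, sub_eq_zero.1 hz⟩

/-- The left translation as a linear map. -/
noncomputable def hbS (B : V →ₗ[ℂ] V →ₗ[ℂ] ℂ) (v : V) : Module.End ℂ (V → ℂ) where
  toFun := S B v
  map_add' G G' := by funext y; simp only [S, Pi.add_apply]; ring
  map_smul' a G := by funext y; simp only [S, Pi.smul_apply, smul_eq_mul, RingHom.id_apply]; ring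

theorem hbS_pow (hB : ∀ v, B v v = 0) (v : V) (n : ℕ) (G : V → ℂ) :
    (hbS B v ^ n) G = S B ((n : ℂ) • v) G := by
  induction n with
  | zero => funext y; simp [S]
  | succ n ih =>
    rw [pow_succ', Module.End.mul_apply, ih]
    show S B v _ = _
    rw [S_S hB, map_smul, hB v]
    funext y
    have : v + (n : ℂ) • v = ((n + 1 : ℕ) : ℂ) • v := by
      push_cast; rw [add_smul, one_smul, add_comm]
    rw [this]; simp

/-- One generator at a time (induction on a finset of indices).  If `A = S B (e i)` and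
`A ^ M G = G` (`S_S`, `per`), then `∏ ζ ^ M = 1, (A - ζ)` kills `G`, so some partial product gives
an eigenvector `G₁ ≠ 0` with eigenvalue `ζ = exp (2 π i k / M)`; the `S B (e j)` commute.  Then take
`S B ((q : ℂ) • e' i) G₁` for a suitable rational `q`. -/
theorem Th.eig (hR : Rt B R) {ι : Type} [Fintype ι] [DecidableEq ι] {e e' : ι → V}
    (he : ∀ i, e i ∈ R) (he' : ∀ i, e' i ∈ R)
    (hd : ∀ i j, B (e i) (e' j) = if i = j then Real.pi * I else 0)
    (hz : ∀ i j, ∃ m : ℤ, B (e i) (e j) = Real.pi * I * m) (h : Th B R F D G) (h0 : G ≠ 0) :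
    ∃ G', G' ≠ 0 ∧ Th B R F D G' ∧ ∀ i, GPCW.S B (e i) G' = G' := by
  have key : ∀ s : Finset ι, ∃ G', G' ≠ 0 ∧ Th B R F D G' ∧ ∀ i ∈ s, GPCW.S B (e i) G' = G' := by
    intro s
    induction s using Finset.induction_on with
    | empty => exact ⟨G, h0, h, by simp⟩
    | insert i s hi ih =>
      obtain ⟨G₁, n₁, t₁, f₁⟩ := ih
      obtain ⟨M, hM, eM⟩ := t₁.per _ (he i)
      have hp := Complex.isPrimitiveRoot_exp M hM.ne'
      have hE := (hb_eigvec (hbS B (e i))
        (fun H => Th B R F D H ∧ ∀ j ∈ s, GPCW.S B (e j) H = H) ?_ ?_ ⟨t₁, f₁⟩ n₁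
        (Polynomial.nthRootsFinset M 1) ?_).2 ?_
      · obtain ⟨ζ, hζ, H, ⟨tH, fH⟩, nH, eH⟩ := hE
        have : NeZero M := ⟨hM.ne'⟩
        obtain ⟨k, -, hk⟩ := hp.eq_pow_of_pow_eq_one ((Polynomial.mem_nthRootsFinset hM 1).1 hζ)
        have hw := hR.smul (-(k : ℚ) / M) _ (he' i)
        refine ⟨_, S_ne _ nH, tH.S hR hw, fun j hj => ?_⟩
        rw [hb_S_comm hR.alt, map_smul, hd]
        rcases Finset.mem_insert.1 hj with rfl | hj
        · have eH' : GPCW.S B (e j) H = fun y => ζ * H y := eH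
          rw [eH', hb_S_mul, if_pos rfl]
          funext y
          rw [← mul_assoc, ← hk, ← Complex.exp_nat_mul, ← Complex.exp_add]
          have hM' : (M : ℂ) ≠ 0 := by exact_mod_cast hM.ne'
          have : 2 * ((-(k : ℚ) / M : ℚ) : ℂ) • ((Real.pi : ℂ) * I)
              + (k : ℂ) * (2 * Real.pi * I / M) = 0 := by
            rw [smul_eq_mul]; push_cast; field_simp; ring
          rw [this]; simp
        · have : j ≠ i := fun e => hi (e ▸ hj)
          rw [if_neg this, fH j hj]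
          simp
      · rintro H ⟨tH, fH⟩
        refine ⟨tH.S hR (he i), fun j hj => ?_⟩
        show GPCW.S B (e j) (GPCW.S B (e i) H) = GPCW.S B (e i) H
        obtain ⟨m, hm⟩ := hz j i
        rw [hb_S_comm hR.alt, fH j hj, hm]
        have : 2 * (Real.pi * I * (m : ℂ)) = (m : ℂ) * (2 * Real.pi * I) := by ring
        rw [this, Complex.exp_int_mul_two_pi_mul_I]
        simp
      · rintro H H' a ⟨tH, fH⟩ ⟨tH', fH'⟩ ha
        have e1 : H - a • H' = fun y => 1 * H y + -a * H' y := by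
          funext y; simp only [Pi.sub_apply, Pi.smul_apply, smul_eq_mul]; ring
        rw [e1]
        refine ⟨tH.lin hR tH' isAlgebraic_one ha.neg, fun j hj => ?_⟩
        rw [hb_S_lin, fH j hj, fH' j hj]
      · intro ζ hζ
        apply IsAlgebraic.of_pow hM
        rw [(Polynomial.mem_nthRootsFinset hM 1).1 hζ]
        exact isAlgebraic_one
      · rw [← Polynomial.X_pow_sub_one_eq_prod hM hp]
        simp only [map_sub, map_pow, Polynomial.aeval_X, map_one, LinearMap.sub_apply,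
          Module.End.one_apply]
        rw [hbS_pow hR.alt, eM, sub_self]
  obtain ⟨G', a, b, c⟩ := key Finset.univ
  exact ⟨G', a, b, fun i => c i (Finset.mem_univ i)⟩

end GPCW

end

section

/-! The classical theta function with characteristics on the Siegel upper half space. -/

open Complex Matrix

namespace GPCW

abbrev Vn (n : ℕ) : Type := (Fin n → ℂ) × (Fin n → ℂ)

variable {n : ℕ}

/-- the standard symplectic form times `π i` -/
noncomputable def Bn (y x : Vn n) : ℂ := Real.pi * I * (y.1 ⬝ᵥ x.2 - y.2 ⬝ᵥ x.1)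

/-- Siegel upper half space -/
def Sg (τ : Matrix (Fin n) (Fin n) ℂ) : Prop := τ.IsSymm ∧ (τ.map Complex.im).PosDef

/-- an integer vector as a complex vector -/
def zc (m : Fin n → ℤ) : Fin n → ℂ := fun i => (m i : ℂ)

/-- a real vector as a complex vector -/
def rc (t : Fin n → ℝ) : Fin n → ℂ := fun i => (t i : ℂ)

/-- the exponent of one term -/
noncomputable def ex (τ : Matrix (Fin n) (Fin n) ℂ) (y : Vn n) (m : Fin n → ℤ) : ℂ :=
  Real.pi * I * ((y.1 + zc m) ⬝ᵥ τ *ᵥ (y.1 + zc m) - y.1 ⬝ᵥ y.2 - 2 * (zc m ⬝ᵥ y.2))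

/-- the normalised theta function -/
noncomputable def N (τ : Matrix (Fin n) (Fin n) ℂ) (y : Vn n) : ℂ :=
  ∑' m : Fin n → ℤ, exp (ex τ y m)

theorem zc_add (m l : Fin n → ℤ) : zc (m + l) = zc m + zc l := by
  ext i; simp [zc]

theorem N_lam (τ : Matrix (Fin n) (Fin n) ℂ) (l : Fin n → ℤ) (y : Vn n) :
    exp (-Bn (zc l, 0) y) * N τ (y + (zc l, 0)) = N τ y := by
  unfold N
  rw [← tsum_mul_left, ← (Equiv.addRight l).tsum_eq fun m => exp (ex τ y m)]
  refine tsum_congr fun m => ?_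
  rw [← exp_add]
  congr 1
  have e : y.1 + zc l + zc m = y.1 + (zc m + zc l) := by abel
  simp only [ex, Bn, Equiv.coe_addRight, zc_add, Prod.fst_add, Prod.snd_add, add_zero, e,
    zero_dotProduct]
  generalize (y.1 + (zc m + zc l)) ⬝ᵥ τ *ᵥ (y.1 + (zc m + zc l)) = w
  simp only [add_dotProduct]
  ring

theorem N_mu (τ : Matrix (Fin n) (Fin n) ℂ) (l : Fin n → ℤ) (y : Vn n) :
    exp (-Bn (0, zc l) y) * N τ (y + (0, zc l)) = N τ y := by
  unfold N
  rw [← tsum_mul_left]
  refine tsum_congr fun m => ?_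
  rw [← exp_add, exp_eq_exp_iff_exists_int]
  refine ⟨-(m ⬝ᵥ l), ?_⟩
  have e : zc m ⬝ᵥ zc l = ((m ⬝ᵥ l : ℤ) : ℂ) := by simp only [dotProduct, zc, Int.cast_sum, Int.cast_mul]
  simp only [ex, Bn, Prod.fst_add, Prod.snd_add, add_zero, zero_dotProduct, dotProduct_add, e,
    dotProduct_comm (zc l) y.1]
  push_cast
  ring

theorem symm_dot {τ : Matrix (Fin n) (Fin n) ℂ} (hs : τ.IsSymm) (a b : Fin n → ℂ) :
    a ⬝ᵥ τ *ᵥ b = b ⬝ᵥ τ *ᵥ a := by
  rw [dotProduct_mulVec, ← mulVec_transpose, hs.eq, dotProduct_comm]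

theorem N_T {τ : Matrix (Fin n) (Fin n) ℂ} (hs : τ.IsSymm) (u : Fin n → ℂ) (y : Vn n) :
    exp (-Bn y (u, τ *ᵥ u)) * N τ (y + (u, τ *ᵥ u)) = N τ y := by
  unfold N
  rw [← tsum_mul_left]
  refine tsum_congr fun m => ?_
  rw [← exp_add]
  congr 1
  simp only [ex, Bn, Prod.fst_add, Prod.snd_add, dotProduct_add, add_dotProduct, mulVec_add,
    symm_dot hs u y.1, symm_dot hs u (zc m), dotProduct_comm y.2 u]
  ring

/-! ### Convergence -/

theorem summ_pi {f : ℤ → ℝ} (h0 : ∀ k, 0 ≤ f k) (hf : Summable f) :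
    ∀ n : ℕ, Summable fun m : Fin n → ℤ => ∏ i, f (m i)
  | 0 => Summable.of_finite
  | n + 1 => by
    have h := hf.mul_of_nonneg (summ_pi h0 hf n) h0 fun m => Finset.prod_nonneg fun i _ => h0 _
    rw [← (Fin.consEquiv fun _ : Fin (n + 1) => ℤ).summable_iff]
    simpa only [Fin.prod_univ_succ, Fin.consEquiv, Equiv.coe_fn_mk, Function.comp_def, Fin.cons_zero, Fin.cons_succ] using h

/-- the `ℓ¹` norm -/
noncomputable def l1 (a : Fin n → ℂ) : ℝ := ∑ i, ‖a i‖

theorem l1_nn (a : Fin n → ℂ) : 0 ≤ l1 a := Finset.sum_nonneg fun _ _ => norm_nonneg _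

theorem summ_l1 : Summable fun m : Fin n → ℤ => Real.exp (-l1 (zc m)) := by
  have h : Summable fun k : ℤ => Real.exp (-|(k : ℝ)|) := by
    refine Summable.of_nat_of_neg ?_ ?_ <;> simpa using Real.summable_exp_neg_nat
  refine (summ_pi (fun k => (Real.exp_pos _).le) h n).congr fun m => ?_
  rw [← Real.exp_sum, l1, ← Finset.sum_neg_distrib]
  simp only [Finset.sum_neg_distrib, zc, norm_intCast]

theorem norm_qf {τ : Matrix (Fin n) (Fin n) ℂ} {A : ℝ} (h : ∀ i j, ‖τ i j‖ ≤ A)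
    (a b : Fin n → ℂ) : ‖a ⬝ᵥ τ *ᵥ b‖ ≤ A * l1 a * l1 b := by
  simp only [dotProduct, mulVec, l1, Finset.mul_sum, Finset.sum_mul]
  rw [Finset.sum_comm (f := fun j i => A * ‖a i‖ * ‖b j‖)]
  refine (norm_sum_le _ _).trans (Finset.sum_le_sum fun i _ => ?_)
  refine (norm_sum_le _ _).trans (Finset.sum_le_sum fun j _ => ?_)
  rw [norm_mul, norm_mul, mul_comm A, mul_assoc]
  gcongr
  exact h i j

theorem norm_dot (a b : Fin n → ℂ) : ‖a ⬝ᵥ b‖ ≤ l1 a * l1 b := by
  have := norm_qf (τ := (1 : Matrix (Fin n) (Fin n) ℂ)) (A := 1)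
    (fun i j => by rw [one_apply]; split_ifs <;> simp) a b
  simpa only [ge_iff_le, one_mulVec, one_mul] using this

theorem im_qf (τ : Matrix (Fin n) (Fin n) ℂ) (t : Fin n → ℝ) :
    (rc t ⬝ᵥ τ *ᵥ rc t).im = t ⬝ᵥ (τ.map Complex.im) *ᵥ t := by
  simp only [dotProduct, rc, mulVec, Finset.mul_sum, im_sum, mul_im, ofReal_re, ofReal_im, mul_zero, zero_add, mul_re, sub_zero, zero_mul, add_zero, map_apply]

theorem coer {τ : Matrix (Fin n) (Fin n) ℂ} (h : (τ.map Complex.im).PosDef) :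
    ∃ c : ℝ, 0 < c ∧ ∀ t : Fin n → ℝ, c * l1 (rc t) ^ 2 ≤ (rc t ⬝ᵥ τ *ᵥ rc t).im := by
  have hc : Continuous fun t : Fin n → ℝ => t ⬝ᵥ (τ.map Complex.im) *ᵥ t := by
    simp only [dotProduct, mulVec]; fun_prop
  obtain ⟨a, ha, hb⟩ := (isCompact_sphere (0 : Fin n → ℝ) 1).exists_forall_le' hc.continuousOn
    (a := 0) fun t ht => by
      have h0 : t ≠ 0 := by rintro rfl; simp at ht
      simpa only [gt_iff_lt, star_trivial] using h.dotProduct_mulVec_pos h0
  refine ⟨a / ((n : ℝ) + 1) ^ 2, by positivity, fun t => ?_⟩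
  rw [im_qf]
  rcases eq_or_ne t 0 with rfl | h0
  · simp only [l1, rc, Pi.zero_apply, ofReal_zero, norm_zero, Finset.sum_const_zero, ne_eq, OfNat.ofNat_ne_zero, not_false_eq_true, zero_pow, mul_zero, mulVec_zero, dotProduct_zero, Std.le_refl]
  have hp : 0 < ‖t‖ := norm_pos_iff.2 h0
  have h1 := hb (‖t‖⁻¹ • t) (by simp [norm_smul, hp.ne'])
  simp only [mulVec_smul, smul_dotProduct, dotProduct_smul, smul_eq_mul] at h1
  have h2 : l1 (rc t) ≤ ((n : ℝ) + 1) * ‖t‖ := by
    have : l1 (rc t) ≤ ∑ _i : Fin n, ‖t‖ :=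
      Finset.sum_le_sum fun i _ => by simpa [rc] using norm_le_pi_norm t i
    simp only [Finset.sum_const, Finset.card_univ, Fintype.card_fin, nsmul_eq_mul] at this
    linarith only [hp, this]
  have h3 : a * ‖t‖ ^ 2 ≤ t ⬝ᵥ (τ.map Complex.im) *ᵥ t := by
    have := mul_le_mul_of_nonneg_right h1 (sq_nonneg ‖t‖)
    refine this.trans_eq ?_
    field_simp
  refine le_trans ?_ h3
  calc a / ((n : ℝ) + 1) ^ 2 * l1 (rc t) ^ 2
      ≤ a / ((n : ℝ) + 1) ^ 2 * (((n : ℝ) + 1) * ‖t‖) ^ 2 := by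
        have := l1_nn (rc t); gcongr
    _ = _ := by field_simp

theorem ex_bound {c A : ℝ} (hc : 0 < c) (hA : 0 ≤ A) : ∃ K : ℝ,
    ∀ (τ : Matrix (Fin n) (Fin n) ℂ) (y : Vn n), (∀ i j, ‖τ i j‖ ≤ A) → l1 y.1 ≤ A → l1 y.2 ≤ A →
      (∀ t : Fin n → ℝ, c * l1 (rc t) ^ 2 ≤ (rc t ⬝ᵥ τ *ᵥ rc t).im) →
      ∀ m : Fin n → ℤ, ‖exp (ex τ y m)‖ ≤ K * Real.exp (-l1 (zc m)) := by
  refine ⟨Real.exp (Real.pi * (A ^ 3 + A ^ 2 + (2 * A ^ 2 + 2 * A + 1) ^ 2 / (4 * c))), ?_⟩
  intro τ y hτ h1 h2 hq m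
  rw [norm_exp, ← Real.exp_add, Real.exp_le_exp]
  have hm := hq fun i => (m i : ℝ)
  have e : (rc fun i => (m i : ℝ)) = zc m := by ext i; simp [rc, zc]
  rw [e] at hm
  set s := l1 (zc m) with hs
  have s0 : 0 ≤ s := l1_nn _
  have a0 := l1_nn y.1
  have b0 := l1_nn y.2
  set w := y.1 ⬝ᵥ τ *ᵥ y.1 + y.1 ⬝ᵥ τ *ᵥ zc m + zc m ⬝ᵥ τ *ᵥ y.1 - y.1 ⬝ᵥ y.2 - 2 * (zc m ⬝ᵥ y.2)
    with hw
  have hw1 : ‖w‖ ≤ A ^ 3 + A ^ 2 + (2 * A ^ 2 + 2 * A) * s := by
    have k1 : ‖y.1 ⬝ᵥ τ *ᵥ y.1‖ ≤ A * A * A := (norm_qf hτ _ _).trans (by gcongr)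
    have k2 : ‖y.1 ⬝ᵥ τ *ᵥ zc m‖ ≤ A * A * s := (norm_qf hτ _ _).trans (by gcongr)
    have k3 : ‖zc m ⬝ᵥ τ *ᵥ y.1‖ ≤ A * s * A := (norm_qf hτ _ _).trans (by gcongr)
    have k4 : ‖y.1 ⬝ᵥ y.2‖ ≤ A * A := (norm_dot _ _).trans (by gcongr)
    have k5 : ‖2 * (zc m ⬝ᵥ y.2)‖ ≤ 2 * (s * A) := by
      rw [norm_mul, Complex.norm_two]
      exact mul_le_mul_of_nonneg_left ((norm_dot _ _).trans (by gcongr)) two_pos.le
    refine (norm_sub_le_of_le (norm_sub_le_of_le (norm_add_le_of_le (norm_add_le_of_le k1 k2) k3)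
      k4) k5).trans_eq (by ring)
  have e2 : ex τ y m = Real.pi * I * (zc m ⬝ᵥ τ *ᵥ zc m + w) := by
    simp only [ex, hw, mulVec_add, dotProduct_add, add_dotProduct]; ring
  have e3 : (ex τ y m).re = Real.pi * (-(zc m ⬝ᵥ τ *ᵥ zc m).im - w.im) := by
    rw [e2]; simp only [mul_re, ofReal_re, I_re, mul_zero, ofReal_im, I_im, mul_one, sub_self, add_re, zero_mul, mul_im, add_zero, add_im, zero_sub]; ring
  have h4 : -w.im ≤ ‖w‖ := (neg_le_abs _).trans (abs_im_le_norm w)
  have h5 : (2 * A ^ 2 + 2 * A + 1) * s - c * s ^ 2 ≤ (2 * A ^ 2 + 2 * A + 1) ^ 2 / (4 * c) := by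
    rw [le_div_iff₀ (by positivity)]
    linarith only [sq_nonneg (2 * A ^ 2 + 2 * A + 1 - 2 * c * s)]
  have h6 : -(zc m ⬝ᵥ τ *ᵥ zc m).im - w.im ≤
      A ^ 3 + A ^ 2 + (2 * A ^ 2 + 2 * A + 1) ^ 2 / (4 * c) - s := by linarith
  have h7 := mul_le_mul_of_nonneg_left h6 Real.pi_pos.le
  have h8 : s ≤ Real.pi * s := le_mul_of_one_le_left s0 (by linarith only [Real.pi_gt_three])
  rw [e3]; linarith only [h7, h8]

theorem diff_tsum {E ι : Type*} [NormedAddCommGroup E] [NormedSpace ℂ E] {f : ι → E → ℂ}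
    {u : ι → ℝ} (hu : Summable u) {p : E} {δ : ℝ} (hδ : 0 < δ)
    (hd : ∀ i, DifferentiableOn ℂ (f i) (Metric.ball p (2 * δ)))
    (hb : ∀ i, ∀ x ∈ Metric.ball p (2 * δ), ‖f i x‖ ≤ u i) :
    DifferentiableAt ℂ (fun x => ∑' i, f i x) p := by
  have hs : ∀ x ∈ Metric.ball p δ, Metric.ball x δ ⊆ Metric.ball p (2 * δ) := fun x hx =>
    Metric.ball_subset_ball' (by have := Metric.mem_ball.1 hx; linarith)
  have hp := Metric.mem_ball_self (x := p) hδ
  refine (hasFDerivAt_tsum_of_isPreconnected (u := fun i => 2 * u i / δ)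
    (f' := fun i x => fderiv ℂ (f i) x) ((hu.mul_left 2).div_const δ) Metric.isOpen_ball
    (convex_ball p δ).isPreconnected (fun i x hx => ?_) (fun i x hx => ?_) hp ?_ hp).differentiableAt
  · exact ((hd i).differentiableAt
      (Filter.mem_of_superset (Metric.ball_mem_nhds x hδ) (hs x hx))).hasFDerivAt
  · exact Pool.Agent.Lib.SCV.norm_fderiv_le_of_bound hδ ((hd i).mono (hs x hx))
      fun y hy => hb i y (hs x hx hy)
  · exact hu.of_norm_bounded fun i => hb i p (Metric.mem_ball_self (by linarith))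

theorem N_an {P : Type*} [NormedAddCommGroup P] [NormedSpace ℂ P] [FiniteDimensional ℂ P]
    {X : Set P} (hX : IsOpen X) {τ : P → Matrix (Fin n) (Fin n) ℂ}
    (hτ : ∀ i j, AnalyticOnNhd ℂ (fun x => τ x i j) X) (hS : ∀ x ∈ X, Sg (τ x)) :
    AnalyticOnNhd ℂ (fun p : P × Vn n => N (τ p.1) p.2) (X ×ˢ Set.univ) := by
  refine Pool.Agent.Lib.SCV.osgood (hX.prod isOpen_univ) fun p hp => ?_
  refine DifferentiableAt.differentiableWithinAt ?_
  obtain ⟨c, hc, hq⟩ := coer (hS p.1 hp.1).2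
  set A := ∑ i, ∑ j, ‖τ p.1 i j‖ + l1 p.2.1 + l1 p.2.2 + c + 1 with hA
  have a0 := l1_nn p.2.1
  have b0 := l1_nn p.2.2
  have t0 : 0 ≤ ∑ i, ∑ j, ‖τ p.1 i j‖ := by positivity
  obtain ⟨K, hK⟩ := ex_bound (n := n) (half_pos hc) (A := A) (by positivity)
  have hev : ∀ᶠ q : P × Vn n in nhds p, q.1 ∈ X ∧ (∀ i j, ‖τ q.1 i j - τ p.1 i j‖ < c / 2) ∧
      l1 q.2.1 < A ∧ l1 q.2.2 < A := by
    refine (continuous_fst.continuousAt.eventually (hX.mem_nhds hp.1)).and
      (Filter.Eventually.and ?_ (Filter.Eventually.and ?_ ?_))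
    · refine Filter.eventually_all.2 fun i => Filter.eventually_all.2 fun j => ?_
      have h1 : ContinuousAt (fun q : P × Vn n => ‖τ q.1 i j - τ p.1 i j‖) p :=
        (((hτ i j p.1 hp.1).continuousAt.comp continuousAt_fst).sub continuousAt_const).norm
      exact h1.eventually (gt_mem_nhds (by simpa using hc))
    · have h1 : Continuous fun q : P × Vn n => l1 q.2.1 := by unfold l1; fun_prop
      exact h1.continuousAt.eventually (gt_mem_nhds (by simp only [hA]; linarith))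
    · have h1 : Continuous fun q : P × Vn n => l1 q.2.2 := by unfold l1; fun_prop
      exact h1.continuousAt.eventually (gt_mem_nhds (by simp only [hA]; linarith))
  obtain ⟨δ, hδ, hb⟩ := Metric.eventually_nhds_iff_ball.1 hev
  rw [show δ = 2 * (δ / 2) by ring] at hb
  refine diff_tsum (f := fun (m : Fin n → ℤ) (q : P × Vn n) => exp (ex (τ q.1) q.2 m))
    (summ_l1.mul_left K) (half_pos hδ) (fun m q hq' => ?_) fun m q hq' => ?_
  · refine DifferentiableAt.differentiableWithinAt (DifferentiableAt.cexp ?_)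
    have h1 : ∀ i j, DifferentiableAt ℂ (fun q : P × Vn n => τ q.1 i j) q := fun i j =>
      (hτ i j q.1 (hb q hq').1).differentiableAt.comp q differentiableAt_fst
    have h2 : ∀ i, DifferentiableAt ℂ (fun q : P × Vn n => q.2.1 i) q := fun i => by fun_prop
    have h3 : ∀ i, DifferentiableAt ℂ (fun q : P × Vn n => q.2.2 i) q := fun i => by fun_prop
    simp only [ex, dotProduct, mulVec, Pi.add_apply]
    exact ((((DifferentiableAt.fun_sum fun i _ => ((h2 i).add_const _).fun_mul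
      (DifferentiableAt.fun_sum fun j _ => (h1 i j).fun_mul ((h2 j).add_const _))).fun_sub
      (DifferentiableAt.fun_sum fun i _ => (h2 i).fun_mul (h3 i))).fun_sub
      ((DifferentiableAt.fun_sum fun i _ => (h3 i).const_mul _).const_mul _))).const_mul _
  · obtain ⟨-, k1, k2, k3⟩ := hb q hq'
    refine hK _ _ (fun i j => ?_) k2.le k3.le (fun t => ?_) m
    · have h1 : ‖τ p.1 i j‖ ≤ ∑ i, ∑ j, ‖τ p.1 i j‖ :=
        (Finset.single_le_sum (f := fun j => ‖τ p.1 i j‖) (fun _ _ => norm_nonneg _)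
          (Finset.mem_univ j)).trans (Finset.single_le_sum (f := fun i => ∑ j, ‖τ p.1 i j‖)
            (fun _ _ => by positivity) (Finset.mem_univ i))
      have h2 := norm_sub_norm_le (τ q.1 i j) (τ p.1 i j)
      have := k1 i j
      linarith only [hc, a0, b0, h1, h2, this]
    · have h1 := norm_qf (τ := τ q.1 - τ p.1) (fun i j => (k1 i j).le) (rc t) (rc t)
      have h2 := (neg_le_abs _).trans ((abs_im_le_norm _).trans h1)
      rw [sub_mulVec, dotProduct_sub, sub_im] at h2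
      have := hq t
      linarith only [h2, this]

theorem N_ent {τ : Matrix (Fin n) (Fin n) ℂ} (hS : Sg τ) : AnalyticOnNhd ℂ (N τ) Set.univ := by
  have h := N_an (P := ℂ) isOpen_univ (τ := fun _ => τ) (fun _ _ => analyticOnNhd_const)
    fun _ _ => hS
  intro y _
  exact (h (0, y) ⟨trivial, trivial⟩).comp (f := fun y : Vn n => ((0 : ℂ), y))
    (analyticAt_const.prod analyticAt_id)

theorem N_summ {τ : Matrix (Fin n) (Fin n) ℂ} (hS : Sg τ) (y : Vn n) :
    Summable fun m : Fin n → ℤ => ‖exp (ex τ y m)‖ := by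
  obtain ⟨c, hc, hq⟩ := coer hS.2
  have a0 := l1_nn y.1
  have b0 := l1_nn y.2
  have t0 : 0 ≤ ∑ i, ∑ j, ‖τ i j‖ := by positivity
  obtain ⟨K, hK⟩ := ex_bound (n := n) hc (A := ∑ i, ∑ j, ‖τ i j‖ + l1 y.1 + l1 y.2)
    (by positivity)
  refine (summ_l1.mul_left K).of_nonneg_of_le (fun _ => norm_nonneg _)
    (hK τ y (fun i j => ?_) (by linarith) (by linarith) hq)
  have h1 : ‖τ i j‖ ≤ ∑ i, ∑ j, ‖τ i j‖ :=
    (Finset.single_le_sum (f := fun j => ‖τ i j‖) (fun _ _ => norm_nonneg _)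
      (Finset.mem_univ j)).trans (Finset.single_le_sum (f := fun i => ∑ j, ‖τ i j‖)
        (fun _ _ => by positivity) (Finset.mem_univ i))
  linarith

open MeasureTheory in
theorem N_one {τ : Matrix (Fin n) (Fin n) ℂ} (hS : Sg τ) :
    ∃ t : Fin n → ℝ, 1 ≤ ‖N τ (0, rc t)‖ := by
  by_contra! hcon
  have : IsProbabilityMeasure (volume.restrict (Set.Ioc (0 : ℝ) 1)) := ⟨by simp only [MeasurableSet.univ, Measure.restrict_apply, Set.univ_inter, Real.volume_Ioc, sub_zero, ENNReal.ofReal_one]⟩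
  set μ : Measure (Fin n → ℝ) := Measure.pi fun _ => volume.restrict (Set.Ioc (0 : ℝ) 1) with hμ
  have e : ∀ (m : Fin n → ℤ) (t : Fin n → ℝ), exp (ex τ (0, rc t) m) =
      exp (ex τ 0 m) * ∏ i, exp (-(2 * Real.pi * I * m i) * t i) := by
    intro m t
    rw [← exp_sum, ← exp_add]
    congr 1
    simp only [ex, Prod.fst_zero, Prod.snd_zero, zero_add, zero_dotProduct, dotProduct_zero]
    generalize zc m ⬝ᵥ τ *ᵥ zc m = w
    simp only [dotProduct, zc, rc, Finset.mul_sum, mul_zero, sub_eq_add_neg,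
      ← Finset.sum_neg_distrib, mul_add, neg_zero, add_zero]
    congr 1
    exact Finset.sum_congr rfl fun i _ => by ring
  have en : ∀ (m : Fin n → ℤ) (t : Fin n → ℝ), ‖exp (ex τ (0, rc t) m)‖ = ‖exp (ex τ 0 m)‖ := by
    intro m t
    rw [e, norm_mul, norm_prod, Finset.prod_eq_one, mul_one]
    intro i _
    rw [norm_exp]; simp
  have hrc : Continuous fun t : Fin n → ℝ => ((0, rc t) : Vn n) := by unfold rc; fun_prop
  have hi : ∀ m : Fin n → ℤ, Integrable (fun t => exp (ex τ (0, rc t) m)) μ := fun m => by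
    refine Integrable.of_bound (Continuous.aestronglyMeasurable ?_) _
      (Filter.Eventually.of_forall fun t => (en m t).le)
    simp only [e]; fun_prop
  have h1 := integral_tsum_of_summable_integral_norm hi (by simpa [en] using N_summ hS 0)
  have h2 : ∀ m : Fin n → ℤ, m ≠ 0 → ∫ t, exp (ex τ (0, rc t) m) ∂μ = 0 := by
    intro m hm
    obtain ⟨i, hi⟩ := Function.ne_iff.1 hm
    simp only [e]
    rw [integral_const_mul, hμ, integral_fintype_prod_eq_prod
      (fun i (s : ℝ) => exp (-(2 * Real.pi * I * m i) * s)),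
      Finset.prod_eq_zero (Finset.mem_univ i), mul_zero]
    have h0 : -(2 * Real.pi * I * m i) ≠ 0 :=
      neg_ne_zero.2 (mul_ne_zero two_pi_I_ne_zero (by exact_mod_cast hi))
    rw [← intervalIntegral.integral_of_le zero_le_one, integral_exp_mul_complex h0]
    have h3 : exp (-(2 * Real.pi * I * m i) * (1 : ℝ)) = 1 := by
      rw [exp_eq_one_iff]; exact ⟨-m i, by push_cast; ring⟩
    rw [h3]; simp
  rw [tsum_eq_single 0 h2] at h1
  have h3 : ∫ t, N τ (0, rc t) ∂μ = 1 := by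
    refine h1.symm.trans ?_
    have z0 : zc (0 : Fin n → ℤ) = 0 := by ext i; simp [zc]
    simp only [ex, z0, add_zero, mulVec_zero, dotProduct_zero, zero_dotProduct, sub_self, mul_zero, exp_zero, integral_const, probReal_univ, one_smul]
  have hc : Continuous fun t : Fin n → ℝ => ‖N τ (0, rc t)‖ :=
    ((continuousOn_univ.1 (N_ent hS).continuousOn).comp hrc).norm
  have h4 : Integrable (fun t => ‖N τ (0, rc t)‖) μ :=
    Integrable.of_bound hc.aestronglyMeasurable 1
      (Filter.Eventually.of_forall fun t => by simpa only [norm_norm] using (hcon t).le)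
  have h5 := (integral_pos_iff_support_of_nonneg (μ := μ) (f := fun t => 1 - ‖N τ (0, rc t)‖)
    (fun t => sub_nonneg.2 (hcon t).le) ((integrable_const 1).sub h4)).2 (by
      rw [show Function.support (fun t => 1 - ‖N τ (0, rc t)‖) = Set.univ from
        Set.eq_univ_of_forall fun t => (sub_pos.2 (hcon t)).ne']
      simp)
  rw [integral_sub (integrable_const 1) h4] at h5
  have h6 := norm_integral_le_integral_norm (μ := μ) fun t => N τ (0, rc t)
  rw [h3] at h6
  simp only [integral_const, probReal_univ, smul_eq_mul, mul_one, sub_pos, norm_one] at h5 h6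
  linarith only [h5, h6]

end GPCW

end

section

/-! Uniqueness of the theta function, density of rational points, Lagrangian graphs. -/

open Complex MeasureTheory Matrix

namespace GPCW

variable {n : ℕ}

/-- Haar measure of the torus. -/
noncomputable def uqμ (n : ℕ) : Measure (UnitAddTorus (Fin n)) :=
  Measure.pi fun _ => AddCircle.haarAddCircle

instance (n : ℕ) : IsProbabilityMeasure (uqμ n) := by unfold uqμ; infer_instance

instance (n : ℕ) : (uqμ n).IsAddLeftInvariant := by unfold uqμ; infer_instance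

/-- A representative in the cube. -/
noncomputable def uqr (t : UnitAddTorus (Fin n)) : Fin n → ℂ :=
  fun i => ((AddCircle.equivIoc 1 0 (t i)).1 : ℝ)

/-- Periodic functions. -/
def uqP {E : Type} (φ : (Fin n → ℂ) → E) : Prop :=
  ∀ (m : Fin n → ℤ) (z : Fin n → ℂ), φ (z + fun i => (m i : ℂ)) = φ z

theorem uq_coe (t : UnitAddTorus (Fin n)) (i : Fin n) :
    (((AddCircle.equivIoc 1 0 (t i)).1 : ℝ) : UnitAddCircle) = t i :=
  (AddCircle.equivIoc 1 0).symm_apply_apply (t i)

theorem uq_rep {E : Type} {φ : (Fin n → ℂ) → E} (h : uqP φ) (z : Fin n → ℂ) (x : Fin n → ℝ)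
    (t : UnitAddTorus (Fin n)) :
    φ (z + uqr ((fun i => (x i : UnitAddCircle)) + t)) = φ (z + (fun i => (x i : ℂ)) + uqr t) := by
  have : ∀ i, ∃ m : ℤ, uqr ((fun i => (x i : UnitAddCircle)) + t) i = x i + uqr t i + m := by
    intro i
    have h1 := uq_coe ((fun i => (x i : UnitAddCircle)) + t) i
    have h2 := uq_coe t i
    have h3 : ((((AddCircle.equivIoc 1 0 (((fun i => (x i : UnitAddCircle)) + t) i)).1 -
        (x i + (AddCircle.equivIoc 1 0 (t i)).1) : ℝ)) : UnitAddCircle) = 0 := by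
      rw [AddCircle.coe_sub, AddCircle.coe_add, h1, h2]; simp
    obtain ⟨m, hm⟩ := (AddCircle.coe_eq_zero_iff _).1 h3
    refine ⟨m, ?_⟩
    have h4 := congrArg (fun r : ℝ => (r : ℂ)) hm
    simp only [zsmul_eq_mul, mul_one, ofReal_intCast, ofReal_sub, ofReal_add] at h4
    simp only [uqr]
    linear_combination -h4
  choose m hm using this
  rw [← h m (z + (fun i => (x i : ℂ)) + uqr t)]
  congr 1
  funext i
  simp only [Pi.add_apply, hm]
  ring

theorem uq_norm (t : UnitAddTorus (Fin n)) : ‖uqr t‖ ≤ 1 := by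
  refine (pi_norm_le_iff_of_nonneg zero_le_one).2 fun i => ?_
  have := (AddCircle.equivIoc 1 0 (t i)).2
  simp only [uqr, norm_real, Real.norm_eq_abs]
  rw [abs_le]
  constructor <;> linarith [this.1, this.2]

theorem uq_cont {φ : (Fin n → ℂ) → ℂ} (h : uqP φ) (hc : Continuous φ) (z : Fin n → ℂ) :
    Continuous fun t => φ (z + uqr t) := by
  have hq : IsOpenQuotientMap (Pi.map fun (_ : Fin n) (x : ℝ) => (x : UnitAddCircle)) :=
    IsOpenQuotientMap.piMap fun _ => QuotientAddGroup.isOpenQuotientMap_mk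
  rw [hq.isQuotientMap.continuous_iff]
  have : ((fun t => φ (z + uqr t)) ∘ Pi.map fun (_ : Fin n) (x : ℝ) => (x : UnitAddCircle)) =
      fun x : Fin n → ℝ => φ (z + (fun i => (x i : ℂ)) + uqr 0) := by
    funext x
    rw [← uq_rep h z x 0, add_zero]
    rfl
  rw [this]
  fun_prop

/-- The mean over the real periods. -/
noncomputable def uqA (φ : (Fin n → ℂ) → ℂ) (z : Fin n → ℂ) : ℂ := ∫ t, φ (z + uqr t) ∂uqμ n

theorem uq_real {φ : (Fin n → ℂ) → ℂ} (h : uqP φ) (z : Fin n → ℂ) (x : Fin n → ℝ) :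
    uqA φ (z + fun i => (x i : ℂ)) = uqA φ z := by
  unfold uqA
  rw [← integral_add_left_eq_self (fun t => φ (z + uqr t)) (fun i => (x i : UnitAddCircle))]
  simp only [uq_rep h]

theorem uq_int {φ : (Fin n → ℂ) → ℂ} (h : uqP φ) (hc : Continuous φ) (z : Fin n → ℂ) :
    Integrable (fun t => φ (z + uqr t)) (uqμ n) :=
  (uq_cont h hc z).integrable_of_hasCompactSupport (HasCompactSupport.of_compactSpace _)

theorem uq_diff {φ : (Fin n → ℂ) → ℂ} (h : uqP φ) (ha : AnalyticOnNhd ℂ φ Set.univ)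
    (z v : Fin n → ℂ) : Differentiable ℂ fun w : ℂ => uqA φ (z + w • v) := by
  intro w0
  have hc : Continuous φ := continuousOn_univ.1 ha.continuousOn
  have hc' : Continuous fun y => fderiv ℂ φ y v :=
    (continuousOn_univ.1 ha.fderiv.continuousOn).clm_apply continuous_const
  have hp' : uqP fun y => fderiv ℂ φ y v := by
    intro m y
    have : (fun x => φ (x + fun i => (m i : ℂ))) = φ := funext (h m)
    simp only
    rw [← fderiv_comp_add_right, this]
  obtain ⟨C, hC⟩ := (isCompact_closedBall z ((‖w0‖ + 1) * ‖v‖ + 1)).exists_bound_of_continuousOn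
    hc'.continuousOn
  refine (hasDerivAt_integral_of_dominated_loc_of_deriv_le (μ := uqμ n)
    (F := fun w t => φ (z + w • v + uqr t)) (F' := fun w t => fderiv ℂ φ (z + w • v + uqr t) v)
    (bound := fun _ => C) (Metric.ball_mem_nhds w0 one_pos)
    (Filter.Eventually.of_forall fun w => (uq_cont h hc _).aestronglyMeasurable)
    (uq_int h hc _) (uq_cont hp' hc' _).aestronglyMeasurable
    (Filter.Eventually.of_forall fun t w hw => hC _ ?_) (integrable_const _)
    (Filter.Eventually.of_forall fun t w _ => ?_)).2.differentiableAt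
  · rw [mem_closedBall_iff_norm, add_assoc, add_sub_cancel_left]
    have h1 : ‖w‖ ≤ ‖w0‖ + 1 := by
      have := norm_sub_norm_le w w0
      have := mem_ball_iff_norm.1 hw
      linarith
    refine (norm_add_le _ _).trans (add_le_add ?_ (uq_norm t))
    rw [norm_smul]
    gcongr
  · have h1 : HasDerivAt (fun w : ℂ => z + w • v + uqr t) v w := by
      simpa using (((hasDerivAt_id w).smul_const v).const_add z).add_const (uqr t)
    exact (ha _ (Set.mem_univ _)).differentiableAt.hasFDerivAt.comp_hasDerivAt w h1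

theorem uq_const {φ : (Fin n → ℂ) → ℂ} (h : uqP φ) (ha : AnalyticOnNhd ℂ φ Set.univ)
    (z : Fin n → ℂ) : uqA φ z = uqA φ 0 := by
  set x : Fin n → ℂ := fun i => ((z i).re : ℂ) with hx
  set v : Fin n → ℂ := fun i => ((z i).im : ℂ) with hv
  have h1 : AnalyticOnNhd ℂ (fun w : ℂ => uqA φ (x + w • v)) Set.univ :=
    (uq_diff h ha x v).differentiableOn.analyticOnNhd isOpen_univ
  have h2 : (fun w : ℂ => uqA φ (x + w • v)) = fun _ => uqA φ 0 := by
    refine AnalyticOnNhd.eq_of_frequently_eq h1 analyticOnNhd_const (z₀ := 0) ?_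
    have h3 : Filter.Tendsto (fun r : ℝ => (r : ℂ)) (nhdsWithin 0 {0}ᶜ) (nhdsWithin 0 {0}ᶜ) := by
      refine tendsto_nhdsWithin_iff.2 ⟨?_, ?_⟩
      · exact (continuous_ofReal.tendsto' 0 0 (by simp)).mono_left nhdsWithin_le_nhds
      · exact eventually_nhdsWithin_of_forall fun r hr => by simpa using hr
    refine h3.frequently (Filter.Frequently.of_forall fun r => ?_)
    have h4 := uq_real h 0 fun i => (z i).re + r * (z i).im
    rw [← h4]
    congr 1
    funext i
    simp [hx, hv]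
  have h5 := congrFun h2 I
  rw [← h5]
  congr 1
  funext i
  simp only [hx, hv, Pi.add_apply, Pi.smul_apply, smul_eq_mul]
  rw [mul_comm, re_add_im]

theorem uq_core {g : (Fin n → ℂ) → ℂ} (h : uqP g) (ha : AnalyticOnNhd ℂ g Set.univ)
    (hk : ∀ k : Fin n → ℤ, ∃ (w : Fin n → ℂ) (c : ℂ), ∀ z,
      g (w + z) = c * exp (2 * Real.pi * I * ∑ i, k i * z i) * g z) (h0 : uqA g 0 = 0) :
    g = 0 := by
  have hc : Continuous g := continuousOn_univ.1 ha.continuousOn
  funext z
  let f : C(UnitAddTorus (Fin n), ℂ) := ⟨fun t => g (z + uqr t), uq_cont h hc z⟩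
  have hf : UnitAddTorus.mFourierCoeff f = 0 := by
    funext k
    obtain ⟨w, c, hw⟩ := hk k
    let φ : (Fin n → ℂ) → ℂ := fun y => exp (-(2 * Real.pi * I * ∑ i, k i * y i)) * g y
    have hp : uqP φ := by
      intro m y
      simp only [φ, h m y, Pi.add_apply, mul_add, Finset.sum_add_distrib, neg_add, exp_add]
      have : exp (-(2 * Real.pi * I * ∑ i, (k i : ℂ) * m i)) = 1 := by
        rw [exp_eq_one_iff]
        exact ⟨-∑ i, k i * m i, by push_cast; ring⟩
      rw [this, mul_one]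
    have hφ : AnalyticOnNhd ℂ φ Set.univ := by
      intro y hy
      refine AnalyticAt.mul (AnalyticAt.cexp' ?_) (ha y hy)
      refine (analyticAt_const.mul ?_).neg
      exact Finset.analyticAt_fun_sum _ fun i _ => analyticAt_const.mul
        ((ContinuousLinearMap.proj (R := ℂ) (φ := fun _ : Fin n => ℂ) i).analyticAt y)
    have h1 : uqA φ w = 0 := by
      have : ∀ t, φ (w + uqr t) =
          (c * exp (-(2 * Real.pi * I * ∑ i, k i * w i))) * g (0 + uqr t) := by
        intro t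
        simp only [φ, hw, Pi.add_apply, mul_add, Finset.sum_add_distrib, neg_add, exp_add, zero_add]
        have := exp_ne_zero (2 * Real.pi * I * ∑ i, k i * uqr t i)
        rw [Complex.exp_neg (2 * Real.pi * I * ∑ i, k i * uqr t i)]
        field_simp
      simp only [uqA, this, integral_const_mul] at h0 ⊢
      rw [h0, mul_zero]
    have h2 : uqA φ z = exp (-(2 * Real.pi * I * ∑ i, k i * z i)) *
        UnitAddTorus.mFourierCoeff f k := by
      have h3 : UnitAddTorus.mFourierCoeff f k =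
        ∫ t, UnitAddTorus.mFourier (-k) t • g (z + uqr t) ∂uqμ n := rfl
      rw [h3, ← integral_const_mul, uqA]
      congr 1
      funext t
      have h4 : UnitAddTorus.mFourier (-k) t = exp (-(2 * Real.pi * I * ∑ i, k i * uqr t i)) := by
        simp only [UnitAddTorus.mFourier, ContinuousMap.coe_mk]
        rw [Finset.mul_sum, ← Finset.sum_neg_distrib, exp_sum]
        refine Finset.prod_congr rfl fun i _ => ?_
        rw [← uq_coe t i, fourier_coe_apply]
        congr 1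
        simp [uqr]
        ring
      simp only [φ, h4, Pi.add_apply, mul_add, Finset.sum_add_distrib, neg_add, exp_add,
        smul_eq_mul, mul_assoc]
    rw [uq_const hp hφ z, ← uq_const hp hφ w, h1] at h2
    exact (mul_eq_zero.1 h2.symm).resolve_left (exp_ne_zero _)
  have h5 : ∀ t, g (z + uqr t) = 0 := by
    intro t
    have := UnitAddTorus.hasSum_mFourier_series_apply_of_summable (f := f)
      (by rw [hf]; exact summable_zero) t
    simp only [hf, Pi.zero_apply, zero_smul] at this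
    exact this.unique hasSum_zero
  have h6 := h (fun _ => 1) z
  have h7 : uqr (0 : UnitAddTorus (Fin n)) = fun _ => ((1 : ℤ) : ℂ) := by
    funext i
    have : (0 : UnitAddTorus (Fin n)) i = ((1 : ℝ) : UnitAddCircle) :=
      (AddCircle.coe_period 1).symm
    simp only [uqr, this]
    rw [AddCircle.equivIoc_coe_eq (by simp only [zero_add, Set.mem_Ioc, zero_lt_one, Std.le_refl, and_self])]
    simp
  rw [← h6, ← h7, h5]
  rfl

/-- The invariances of the theta function. -/
structure TI (τ : Matrix (Fin n) (Fin n) ℂ) (G : Vn n → ℂ) : Prop where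
  en : AnalyticOnNhd ℂ G Set.univ
  lam : ∀ (l : Fin n → ℤ) (y : Vn n), exp (-Bn (zc l, 0) y) * G (y + (zc l, 0)) = G y
  mu : ∀ (l : Fin n → ℤ) (y : Vn n), exp (-Bn (0, zc l) y) * G (y + (0, zc l)) = G y
  tr : ∀ (u : Fin n → ℂ) (y : Vn n), exp (-Bn y (u, τ *ᵥ u)) * G (y + (u, τ *ᵥ u)) = G y

theorem TI.zero {τ : Matrix (Fin n) (Fin n) ℂ} {G : Vn n → ℂ} (h : TI τ G)
    (h0 : uqA (fun z => G (0, z)) 0 = 0) : G = 0 := by
  have h1 : (fun z => G (0, z)) = 0 := by
    refine uq_core (fun m z => ?_) (fun z _ => ?_) (fun k => ?_) h0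
    · simpa [Bn] using! h.mu m (0, z)
    · exact (h.en _ (Set.mem_univ _)).comp (analyticAt_const.prod analyticAt_id)
    · refine ⟨-(τ *ᵥ zc k), exp (-(Real.pi * I * (zc k ⬝ᵥ τ *ᵥ zc k))), fun z => ?_⟩
      have a1 := h.lam k (0, z)
      have a2 := h.tr (zc k) (0, -(τ *ᵥ zc k) + z)
      simp only [Bn, Prod.mk_add_mk, zero_add, add_zero, zero_dotProduct, dotProduct_zero,
        neg_add_cancel_comm, sub_zero, zero_sub] at a1 a2
      rw [← a1, ← a2, ← mul_assoc, ← exp_add, ← exp_add]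
      congr 2
      simp only [add_dotProduct, neg_dotProduct, dotProduct_comm (τ *ᵥ zc k) (zc k),
        dotProduct_comm z (zc k)]
      simp only [dotProduct, zc]
      ring
  funext y
  have a2 := h.tr y.1 (0, y.2 - τ *ᵥ y.1)
  have a3 := congrFun h1 (y.2 - τ *ᵥ y.1)
  simp only [Prod.mk_add_mk, zero_add, sub_add_cancel, Pi.zero_apply] at a2 a3
  rw [a3] at a2
  exact (mul_eq_zero.1 a2).resolve_left (exp_ne_zero _)

theorem TI.lin {τ : Matrix (Fin n) (Fin n) ℂ} {G G' : Vn n → ℂ} (h : TI τ G) (h' : TI τ G')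
    (c : ℂ) : TI τ fun y => G y - c * G' y :=
  ⟨h.en.sub (analyticOnNhd_const.mul h'.en),
    fun l y => by linear_combination h.lam l y - c * h'.lam l y,
    fun l y => by linear_combination h.mu l y - c * h'.mu l y,
    fun l y => by linear_combination h.tr l y - c * h'.tr l y⟩

theorem TI.int {τ : Matrix (Fin n) (Fin n) ℂ} {G : Vn n → ℂ} (h : TI τ G) :
    Integrable (fun t => G (0, 0 + uqr t)) (uqμ n) :=
  uq_int (φ := fun z => G (0, z)) (fun m z => by simpa [Bn] using! h.mu m (0, z))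
    ((continuousOn_univ.1 h.en.continuousOn).comp (by fun_prop)) 0

theorem TI.uq {τ : Matrix (Fin n) (Fin n) ℂ} {G G' : Vn n → ℂ} (h : TI τ G) (h' : TI τ G')
    (h0 : G' ≠ 0) : ∃ c : ℂ, ∀ y, G y = c * G' y := by
  have h1 : uqA (fun z => G' (0, z)) 0 ≠ 0 := fun e => h0 (h'.zero e)
  refine ⟨uqA (fun z => G (0, z)) 0 / uqA (fun z => G' (0, z)) 0, fun y => ?_⟩
  refine sub_eq_zero.1 (congrFun ((h.lin h' _).zero ?_) y)
  unfold uqA at h1 ⊢
  rw [integral_sub h.int (h'.int.const_mul _), integral_const_mul, div_mul_cancel₀ _ h1, sub_self]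

theorem TI_N {τ : Matrix (Fin n) (Fin n) ℂ} (hS : Sg τ) : TI τ (N τ) :=
  ⟨N_ent hS, N_lam τ, N_mu τ, N_T hS.1⟩

theorem N_ne {τ : Matrix (Fin n) (Fin n) ℂ} (hS : Sg τ) : N τ ≠ 0 := by
  obtain ⟨t, ht⟩ := N_one hS
  intro h
  rw [h] at ht
  norm_num at ht

/-- Uniqueness of the theta function. -/
theorem UQ {τ : Matrix (Fin n) (Fin n) ℂ} (hS : Sg τ) {G : Vn n → ℂ}
    (hG : AnalyticOnNhd ℂ G Set.univ)
    (hl : ∀ (l : Fin n → ℤ) (y : Vn n), exp (-Bn (zc l, 0) y) * G (y + (zc l, 0)) = G y)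
    (hm : ∀ (l : Fin n → ℤ) (y : Vn n), exp (-Bn (0, zc l) y) * G (y + (0, zc l)) = G y)
    (hT : ∀ (u : Fin n → ℂ) (y : Vn n),
      exp (-Bn y (u, τ *ᵥ u)) * G (y + (u, τ *ᵥ u)) = G y) : ∃ c : ℂ, ∀ y, G y = c * N τ y :=
  TI.uq ⟨hG, hl, hm, hT⟩ (TI_N hS) (N_ne hS)

/-- Density of the rational points. -/
theorem DEN {V ι : Type*} [NormedAddCommGroup V] [NormedSpace ℂ V] [Fintype ι] {b : ι → V}
    (hb : Submodule.span ℂ (Set.range b) = ⊤) {G : V → ℂ} (hG : AnalyticOnNhd ℂ G Set.univ)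
    (h0 : ∀ q : ι → ℚ, G (∑ i, (q i : ℂ) • b i) = 0) : G = 0 := by
  have hc : Continuous G := continuousOn_univ.1 hG.continuousOn
  have h1 : ∀ x : ι → ℝ, G (∑ i, (x i : ℂ) • b i) = 0 := by
    intro x
    have hd : DenseRange (Pi.map fun (_ : ι) (q : ℚ) => (q : ℝ)) :=
      DenseRange.piMap fun _ => Rat.denseRange_cast
    refine hd.induction_on (p := fun x => G (∑ i, (x i : ℂ) • b i) = 0) x
      (isClosed_eq (by fun_prop) continuous_const) fun q => ?_
    simpa only [Pi.map_apply, ofReal_ratCast] using h0 q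
  funext y
  obtain ⟨z, rfl⟩ := (Submodule.mem_span_range_iff_exists_fun ℂ).1 (hb ▸ Submodule.mem_top (x := y))
  have h2 : AnalyticOnNhd ℂ (fun w : ℂ => G (∑ i, ((z i).re + w * (z i).im) • b i)) Set.univ := by
    intro w _
    refine (hG _ (Set.mem_univ _)).comp (Finset.analyticAt_fun_sum _ fun i _ => ?_)
    exact (analyticAt_const.add (analyticAt_id.mul analyticAt_const)).smul analyticAt_const
  have h3 : (fun w : ℂ => G (∑ i, ((z i).re + w * (z i).im) • b i)) = fun _ => 0 := by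
    refine AnalyticOnNhd.eq_of_frequently_eq h2 analyticOnNhd_const (z₀ := 0) ?_
    have h3 : Filter.Tendsto (fun r : ℝ => (r : ℂ)) (nhdsWithin 0 {0}ᶜ) (nhdsWithin 0 {0}ᶜ) := by
      refine tendsto_nhdsWithin_iff.2 ⟨?_, ?_⟩
      · exact (continuous_ofReal.tendsto' 0 0 (by simp)).mono_left nhdsWithin_le_nhds
      · exact eventually_nhdsWithin_of_forall fun r hr => by simpa using hr
    refine h3.frequently (Filter.Frequently.of_forall fun r => ?_)
    simpa only [ofReal_add, ofReal_mul] using h1 fun i => (z i).re + r * (z i).im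
  have h5 := congrFun h3 I
  simpa only [mul_comm I, re_add_im] using! h5

theorem gr_det {P : Type*} [NormedAddCommGroup P] [NormedSpace ℂ P] {x : P}
    {A : P → Matrix (Fin n) (Fin n) ℂ} (h : ∀ i j, AnalyticAt ℂ (fun x => A x i j) x) :
    AnalyticAt ℂ (fun x => (A x).det) x := by
  simp only [det_apply']
  exact Finset.analyticAt_fun_sum _ fun σ _ =>
    analyticAt_const.mul (Finset.analyticAt_fun_prod _ fun i _ => h _ _)

/-- A positive Lagrangian family is the graph of a family of points of the Siegel space. -/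
theorem GRAPH {P : Type*} [NormedAddCommGroup P] [NormedSpace ℂ P] {X : Set P}
    {f : P → Fin n → Vn n} (hf : ∀ i, AnalyticOnNhd ℂ (fun x => f x i) X)
    (hL : ∀ x ∈ X, ∀ i j, Bn (f x i) (f x j) = 0)
    (hp : ∀ x ∈ X, ∀ c : Fin n → ℂ, c ≠ 0 →
      0 < (Bn (∑ i, c i • f x i) (star (∑ i, c i • f x i))).re) :
    ∃ τ : P → Matrix (Fin n) (Fin n) ℂ, (∀ i j, AnalyticOnNhd ℂ (fun x => τ x i j) X) ∧
      ∀ x ∈ X, Sg (τ x) ∧
        ∀ v : Vn n, v ∈ Submodule.span ℂ (Set.range (f x)) ↔ v.2 = τ x *ᵥ v.1 := by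
  let A : P → Matrix (Fin n) (Fin n) ℂ := fun x => of fun i j => (f x j).1 i
  let B : P → Matrix (Fin n) (Fin n) ℂ := fun x => of fun i j => (f x j).2 i
  have hs : ∀ x (c : Fin n → ℂ), ∑ i, c i • f x i = (A x *ᵥ c, B x *ᵥ c) := by
    intro x c
    ext i <;> simp only [Prod.fst_sum, Prod.smul_fst, Finset.sum_apply, Pi.smul_apply, smul_eq_mul, mulVec, dotProduct, A, of_apply, mul_comm, Prod.snd_sum, Prod.smul_snd, B]
  have hd : ∀ x ∈ X, (A x).det ≠ 0 := by
    intro x hx h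
    obtain ⟨c, hc, h1⟩ := Matrix.exists_mulVec_eq_zero_iff.2 h
    have := hp x hx c hc
    rw [hs, h1] at this
    simp only [Bn, Prod.snd_star, zero_dotProduct, Prod.fst_star, star_zero, dotProduct_zero, sub_self, mul_zero, zero_re, lt_self_iff_false] at this
  have hA : ∀ x ∈ X, ∀ i j, AnalyticAt ℂ (fun x => A x i j) x := fun x hx i j =>
    ((ContinuousLinearMap.proj (R := ℂ) (φ := fun _ : Fin n => ℂ) i).analyticAt _).comp
      (analyticAt_fst.comp (hf j x hx))
  have hB : ∀ x ∈ X, ∀ i j, AnalyticAt ℂ (fun x => B x i j) x := fun x hx i j =>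
    ((ContinuousLinearMap.proj (R := ℂ) (φ := fun _ : Fin n => ℂ) i).analyticAt _).comp
      (analyticAt_snd.comp (hf j x hx))
  refine ⟨fun x => B x * (A x)⁻¹, fun i j x hx => ?_, fun x hx => ?_⟩
  · simp only [mul_apply, Matrix.inv_def, Ring.inverse_eq_inv', Matrix.smul_apply, smul_eq_mul,
      adjugate_apply]
    refine Finset.analyticAt_fun_sum _ fun k _ => (hB x hx i k).mul
      (((gr_det (hA x hx)).inv (hd x hx)).mul (gr_det fun a b => ?_))
    simp only [updateRow_apply]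
    split_ifs
    · exact analyticAt_const
    · exact hA x hx a b
  have hu : IsUnit (A x).det := (hd x hx).isUnit
  have h1 : ∀ u, A x *ᵥ ((A x)⁻¹ *ᵥ u) = u := fun u => by
    rw [mulVec_mulVec, mul_nonsing_inv _ hu, one_mulVec]
  have hsym : (B x * (A x)⁻¹).IsSymm := by
    have h2 : (A x)ᵀ * B x = (B x)ᵀ * A x := by
      ext i j
      have := hL x hx i j
      simp only [Bn, mul_eq_zero, ofReal_eq_zero, Real.pi_ne_zero, I_ne_zero, or_self, false_or,
        sub_eq_zero] at this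
      simpa only [A, B, mul_apply, transpose_apply, of_apply, dotProduct] using this
    have hu' : IsUnit (A x)ᵀ.det := by rwa [det_transpose]
    rw [IsSymm, transpose_mul, transpose_nonsing_inv]
    calc (A x)ᵀ⁻¹ * (B x)ᵀ = (A x)ᵀ⁻¹ * ((B x)ᵀ * A x) * (A x)⁻¹ := by
          rw [Matrix.mul_assoc, Matrix.mul_assoc, mul_nonsing_inv _ hu, Matrix.mul_one]
      _ = B x * (A x)⁻¹ := by
          rw [← h2, ← Matrix.mul_assoc, nonsing_inv_mul _ hu', Matrix.one_mul]
  refine ⟨⟨hsym, ?_⟩, fun v => ?_⟩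
  · refine PosDef.of_dotProduct_mulVec_pos ?_ fun t ht => ?_
    · ext i j
      simpa using congrArg Complex.im (hsym.apply i j)
    · have h3 : (A x)⁻¹ *ᵥ rc t ≠ 0 := by
        intro h
        have := h1 (rc t)
        rw [h, mulVec_zero] at this
        exact ht (funext fun i => by simpa [rc] using (congrFun this i).symm)
      have h4 := hp x hx _ h3
      rw [hs, h1, mulVec_mulVec] at h4
      beta_reduce
      generalize B x * (A x)⁻¹ = τ at h4 ⊢
      have h5 : (Bn (rc t, τ *ᵥ rc t) (star (rc t, τ *ᵥ rc t))).re =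
          2 * Real.pi * (star t ⬝ᵥ τ.map im *ᵥ t) := by
        simp only [Bn, dotProduct, rc, Prod.snd_star, Pi.star_apply, mulVec, star_sum, star_mul', RCLike.star_def, conj_ofReal, Finset.mul_sum, Prod.fst_star, ← Finset.sum_sub_distrib, re_sum, mul_re, ofReal_re, I_re, mul_zero, ofReal_im, I_im, mul_one, sub_self, sub_re, conj_re, conj_im, sub_zero, mul_im, neg_mul, zero_add, mul_neg, zero_mul, neg_zero, im_sum, add_zero, sub_im, Finset.sum_neg_distrib, zero_sub, star_trivial, map_apply]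
        rw [← Finset.sum_neg_distrib]
        refine Finset.sum_congr rfl fun i _ => ?_
        simp only [← Finset.mul_sum]
        ring
      rw [h5] at h4
      exact (mul_pos_iff_of_pos_left (by positivity)).1 h4
  · rw [Submodule.mem_span_range_iff_exists_fun]
    constructor
    · rintro ⟨c, rfl⟩
      rw [hs]
      simp only [mulVec_mulVec, Matrix.mul_assoc, nonsing_inv_mul _ hu, Matrix.mul_one]
    · intro h
      exact ⟨(A x)⁻¹ *ᵥ v.1, by rw [hs, h1, mulVec_mulVec, ← h]⟩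

/-- The same with an arbitrary index type. -/
theorem GRAPH' {P ι : Type*} [NormedAddCommGroup P] [NormedSpace ℂ P] [Fintype ι]
    (hι : Fintype.card ι = n) {X : Set P} {f : P → ι → Vn n}
    (hf : ∀ i, AnalyticOnNhd ℂ (fun x => f x i) X)
    (hL : ∀ x ∈ X, ∀ i j, Bn (f x i) (f x j) = 0)
    (hp : ∀ x ∈ X, ∀ c : ι → ℂ, c ≠ 0 →
      0 < (Bn (∑ i, c i • f x i) (star (∑ i, c i • f x i))).re) :
    ∃ τ : P → Matrix (Fin n) (Fin n) ℂ, (∀ i j, AnalyticOnNhd ℂ (fun x => τ x i j) X) ∧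
      ∀ x ∈ X, Sg (τ x) ∧
        ∀ v : Vn n, v ∈ Submodule.span ℂ (Set.range (f x)) ↔ v.2 = τ x *ᵥ v.1 := by
  let e := (Fintype.equivFinOfCardEq hι).symm
  obtain ⟨τ, h1, h2⟩ := GRAPH (f := fun x i => f x (e i)) (fun i => hf _)
    (fun x hx i j => hL x hx _ _) fun x hx c hc => by
      have := hp x hx (c ∘ e.symm) fun h => hc (funext fun i => by simpa using congrFun h (e i))
      rw [← e.sum_comp] at this
      simpa only [star_sum, star_smul, RCLike.star_def, gt_iff_lt, Function.comp_apply, Equiv.symm_apply_apply] using this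
  refine ⟨τ, h1, fun x hx => ⟨(h2 x hx).1, fun v => ?_⟩⟩
  rw [← (h2 x hx).2, ← e.surjective.range_comp (f x)]
  rfl

theorem uq_gen {G : Vn n → ℂ} {j : (Fin n → ℤ) →+ Vn n} (hj : ∀ l l', Bn (j l) (j l') = 0)
    (h : ∀ i y, exp (-Bn (j (Pi.single i 1)) y) * G (y + j (Pi.single i 1)) = G y)
    (l : Fin n → ℤ) : ∀ y, exp (-Bn (j l) y) * G (y + j l) = G y := by
  have ha : ∀ u v y : Vn n, Bn (u + v) y = Bn u y + Bn v y := fun u v y => by
    simp only [Bn, Prod.fst_add, Prod.snd_add, add_dotProduct]; ring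
  have hb : ∀ u v y : Vn n, Bn y (u + v) = Bn y u + Bn y v := fun u v y => by
    simp only [Bn, Prod.fst_add, Prod.snd_add, dotProduct_add]; ring
  have hadd : ∀ l l', (∀ y, exp (-Bn (j l) y) * G (y + j l) = G y) →
      (∀ y, exp (-Bn (j l') y) * G (y + j l') = G y) →
      ∀ y, exp (-Bn (j (l + l')) y) * G (y + j (l + l')) = G y := by
    intro l l' h1 h2 y
    rw [← h1 y, ← h2 (y + j l), hb, hj, map_add, ha, add_zero, neg_add, Complex.exp_add, add_assoc,
      mul_assoc]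
  have h0 : ∀ y, exp (-Bn (j 0) y) * G (y + j 0) = G y := fun y => by simp only [Bn, map_zero, Prod.fst_zero, zero_dotProduct, Prod.snd_zero, sub_self, mul_zero, neg_zero, exp_zero, add_zero, one_mul]
  have hneg : ∀ l, (∀ y, exp (-Bn (j l) y) * G (y + j l) = G y) →
      ∀ y, exp (-Bn (j (-l)) y) * G (y + j (-l)) = G y := by
    intro l h1 y
    have h2 := ha (j (-l)) (j l) y
    rw [← map_add, neg_add_cancel, map_zero] at h2
    rw [← h1 (y + j (-l)), hb, hj, add_zero, ← mul_assoc, ← Complex.exp_add, ← neg_add, ← h2,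
      add_assoc, ← map_add, neg_add_cancel]
    simp only [Bn, Prod.fst_zero, zero_dotProduct, Prod.snd_zero, sub_self, mul_zero, neg_zero, exp_zero, map_zero, add_zero, one_mul]
  induction l using Pi.single_induction with
  | zero => exact h0
  | add f g hf hg => exact hadd f g hf hg
  | single i m =>
    induction m using Int.induction_on with
    | zero => simpa only [Pi.single_zero, map_zero, add_zero, Prod.forall] using h0
    | succ k hk => rw [Pi.single_add]; exact hadd _ _ hk (h i)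
    | pred k hk =>
      rw [sub_eq_add_neg, Pi.single_add, Pi.single_neg (f := fun _ => ℤ) i 1]
      exact hadd _ _ hk (hneg _ (h i))

/-- Uniqueness, invariance under the generators only. -/
theorem UQ' {τ : Matrix (Fin n) (Fin n) ℂ} (hS : Sg τ) {G : Vn n → ℂ}
    (hG : AnalyticOnNhd ℂ G Set.univ)
    (hl : ∀ (i : Fin n) (y : Vn n),
      exp (-Bn (Pi.single i 1, 0) y) * G (y + (Pi.single i 1, 0)) = G y)
    (hm : ∀ (i : Fin n) (y : Vn n),
      exp (-Bn (0, Pi.single i 1) y) * G (y + (0, Pi.single i 1)) = G y)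
    (hT : ∀ (u : Fin n → ℂ) (y : Vn n),
      exp (-Bn y (u, τ *ᵥ u)) * G (y + (u, τ *ᵥ u)) = G y) : ∃ c : ℂ, ∀ y, G y = c * N τ y := by
  let z : (Fin n → ℤ) →+ (Fin n → ℂ) :=
    { toFun := zc, map_zero' := by ext; simp [zc], map_add' := fun _ _ => by ext; simp [zc] }
  have hz : ∀ i, z (Pi.single i 1) = Pi.single i 1 := fun i => by
    ext k
    simp only [z, zc, AddMonoidHom.coe_mk, ZeroHom.coe_mk, Pi.single_apply]
    split_ifs <;> simp
  refine UQ hS hG (uq_gen (j := (AddMonoidHom.inl _ _).comp z) (fun _ _ => by simp only [Bn, AddMonoidHom.coe_comp, Function.comp_apply, AddMonoidHom.inl_apply, dotProduct_zero, zero_dotProduct, sub_self, mul_zero]) ?_)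
    (uq_gen (j := (AddMonoidHom.inr _ _).comp z) (fun _ _ => by simp only [Bn, AddMonoidHom.coe_comp, Function.comp_apply, AddMonoidHom.inr_apply, zero_dotProduct, dotProduct_zero, sub_self, mul_zero]) ?_) hT
  · simpa only [AddMonoidHom.coe_comp, Function.comp_apply, hz, AddMonoidHom.inl_apply, Prod.forall, Prod.mk_add_mk, add_zero] using hl
  · simpa only [AddMonoidHom.coe_comp, Function.comp_apply, hz, AddMonoidHom.inr_apply, Prod.forall, Prod.mk_add_mk, add_zero] using hm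

end GPCW

end

section

/-! Siegel's lemma on a compact quotient: many sections are algebraically dependent. -/

namespace GPCW

open Metric Filter Topology Asymptotics

variable {σ : Type} [Fintype σ] [DecidableEq σ]

theorem sg_diag {k t : ℕ} (hk : k < t) (A : ContinuousMultilinearMap ℂ (fun _ : Fin k => σ → ℂ) ℂ)
    (y : σ → ℂ) :
    A (fun _ => y) = ∑ a ∈ Fintype.piFinset fun _ : σ => Finset.range t, (∏ c, y c ^ a c) *
      ∑ r : Fin k → σ with (fun c => (Finset.univ.filter fun i => r i = c).card) = a,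
        A fun i => Pi.single (r i) 1 := by
  have h1 : (fun _ : Fin k => y) = fun _ => ∑ c, y c • (Pi.single c 1 : σ → ℂ) :=
    funext fun _ => pi_eq_sum_univ' y
  rw [h1, A.map_sum, ← Finset.sum_fiberwise_of_maps_to
    (t := Fintype.piFinset fun _ : σ => Finset.range t)
    (g := fun r : Fin k → σ => fun c => (Finset.univ.filter fun i => r i = c).card)
    (fun r _ => Fintype.mem_piFinset.2 fun c => Finset.mem_range.2
      (lt_of_le_of_lt (by simpa only [Fintype.card_fin] using Finset.card_le_univ (α := Fin k) _) hk))]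
  refine Finset.sum_congr rfl fun a _ => ?_
  rw [Finset.mul_sum]
  refine Finset.sum_congr rfl fun r hr => ?_
  rw [A.map_smul_univ, ← (Finset.mem_filter.1 hr).2, ← Finset.prod_fiberwise' Finset.univ r y]
  simp only [Finset.prod_const, smul_eq_mul]

/-- Few linear conditions force a high order of vanishing at finitely many points. -/
theorem sg_jets {ι : Type} [Fintype ι] {T : Finset (σ → ℂ)} {g : ι → (σ → ℂ) → ℂ}
    (hg : ∀ μ, ∀ x ∈ T, AnalyticAt ℂ (g μ) x) {t : ℕ}
    (ht : T.card * t ^ Fintype.card σ < Fintype.card ι) :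
    ∃ c : ι → ℂ, c ≠ 0 ∧ ∀ x ∈ T,
      (fun y => ∑ μ, c μ * g μ (x + y)) =O[𝓝 0] fun y => ‖y‖ ^ t := by
  classical
  choose p hp using hg
  let M : Matrix (T × (Fintype.piFinset fun _ : σ => Finset.range t)) ι ℂ := fun q μ =>
    ∑ k ∈ Finset.range t,
      ∑ r : Fin k → σ with (fun c => (Finset.univ.filter fun i => r i = c).card) = q.2,
        p μ q.1 q.1.2 k fun i => Pi.single (r i) 1
  obtain ⟨c, hc, hc0⟩ := (Submodule.ne_bot_iff _).1
    (LinearMap.ker_ne_bot_of_finrank_lt (f := M.mulVecLin) (by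
      simpa only [Module.finrank_fintype_fun_eq_card, Fintype.card_prod, Fintype.card_coe,
        Fintype.card_piFinset, Finset.card_range, Finset.prod_const, Finset.card_univ] using ht))
  refine ⟨c, hc0, fun x hx => ?_⟩
  have h0 : ∀ y, ∑ μ, c μ * (p μ x hx).partialSum t y = 0 := fun y => by
    simp only [FormalMultilinearSeries.partialSum]
    rw [Finset.sum_congr rfl fun μ _ => by
      rw [Finset.sum_congr rfl fun k hk => sg_diag (Finset.mem_range.1 hk) (p μ x hx k) y,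
        Finset.sum_comm, Finset.mul_sum], Finset.sum_comm]
    refine Finset.sum_eq_zero fun a ha => ?_
    have h1 : ∑ μ, M (⟨x, hx⟩, ⟨a, ha⟩) μ * c μ = 0 := congrFun (LinearMap.mem_ker.1 hc) _
    rw [← mul_zero (∏ c, y c ^ a c), ← h1, Finset.mul_sum]
    exact Finset.sum_congr rfl fun μ _ => by rw [← Finset.mul_sum, mul_comm (c μ), mul_assoc]
  have h2 := IsBigO.sum (s := Finset.univ) fun μ _ =>
    ((hp μ x hx).isBigO_sub_partialSum_pow t).const_mul_left (c μ)
  refine h2.congr_left fun y => ?_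
  simp only [Finset.sum_apply, mul_sub, Finset.sum_sub_distrib, h0, sub_zero]

omit [DecidableEq σ] in
theorem sg_schwarz {f : (σ → ℂ) → ℂ} {x z : σ → ℂ} {r M : ℝ} {n : ℕ}
    (hd : DifferentiableOn ℂ f (ball x r)) (hM : ∀ y ∈ ball x r, ‖f y‖ ≤ M)
    (ho : (fun y => f (x + y)) =O[𝓝 0] fun y => ‖y‖ ^ (n + 1)) (hz : z ∈ ball x (r / 2)) :
    ‖f z‖ ≤ M * (1 / 2) ^ (n + 1) := by
  have hr : 0 < r := by linarith only [pos_of_mem_ball hz]
  have hM0 : 0 ≤ M := (norm_nonneg _).trans (hM x (mem_ball_self hr))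
  have h0 : f x = 0 := by simpa using ho.eq_zero_imp.self_of_nhds
  have h1 : (fun y => f (x + y)) =o[𝓝 0] fun y => ‖y‖ ^ n :=
    ho.trans_isLittleO (isLittleO_norm_pow_norm_pow (Nat.lt_succ_self n))
  have h2 : Tendsto (fun w => w - x) (𝓝 x) (𝓝 0) :=
    (continuous_id.sub continuous_const).tendsto' _ _ (sub_self x)
  have h3 := Complex.dist_le_mul_div_pow_of_mapsTo_ball_of_isLittleO (R₂ := M) (n := n) hd
    (fun y hy => by simpa only [h0, mem_closedBall, dist_zero_right] using hM y hy)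
    ((h1.comp_tendsto h2).congr (fun w => by simp [h0]) fun w => rfl)
    (ball_subset_ball (by linarith only [hr]) hz)
  rw [h0, dist_zero_right] at h3
  refine h3.trans ?_
  have h4 : dist z x / r ≤ 1 / 2 := by
    rw [div_le_iff₀ hr]
    linarith [mem_ball.1 hz]
  exact mul_le_mul_of_nonneg_left (pow_le_pow_left₀ (by positivity) h4 _) hM0

omit [DecidableEq σ] in
theorem siegelG {κ : Type} [Fintype κ] (hκ : Fintype.card σ < Fintype.card κ) {X K : Set (σ → ℂ)}
    (hX : IsOpen X) (hK : IsCompact K) (hKX : K ⊆ X) {s₀ : (σ → ℂ) → ℂ} {s : κ → (σ → ℂ) → ℂ}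
    (hs₀ : AnalyticOnNhd ℂ s₀ X) (hs : ∀ j, AnalyticOnNhd ℂ (s j) X) {h : (σ → ℂ) → ℝ}
    (h1 : ∀ x ∈ K, 1 ≤ h x) (hb : ∀ K' ⊆ X, IsCompact K' → ∃ C, ∀ x ∈ K', h x ≤ C)
    (hq : ∀ x ∈ X, ∃ x' ∈ K, ∃ c : ℂ, c ≠ 0 ∧ s₀ x' = c * s₀ x ∧ (∀ j, s j x' = c * s j x) ∧
      h x' = ‖c‖ * h x) :
    ∃ Q : MvPolynomial κ ℂ, Q ≠ 0 ∧ ∀ x ∈ X, s₀ x ≠ 0 →
      MvPolynomial.eval (fun j => s j x / s₀ x) Q = 0 := by
  classical
  obtain ⟨δ, hδ, hδX⟩ := hK.exists_cthickening_subset_open hX hKX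
  obtain ⟨C, hC⟩ := hb _ hδX hK.cthickening
  obtain ⟨T0, hTK, hTf, hT⟩ := finite_cover_balls_of_compact hK (half_pos hδ)
  obtain ⟨T, rfl⟩ := hTf.exists_finset_coe
  obtain ⟨q, hq'⟩ : ∃ q, q = Fintype.card κ := ⟨_, rfl⟩
  obtain ⟨a, ha⟩ := pow_unbounded_of_one_lt (|C| ^ q) (one_lt_two (α := ℝ))
  obtain ⟨L, hL⟩ : ∃ L, L = T.card * (a + 1) ^ Fintype.card σ := ⟨_, rfl⟩
  let g : (κ → Fin (L + 1)) → (σ → ℂ) → ℂ := fun μ x =>
    s₀ x ^ (q * L - ∑ j, (μ j : ℕ)) * ∏ j, s j x ^ (μ j : ℕ)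
  have hle : ∀ μ : κ → Fin (L + 1), ∑ j, (μ j : ℕ) ≤ q * L := fun μ =>
    hq' ▸ Finset.sum_le_card_nsmul _ _ _ fun j _ => Nat.lt_succ_iff.1 (μ j).2
  have hg : ∀ μ, AnalyticOnNhd ℂ (g μ) X := fun μ x hx =>
    ((hs₀ x hx).pow _).mul (Finset.analyticAt_fun_prod _ fun j _ => (hs _ x hx).pow _)
  obtain ⟨c, hc0, hc⟩ := sg_jets (T := T) (t := a * L + 1) (fun μ x hx => hg μ x (hKX (hTK hx)))
    (by
      have h2 : a * L + 1 ≤ (a + 1) * (L + 1) := by linarith only []
      calc T.card * (a * L + 1) ^ Fintype.card σ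
          ≤ T.card * ((a + 1) * (L + 1)) ^ Fintype.card σ := by gcongr
        _ = L * (L + 1) ^ Fintype.card σ := by rw [mul_pow, ← mul_assoc, ← hL]
        _ < (L + 1) ^ (Fintype.card σ + 1) := by rw [pow_succ']; gcongr; omega
        _ ≤ (L + 1) ^ Fintype.card κ := pow_le_pow_right₀ (by omega) hκ
        _ = _ := by simp only [Fintype.card_pi, Fintype.card_fin, Finset.prod_const, Finset.card_univ])
  let f : (σ → ℂ) → ℂ := fun x => ∑ μ, c μ * g μ x
  have hf : AnalyticOnNhd ℂ f X := fun x hx =>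
    Finset.analyticAt_fun_sum _ fun μ _ => analyticAt_const.mul (hg μ x hx)
  have hred : ∀ m : ℝ, (∀ x ∈ K, ‖f x‖ ≤ m * h x ^ (q * L)) →
      ∀ x ∈ X, ‖f x‖ ≤ m * h x ^ (q * L) := fun m hm x hx => by
    obtain ⟨x', hx', e, he, hse₀, hse, hhe⟩ := hq x hx
    have h2 : f x' = e ^ (q * L) * f x := by
      simp only [f, g, hse₀, hse, mul_pow, Finset.prod_mul_distrib, Finset.prod_pow_eq_pow_sum,
        Finset.mul_sum]
      refine Finset.sum_congr rfl fun μ _ => ?_
      conv_rhs => rw [← Nat.sub_add_cancel (hle μ), pow_add]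
      rw [Nat.sub_add_cancel (hle μ)]
      ring
    have h3 := hm x' hx'
    rw [h2, hhe, norm_mul, norm_pow, mul_pow, mul_left_comm] at h3
    exact le_of_mul_le_mul_left h3 (pow_pos (norm_pos_iff.2 he) _)
  obtain ⟨m0, hm0⟩ := hK.exists_bound_of_continuousOn (hf.continuousOn.mono hKX)
  have hit : ∀ n : ℕ, ∀ x ∈ X, ‖f x‖ ≤ |m0| * (1 / 2) ^ n * h x ^ (q * L) := fun n => by
    induction n with
    | zero =>
      refine hred _ fun x hx => (hm0 x hx).trans ((le_abs_self _).trans ?_)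
      rw [pow_zero, mul_one]
      exact le_mul_of_one_le_right (abs_nonneg _) (one_le_pow₀ (h1 x hx))
    | succ n ih =>
      refine hred _ fun z hz => ?_
      obtain ⟨x, hx, hzx⟩ := Set.mem_iUnion₂.1 (hT hz)
      have hB : ball x δ ⊆ cthickening δ K :=
        ball_subset_closedBall.trans (closedBall_subset_cthickening (hTK hx) δ)
      have h2 := sg_schwarz (M := |m0| * (1 / 2) ^ n * 2 ^ (a * L))
        (hf.differentiableOn.mono (hB.trans hδX)) (fun y hy => (ih y (hδX (hB hy))).trans (by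
          gcongr
          rw [pow_mul, pow_mul]
          obtain ⟨y', hy', e, he, -, -, hhe⟩ := hq y (hδX (hB hy))
          have h3 : 0 < h y := pos_of_mul_pos_right
            (hhe ▸ one_pos.trans_le (h1 y' hy')) (norm_nonneg e)
          have h4 := (hC y (hB hy)).trans (le_abs_self C)
          gcongr
          exact (pow_le_pow_left₀ (by linarith only [h3]) h4 q).trans ha.le)) (hc x hx) hzx
      refine h2.trans (le_trans (le_of_eq ?_)
        (le_mul_of_one_le_right (by positivity) (one_le_pow₀ (h1 z hz))))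
      rw [pow_succ, pow_succ, one_div_pow (n := a * L)]
      field_simp
  have hf0 : ∀ x ∈ X, f x = 0 := fun x hx => by
    have h2 : Tendsto (fun n : ℕ => |m0| * (1 / 2 : ℝ) ^ n * h x ^ (q * L)) atTop (𝓝 0) := by
      simpa only [one_div, inv_pow, mul_zero, zero_mul] using ((tendsto_pow_atTop_nhds_zero_of_lt_one (r := (1 / 2 : ℝ)) (by norm_num)
        (by norm_num)).const_mul |m0|).mul_const (h x ^ (q * L))
    exact norm_le_zero_iff.1 (ge_of_tendsto' h2 fun n => hit n x hx)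
  let d : (κ → Fin (L + 1)) → (κ →₀ ℕ) := fun μ =>
    Finsupp.equivFunOnFinite.symm fun j => (μ j : ℕ)
  have hd : Function.Injective d := fun μ ν e => funext fun j =>
    Fin.ext (by simpa [d] using congrArg (fun w => w j) e)
  refine ⟨∑ μ, MvPolynomial.monomial (d μ) (c μ), fun e => hc0 (funext fun μ => ?_),
    fun x hx h0 => ?_⟩
  · have h2 := congrArg (MvPolynomial.coeff (d μ)) e
    simpa [MvPolynomial.coeff_sum, MvPolynomial.coeff_monomial, hd.eq_iff] using h2
  · refine mul_left_cancel₀ (pow_ne_zero (q * L) h0) ?_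
    rw [mul_zero, ← hf0 x hx, map_sum, Finset.mul_sum]
    refine Finset.sum_congr rfl fun μ _ => ?_
    rw [MvPolynomial.eval_monomial, Finsupp.prod_fintype _ _ (fun _ => pow_zero _)]
    simp only [d, g, Finsupp.coe_equivFunOnFinite_symm, div_pow, Finset.prod_div_distrib,
      Finset.prod_pow_eq_pow_sum]
    conv_lhs => rw [← Nat.sub_add_cancel (hle μ), pow_add]
    field_simp

theorem siegel {X K : Set (Fin 2 → ℂ)} (hX : IsOpen X) (hK : IsCompact K) (hKX : K ⊆ X)
    {s : Fin 4 → (Fin 2 → ℂ) → ℂ} (hs : ∀ j, AnalyticOnNhd ℂ (s j) X) {h : (Fin 2 → ℂ) → ℝ}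
    (h1 : ∀ x ∈ X, 1 ≤ h x) (hb : ∀ K' ⊆ X, IsCompact K' → ∃ C, ∀ x ∈ K', h x ≤ C)
    (hq : ∀ x ∈ X, ∃ x' ∈ K, ∃ c : ℂ, c ≠ 0 ∧ (∀ j, s j x' = c * s j x) ∧ h x' = ‖c‖ * h x) :
    ∃ Q : MvPolynomial (Fin 3) ℂ, Q ≠ 0 ∧ ∀ x ∈ X, s 0 x ≠ 0 →
      MvPolynomial.eval (fun j => s j.succ x / s 0 x) Q = 0 :=
  siegelG (by simp) hX hK hKX (hs 0) (fun j => hs j.succ) (fun x hx => h1 x (hKX hx)) hb fun x hx =>
    let ⟨x', hx', c, hc, h2, h3⟩ := hq x hx
    ⟨x', hx', c, hc, h2 0, fun j => h2 j.succ, h3⟩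

end GPCW

end

section

/-! Descent of an analytic relation to `ℚ̄` at two points. -/

open Filter Topology Asymptotics

namespace GPCW

variable {ι : Type} [Fintype ι] [DecidableEq ι]

/-- `S` generates over `ℚ̄` a ring of germs at `x0` with algebraic values at `x0` that is stable
under the derivations `ρ i • ∂ i`, `ρ i x0 ≠ 0`. -/
def Jet (x0 : ι → ℂ) (S : Set ((ι → ℂ) → ℂ)) : Prop :=
  ∃ ρ : ι → (ι → ℂ) → ℂ, (∀ i, AnalyticAt ℂ (ρ i) x0 ∧ ρ i x0 ≠ 0) ∧
    ∀ g ∈ S, AnalyticAt ℂ g x0 ∧ IsAlgebraic ℚ (g x0) ∧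
      ∀ i, ∃ g' ∈ Algebra.adjoin (algebraicClosure ℚ ℂ) S,
        (fun x => ρ i x * fderiv ℂ g x (Pi.single i 1)) =ᶠ[𝓝 x0] g'

/-- A set of germs vanishing at `x0` and stable under the derivations consists of zero germs. -/
theorem desc_zero {x0 : ι → ℂ} {ρ : ι → (ι → ℂ) → ℂ}
    (hρ : ∀ i, AnalyticAt ℂ (ρ i) x0 ∧ ρ i x0 ≠ 0) {I : Set ((ι → ℂ) → ℂ)}
    (hI : ∀ g ∈ I, AnalyticAt ℂ g x0 ∧ g x0 = 0 ∧ ∀ i, ∃ g' ∈ I,
      (fun x => ρ i x * fderiv ℂ g x (Pi.single i 1)) =ᶠ[𝓝 x0] g')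
    {g : (ι → ℂ) → ℂ} (hg : g ∈ I) : g =ᶠ[𝓝 x0] 0 := by
  have key : ∀ n : ℕ, ∀ g ∈ I, g =o[𝓝 x0] fun x => ‖x - x0‖ ^ n := by
    intro n
    induction n with
    | zero =>
      intro g hg
      obtain ⟨ha, h0, -⟩ := hI g hg
      simp only [pow_zero]
      rw [isLittleO_one_iff, ← h0]
      exact ha.continuousAt
    | succ n ih =>
      intro g hg
      obtain ⟨ha, h0, hD⟩ := hI g hg
      have h1 : ∀ i, (fun x => fderiv ℂ g x (Pi.single i 1)) =o[𝓝 x0] fun x => ‖x - x0‖ ^ n := by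
        intro i
        obtain ⟨g', hg', e⟩ := hD i
        have hc := (hρ i).1.continuousAt
        have hb : (fun x => (ρ i x)⁻¹) =O[𝓝 x0] fun _ => (1 : ℝ) :=
          (hc.inv₀ (hρ i).2).isBigO_one ℝ
        have h2 := hb.mul_isLittleO (ih g' hg')
        refine h2.congr' ?_ (Eventually.of_forall fun x => one_mul _)
        filter_upwards [e, hc.eventually_ne (hρ i).2] with x hx hx'
        rw [← hx, inv_mul_cancel_left₀ hx']
      have h2 : (fun x => fderiv ℂ g x) =o[𝓝 x0] fun x => ‖x - x0‖ ^ n := by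
        have e : ∀ x, fderiv ℂ g x = ∑ i, fderiv ℂ g x (Pi.single i 1) •
            (ContinuousLinearMap.proj i : (ι → ℂ) →L[ℂ] ℂ) := by
          intro x
          ext v
          conv_lhs => rw [pi_eq_sum_univ' v, map_sum]
          simp only [map_smul, smul_eq_mul, sum_apply, smul_apply, ContinuousLinearMap.proj_apply, mul_comm]
        refine (IsLittleO.fun_sum (s := Finset.univ) fun i _ => ?_).congr_left
          fun x => (e x).symm
        refine IsLittleO.of_norm_left ?_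
        simp only [norm_smul]
        exact ((h1 i).norm_left.const_mul_left _).congr_left fun x => mul_comm _ _
      obtain ⟨r, hr, hb⟩ := Metric.eventually_nhds_iff_ball.1 ha.eventually_analyticAt
      have h3 := (convex_ball x0 r).isLittleO_pow_succ (𝕜 := ℂ) (f := g) (f' := fderiv ℂ g)
        (Metric.mem_ball_self hr)
        (fun x hx => (hb x hx).differentiableAt.hasFDerivAt.hasFDerivWithinAt)
        (h2.mono nhdsWithin_le_nhds)
      rw [nhdsWithin_eq_nhds.2 (Metric.ball_mem_nhds x0 hr)] at h3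
      simpa only [h0, sub_zero] using h3
  obtain ⟨ha, h0, -⟩ := hI g hg
  have hb : ∀ᶠ x in 𝓝 x0, AnalyticAt ℂ g x ∧ dist (g x) (g x0) < 1 :=
    ha.eventually_analyticAt.and (Metric.tendsto_nhds.1 ha.continuousAt 1 one_pos)
  obtain ⟨r, hr, hb⟩ := Metric.eventually_nhds_iff_ball.1 hb
  filter_upwards [Metric.ball_mem_nhds x0 hr] with z hz
  have h1 : ∀ n : ℕ, dist (g z) (g x0) ≤ 1 * (dist z x0 / r) ^ (n + 1) := fun n =>
    Complex.dist_le_mul_div_pow_of_mapsTo_ball_of_isLittleO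
      (fun x hx => (hb x hx).1.differentiableAt.differentiableWithinAt)
      (fun x hx => (hb x hx).2.le) (by simpa only [h0, sub_zero] using key n g hg) hz
  have h2 : Tendsto (fun n : ℕ => 1 * (dist z x0 / r) ^ (n + 1)) atTop (𝓝 (1 * 0)) :=
    ((tendsto_pow_atTop_nhds_zero_of_lt_one (by positivity)
      ((div_lt_one hr).2 hz)).comp (tendsto_add_atTop_nat 1)).const_mul 1
  have h3 := ge_of_tendsto' h2 h1
  rw [mul_zero, dist_le_zero, h0] at h3
  exact h3

theorem desc_ring {x0 : ι → ℂ} {ρ : ι → (ι → ℂ) → ℂ} {S : Set ((ι → ℂ) → ℂ)}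
    (hS : ∀ g ∈ S, AnalyticAt ℂ g x0 ∧ IsAlgebraic ℚ (g x0) ∧
      ∀ i, ∃ g' ∈ Algebra.adjoin (algebraicClosure ℚ ℂ) S,
        (fun x => ρ i x * fderiv ℂ g x (Pi.single i 1)) =ᶠ[𝓝 x0] g')
    {g : (ι → ℂ) → ℂ} (hg : g ∈ Algebra.adjoin (algebraicClosure ℚ ℂ) S) :
    AnalyticAt ℂ g x0 ∧ IsAlgebraic ℚ (g x0) ∧
      ∀ i, ∃ g' ∈ Algebra.adjoin (algebraicClosure ℚ ℂ) S,
        (fun x => ρ i x * fderiv ℂ g x (Pi.single i 1)) =ᶠ[𝓝 x0] g' := by
  induction hg using Algebra.adjoin_induction with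
  | mem g hg => exact hS g hg
  | algebraMap r =>
    refine ⟨analyticAt_const, mem_algebraicClosure_iff.1 r.2, fun i => ⟨0, zero_mem _, ?_⟩⟩
    refine Eventually.of_forall fun x => ?_
    have : (algebraMap (algebraicClosure ℚ ℂ) ((ι → ℂ) → ℂ) r) = fun _ => (r : ℂ) := rfl
    simp [this]
  | add f g _ _ hf hg =>
    refine ⟨hf.1.add hg.1, hf.2.1.add hg.2.1, fun i => ?_⟩
    obtain ⟨f', hf', e1⟩ := hf.2.2 i
    obtain ⟨g', hg', e2⟩ := hg.2.2 i
    refine ⟨f' + g', add_mem hf' hg', ?_⟩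
    filter_upwards [e1, e2, hf.1.eventually_analyticAt, hg.1.eventually_analyticAt]
      with x h1 h2 h3 h4
    rw [fderiv_add h3.differentiableAt h4.differentiableAt, Pi.add_apply, ← h1, ← h2]
    simp [mul_add]
  | mul f g hf0 hg0 hf hg =>
    refine ⟨hf.1.mul hg.1, hf.2.1.mul hg.2.1, fun i => ?_⟩
    obtain ⟨f', hf', e1⟩ := hf.2.2 i
    obtain ⟨g', hg', e2⟩ := hg.2.2 i
    refine ⟨f * g' + g * f', add_mem (mul_mem hf0 hg') (mul_mem hg0 hf'), ?_⟩
    filter_upwards [e1, e2, hf.1.eventually_analyticAt, hg.1.eventually_analyticAt]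
      with x h1 h2 h3 h4
    rw [fderiv_mul h3.differentiableAt h4.differentiableAt, Pi.add_apply, Pi.mul_apply,
      Pi.mul_apply, ← h1, ← h2]
    simp only [add_apply, smul_apply, smul_eq_mul]
    ring

/-- DESC: a linear relation between germs of the ring survives any `ℚ̄`-linear map applied to its
coefficients. -/
theorem Jet.desc {x0 : ι → ℂ} {S : Set ((ι → ℂ) → ℂ)} (hS : Jet x0 S) {κ : Type} (T : Finset κ)
    (a : κ → ℂ) (π : ℂ →ₗ[algebraicClosure ℚ ℂ] ℂ) {f : κ → (ι → ℂ) → ℂ}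
    (hf : ∀ m, f m ∈ Algebra.adjoin (algebraicClosure ℚ ℂ) S)
    (h : ∀ᶠ x in 𝓝 x0, ∑ m ∈ T, a m * f m x = 0) :
    ∀ᶠ x in 𝓝 x0, ∑ m ∈ T, π (a m) * f m x = 0 := by
  obtain ⟨ρ, hρ, hS⟩ := hS
  refine desc_zero hρ (I := {g | ∃ f : κ → (ι → ℂ) → ℂ,
    (∀ m, f m ∈ Algebra.adjoin (algebraicClosure ℚ ℂ) S) ∧
    (∀ᶠ x in 𝓝 x0, ∑ m ∈ T, a m * f m x = 0) ∧ g = fun x => ∑ m ∈ T, π (a m) * f m x}) ?_
    ⟨f, hf, h, rfl⟩
  rintro g ⟨f, hf, h, rfl⟩
  have hr := fun m => desc_ring hS (hf m)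
  refine ⟨Finset.analyticAt_fun_sum _ fun m _ => analyticAt_const.mul (hr m).1, ?_, fun i => ?_⟩
  · have h0 := congrArg π h.self_of_nhds
    rw [map_zero, map_sum] at h0
    refine Eq.trans (Finset.sum_congr rfl fun m _ => ?_) h0
    have := π.map_smul ⟨f m x0, mem_algebraicClosure_iff.2 (hr m).2.1⟩ (a m)
    rw [mul_comm, mul_comm (a m)]
    exact this.symm
  · choose f' hf' e using fun m => (hr m).2.2 i
    have hD : ∀ b : κ → ℂ, (fun x => ρ i x * fderiv ℂ (fun y => ∑ m ∈ T, b m * f m y) x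
        (Pi.single i 1)) =ᶠ[𝓝 x0] fun x => ∑ m ∈ T, b m * f' m x := by
      intro b
      filter_upwards [(eventually_all_finset T).2 fun m _ => e m,
        (eventually_all_finset T).2 fun m _ => (hr m).1.eventually_analyticAt] with x h1 h2
      rw [fderiv_fun_sum fun m hm => (h2 m hm).differentiableAt.const_mul _,
        sum_apply, Finset.mul_sum]
      refine Finset.sum_congr rfl fun m hm => ?_
      rw [fderiv_const_mul (h2 m hm).differentiableAt, ← h1 m hm]
      simp only [smul_apply, smul_eq_mul]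
      ring
    refine ⟨_, ⟨f', hf', ?_, rfl⟩, hD _⟩
    have h' : (fun x => ∑ m ∈ T, a m * f m x) =ᶠ[𝓝 x0] fun _ => 0 := h
    filter_upwards [hD a, h'.fderiv (𝕜 := ℂ)] with x h1 h2
    rw [← h1, h2]
    simp

section

open MvPolynomial

variable {κ : Type} [Fintype κ] [DecidableEq κ] {X : Set (ι → ℂ)} {s₀ : (ι → ℂ) → ℂ}

omit [DecidableEq ι] [DecidableEq κ] in
/-- The identity theorem for a relation between quotients of sections. -/
theorem desc_tr (hc : IsPreconnected X) {s : κ → (ι → ℂ) → ℂ} (hs₀ : AnalyticOnNhd ℂ s₀ X)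
    (hs : ∀ j, AnalyticOnNhd ℂ (s j) X) (T : Finset (κ →₀ ℕ)) (a : (κ →₀ ℕ) → ℂ) {x : ι → ℂ}
    (hx : x ∈ X) (h0 : s₀ x ≠ 0)
    (h : ∀ᶠ y in 𝓝 x, ∑ α ∈ T, a α * ∏ j, (s j y / s₀ y) ^ α j = 0) :
    ∀ y ∈ X, s₀ y ≠ 0 → ∑ α ∈ T, a α * ∏ j, (s j y / s₀ y) ^ α j = 0 := by
  obtain ⟨N, hN⟩ : ∃ N, ∀ α ∈ T, ∑ j, α j ≤ N :=
    ⟨T.sup fun α => ∑ j, α j, fun α hα => Finset.le_sup (f := fun α : κ →₀ ℕ => ∑ j, α j) hα⟩
  let P : (ι → ℂ) → ℂ := fun y => ∑ α ∈ T, a α * (s₀ y ^ (N - ∑ j, α j) * ∏ j, s j y ^ α j)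
  have hP : AnalyticOnNhd ℂ P X := fun y hy => Finset.analyticAt_fun_sum _ fun α _ =>
    analyticAt_const.mul (((hs₀ y hy).pow _).mul
      (Finset.analyticAt_fun_prod _ fun j _ => (hs j y hy).pow _))
  have e : ∀ y, s₀ y ≠ 0 → P y = s₀ y ^ N * ∑ α ∈ T, a α * ∏ j, (s j y / s₀ y) ^ α j := by
    intro y hy
    rw [Finset.mul_sum]
    refine Finset.sum_congr rfl fun α hα => ?_
    obtain ⟨d, hd⟩ := Nat.exists_eq_add_of_le (hN α hα)
    rw [hd, Nat.add_sub_cancel_left]
    simp only [div_pow, pow_add, Finset.prod_div_distrib, Finset.prod_pow_eq_pow_sum]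
    field_simp
  intro y hy hy'
  have hz := hP.eqOn_zero_of_preconnected_of_eventuallyEq_zero hc hx (by
    filter_upwards [h, (hs₀ x hx).continuousAt.eventually_ne h0] with y hy hy'
    rw [e y hy', hy, mul_zero, Pi.zero_apply]) hy
  rw [e y hy', Pi.zero_apply] at hz
  exact (mul_eq_zero.1 hz).resolve_left (pow_ne_zero _ hy')

omit [DecidableEq κ] in
/-- DESC for monomials. -/
theorem Jet.mon {x : ι → ℂ} {S : Set ((ι → ℂ) → ℂ)} (hS : Jet x S) {u : κ → (ι → ℂ) → ℂ}
    {c : κ → ℂ} (hc : ∀ j, c j ≠ 0) (hu : ∀ j, ∃ f ∈ Algebra.adjoin (algebraicClosure ℚ ℂ) S,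
      u j =ᶠ[𝓝 x] fun y => c j * f y) (T : Finset (κ →₀ ℕ)) (a : (κ →₀ ℕ) → ℂ)
    (π : ℂ →ₗ[algebraicClosure ℚ ℂ] ℂ) (h : ∀ᶠ y in 𝓝 x, ∑ α ∈ T, a α * ∏ j, u j y ^ α j = 0) :
    ∀ᶠ y in 𝓝 x, ∑ α ∈ T, π (a α * ∏ j, c j ^ α j) / (∏ j, c j ^ α j) * ∏ j, u j y ^ α j = 0 := by
  choose f hf e using hu
  have := hS.desc T (fun α => a α * ∏ j, c j ^ α j) π (f := fun α => ∏ j, f j ^ α j)
    (fun α => prod_mem fun j _ => pow_mem (hf j) _) (by
      filter_upwards [h, eventually_all.2 e] with y hy e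
      refine Eq.trans (Finset.sum_congr rfl fun α _ => ?_) hy
      simp only [Finset.prod_apply, Pi.pow_apply, e, mul_pow, Finset.prod_mul_distrib, mul_assoc])
  filter_upwards [this, eventually_all.2 e] with y hy e
  refine Eq.trans (Finset.sum_congr rfl fun α _ => ?_) hy
  simp only [Finset.prod_apply, Pi.pow_apply, e, mul_pow, Finset.prod_mul_distrib, ← mul_assoc]
  rw [div_mul_cancel₀ _ (Finset.prod_ne_zero_iff.2 fun j _ => pow_ne_zero _ (hc j))]

omit [DecidableEq κ] in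
/-- A relation over `ℂ` between sections whose quotients by `w` have algebraic jets at one point
gives a relation over `ℚ̄`. -/
theorem desc_hom (hX : IsOpen X) (hc : IsPreconnected X) {s : κ → (ι → ℂ) → ℂ}
    (hs₀ : AnalyticOnNhd ℂ s₀ X) (hs : ∀ j, AnalyticOnNhd ℂ (s j) X) {Q : MvPolynomial κ ℂ}
    (hQ : Q ≠ 0) (hQ0 : ∀ x ∈ X, s₀ x ≠ 0 → eval (fun j => s j x / s₀ x) Q = 0) {x : ι → ℂ}
    (hx : x ∈ X) {S : Set ((ι → ℂ) → ℂ)} (hS : Jet x S) {w : (ι → ℂ) → ℂ}
    (hw : ∀ᶠ y in 𝓝 x, w y ≠ 0)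
    (h0 : ∃ f ∈ Algebra.adjoin (algebraicClosure ℚ ℂ) S, (fun y => s₀ y / w y) =ᶠ[𝓝 x] f)
    (h1 : ∀ j, ∃ f ∈ Algebra.adjoin (algebraicClosure ℚ ℂ) S,
      (fun y => s j y / w y) =ᶠ[𝓝 x] f) :
    ∃ Q' : MvPolynomial κ (algebraicClosure ℚ ℂ), Q' ≠ 0 ∧
      ∀ y ∈ X, s₀ y ≠ 0 → aeval (fun j => s j y / s₀ y) Q' = 0 := by
  classical
  obtain ⟨β, hβ⟩ := Finset.nonempty_iff_ne_empty.2 (mt support_eq_empty.1 hQ)
  obtain ⟨π, hπ⟩ := not_forall.1 (mt (Module.forall_dual_apply_eq_zero_iff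
    (algebraicClosure ℚ ℂ) _).1 (mem_support_iff.1 hβ))
  obtain ⟨N, hN⟩ : ∃ N, ∀ α ∈ Q.support, ∑ j, α j < N := ⟨(Q.support.sup fun α => ∑ j, α j) + 1,
    fun α hα => Nat.lt_succ_of_le (Finset.le_sup (f := fun α : κ →₀ ℕ => ∑ j, α j) hα)⟩
  let P : ((κ →₀ ℕ) → ℂ) → ℂ → (κ → ℂ) → ℂ := fun a u₀ u =>
    ∑ α ∈ Q.support, a α * (u₀ ^ (N - ∑ j, α j) * ∏ j, u j ^ α j)
  have e : ∀ a u₀ u (t : ℂ), t ≠ 0 → P a u₀ u = t ^ N * P a (u₀ / t) fun j => u j / t := by
    intro a u₀ u t ht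
    rw [Finset.mul_sum]
    refine Finset.sum_congr rfl fun α hα => ?_
    obtain ⟨d, hd⟩ := Nat.exists_eq_add_of_le (hN α hα).le
    rw [hd, Nat.add_sub_cancel_left]
    simp only [div_pow, pow_add, Finset.prod_div_distrib, Finset.prod_pow_eq_pow_sum]
    field_simp
  obtain ⟨f₀, hf₀, e₀⟩ := h0
  choose f hf e₁ using h1
  have e₂ : ∀ᶠ y in 𝓝 x, ∀ a, P a (s₀ y) (fun j => s j y) = w y ^ N *
      ∑ α ∈ Q.support, a α * (f₀ ^ (N - ∑ j, α j) * ∏ j, f j ^ α j) y := by
    filter_upwards [hw, e₀, eventually_all.2 e₁] with y h1 h2 h3 a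
    rw [e a _ _ _ h1]
    simp only [h2, h3, P, Pi.mul_apply, Pi.pow_apply, Finset.prod_apply]
  have h2 := hS.desc Q.support (fun α => coeff α Q) (Algebra.linearMap _ ℂ ∘ₗ π)
    (f := fun α => f₀ ^ (N - ∑ j, α j) * ∏ j, f j ^ α j)
    (fun α => mul_mem (pow_mem hf₀ _) (prod_mem fun j _ => pow_mem (hf j) _)) (by
      filter_upwards [hw, e₂, hX.mem_nhds hx] with y h1 h2 h3
      refine mul_left_cancel₀ (pow_ne_zero N h1) ?_
      rw [← h2, mul_zero]
      by_cases h4 : s₀ y = 0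
      · exact Finset.sum_eq_zero fun α hα => by
          rw [h4, zero_pow (Nat.sub_ne_zero_of_lt (hN α hα)), zero_mul, mul_zero]
      · have := (eval_eq' _ _).symm.trans (hQ0 y h3 h4)
        rw [e _ _ _ _ h4]
        simp only [div_self h4, P, one_pow, one_mul, this, mul_zero])
  have hP : AnalyticOnNhd ℂ (fun y => P (fun α => π (coeff α Q)) (s₀ y) fun j => s j y) X :=
    fun y hy => Finset.analyticAt_fun_sum _ fun α _ => analyticAt_const.mul (((hs₀ y hy).pow _).mul
      (Finset.analyticAt_fun_prod _ fun j _ => (hs j y hy).pow _))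
  refine ⟨∑ α ∈ Q.support, monomial α (π (coeff α Q)), fun h => hπ ?_, fun y hy hy' => ?_⟩
  · simpa only [coeff_sum, coeff_monomial, Finset.sum_ite_eq', hβ, ↓ reduceIte, coeff_zero] using congrArg (coeff β) h
  · have h3 : P _ _ _ = 0 := hP.eqOn_zero_of_preconnected_of_eventuallyEq_zero hc hx (by
      filter_upwards [h2, e₂] with y h1 h2
      exact (h2 _).trans (mul_eq_zero_of_right _ h1)) hy
    rw [e _ _ _ _ hy', div_self hy'] at h3
    rw [← (mul_eq_zero.1 h3).resolve_left (pow_ne_zero _ hy'), map_sum]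
    refine Finset.sum_congr rfl fun α _ => ?_
    rw [aeval_monomial, Finsupp.prod_fintype _ _ fun _ => pow_zero _, one_pow, one_mul]
    rfl

/-- FIN: if the quotients `s j / s₀` are algebraically dependent, the `s (some i) / s₀` are local
coordinates at `x 0` with algebraic jets at two points, and `s none / s₀` has algebraic jets up to
the factors `c 0`, `c 1`, then `c 1 / c 0` is algebraic. -/
theorem descent' (hX : IsOpen X) (hc : IsPreconnected X) {s : Option ι → (ι → ℂ) → ℂ}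
    (hs₀ : AnalyticOnNhd ℂ s₀ X) (hs : ∀ j, AnalyticOnNhd ℂ (s j) X)
    {Q : MvPolynomial (Option ι) ℂ} (hQ : Q ≠ 0)
    (hQ0 : ∀ x ∈ X, s₀ x ≠ 0 → eval (fun j => s j x / s₀ x) Q = 0)
    {x : Fin 2 → ι → ℂ} (hx : ∀ k, x k ∈ X) (h0 : ∀ k, s₀ (x k) ≠ 0)
    {S : Fin 2 → Set ((ι → ℂ) → ℂ)} (hS : ∀ k, Jet (x k) (S k)) {c : Fin 2 → ℂ} (hc0 : c 0 ≠ 0)
    (h1 : ∀ k i, ∃ f ∈ Algebra.adjoin (algebraicClosure ℚ ℂ) (S k),
      (fun y => s (some i) y / s₀ y) =ᶠ[𝓝 (x k)] f)
    (h3 : ∀ k, ∃ f ∈ Algebra.adjoin (algebraicClosure ℚ ℂ) (S k),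
      (fun y => s none y / s₀ y) =ᶠ[𝓝 (x k)] fun y => c k * f y)
    (hJ : Function.Surjective (fderiv ℂ (fun y i => s (some i) y / s₀ y) (x 0)))
    (h30 : s none (x 0) ≠ 0) : IsAlgebraic ℚ (c 1 / c 0) := by
  by_contra ht
  have hc1 : c 1 ≠ 0 := fun h => ht (by rw [h, zero_div]; exact isAlgebraic_zero)
  have hck : ∀ k, c k ≠ 0 := Fin.forall_fin_two.2 ⟨hc0, hc1⟩
  have hne : ∀ k, ∀ᶠ y in 𝓝 (x k), y ∈ X ∧ s₀ y ≠ 0 := fun k =>
    .and (hX.mem_nhds (hx k)) ((hs₀ _ (hx k)).continuousAt.eventually_ne (h0 k))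
  let W : ((Option ι →₀ ℕ) → ℂ) → Prop := fun a => ∀ y ∈ X, s₀ y ≠ 0 →
    ∑ α ∈ Q.support, a α * ∏ j, (s j y / s₀ y) ^ α j = 0
  have st : ∀ a k (π : ℂ →ₗ[algebraicClosure ℚ ℂ] ℂ), W a →
      W fun α => π (a α * c k ^ α none) / c k ^ α none := fun a k π h =>
    desc_tr hc hs₀ hs _ _ (hx k) (h0 k) (by
      simpa only [Fintype.prod_option, Option.elim, one_pow, Finset.prod_const_one, mul_one] using
        (hS k).mon (u := fun j y => s j y / s₀ y) (c := fun j => j.elim (c k) fun _ => 1)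
          (Option.forall.2 ⟨hck k, fun _ => one_ne_zero⟩)
          (Option.forall.2 ⟨h3 k, by simpa only [Option.elim, one_mul] using h1 k⟩) Q.support a π
          ((hne k).mono fun y hy => h y hy.1 hy.2))
  obtain ⟨β, hβ⟩ := Finset.nonempty_iff_ne_empty.2 (mt support_eq_empty.1 hQ)
  obtain ⟨π, hπ⟩ := not_forall.1 (mt (Module.forall_dual_apply_eq_zero_iff
    (algebraicClosure ℚ ℂ) _).1 (mul_ne_zero (mem_support_iff.1 hβ) (pow_ne_zero (β none) hc0)))
  have htr : Transcendental (algebraicClosure ℚ ℂ) (c 1 / c 0) :=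
    haveI : Algebra.IsAlgebraic ℚ (algebraicClosure ℚ ℂ) := ⟨fun z =>
      (isAlgebraic_algebraMap_iff (algebraMap (algebraicClosure ℚ ℂ) ℂ).injective).1
        (mem_algebraicClosure_iff.1 z.2)⟩
    (Algebra.IsAlgebraic.transcendental_iff ℚ (algebraicClosure ℚ ℂ)).1 ht
  obtain ⟨g, hg⟩ := (Polynomial.aeval (R := algebraicClosure ℚ ℂ)
    (c 1 / c 0)).toLinearMap.exists_leftInverse_of_injective
    (LinearMap.ker_eq_bot.2 (transcendental_iff_injective.1 htr))
  let b : (Option ι →₀ ℕ) → ℂ := fun α =>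
    if β none = α none then (π (coeff α Q * c 0 ^ α none) : ℂ) / c 1 ^ β none else 0
  have w2 : W b := by
    convert st _ 1 (Algebra.linearMap _ ℂ ∘ₗ Polynomial.lcoeff _ (β none) ∘ₗ g)
      (st _ 0 (Algebra.linearMap _ ℂ ∘ₗ π) fun y hy hy' =>
        (eval_eq' _ _).symm.trans (hQ0 y hy hy')) using 2 with α
    have e : (Algebra.linearMap (algebraicClosure ℚ ℂ) ℂ ∘ₗ π) (coeff α Q * c 0 ^ α none) /
        c 0 ^ α none * c 1 ^ α none = Polynomial.aeval (c 1 / c 0)
          (Polynomial.monomial (α none) (π (coeff α Q * c 0 ^ α none))) := by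
      rw [Polynomial.aeval_monomial, div_pow]
      simp only [LinearMap.comp_apply, Algebra.linearMap_apply]
      ring
    have e2 := LinearMap.congr_fun hg
      (Polynomial.monomial (α none) (π (coeff α Q * c 0 ^ α none)))
    simp only [LinearMap.comp_apply, AlgHom.toLinearMap_apply, LinearMap.id_apply] at e2
    rw [e]
    simp only [LinearMap.comp_apply, e2, Polynomial.lcoeff_apply, Polynomial.coeff_monomial,
      Algebra.linearMap_apply, b]
    by_cases h : β none = α none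
    · rw [if_pos h, if_pos h.symm, h]
      rfl
    · rw [if_neg h, if_neg (Ne.symm h), map_zero, zero_div]
  let R : MvPolynomial ι ℂ := ∑ α ∈ Q.support, monomial α.some (b α)
  have hF : AnalyticAt ℂ (fun y i => s (some i) y / s₀ y) (x 0) :=
    analyticAt_pi_iff.2 fun i => (hs _ _ (hx 0)).div (hs₀ _ (hx 0)) (h0 0)
  have o1 := hF.hasStrictFDerivAt.map_nhds_eq_of_surj (LinearMap.range_eq_top.2 hJ)
  have o2 : ∀ᶠ u in 𝓝 fun i => s (some i) (x 0) / s₀ (x 0), eval u R = 0 := by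
    rw [← o1, eventually_map]
    filter_upwards [hne 0, (hs none _ (hx 0)).continuousAt.eventually_ne h30] with y hy a3
    refine (mul_eq_zero.1 (Eq.trans ?_ (w2 y hy.1 hy.2))).resolve_right
      (pow_ne_zero (β none) (div_ne_zero a3 hy.2))
    rw [map_sum, Finset.sum_mul]
    refine Finset.sum_congr rfl fun α _ => ?_
    rw [eval_monomial, Finsupp.prod_fintype _ _ fun _ => pow_zero _, Fintype.prod_option]
    by_cases h : β none = α none
    · simp only [h, Finsupp.some_apply]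
      ring
    · simp only [b, Fin.isValue, h, ↓ reduceIte, Finsupp.some_apply, zero_mul]
  have o3 := (AnalyticOnNhd.eval_mvPolynomial R).eqOn_zero_of_preconnected_of_eventuallyEq_zero
    isPreconnected_univ (Set.mem_univ _) o2
  have o4 : R = 0 := MvPolynomial.funext fun y => (o3 (Set.mem_univ y)).trans (map_zero _).symm
  have o5 := congrArg (coeff β.some) o4
  rw [coeff_sum, coeff_zero, Finset.sum_eq_single_of_mem β hβ, coeff_monomial, if_pos rfl] at o5
  · simp only [b, if_true, div_eq_zero_iff, pow_ne_zero _ hc1, or_false] at o5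
    exact hπ (Subtype.ext o5)
  · intro α _ hα
    rw [coeff_monomial]
    split_ifs with h
    · exact if_neg fun h' => hα (Finsupp.ext
        (Option.forall.2 ⟨h'.symm, fun i => DFunLike.congr_fun h i⟩))
    · rfl

theorem descent {X : Set (Fin 2 → ℂ)} (hc : IsPreconnected X) {s : Fin 4 → (Fin 2 → ℂ) → ℂ}
    (hs : ∀ j, AnalyticOnNhd ℂ (s j) X) {Q : MvPolynomial (Fin 3) ℂ} (hQ : Q ≠ 0)
    (hQ0 : ∀ x ∈ X, s 0 x ≠ 0 → MvPolynomial.eval (fun j => s j.succ x / s 0 x) Q = 0)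
    (hX : IsOpen X) {x : Fin 2 → Fin 2 → ℂ} (hx : ∀ k, x k ∈ X) (h0 : ∀ k, s 0 (x k) ≠ 0)
    {S : Fin 2 → Set ((Fin 2 → ℂ) → ℂ)} (hS : ∀ k, Jet (x k) (S k)) {c : Fin 2 → ℂ}
    (hc0 : c 0 ≠ 0)
    (h1 : ∀ k, ∃ f ∈ Algebra.adjoin (algebraicClosure ℚ ℂ) (S k),
      (fun y => s 1 y / s 0 y) =ᶠ[𝓝 (x k)] f)
    (h2 : ∀ k, ∃ f ∈ Algebra.adjoin (algebraicClosure ℚ ℂ) (S k),
      (fun y => s 2 y / s 0 y) =ᶠ[𝓝 (x k)] f)
    (h3 : ∀ k, ∃ f ∈ Algebra.adjoin (algebraicClosure ℚ ℂ) (S k),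
      (fun y => s 3 y / s 0 y) =ᶠ[𝓝 (x k)] fun y => c k * f y)
    (hJ : Function.Surjective
      (fderiv ℂ (fun y => (![s 1 y / s 0 y, s 2 y / s 0 y] : Fin 2 → ℂ)) (x 0)))
    (h30 : s 3 (x 0) ≠ 0) : IsAlgebraic ℚ (c 1 / c 0) := by
  refine descent' (s := fun j => s (finSuccEquivLast.symm j).succ) hX hc (hs 0) (fun _ => hs _)
    (Q := rename finSuccEquivLast Q)
    (fun h => hQ (rename_injective _ finSuccEquivLast.injective (h.trans (map_zero _).symm)))
    (fun y hy hy' => ?_) hx h0 hS hc0 (fun k => Fin.forall_fin_two.2 ⟨h1 k, h2 k⟩) h3 ?_ h30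
  · simpa only [eval_rename, Function.comp_def, Equiv.symm_apply_apply] using hQ0 y hy hy'
  · convert hJ with y i
    fin_cases i <;> rfl

end

end GPCW

end
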